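import Pool.Agent.Helper24.WH.St1
import Pool.Agent.Helper24.WH.St2
import Pool.Agent.Helper24.WH.St3
import Pool.Agent.Helper24.WH.St4

set_option autoImplicit false

section

set_option autoImplicit false

namespace Pool.Agent.Helper24.WH

open Set TopologicalSpace Ordinal Topology

private theorem sub_HO {X : Type} (τ : TopologicalSpace X) (z : Set X → Set X) (B : Set X) :
    HomOp τ z B ⊆ B := by
  rintro x ⟨W, ⟨hW, -⟩, hx⟩
  exact hW hx

private theorem mem_HO {X : Type} (τ : TopologicalSpace X) (z : Set X → Set X) {W B : Set X}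
    (h1 : W ⊆ B) (h2 : W ⊆ closure[τ] (z W)) : W ⊆ HomOp τ z B :=
  fun _ hx => ⟨W, ⟨h1, h2⟩, hx⟩

private theorem cl_HO {X : Type} (τ : TopologicalSpace X) (z : Set X → Set X)
    (hz : ∀ A B, A ⊆ B → z A ⊆ z B) (B : Set X) :
    HomOp τ z B ⊆ closure[τ] (z (HomOp τ z B)) := by
  rintro x ⟨W, ⟨hW, hW2⟩, hx⟩
  have h1 : W ⊆ HomOp τ z B := mem_HO τ z hW hW2
  exact @closure_mono X τ _ _ (hz _ _ h1) _ (hW2 hx)

theorem hHO : StHO := by
  intro X τ z hz
  refine ⟨sub_HO τ z, ?_, cl_HO τ z hz, fun W B => mem_HO τ z, ?_, ?_, ?_, ?_⟩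
  · rintro A B hAB x ⟨W, ⟨hW, hW2⟩, hx⟩
    exact ⟨W, ⟨hW.trans hAB, hW2⟩, hx⟩
  · intro B hB
    have h1 : closure[τ] (HomOp τ z B) ⊆ HomOp τ z B := by
      refine mem_HO τ z ?_ ?_
      · exact @closure_minimal X τ _ _ (sub_HO τ z B) hB
      · refine (@closure_minimal X τ _ _ (cl_HO τ z hz B) (@isClosed_closure X τ _)).trans ?_
        exact @closure_mono X τ _ _ (hz _ _ (@subset_closure X τ _))
    exact @isClosed_of_closure_subset X τ _ h1
  · intro B
    exact Set.Subset.antisymm (sub_HO τ z _) (mem_HO τ z subset_rfl (cl_HO τ z hz B))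
  · intro hloc O B hO
    refine Set.Subset.antisymm ?_ ?_
    · rintro x ⟨W, ⟨hW, hW2⟩, hx⟩
      exact ⟨⟨W, ⟨hW.trans inter_subset_left, hW2⟩, hx⟩, (hW hx).2⟩
    · refine mem_HO τ z (inter_subset_inter_left _ (sub_HO τ z B)) ?_
      rintro x ⟨hx, hxO⟩
      have h1 := cl_HO τ z hz B hx
      have hop : IsOpen[τ] O := @IsClopen.isOpen X τ _ hO
      have h2 : x ∈ closure[τ] (z (HomOp τ z B) ∩ O) := by
        rw [inter_comm]
        exact @IsOpen.inter_closure X τ _ _ hop _ ⟨hxO, h1⟩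
      rwa [← hloc O _ hO] at h2
  · intro τ' z' hτ hz' B
    rintro x ⟨W, ⟨hW, hW2⟩, hx⟩
    refine ⟨W, ⟨hW, ?_⟩, hx⟩
    exact (hW2.trans (@closure_mono X τ' _ _ (hz' W))).trans (closure.mono hτ)

end Pool.Agent.Helper24.WH

end

section

/-!
# PROJECT WH (MP_76577a_lc), module IT
-/

set_option autoImplicit false

namespace Pool.Agent.Helper24.WH

open Set TopologicalSpace Ordinal Topology

theorem mem_iter_IT {X : Type} {d : Set X → Set X} {B : Set X} {α : Ordinal.{0}} {x : X} :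
    x ∈ iter d B α ↔ x ∈ B ∧ ∀ β < α, x ∈ d (iter d B β) := by
  rw [iter]
  simp only [mem_inter_iff, mem_iInter, Subtype.forall, mem_Iio]

theorem iter_sub_IT {X : Type} {d : Set X → Set X} (B : Set X) (α : Ordinal.{0}) :
    iter d B α ⊆ B := fun _ h => (mem_iter_IT.1 h).1

theorem iter_anti_IT {X : Type} {d : Set X → Set X} (B : Set X) {α β : Ordinal.{0}}
    (h : α ≤ β) : iter d B β ⊆ iter d B α := fun _ hx =>
  mem_iter_IT.2 ⟨(mem_iter_IT.1 hx).1, fun γ hγ => (mem_iter_IT.1 hx).2 γ (hγ.trans_le h)⟩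

theorem iter_zero_IT {X : Type} {d : Set X → Set X} (B : Set X) : iter d B 0 = B :=
  Subset.antisymm (iter_sub_IT B 0) fun _ hx =>
    mem_iter_IT.2 ⟨hx, fun β hβ => absurd hβ (not_lt.2 zero_le)⟩

theorem iter_succ_IT {X : Type} {d : Set X → Set X} (hm : ∀ A B, A ⊆ B → d A ⊆ d B)
    (hl : ∀ B, d B ⊆ B) (B : Set X) (α : Ordinal.{0}) :
    iter d B (α + 1) = d (iter d B α) := by
  have hlt : α < α + 1 := by
    exact Order.lt_add_one_iff.2 le_rfl
  refine Subset.antisymm (fun x hx => (mem_iter_IT.1 hx).2 α hlt) fun x hx => ?_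
  refine mem_iter_IT.2 ⟨iter_sub_IT B α (hl _ hx), fun β hβ => ?_⟩
  have hβ' : β ≤ α := by
    exact Order.lt_add_one_iff.1 hβ
  exact hm _ _ (iter_anti_IT B hβ') hx

theorem iter_mono_IT {X : Type} {d : Set X → Set X} (hm : ∀ A B, A ⊆ B → d A ⊆ d B)
    {A B : Set X} (h : A ⊆ B) (α : Ordinal.{0}) : iter d A α ⊆ iter d B α := by
  induction α using WellFoundedLT.induction with
  | ind α ih =>
    intro x hx
    rw [mem_iter_IT] at hx ⊢
    exact ⟨h hx.1, fun β hβ => hm _ _ (ih β hβ) (hx.2 β hβ)⟩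

theorem iter_fix_IT {X : Type} {d : Set X → Set X} (hm : ∀ A B, A ⊆ B → d A ⊆ d B)
    {W B : Set X} (h : W ⊆ B) (hW : W ⊆ d W) (α : Ordinal.{0}) : W ⊆ iter d B α := by
  induction α using WellFoundedLT.induction with
  | ind α ih =>
    intro x hx
    rw [mem_iter_IT]
    exact ⟨h hx, fun β hβ => hm _ _ (ih β hβ) (hW hx)⟩

theorem iter_le_IT {X : Type} {d d' : Set X → Set X} (hm : ∀ A B, A ⊆ B → d A ⊆ d B)
    (h : ∀ B, d' B ⊆ d B) (B : Set X) (α : Ordinal.{0}) : iter d' B α ⊆ iter d B α := by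
  induction α using WellFoundedLT.induction with
  | ind α ih =>
    intro x hx
    rw [mem_iter_IT] at hx ⊢
    exact ⟨hx.1, fun β hβ => hm _ _ (ih β hβ) (h _ (hx.2 β hβ))⟩

theorem iter_add_IT {X : Type} {d : Set X → Set X} (B : Set X) (α β : Ordinal.{0}) :
    iter d B (α + β) = iter d (iter d B α) β := by
  induction β using WellFoundedLT.induction with
  | ind β ih =>
    ext x
    constructor
    · intro hx
      rw [mem_iter_IT]
      refine ⟨iter_anti_IT B (le_self_add) hx, fun δ hδ => ?_⟩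
      rw [← ih δ hδ]
      exact (mem_iter_IT.1 hx).2 _ (add_lt_add_right hδ α)
    · intro hx
      rw [mem_iter_IT] at hx
      rw [mem_iter_IT]
      refine ⟨iter_sub_IT B α hx.1, fun γ hγ => ?_⟩
      rcases lt_or_ge γ α with h | h
      · exact (mem_iter_IT.1 hx.1).2 γ h
      · have hδ : γ - α < β := by
          rw [Ordinal.sub_lt_of_le h]
          exact hγ
        have := hx.2 (γ - α) hδ
        rw [← ih _ hδ, Ordinal.add_sub_cancel_of_le h] at this
        exact this

theorem hIT : StIT := by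
  intro X d hm hl
  refine ⟨iter_zero_IT, iter_succ_IT hm hl, fun B α β h => iter_anti_IT B h,
    fun A B α h => iter_mono_IT hm h α, iter_add_IT, iter_sub_IT, ?_, ?_,
    fun B W α h hW => iter_fix_IT hm h hW α, fun d' h B α => iter_le_IT hm h B α⟩
  · intro B α hα
    refine Subset.antisymm (fun x hx => ?_) fun x hx => ?_
    · simp only [mem_iInter, Subtype.forall, mem_Iio]
      exact fun β hβ => iter_anti_IT B hβ.le hx
    · simp only [mem_iInter, Subtype.forall, mem_Iio] at hx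
      have h0 : (0 : Ordinal.{0}) < α := by
        rw [pos_iff_ne_zero]
        exact hα.ne_bot
      refine mem_iter_IT.2 ⟨iter_sub_IT B 0 (hx 0 h0), fun β hβ => ?_⟩
      have h1 : β + 1 < α := by
        have := hα.succ_lt hβ
        rwa [Order.succ_eq_add_one] at this
      have := hx _ h1
      rwa [iter_succ_IT hm hl] at this
  · intro B α h
    exact Subset.antisymm (iter_sub_IT B α) (iter_fix_IT hm Subset.rfl h α)

end Pool.Agent.Helper24.WH

end

section

set_option autoImplicit false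

namespace Pool.Agent.Helper24.WH

open Set TopologicalSpace Ordinal Topology

variable {X : Type}

private theorem iter_eq_IL (d : Set X → Set X) (B : Set X) (α : Ordinal.{0}) :
    iter d B α = B ∩ ⋂ β : Iio α, d (iter d B β.1) := by
  rw [iter]

private theorem mem_iter_IL (d : Set X → Set X) (B : Set X) (α : Ordinal.{0}) (x : X) :
    x ∈ iter d B α ↔ x ∈ B ∧ ∀ β, β < α → x ∈ d (iter d B β) := by
  rw [iter_eq_IL]
  constructor
  · rintro ⟨h1, h2⟩
    refine ⟨h1, fun β hβ => ?_⟩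
    exact (mem_iInter.1 h2) ⟨β, hβ⟩
  · rintro ⟨h1, h2⟩
    exact ⟨h1, mem_iInter.2 (fun β => h2 β.1 β.2)⟩

private theorem mono_IL (d : Set X → Set X) (hd : ∀ A B, A ⊆ B → d A ⊆ d B) (A B : Set X)
    (h : A ⊆ B) (α : Ordinal.{0}) : iter d A α ⊆ iter d B α := by
  induction α using WellFoundedLT.induction with
  | ind α ih =>
    intro x hx
    rw [mem_iter_IL] at hx ⊢
    exact ⟨h hx.1, fun β hβ => hd _ _ (ih β hβ) (hx.2 β hβ)⟩

private theorem loc_IL (τ : TopologicalSpace X) (d : Set X → Set X) (hd : IsDer τ d) (O B : Set X)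
    (hO : Clp τ O) (α : Ordinal.{0}) : iter d (B ∩ O) α = iter d B α ∩ O := by
  induction α using WellFoundedLT.induction with
  | ind α ih =>
    ext x
    rw [mem_inter_iff, mem_iter_IL, mem_iter_IL]
    constructor
    · rintro ⟨⟨h1, h2⟩, h3⟩
      refine ⟨⟨h1, fun β hβ => ?_⟩, h2⟩
      have := h3 β hβ
      rw [ih β hβ, hd.loc O _ hO] at this
      exact this.1
    · rintro ⟨⟨h1, h3⟩, h2⟩
      refine ⟨⟨h1, h2⟩, fun β hβ => ?_⟩
      rw [ih β hβ, hd.loc O _ hO]
      exact ⟨h3 β hβ, h2⟩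

private theorem closed_IL (τ : TopologicalSpace X) (d : Set X → Set X) (hd : IsDer τ d) (B : Set X)
    (hB : IsClosed[τ] B) (α : Ordinal.{0}) : IsClosed[τ] (iter d B α) := by
  induction α using WellFoundedLT.induction with
  | ind α ih =>
    rw [iter_eq_IL]
    exact @IsClosed.inter X B _ τ hB
      (@isClosed_iInter X _ τ _ (fun β => hd.closed _ (ih β.1 β.2)))

theorem hIL : StIL := by
  intro X τ d hd α
  refine ⟨fun A B h => mono_IL d hd.mono A B h α, fun B x hx => ((mem_iter_IL d B α x).1 hx).1,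
    fun O B hO => loc_IL τ d hd O B hO α, fun B hB => closed_IL τ d hd B hB α⟩

end Pool.Agent.Helper24.WH

end

section

/-!
# PROJECT WH, module SC: splitting of the closure operators
-/

set_option autoImplicit false

namespace Pool.Agent.Helper24.WH

open Set TopologicalSpace Ordinal Topology

/-- splitting of the closure operators -/
theorem hSC : StSC := by
  intro X S _ τ g e G hG hCE s k B₀ B₁ B hB
  obtain ⟨hinj, hind, hcl⟩ := hCE
  have hemb : IsClosedEmbedding e := ⟨⟨⟨hind⟩, hinj⟩, hcl.1⟩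
  have hopen : IsOpen (range e) := hcl.2
  have h1 : closure (g ⁻¹' {s} ∩ B) ∩ range e = closure ((g ⁻¹' {s} ∩ B) ∩ range e) := by
    apply Subset.antisymm
    · exact hopen.closure_inter
    · refine subset_inter (closure_mono inter_subset_left) ?_
      exact closure_minimal inter_subset_right hcl.1
  have h2 : (g ⁻¹' {s} ∩ B) ∩ range e = ⋃ q, ⋃ p ∈ {p : S × S | G p = s},
      e '' ((g ⁻¹' {p.1} ∩ B₀ q) ×ˢ (g ⁻¹' {p.2} ∩ B₁ q)) := by
    rw [inter_assoc, hB]
    ext y
    simp only [mem_inter_iff, mem_preimage, mem_singleton_iff, mem_iUnion, mem_image, mem_prod,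
      mem_ofPred_eq, exists_prop, Prod.exists]
    constructor
    · rintro ⟨hy, q, x, z, ⟨hx, hz⟩, rfl⟩
      exact ⟨q, g x, g z, by rw [← hy, hG], x, z, ⟨⟨rfl, hx⟩, ⟨rfl, hz⟩⟩, rfl⟩
    · rintro ⟨q, a, c, hac, x, z, ⟨⟨hx1, hx2⟩, ⟨hz1, hz2⟩⟩, rfl⟩
      exact ⟨by rw [hG, hx1, hz1, hac], q, x, z, ⟨hx2, hz2⟩, rfl⟩
  have h3 : closure[τ] (g ⁻¹' {s} ∩ B) ∩ range e = closure ((g ⁻¹' {s} ∩ B) ∩ range e) := h1
  rw [h3, h2, closure_iUnion_of_finite]
  refine iUnion_congr fun q => ?_
  rw [(Set.toFinite {p : S × S | G p = s}).closure_biUnion]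
  refine iUnion₂_congr fun p _ => ?_
  rw [hemb.closure_image_eq, closure_prod_eq]

end Pool.Agent.Helper24.WH

end

section

/-!
# WH module ZA (3.2): the operators are antitone in the term
-/

set_option autoImplicit false

namespace Pool.Agent.Helper24.WH

open Set TopologicalSpace Ordinal Topology

private theorem clm_ZA {X : Type} (τ : TopologicalSpace X) {A B : Set X} (h : A ⊆ B) :
    closure[τ] A ⊆ closure[τ] B :=
  closure_mono h

private theorem hop_le_ZA {X : Type} (τ : TopologicalSpace X) (z : Set X → Set X) (B : Set X) :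
    HomOp τ z B ⊆ B := by
  rintro x ⟨W, ⟨h1, _⟩, hx⟩
  exact h1 hx

private theorem hop_mono_ZA {X : Type} (τ : TopologicalSpace X) (z : Set X → Set X) {A B : Set X}
    (h : A ⊆ B) : HomOp τ z A ⊆ HomOp τ z B := by
  rintro x ⟨W, ⟨h1, h2⟩, hx⟩
  exact ⟨W, ⟨h1.trans h, h2⟩, hx⟩

private theorem hop_anti_ZA {X : Type} (τ : TopologicalSpace X) {z z' : Set X → Set X}
    (h : ∀ B, z' B ⊆ z B) (B : Set X) : HomOp τ z' B ⊆ HomOp τ z B := by
  rintro x ⟨W, ⟨h1, h2⟩, hx⟩
  exact ⟨W, ⟨h1, h2.trans (closure_mono (h W))⟩, hx⟩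

private theorem hop_self_ZA {X : Type} (τ : TopologicalSpace X) {z : Set X → Set X}
    (hz : ∀ A B, A ⊆ B → z A ⊆ z B) (B : Set X) :
    HomOp τ z B ⊆ closure[τ] (z (HomOp τ z B)) := by
  rintro x ⟨W, hW, hx⟩
  exact closure_mono (hz _ _ (subset_sUnion_of_mem hW)) (hW.2 hx)

private theorem hop_in_ZA {X : Type} (τ : TopologicalSpace X) (z : Set X → Set X) {W B : Set X}
    (h1 : W ⊆ B) (h2 : W ⊆ closure[τ] (z W)) : W ⊆ HomOp τ z B :=
  fun _ hx => ⟨W, ⟨h1, h2⟩, hx⟩

private theorem mono_ZA {X S : Type} (τ : ℕ → TopologicalSpace X) (g : X → S) : ∀ (m : ℕ) (t : TT S m)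
    (A B : Set X), A ⊆ B → Z τ g m t A ⊆ Z τ g m t B := by
  intro m
  cases m with
  | zero => exact fun t A B h => inter_subset_inter_left _ h
  | succ m =>
    intro t
    change Tr (TT S m) at t
    induction t with
    | leaf U => exact fun A B h => hop_mono_ZA _ _ h
    | node U F ih => exact fun A B h => hop_mono_ZA _ _ (iInter_mono fun i => ih i A B h)

private theorem le_ZA {X S : Type} (τ : ℕ → TopologicalSpace X) (g : X → S) (m : ℕ) (t : Tr (TT S m))
    (B : Set X) : Z τ g (m + 1) t B ⊆ B := by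
  induction t with
  | leaf U => exact hop_le_ZA _ _ _
  | node U F ih => exact (hop_le_ZA _ _ _).trans ((iInter_subset _ 0).trans (ih 0))

private theorem val_ZA {X S : Type} (τ : ℕ → TopologicalSpace X) (g : X → S) (m : ℕ) (t : Tr (TT S m))
    (B : Set X) : Z τ g (m + 1) t B ⊆ closure[τ (m + 1)] (Z τ g m t.lab (Z τ g (m + 1) t B)) := by
  cases t with
  | leaf U => exact hop_self_ZA _ (mono_ZA τ g m U) _
  | node U F => exact hop_self_ZA _ (mono_ZA τ g m U) _

private theorem anti_ZA {X S : Type} (τ : ℕ → TopologicalSpace X) (g : X → S) : ∀ (m : ℕ)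
    (t t' : TT S m), TT.Le m t t' → ∀ B : Set X, Z τ g m t' B ⊆ Z τ g m t B := by
  intro m
  induction m with
  | zero =>
    intro t t' h B
    change t = t' at h
    rw [h]
  | succ m ihm =>
    intro t t' h B
    change Tr (TT S m) at t t'
    change Tr.Le (TT.Le m) t t' at h
    induction h with
    | sub t U' F' j _ ih =>
      exact (hop_le_ZA _ _ _).trans ((iInter_subset _ j).trans ih)
    | leaf U t' hU =>
      exact hop_in_ZA _ _ (le_ZA τ g m t' B)
        ((val_ZA τ g m t' B).trans (clm_ZA (τ (m + 1)) (ihm U t'.lab hU _)))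
    | node U F t' hU _ ih =>
      exact hop_in_ZA _ _ (subset_iInter fun i => ih i)
        ((val_ZA τ g m t' B).trans (clm_ZA (τ (m + 1)) (ihm U t'.lab hU _)))

theorem hZA : StZA := by
  intro X S τ g m
  have h2 : ∀ (t t' : TT S m), TT.Le m t t' → ∀ B : Set X, hom τ g m t' B ⊆ hom τ g m t B :=
    fun t t' h B => hop_anti_ZA _ (fun W => anti_ZA τ g m t t' h W) B
  refine ⟨anti_ZA τ g m, h2, ?_, mono_ZA τ g m⟩
  intro L L' h B
  refine subset_iInter fun i => ?_
  obtain ⟨j, hj⟩ := h i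
  exact (iInter_subset _ j).trans (h2 _ _ hj B)

end Pool.Agent.Helper24.WH

end

section

set_option autoImplicit false

namespace Pool.Agent.Helper24.WH

open Set TopologicalSpace Ordinal Topology

private lemma closure_ZF {X : Type} {τ τ' : TopologicalSpace X} (h : τ' ≤ τ) (A : Set X) :
    closure[τ'] A ⊆ closure[τ] A := by
  have h1 : IsClosed[τ'] (closure[τ] A) := (@isClosed_closure X τ A).mono h
  exact closure_minimal (@subset_closure X τ A) h1

private lemma homOp_mono_ZF {X : Type} (τ : TopologicalSpace X) (z : Set X → Set X) {A B : Set X}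
    (h : A ⊆ B) : HomOp τ z A ⊆ HomOp τ z B :=
  sUnion_subset_sUnion fun _ hW => ⟨hW.1.trans h, hW.2⟩

private lemma homOp_le_ZF {X : Type} {τ τ' : TopologicalSpace X} (h : τ' ≤ τ)
    {z z' : Set X → Set X} (hz : ∀ B, z' B ⊆ z B) (B : Set X) :
    HomOp τ' z' B ⊆ HomOp τ z B :=
  sUnion_subset_sUnion fun W hW =>
    ⟨hW.1, hW.2.trans ((closure_ZF h _).trans (@closure_mono X τ _ _ (hz W)))⟩

private lemma ztr_ZF {X A : Type} (h h' : A → Set X → Set X) (hm : ∀ U B C, B ⊆ C → h U B ⊆ h U C)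
    (hh : ∀ U B, h' U B ⊆ h U B) : ∀ (t : Tr A) (B : Set X), ZTr h' t B ⊆ ZTr h t B
  | .leaf U, B => hh U B
  | .node U F, B =>
      (hh U _).trans (hm U _ _ (iInter_mono fun i => ztr_ZF h h' hm hh (F i) B))

private lemma z_ZF {X S : Type} (τ τ' : ℕ → TopologicalSpace X) (g : X → S)
    (h : ∀ m, τ' m ≤ τ m) : ∀ (m : ℕ) (t : TT S m) (B : Set X), Z τ' g m t B ⊆ Z τ g m t B
  | 0, _, _ => Subset.rfl
  | (m + 1), t, B => by
      change ZTr (fun U => HomOp (τ' (m + 1)) (Z τ' g m U)) t B ⊆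
        ZTr (fun U => HomOp (τ (m + 1)) (Z τ g m U)) t B
      exact ztr_ZF (fun U => HomOp (τ (m + 1)) (Z τ g m U)) (fun U => HomOp (τ' (m + 1)) (Z τ' g m U))
        (fun U B C hBC => homOp_mono_ZF _ _ hBC)
        (fun U B => homOp_le_ZF (h (m + 1)) (z_ZF τ τ' g h m U) B) t B

private lemma dL_ZF {X S : Type} (τ τ' : ℕ → TopologicalSpace X) (g : X → S)
    (h : ∀ m, τ' m ≤ τ m) (m : ℕ) (L : ℕ → TT S m) (B : Set X) :
    dL τ' g m L B ⊆ dL τ g m L B :=
  iInter_mono fun i => homOp_le_ZF (h (m + 1)) (z_ZF τ τ' g h m (L i)) B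

private lemma dL_mono_ZF {X S : Type} (τ : ℕ → TopologicalSpace X) (g : X → S) (m : ℕ)
    (L : ℕ → TT S m) {A B : Set X} (h : A ⊆ B) : dL τ g m L A ⊆ dL τ g m L B :=
  iInter_mono fun _ => homOp_mono_ZF _ _ h

private lemma iter_ZF {X : Type} (d d' : Set X → Set X) (hm : ∀ A B, A ⊆ B → d A ⊆ d B)
    (hh : ∀ B, d' B ⊆ d B) (B : Set X) (α : Ordinal.{0}) : iter d' B α ⊆ iter d B α := by
  induction α using WellFoundedLT.induction with
  | ind α ih =>
    rw [iter, iter]
    intro x hx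
    refine ⟨hx.1, ?_⟩
    rw [mem_iInter]
    intro β
    have h1 := mem_iInter.1 hx.2 β
    exact hm _ _ (ih β.1 β.2) (hh _ h1)

/-- a finer tower gives smaller sets -/
theorem hZF : StZF := by
  intro X S τ τ' g h m
  refine ⟨z_ZF τ τ' g h m, dL_ZF τ τ' g h m, fun L B α => ?_⟩
  exact iter_ZF _ _ (fun A B hAB => dL_mono_ZF τ g m L hAB) (dL_ZF τ τ' g h m L) B α

end Pool.Agent.Helper24.WH

end

section

/-!
# PROJECT WH (MP_76577a_lc), module NT: basic facts on node topologies
-/

set_option autoImplicit false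

namespace Pool.Agent.Helper24.WH

open Set TopologicalSpace Topology
open Ordinal hiding univ

section NT

variable {A : Type}

private theorem sub_nil_NT (t : Tre A) : t.sub [] = t := rfl

private theorem sub_sub_NT (t : Tre A) (u v : List Bool) : (t.sub u).sub v = t.sub (u ++ v) := by
  funext w
  simp only [Tre.sub, List.append_assoc]

private theorem mk_sub_false_NT (a : A) (p : Tre A × Tre A) (v : List Bool) :
    (Tre.mk a p).sub (false :: v) = p.1.sub v := rfl

private theorem mk_sub_true_NT (a : A) (p : Tre A × Tre A) (v : List Bool) :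
    (Tre.mk a p).sub (true :: v) = p.2.sub v := rfl

private theorem mk_inj_NT (a : A) : Function.Injective (Tre.mk a) := by
  intro p p' h
  refine Prod.ext ?_ ?_
  · funext v
    exact congrFun h (false :: v)
  · funext v
    exact congrFun h (true :: v)

private theorem range_mk_NT (a : A) : range (Tre.mk a) = {t : Tre A | t [] = a} := by
  ext t
  constructor
  · rintro ⟨p, rfl⟩
    rfl
  · intro h
    refine ⟨(fun v => t (false :: v), fun v => t (true :: v)), ?_⟩
    funext w
    match w with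
    | [] => exact h.symm
    | false :: v => rfl
    | true :: v => rfl

private theorem anti_NT (G G' : Set (Set (Tre A))) (h : G ⊆ G') : nt G' ≤ nt G := by
  apply generateFrom_anti
  refine union_subset_union_right _ ?_
  rintro U ⟨F, hF, u, rfl⟩
  exact ⟨F, h hF, u, rfl⟩

private theorem open_node_NT (G : Set (Set (Tre A))) (u : List Bool) (a : A) :
    IsOpen[nt G] {t : Tre A | t u = a} :=
  isOpen_generateFrom_of_mem (Or.inl ⟨u, a, rfl⟩)

private theorem open_sub_NT (G : Set (Set (Tre A))) {F : Set (Tre A)} (hF : F ∈ G) (u : List Bool) :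
    IsOpen[nt G] {t : Tre A | t.sub u ∈ F} :=
  isOpen_generateFrom_of_mem (Or.inr ⟨F, hF, u, rfl⟩)

private theorem open_mem_NT (G : Set (Set (Tre A))) {F : Set (Tre A)} (hF : F ∈ G) :
    IsOpen[nt G] F := open_sub_NT G hF []

private theorem cont_sub_NT (G : Set (Set (Tre A))) (u : List Bool) :
    @Continuous _ _ (nt G) (nt G) (fun t : Tre A => t.sub u) := by
  let _ := nt G
  refine continuous_generateFrom_iff.2 ?_
  rintro U (⟨v, a, rfl⟩ | ⟨F, hF, v, rfl⟩)
  · exact open_node_NT G (u ++ v) a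
  · have : (fun t : Tre A => t.sub u) ⁻¹' {t : Tre A | t.sub v ∈ F} =
        {t : Tre A | t.sub (u ++ v) ∈ F} := by
      ext t
      simp only [mem_preimage, mem_ofPred_eq, sub_sub_NT]
    rw [this]
    exact open_sub_NT G hF (u ++ v)

private theorem clp_node_NT (G : Set (Set (Tre A))) (u : List Bool) (a : A) :
    Clp (nt G) {t : Tre A | t u = a} := by
  let _ := nt G
  refine ⟨⟨?_⟩, open_node_NT G u a⟩
  have : {t : Tre A | t u = a}ᶜ = ⋃ b ∈ {b : A | b ≠ a}, {t : Tre A | t u = b} := by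
    ext t
    simp only [mem_compl_iff, mem_ofPred_eq, mem_iUnion, exists_prop]
    constructor
    · intro h
      exact ⟨t u, h, rfl⟩
    · rintro ⟨b, hb, h⟩ h'
      exact hb (h.symm.trans h')
  rw [this]
  exact isOpen_biUnion fun b _ => open_node_NT G u b

private theorem zd_NT (G : Set (Set (Tre A))) (hG : ∀ F ∈ G, IsClosed[nt G] F) : ZD (nt G) := by
  let _ := nt G
  have key : ∀ U : Set (Tre A), IsOpen U → ∀ x ∈ U, ∃ O : Set (Tre A), IsClopen O ∧ x ∈ O ∧ O ⊆ U := by
    intro U hU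
    change GenerateOpen _ U at hU
    induction hU with
    | basic s hs =>
      intro x hx
      refine ⟨s, ?_, hx, subset_rfl⟩
      rcases hs with ⟨u, a, rfl⟩ | ⟨F, hF, u, rfl⟩
      · exact clp_node_NT G u a
      · refine ⟨?_, open_sub_NT G hF u⟩
        exact (hG F hF).preimage (cont_sub_NT G u)
    | univ => intro x _; exact ⟨Set.univ, isClopen_univ, mem_univ x, subset_rfl⟩
    | inter s t _ _ ihs iht =>
      intro x hx
      obtain ⟨O, hO, hxO, hOs⟩ := ihs x hx.1
      obtain ⟨O', hO', hxO', hOt⟩ := iht x hx.2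
      exact ⟨O ∩ O', hO.inter hO', ⟨hxO, hxO'⟩, inter_subset_inter hOs hOt⟩
    | sUnion S _ ih =>
      intro x hx
      obtain ⟨s, hs, hxs⟩ := hx
      obtain ⟨O, hO, hxO, hOs⟩ := ih s hs x hxs
      exact ⟨O, hO, hxO, hOs.trans (subset_sUnion_of_mem hs)⟩
  intro x U hU hx
  exact key U hU x hx

private theorem clp_range_NT (G : Set (Set (Tre A))) (a : A) : Clp (nt G) (range (Tre.mk a)) := by
  rw [range_mk_NT]
  exact clp_node_NT G [] a

private theorem ce_NT (G : Set (Set (Tre A)))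
    (h : ∀ F ∈ G, ∀ a : A, ∃ (k : ℕ) (F₀ F₁ : Fin k → Set (Tre A)),
      (∀ q, IsOpen[nt G] (F₀ q)) ∧ (∀ q, IsOpen[nt G] (F₁ q)) ∧
      F ∩ range (Tre.mk a) = ⋃ q, Tre.mk a '' (F₀ q ×ˢ F₁ q)) (a : A) :
    CE (@instTopologicalSpaceProd _ _ (nt G) (nt G)) (nt G) (Tre.mk a) := by
  let _ := nt G
  refine ⟨mk_inj_NT a, le_antisymm ?_ ?_, clp_range_NT G a⟩
  · rw [← continuous_iff_le_induced]
    refine continuous_generateFrom_iff.2 ?_
    have hfst : Continuous (Prod.fst : Tre A × Tre A → Tre A) := continuous_fst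
    have hsnd : Continuous (Prod.snd : Tre A × Tre A → Tre A) := continuous_snd
    rintro U (⟨u, b, rfl⟩ | ⟨F, hF, u, rfl⟩)
    · match u with
      | [] =>
        by_cases hab : a = b
        · have : Tre.mk a ⁻¹' {t : Tre A | t [] = b} = Set.univ := by
            ext p
            simp only [mem_preimage, mem_ofPred_eq, mem_univ, iff_true]
            exact hab
          rw [this]
          exact isOpen_univ
        · have : Tre.mk a ⁻¹' {t : Tre A | t [] = b} = ∅ := by
            ext p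
            simp only [mem_preimage, mem_ofPred_eq, mem_empty_iff_false, iff_false]
            exact hab
          rw [this]
          exact isOpen_empty
      | false :: v => exact (open_node_NT G v b).preimage hfst
      | true :: v => exact (open_node_NT G v b).preimage hsnd
    · match u with
      | [] =>
        obtain ⟨k, F₀, F₁, h0, h1, he⟩ := h F hF a
        have : Tre.mk a ⁻¹' {t : Tre A | t.sub [] ∈ F} = ⋃ q, (F₀ q ×ˢ F₁ q) := by
          ext p
          simp only [mem_preimage, mem_ofPred_eq, sub_nil_NT]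
          have h2 : Tre.mk a p ∈ F ↔ Tre.mk a p ∈ F ∩ range (Tre.mk a) :=
            ⟨fun hp => ⟨hp, mem_range_self p⟩, fun hp => hp.1⟩
          rw [h2, he]
          simp only [mem_iUnion, (mk_inj_NT a).mem_set_image]
        rw [this]
        exact isOpen_iUnion fun q => (h0 q).prod (h1 q)
      | false :: v => exact (open_sub_NT G hF v).preimage hfst
      | true :: v => exact (open_sub_NT G hF v).preimage hsnd
  · have hc : Continuous[(nt G).induced (Tre.mk a), nt G] (Tre.mk a) := continuous_induced_dom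
    refine le_inf ?_ ?_
    · rw [← continuous_iff_le_induced]
      exact @Continuous.comp _ _ _ ((nt G).induced (Tre.mk a)) (nt G) (nt G) _ _
        (cont_sub_NT G [false]) hc
    · rw [← continuous_iff_le_induced]
      exact @Continuous.comp _ _ _ ((nt G).induced (Tre.mk a)) (nt G) (nt G) _ _
        (cont_sub_NT G [true]) hc

private theorem sc_NT [Finite A] (G : Set (Set (Tre A))) (hG : G.Countable) :
    @SecondCountableTopology _ (nt G) := by
  let _ := nt G
  refine ⟨⟨_, ?_, rfl⟩⟩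
  refine Countable.union ?_ ?_
  · have : {U : Set (Tre A) | ∃ (u : List Bool) (a : A), U = {t : Tre A | t u = a}} =
        range (fun q : List Bool × A => {t : Tre A | t q.1 = q.2}) := by
      ext U
      constructor
      · rintro ⟨u, a, rfl⟩
        exact ⟨(u, a), rfl⟩
      · rintro ⟨q, rfl⟩
        exact ⟨q.1, q.2, rfl⟩
    rw [this]
    exact countable_range _
  · have : {U : Set (Tre A) | ∃ F ∈ G, ∃ u : List Bool, U = {t : Tre A | t.sub u ∈ F}} =
        ⋃ u : List Bool, (fun F : Set (Tre A) => {t : Tre A | t.sub u ∈ F}) '' G := by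
      ext U
      simp only [mem_ofPred_eq, mem_iUnion, mem_image]
      constructor
      · rintro ⟨F, hF, u, rfl⟩
        exact ⟨u, F, hF, rfl⟩
      · rintro ⟨u, F, hF, rfl⟩
        exact ⟨F, hF, u, rfl⟩
    rw [this]
    exact countable_iUnion fun u => hG.image _

private theorem pi_NT : nt (∅ : Set (Set (Tre A))) =
    @Pi.topologicalSpace (List Bool) (fun _ => A) (fun _ => ⊥) := by
  let _ : TopologicalSpace A := ⊥
  have _ : DiscreteTopology A := ⟨rfl⟩
  apply le_antisymm
  · refine le_iInf fun u => ?_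
    let _ := nt (∅ : Set (Set (Tre A)))
    refine continuous_iff_le_induced.1 (?_ : @Continuous (Tre A) A (nt ∅) ⊥ (fun t => t u))
    refine ⟨fun s _ => ?_⟩
    have : (fun t : Tre A => t u) ⁻¹' s = ⋃ b ∈ s, {t : Tre A | t u = b} := by
      ext t
      simp
    change IsOpen ((fun t : Tre A => t u) ⁻¹' s)
    rw [this]
    exact isOpen_biUnion fun b _ => open_node_NT ∅ u b
  · refine le_generateFrom ?_
    rintro U (⟨u, a, rfl⟩ | ⟨F, hF, _⟩)
    · have h1 : @Continuous (List Bool → A) A (@Pi.topologicalSpace (List Bool) (fun _ => A) (fun _ => ⊥)) _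
        (fun t => t u) := continuous_apply u
      exact (isOpen_discrete ({a} : Set A)).preimage h1
    · exact hF.elim

private theorem pol_NT (A : Type) [Finite A] [TopologicalSpace A] [DiscreteTopology A] :
    PolishSpace (List Bool → A) ∧ CompactSpace (List Bool → A) := by
  have h : PolishSpace A := inferInstance
  have h2 : IsCompletelyMetrizableSpace (List Bool → A) := inferInstance
  have h3 : SeparableSpace A := inferInstance
  have h4 : SeparableSpace (List Bool → A) := inferInstance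
  exact ⟨inferInstance, inferInstance⟩

theorem hNT : StNT := by
  intro A _
  refine ⟨anti_NT, fun G F hF => open_mem_NT G hF, cont_sub_NT, zd_NT, clp_range_NT, ce_NT, sc_NT,
    pi_NT, ?_, ?_⟩
  · apply le_antisymm (anti_NT _ _ (empty_subset _))
    refine le_generateFrom ?_
    rintro U (⟨u, a, rfl⟩ | ⟨F, hF, u, rfl⟩)
    · exact open_node_NT ∅ u a
    · rw [mem_singleton_iff] at hF
      subst hF
      simp only [mem_univ]
      exact @isOpen_univ _ (nt ∅)
  · rw [pi_NT]
    let _ : TopologicalSpace A := ⊥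
    have _ : DiscreteTopology A := ⟨rfl⟩
    exact pol_NT A

end NT

end Pool.Agent.Helper24.WH

end

section

/-!
# PROJECT WH (MP_76577a_lc), module BB: the base tower
-/

set_option autoImplicit false

namespace Pool.Agent.Helper24.WH

open Set TopologicalSpace Topology
open Ordinal hiding univ

theorem closed_mono_BB {X : Type} {τ τ' : TopologicalSpace X} (h : τ' ≤ τ) {F : Set X}
    (hF : IsClosed[τ] F) : IsClosed[τ'] F := by
  rw [← @isOpen_compl_iff X F τ'] 
  rw [← @isOpen_compl_iff X F τ] at hF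
  exact h _ hF

/-- the least closed definable set above `s` -/
def Cl_BB {A S : Type} (τ : TopologicalSpace (Tre A)) (g : Tre A → S) (s : S) : Set S :=
  {x | ∀ K : Set S, IsClosed[τ] (g ⁻¹' K) → s ∈ K → x ∈ K}

theorem Cl_closed_BB {A S : Type} (τ : TopologicalSpace (Tre A)) (g : Tre A → S) (s : S) :
    IsClosed[τ] (g ⁻¹' (Cl_BB τ g s)) := by
  letI := τ
  have e : g ⁻¹' (Cl_BB τ g s) =
      ⋂ K : {K : Set S // IsClosed[τ] (g ⁻¹' K) ∧ s ∈ K}, g ⁻¹' K.1 := by
    ext x
    simp only [mem_preimage, Cl_BB, mem_setOf_eq, mem_iInter, Subtype.forall]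
    exact ⟨fun h K hK => h K hK.1 hK.2, fun h K h1 h2 => h K ⟨h1, h2⟩⟩
  rw [e]
  exact isClosed_iInter fun K => K.2.1

theorem mem_Cl_BB {A S : Type} (τ : TopologicalSpace (Tre A)) (g : Tre A → S) (s : S) :
    s ∈ Cl_BB τ g s := fun _ _ h => h

theorem split_BB {A S : Type} [Finite S] (τ : TopologicalSpace (Tre A)) (g : Tre A → S)
    (Ga : A → S × S → S) (hg : ∀ a p, g (Tre.mk a p) = Ga a (g p.1, g p.2)) (a : A)
    (hCE : CE (@instTopologicalSpaceProd _ _ τ τ) τ (Tre.mk a)) (K : Set S)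
    (hK : IsClosed[τ] (g ⁻¹' K)) :
    ∃ (k : ℕ) (K₀ K₁ : Fin k → Set S),
      (∀ q, IsClosed[τ] (g ⁻¹' (K₀ q))) ∧ (∀ q, IsClosed[τ] (g ⁻¹' (K₁ q))) ∧
      g ⁻¹' K ∩ range (Tre.mk a) = ⋃ q, Tre.mk a '' ((g ⁻¹' (K₀ q)) ×ˢ (g ⁻¹' (K₁ q))) := by
  classical
  letI := τ
  have hcont : Continuous (Tre.mk a : Tre A × Tre A → Tre A) := by
    rw [continuous_iff_le_induced]
    exact hCE.2.1.le
  -- sections
  have sec1 : ∀ y : Tre A, IsClosed (g ⁻¹' {s : S | Ga a (s, g y) ∈ K}) := by
    intro y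
    have h1 : Continuous fun x : Tre A => Tre.mk a (x, y) := hcont.comp (by fun_prop)
    have h2 := hK.preimage h1
    have e : (fun x : Tre A => Tre.mk a (x, y)) ⁻¹' (g ⁻¹' K) =
        g ⁻¹' {s : S | Ga a (s, g y) ∈ K} := by
      ext x
      simp only [mem_preimage, mem_setOf_eq, hg]
    rw [e] at h2
    exact h2
  have sec2 : ∀ x : Tre A, IsClosed (g ⁻¹' {s : S | Ga a (g x, s) ∈ K}) := by
    intro x
    have h1 : Continuous fun y : Tre A => Tre.mk a (x, y) := hcont.comp (by fun_prop)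
    have h2 := hK.preimage h1
    have e : (fun y : Tre A => Tre.mk a (x, y)) ⁻¹' (g ⁻¹' K) =
        g ⁻¹' {s : S | Ga a (g x, s) ∈ K} := by
      ext y
      simp only [mem_preimage, mem_setOf_eq, hg]
    rw [e] at h2
    exact h2
  have key : ∀ x₀ y₀ : Tre A, Ga a (g x₀, g y₀) ∈ K → ∀ x y : Tre A,
      g x ∈ Cl_BB τ g (g x₀) → g y ∈ Cl_BB τ g (g y₀) → Ga a (g x, g y) ∈ K := by
    intro x₀ y₀ h x y hx hy
    have h1 : Ga a (g x, g y₀) ∈ K := hx _ (sec1 y₀) h
    exact hy _ (sec2 x) h1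
  let I := {p : S × S // p.1 ∈ range g ∧ p.2 ∈ range g ∧ Ga a p ∈ K}
  let e : I ≃ Fin (Nat.card I) := Finite.equivFin I
  refine ⟨Nat.card I, fun q => Cl_BB τ g (e.symm q).1.1, fun q => Cl_BB τ g (e.symm q).1.2,
    fun q => Cl_closed_BB τ g _, fun q => Cl_closed_BB τ g _, ?_⟩
  ext t
  constructor
  · rintro ⟨ht, ⟨⟨x, y⟩, rfl⟩⟩
    rw [mem_preimage, hg] at ht
    rw [mem_iUnion]
    refine ⟨e ⟨(g x, g y), ⟨x, rfl⟩, ⟨y, rfl⟩, ht⟩, (x, y), ⟨?_, ?_⟩, rfl⟩
    · show g x ∈ Cl_BB τ g _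
      rw [Equiv.symm_apply_apply]
      exact mem_Cl_BB τ g _
    · show g y ∈ Cl_BB τ g _
      rw [Equiv.symm_apply_apply]
      exact mem_Cl_BB τ g _
  · rw [mem_iUnion]
    rintro ⟨q, ⟨x, y⟩, ⟨hx, hy⟩, rfl⟩
    refine ⟨?_, ⟨(x, y), rfl⟩⟩
    rw [mem_preimage, hg]
    have hx' : g x ∈ Cl_BB τ g (e.symm q).1.1 := hx
    have hy' : g y ∈ Cl_BB τ g (e.symm q).1.2 := hy
    obtain ⟨x₀, hx₀⟩ := (e.symm q).2.1
    obtain ⟨y₀, hy₀⟩ := (e.symm q).2.2.1
    have hR : Ga a ((e.symm q).1.1, (e.symm q).1.2) ∈ K := (e.symm q).2.2.2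
    rw [← hx₀] at hx' hR
    rw [← hy₀] at hy' hR
    exact key x₀ y₀ hR x y hx' hy'

theorem hBB (hNT : StNT) : StBB := by
  intro A S _ _ g Ga hg
  obtain ⟨n1, n2, -, n4, -, n6, -⟩ := hNT A
  have step : ∀ j, bT g (j + 1) ≤ bT g j ∧
      ∀ a, CE (@instTopologicalSpaceProd _ _ (bT g j) (bT g j)) (bT g j) (Tre.mk a) := by
    intro j
    induction j with
    | zero =>
      refine ⟨n1 ∅ _ (empty_subset _), fun a => n6 ∅ (fun F hF => absurd hF (notMem_empty F)) a⟩
    | succ j ih =>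
      refine ⟨n1 _ _ ?_, fun a => n6 _ ?_ a⟩
      · rintro F ⟨K, hF, hcl⟩
        exact ⟨K, hF, closed_mono_BB ih.1 hcl⟩
      · rintro F ⟨K, hF, hcl⟩ a
        rw [hF] at hcl
        obtain ⟨k, K₀, K₁, h0, h1, h2⟩ := split_BB (bT g j) g Ga hg a (ih.2 a) K hcl
        refine ⟨k, fun q => g ⁻¹' (K₀ q), fun q => g ⁻¹' (K₁ q), fun q => ?_, fun q => ?_, ?_⟩
        · exact n2 _ _ ⟨K₀ q, rfl, h0 q⟩
        · exact n2 _ _ ⟨K₁ q, rfl, h1 q⟩
        · rw [hF]
          exact h2
  intro j
  refine ⟨(step j).1, ?_, (step j).2, fun K hK a => split_BB (bT g j) g Ga hg a ((step j).2 a) K hK⟩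
  rcases j with _ | j
  · exact n4 ∅ fun F hF => absurd hF (notMem_empty F)
  · refine n4 _ ?_
    rintro F ⟨K, hF, hcl⟩
    exact closed_mono_BB (step j).1 hcl

end Pool.Agent.Helper24.WH

end

section

/-!
# PROJECT WH, module GE: the gap embedding is reflexive and transitive
-/

set_option autoImplicit false

namespace Pool.Agent.Helper24.WH

universe u v

section GE

variable {L : Type u} {A : Type v} {rl : L → L → Prop} {ra : A → A → Prop} {ht : L → ℕ}

private theorem findA_mono_GE {a b : A} (htr : ∀ a b c, ra a b → ra b c → ra a c) (hab : ra a b) :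
    ∀ K : Fo L A, Fo.FindA ra b K → Fo.FindA ra a K
  | .nil, h => h
  | .leaf a' rest, h => by
      rcases h with h | h
      · exact Or.inl (htr _ _ _ hab h)
      · exact Or.inr (findA_mono_GE htr hab rest h)
  | .cons _ kids rest, h => by
      rcases h with h | h
      · exact Or.inl (findA_mono_GE htr hab kids h)
      · exact Or.inr (findA_mono_GE htr hab rest h)

private theorem findA_of_findT_GE {a : A} {l : L} {P : Fo L A → Prop}
    (hP : ∀ K, P K → Fo.FindA ra a K) :
    ∀ K : Fo L A, Fo.FindT rl ht l P K → Fo.FindA ra a K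
  | .nil, h => h.elim
  | .leaf _ rest, h => Or.inr (findA_of_findT_GE hP rest h)
  | .cons _ kids rest, h => by
      rcases h with h | h | h
      · exact Or.inl (hP _ h.2)
      · exact Or.inl (findA_of_findT_GE hP kids h.2)
      · exact Or.inr (findA_of_findT_GE hP rest h)

private theorem findA_emb_GE {a : A} (htr : ∀ a b c, ra a b → ra b c → ra a c) :
    ∀ N K : Fo L A, Fo.FindA ra a N → Fo.Emb rl ra ht N K → Fo.FindA ra a K
  | .nil, _, h, _ => h.elim
  | .leaf _ rest, K, h, he => by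
      rcases h with h | h
      · exact findA_mono_GE htr h K he.1
      · exact findA_emb_GE htr rest K h he.2
  | .cons _ kids rest, K, h, he => by
      rcases h with h | h
      · exact findA_of_findT_GE (fun K' hK' => findA_emb_GE htr kids K' h hK') K he.1
      · exact findA_emb_GE htr rest K h he.2

private theorem findT_mono_GE {l l' : L} {P Q : Fo L A → Prop}
    (htr : ∀ a b c, rl a b → rl b c → rl a c) (hht : ∀ a b, rl a b → ht a = ht b)
    (hll : rl l l') (hPQ : ∀ K, Q K → P K) :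
    ∀ K : Fo L A, Fo.FindT rl ht l' Q K → Fo.FindT rl ht l P K
  | .nil, h => h.elim
  | .leaf _ rest, h => findT_mono_GE htr hht hll hPQ rest h
  | .cons _ kids rest, h => by
      rcases h with h | h | h
      · exact Or.inl ⟨htr _ _ _ hll h.1, hPQ _ h.2⟩
      · refine Or.inr (Or.inl ⟨?_, findT_mono_GE htr hht hll hPQ kids h.2⟩)
        rw [hht _ _ hll]
        exact h.1
      · exact Or.inr (Or.inr (findT_mono_GE htr hht hll hPQ rest h))

private theorem findT_skip_GE {l l' : L} {P Q : Fo L A → Prop}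
    (hht : ∀ a b, rl a b → ht a = ht b) (hle : ht l' ≤ ht l)
    (hPQ : ∀ K, Q K → Fo.FindT rl ht l P K) :
    ∀ K : Fo L A, Fo.FindT rl ht l' Q K → Fo.FindT rl ht l P K
  | .nil, h => h.elim
  | .leaf _ rest, h => findT_skip_GE hht hle hPQ rest h
  | .cons _ kids rest, h => by
      rcases h with h | h | h
      · refine Or.inr (Or.inl ⟨?_, hPQ _ h.2⟩)
        rw [← hht _ _ h.1]
        exact hle
      · exact Or.inr (Or.inl ⟨le_trans h.1 hle, findT_skip_GE hht hle hPQ kids h.2⟩)
      · exact Or.inr (Or.inr (findT_skip_GE hht hle hPQ rest h))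

private theorem findT_emb_GE {l : L} {P : Fo L A → Prop}
    (htr : ∀ a b c, rl a b → rl b c → rl a c) (hht : ∀ a b, rl a b → ht a = ht b)
    (hP : ∀ N K, P N → Fo.Emb rl ra ht N K → P K) :
    ∀ N K : Fo L A, Fo.FindT rl ht l P N → Fo.Emb rl ra ht N K → Fo.FindT rl ht l P K
  | .nil, _, h, _ => h.elim
  | .leaf _ rest, K, h, he => findT_emb_GE htr hht hP rest K h he.2
  | .cons _ kids rest, K, h, he => by
      rcases h with h | h | h
      · exact findT_mono_GE htr hht h.1 (fun K' hK' => hP _ _ h.2 hK') K he.1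
      · exact findT_skip_GE hht h.1
          (fun K' hK' => findT_emb_GE htr hht hP kids K' h.2 hK') K he.1
      · exact findT_emb_GE htr hht hP rest K h he.2

private theorem emb_trans_GE (htl : ∀ a b c, rl a b → rl b c → rl a c)
    (hta : ∀ a b c, ra a b → ra b c → ra a c) (hht : ∀ a b, rl a b → ht a = ht b) :
    ∀ M N K : Fo L A, Fo.Emb rl ra ht M N → Fo.Emb rl ra ht N K → Fo.Emb rl ra ht M K
  | .nil, _, _, _, _ => trivial
  | .leaf _ rest, N, K, h, he =>
      ⟨findA_emb_GE hta N K h.1 he, emb_trans_GE htl hta hht rest N K h.2 he⟩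
  | .cons _ kids rest, N, K, h, he =>
      ⟨findT_emb_GE htl hht (fun N' K' h1 h2 => emb_trans_GE htl hta hht kids N' K' h1 h2) N K h.1 he,
        emb_trans_GE htl hta hht rest N K h.2 he⟩

private theorem emb_leaf_GE (a : A) (N : Fo L A) :
    ∀ M : Fo L A, Fo.Emb rl ra ht M N → Fo.Emb rl ra ht M (.leaf a N)
  | .nil, _ => trivial
  | .leaf _ rest, h => ⟨Or.inr h.1, emb_leaf_GE a N rest h.2⟩
  | .cons _ _ rest, h => ⟨h.1, emb_leaf_GE a N rest h.2⟩

private theorem emb_cons_GE (l : L) (k N : Fo L A) :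
    ∀ M : Fo L A, Fo.Emb rl ra ht M N → Fo.Emb rl ra ht M (.cons l k N)
  | .nil, _ => trivial
  | .leaf _ rest, h => ⟨Or.inr h.1, emb_cons_GE l k N rest h.2⟩
  | .cons _ _ rest, h => ⟨Or.inr (Or.inr h.1), emb_cons_GE l k N rest h.2⟩

private theorem emb_refl_GE (hrl : ∀ a, rl a a) (hra : ∀ a, ra a a) :
    ∀ N : Fo L A, Fo.Emb rl ra ht N N
  | .nil => trivial
  | .leaf a rest => ⟨Or.inl (hra a), emb_leaf_GE a rest rest (emb_refl_GE hrl hra rest)⟩
  | .cons l kids rest =>
      ⟨Or.inl ⟨hrl l, emb_refl_GE hrl hra kids⟩,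
        emb_cons_GE l kids rest rest (emb_refl_GE hrl hra rest)⟩

end GE

theorem hGE : StGE.{u, v} := by
  intro L A rl ra ht hrl htl hra hta hht
  exact ⟨emb_refl_GE hrl hra, fun N₁ N₂ N₃ h1 h2 => emb_trans_GE htl hta hht N₁ N₂ N₃ h1 h2⟩

end Pool.Agent.Helper24.WH

end

section

set_option autoImplicit false

namespace Pool.Agent.Helper24.WH

open Set TopologicalSpace Ordinal Topology

private theorem hom_ZM (h : StHO) {X : Type} (τ : TopologicalSpace X) (z : Set X → Set X)
    (hm : ∀ A B, A ⊆ B → z A ⊆ z B) (hl : ∀ O B, Clp τ O → z (B ∩ O) = z B ∩ O) :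
    IsDer τ (HomOp τ z) := by
  obtain ⟨h1, h2, -, -, h5, -, h7, -⟩ := h X τ z hm
  exact ⟨h2, h1, h7 hl, h5⟩

private theorem inter_ZM {X : Type} (τ : TopologicalSpace X) (d : ℕ → Set X → Set X)
    (h : ∀ i, IsDer τ (d i)) : IsDer τ (fun B => ⋂ i, d i B) := by
  refine ⟨fun A B hAB => iInter_mono fun i => (h i).mono A B hAB,
    fun B => (iInter_subset _ 0).trans ((h 0).le B), fun O B hO => ?_, fun B hB => ?_⟩
  · show ⋂ i, d i (B ∩ O) = (⋂ i, d i B) ∩ O
    rw [iInter_inter]
    exact iInter_congr fun i => (h i).loc O B hO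
  · exact @isClosed_iInter X ℕ τ _ fun i => (h i).closed B hB

private theorem comp_ZM {X : Type} (τ : TopologicalSpace X) (d e : Set X → Set X)
    (hd : IsDer τ d) (he : IsDer τ e) : IsDer τ (fun B => d (e B)) := by
  refine ⟨fun A B hAB => hd.mono _ _ (he.mono A B hAB), fun B => (hd.le _).trans (he.le B),
    fun O B hO => ?_, fun B hB => hd.closed _ (he.closed B hB)⟩
  show d (e (B ∩ O)) = d (e B) ∩ O
  rw [he.loc O B hO, hd.loc O _ hO]

private theorem ztr_ZM {X A : Type} (τ : TopologicalSpace X) (h : A → Set X → Set X)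
    (hh : ∀ U, IsDer τ (h U)) (t : Tr A) : IsDer τ (ZTr h t) := by
  induction t with
  | leaf U =>
    have e : ZTr h (.leaf U) = h U := by funext B; simp [ZTr]
    rw [e]
    exact hh U
  | node U F ih =>
    have e : ZTr h (.node U F) = fun B => h U (⋂ i, ZTr h (F i) B) := by funext B; simp [ZTr]
    rw [e]
    exact comp_ZM τ (h U) (fun B => ⋂ i, ZTr h (F i) B) (hh U) (inter_ZM τ (fun i => ZTr h (F i)) ih)

private theorem clp_ZM {X : Type} {τ τ' : TopologicalSpace X} (h : τ ≤ τ') {O : Set X}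
    (hO : Clp τ' O) : Clp τ O := by
  exact ⟨@IsClosed.mk X τ O (h _ (@IsClosed.isOpen_compl X τ' O hO.1)), h _ hO.2⟩

theorem hZM : StZM := by
  intro X S τ g hT hF m
  have key : ∀ m, (∀ t : TT S m, IsDer (τ m) (Z τ g m t)) →
      ∀ U : TT S m, IsDer (τ (m + 1)) (hom τ g m U) := by
    intro m hm U
    exact hom_ZM hHO (τ (m + 1)) (Z τ g m U) (hm U).mono
      (fun O B hO => (hm U).loc O B (clp_ZM (hT.mono m) hO))
  have hZ : ∀ m, ∀ t : TT S m, IsDer (τ m) (Z τ g m t) := by
    intro m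
    induction m with
    | zero =>
      intro s
      have e : Z τ g 0 s = fun B => B ∩ g ⁻¹' {(s : S)} := by funext B; simp [Z]
      rw [e]
      refine ⟨fun A B hAB => inter_subset_inter_left _ hAB, fun B => inter_subset_left,
        fun O B _ => ?_, fun B hB => ?_⟩
      · show B ∩ O ∩ _ = B ∩ _ ∩ O
        rw [inter_right_comm]
      · exact @IsClosed.inter X _ _ (τ 0) hB (hF s).1
    | succ m ih =>
      intro t
      have e : Z τ g (m + 1) t = ZTr (fun U => HomOp (τ (m + 1)) (Z τ g m U)) t := by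
        funext B; simp [Z]
      rw [e]
      exact ztr_ZM (τ (m + 1)) _ (fun U => key m ih U) t
  refine ⟨hZ m, key m (hZ m), fun L => ?_⟩
  exact inter_ZM (τ (m + 1)) (fun i => hom τ g m (L i)) (fun i => key m (hZ m) (L i))


end Pool.Agent.Helper24.WH

end

section

/-!
# PROJECT WH (MP_76577a_lc), module EX
-/

set_option autoImplicit false

namespace Pool.Agent.Helper24.WH

open Set TopologicalSpace Topology
open Ordinal hiding univ

theorem ex_le_of_EX {X : Type} {d : Set X → Set X} {B : Set X} {x : Ordinal.{0}}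
    (h : iter d B (ω ^ x) = ∅) : ex d B ≤ (x : WithTop Ordinal.{0}) := by
  unfold ex
  rw [if_pos ⟨x, h⟩, WithTop.coe_le_coe]
  exact csInf_le' h

theorem iter_of_ex_EX {X : Type} {d : Set X → Set X} {B : Set X} {x : Ordinal.{0}}
    (h : ex d B ≤ (x : WithTop Ordinal.{0})) : iter d B (ω ^ x) = ∅ := by
  unfold ex at h
  split_ifs at h with h1
  · rw [WithTop.coe_le_coe] at h
    have h2 : iter d B (ω ^ (sInf {x : Ordinal.{0} | iter d B (ω ^ x) = ∅})) = ∅ :=
      csInf_mem (s := {x : Ordinal.{0} | iter d B (ω ^ x) = ∅}) h1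
    have h3 : iter d B (ω ^ x) ⊆ iter d B (ω ^ (sInf {x : Ordinal.{0} | iter d B (ω ^ x) = ∅})) :=
      iter_anti_IT B (opow_le_opow_right omega0_pos h)
    rw [h2] at h3
    exact subset_empty_iff.1 h3
  · simp at h

theorem ex_le_iff_EX {X : Type} {d : Set X → Set X} {B : Set X} {x : Ordinal.{0}} :
    ex d B ≤ (x : WithTop Ordinal.{0}) ↔ iter d B (ω ^ x) = ∅ :=
  ⟨iter_of_ex_EX, ex_le_of_EX⟩

theorem ex_mono_EX {X : Type} {d d' : Set X → Set X} {A B : Set X}
    (h : ∀ α, iter d' A α ⊆ iter d B α) : ex d' A ≤ ex d B := by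
  rcases h1 : ex d B with _ | x
  · exact le_top
  · have h2 : iter d B (ω ^ x) = ∅ := iter_of_ex_EX (le_of_eq h1)
    refine ex_le_of_EX (subset_empty_iff.1 ?_)
    rw [← h2]
    exact h _

theorem hEX : StEX := by
  intro X d hm hl
  obtain ⟨h0, h1, -, h3, -, -, -, -, -, h9⟩ := hIT X d hm hl
  refine ⟨fun B x => ex_le_iff_EX, fun A B hAB => ex_mono_EX fun α => h3 A B α hAB,
    fun d' hd' B => ex_mono_EX fun α => h9 d' hd' B α, fun B hB => ?_⟩
  have h : ex d B ≤ ((0 : Ordinal.{0}) : WithTop Ordinal.{0}) := by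
    refine ex_le_of_EX ?_
    have := h1 B 0
    rw [h0, hB] at this
    rw [opow_zero, ← zero_add (1 : Ordinal.{0})]
    exact this
  exact le_antisymm h bot_le

end Pool.Agent.Helper24.WH

end
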