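import Pool.Agent.Helper24.WH.St1
import Pool.Agent.Helper24.WH.St2
import Pool.Agent.Helper24.WH.St4
import Pool.Agent.Helper24.WH.St5
import Pool.Agent.Helper24.WH.St6
import Pool.Agent.Helper76.WHC.B0

set_option autoImplicit false

section

/-!
# PROJECT WH, module BF: a finite set with equality is a better quasi order
-/

set_option autoImplicit false

namespace Pool.Agent.Helper24.WH

open Set TopologicalSpace Ordinal Topology

theorem hBF (h : StGP) : StBF := by
  intro S _ c _ hm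
  obtain ⟨k, ⟨e⟩⟩ := Finite.exists_equiv_fin S
  obtain ⟨Y, s, hY⟩ := h k (fun X => e (c X)) (fun s => by
    have : (fun X => e (c X)) ⁻¹' {s} = c ⁻¹' {e.symm s} := by
      ext X
      simp [Equiv.eq_symm_apply]
    rw [this]
    exact hm _)
  refine ⟨Y, ?_⟩
  have h1 : Y.comp ⟨fun n => n, strictMono_id⟩ = Y := rfl
  have h2 : Y.comp ⟨fun n => n + 1, fun _ _ hh => Nat.add_lt_add_right hh 1⟩ = Y.sh := rfl
  have a1 := hY ⟨fun n => n, strictMono_id⟩
  have a2 := hY ⟨fun n => n + 1, fun _ _ hh => Nat.add_lt_add_right hh 1⟩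
  rw [h1] at a1
  rw [h2] at a2
  exact e.injective (a1.trans a2.symm)

end Pool.Agent.Helper24.WH

end

section

/-!
# Project WH, module CB: combinatorics of codes II, the ordinal map
-/

set_option autoImplicit false

namespace Pool.Agent.Helper24.WH

open Set TopologicalSpace Topology
open Ordinal hiding univ

/-! ### Height zero -/

private def one_CB : Cd 0 := (true : Bool)

private theorem cases0_CB (P : Cd 0 → Prop) (h1 : P (Cd.bot 0)) (h2 : P one_CB) (c : Cd 0) :
    P c := @Bool.rec (fun b => P b) h1 h2 c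

private theorem up_bot_CB : Cd.up 0 (Cd.bot 0) = Cd.of [] := rfl

private theorem up_one_CB : Cd.up 0 one_CB = Cd.of [toLex (one_CB, 0)] := rfl

private theorem pi_bot_CB : Cd.pi 0 (Cd.bot 0) = 0 := by
  change (if (false : Bool) = true then (1 : Ordinal.{0}) else 0) = 0
  rw [if_neg (by decide)]

private theorem pi_one_CB : Cd.pi 0 one_CB = 1 := by
  change (if (true : Bool) = true then (1 : Ordinal.{0}) else 0) = 1
  rw [if_pos rfl]

private theorem bot_lt_one_CB : Cd.bot 0 < one_CB := by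
  change (false : Bool) < true
  decide

private theorem bot_ne_one_CB : Cd.bot 0 ≠ one_CB := bot_lt_one_CB.ne

/-! ### The ordinal map -/

/-- the exponent of an entry -/
private noncomputable def E_CB {m : ℕ} (e : Cd m ×ₗ ℕ) : Ordinal.{0} :=
  ω * (Cd.pi m (ofLex e).1 - 1) + ((ofLex e).2 : Ordinal.{0})

/-- the value of a list -/
private noncomputable def S_CB {m : ℕ} (l : List (Cd m ×ₗ ℕ)) : Ordinal.{0} :=
  (l.map (fun e => ω ^ E_CB e)).sum

private theorem pi_succ_CB {m : ℕ} (l : Cd (m + 1)) : Cd.pi (m + 1) l = S_CB (Cd.L l) := rfl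

private theorem S_nil_CB {m : ℕ} : S_CB ([] : List (Cd m ×ₗ ℕ)) = 0 := rfl

private theorem S_cons_CB {m : ℕ} (e : Cd m ×ₗ ℕ) (l : List (Cd m ×ₗ ℕ)) :
    S_CB (e :: l) = ω ^ E_CB e + S_CB l := by
  unfold S_CB
  rw [List.map_cons, List.sum_cons]

/-- (4) without well-formedness -/
private theorem one_le_CB (m : ℕ) (c : Cd m) (h : c ≠ Cd.bot m) : 1 ≤ Cd.pi m c := by
  cases m with
  | zero =>
    revert h
    refine cases0_CB (fun c => c ≠ Cd.bot 0 → 1 ≤ Cd.pi 0 c) ?_ ?_ c
    · intro h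
      exact absurd rfl h
    · intro _
      rw [pi_one_CB]
  | succ m =>
    rw [pi_succ_CB]
    have h' : Cd.L c ≠ [] := h
    revert h'
    generalize Cd.L c = l
    intro h'
    cases l with
    | nil => exact absurd rfl h'
    | cons e l =>
      rw [S_cons_CB]
      refine le_trans ?_ (le_self_add)
      rw [Order.one_le_iff_pos]
      exact opow_pos _ omega0_pos

private theorem E_lt_CB {m : ℕ} (ih : ∀ c c' : Cd m, Cd.wf m c → Cd.wf m c' → c < c' →
    Cd.pi m c < Cd.pi m c') {e e' : Cd m ×ₗ ℕ} (h1 : Cd.wf m (ofLex e).1)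
    (h2 : (ofLex e).1 ≠ Cd.bot m) (h3 : Cd.wf m (ofLex e').1) (h4 : (ofLex e').1 ≠ Cd.bot m)
    (h : e < e') : E_CB e < E_CB e' := by
  unfold E_CB
  rw [Prod.Lex.lt_iff] at h
  rcases h with h | ⟨h5, h6⟩
  · have h5 := ih _ _ h1 h3 h
    have h6 := Ordinal.add_sub_cancel_of_le (one_le_CB m _ h2)
    have h7 := Ordinal.add_sub_cancel_of_le (one_le_CB m _ h4)
    have h8 : Cd.pi m (ofLex e).1 - 1 < Cd.pi m (ofLex e').1 - 1 := by
      rw [← h6, ← h7] at h5
      exact lt_of_add_lt_add_left h5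
    calc ω * (Cd.pi m (ofLex e).1 - 1) + ((ofLex e).2 : Ordinal.{0})
        < ω * (Cd.pi m (ofLex e).1 - 1) + ω := by
          gcongr
          exact natCast_lt_omega0 _
      _ = ω * (Cd.pi m (ofLex e).1 - 1 + 1) := by rw [mul_add, mul_one]
      _ ≤ ω * (Cd.pi m (ofLex e').1 - 1) := by
          gcongr
          rw [← Order.succ_eq_add_one]
          exact Order.succ_le_of_lt h8
      _ ≤ ω * (Cd.pi m (ofLex e').1 - 1) + ((ofLex e').2 : Ordinal.{0}) := le_self_add
  · have h5' : (ofLex e).1 = (ofLex e').1 := h5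
    rw [h5']
    gcongr

/-- a list with small entries has a small value -/
private theorem S_lt_CB {m : ℕ} (x : Ordinal.{0}) (l : List (Cd m ×ₗ ℕ))
    (h : ∀ e ∈ l, E_CB e < x) : S_CB l < ω ^ x := by
  induction l with
  | nil =>
    rw [S_nil_CB]
    exact opow_pos _ omega0_pos
  | cons e l ih =>
    rw [S_cons_CB]
    refine isPrincipal_add_omega0_opow x ?_ (ih fun e' he' => h e' (List.mem_cons_of_mem _ he'))
    exact (opow_lt_opow_iff_right one_lt_omega0).2 (h e List.mem_cons_self)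

private theorem S_mono_CB {m : ℕ} (ih : ∀ c c' : Cd m, Cd.wf m c → Cd.wf m c' → c < c' →
    Cd.pi m c < Cd.pi m c') {l l' : List (Cd m ×ₗ ℕ)} (h : List.Lex (· < ·) l l') :
    (∀ e ∈ l, Cd.wf m (ofLex e).1 ∧ (ofLex e).1 ≠ Cd.bot m) →
    (∀ e ∈ l', Cd.wf m (ofLex e).1 ∧ (ofLex e).1 ≠ Cd.bot m) →
    l.Pairwise (fun a b => b ≤ a) → S_CB l < S_CB l' := by
  induction h with
  | @nil b l' =>
    intro _ _ _
    rw [S_nil_CB, S_cons_CB]
    exact lt_of_lt_of_le (opow_pos _ omega0_pos) le_self_add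
  | @cons a l l' h ihl =>
    intro h1 h2 h3
    rw [S_cons_CB, S_cons_CB]
    have h4 := ihl (fun e he => h1 e (List.mem_cons_of_mem _ he))
      (fun e he => h2 e (List.mem_cons_of_mem _ he)) (List.pairwise_cons.1 h3).2
    gcongr
  | @rel a l b l' hab =>
    intro h1 h2 h3
    have h4 : S_CB (a :: l) < ω ^ E_CB b := by
      refine S_lt_CB _ _ fun e he => ?_
      have hb := h2 b List.mem_cons_self
      refine E_lt_CB ih (h1 e he).1 (h1 e he).2 hb.1 hb.2 ?_
      rcases List.mem_cons.1 he with rfl | he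
      · exact hab
      · exact lt_of_le_of_lt ((List.pairwise_cons.1 h3).1 e he) hab
    rw [S_cons_CB b]
    exact lt_of_lt_of_le h4 le_self_add

/-- (1) -/
private theorem pi_mono_CB (m : ℕ) : ∀ c c' : Cd m, Cd.wf m c → Cd.wf m c' → c < c' →
    Cd.pi m c < Cd.pi m c' := by
  induction m with
  | zero =>
    intro c c' _ _ h
    revert h
    refine cases0_CB (fun c => c < c' → Cd.pi 0 c < Cd.pi 0 c') ?_ ?_ c
    · refine cases0_CB (fun c' => Cd.bot 0 < c' → Cd.pi 0 (Cd.bot 0) < Cd.pi 0 c') ?_ ?_ c'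
      · intro h
        exact absurd h (lt_irrefl _)
      · intro _
        rw [pi_bot_CB, pi_one_CB]
        exact zero_lt_one
    · refine cases0_CB (fun c' => one_CB < c' → Cd.pi 0 one_CB < Cd.pi 0 c') ?_ ?_ c'
      · intro h
        exact absurd (h.trans bot_lt_one_CB) (lt_irrefl _)
      · intro h
        exact absurd h (lt_irrefl _)
  | succ m ih =>
    intro c c' h1 h2 h
    rw [pi_succ_CB, pi_succ_CB]
    exact S_mono_CB ih h h1.2 h2.2 h1.1

/-! ### Values below `ε₀` -/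

private theorem eps_add_CB {a b : Ordinal.{0}} (ha : a < Ordinal.epsilon 0)
    (hb : b < Ordinal.epsilon 0) : a + b < Ordinal.epsilon 0 := by
  have h := isPrincipal_add_omega0_opow (Ordinal.epsilon 0)
  rw [omega0_opow_epsilon] at h
  exact h ha hb

private theorem eps_mul_CB {a b : Ordinal.{0}} (ha : a < Ordinal.epsilon 0)
    (hb : b < Ordinal.epsilon 0) : a * b < Ordinal.epsilon 0 := by
  have h := isPrincipal_mul_omega0_opow_opow (Ordinal.epsilon 0)
  rw [omega0_opow_epsilon, omega0_opow_epsilon] at h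
  exact h ha hb

private theorem eps_pow_CB {a : Ordinal.{0}} (ha : a < Ordinal.epsilon 0) :
    ω ^ a < Ordinal.epsilon 0 := by
  rw [← omega0_opow_epsilon 0]
  exact (opow_lt_opow_iff_right one_lt_omega0).2 ha

/-- (2) -/
private theorem pi_lt_CB (m : ℕ) : ∀ c : Cd m, Cd.pi m c < Ordinal.epsilon 0 := by
  induction m with
  | zero =>
    refine cases0_CB _ ?_ ?_
    · rw [pi_bot_CB]
      exact epsilon_pos _
    · rw [pi_one_CB]
      exact_mod_cast natCast_lt_epsilon 1 0
  | succ m ih =>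
    intro c
    rw [pi_succ_CB]
    generalize Cd.L c = l
    induction l with
    | nil =>
      rw [S_nil_CB]
      exact epsilon_pos _
    | cons e l ihl =>
      rw [S_cons_CB]
      refine eps_add_CB (eps_pow_CB ?_) ihl
      unfold E_CB
      refine eps_add_CB (eps_mul_CB (omega0_lt_epsilon 0) ?_) (natCast_lt_epsilon _ 0)
      exact lt_of_le_of_lt (Ordinal.sub_le_self _ _) (ih _)

/-- (3) -/
private theorem pi_zero_CB (m : ℕ) : Cd.pi m (Cd.bot m) = 0 := by
  cases m with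
  | zero => exact pi_bot_CB
  | succ m => rfl

/-! ### The embedding `up` -/

/-- `up` on entries -/
private def g_CB (m : ℕ) (e : Cd m ×ₗ ℕ) : Cd (m + 1) ×ₗ ℕ :=
  toLex (Cd.up m (ofLex e).1, (ofLex e).2)

private theorem up_succ_CB (m : ℕ) (l : Cd (m + 1)) :
    Cd.up (m + 1) l = Cd.of ((Cd.L l).map (g_CB m)) := rfl

/-- (5) -/
private theorem pi_up_CB (m : ℕ) : ∀ c : Cd m, Cd.pi (m + 1) (Cd.up m c) = Cd.pi m c := by
  induction m with
  | zero =>
    refine cases0_CB _ ?_ ?_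
    · rw [pi_bot_CB]
      rfl
    · rw [pi_one_CB, pi_succ_CB, up_one_CB]
      change S_CB [toLex (one_CB, 0)] = 1
      rw [S_cons_CB, S_nil_CB, add_zero]
      unfold E_CB
      have e1 : (ofLex (toLex (one_CB, 0) : Cd 0 ×ₗ ℕ)).1 = one_CB := rfl
      have e2 : (ofLex (toLex (one_CB, 0) : Cd 0 ×ₗ ℕ)).2 = 0 := rfl
      rw [e1, e2, pi_one_CB, Ordinal.sub_self, mul_zero, Nat.cast_zero, add_zero, opow_zero]
  | succ m ih =>
    intro c
    rw [pi_succ_CB, pi_succ_CB, up_succ_CB]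
    change S_CB ((Cd.L c).map (g_CB m)) = S_CB (Cd.L c)
    generalize Cd.L c = l
    induction l with
    | nil => rfl
    | cons e l ihl =>
      rw [List.map_cons, S_cons_CB, S_cons_CB, ihl]
      congr 2
      unfold E_CB
      have e1 : (ofLex (g_CB m e)).1 = Cd.up m (ofLex e).1 := rfl
      have e2 : (ofLex (g_CB m e)).2 = (ofLex e).2 := rfl
      rw [e1, e2, ih]

private theorem g_mono_CB {m : ℕ} (ih : StrictMono (Cd.up m)) : StrictMono (g_CB m) := by
  intro e e' h
  rw [Prod.Lex.lt_iff] at h ⊢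
  rcases h with h | ⟨h1, h2⟩
  · exact Or.inl (ih h)
  · refine Or.inr ⟨?_, h2⟩
    have h1' : (ofLex e).1 = (ofLex e').1 := h1
    change Cd.up m (ofLex e).1 = Cd.up m (ofLex e').1
    rw [h1']

private theorem lex_map_CB {α β : Type} [LT α] [LT β] {g : α → β} (hg : ∀ a b, a < b → g a < g b)
    {l l' : List α} (h : List.Lex (· < ·) l l') : List.Lex (· < ·) (l.map g) (l'.map g) := by
  induction h with
  | nil => exact List.Lex.nil
  | cons _ ih => exact List.Lex.cons ih
  | rel h => exact List.Lex.rel (hg _ _ h)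

/-- (6), one direction -/
private theorem up_mono_CB (m : ℕ) : StrictMono (Cd.up m) := by
  induction m with
  | zero =>
    intro c c'
    refine cases0_CB (fun c => c < c' → Cd.up 0 c < Cd.up 0 c') ?_ ?_ c
    · refine cases0_CB (fun c' => Cd.bot 0 < c' → Cd.up 0 (Cd.bot 0) < Cd.up 0 c') ?_ ?_ c'
      · intro h
        exact absurd h (lt_irrefl _)
      · intro _
        exact (List.Lex.nil : List.Lex (· < ·) ([] : List (Cd 0 ×ₗ ℕ)) [toLex (one_CB, 0)])
    · refine cases0_CB (fun c' => one_CB < c' → Cd.up 0 one_CB < Cd.up 0 c') ?_ ?_ c'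
      · intro h
        exact absurd (h.trans bot_lt_one_CB) (lt_irrefl _)
      · intro h
        exact absurd h (lt_irrefl _)
  | succ m ih =>
    intro l l' h
    exact lex_map_CB (g := g_CB m) (fun a b hab => g_mono_CB ih hab) h

/-- (9) -/
private theorem up_bot'_CB (m : ℕ) : Cd.up m (Cd.bot m) = Cd.bot (m + 1) := by
  cases m with
  | zero => rfl
  | succ m => rfl

private theorem up_ne_CB {m : ℕ} {c : Cd m} (h : c ≠ Cd.bot m) : Cd.up m c ≠ Cd.bot (m + 1) := by
  intro h1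
  rw [← up_bot'_CB] at h1
  exact h ((up_mono_CB m).injective h1)

/-- (7) -/
private theorem up_wf_CB (m : ℕ) : ∀ c : Cd m, Cd.wf m c → Cd.wf (m + 1) (Cd.up m c) := by
  induction m with
  | zero =>
    intro c _
    refine cases0_CB (fun c => Cd.wf 1 (Cd.up 0 c)) ?_ ?_ c
    · exact ⟨List.Pairwise.nil, fun e he => absurd he List.not_mem_nil⟩
    · refine ⟨List.pairwise_singleton _ _, fun e he => ?_⟩
      have he' : e ∈ [(toLex (one_CB, 0) : Cd 0 ×ₗ ℕ)] := he
      rw [List.mem_singleton.1 he']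
      exact ⟨trivial, bot_ne_one_CB.symm⟩
  | succ m ih =>
    intro l hl
    refine ⟨?_, ?_⟩
    · change List.Pairwise _ ((Cd.L l).map (g_CB m))
      rw [List.pairwise_map]
      exact hl.1.imp fun {a b} hab => (g_mono_CB (up_mono_CB m)).monotone hab
    · intro e he
      have he' : e ∈ (Cd.L l).map (g_CB m) := he
      obtain ⟨e₀, h0, rfl⟩ := List.mem_map.1 he'
      exact ⟨ih _ (hl.2 e₀ h0).1, up_ne_CB (hl.2 e₀ h0).2⟩

/-- (8) -/
private theorem up_vd_CB (m : ℕ) : ∀ c : Cd m, Cd.vd m c ↔ Cd.vd (m + 1) (Cd.up m c) := by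
  induction m with
  | zero =>
    refine cases0_CB _ ?_ ?_
    · constructor
      · intro h
        have h' : (false : Bool) = true := h
        exact absurd h' (by decide)
      · rintro ⟨l₀, c, h, _⟩
        have h' : ([] : List (Cd 0 ×ₗ ℕ)) = l₀ ++ [toLex (c, 0)] := h
        simp at h'
    · constructor
      · intro h
        exact ⟨[], one_CB, rfl, h⟩
      · intro _
        exact (rfl : (true : Bool) = true)
  | succ m ih =>
    intro l
    constructor
    · rintro ⟨l₀, c, h, hc⟩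
      refine ⟨l₀.map (g_CB m), Cd.up m c, ?_, (ih c).1 hc⟩
      change (Cd.L l).map (g_CB m) = _
      rw [h, List.map_append]
      rfl
    · rintro ⟨l₁, c₁, h, hc⟩
      have h' : (Cd.L l).map (g_CB m) = l₁ ++ [toLex (c₁, 0)] := h
      rw [List.map_eq_append_iff] at h'
      obtain ⟨l₂, l₃, h1, h2, h3⟩ := h'
      rw [List.map_eq_singleton_iff] at h3
      obtain ⟨e, h4, h5⟩ := h3
      have h6 : Cd.up m (ofLex e).1 = c₁ := congrArg (fun z => (ofLex z).1) h5
      have h7 : (ofLex e).2 = 0 := congrArg (fun z => (ofLex z).2) h5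
      refine ⟨l₂, (ofLex e).1, ?_, ?_⟩
      · rw [h1, h4]
        congr 1
        have h8 : e = toLex ((ofLex e).1, (ofLex e).2) := rfl
        rw [h7] at h8
        rw [← h8]
      · rw [ih, h6]
        exact hc

/-- (10) -/
private theorem up_init_CB (m : ℕ) : ∀ (c : Cd m) (c' : Cd (m + 1)), Cd.wf m c →
    Cd.wf (m + 1) c' → c' ≤ Cd.up m c → ∃ c₀ : Cd m, Cd.wf m c₀ ∧ c' = Cd.up m c₀ := by
  -- an empty or nonempty list below another list
  have A : ∀ (k : ℕ) (a b : Cd (k + 1)), a ≤ b → ∀ (e : Cd k ×ₗ ℕ) (r : List (Cd k ×ₗ ℕ)),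
      Cd.L a = e :: r → ∃ (e' : Cd k ×ₗ ℕ) (r' : List (Cd k ×ₗ ℕ)), Cd.L b = e' :: r' ∧
        e ≤ e' ∧ (e = e' → ¬ List.Lex (· < ·) r' r) := by
    intro k a b hab e r ha
    have hnot : ¬ List.Lex (· < ·) (Cd.L b) (Cd.L a) := not_lt_of_ge hab
    rw [ha] at hnot
    cases hb : Cd.L b with
    | nil =>
      rw [hb] at hnot
      exact absurd List.Lex.nil hnot
    | cons e' r' =>
      rw [hb] at hnot
      refine ⟨e', r', rfl, ?_, ?_⟩
      · exact le_of_not_gt fun h => hnot (List.Lex.rel h)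
      · rintro rfl h
        exact hnot (List.Lex.cons h)
  induction m with
  | zero =>
    intro c c' _ hw hle
    cases hc' : Cd.L c' with
    | nil =>
      refine ⟨Cd.bot 0, trivial, ?_⟩
      exact hc'
    | cons e r =>
      obtain ⟨e', r', h1, h2, h3⟩ := A 0 c' (Cd.up 0 c) hle e r hc'
      have hce := (hw.2 e (by rw [hc']; exact List.mem_cons_self)).2
      have he1 : (ofLex e).1 = one_CB := by
        revert hce
        refine cases0_CB (fun z => z ≠ Cd.bot 0 → z = one_CB) ?_ ?_ (ofLex e).1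
        · intro h
          exact absurd rfl h
        · intro _
          rfl
      revert h1
      refine cases0_CB (fun c => Cd.L (Cd.up 0 c) = e' :: r' →
        ∃ c₀ : Cd 0, Cd.wf 0 c₀ ∧ c' = Cd.up 0 c₀) ?_ ?_ c
      · intro h1
        have h1' : ([] : List (Cd 0 ×ₗ ℕ)) = e' :: r' := h1
        exact absurd h1' (by simp)
      · intro h1
        have h1' : [(toLex (one_CB, 0) : Cd 0 ×ₗ ℕ)] = e' :: r' := h1
        have h4 : toLex (one_CB, 0) = e' := (List.cons.inj h1').1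
        have h5 : [] = r' := (List.cons.inj h1').2
        have h6 : e = e' := by
          rw [← h4] at h2 ⊢
          rw [Prod.Lex.le_iff] at h2
          rcases h2 with h2 | h2
          · rw [he1] at h2
            exact absurd h2 (lt_irrefl _)
          · have h7 : (ofLex e).2 = 0 := Nat.le_zero.1 h2.2
            have h8 : e = toLex ((ofLex e).1, (ofLex e).2) := rfl
            rw [he1, h7] at h8
            exact h8
        have h7 := h3 h6
        have h8 : r = [] := by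
          cases r with
          | nil => rfl
          | cons a r =>
            rw [← h5] at h7
            exact absurd List.Lex.nil h7
        refine ⟨one_CB, trivial, ?_⟩
        rw [h8, h6, ← h4] at hc'
        exact hc'
  | succ m ih =>
    intro l l' hl hl' hle
    have B : ∀ e ∈ Cd.L l', ∃ e₀ : Cd m ×ₗ ℕ, g_CB m e₀ = e ∧ Cd.wf m (ofLex e₀).1 ∧
        (ofLex e₀).1 ≠ Cd.bot m := by
      intro e he
      cases hc' : Cd.L l' with
      | nil =>
        rw [hc'] at he
        exact absurd he List.not_mem_nil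
      | cons a r =>
        obtain ⟨a', r', h1, h2, _⟩ := A (m + 1) l' (Cd.up (m + 1) l) hle a r hc'
        have h1' : (Cd.L l).map (g_CB m) = a' :: r' := h1
        rw [List.map_eq_cons_iff] at h1'
        obtain ⟨b, t, h3, h4, _⟩ := h1'
        have h5 : e ≤ a' := by
          rw [hc'] at he
          rcases List.mem_cons.1 he with rfl | he
          · exact h2
          · have h6 := hl'.1
            rw [hc'] at h6
            exact ((List.pairwise_cons.1 h6).1 e he).trans h2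
        have h6 : (ofLex e).1 ≤ Cd.up m (ofLex b).1 := by
          rw [← h4, Prod.Lex.le_iff] at h5
          rcases h5 with h5 | h5
          · exact h5.le
          · exact h5.1.le
        have hb := hl.2 b (by rw [h3]; exact List.mem_cons_self)
        have hwe := hl'.2 e he
        obtain ⟨c₀, h7, h8⟩ := ih (ofLex b).1 (ofLex e).1 hb.1 hwe.1 h6
        refine ⟨toLex (c₀, (ofLex e).2), ?_, h7, ?_⟩
        · change toLex (Cd.up m c₀, (ofLex e).2) = e
          rw [← h8]
          rfl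
        · intro h9
          have h10 : c₀ = Cd.bot m := h9
          rw [h10, up_bot'_CB] at h8
          exact hwe.2 h8
    have C : ∀ l' : List (Cd (m + 1) ×ₗ ℕ), (∀ e ∈ l', ∃ e₀ : Cd m ×ₗ ℕ, g_CB m e₀ = e ∧
        Cd.wf m (ofLex e₀).1 ∧ (ofLex e₀).1 ≠ Cd.bot m) → ∃ l₀ : List (Cd m ×ₗ ℕ),
        l' = l₀.map (g_CB m) ∧ ∀ e ∈ l₀, Cd.wf m (ofLex e).1 ∧ (ofLex e).1 ≠ Cd.bot m := by
      intro l'
      induction l' with
      | nil =>
        intro _
        exact ⟨[], rfl, fun e he => absurd he List.not_mem_nil⟩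
      | cons a l' ihl =>
        intro h
        obtain ⟨l₀, h1, h2⟩ := ihl fun e he => h e (List.mem_cons_of_mem _ he)
        obtain ⟨e₀, h3, h4⟩ := h a List.mem_cons_self
        refine ⟨e₀ :: l₀, ?_, ?_⟩
        · rw [List.map_cons, h3, ← h1]
        · intro e he
          rcases List.mem_cons.1 he with rfl | he
          · exact h4
          · exact h2 e he
    obtain ⟨l₀, h1, h2⟩ := C (Cd.L l') B
    refine ⟨Cd.of l₀, ⟨?_, h2⟩, h1⟩
    have h3 := hl'.1
    rw [h1, List.pairwise_map] at h3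
    exact h3.imp fun {a b} hab => (g_mono_CB (up_mono_CB m)).le_iff_le.1 hab

/-- **CB** -/
theorem hCB : StCB := by
  intro m
  refine ⟨pi_mono_CB m, pi_lt_CB m, pi_zero_CB m, fun c _ h => one_le_CB m c h, pi_up_CB m,
    fun c c' => (up_mono_CB m).lt_iff_lt.symm, up_wf_CB m, up_vd_CB m, up_bot'_CB m,
    up_init_CB m, ?_⟩
  exact Subrelation.wf (r := InvImage (fun a b : Ordinal.{0} => a < b)
    (fun c : {c : Cd m // Cd.wf m c} => Cd.pi m c.1))
    (fun {c c'} h => pi_mono_CB m c.1 c'.1 c.2 c'.2 h) (InvImage.wf _ wellFounded_lt)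

end Pool.Agent.Helper24.WH

end

section

/-!
# Module CTI of project WH: the comparison theorem
-/

set_option autoImplicit false

namespace Pool.Agent.Helper24.WH

open Set TopologicalSpace Topology
open Ordinal hiding univ

theorem hCTI (HC0 : StC0) (HCTA : StCTA) (HCTB : StCTB) (HHC : StHC) (HRA : StRA) (HCB : StCB) (HUZ : StUZ)
    (HCA : StCA) : StCTI := by
  intro X A₂ n τ P f τ' P' f' R R' M
  induction M with
  | zero =>
    intro _ r s _ _ A hA A' hA' Q hQ hZ hQ2
    refine HC0 X A₂ n τ P f τ' P' f' R R' s A hA A' hA' Q hQ ?_ ?_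
    · intro x hx
      by_contra hne
      have h1 : f x = !s := by
        cases hfx : f x <;> cases s <;> simp_all
      have h2 : x ∈ Zo τ f 0 r (!s) A := by
        rw [(HUZ X τ f).2.2.1]
        exact ⟨hx, h1⟩
      rw [hZ] at h2
      exact h2
    · have h1 := (HUZ (Tre A₂) τ' f').2.2.1 r s A'
      rw [h1] at hQ2
      exact hQ2
  | succ M ih =>
    intro hM r
    have hwfo := (HCB (M + 1)).2.2.2.2.2.2.2.2.2.2
    -- well founded induction on `r`
    suffices H : ∀ r : {c : Cd (M + 1) // Cd.wf (M + 1) c}, ∀ s : Bool, Cd.vd (M + 1) r.1 →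
        ∀ A ∈ P (M + 1), ∀ A' ∈ P' (M + 1), ∀ Q ∈ P' (M + 1 + 1), Zo τ f (M + 1) r.1 (!s) A = ∅ →
        A' ∩ Q ⊆ closure[τ' (M + 1 + 1)] (Q ∩ Zo τ' f' (M + 1) r.1 s A') →
        WinG τ P f τ' P' f' (M + 1) A A' Q by
      intro s hw hv A hA A' hA' Q hQ hZ hQ2
      exact H ⟨r, hw⟩ s hv A hA A' hA' Q hQ hZ hQ2
    intro r
    induction r using hwfo.induction with
    | _ r IH =>
    obtain ⟨r, hw⟩ := r
    intro s hv A hA A' hA' Q hQ hZ hQ2
    obtain ⟨l₀, ρ', hr, hρv⟩ := hv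
    have hre : r = Cd.ext (Cd.of l₀) ρ' 0 := hr
    have hv' : Cd.vd (M + 1) r := ⟨l₀, ρ', hr, hρv⟩
    have hCAM := HCA M
    have hext := hCAM.2.2.2.2.2.1 (Cd.of l₀) ρ' 0 (by rw [← hre]; exact hw)
    obtain ⟨hγw, hρw, hρb, hγr⟩ := hext
    rw [← hre] at hγr
    set γ : Cd (M + 1) := Cd.of l₀ with hγ
    have hB : Vo τ f (M + 1) γ A ∈ P (M + 1) := R.VP (M + 1) hM γ hγw A hA
    have hUZ := (HUZ X τ f).2.2.2.2.2.2.2.2 M γ ρ' 0 (!s) A
    have hUZ' := (HUZ (Tre A₂) τ' f').2.2.2.2.2.2.2.2 M γ ρ' 0 s A'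
    rw [← hre] at hUZ hUZ'
    -- the source
    have hZB : Zo τ f M ρ' (!s) (Vo τ f (M + 1) γ A) = ∅ := by
      have h1 := HHC X n τ P f R M hM ρ' hρw hρv (!s) _ hB
      rw [← hUZ] at h1
      change Zo τ f (M + 1) r (!s) A = ∅ at hZ
      rw [hZ] at h1
      rw [← Set.subset_empty_iff, h1]
      exact @subset_closure X (τ (M + 1)) _
    -- the target
    have hH' : Zo τ' f' (M + 1) r s A' ∈ P' (M + 1) := R'.rich.ZP (M + 1) hM r hw hv' s A' hA'
    have hH'A : Zo τ' f' (M + 1) r s A' ⊆ A' := (HRA (Tre A₂) τ' f' (M + 1)).2.2.2.1 r s A'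
    have hcl : Zo τ' f' (M + 1) r s A' ⊆
        closure[τ' (M + 1)] (Zo τ' f' M ρ' s (Zo τ' f' (M + 1) r s A')) := by
      have h1 := (HRA (Tre A₂) τ' f' M).2.2.2.2.2.2.2.2.2.2.2.1 ρ' s (Vo τ' f' (M + 1) γ A') hρw hρv
      rw [← hUZ'] at h1
      exact h1
    have hQM : Q ∈ P' (M + 1) := R'.rich.anti (M + 1) hQ
    have hQo : IsOpen[τ' (M + 1)] Q := R'.rich.op (M + 1) hM Q hQ
    have hwin : WinG τ P f τ' P' f' M (Vo τ f (M + 1) γ A) (Zo τ' f' (M + 1) r s A') Q := by
      refine ih (by omega) ρ' s hρw hρv _ (R.anti M hB) _ (R'.rich.anti M hH') Q hQM hZB ?_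
      rintro x ⟨hx1, hx2⟩
      have hx3 := hcl hx1
      rw [@mem_closure_iff _ (τ' (M + 1))] at hx3 ⊢
      intro o ho hxo
      obtain ⟨y, hy1, hy2⟩ := hx3 (o ∩ Q) (@IsOpen.inter _ (τ' (M + 1)) _ _ ho hQo) ⟨hxo, hx2⟩
      exact ⟨y, hy1.1, hy1.2, hy2⟩
    have hcta := HCTA X A₂ n τ P f τ' P' f' R R' M hM _ hB A' hA' _ hH' Q hQ hH'A hQ2 hwin
    refine HCTB X A₂ n τ P f τ' P' f' R R' M hM A hA A' hA' _ hH' Q hQ γ r hγw hw hγr hH'A hQ2 hcta ?_
    intro r₁ s₁ hw₁ hv₁ hr₁ O hO Q₁ hQ₁ hZ₁ hQ₁2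
    refine IH ⟨r₁, hw₁⟩ hr₁ s₁ hv₁ (A ∩ O) (R.inter (M + 1) A hA O (R.anti (M + 1) hO)) A' hA' Q₁ hQ₁ hZ₁ ?_
    refine hQ₁2.trans ?_
    apply @closure_mono _ (τ' (M + 1 + 1))
    apply Set.inter_subset_inter_right
    exact (HRA (Tre A₂) τ' f' (M + 1)).2.2.2.2.2.2.2.2.2.2.2.2.2 r₁ r s₁ s A' hw₁ hv₁ hw hv' hr₁

end Pool.Agent.Helper24.WH

end

section

/-!
# Project WH, module DC
-/

set_option autoImplicit false

namespace Pool.Agent.Helper24.WH

open Set TopologicalSpace Topology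
open Ordinal hiding univ

theorem hDC (hCM : StCM) (hRA : StRA) : StDC := by
  intro A₁ A₂ _ _ _ _ f f' n r r' sd sd' d d' hr
  obtain ⟨τ, P, hR, hτ, hV, hZ⟩ := d.ex
  obtain ⟨τ', P', hR', hτ', hV', hZ'⟩ := d'.ex
  obtain ⟨s', hs'⟩ := d'.side
  rcases hr with hr | ⟨rfl, hsd⟩
  · obtain ⟨-, -, -, -, -, -, -, ha, hb, -, -, -, -, -⟩ := hRA (Tre A₁) τ f n
    refine hCM A₁ A₂ n τ P f τ' P' f' hR hR' hτ hτ' r' d'.wf d'.vd ?_ ⟨s', (hZ' s').1 hs'⟩ ?_
    · exact subset_empty_iff.1 ((ha r r' univ d.wf d'.wf hr.le).trans hV.le)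
    · intro s hs
      have h := (hb r' r s univ d'.wf d'.vd d.wf hr).trans hV.le
      rw [subset_empty_iff.1 h] at hs
      exact absurd hs Set.not_nonempty_empty
  · exact hCM A₁ A₂ n τ P f τ' P' f' hR hR' hτ hτ' r d.wf d.vd hV ⟨s', (hZ' s').1 hs'⟩
      fun s hs => (hZ' s).1 (hsd s ((hZ s).2 hs))

end Pool.Agent.Helper24.WH

end

section

/-!
# PROJECT WH (MP_76577a_lc), module EC: monotone families of topologies are eventually constant
-/

set_option autoImplicit false

namespace Pool.Agent.Helper24.WH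

open Set TopologicalSpace Ordinal Topology

theorem hEC : StEC := by
  intro X τ hτ
  have hb : BddAbove (Set.range fun v : ℕ → TopologicalSpace X => sInf {i : Ordinal.{0} | τ i = v}) :=
    Ordinal.bddAbove_of_small
  obtain ⟨i₀, hi₀⟩ := hb
  refine ⟨i₀, fun i hi => ?_⟩
  have hne : ({j : Ordinal.{0} | τ j = τ i}).Nonempty := ⟨i, rfl⟩
  have hj : τ (sInf {j : Ordinal.{0} | τ j = τ i}) = τ i := csInf_mem hne
  have hle : sInf {j : Ordinal.{0} | τ j = τ i} ≤ i₀ := hi₀ ⟨τ i, rfl⟩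
  funext m
  refine le_antisymm (hτ i₀ i hi m) ?_
  have h := hτ _ i₀ hle m
  rw [hj] at h
  exact h

end Pool.Agent.Helper24.WH

end

section

/-!
# PROJECT WH (MP_76577a_lc), module FT2 (5.2): finitely many exponents over all pieces
-/

set_option autoImplicit false

namespace Pool.Agent.Helper24.WH

open Set TopologicalSpace Topology
open Ordinal hiding univ

variable {A S : Type}

/-- `Z` depends only on the topologies of index at most `m` -/
private theorem zCongr_FT2 {X : Type} (τ τ' : ℕ → TopologicalSpace X) (g : X → S) (m : ℕ)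
    (h : ∀ k ≤ m, τ k = τ' k) : ∀ t : TT S m, Z τ g m t = Z τ' g m t := by
  induction m with
  | zero =>
    intro s
    funext B
    simp only [Z]
  | succ m ih =>
    intro t
    funext B
    have e : (fun U => HomOp (τ (m + 1)) (Z τ g m U)) = (fun U => HomOp (τ' (m + 1)) (Z τ' g m U)) := by
      funext U
      rw [h (m + 1) le_rfl, ih (fun k hk => h k (by omega)) U]
    show ZTr (fun U => HomOp (τ (m + 1)) (Z τ g m U)) t B = ZTr (fun U => HomOp (τ' (m + 1)) (Z τ' g m U)) t B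
    rw [e]

private theorem dLCongr_FT2 {X : Type} (τ τ' : ℕ → TopologicalSpace X) (g : X → S) (m : ℕ)
    (h : ∀ k ≤ m + 1, τ k = τ' k) (L : ℕ → TT S m) : dL τ g m L = dL τ' g m L := by
  funext B
  unfold dL hom
  refine iInter_congr fun i => ?_
  rw [h (m + 1) le_rfl, zCongr_FT2 τ τ' g m (fun k hk => h k (by omega)) (L i)]

private theorem nonneg_FT2 (v : WithTop Ordinal.{0}) : 0 ≤ v := by
  induction v using WithTop.recTopCoe with
  | top => exact le_top
  | coe x => exact WithTop.coe_le_coe.2 (zero_le (a := x))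

private theorem iUnion₂_eq_empty_iff_FT2 {α ι : Type} (C : Set ι) (f : ι → Set α) :
    (⋃ i ∈ C, f i) = ∅ ↔ ∀ i ∈ C, f i = ∅ := by
  simp only [iUnion_eq_empty]

/-- a value determined by a finite set of values -/
private theorem sup_FT2 {F : Set (WithTop Ordinal.{0})} (hF : F.Finite) (v : WithTop Ordinal.{0})
    (h : ∀ x : Ordinal.{0}, v ≤ x ↔ ∀ w ∈ F, w ≤ x) : v = 0 ∨ v ∈ F := by
  by_cases hne : F.Nonempty
  · obtain ⟨w₀, hw₀, hmax⟩ := Set.exists_max_image F id hF hne
    right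
    have e : v = w₀ := by
      refine eq_of_forall_ge_iff fun c => ?_
      induction c using WithTop.recTopCoe with
      | top => exact ⟨fun _ => le_top, fun _ => le_top⟩
      | coe x => exact ⟨fun hv => (h x).1 hv w₀ hw₀, fun hw => (h x).2 fun w hwF => (hmax w hwF).trans hw⟩
    rw [e]
    exact hw₀
  · left
    have h0 := (h 0).2 (fun w hw => absurd ⟨w, hw⟩ hne)
    exact le_antisymm h0 (nonneg_FT2 v)

/-- the exponent of a union -/
private theorem union_FT2 (hEX : StEX) (hAD : StAD) {X : Type} {τ : TopologicalSpace X} (hZD : ZD τ)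
    {d : Set X → Set X} (hd : IsDer τ d) {B₁ B₂ : Set X} (h₁ : IsClosed[τ] B₁) (h₂ : IsClosed[τ] B₂) :
    ex d (B₁ ∪ B₂) = 0 ∨ ex d (B₁ ∪ B₂) = 1 ∨ ex d (B₁ ∪ B₂) = ex d B₁ ∨
      ex d (B₁ ∪ B₂) = ex d B₂ := by
  obtain ⟨hle, hmono, -, -⟩ := hEX X d hd.mono hd.le
  have key : ∀ x : Ordinal.{0}, 1 ≤ x → ex d B₁ ≤ x → ex d B₂ ≤ x → ex d (B₁ ∪ B₂) ≤ x := by
    intro x hx h1 h2
    rw [hle] at h1 h2 ⊢
    rw [hAD X τ hZD d hd B₁ B₂ x h₁ h₂ hx, h1, h2, union_empty]
  have m1 := hmono B₁ (B₁ ∪ B₂) subset_union_left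
  have m2 := hmono B₂ (B₁ ∪ B₂) subset_union_right
  -- the maximum of the two values
  have hmax : ∀ w : WithTop Ordinal.{0}, ex d B₁ ≤ w → ex d B₂ ≤ w → w ≤ ex d (B₁ ∪ B₂) →
      ex d (B₁ ∪ B₂) = 0 ∨ ex d (B₁ ∪ B₂) = 1 ∨ ex d (B₁ ∪ B₂) = w := by
    intro w h1 h2 h3
    induction w using WithTop.recTopCoe with
    | top => exact Or.inr (Or.inr (top_le_iff.1 h3))
    | coe y =>
      by_cases hy : 1 ≤ y
      · exact Or.inr (Or.inr (le_antisymm (key y hy h1 h2) h3))
      · have hy1 : y ≤ 1 := (not_le.1 hy).le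
        have h4 : ex d (B₁ ∪ B₂) ≤ ((1 : Ordinal.{0}) : WithTop Ordinal.{0}) :=
          key 1 le_rfl (h1.trans (WithTop.coe_le_coe.2 hy1)) (h2.trans (WithTop.coe_le_coe.2 hy1))
        generalize ex d (B₁ ∪ B₂) = v at h4
        induction v using WithTop.recTopCoe with
        | top => exact absurd h4 (by simp)
        | coe z =>
          have hz := WithTop.coe_le_coe.1 h4
          rcases Order.le_one_iff.1 hz with rfl | rfl
          · exact Or.inl rfl
          · exact Or.inr (Or.inl rfl)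
  rcases le_total (ex d B₁) (ex d B₂) with h | h
  · rcases hmax _ h le_rfl m2 with h' | h' | h'
    · exact Or.inl h'
    · exact Or.inr (Or.inl h')
    · exact Or.inr (Or.inr (Or.inr h'))
  · rcases hmax _ le_rfl h m1 with h' | h' | h'
    · exact Or.inl h'
    · exact Or.inr (Or.inl h')
    · exact Or.inr (Or.inr (Or.inl h'))

theorem hFT2 (hNV : StNV) (hFO : StFO) (hEX : StEX) (hAD : StAD) (hEZ : StEZ) (hRD : StRD)
    (hPZ : StPZ) (hPT : StPT) (hSG : StSG) (hSU : StSU) (hPI : StPI) (hZM : StZM) (hZA : StZA) :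
    StFT2 := by
  intro A S _ _ _ n g Ga hH i₀ h₀ m hm
  obtain ⟨hst, -⟩ := hSG A S n g Ga hH
  obtain ⟨hT, hF, hCE⟩ := hst i₀
  obtain ⟨-, -, -, hmono, -⟩ := hSU A S n g
  obtain ⟨-, -, -, -, hcl, -, -⟩ := hPI A S n g Ga hH (m + 1)
  obtain ⟨-, -, hder⟩ := hZM (Tre A) S (stg n g i₀) g hT hF m
  obtain ⟨-, -, hanti, -⟩ := hZA (Tre A) S (stg n g i₀) g m
  have hE := fun L : ℕ → TT S m =>
    hEX (Tre A) (dL (stg n g i₀) g m L) (hder L).mono (hder L).le
  have hclosed : ∀ B, Pc n g (m + 1) B → IsClosed[stg n g i₀ (m + 1)] B := by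
    intro B hB
    obtain ⟨i, hi⟩ := hcl B hB
    have h1 : IsClosed[stg n g (max i i₀) (m + 1)] B :=
      hi.mono (hmono i (max i i₀) (m + 1) (le_max_left _ _))
    rwa [h₀ _ (le_max_right _ _)] at h1
  have hdL : ∀ L : ℕ → TT S m, dL (fT n g i₀) g m L = dL (stg n g i₀) g m L :=
    fun L => dLCongr_FT2 _ _ g m (fun k hk => if_pos (by omega)) L
  -- the exponents of the names
  set E₀ : Set (WithTop Ordinal.{0}) := range (fun q : {q : Nm S × (ℕ → TT S m) // ∃ h i, GN n g q.1 h i} =>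
    ex (dL (stg n g i₀) g m q.1.2) (vl n g q.1.1)) with hE₀
  have hE₀f : E₀.Finite := by
    refine hFO {q : Nm S × (ℕ → TT S m) // ∃ h i, GN n g q.1 h i}
      (fun a b => Dom (TT.Le m) a.1.2 b.1.2 ∧ vl n g b.1.1 ⊆ vl n g a.1.1) (WithTop Ordinal.{0}) _ ?_ ?_
    · intro f
      exact (hNV A S n g Ga hH (fun k => (f k).1.1) (fun k => (f k).2)).2 m (fun k => (f k).1.2)
    · rintro a b ⟨h1, h2⟩
      exact ((hE b.1.2).2.1 _ _ h2).trans
        ((hE a.1.2).2.2.1 _ (fun B => hanti _ _ h1 B) _)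
  have main : ∀ B, Pc n g (m + 1) B → ∀ L : ℕ → TT S m,
      ex (dL (stg n g i₀) g m L) B ∈ insert 0 (insert 1 E₀) := by
    intro B hB
    induction hB with
    | nm N i hN =>
      intro L
      exact Or.inr (Or.inr ⟨⟨(N, L), m + 1, i, hN⟩, rfl⟩)
    | empty =>
      intro L
      left
      have h1 : ex (dL (stg n g i₀) g m L) (∅ : Set (Tre A)) ≤ ((0 : Ordinal.{0}) : WithTop Ordinal.{0}) := by
        rw [(hE L).1]
        exact subset_empty_iff.1 ((hIT (Tre A) _ (hder L).mono (hder L).le).2.2.2.2.2.1 ∅ _)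
      exact le_antisymm h1 (nonneg_FT2 _)
    | union C₀ C₁ hC₀ hC₁ ih₀ ih₁ =>
      intro L
      rcases union_FT2 hEX hAD (hT.zd (m + 1)) (hder L) (hclosed _ hC₀) (hclosed _ hC₁) with h | h | h | h
      · exact Or.inl h
      · exact Or.inr (Or.inl h)
      · rw [h]; exact ih₀ L
      · rw [h]; exact ih₁ L
    | mk a C₀ C₁ hC₀ hC₁ ih₀ ih₁ =>
      intro L
      obtain ⟨-, C, hCf, hC⟩ := hRD (S × S) S (Ga a) m L
      obtain ⟨hPTt, hPTf⟩ := hPT (Tre A) (Tre A) S S (stg n g i₀) (stg n g i₀) g g hT hT hF hF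
      have hga : g ∘ Tre.mk a = Ga a ∘ Prod.map g g := by
        funext p
        exact hH.hom a p
      have hcp : IsClosed[prodT (stg n g i₀) (stg n g i₀) (m + 1)] (C₀ ×ˢ C₁) := by
        let _ := stg n g i₀ (m + 1)
        exact (hclosed _ hC₀).prod (hclosed _ hC₁)
      obtain ⟨-, -, hEZ3⟩ := hEZ (Tre A × Tre A) (Tre A) S (prodT (stg n g i₀) (stg n g i₀))
        (stg n g i₀) g (Tre.mk a) (fun M => hCE a M) m
      obtain ⟨-, -, hPZ3⟩ := hPZ (Tre A) (Tre A) S S (stg n g i₀) (stg n g i₀) g g m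
      obtain ⟨-, hCx⟩ := hC (Tre A × Tre A) (prodT (stg n g i₀) (stg n g i₀)) (Prod.map g g) hPTt hPTf
        (C₀ ×ˢ C₁) hcp
      have hval : ∀ x : Ordinal.{0}, ex (dL (stg n g i₀) g m L) (Tre.mk a '' (C₀ ×ˢ C₁)) ≤ x ↔
          ∀ w ∈ (fun L' : ℕ → TT (S × S) m =>
            min (ex (dL (stg n g i₀) g m (fun i => TT.map Prod.fst m (L' i))) C₀)
              (ex (dL (stg n g i₀) g m (fun i => TT.map Prod.snd m (L' i))) C₁)) '' C, w ≤ x := by
        intro x
        rw [(hE L).1, hEZ3, hga, hCx x, image_eq_empty, iUnion₂_eq_empty_iff_FT2]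
        constructor
        · rintro h w ⟨L', hL', rfl⟩
          have h1 := h L' hL'
          rw [hPZ3, prod_eq_empty_iff] at h1
          rcases h1 with h1 | h1
          · exact min_le_of_left_le (((hE _).1 _ _).2 h1)
          · exact min_le_of_right_le (((hE _).1 _ _).2 h1)
        · intro h L' hL'
          have h1 := h _ ⟨L', hL', rfl⟩
          rw [hPZ3, prod_eq_empty_iff]
          rcases min_le_iff.1 h1 with h1 | h1
          · exact Or.inl (((hE _).1 _ _).1 h1)
          · exact Or.inr (((hE _).1 _ _).1 h1)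
      rcases sup_FT2 (hCf.image _) _ hval with h | ⟨L', hL', h⟩
      · exact Or.inl h
      · rw [← h]
        rcases min_choice (ex (dL (stg n g i₀) g m (fun i => TT.map Prod.fst m (L' i))) C₀)
              (ex (dL (stg n g i₀) g m (fun i => TT.map Prod.snd m (L' i))) C₁) with h' | h'
        · rw [show (fun L' : ℕ → TT (S × S) m =>
            min (ex (dL (stg n g i₀) g m (fun i => TT.map Prod.fst m (L' i))) C₀)
              (ex (dL (stg n g i₀) g m (fun i => TT.map Prod.snd m (L' i))) C₁)) L' = _ from h']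
          exact ih₀ _
        · rw [show (fun L' : ℕ → TT (S × S) m =>
            min (ex (dL (stg n g i₀) g m (fun i => TT.map Prod.fst m (L' i))) C₀)
              (ex (dL (stg n g i₀) g m (fun i => TT.map Prod.snd m (L' i))) C₁)) L' = _ from h']
          exact ih₁ _
  refine ((hE₀f.insert 1).insert 0).subset ?_
  rintro v ⟨L, B, hB, rfl⟩
  rw [hdL]
  exact main B hB L

end Pool.Agent.Helper24.WH

end

section

/-!
# Project WH, module IV: the invariant
-/

set_option autoImplicit false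

namespace Pool.Agent.Helper24.WH

open Set TopologicalSpace Topology
open Ordinal hiding univ

private lemma cs_IV (A : Type) [Finite A] : @CompactSpace (Tre A) (pT A) := by
  let _ : TopologicalSpace A := ⊥
  exact (inferInstance : CompactSpace (List Bool → A))

private lemma cpt_IV {X ι : Type} (τ : TopologicalSpace X) (hX : @CompactSpace X τ) [Nonempty ι]
    (t : ι → Set X) (hd : Directed (· ⊇ ·) t) (hn : ∀ i, (t i).Nonempty)
    (hc : ∀ i, IsClosed[τ] (t i)) : (⋂ i, t i).Nonempty := by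
  let := τ
  have := hX
  exact IsCompact.nonempty_iInter_of_directed_nonempty_isCompact_isClosed t hd hn
    (fun i => (hc i).isCompact) hc

/-- **IV (9.1)** the invariant -/
theorem hIV (hRA : StRA) (hCA : StCA) (hCB : StCB) (hUZ : StUZ) : StIV := by
  intro A₁ _ _ n τ P f hR hτ
  have hrich := hR.rich
  obtain ⟨-, -, -, -, -, -, -, hanti, -, -, hlim, -⟩ := hRA (Tre A₁) τ f n
  obtain ⟨-, hbot, hwfbot, -⟩ := hCA n
  obtain ⟨-, -, -, -, -, -, -, -, -, -, hwell⟩ := hCB n
  obtain ⟨-, -, -, -, hVbot, -⟩ := hUZ (Tre A₁) τ f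
  obtain ⟨a⟩ := ‹Nonempty A₁›
  have hne : (univ : Set (Tre A₁)).Nonempty := ⟨fun _ => a, trivial⟩
  have huniv : (univ : Set (Tre A₁)) ∈ P n := hrich.univ n
  set T : Set {c : Cd n // Cd.wf n c} := {c | Vo τ f n c.1 univ = ∅} with hT
  have hTne : T.Nonempty := by
    obtain ⟨c, hc, hc'⟩ := hrich.tm n le_rfl
    exact ⟨⟨c, hc⟩, hc' univ huniv⟩
  obtain ⟨⟨r, hwf⟩, hr, hmin⟩ := hwell.has_min T hTne
  replace hr : Vo τ f n r univ = ∅ := hr
  have hmin' : ∀ c, Cd.wf n c → c < r → (Vo τ f n c univ).Nonempty := by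
    intro c hc hcr
    rw [nonempty_iff_ne_empty]
    intro h
    exact hmin ⟨c, hc⟩ h hcr
  have hrb : r ≠ Cd.bot n := by
    rintro rfl
    rw [hVbot] at hr
    rw [hr] at hne
    exact not_nonempty_empty hne
  have hbr : Cd.bot n < r := lt_of_le_of_ne (hbot r) (Ne.symm hrb)
  have hvd : Cd.vd n r := by
    by_contra hnv
    have hι : Nonempty {c : Cd n // Cd.wf n c ∧ c < r} := ⟨⟨Cd.bot n, hwfbot, hbr⟩⟩
    have hcs : @CompactSpace (Tre A₁) (τ n) := by
      rw [hτ]
      exact cs_IV A₁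
    obtain ⟨x, hx⟩ := cpt_IV (τ n) hcs
      (fun c : {c : Cd n // Cd.wf n c ∧ c < r} => Vo τ f n c.1 univ)
      (by
        intro c c'
        rcases le_total c.1 c'.1 with h | h
        · exact ⟨c', hanti c.1 c'.1 univ c.2.1 c'.2.1 h, Subset.rfl⟩
        · exact ⟨c, Subset.rfl, hanti c'.1 c.1 univ c'.2.1 c.2.1 h⟩)
      (fun c => hmin' c.1 c.2.1 c.2.2)
      (fun c => hrich.cl n le_rfl _ (hrich.VP n le_rfl c.1 c.2.1 univ huniv))
    have hx' := hlim r univ hwf hnv hrb x (fun c' hc' hcr =>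
      (mem_iInter.mp hx) ⟨c', hc', hcr⟩)
    rw [hr] at hx'
    exact hx'
  refine ⟨r, hwf, hvd, hr, ?_⟩
  obtain ⟨c, hc, hcr, hus⟩ := hrich.us n le_rfl r hwf hvd
  obtain ⟨x, hx⟩ := hmin' c hc hcr
  rcases hus univ huniv hx with h | h
  · exact ⟨false, x, h⟩
  · exact ⟨true, x, h⟩

end Pool.Agent.Helper24.WH

end

section

/-!
# Project WH, module PI: closure properties of the pieces
-/

set_option autoImplicit false

namespace Pool.Agent.Helper24.WH

open Set TopologicalSpace Topology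
open Ordinal hiding univ

private lemma mkinj_PI {A : Type} {a b : A} {p q : Tre A × Tre A} (h : Tre.mk a p = Tre.mk b q) :
    a = b ∧ p = q := by
  refine ⟨congrFun h [], Prod.ext ?_ ?_⟩
  · funext v
    exact congrFun h (false :: v)
  · funext v
    exact congrFun h (true :: v)

private lemma inj_PI {A : Type} (a : A) : Function.Injective (Tre.mk a) :=
  fun _ _ h => (mkinj_PI h).2

private lemma mk_eta_PI {A : Type} (t : Tre A) :
    Tre.mk (t []) (t.sub [false], t.sub [true]) = t := by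
  funext v
  rcases v with _ | ⟨_ | _, v⟩ <;> rfl

private lemma univ_PI {A S : Type} (n : ℕ) (g : Tre A → S) (h : ℕ) : Pc n g h univ := by
  have h1 : GN n g (.nil : Nm S) h 0 := by
    simp only [GN, Good]
  have h2 := Pc.nm (n := n) (g := g) (h := h) (.nil : Nm S) 0 h1
  have h3 : vl n g (.nil : Nm S) = univ := by
    simp only [vl, val]
  rwa [h3] at h2

private lemma iUnion_PI {A S : Type} {n : ℕ} {g : Tre A → S} {h : ℕ} {ι : Type} [Finite ι]
    (C : ι → Set (Tre A)) (hC : ∀ q, Pc n g h (C q)) : Pc n g h (⋃ q, C q) := by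
  have key : ∀ s : Set ι, s.Finite → Pc n g h (⋃ q ∈ s, C q) := by
    intro s hs
    refine Set.Finite.induction_on s hs ?_ ?_
    · simpa using Pc.empty
    · intro a s _ _ ih
      rw [biUnion_insert]
      exact Pc.union _ _ (hC a) ih
  simpa using key univ finite_univ

private lemma nmInter_PI (hSG : StSG) (hSU : StSU) {A S : Type} [Finite A] [Finite S] {n : ℕ}
    {g : Tre A → S} {Ga : A → S × S → S} (hyp : Hyp n g Ga) {h : ℕ} {B : Set (Tre A)}
    (hB : Pc n g h B) : ∀ (N : Nm S) (i : Ordinal.{0}), GN n g N h i → Pc n g h (vl n g N ∩ B) := by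
  obtain ⟨-, hmon, -, -, -, -, -, -, hint⟩ := hSU A S n g
  obtain ⟨-, hname⟩ := hSG A S n g Ga hyp
  induction hB with
  | nm N' i' hN' =>
    intro N i hN
    obtain ⟨N'', h1, h2⟩ := hint N N' h (max i i') (hmon N h h i _ le_rfl (le_max_left _ _) hN)
      (hmon N' h h i' _ le_rfl (le_max_right _ _) hN')
    rw [← h2]
    exact Pc.nm N'' _ h1
  | mk a C₀ C₁ _ _ ih₀ ih₁ =>
    intro N i hN
    obtain ⟨-, hsp⟩ := hname N h i hN
    obtain ⟨k, N₀, N₁, hGN, hsplit⟩ := hsp a
    have h3 : vl n g N ∩ Tre.mk a '' (C₀ ×ˢ C₁) =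
        ⋃ q, Tre.mk a '' ((vl n g (N₀ q) ∩ C₀) ×ˢ (vl n g (N₁ q) ∩ C₁)) := by
      have e1 : vl n g N ∩ Tre.mk a '' (C₀ ×ˢ C₁) =
          (vl n g N ∩ range (Tre.mk a)) ∩ Tre.mk a '' (C₀ ×ˢ C₁) := by
        rw [inter_assoc, inter_eq_right.mpr (image_subset_range (Tre.mk a) (C₀ ×ˢ C₁))]
      rw [e1, hsplit, iUnion_inter]
      refine iUnion_congr fun q => ?_
      rw [← image_inter (inj_PI a), prod_inter_prod]
    rw [h3]
    exact iUnion_PI _ fun q => Pc.mk a _ _ (ih₀ (N₀ q) i (hGN q).1) (ih₁ (N₁ q) i (hGN q).2)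
  | union C₀ C₁ _ _ ih₀ ih₁ =>
    intro N i hN
    rw [inter_union_distrib_left]
    exact Pc.union _ _ (ih₀ N i hN) (ih₁ N i hN)
  | empty =>
    intro N i hN
    rw [inter_empty]
    exact Pc.empty

private lemma inter_PI (hSG : StSG) (hSU : StSU) {A S : Type} [Finite A] [Finite S] {n : ℕ}
    {g : Tre A → S} {Ga : A → S × S → S} (hyp : Hyp n g Ga) {h : ℕ} {B : Set (Tre A)}
    (hB : Pc n g h B) : ∀ B', Pc n g h B' → Pc n g h (B ∩ B') := by
  induction hB with
  | nm N i hN => exact fun B' hB' => nmInter_PI hSG hSU hyp hB' N i hN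
  | mk a C₀ C₁ h₀ h₁ ih₀ ih₁ =>
    intro B' hB'
    induction hB' with
    | nm N i hN =>
      rw [inter_comm]
      exact nmInter_PI hSG hSU hyp (Pc.mk a C₀ C₁ h₀ h₁) N i hN
    | mk b D₀ D₁ k₀ k₁ _ _ =>
      by_cases hab : a = b
      · subst hab
        rw [← image_inter (inj_PI a), prod_inter_prod]
        exact Pc.mk a _ _ (ih₀ _ k₀) (ih₁ _ k₁)
      · have h4 : Tre.mk a '' (C₀ ×ˢ C₁) ∩ Tre.mk b '' (D₀ ×ˢ D₁) = ∅ := by
          refine eq_empty_iff_forall_notMem.mpr ?_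
          rintro t ⟨⟨p, _, rfl⟩, ⟨q, _, hq⟩⟩
          exact hab (mkinj_PI hq).1.symm
        rw [h4]
        exact Pc.empty
    | union D₀ D₁ _ _ jh₀ jh₁ =>
      rw [inter_union_distrib_left]
      exact Pc.union _ _ jh₀ jh₁
    | empty =>
      rw [inter_empty]
      exact Pc.empty
  | union C₀ C₁ _ _ ih₀ ih₁ =>
    intro B' hB'
    rw [union_inter_distrib_right]
    exact Pc.union _ _ (ih₀ B' hB') (ih₁ B' hB')
  | empty =>
    intro B' _
    rw [empty_inter]
    exact Pc.empty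

private lemma anti_PI (hSU : StSU) {A S : Type} [Finite A] [Finite S] {n : ℕ}
    {g : Tre A → S} {h : ℕ} {B : Set (Tre A)}
    (hB : Pc n g (h + 1) B) : Pc n g h B := by
  obtain ⟨-, hmon, -⟩ := hSU A S n g
  induction hB with
  | nm N i hN => exact Pc.nm N i (hmon N (h + 1) h i i (Nat.le_succ h) le_rfl hN)
  | mk a C₀ C₁ _ _ ih₀ ih₁ => exact Pc.mk a _ _ ih₀ ih₁
  | union C₀ C₁ _ _ ih₀ ih₁ => exact Pc.union _ _ ih₀ ih₁
  | empty => exact Pc.empty

/-- levels of the closure of a family under unions and `mk` -/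
private def lev_PI {A : Type} (V : Set (Set (Tre A))) : ℕ → Set (Set (Tre A))
  | 0 => V ∪ {∅}
  | (k + 1) => lev_PI V k ∪ (image2 (fun C D => C ∪ D) (lev_PI V k) (lev_PI V k) ∪
      ⋃ a : A, image2 (fun C D => Tre.mk a '' (C ×ˢ D)) (lev_PI V k) (lev_PI V k))

private lemma lev_cnt_PI {A : Type} [Finite A] {V : Set (Set (Tre A))} (hV : V.Countable) (k : ℕ) :
    (lev_PI V k).Countable := by
  induction k with
  | zero => exact hV.union (countable_singleton _)
  | succ k ih =>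
    have hc : Countable A := Finite.to_countable
    exact ih.union ((ih.image2 ih _).union (countable_iUnion fun a => ih.image2 ih _))

private lemma lev_mono_PI {A : Type} (V : Set (Set (Tre A))) {k l : ℕ} (hkl : k ≤ l) :
    lev_PI V k ⊆ lev_PI V l := by
  induction l, hkl using Nat.le_induction with
  | base => exact Subset.rfl
  | succ l _ ih => exact ih.trans subset_union_left

private lemma countable_PI (hCN : StCN) {A S : Type} [Finite A] [Finite S] {n : ℕ}
    {g : Tre A → S} {Ga : A → S × S → S} (hyp : Hyp n g Ga) (h : ℕ) :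
    {B | Pc n g h B}.Countable := by
  have hV := hCN A S n g Ga hyp
  refine Countable.mono ?_ (countable_iUnion fun k => lev_cnt_PI hV k)
  intro B hB
  replace hB : Pc n g h B := hB
  rw [mem_iUnion]
  induction hB with
  | nm N i hN => exact ⟨0, Or.inl ⟨N, h, i, hN, rfl⟩⟩
  | mk a C₀ C₁ _ _ ih₀ ih₁ =>
    obtain ⟨k₀, h₀⟩ := ih₀
    obtain ⟨k₁, h₁⟩ := ih₁
    refine ⟨max k₀ k₁ + 1, Or.inr (Or.inr (mem_iUnion.mpr ⟨a, ?_⟩))⟩
    exact mem_image2_of_mem (lev_mono_PI _ (le_max_left _ _) h₀)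
      (lev_mono_PI _ (le_max_right _ _) h₁)
  | union C₀ C₁ _ _ ih₀ ih₁ =>
    obtain ⟨k₀, h₀⟩ := ih₀
    obtain ⟨k₁, h₁⟩ := ih₁
    refine ⟨max k₀ k₁ + 1, Or.inr (Or.inl ?_)⟩
    exact mem_image2_of_mem (lev_mono_PI _ (le_max_left _ _) h₀)
      (lev_mono_PI _ (le_max_right _ _) h₁)
  | empty => exact ⟨0, Or.inr rfl⟩

private lemma sub1_PI {A S : Type} [Finite A] {n : ℕ} {g : Tre A → S} {h : ℕ} {B : Set (Tre A)}
    (hB : Pc n g h B) (b : Bool) : Pc n g h {t : Tre A | t.sub [b] ∈ B} := by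
  cases b with
  | false =>
    have h1 : {t : Tre A | t.sub [false] ∈ B} = ⋃ a : A, Tre.mk a '' (B ×ˢ univ) := by
      ext t
      simp only [mem_iUnion]
      constructor
      · intro ht
        exact ⟨t [], (t.sub [false], t.sub [true]), ⟨ht, mem_univ _⟩, mk_eta_PI t⟩
      · rintro ⟨a, p, ⟨hp, -⟩, rfl⟩
        exact hp
    rw [h1]
    exact iUnion_PI _ fun a => Pc.mk a _ _ hB (univ_PI n g h)
  | true =>
    have h1 : {t : Tre A | t.sub [true] ∈ B} = ⋃ a : A, Tre.mk a '' (univ ×ˢ B) := by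
      ext t
      simp only [mem_iUnion]
      constructor
      · intro ht
        exact ⟨t [], (t.sub [false], t.sub [true]), ⟨mem_univ _, ht⟩, mk_eta_PI t⟩
      · rintro ⟨a, p, ⟨-, hp⟩, rfl⟩
        exact hp
    rw [h1]
    exact iUnion_PI _ fun a => Pc.mk a _ _ (univ_PI n g h) hB

private lemma sub_PI {A S : Type} [Finite A] {n : ℕ} {g : Tre A → S} {h : ℕ} (u : List Bool) :
    ∀ {B : Set (Tre A)}, Pc n g h B → Pc n g h {t : Tre A | t.sub u ∈ B} := by
  induction u with
  | nil => exact fun hB => hB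
  | cons b u ih => exact fun hB => sub1_PI (ih hB) b

private lemma closed_PI {X Y : Type} {τX : TopologicalSpace X} {τY : TopologicalSpace Y} {e : X → Y}
    (h : CE τX τY e) {B : Set X} (hB : IsClosed[τX] B) : IsClosed[τY] (e '' B) := by
  let := τX
  let := τY
  have h1 : IsClosedEmbedding e := ⟨⟨⟨h.2.1⟩, h.1⟩, h.2.2.1⟩
  exact h1.isClosedMap B hB

private lemma open_PI {X Y : Type} {τX : TopologicalSpace X} {τY : TopologicalSpace Y} {e : X → Y}
    (h : CE τX τY e) {B : Set X} (hB : IsOpen[τX] B) : IsOpen[τY] (e '' B) := by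
  let := τX
  let := τY
  have h1 : IsOpenEmbedding e := ⟨⟨⟨h.2.1⟩, h.1⟩, h.2.2.2⟩
  exact h1.isOpenMap B hB

private lemma prodClosed_PI {X : Type} (τ : TopologicalSpace X) {B C : Set X}
    (hB : IsClosed[τ] B) (hC : IsClosed[τ] C) :
    IsClosed[@instTopologicalSpaceProd X X τ τ] (B ×ˢ C) := by
  let := τ
  exact IsClosed.prod hB hC

private lemma prodOpen_PI {X : Type} (τ : TopologicalSpace X) {B C : Set X}
    (hB : IsOpen[τ] B) (hC : IsOpen[τ] C) :
    IsOpen[@instTopologicalSpaceProd X X τ τ] (B ×ˢ C) := by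
  let := τ
  exact IsOpen.prod hB hC

private lemma unionClosed_PI {X : Type} (τ : TopologicalSpace X) {B C : Set X}
    (hB : IsClosed[τ] B) (hC : IsClosed[τ] C) : IsClosed[τ] (B ∪ C) := by
  let := τ
  exact IsClosed.union hB hC

private lemma unionOpen_PI {X : Type} (τ : TopologicalSpace X) {B C : Set X}
    (hB : IsOpen[τ] B) (hC : IsOpen[τ] C) : IsOpen[τ] (B ∪ C) := by
  let := τ
  exact IsOpen.union hB hC

private lemma cl_PI (hSG : StSG) (hSU : StSU) {A S : Type} [Finite A] [Finite S] {n : ℕ}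
    {g : Tre A → S} {Ga : A → S × S → S} (hyp : Hyp n g Ga) {h : ℕ} {B : Set (Tre A)}
    (hB : Pc n g h B) : ∃ i, IsClosed[stg n g i h] B := by
  obtain ⟨-, -, -, hstg, -⟩ := hSU A S n g
  obtain ⟨hst, hname⟩ := hSG A S n g Ga hyp
  have up : ∀ (i j : Ordinal.{0}) (C : Set (Tre A)), i ≤ j → IsClosed[stg n g i h] C →
      IsClosed[stg n g j h] C := by
    intro i j C hij hC
    have h1 := (@isOpen_compl_iff _ C (stg n g i h)).mpr hC
    exact (@isOpen_compl_iff _ C (stg n g j h)).mp (hstg i j h hij _ h1)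
  induction hB with
  | nm N i hN => exact ⟨i, (hname N h i hN).1⟩
  | mk a C₀ C₁ _ _ ih₀ ih₁ =>
    obtain ⟨i₀, h₀⟩ := ih₀
    obtain ⟨i₁, h₁⟩ := ih₁
    refine ⟨max i₀ i₁, closed_PI ((hst (max i₀ i₁)).2.2 a h) (prodClosed_PI _ ?_ ?_)⟩
    · exact up _ _ _ (le_max_left _ _) h₀
    · exact up _ _ _ (le_max_right _ _) h₁
  | union C₀ C₁ _ _ ih₀ ih₁ =>
    obtain ⟨i₀, h₀⟩ := ih₀
    obtain ⟨i₁, h₁⟩ := ih₁
    refine ⟨max i₀ i₁, unionClosed_PI _ ?_ ?_⟩
    · exact up _ _ _ (le_max_left _ _) h₀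
    · exact up _ _ _ (le_max_right _ _) h₁
  | empty => exact ⟨0, @isClosed_empty _ (stg n g 0 h)⟩

private lemma op_PI (hSG : StSG) (hSU : StSU) {A S : Type} [Finite A] [Finite S] {n : ℕ}
    {g : Tre A → S} {Ga : A → S × S → S} (hyp : Hyp n g Ga) {h : ℕ} {B : Set (Tre A)}
    (hB : Pc n g (h + 1) B) : ∃ i, IsOpen[stg n g i h] B := by
  obtain ⟨-, -, -, hstg, -, -, -, hop, -⟩ := hSU A S n g
  obtain ⟨hst, -⟩ := hSG A S n g Ga hyp
  have up : ∀ (i j : Ordinal.{0}) (C : Set (Tre A)), i ≤ j → IsOpen[stg n g i h] C →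
      IsOpen[stg n g j h] C := fun i j C hij hC => hstg i j h hij _ hC
  induction hB with
  | nm N i hN => exact ⟨i, hop N i h hN⟩
  | mk a C₀ C₁ _ _ ih₀ ih₁ =>
    obtain ⟨i₀, h₀⟩ := ih₀
    obtain ⟨i₁, h₁⟩ := ih₁
    refine ⟨max i₀ i₁, open_PI ((hst (max i₀ i₁)).2.2 a h) (prodOpen_PI _ ?_ ?_)⟩
    · exact up _ _ _ (le_max_left _ _) h₀
    · exact up _ _ _ (le_max_right _ _) h₁
  | union C₀ C₁ _ _ ih₀ ih₁ =>
    obtain ⟨i₀, h₀⟩ := ih₀
    obtain ⟨i₁, h₁⟩ := ih₁
    refine ⟨max i₀ i₁, unionOpen_PI _ ?_ ?_⟩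
    · exact up _ _ _ (le_max_left _ _) h₀
    · exact up _ _ _ (le_max_right _ _) h₁
  | empty => exact ⟨0, @isOpen_empty _ (stg n g 0 h)⟩

private lemma cyl_PI {A S : Type} [Finite A] {n : ℕ} {g : Tre A → S} {h : ℕ} (u : List Bool)
    (a : A) : Pc n g h {t : Tre A | t u = a} := by
  have h1 : Pc n g h {t : Tre A | t [] = a} := by
    have h2 : {t : Tre A | t [] = a} = Tre.mk a '' (univ ×ˢ univ) := by
      ext t
      constructor
      · intro ht
        refine ⟨(t.sub [false], t.sub [true]), ⟨mem_univ _, mem_univ _⟩, ?_⟩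
        have h3 := mk_eta_PI t
        replace ht : t [] = a := ht
        rwa [ht] at h3
      · rintro ⟨p, -, rfl⟩
        rfl
    rw [h2]
    exact Pc.mk a _ _ (univ_PI n g h) (univ_PI n g h)
  have h4 := sub_PI u h1
  have h5 : {t : Tre A | t.sub u ∈ {t : Tre A | t [] = a}} = {t : Tre A | t u = a} := by
    ext t
    change t (u ++ []) = a ↔ t u = a
    rw [List.append_nil]
  rwa [h5] at h4

/-- **PI (4.7)** closure properties of the pieces -/
theorem hPI (hSG : StSG) (hSU : StSU) (hCN : StCN) : StPI := by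
  intro A S _ _ n g Ga hyp h
  refine ⟨fun B B' hB hB' => inter_PI hSG hSU hyp hB B' hB', fun B hB => anti_PI hSU hB,
    countable_PI hCN hyp h, fun B hB u => sub_PI u hB, fun B hB => cl_PI hSG hSU hyp hB,
    fun B hB => op_PI hSG hSU hyp hB, fun u a => cyl_PI u a⟩

end Pool.Agent.Helper24.WH

end

section

/-!
# PROJECT WH, module RB: the rank operators are derivations
-/

set_option autoImplicit false

namespace Pool.Agent.Helper24.WH

open Set TopologicalSpace Topology
open Ordinal hiding univ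

private theorem comp_RB {X : Type} {τ : TopologicalSpace X} {d e : Set X → Set X} (hd : IsDer τ d)
    (he : IsDer τ e) : IsDer τ (fun B => d (e B)) where
  mono A B h := hd.mono _ _ (he.mono _ _ h)
  le B := (hd.le _).trans (he.le B)
  loc O B hO := by
    show d (e (B ∩ O)) = d (e B) ∩ O
    rw [he.loc O B hO, hd.loc O _ hO]
  closed B hB := hd.closed _ (he.closed B hB)

private theorem id_RB {X : Type} (τ : TopologicalSpace X) : IsDer τ (fun B => B) where
  mono _ _ h := h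
  le _ := subset_rfl
  loc _ _ _ := rfl
  closed _ hB := hB

private theorem hom_RB {X : Type} {τ τ' : TopologicalSpace X} (hτ : τ ≤ τ') {z : Set X → Set X}
    (hz : IsDer τ z) : IsDer τ' (HomOp τ' z) := by
  obtain ⟨h1, h2, -, -, h5, -, h7, -⟩ := hHO X τ' z hz.mono
  refine ⟨h2, h1, h7 fun O B hO => hz.loc O B ?_, h5⟩
  exact ⟨IsClosed.mono hO.1 hτ, hτ O hO.2⟩

private theorem delOf_RB {X : Type} (τ : TopologicalSpace X) (m : ℕ) (z : Cd m → Bool → Set X → Set X)
    (hz : ∀ c s, IsDer τ (HomOp τ (z c s))) (c : Cd m) : IsDer τ (delOf τ m z c) where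
  mono A B h := by
    unfold delOf
    refine inter_subset_inter h ?_
    exact iInter_mono fun c' => iInter_mono fun _ => iInter_mono fun s => (hz c' s).mono _ _ h
  le B := inter_subset_left
  loc O B hO := by
    unfold delOf
    ext x
    simp only [mem_inter_iff, mem_iInter, (hz _ _).loc O B hO]
    constructor
    · rintro ⟨⟨h1, h2⟩, h3⟩
      exact ⟨⟨h1, fun c' hc' s => (h3 c' hc' s).1⟩, h2⟩
    · rintro ⟨⟨h1, h3⟩, h2⟩
      exact ⟨⟨h1, h2⟩, fun c' hc' s => ⟨h3 c' hc' s, h2⟩⟩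
  closed B hB := by
    unfold delOf
    refine @IsClosed.inter X _ _ τ hB ?_
    refine @isClosed_iInter X _ τ _ fun c' => @isClosed_iInter X _ τ _ fun _ => @isClosed_iInter X _ τ _ fun s =>
      (hz c' s).closed B hB

private theorem foldV_RB {X : Type} (τ : TopologicalSpace X) (m : ℕ) (z : Cd m → Bool → Set X → Set X)
    (hz : ∀ c s, IsDer τ (HomOp τ (z c s))) (l : List (Cd m ×ₗ ℕ)) : IsDer τ (foldV τ m z l) := by
  have key : ∀ (l : List (Cd m ×ₗ ℕ)) (e : Set X → Set X), IsDer τ e →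
      IsDer τ (fun B => foldV τ m z l (e B)) := by
    intro l
    induction l with
    | nil => intro e he; exact he
    | cons a l ih =>
      intro e he
      have h1 : IsDer τ (fun B => iter (delOf τ m z (ofLex a).1) (e B) (ω ^ ((ofLex a).2 : Ordinal.{0}))) :=
        comp_RB (hIL X τ _ (delOf_RB τ m z hz (ofLex a).1) (ω ^ ((ofLex a).2 : Ordinal.{0}))) he
      exact ih _ h1
  exact key l _ (id_RB τ)

theorem hRB : StRB := by
  intro X τ f hT hf
  have hA : ∀ m, (∀ c, IsDer (τ m) (Vo τ f m c)) ∧ (∀ c s, IsDer (τ m) (Zo τ f m c s)) := by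
    intro m
    induction m with
    | zero =>
      constructor
      · intro c
        cases hc : Cd.B c
        · have h1 : Vo τ f 0 c = fun B => B := by
            funext B
            show {x ∈ B | Cd.B c = false} = B
            simp [hc]
          rw [h1]
          exact id_RB _
        · have h1 : Vo τ f 0 c = fun _ => ∅ := by
            funext B
            show {x ∈ B | Cd.B c = false} = ∅
            simp [hc]
          rw [h1]
          exact ⟨fun _ _ _ => subset_rfl, fun _ => empty_subset _, fun O B _ => by simp,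
            fun _ _ => @isClosed_empty X (τ 0)⟩
      · intro c s
        have h1 : Zo τ f 0 c s = fun B => B ∩ f ⁻¹' {s} := rfl
        rw [h1]
        refine ⟨fun A B h => inter_subset_inter_left _ h, fun B => inter_subset_left, fun O B _ => ?_,
          fun B hB => @IsClosed.inter X _ _ (τ 0) hB (hf s).1⟩
        exact inter_right_comm B O _
    | succ m ih =>
      have hz : ∀ c s, IsDer (τ (m + 1)) (HomOp (τ (m + 1)) (Zo τ f m c s)) := fun c s =>
        hom_RB (hT.mono m) (ih.2 c s)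
      constructor
      · intro l
        exact foldV_RB (τ (m + 1)) m (Zo τ f m) hz _
      · intro l s
        exact comp_RB (e := foldV (τ (m + 1)) m (Zo τ f m) (l.L.dropLast)) (hz (lastc l.L) s)
          (foldV_RB (τ (m + 1)) m (Zo τ f m) hz _)
  intro m
  have hz : ∀ c s, IsDer (τ (m + 1)) (HomOp (τ (m + 1)) (Zo τ f m c s)) := fun c s =>
    hom_RB (hT.mono m) ((hA m).2 c s)
  exact ⟨(hA m).1, (hA m).2, fun c => delOf_RB (τ (m + 1)) m (Zo τ f m) hz c, hz⟩

end Pool.Agent.Helper24.WH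

end

section

/-!
# Project WH, module SB
-/

set_option autoImplicit false

namespace Pool.Agent.Helper24.WH

open Set TopologicalSpace Topology
open Ordinal hiding univ

private theorem isClosed_mono_SB {X : Type} {τ τ' : TopologicalSpace X} (h : τ ≤ τ') {F : Set X}
    (hF : IsClosed[τ'] F) : IsClosed[τ] F :=
  @IsClosed.mk X τ F (h _ (@IsClosed.isOpen_compl X τ' F hF))

private theorem isOpen_mono_SB {X : Type} {τ τ' : TopologicalSpace X} (h : τ ≤ τ') {F : Set X}
    (hF : IsOpen[τ'] F) : IsOpen[τ] F :=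
  h _ hF

theorem hSB (hNT : StNT) (hSU : StSU) : StSB := by
  intro A S _ _ n g Ga hyp i hN
  obtain ⟨-, -, -, nzd, -, nce, -, -, -, -⟩ := hNT A
  obtain ⟨sun, -, -, -, sM, sb, -, so, -⟩ := hSU A S n g
  have hcl : ∀ M, ∀ F ∈ {F | ∃ N : Nm S, GN n g N (M + 1) i ∧ F = vl n g N},
      IsClosed[stg n g i M] F := by
    rintro M F ⟨N, hg, rfl⟩
    exact isClosed_mono_SB (sM i M) (hN N (M + 1) hg).1
  refine ⟨⟨fun M => sM i M, fun M => ?_⟩, fun s => ?_, fun a M => ?_⟩
  · rw [sun i M]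
    refine nzd _ ?_
    rw [← sun i M]
    exact hcl M
  · have h := hyp.cont s
    have h2 := sb i 0 (Nat.zero_le n)
    rw [Nat.sub_zero] at h2
    exact ⟨isClosed_mono_SB h2 h.1, isOpen_mono_SB h2 h.2⟩
  · have key := nce {F | ∃ N : Nm S, GN n g N (M + 1) i ∧ F = vl n g N} (by
      rintro F ⟨N, hg, rfl⟩ b
      obtain ⟨k, N₀, N₁, hk, he⟩ := (hN N (M + 1) hg).2 b
      refine ⟨k, fun q => vl n g (N₀ q), fun q => vl n g (N₁ q), fun q => ?_, fun q => ?_, he⟩
      · rw [← sun i M]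
        exact so _ _ _ (hk q).1
      · rw [← sun i M]
        exact so _ _ _ (hk q).2) a
    rw [← sun i M] at key
    exact key

end Pool.Agent.Helper24.WH

end
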