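import Pool.Agent.Helper24.WH.St1
import Pool.Agent.Helper24.WH.St3
import Pool.Agent.Helper24.WH.St4
import Pool.Agent.Helper24.WH.St5
import Pool.Agent.Helper24.WH.St6
import Pool.Agent.Helper24.WH.St7
import Pool.Agent.Helper76.WHC.B0

set_option autoImplicit false

section

/-!
# PROJECT WH, module BP: product of a better quasi order with a finite set
-/

set_option autoImplicit false

namespace Pool.Agent.Helper24.WH

open Set TopologicalSpace Ordinal Topology

private theorem comp_cont_BP (Y : Inc) : Continuous (fun Z : Inc => Y.comp Z) := by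
  refine Continuous.subtype_mk (f := fun Z : Inc => Y.1 ∘ Z.1) ?_ _
  refine continuous_pi fun n => ?_
  exact (continuous_of_discreteTopology (f := Y.1)).comp
    ((continuous_apply n).comp (continuous_subtype_val (p := fun X : ℕ → ℕ => StrictMono X)))

private theorem sh_comp_BP (Y Z : Inc) : (Y.comp Z).sh = Y.comp Z.sh := rfl

theorem hBP (h : StGP) : StBP := by
  intro Q r k hr c hcr hcm
  have h2 : ∀ s : Fin k, MeasurableSet ((fun X => (c X).2) ⁻¹' {s}) := by
    intro s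
    have he : (fun X => (c X).2) ⁻¹' {s} =
        ⋃ q ∈ (Prod.fst '' range c), c ⁻¹' {(q, s)} := by
      ext X
      simp only [mem_preimage, mem_singleton_iff, mem_iUnion, exists_prop]
      constructor
      · intro hX
        exact ⟨(c X).1, ⟨c X, ⟨X, rfl⟩, rfl⟩, Prod.ext rfl hX⟩
      · rintro ⟨q, _, hq⟩
        rw [hq]
    rw [he]
    exact MeasurableSet.biUnion (hcr.image _) fun q _ => hcm (q, s)
  obtain ⟨Y, s, hY⟩ := h k (fun X => (c X).2) h2
  have hmeas : Measurable (fun Z : Inc => Y.comp Z) := (comp_cont_BP Y).measurable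
  obtain ⟨X, hX⟩ := hr (fun Z => (c (Y.comp Z)).1) (by
      refine (hcr.image Prod.fst).mono ?_
      rintro _ ⟨Z, rfl⟩
      exact ⟨c (Y.comp Z), ⟨Y.comp Z, rfl⟩, rfl⟩) (by
      intro q
      have he : (fun Z => (c (Y.comp Z)).1) ⁻¹' {q} =
          (fun Z : Inc => Y.comp Z) ⁻¹' (c ⁻¹' {(q, s)}) := by
        ext Z
        simp only [mem_preimage, mem_singleton_iff]
        constructor
        · intro hZ
          exact Prod.ext hZ (hY Z)
        · intro hZ
          rw [hZ]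
      rw [he]
      exact hmeas (hcm (q, s)))
  refine ⟨Y.comp X, ?_, ?_⟩
  · rw [sh_comp_BP]
    exact hX
  · rw [sh_comp_BP]
    exact (hY X).trans (hY X.sh).symm

end Pool.Agent.Helper24.WH

end

section

set_option autoImplicit false

namespace Pool.Agent.Helper24.WH

open Set

private theorem ec_mono_F1 {α : Type} {X Y : Set α} {v w : ℕ → Set α} (hX : X ⊆ Y)
    (h : ∀ n, v n ⊆ w n) : ∀ n, ec X v n ⊆ ec Y w n := by
  intro n
  cases n with
  | zero => exact hX
  | succ n => exact h n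

private theorem ec_eq_F1 {P : Type} (t : Tre (Set P)) (V : ℕ → Set (Tre (Set P)))
    (Y : Set (Tre (Set P))) :
    ec {w : List Bool | t.sub w ∈ Y} (fun n => {w | t.sub w ∈ V n})
      = fun n => {w | t.sub w ∈ ec Y V n} := by
  funext n
  cases n <;> rfl

private theorem sem_mono_F1 {P : Type} (t : Tre (Set P)) (φ : Fm P) :
    ∀ v w : ℕ → Set (List Bool), (∀ n, v n ⊆ w n) → φ.sem t v ⊆ φ.sem t w := by
  induction φ with
  | prop p => intro v w _; exact subset_rfl
  | nprop p => intro v w _; exact subset_rfl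
  | top => intro v w _; exact subset_rfl
  | bot => intro v w _; exact subset_rfl
  | var n => intro v w h; exact h n
  | and φ ψ h1 h2 => intro v w h; exact inter_subset_inter (h1 v w h) (h2 v w h)
  | or φ ψ h1 h2 => intro v w h; exact union_subset_union (h1 v w h) (h2 v w h)
  | dia φ h1 => intro v w h u hu; obtain ⟨b, hb⟩ := hu; exact ⟨b, h1 v w h hb⟩
  | box φ h1 => intro v w h u hu b; exact h1 v w h (hu b)
  | mu φ h1 =>
    intro v w h u hu X hX
    exact hu X (subset_trans (h1 _ _ (ec_mono_F1 subset_rfl h)) hX)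
  | nu φ h1 =>
    intro v w h u hu
    obtain ⟨X, hX, huX⟩ := hu
    exact ⟨X, subset_trans hX (h1 _ _ (ec_mono_F1 subset_rfl h)), huX⟩

private theorem sub_sub_F1 {P : Type} (t : Tre (Set P)) (u w : List Bool) :
    (t.sub u).sub w = t.sub (u ++ w) := by
  funext x
  simp [Tre.sub, List.append_assoc]

/-- **F1** -/
theorem hF1 : StF1 := by
  intro P φ t
  induction φ with
  | prop p => intro V u; simp [Fm.sem, Fm.SEM, Tre.sub]
  | nprop p => intro V u; simp [Fm.sem, Fm.SEM, Tre.sub]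
  | top => intro V u; simp [Fm.sem, Fm.SEM]
  | bot => intro V u; simp [Fm.sem, Fm.SEM]
  | var n => intro V u; rfl
  | and φ ψ h1 h2 => intro V u; exact and_congr (h1 V u) (h2 V u)
  | or φ ψ h1 h2 => intro V u; exact or_congr (h1 V u) (h2 V u)
  | dia φ h1 =>
    intro V u
    show (∃ b : Bool, u ++ [b] ∈ φ.sem t _) ↔ (∃ b : Bool, (t.sub u).sub [b] ∈ φ.SEM V)
    refine exists_congr fun b => ?_
    rw [sub_sub_F1]
    exact h1 V _
  | box φ h1 =>
    intro V u
    show (∀ b : Bool, u ++ [b] ∈ φ.sem t _) ↔ (∀ b : Bool, (t.sub u).sub [b] ∈ φ.SEM V)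
    refine forall_congr' fun b => ?_
    rw [sub_sub_F1]
    exact h1 V _
  | mu φ h1 =>
    intro V u
    constructor
    · intro hu Y hY
      refine hu {w | t.sub w ∈ Y} ?_
      intro w hw
      rw [ec_eq_F1] at hw
      exact hY ((h1 _ _).mp hw)
    · intro hu X hX
      have h2 : t.sub u ∈ {s : Tre (Set P) | ∀ w, t.sub w = s → w ∈ X} := by
        refine hu _ ?_
        intro s hs w hw
        rw [← hw] at hs
        have h3 := (h1 _ _).mpr hs
        rw [← ec_eq_F1] at h3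
        refine hX (sem_mono_F1 t φ _ _ (ec_mono_F1 ?_ fun n => subset_rfl) h3)
        intro w' hw'
        exact hw' w' rfl
      exact h2 u rfl
  | nu φ h1 =>
    intro V u
    constructor
    · rintro ⟨X, hX, hu⟩
      refine ⟨{s : Tre (Set P) | ∃ w ∈ X, t.sub w = s}, ?_, ⟨u, hu, rfl⟩⟩
      rintro s ⟨w, hw, rfl⟩
      refine (h1 _ _).mp ?_
      rw [← ec_eq_F1]
      refine sem_mono_F1 t φ _ _ (ec_mono_F1 ?_ fun n => subset_rfl) (hX hw)
      intro w' hw'
      exact ⟨w', hw', rfl⟩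
    · rintro ⟨Y, hY, hu⟩
      refine ⟨{w | t.sub w ∈ Y}, ?_, hu⟩
      intro w hw
      show w ∈ φ.sem t _
      rw [ec_eq_F1]
      exact (h1 _ _).mpr (hY hw)

end Pool.Agent.Helper24.WH

end

section

/-!
# Project WH, module F3
-/

set_option autoImplicit false

namespace Pool.Agent.Helper24.WH

open Set TopologicalSpace Topology
open Ordinal hiding univ

/-- the list of the values of the subformulas depends only on the free variables -/
theorem subs_congr_F3 (h2 : StF2) {P : Type} (φ : Fm P) :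
    ∀ V R : ℕ → Set (Tre (Set P)), (∀ i, φ.free i → V i = R i) → φ.subs V = φ.subs R := by
  induction φ with
  | prop p => intro V R _; rfl
  | nprop p => intro V R _; rfl
  | top => intro V R _; rfl
  | bot => intro V R _; rfl
  | var n =>
    intro V R h
    show [V n] = [R n]
    rw [h n rfl]
  | and φ ψ ih1 ih2 =>
    intro V R h
    show (Fm.and φ ψ).SEM V :: (φ.subs V ++ ψ.subs V) = (Fm.and φ ψ).SEM R :: (φ.subs R ++ ψ.subs R)
    rw [(h2 P (Fm.and φ ψ)).2.1 V R h, ih1 V R (fun i hi => h i (Or.inl hi)),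
      ih2 V R (fun i hi => h i (Or.inr hi))]
  | or φ ψ ih1 ih2 =>
    intro V R h
    show (Fm.or φ ψ).SEM V :: (φ.subs V ++ ψ.subs V) = (Fm.or φ ψ).SEM R :: (φ.subs R ++ ψ.subs R)
    rw [(h2 P (Fm.or φ ψ)).2.1 V R h, ih1 V R (fun i hi => h i (Or.inl hi)),
      ih2 V R (fun i hi => h i (Or.inr hi))]
  | dia φ ih =>
    intro V R h
    show (Fm.dia φ).SEM V :: φ.subs V = (Fm.dia φ).SEM R :: φ.subs R
    rw [(h2 P (Fm.dia φ)).2.1 V R h, ih V R h]
  | box φ ih =>
    intro V R h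
    show (Fm.box φ).SEM V :: φ.subs V = (Fm.box φ).SEM R :: φ.subs R
    rw [(h2 P (Fm.box φ)).2.1 V R h, ih V R h]
  | mu φ ih =>
    intro V R h
    show (Fm.mu φ).SEM V :: φ.subs (ec ((Fm.mu φ).SEM V) V) =
      (Fm.mu φ).SEM R :: φ.subs (ec ((Fm.mu φ).SEM R) R)
    rw [(h2 P (Fm.mu φ)).2.1 V R h, ih (ec ((Fm.mu φ).SEM R) V) (ec ((Fm.mu φ).SEM R) R)]
    intro i hi
    cases i with
    | zero => rfl
    | succ i => exact h i hi
  | nu φ ih =>
    intro V R h
    show (Fm.nu φ).SEM V :: φ.subs (ec ((Fm.nu φ).SEM V) V) =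
      (Fm.nu φ).SEM R :: φ.subs (ec ((Fm.nu φ).SEM R) R)
    rw [(h2 P (Fm.nu φ)).2.1 V R h, ih (ec ((Fm.nu φ).SEM R) V) (ec ((Fm.nu φ).SEM R) R)]
    intro i hi
    cases i with
    | zero => rfl
    | succ i => exact h i hi

private theorem head_F3 (h2 : StF2) {P : Type} (φ : Fm P) (E : ℕ → Set (Tre (Set P))) (a : Set P)
    (p p' : Tre (Set P) × Tre (Set P))
    (h1 : ∀ i, φ.free i → (Tre.mk a p ∈ E i ↔ Tre.mk a p' ∈ E i))
    (hs : ∀ F ∈ φ.subs E, (p.1 ∈ F ↔ p'.1 ∈ F) ∧ (p.2 ∈ F ↔ p'.2 ∈ F)) :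
    Tre.mk a p ∈ φ.SEM E ↔ Tre.mk a p' ∈ φ.SEM E := by
  classical
  obtain ⟨E', hE'⟩ : ∃ E' : ℕ → Set (Tre (Set P)), E' = fun i => if φ.free i then E i else ∅ :=
    ⟨_, rfl⟩
  have hE : ∀ i, φ.free i → E' i = E i := by
    intro i hi
    rw [hE']
    exact if_pos hi
  have e1 : φ.SEM E' = φ.SEM E := (h2 P φ).2.1 E' E hE
  have e2 : φ.subs E' = φ.subs E := subs_congr_F3 h2 φ E' E hE
  have h1' : ∀ i, (Tre.mk a p ∈ E' i ↔ Tre.mk a p' ∈ E' i) := by
    intro i
    by_cases hi : φ.free i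
    · rw [hE i hi]
      exact h1 i hi
    · have h0 : E' i = ∅ := by
        rw [hE']
        exact if_neg hi
      rw [h0]
      exact Iff.rfl
  rw [← e2] at hs
  rw [← e1]
  constructor
  · exact (h2 P φ).2.2 E' E' E' a p p' (fun _ => Subset.rfl) (fun _ => Subset.rfl) hs
      (fun i => (h1' i).1)
  · exact (h2 P φ).2.2 E' E' E' a p' p (fun _ => Subset.rfl) (fun _ => Subset.rfl)
      (fun F hF => ⟨(hs F hF).1.symm, (hs F hF).2.symm⟩) (fun i => (h1' i).2)

theorem hF3 (h2 : StF2) : StF3 := by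
  intro P φ
  induction φ with
  | prop p =>
    intro E a p p' h1 hs F hF
    obtain rfl : F = _ := List.mem_singleton.1 hF
    exact head_F3 h2 _ E a p p' h1 hs
  | nprop p =>
    intro E a p p' h1 hs F hF
    obtain rfl : F = _ := List.mem_singleton.1 hF
    exact head_F3 h2 _ E a p p' h1 hs
  | top =>
    intro E a p p' h1 hs F hF
    obtain rfl : F = _ := List.mem_singleton.1 hF
    exact head_F3 h2 _ E a p p' h1 hs
  | bot =>
    intro E a p p' h1 hs F hF
    obtain rfl : F = _ := List.mem_singleton.1 hF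
    exact head_F3 h2 _ E a p p' h1 hs
  | var n =>
    intro E a p p' h1 hs F hF
    obtain rfl : F = _ := List.mem_singleton.1 hF
    exact h1 n rfl
  | and φ ψ ih1 ih2 =>
    intro E a p p' h1 hs F hF
    have hh := head_F3 h2 _ E a p p' h1 hs
    rcases List.mem_cons.1 hF with rfl | hF
    · exact hh
    · rcases List.mem_append.1 hF with hF | hF
      · exact ih1 E a p p' (fun i hi => h1 i (Or.inl hi))
          (fun G hG => hs G (List.mem_cons_of_mem _ (List.mem_append_left _ hG))) F hF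
      · exact ih2 E a p p' (fun i hi => h1 i (Or.inr hi))
          (fun G hG => hs G (List.mem_cons_of_mem _ (List.mem_append_right _ hG))) F hF
  | or φ ψ ih1 ih2 =>
    intro E a p p' h1 hs F hF
    have hh := head_F3 h2 _ E a p p' h1 hs
    rcases List.mem_cons.1 hF with rfl | hF
    · exact hh
    · rcases List.mem_append.1 hF with hF | hF
      · exact ih1 E a p p' (fun i hi => h1 i (Or.inl hi))
          (fun G hG => hs G (List.mem_cons_of_mem _ (List.mem_append_left _ hG))) F hF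
      · exact ih2 E a p p' (fun i hi => h1 i (Or.inr hi))
          (fun G hG => hs G (List.mem_cons_of_mem _ (List.mem_append_right _ hG))) F hF
  | dia φ ih =>
    intro E a p p' h1 hs F hF
    have hh := head_F3 h2 _ E a p p' h1 hs
    rcases List.mem_cons.1 hF with rfl | hF
    · exact hh
    · exact ih E a p p' h1 (fun G hG => hs G (List.mem_cons_of_mem _ hG)) F hF
  | box φ ih =>
    intro E a p p' h1 hs F hF
    have hh := head_F3 h2 _ E a p p' h1 hs
    rcases List.mem_cons.1 hF with rfl | hF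
    · exact hh
    · exact ih E a p p' h1 (fun G hG => hs G (List.mem_cons_of_mem _ hG)) F hF
  | mu φ ih =>
    intro E a p p' h1 hs F hF
    have hh := head_F3 h2 _ E a p p' h1 hs
    rcases List.mem_cons.1 hF with rfl | hF
    · exact hh
    · refine ih (ec ((Fm.mu φ).SEM E) E) a p p' ?_
        (fun G hG => hs G (List.mem_cons_of_mem _ hG)) F hF
      intro i hi
      cases i with
      | zero => exact hh
      | succ i => exact h1 i hi
  | nu φ ih =>
    intro E a p p' h1 hs F hF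
    have hh := head_F3 h2 _ E a p p' h1 hs
    rcases List.mem_cons.1 hF with rfl | hF
    · exact hh
    · refine ih (ec ((Fm.nu φ).SEM E) E) a p p' ?_
        (fun G hG => hs G (List.mem_cons_of_mem _ hG)) F hF
      intro i hi
      cases i with
      | zero => exact hh
      | succ i => exact h1 i hi

end Pool.Agent.Helper24.WH

end

section

/-!
# PROJECT WH (MP_76577a_lc), module FT3: the gap argument
-/

set_option autoImplicit false

namespace Pool.Agent.Helper24.WH

open Set TopologicalSpace Topology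
open Ordinal hiding univ

/-- the situation of the gap argument -/
private structure Sit {X : Type} (τ : TopologicalSpace X) (d : Set X → Set X) (P : Set (Set X))
    (Q : Set (Set X)) : Prop where
  der : IsDer τ d
  cl : ∀ B ∈ P, IsClosed[τ] B
  clp : ∀ O ∈ Q, Clp τ O
  basis : ∀ (x : X) (U : Set X), IsOpen[τ] U → x ∈ U → ∃ O ∈ Q, x ∈ O ∧ O ⊆ U
  inter : ∀ B ∈ P, ∀ O ∈ Q, B ∩ O ∈ P

private theorem iter_loc_FT3 {X : Type} {τ : TopologicalSpace X} {d : Set X → Set X}
    {P Q : Set (Set X)} (h : Sit τ d P Q) {B O : Set X} (hO : O ∈ Q) (α : Ordinal.{0}) :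
    iter d (B ∩ O) α = iter d B α ∩ O :=
  (hIL X τ d h.der α).loc O B (h.clp O hO)

private theorem gap_FT3 {X : Type} {τ : TopologicalSpace X} {d : Set X → Set X}
    {P Q : Set (Set X)} (h : Sit τ d P Q) {Y : Set X} (hY : Y ∈ P) {v w : Ordinal.{0}}
    (hv : ex d Y = v) (hw : w < v)
    (hE : ∀ O ∈ Q, ex d (Y ∩ O) < (v : WithTop Ordinal.{0}) → ex d (Y ∩ O) ≤ (w : WithTop Ordinal.{0})) :
    v ≤ w + 1 := by
  obtain ⟨h0, h1, h2, h3, -, h5, -, -, h8, -⟩ := hIT X d h.der.mono h.der.le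
  have hmon : ∀ O, ex d (Y ∩ O) ≤ (v : WithTop Ordinal.{0}) := fun O => by
    rw [← hv]; exact ex_mono_EX fun α => h3 _ _ α inter_subset_left
  set C : Set X := {y | y ∈ Y ∧ ∀ O ∈ Q, y ∈ O → ex d (Y ∩ O) = v} with hC
  have hsub : iter d Y (ω ^ w) ⊆ C := by
    intro y hy
    refine ⟨h5 Y _ hy, fun O hO hyO => ?_⟩
    by_contra hne
    have h6 : ex d (Y ∩ O) ≤ (w : WithTop Ordinal.{0}) := hE O hO (lt_of_le_of_ne (hmon O) hne)
    have h7 := iter_of_ex_EX h6
    rw [iter_loc_FT3 h hO] at h7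
    have : y ∈ iter d Y (ω ^ w) ∩ O := ⟨hy, hyO⟩
    rw [h7] at this
    exact this
  have hne : (iter d Y (ω ^ w)).Nonempty := by
    rw [nonempty_iff_ne_empty]
    intro h6
    have := ex_le_of_EX h6
    rw [hv, WithTop.coe_le_coe] at this
    exact absurd hw (not_lt.2 this)
  have hCY : C ⊆ Y := fun y hy => hy.1
  have hCcl : IsClosed[τ] C := by
    have : C = Y ∩ ⋂ O ∈ {O | O ∈ Q ∧ ex d (Y ∩ O) ≠ v}, Oᶜ := by
      ext y
      simp only [hC, mem_setOf_eq, mem_inter_iff, mem_iInter, mem_compl_iff]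
      constructor
      · rintro ⟨a, b⟩
        exact ⟨a, fun O hO hy => hO.2 (b O hO.1 hy)⟩
      · rintro ⟨a, b⟩
        exact ⟨a, fun O hO hy => by by_contra hh; exact b O ⟨hO, hh⟩ hy⟩
    rw [this]
    letI := τ
    refine (h.cl Y hY).inter (isClosed_biInter fun O hO => ?_)
    exact (h.clp O hO.1).2.isClosed_compl
  have hnot : ¬ C ⊆ d C := by
    intro h6
    have h7 := h8 Y C (ω ^ v) hCY h6
    rw [iter_of_ex_EX (le_of_eq hv)] at h7
    obtain ⟨y, hy⟩ := hne
    exact h7 (hsub hy)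
  obtain ⟨y, hyC, hyd⟩ := not_subset.1 hnot
  have hdC : IsClosed[τ] (d C) := h.der.closed C hCcl
  obtain ⟨O, hO, hyO, hOd⟩ := h.basis y (d C)ᶜ (by letI := τ; exact hdC.isOpen_compl) hyd
  have h6 : iter d (Y ∩ O) (ω ^ w + 1) = ∅ := by
    rw [iter_loc_FT3 h hO, h1, subset_empty_iff.symm]
    rintro z ⟨hz, hzO⟩
    exact hOd hzO (h.der.mono _ _ hsub hz)
  have h7 : iter d (Y ∩ O) (ω ^ (w + 1)) = ∅ := by
    rw [subset_empty_iff.symm, ← h6]
    refine h2 _ _ _ ?_
    have : ω ^ w < ω ^ (w + 1) :=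
      (opow_lt_opow_iff_right one_lt_omega0).2 (Order.lt_add_one_iff.2 le_rfl)
    exact Order.add_one_le_of_lt this
  have h8' := ex_le_of_EX h7
  rw [hyC.2 O hO hyO, WithTop.coe_le_coe] at h8'
  exact h8'

private theorem fix_FT3 {X : Type} {τ : TopologicalSpace X} {d : Set X → Set X}
    {P Q : Set (Set X)} (h : Sit τ d P Q) {N : Ordinal.{0}} {B : Set X} (hB : B ∈ P)
    (hN : ∀ O ∈ Q, ∀ v : Ordinal.{0}, ex d (B ∩ O) = v → v ≤ N) :
    iter d B (ω ^ N) ⊆ d (iter d B (ω ^ N)) := by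
  obtain ⟨h0, h1, h2, h3, -, h5, -, -, h8, -⟩ := hIT X d h.der.mono h.der.le
  -- the kernel
  have key : ∀ y ∈ iter d B (ω ^ N), ∀ α : Ordinal.{0}, y ∈ iter d B α := by
    intro y hy α
    by_contra hcon
    have hcl : IsClosed[τ] (iter d B α) := (hIL X τ d h.der α).closed B (h.cl B hB)
    obtain ⟨O, hO, hyO, hOd⟩ := h.basis y (iter d B α)ᶜ (by letI := τ; exact hcl.isOpen_compl) hcon
    have h6 : iter d (B ∩ O) α = ∅ := by
      rw [iter_loc_FT3 h hO, subset_empty_iff.symm]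
      rintro z ⟨hz, hzO⟩
      exact hOd hzO hz
    have h7 : iter d (B ∩ O) (ω ^ α) = ∅ := by
      rw [subset_empty_iff.symm, ← h6]
      exact h2 _ _ _ (right_le_opow _ one_lt_omega0)
    have h9 := ex_le_of_EX h7
    obtain ⟨v, hv⟩ := WithTop.ne_top_iff_exists.1 (ne_top_of_le_ne_top WithTop.coe_ne_top h9)
    have h10 : v ≤ N := hN O hO v hv.symm
    have h11 : iter d (B ∩ O) (ω ^ N) = ∅ := by
      refine iter_of_ex_EX ?_
      rw [← hv, WithTop.coe_le_coe]
      exact h10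
    rw [iter_loc_FT3 h hO] at h11
    have : y ∈ iter d B (ω ^ N) ∩ O := ⟨hy, hyO⟩
    rw [h11] at this
    exact this
  intro y hy
  have h6 := key y hy (ω ^ N + 1)
  rwa [h1] at h6

theorem hFT3 : StFT3 := by
  intro X S _ n τ g P hs m hm hfin
  set E := {v | ∃ (L : ℕ → TT S m) (B : Set X), B ∈ P (m + 1) ∧ v = ex (dL τ g m L) B} with hE
  have sit : ∀ L : ℕ → TT S m, Sit (τ (m + 1)) (dL τ g m L) (P (m + 1)) (P (m + 1 + 1)) := fun L =>
    { der := (hZM X S τ g hs.tow hs.fib m).2.2 L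
      cl := fun B hB => hs.cl (m + 1) hm B hB
      clp := fun O hO => ⟨hs.cl (m + 1) hm O (hs.anti _ hO), hs.op (m + 1) hm O hO⟩
      basis := fun x U hU hx => hs.basis (m + 1) hm x U hU hx
      inter := fun B hB O hO => hs.inter (m + 1) B hB O (hs.anti _ hO) }
  -- a bound for the finite elements
  obtain ⟨N, hN⟩ : ∃ N : ℕ, ∀ v : Ordinal.{0}, (v : WithTop Ordinal.{0}) ∈ E → v < ω → v ≤ N := by
    have hf : {k : ℕ | (((k : Ordinal.{0}) : WithTop Ordinal.{0})) ∈ E}.Finite := by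
      refine hfin.preimage ?_
      intro a _ b _ hab
      simpa using hab
    obtain ⟨N, hN⟩ := hf.bddAbove
    refine ⟨N, fun v hv hvw => ?_⟩
    obtain ⟨k, rfl⟩ := lt_omega0.1 hvw
    exact_mod_cast hN hv
  have hall : ∀ v : Ordinal.{0}, (v : WithTop Ordinal.{0}) ∈ E → v ≤ N := by
    intro v
    induction v using WellFoundedLT.induction with
    | ind v ih =>
      intro hv
      rcases lt_or_ge v ω with h1 | h1
      · exact hN v hv h1
      · exfalso
        obtain ⟨L, Y, hY, hvY⟩ := hv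
        have hlt : (N : Ordinal.{0}) < v := (nat_lt_omega0 N).trans_le h1
        have h2 : v ≤ (N : Ordinal.{0}) + 1 := by
          refine gap_FT3 (sit L) hY hvY.symm hlt fun O hO hlt2 => ?_
          obtain ⟨u, hu⟩ := WithTop.ne_top_iff_exists.1 (ne_top_of_lt hlt2)
          rw [← hu, WithTop.coe_lt_coe] at hlt2
          rw [← hu, WithTop.coe_le_coe]
          exact ih u hlt2 ⟨L, Y ∩ O, (sit L).inter Y hY O hO, hu⟩
        have h3 : (N : Ordinal.{0}) + 1 < ω := by exact_mod_cast nat_lt_omega0 (N + 1)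
        exact absurd (h1.trans h2) (not_le.2 h3)
  refine ⟨N, fun L B hB => fix_FT3 (sit L) hB fun O hO v hv => hall v ⟨L, B ∩ O, (sit L).inter B hB O hO, hv.symm⟩⟩

end Pool.Agent.Helper24.WH

end

section

/-!
# PROJECT WH (MP_76577a_lc), module HA: additivity of `HomOp` on finite unions of closed sets (3.4)
-/

set_option autoImplicit false

namespace Pool.Agent.Helper24.WH

open Set TopologicalSpace Ordinal Topology

private theorem sub_cl_HA {X : Type} (τ : TopologicalSpace X) (z : Set X → Set X)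
    (hz : ∀ A B, A ⊆ B → z A ⊆ z B) (B : Set X) :
    HomOp τ z B ⊆ closure[τ] (z (HomOp τ z B)) := by
  rintro x ⟨W, ⟨hWB, hW⟩, hx⟩
  have h1 : W ⊆ HomOp τ z B := fun y hy => ⟨W, ⟨hWB, hW⟩, hy⟩
  exact Set.mem_of_subset_of_mem (@closure_mono X τ _ _ (hz _ _ h1)) (hW hx)

private theorem le_HA {X : Type} (τ : TopologicalSpace X) (z : Set X → Set X) (B : Set X) :
    HomOp τ z B ⊆ B := by
  rintro x ⟨W, ⟨hWB, hW⟩, hx⟩
  exact hWB hx

private theorem mono_HA {X : Type} (τ : TopologicalSpace X) (z : Set X → Set X) (A B : Set X)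
    (h : A ⊆ B) : HomOp τ z A ⊆ HomOp τ z B := by
  rintro x ⟨W, ⟨hWB, hW⟩, hx⟩
  exact ⟨W, ⟨hWB.trans h, hW⟩, hx⟩

/-- membership in the closure by clopen neighbourhoods -/
private theorem mem_cl_HA {X : Type} (τ : TopologicalSpace X) (hzd : ZD τ) (A : Set X) (x : X)
    (h : ∀ O, Clp τ O → x ∈ O → (O ∩ A).Nonempty) : x ∈ closure[τ] A := by
  rw [@mem_closure_iff X τ]
  intro U hU hx
  obtain ⟨O, hO, hxO, hOU⟩ := hzd x U hU hx
  obtain ⟨y, hyO, hyA⟩ := h O hO hxO
  exact ⟨y, hOU hyO, hyA⟩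

private theorem two_HA {X : Type} (τ : TopologicalSpace X) (z : Set X → Set X) (hzd : ZD τ)
    (hz : MCL τ z) (B₁ B₂ : Set X) (h₁ : IsClosed[τ] B₁) (h₂ : IsClosed[τ] B₂) :
    HomOp τ z (B₁ ∪ B₂) ⊆ HomOp τ z B₁ ∪ HomOp τ z B₂ := by
  set W := HomOp τ z (B₁ ∪ B₂) with hW
  have hWle : W ⊆ B₁ ∪ B₂ := le_HA τ z _
  have hWcl : W ⊆ closure[τ] (z W) := sub_cl_HA τ z hz.mono _
  -- for clopen `O` meeting ..
  have key : ∀ x ∈ W, ∀ O, Clp τ O → x ∈ O → (O ∩ z (W ∩ O)).Nonempty := by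
    intro x hx O hO hxO
    have hx' := hWcl hx
    rw [@mem_closure_iff X τ] at hx'
    obtain ⟨y, hyO, hyz⟩ := hx' O hO.2 hxO
    refine ⟨y, hyO, ?_⟩
    rw [hz.loc O W hO]
    exact ⟨hyz, hyO⟩
  intro x hx
  by_cases hx1 : x ∈ closure[τ] (W \ B₂)
  · left
    refine ⟨closure[τ] (W \ B₂), ⟨?_, ?_⟩, hx1⟩
    · refine @closure_minimal X τ _ _ ?_ h₁
      rintro y ⟨hyW, hyB⟩
      exact (hWle hyW).resolve_right hyB
    · refine @closure_minimal X τ _ _ ?_ (@isClosed_closure X τ _)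
      rintro y ⟨hyW, hyB⟩
      refine mem_cl_HA τ hzd _ _ fun O hO hyO => ?_
      obtain ⟨O', hO', hyO', hOB⟩ := hzd y B₂ᶜ ((@isOpen_compl_iff X _ τ).2 h₂) hyB
      obtain ⟨w, hw1, hw2⟩ := key y hyW (O ∩ O') (@IsClopen.inter X τ _ _ hO hO') ⟨hyO, hyO'⟩
      refine ⟨w, hw1.1, hz.mono _ _ ?_ hw2⟩
      rintro v ⟨hvW, hvO, hvO'⟩
      exact @subset_closure X τ _ _ ⟨hvW, hOB hvO'⟩
  · right
    refine ⟨{y | y ∈ W ∧ ∃ O, Clp τ O ∧ y ∈ O ∧ O ∩ W ⊆ B₂}, ⟨?_, ?_⟩, ?_⟩
    · rintro y ⟨hyW, O, hO, hyO, hOB⟩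
      exact hOB ⟨hyO, hyW⟩
    · rintro y ⟨hyW, O, hO, hyO, hOB⟩
      refine mem_cl_HA τ hzd _ _ fun O' hO' hyO' => ?_
      obtain ⟨w, hw1, hw2⟩ := key y hyW (O ∩ O') (@IsClopen.inter X τ _ _ hO hO') ⟨hyO, hyO'⟩
      refine ⟨w, hw1.2, hz.mono _ _ ?_ hw2⟩
      rintro v ⟨hvW, hvO, hvO'⟩
      exact ⟨hvW, O, hO, hvO, hOB⟩
    · refine ⟨hx, ?_⟩
      have hop : IsOpen[τ] (closure[τ] (W \ B₂))ᶜ :=
        (@isOpen_compl_iff X _ τ).2 (@isClosed_closure X τ _)
      obtain ⟨O, hO, hxO, hOC⟩ := hzd x _ hop hx1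
      refine ⟨O, hO, hxO, ?_⟩
      rintro y ⟨hyO, hyW⟩
      by_contra hyB
      exact hOC hyO (@subset_closure X τ _ _ ⟨hyW, hyB⟩)

theorem hHA : StHA := by
  classical
  intro X τ z hzd hz ι _ B hB
  have : Fintype ι := Fintype.ofFinite ι
  have key : ∀ s : Finset ι, HomOp τ z (⋃ i ∈ s, B i) ⊆ ⋃ i ∈ s, HomOp τ z (B i) := by
    intro s
    induction s using Finset.induction_on with
    | empty =>
      intro x hx
      have := le_HA τ z _ hx
      simp at this
    | insert a s ha ih =>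
      rw [Finset.set_biUnion_insert, Finset.set_biUnion_insert]
      have hcl : IsClosed[τ] (⋃ i ∈ s, B i) :=
        @isClosed_biUnion_finset X ι τ s B (fun i _ => hB i)
      exact (two_HA τ z hzd hz _ _ (hB a) hcl).trans (union_subset_union_right _ ih)
  refine Subset.antisymm ?_ ?_
  · have := key Finset.univ
    simpa using this
  · exact iUnion_subset fun i => mono_HA τ z _ _ (subset_iUnion B i)

end Pool.Agent.Helper24.WH

end

section

/-!
# Project WH, module HC
-/

set_option autoImplicit false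

namespace Pool.Agent.Helper24.WH

open Set TopologicalSpace Topology
open Ordinal hiding univ

theorem hHC (hRB : StRB) (hHO : StHO) : StHC := by
  intro X n τ P f R m hm r hr hv s B hB
  have hmn : m ≤ n := Nat.le_of_succ_le hm
  obtain ⟨-, hZ, -, -⟩ := hRB X τ f R.tow R.fib m
  have hz : IsDer (τ m) (Zo τ f m r s) := hZ r s
  obtain ⟨hO1, -, hO3, hO4, -, -, -, -⟩ := hHO X (τ (m + 1)) (Zo τ f m r s) hz.mono
  apply Subset.antisymm
  · refine (hO3 B).trans ?_
    exact @closure_mono X (τ (m + 1)) _ _ (hz.mono _ _ (hO1 B))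
  · have h0 : ∀ k, P k ⊆ P 0 := by
      intro k
      induction k with
      | zero => exact Subset.rfl
      | succ k ih => exact (R.anti k).trans ih
    have hzP : Zo τ f m r s B ∈ P m := R.ZP m hmn r hr hv s B (R.anti m hB)
    have hC : closure[τ (m + 1)] (Zo τ f m r s B) ∈ P (m + 1) :=
      R.clo (m + 1) (by omega) _ (h0 m hzP)
    have hCB : closure[τ (m + 1)] (Zo τ f m r s B) ⊆ B :=
      @closure_minimal X (τ (m + 1)) _ _ (hz.le B) (R.cl (m + 1) hm B hB)
    have hCc : Clp (τ m) (closure[τ (m + 1)] (Zo τ f m r s B)) :=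
      ⟨R.cl m hmn _ (R.anti m hC), R.op m hmn _ hC⟩
    have hzC : Zo τ f m r s (closure[τ (m + 1)] (Zo τ f m r s B)) = Zo τ f m r s B := by
      have h := hz.loc _ B hCc
      rw [inter_eq_self_of_subset_right hCB, inter_eq_self_of_subset_left
        (@subset_closure X (τ (m + 1)) _)] at h
      exact h
    refine hO4 _ B hCB ?_
    rw [hzC]

end Pool.Agent.Helper24.WH

end

section

/-!
# PROJECT WH (MP_76577a_lc), module OR: the ordinal of the data is strictly monotone for strict Wadge reducibility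
-/

set_option autoImplicit false

namespace Pool.Agent.Helper24.WH

open Set TopologicalSpace Topology
open Ordinal hiding univ

/-- padding to any larger height -/
private theorem pad_OR (hDP : StDP) (hCB : StCB) {A₁ : Type} (f : Tre A₁ → Bool) (n : ℕ) (r : Cd n) (sd : Bool → Prop)
    (h : Dat f n r sd) (N : ℕ) (hN : n ≤ N) : ∃ r₁ : Cd N, Dat f N r₁ sd ∧ Cd.pi N r₁ = Cd.pi n r := by
  induction N, hN using Nat.le_induction with
  | base => exact ⟨r, h, rfl⟩
  | succ N _ ih =>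
    obtain ⟨r₁, h₁, e₁⟩ := ih
    refine ⟨Cd.up N r₁, hDP A₁ f N r₁ sd h₁, ?_⟩
    rw [(hCB N).2.2.2.2.1 r₁, e₁]

/-- complementing a reduction -/
private theorem wred_compl_OR {A₁ A₂ : Type} {f : Tre A₁ → Bool} {f' : Tre A₂ → Bool} (h : WRed f f') :
    WRed (fun t => !(f t)) (fun t => !(f' t)) := by
  obtain ⟨φ, hc, hφ⟩ := h
  exact ⟨φ, hc, fun x => by simp only [hφ x]⟩

private theorem wred_trans_OR {A₁ A₂ A₃ : Type} {f : Tre A₁ → Bool} {f' : Tre A₂ → Bool} {f'' : Tre A₃ → Bool}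
    (h : WRed f f') (h' : WRed f' f'') : WRed f f'' := by
  obtain ⟨φ, hc, hφ⟩ := h
  obtain ⟨ψ, hd, hψ⟩ := h'
  refine ⟨ψ ∘ φ, ?_, fun x => by simp only [Function.comp_apply, hψ, hφ]⟩
  let _ : TopologicalSpace (Tre A₁) := pT A₁
  let _ : TopologicalSpace (Tre A₂) := pT A₂
  let _ : TopologicalSpace (Tre A₃) := pT A₃
  exact Continuous.comp hd hc

/-- arithmetic below `ε₀` -/
private theorem lt_eps_OR {a : Ordinal.{0}} (ha : a < Ordinal.epsilon 0) (k : Ordinal.{0}) (hk : k ≤ 1) :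
    (2 : Ordinal.{0}) * a + k < Ordinal.epsilon 0 := by
  have e1 : (ω : Ordinal.{0}) ^ (ω ^ (Ordinal.epsilon 0)) = Ordinal.epsilon 0 := by
    rw [omega0_opow_epsilon, omega0_opow_epsilon]
  have h2 : (2 : Ordinal.{0}) < Ordinal.epsilon 0 := by
    have := natCast_lt_epsilon 2 0
    exact_mod_cast this
  have h1 : (1 : Ordinal.{0}) < Ordinal.epsilon 0 := by
    have := natCast_lt_epsilon 1 0
    exact_mod_cast this
  have hm : (2 : Ordinal.{0}) * a < Ordinal.epsilon 0 := by
    have := isPrincipal_mul_omega0_opow_opow (Ordinal.epsilon 0)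
    rw [e1] at this
    exact this h2 ha
  have hp := isPrincipal_add_omega0_opow (Ordinal.epsilon 0)
  rw [omega0_opow_epsilon] at hp
  exact hp hm (lt_of_le_of_lt hk h1)

private theorem two_mul_lt_OR {a b : Ordinal.{0}} (h : a < b) (k k' : Ordinal.{0}) (hk : k ≤ 1) :
    (2 : Ordinal.{0}) * a + k < 2 * b + k' := by
  have h1 : a + 1 ≤ b := Order.add_one_le_of_lt h
  calc (2 : Ordinal.{0}) * a + k ≤ 2 * a + 1 := by gcongr
    _ < 2 * a + 2 := by
      have : (1 : Ordinal.{0}) < 2 := one_lt_two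
      gcongr
    _ = 2 * (a + 1) := by rw [mul_add, mul_one]
    _ ≤ 2 * b := by gcongr
    _ ≤ 2 * b + k' := le_self_add

/-- **OR** -/
theorem hOR (hDP : StDP) (hDC : StDC) (hDN : StDN) (hCB : StCB) : StOR := by
  classical
  intro A₁ A₂ _ _ _ _ f f' n n' r r' sd sd' hd hd'
  have hk : ∀ sd : Bool → Prop, (if sd false ∧ sd true then (1 : Ordinal.{0}) else 0) ≤ 1 := by
    intro sd
    split_ifs
    · exact le_rfl
    · exact zero_le_one
  refine ⟨?_, ?_⟩
  · unfold ordD
    exact lt_eps_OR ((hCB n).2.1 r) _ (hk sd)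
  intro hff hnff
  obtain ⟨N, hNa, hNb⟩ : ∃ N : ℕ, n ≤ N ∧ n' ≤ N := ⟨max n n', le_max_left _ _, le_max_right _ _⟩
  obtain ⟨r₁, hd₁, e₁⟩ := pad_OR hDP hCB f n r sd hd N hNa
  obtain ⟨r₁', hd₁', e₁'⟩ := pad_OR hDP hCB f' n' r' sd' hd' N hNb
  unfold ordD
  rw [← e₁, ← e₁']
  rcases lt_trichotomy r₁ r₁' with hlt | heq | hgt
  · exact two_mul_lt_OR ((hCB N).1 r₁ r₁' hd₁.wf hd₁'.wf hlt) _ _ (hk sd)
  · subst heq
    by_cases h2 : sd false ∧ sd true
    · exfalso
      apply hnff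
      refine hDC A₂ A₁ f' f N r₁ r₁ sd' sd hd₁' hd₁ (Or.inr ⟨rfl, ?_⟩)
      rintro (_ | _) _
      · exact h2.1
      · exact h2.2
    · by_cases h2' : sd' false ∧ sd' true
      · rw [if_neg h2, if_pos h2', add_zero]
        exact lt_add_of_pos_right _ zero_lt_one
      · exfalso
        apply hnff
        obtain ⟨s, hs⟩ := hd₁.side
        obtain ⟨s', hs'⟩ := hd₁'.side
        by_cases hss : s = s'
        · subst hss
          refine hDC A₂ A₁ f' f N r₁ r₁ sd' sd hd₁' hd₁ (Or.inr ⟨rfl, ?_⟩)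
          intro t ht
          by_cases hts : t = s
          · rw [hts]; exact hs
          · exfalso
            apply h2'
            cases s <;> cases t <;> simp_all
        · have hN1 : Dat (fun t => !(f' t)) N r₁ (fun s => sd' (!s)) := hDN A₂ f' N r₁ sd' hd₁'
          have hw : WRed (fun t => !(f' t)) f := by
            refine hDC A₂ A₁ _ f N r₁ r₁ _ sd hN1 hd₁ (Or.inr ⟨rfl, ?_⟩)
            intro t ht
            by_cases hts : t = s
            · rw [hts]; exact hs
            · exfalso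
              apply h2'
              cases s <;> cases t <;> cases s' <;> simp_all
          have h3 : WRed (fun t => !(f' t)) f' := wred_trans_OR hw hff
          have h4 : WRed f' (fun t => !(f' t)) := by
            have := wred_compl_OR h3
            simpa using this
          exact wred_trans_OR h4 hw
  · exfalso
    exact hnff (hDC A₂ A₁ f' f N r₁' r₁ sd' sd hd₁' hd₁ (Or.inl hgt))

end Pool.Agent.Helper24.WH

end

section

/-!
# WH module RL (3.6): relabelling of the operators `Z_m^t`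
-/

set_option autoImplicit false

namespace Pool.Agent.Helper24.WH

open Set TopologicalSpace Ordinal Topology

private theorem clp_mono_RL {X : Type} {τ τ' : TopologicalSpace X} (h : τ' ≤ τ) {O : Set X} (hO : Clp τ O) :
    Clp τ' O :=
  ⟨IsClosed.mono hO.1 h, IsOpen.mono hO.2 h⟩

private theorem mcl_RL {X : Type} {τ τ' : TopologicalSpace X} (h : τ ≤ τ') {z : Set X → Set X}
    (hz : IsDer τ z) : MCL τ' z :=
  ⟨hz.mono, hz.le, fun O B hO => hz.loc O B (clp_mono_RL h hO)⟩

private theorem fib_RL {X S' S : Type} [Finite S'] (G : S' → S) {τ : ℕ → TopologicalSpace X} {g' : X → S'}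
    (h : Fib τ g') : Fib τ (G ∘ g') := by
  intro s
  have h1 : (G ∘ g') ⁻¹' {s} = ⋃ s' ∈ G ⁻¹' {s}, g' ⁻¹' {s'} := by
    ext x
    simp
  rw [h1]
  letI := τ 0
  exact (Set.toFinite (G ⁻¹' {s})).isClopen_biUnion fun s' _ => h s'

/-- relabelling of `hom` on closed sets -/
theorem hom_RL (hZM : StZM) (hHU : StHU) {S' S : Type} [Finite S'] (G : S' → S) (m : ℕ) (U : TT S m)
    (M : Set (TT S' m)) (hM : M.Finite) {X : Type} (τ : ℕ → TopologicalSpace X) (g' : X → S')
    (hT : Tow τ) (hg : Fib τ g')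
    (h : ∀ B : Set X, IsClosed[τ m] B → Z τ (G ∘ g') m U B = ⋃ t' ∈ M, Z τ g' m t' B)
    (B : Set X) (hB : IsClosed[τ (m + 1)] B) :
    hom τ (G ∘ g') m U B = ⋃ t' ∈ M, hom τ g' m t' B := by
  haveI : Finite M := hM
  have h1 := hHU X (τ (m + 1)) (Z τ (G ∘ g') m U) (hT.zd _)
    (mcl_RL (hT.mono m) ((hZM X S τ (G ∘ g') hT (fib_RL G hg) m).1 U)) M
    (fun t' => Z τ g' m t'.1) (fun t' => mcl_RL (hT.mono m) ((hZM X S' τ g' hT hg m).1 t'.1))
    (fun W hW => by
      rw [h W (IsClosed.mono hW (hT.mono m)), Set.biUnion_eq_iUnion]) B hB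
  unfold hom
  rw [h1, Set.biUnion_eq_iUnion]

theorem hRL (hTP : StTP) (hTB : StTB) (hFN : StFN) (hZM : StZM) (hZA : StZA) (hHA : StHA) (hHU : StHU) :
    StRL := by
  intro S' S _ G m
  induction m with
  | zero =>
    intro s
    have hfin : ({s' : S' | G s' = s} : Set S').Finite := Set.toFinite _
    refine ⟨{s' : S' | G s' = s}, hfin, fun s' hs' => hs'.symm, ?_⟩
    intro X τ g' _ _ B _
    ext x
    simp only [Z, Set.mem_inter_iff, Set.mem_preimage, Set.mem_singleton_iff, Function.comp_apply,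
      Set.mem_iUnion, Set.mem_ofPred_eq, exists_prop]
    constructor
    · rintro ⟨h1, h2⟩
      exact ⟨g' x, h2, h1, rfl⟩
    · rintro ⟨s', h1, h2, h3⟩
      exact ⟨h2, by rw [h3]; exact h1⟩
  | succ m ihm =>
    intro t
    change Tr (TT S m) at t
    induction t with
    | leaf U =>
      obtain ⟨M, hM, hle, hZ⟩ := ihm U
      refine ⟨(fun U' => (Tr.leaf U' : Tr (TT S' m))) '' M, hM.image _, ?_, ?_⟩
      · rintro _ ⟨U', hU', rfl⟩
        exact Tr.Le.leaf U _ (hle U' hU')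
      · intro X τ g' hT hg B hB
        rw [Set.biUnion_image]
        exact hom_RL hZM hHU G m U M hM τ g' hT hg (fun W hW => hZ X τ g' hT hg W hW) B hB
    | node U F ih =>
      obtain ⟨M, hM, hle, hZ⟩ := ihm U
      choose N hN hNle hNZ using ih
      obtain ⟨C, hC, hCN, hCH⟩ := hFN (TT S' (m + 1)) (TT.Le (m + 1)) ((hTP.2.1 S' (m + 1)).1)
        ((hTP.2.1 S' (m + 1)).2) (hTB S' (m + 1) 0).2.1 N hN
      refine ⟨(fun p : TT S' m × (ℕ → TT S' (m + 1)) => (Tr.node p.1 p.2 : Tr (TT S' m))) '' (M ×ˢ C),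
        (hM.prod hC).image _, ?_, ?_⟩
      · rintro _ ⟨⟨U', c⟩, ⟨hU', hc⟩, rfl⟩
        refine Tr.Le.node U F _ (hle U' hU') fun i => ?_
        exact Tr.Le.sub _ _ _ i (hNle i (c i) (hCN c hc i))
      · intro X τ g' hT hg B hB
        haveI : Finite C := hC
        -- the closed sets
        have hcl : ∀ t' : TT S' (m + 1), IsClosed[τ (m + 1)] (Z τ g' (m + 1) t' B) := fun t' =>
          ((hZM X S' τ g' hT hg (m + 1)).1 t').closed B hB
        have hcl2 : ∀ c : ℕ → TT S' (m + 1), IsClosed[τ (m + 1)] (⋂ i, Z τ g' (m + 1) (c i) B) := fun c =>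
          @isClosed_iInter X ℕ (τ (m + 1)) _ fun i => hcl (c i)
        have e1 : (⋂ i, Z τ (G ∘ g') (m + 1) (F i) B) = ⋃ c : C, ⋂ i, Z τ g' (m + 1) (c.1 i) B := by
          have e2 := hCH X (fun t' => Z τ g' (m + 1) t' B)
            (fun a b hab => (hZA X S' τ g' (m + 1)).1 a b hab B)
          rw [Set.biUnion_eq_iUnion] at e2
          rw [← e2]
          exact Set.iInter_congr fun i => hNZ i X τ g' hT hg B hB
        have hcl3 : IsClosed[τ (m + 1)] (⋃ c : C, ⋂ i, Z τ g' (m + 1) (c.1 i) B) :=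
          @isClosed_iUnion_of_finite X C (τ (m + 1)) _ _ fun c => hcl2 c.1
        have e3 : Z τ (G ∘ g') (m + 1) (Tr.node U F) B =
            hom τ (G ∘ g') m U (⋂ i, Z τ (G ∘ g') (m + 1) (F i) B) := rfl
        rw [e3, e1, hom_RL hZM hHU G m U M hM τ g' hT hg (fun W hW => hZ X τ g' hT hg W hW) _ hcl3,
          Set.biUnion_image, Set.biUnion_prod']
        refine Set.iUnion₂_congr fun U' hU' => ?_
        have e4 := hHA X (τ (m + 1)) (Z τ g' m U') (hT.zd _)
          (mcl_RL (hT.mono m) ((hZM X S' τ g' hT hg m).1 U')) C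
          (fun c => ⋂ i, Z τ g' (m + 1) (c.1 i) B) (fun c => hcl2 c.1)
        have e5 : hom τ g' m U' (⋃ c : C, ⋂ i, Z τ g' (m + 1) (c.1 i) B) =
          ⋃ c : C, HomOp (τ (m + 1)) (Z τ g' m U') (⋂ i, Z τ g' (m + 1) (c.1 i) B) := e4
        rw [e5, Set.biUnion_eq_iUnion]
        rfl

end Pool.Agent.Helper24.WH

end

section

/-!
# PROJECT WH (MP_76577a_lc), module RS: the rich system (4.6, 4.7)
-/

set_option autoImplicit false

namespace Pool.Agent.Helper24.WH

open Set TopologicalSpace Topology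
open Ordinal hiding univ

variable {A S : Type}

/-- finite unions of pieces -/
private theorem pcBUnion_RS {n : ℕ} {g : Tre A → S} {h : ℕ} {ι : Type*} (s : Set ι) (hs : s.Finite)
    (f : ι → Set (Tre A)) (hf : ∀ i ∈ s, Pc n g h (f i)) : Pc n g h (⋃ i ∈ s, f i) := by
  induction s, hs using Set.Finite.induction_on with
  | empty =>
    rw [biUnion_empty]
    exact Pc.empty
  | insert _ _ ih =>
    rw [biUnion_insert]
    exact Pc.union _ _ (hf _ (mem_insert _ _)) (ih fun i hi => hf i (mem_insert_of_mem _ hi))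

private theorem pcUnion_RS {n : ℕ} {g : Tre A → S} {h : ℕ} {ι : Type*} [Finite ι]
    (f : ι → Set (Tre A)) (hf : ∀ i, Pc n g h (f i)) : Pc n g h (⋃ i, f i) := by
  have := pcBUnion_RS (n := n) (g := g) (h := h) univ (finite_univ) f (fun i _ => hf i)
  rwa [biUnion_univ] at this

private theorem pcUniv_RS {n : ℕ} {g : Tre A → S} {h : ℕ} : Pc n g h univ := by
  have := Pc.nm (n := n) (g := g) (h := h) Fo.nil 0 (by unfold GN Good; trivial)
  have e : vl n g (Fo.nil : Nm S) = univ := by unfold vl val; rfl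
  rwa [e] at this

/-- pieces of height `0` are pieces of height `1` -/
private theorem pc01_RS [Finite A] [Finite S] (hSU : StSU) {n : ℕ} {g : Tre A → S} {B : Set (Tre A)}
    (h : Pc n g 0 B) : Pc n g 1 B := by
  induction h with
  | nm N i hN => exact Pc.nm N i ((hSU A S n g).2.2.1 N i hN)
  | mk a C₀ C₁ _ _ ih₀ ih₁ => exact Pc.mk a C₀ C₁ ih₀ ih₁
  | union C₀ C₁ _ _ ih₀ ih₁ => exact Pc.union C₀ C₁ ih₀ ih₁
  | empty => exact Pc.empty

/-- `Z` depends only on the topologies of index at most `m` -/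
private theorem zCongr_RS {X : Type} (τ τ' : ℕ → TopologicalSpace X) (g : X → S) (m : ℕ)
    (h : ∀ k ≤ m, τ k = τ' k) : ∀ t : TT S m, Z τ g m t = Z τ' g m t := by
  induction m with
  | zero =>
    intro s
    funext B
    simp only [Z]
  | succ m ih =>
    intro t
    funext B
    have e : (fun U => HomOp (τ (m + 1)) (Z τ g m U)) = (fun U => HomOp (τ' (m + 1)) (Z τ' g m U)) := by
      funext U
      rw [h (m + 1) le_rfl, ih (fun k hk => h k (by omega)) U]
    show ZTr (fun U => HomOp (τ (m + 1)) (Z τ g m U)) t B = ZTr (fun U => HomOp (τ' (m + 1)) (Z τ' g m U)) t B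
    rw [e]

private theorem dLCongr_RS {X : Type} (τ τ' : ℕ → TopologicalSpace X) (g : X → S) (m : ℕ)
    (h : ∀ k ≤ m + 1, τ k = τ' k) (L : ℕ → TT S m) : dL τ g m L = dL τ' g m L := by
  funext B
  unfold dL hom
  refine iInter_congr fun i => ?_
  rw [h (m + 1) le_rfl, zCongr_RS τ τ' g m (fun k hk => h k (by omega)) (L i)]

/-- the name `cl` -/
private theorem pcCl_RS {n : ℕ} {g : Tre A → S} {i₀ : Ordinal.{0}}
    (h₀ : ∀ i, i₀ ≤ i → stg n g i = stg n g i₀) (hSUm : ∀ (N : Nm S) h h' i i', h' ≤ h → i ≤ i' →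
      GN n g N h i → GN n g N h' i') (N : Nm S) (i : Ordinal.{0}) (hN : GN n g N 0 i)
    (M : ℕ) (hM1 : 1 ≤ M) (hMn : M ≤ n) (s : S) :
    Pc n g M (closure[stg n g i₀ M] (g ⁻¹' {s} ∩ vl n g N)) := by
  have hN' : GN n g (Fo.cons (Lab.cl M s (max i i₀)) N Fo.nil) M (max i i₀ + 1) := by
    refine ⟨le_rfl, hM1, hMn, ?_, hSUm N 0 0 i _ le_rfl (le_max_left _ _) hN, trivial⟩
    exact Order.lt_succ _
  have := Pc.nm (n := n) (g := g) (h := M) _ _ hN'
  have e : vl n g (Fo.cons (Lab.cl M s (max i i₀)) N Fo.nil) =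
      closure[stg n g i₀ M] (g ⁻¹' {s} ∩ vl n g N) := by
    show closure[stg n g (max i i₀) M] (g ⁻¹' {s} ∩ vl n g N) ∩ univ = _
    rw [h₀ _ (le_max_right _ _), inter_univ]
  rwa [e] at this

/-- the name `dd` -/
private theorem pcDd_RS {n : ℕ} {g : Tre A → S} {i₀ : Ordinal.{0}}
    (h₀ : ∀ i, i₀ ≤ i → stg n g i = stg n g i₀) (hSUm : ∀ (N : Nm S) h h' i i', h' ≤ h → i ≤ i' →
      GN n g N h i → GN n g N h' i') (m : ℕ) (hm : m + 1 ≤ n) (N : Nm S) (i : Ordinal.{0})
    (hN : GN n g N (m + 1) i) (L : ℕ → TT S m) (x : ℕ) :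
    Pc n g (m + 1) (iter (dL (stg n g i₀) g m L) (vl n g N) (ω ^ (x : Ordinal.{0}))) := by
  have hN' : GN n g (Fo.cons (Lab.dd m L x (max i i₀)) N Fo.nil) (m + 1) (max i i₀ + 1) := by
    refine ⟨le_rfl, hm, ?_, hSUm N _ _ i _ le_rfl (le_max_left _ _) hN, trivial⟩
    exact Order.lt_succ _
  have := Pc.nm (n := n) (g := g) (h := m + 1) _ _ hN'
  have e : vl n g (Fo.cons (Lab.dd m L x (max i i₀)) N Fo.nil) =
      iter (dL (stg n g i₀) g m L) (vl n g N) (ω ^ (x : Ordinal.{0})) := by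
    show iter (dL (stg n g (max i i₀)) g m L) (vl n g N) (ω ^ (x : Ordinal.{0})) ∩ univ = _
    rw [h₀ _ (le_max_right _ _), inter_univ]
  rwa [e] at this


private theorem closedMono_RS {X : Type} {τ τ' : TopologicalSpace X} (h : τ ≤ τ') {B : Set X}
    (hB : IsClosed[τ'] B) : IsClosed[τ] B :=
  @IsClosed.mk X τ B (h _ (@IsClosed.isOpen_compl X τ' B hB))

/-- closures of fibres in a piece -/
private theorem pcClo_RS [Finite A] [Finite S] (hSC : StSC) {n : ℕ} {g : Tre A → S}
    {Ga : A → S × S → S} (hH : Hyp n g Ga) {i₀ : Ordinal.{0}}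
    (h₀ : ∀ i, i₀ ≤ i → stg n g i = stg n g i₀) (hSUm : ∀ (N : Nm S) h h' i i', h' ≤ h → i ≤ i' →
      GN n g N h i → GN n g N h' i')
    (hCE : ∀ (a : A) (M : ℕ), CE (prodT (stg n g i₀) (stg n g i₀) M) (stg n g i₀ M) (Tre.mk a))
    (M : ℕ) (hM1 : 1 ≤ M) (hMn : M ≤ n) {C : Set (Tre A)} (hC : Pc n g 0 C) :
    ∀ s, Pc n g M (closure[stg n g i₀ M] (g ⁻¹' {s} ∩ C)) := by
  induction hC with
  | nm N i hN => exact fun s => pcCl_RS h₀ hSUm N i hN M hM1 hMn s
  | mk a C₀ C₁ _ _ ih₀ ih₁ =>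
    intro s
    have h1 := hSC (Tre A) S (stg n g i₀ M) g (Tre.mk a) (Ga a) (fun p => hH.hom a p) (hCE a M) s 1
      (fun _ => C₀) (fun _ => C₁) (Tre.mk a '' (C₀ ×ˢ C₁))
      (by rw [inter_eq_left.2 (image_subset_range _ _), iUnion_const])
    have h2 : closure[stg n g i₀ M] (g ⁻¹' {s} ∩ (Tre.mk a '' (C₀ ×ˢ C₁))) ⊆ range (Tre.mk a) :=
      @closure_minimal _ (stg n g i₀ M) _ _ (inter_subset_right.trans (image_subset_range _ _))
        (hCE a M).2.2.1
    rw [inter_eq_left.2 h2] at h1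
    rw [h1]
    exact pcUnion_RS _ fun q => pcBUnion_RS _ (Set.toFinite _) _ fun p _ =>
      Pc.mk _ _ _ (ih₀ p.1) (ih₁ p.2)
  | union C₀ C₁ _ _ ih₀ ih₁ =>
    intro s
    rw [inter_union_distrib_left, @closure_union _ (stg n g i₀ M)]
    exact Pc.union _ _ (ih₀ s) (ih₁ s)
  | empty =>
    intro s
    rw [inter_empty, @closure_empty _ (stg n g i₀ M)]
    exact Pc.empty

/-- finite intersections of pieces -/
private theorem pcBInter_RS {n : ℕ} {g : Tre A → S} {h : ℕ}
    (hI : ∀ B B', Pc n g h B → Pc n g h B' → Pc n g h (B ∩ B')) {ι : Type*} (s : Set ι) (hs : s.Finite)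
    (f : ι → Set (Tre A)) (hf : ∀ i ∈ s, Pc n g h (f i)) : Pc n g h (⋂ i ∈ s, f i) := by
  induction s, hs using Set.Finite.induction_on with
  | empty =>
    rw [biInter_empty]
    exact pcUniv_RS
  | insert _ _ ih =>
    rw [biInter_insert]
    exact hI _ _ (hf _ (mem_insert _ _)) (ih fun i hi => hf i (mem_insert_of_mem _ hi))

/-- regrouping a countable intersection by a colouring of the indices with finitely many colours -/
private theorem regroup_RS {X T : Type} {k : ℕ} (c : ℕ → T × Fin k) (H : T → Fin k → Set X) :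
    ∃ φ : Fin k → ℕ → ℕ,
      ⋂ i, H (c i).1 (c i).2 = ⋂ q ∈ range (fun i => (c i).2), ⋂ n, H (c (φ q n)).1 q := by
  classical
  have hch : ∀ q : Fin k, ∃ i : ℕ, q ∈ range (fun i => (c i).2) → (c i).2 = q := by
    intro q
    by_cases hq : q ∈ range (fun i => (c i).2)
    · obtain ⟨i, hi⟩ := hq
      exact ⟨i, fun _ => hi⟩
    · exact ⟨0, fun h => absurd h hq⟩
  choose j hj using hch
  refine ⟨fun q n => if (c n).2 = q then n else j q, ?_⟩
  ext y
  simp only [mem_iInter]
  constructor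
  · intro h q hq n
    by_cases hn : (c n).2 = q
    · have := h n
      simp only [hn, if_true]
      rw [hn] at this
      exact this
    · have h1 := h (j q)
      rw [hj q hq] at h1
      simp only [hn, if_false]
      exact h1
  · intro h i
    have := h (c i).2 ⟨i, rfl⟩ i
    simpa using this

/-- the operator `z = Z m t` as an operator for the coarser topology -/
private theorem mcl_RS {X : Type} (hZM : StZM) (τ : ℕ → TopologicalSpace X) (g : X → S)
    (hT : Tow τ) (hF : Fib τ g) (m : ℕ) (t : TT S m) : MCL (τ (m + 1)) (Z τ g m t) := by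
  have h := (hZM X S τ g hT hF m).1 t
  refine ⟨h.mono, h.le, fun O B hO => h.loc O B ?_⟩
  exact ⟨closedMono_RS (hT.mono m) hO.1, (hT.mono m) _ hO.2⟩

/-- `d_L` of a finite union of pieces is a piece -/
private theorem pcD0_RS [Finite S] (hTB : StTB) (hTP : StTP) (hFN : StFN) (hHA : StHA) (hZM : StZM)
    (hZA : StZA) {n : ℕ} {g : Tre A → S} {τ : ℕ → TopologicalSpace (Tre A)} (hT : Tow τ) (hF : Fib τ g)
    (m : ℕ) {k : ℕ} (C : Fin k → Set (Tre A)) (hcl : ∀ q, IsClosed[τ (m + 1)] (C q))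
    (hI : ∀ B B', Pc n g (m + 1) B → Pc n g (m + 1) B' → Pc n g (m + 1) (B ∩ B'))
    (ih : ∀ q (L : ℕ → TT S m), Pc n g (m + 1) (dL τ g m L (C q))) (L : ℕ → TT S m) :
    Pc n g (m + 1) (dL τ g m L (⋃ q, C q)) := by
  have h1 : ∀ i, hom τ g m (L i) (⋃ q, C q) = ⋃ q, hom τ g m (L i) (C q) := fun i =>
    hHA (Tre A) (τ (m + 1)) (Z τ g m (L i)) (hT.zd (m + 1)) (mcl_RS hZM τ g hT hF m (L i)) (Fin k) C hcl
  obtain ⟨hrefl, htrans⟩ := hTP.2.1 S m
  obtain ⟨Cs, hCs, -, hCeq⟩ := hFN (TT S m × Fin k) (fun a b => TT.Le m a.1 b.1 ∧ a.2 = b.2)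
    (fun a => ⟨hrefl a.1, rfl⟩) (fun a b c hab hbc => ⟨htrans _ _ _ hab.1 hbc.1, hab.2.trans hbc.2⟩)
    (hTB S m k).2.2 (fun i => {L i} ×ˢ univ) (fun i => (finite_singleton _).prod finite_univ)
  have h2 := hCeq (Tre A) (fun e => hom τ g m e.1 (C e.2)) (by
    rintro ⟨a, q⟩ ⟨b, q'⟩ ⟨hab, hq⟩
    simp only at hab hq
    subst hq
    exact (hZA (Tre A) S τ g m).2.1 a b hab (C q))
  have h3 : dL τ g m L (⋃ q, C q) = ⋂ i, ⋃ e ∈ ({L i} ×ˢ univ : Set (TT S m × Fin k)),
      hom τ g m e.1 (C e.2) := by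
    unfold dL
    refine iInter_congr fun i => ?_
    rw [h1 i]
    ext y
    simp only [mem_iUnion, mem_prod, mem_singleton_iff, mem_univ, and_true, exists_prop, Prod.exists]
    constructor
    · rintro ⟨q, hq⟩
      exact ⟨L i, q, rfl, hq⟩
    · rintro ⟨_, q, rfl, hq⟩
      exact ⟨q, hq⟩
  rw [h3, h2]
  refine pcBUnion_RS _ hCs _ fun c _ => ?_
  obtain ⟨φ, hφ⟩ := regroup_RS c (fun t q => hom τ g m t (C q))
  rw [hφ]
  exact pcBInter_RS hI _ (Set.toFinite _) _ fun q _ => ih q (fun n => (c (φ q n)).1)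


/-- the iterates of `d_L` of a piece are pieces -/
private theorem pcDL_RS [Finite A] [Finite S] (hIT : StIT) (hEZ : StEZ) (hRD : StRD) (hPZ : StPZ)
    (hPT : StPT) (hAD : StAD) (hTB : StTB) (hTP : StTP) (hFN : StFN) (hHA : StHA) (hZM : StZM)
    (hZA : StZA) {n : ℕ} {g : Tre A → S} {Ga : A → S × S → S} (hH : Hyp n g Ga) {i₀ : Ordinal.{0}}
    (h₀ : ∀ i, i₀ ≤ i → stg n g i = stg n g i₀) (hSUm : ∀ (N : Nm S) h h' i i', h' ≤ h → i ≤ i' →
      GN n g N h i → GN n g N h' i') (hT : Tow (stg n g i₀)) (hF : Fib (stg n g i₀) g)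
    (hCE : ∀ (a : A) (M : ℕ), CE (prodT (stg n g i₀) (stg n g i₀) M) (stg n g i₀ M) (Tre.mk a))
    (m : ℕ) (hm : m + 1 ≤ n)
    (hI : ∀ B B', Pc n g (m + 1) B → Pc n g (m + 1) B' → Pc n g (m + 1) (B ∩ B'))
    (hcl : ∀ B, Pc n g (m + 1) B → IsClosed[stg n g i₀ (m + 1)] B)
    {C : Set (Tre A)} (hC : Pc n g (m + 1) C) :
    ∀ (L : ℕ → TT S m) (x : ℕ),
      Pc n g (m + 1) (iter (dL (stg n g i₀) g m L) C (ω ^ (x : Ordinal.{0}))) := by
  induction hC with
  | nm N i hN => exact fun L x => pcDd_RS h₀ hSUm m hm N i hN L x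
  | mk a C₀ C₁ hC₀ hC₁ ih₀ ih₁ =>
    intro L x
    have h1 := (hEZ (Tre A × Tre A) (Tre A) S (prodT (stg n g i₀) (stg n g i₀)) (stg n g i₀) g
      (Tre.mk a) (fun M => hCE a M) m).2.2 L (C₀ ×ˢ C₁) (ω ^ (x : Ordinal.{0}))
    have h2 : g ∘ Tre.mk a = Ga a ∘ Prod.map g g := by
      funext p
      exact hH.hom a p
    obtain ⟨Cs, hCs, hCeq⟩ := (hRD (S × S) S (Ga a) m L).2
    obtain ⟨hT', hF'⟩ := hPT (Tre A) (Tre A) S S (stg n g i₀) (stg n g i₀) g g hT hT hF hF
    have hcl' : IsClosed[prodT (stg n g i₀) (stg n g i₀) (m + 1)] (C₀ ×ˢ C₁) :=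
      @IsClosed.prod _ _ (stg n g i₀ (m + 1)) (stg n g i₀ (m + 1)) _ _ (hcl _ hC₀) (hcl _ hC₁)
    have h3 := (hCeq (Tre A × Tre A) (prodT (stg n g i₀) (stg n g i₀)) (Prod.map g g) hT' hF'
      (C₀ ×ˢ C₁) hcl').2 (x : Ordinal.{0})
    rw [h1, h2, h3, image_iUnion₂]
    refine pcBUnion_RS _ hCs _ fun L' _ => ?_
    rw [(hPZ (Tre A) (Tre A) S S (stg n g i₀) (stg n g i₀) g g m).2.2 L' C₀ C₁]
    exact Pc.mk _ _ _ (ih₀ _ _) (ih₁ _ _)
  | union C₀ C₁ hC₀ hC₁ ih₀ ih₁ =>
    intro L x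
    have hd := (hZM (Tre A) S (stg n g i₀) g hT hF m).2.2 L
    rcases Nat.eq_zero_or_pos x with rfl | hx
    · have hone : ∀ (L : ℕ → TT S m) (B : Set (Tre A)),
          iter (dL (stg n g i₀) g m L) B (ω ^ ((0 : ℕ) : Ordinal.{0})) = dL (stg n g i₀) g m L B := by
        intro L B
        have hd := (hZM (Tre A) S (stg n g i₀) g hT hF m).2.2 L
        obtain ⟨h0, h1, -⟩ := hIT (Tre A) _ hd.mono hd.le
        have h2 := h1 B 0
        rw [h0 B, zero_add] at h2
        rw [Nat.cast_zero, Ordinal.opow_zero]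
        exact h2
      have hU : C₀ ∪ C₁ = ⋃ q : Fin 2, ![C₀, C₁] q := by
        ext y
        simp [Fin.exists_fin_two]
      rw [hone, hU]
      refine pcD0_RS hTB hTP hFN hHA hZM hZA hT hF m _ ?_ hI ?_ L
      · intro q
        fin_cases q
        · exact hcl _ hC₀
        · exact hcl _ hC₁
      · intro q L
        fin_cases q
        · have := ih₀ L 0
          rwa [hone] at this
        · have := ih₁ L 0
          rwa [hone] at this
    · have h1 : (1 : Ordinal.{0}) ≤ (x : Ordinal.{0}) := by exact_mod_cast hx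
      rw [hAD (Tre A) (stg n g i₀ (m + 1)) (hT.zd (m + 1)) _ hd C₀ C₁ x (hcl _ hC₀) (hcl _ hC₁) h1]
      exact Pc.union _ _ (ih₀ L x) (ih₁ L x)
  | empty =>
    intro L x
    have hd := (hZM (Tre A) S (stg n g i₀) g hT hF m).2.2 L
    obtain ⟨-, -, -, -, -, h6, -⟩ := hIT (Tre A) _ hd.mono hd.le
    rw [subset_empty_iff.1 (h6 ∅ (ω ^ (x : Ordinal.{0})))]
    exact Pc.empty

/-- the indiscrete topology -/
private theorem zdTop_RS {X : Type} : ZD (⊤ : TopologicalSpace X) := by
  intro x U hU hx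
  refine ⟨univ, @isClopen_univ _ ⊤, mem_univ _, ?_⟩
  rcases (TopologicalSpace.isOpen_top_iff U).1 hU with h | h
  · rw [h] at hx
    exact absurd hx (by simp)
  · rw [h]

theorem hRS (hSG : StSG) (hSU : StSU) (hPI : StPI) (hEC : StEC) (hPL : StPL) (hSC : StSC)
    (hEZ : StEZ) (hRD : StRD) (hPZ : StPZ) (hPT : StPT) (hAD : StAD) (hFN : StFN) (hTB : StTB)
    (hTP : StTP) (hIT : StIT) (hZM : StZM) (hZA : StZA) (hHA : StHA) : StRS := by
  intro A S _ _ _ n g Ga hH
  obtain ⟨-, hSUm, -, hmono, -, -, hnt, -, -⟩ := hSU A S n g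
  obtain ⟨i₀, h₀⟩ := hEC (Tre A) (stg n g) (fun i j hij m => hmono i j m hij)
  obtain ⟨hst, -⟩ := hSG A S n g Ga hH
  obtain ⟨hT, hF, hCE⟩ := hst i₀
  have hPIh := fun h => hPI A S n g Ga hH h
  have hcl : ∀ h B, Pc n g h B → IsClosed[stg n g i₀ h] B := by
    intro h B hB
    obtain ⟨i, hi⟩ := (hPIh h).2.2.2.2.1 B hB
    rw [← h₀ (max i i₀) (le_max_right _ _)]
    exact closedMono_RS (hmono _ _ _ (le_max_left _ _)) hi
  have hop : ∀ h B, Pc n g (h + 1) B → IsOpen[stg n g i₀ h] B := by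
    intro h B hB
    obtain ⟨i, hi⟩ := (hPIh h).2.2.2.2.2.1 B hB
    rw [← h₀ (max i i₀) (le_max_right _ _)]
    exact (hmono _ _ _ (le_max_left _ _)) _ hi
  have hfT : ∀ M, M ≤ n → fT n g i₀ M = stg n g i₀ M := fun M hM => if_pos hM
  have hfT' : ∀ M, n < M → fT n g i₀ M = ⊤ := fun M hM => if_neg (by omega)
  refine ⟨i₀, ?_, ?_, h₀⟩
  swap
  · rw [hfT n le_rfl]
    exact hnt i₀ n le_rfl
  have hanti : ∀ M, PP n g (M + 1) ⊆ PP n g M := by
    intro M B hB
    cases M with
    | zero =>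
      refine ⟨fun _ => B, fun _ => (hPIh 0).2.1 B hB, ?_⟩
      rw [← inter_iUnion]
      have : (⋃ s : S, g ⁻¹' {s}) = univ := by
        ext t
        simp
      rw [this, inter_univ]
    | succ M => exact (hPIh (M + 1)).2.1 B hB
  have hcl' : ∀ M, M ≤ n → ∀ B ∈ PP n g M, IsClosed[fT n g i₀ M] B := by
    intro M hM B hB
    rw [hfT M hM]
    cases M with
    | zero =>
      obtain ⟨c, hc, rfl⟩ := hB
      refine @isClosed_iUnion_of_finite _ _ (stg n g i₀ 0) _ _ fun s => ?_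
      exact @IsClosed.inter _ _ _ (stg n g i₀ 0) (hcl 0 _ (hc s)) (hF s).1
    | succ M => exact hcl _ _ hB
  constructor
  case tow =>
    constructor
    · intro M
      by_cases hM : M + 1 ≤ n
      · rw [hfT _ hM, hfT M (by omega)]
        exact hT.mono M
      · rw [hfT' (M + 1) (by omega)]
        exact le_top
    · intro M
      by_cases hM : M ≤ n
      · rw [hfT _ hM]
        exact hT.zd M
      · rw [hfT' M (by omega)]
        exact zdTop_RS
  case fib =>
    intro s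
    rw [hfT 0 (Nat.zero_le _)]
    exact hF s
  case top => exact hfT'
  case anti => exact hanti
  case cl => exact hcl'
  case op =>
    intro M hM B hB
    rw [hfT M hM]
    exact hop M B hB
  case op0 =>
    intro B hB
    rw [hfT 0 (Nat.zero_le _)]
    obtain ⟨c, hc, rfl⟩ := hB
    refine @isOpen_iUnion _ _ (stg n g i₀ 0) _ fun s => ?_
    exact @IsOpen.inter _ (stg n g i₀ 0) _ _ (hop 0 _ (pc01_RS hSU (hc s))) (hF s).2
  case basis =>
    intro M hM x U hU hx
    rw [hfT M hM, (hSU A S n g).1 i₀ M] at hU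
    induction hU with
    | basic s hs =>
      refine ⟨s, ?_, hx, subset_rfl⟩
      rcases hs with ⟨u, a, rfl⟩ | ⟨F, ⟨N, hN, rfl⟩, u, rfl⟩
      · exact (hPIh (M + 1)).2.2.2.2.2.2 u a
      · exact (hPIh (M + 1)).2.2.2.1 _ (Pc.nm N i₀ hN) u
    | univ => exact ⟨univ, pcUniv_RS, hx, subset_rfl⟩
    | inter s t _ _ ihs iht =>
      obtain ⟨O, hO, hxO, hOs⟩ := ihs hx.1
      obtain ⟨O', hO', hxO', hOt⟩ := iht hx.2
      exact ⟨O ∩ O', (hPIh (M + 1)).1 _ _ hO hO', ⟨hxO, hxO'⟩, inter_subset_inter hOs hOt⟩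
    | sUnion T _ ih =>
      obtain ⟨s, hs, hxs⟩ := hx
      obtain ⟨O, hO, hxO, hOs⟩ := ih s hs hxs
      exact ⟨O, hO, hxO, hOs.trans (subset_sUnion_of_mem hs)⟩
  case cnt =>
    intro M
    cases M with
    | zero =>
      have h1 : {c : S → Set (Tre A) | ∀ s, c s ∈ {B | Pc n g 0 B}}.Countable :=
        Set.countable_pi (fun _ => (hPIh 0).2.2.1)
      refine (h1.image (fun c => ⋃ s, c s ∩ g ⁻¹' {s})).mono ?_
      rintro _ ⟨c, hc, rfl⟩
      exact ⟨c, hc, rfl⟩
    | succ M => exact (hPIh (M + 1)).2.2.1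
  case univ =>
    intro M
    cases M with
    | zero => exact hanti 0 pcUniv_RS
    | succ M => exact pcUniv_RS
  case empty =>
    intro M
    cases M with
    | zero => exact hanti 0 Pc.empty
    | succ M => exact Pc.empty
  case inter =>
    intro M B hB B' hB'
    cases M with
    | zero =>
      obtain ⟨c, hc, rfl⟩ := hB
      obtain ⟨c', hc', rfl⟩ := hB'
      refine ⟨fun s => c s ∩ c' s, fun s => (hPIh 0).1 _ _ (hc s) (hc' s), ?_⟩
      ext t
      simp only [mem_inter_iff, mem_iUnion, mem_preimage, mem_singleton_iff]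
      constructor
      · rintro ⟨⟨s, h1, h2⟩, ⟨s', h3, h4⟩⟩
        subst h2
        subst h4
        exact ⟨_, ⟨h1, h3⟩, rfl⟩
      · rintro ⟨s, ⟨h1, h3⟩, h2⟩
        exact ⟨⟨s, h1, h2⟩, ⟨s, h3, h2⟩⟩
    | succ M => exact (hPIh (M + 1)).1 _ _ hB hB'
  case union =>
    intro M B hB B' hB'
    cases M with
    | zero =>
      obtain ⟨c, hc, rfl⟩ := hB
      obtain ⟨c', hc', rfl⟩ := hB'
      refine ⟨fun s => c s ∪ c' s, fun s => Pc.union _ _ (hc s) (hc' s), ?_⟩
      rw [← iUnion_union_distrib]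
      refine iUnion_congr fun s => ?_
      rw [union_inter_distrib_right]
    | succ M => exact Pc.union _ _ hB hB'
  case clo =>
    intro M hM B hB
    rcases Nat.lt_or_ge n M with hnM | hMn
    · rw [hfT' M hnM]
      obtain ⟨M', rfl⟩ : ∃ M', M = M' + 1 := ⟨M - 1, by omega⟩
      rcases B.eq_empty_or_nonempty with rfl | hne
      · rw [@closure_empty _ ⊤]
        exact Pc.empty
      · have : closure[(⊤ : TopologicalSpace (Tre A))] B = univ := by
          have h1 : IsOpen[(⊤ : TopologicalSpace (Tre A))] (closure[(⊤ : TopologicalSpace (Tre A))] B)ᶜ :=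
            @IsClosed.isOpen_compl _ ⊤ _ (@isClosed_closure _ ⊤ B)
          rcases (TopologicalSpace.isOpen_top_iff _).1 h1 with h | h
          · exact compl_empty_iff.1 h
          · exfalso
            rw [compl_univ_iff] at h
            obtain ⟨t, ht⟩ := hne
            have := @subset_closure _ ⊤ B t ht
            rw [h] at this
            exact this
        rw [this]
        exact pcUniv_RS
    · cases M with
      | zero =>
        rw [@IsClosed.closure_eq _ (fT n g i₀ 0) _ (hcl' 0 hMn B hB)]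
        exact hB
      | succ M =>
        rw [hfT _ hMn]
        obtain ⟨c, hc, rfl⟩ := hB
        rw [@closure_iUnion_of_finite _ (stg n g i₀ (M + 1)) S _]
        refine pcUnion_RS _ fun s => ?_
        rw [inter_comm]
        exact pcClo_RS hSC hH h₀ hSUm hCE (M + 1) (by omega) hMn (hc s) s
  case fibP =>
    classical
    rintro B ⟨c, hc, rfl⟩ s
    refine ⟨fun s' => if s' = s then c s else ∅, fun s' => ?_, ?_⟩
    · dsimp only
      split_ifs
      · exact hc s
      · exact Pc.empty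
    · ext t
      simp only [mem_inter_iff, mem_iUnion, mem_preimage, mem_singleton_iff]
      constructor
      · rintro ⟨⟨s', h1, h2⟩, h3⟩
        have : s' = s := h2.symm.trans h3
        subst this
        exact ⟨s', by simpa using h1, h2⟩
      · rintro ⟨s', h1, h2⟩
        by_cases h : s' = s
        · subst h
          rw [if_pos rfl] at h1
          exact ⟨⟨s', h1, h2⟩, h2⟩
        · rw [if_neg h] at h1
          exact absurd h1 (by simp)
  case dd =>
    intro m hm L x B hB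
    rw [dLCongr_RS (fT n g i₀) (stg n g i₀) g m (fun k hk => hfT k (by omega)) L]
    exact pcDL_RS hIT hEZ hRD hPZ hPT hAD hTB hTP hFN hHA hZM hZA hH h₀ hSUm hT hF hCE m hm
      (hPIh (m + 1)).1 (hcl (m + 1)) hB L x
  case pol =>
    intro M hM
    rw [hfT M hM]
    exact hPL A S n g Ga hH i₀ M

end Pool.Agent.Helper24.WH

end

section

/-!
# PROJECT WH, module SO: soundness of the order of names
-/

set_option autoImplicit false

namespace Pool.Agent.Helper24.WH

open Set TopologicalSpace Topology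
open Ordinal hiding univ

/-- value of a tree -/
private def tv_SO {A S : Type} (n : ℕ) (g : Tre A → S) (l : Lab S) (kids : Nm S) : Set (Tre A) :=
  match l with
  | .base _ K => g ⁻¹' K
  | .cl M s j => closure[stg n g j M] (g ⁻¹' {s} ∩ vl n g kids)
  | .dd m L x j => iter (dL (stg n g j) g m L) (vl n g kids) (ω ^ (x : Ordinal.{0}))

/-- a tree is good -/
private def tg_SO {A S : Type} (n : ℕ) (g : Tre A → S) (l : Lab S) (kids : Nm S) (h : ℕ)
    (i : Ordinal.{0}) : Prop :=
  match l with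
  | .base M K => h ≤ M ∧ 1 ≤ M ∧ M ≤ n ∧ okb n g M K ∧ kids = .nil
  | .cl M _ j => h ≤ M ∧ 1 ≤ M ∧ M ≤ n ∧ j < i ∧ GN n g kids 0 j
  | .dd m _ _ j => h ≤ m + 1 ∧ m + 1 ≤ n ∧ j < i ∧ GN n g kids (m + 1) j

private theorem vl_cons_SO {A S : Type} (n : ℕ) (g : Tre A → S) (l : Lab S) (kids rest : Nm S) :
    vl n g (.cons l kids rest) = tv_SO n g l kids ∩ vl n g rest := by
  cases l <;> rfl

private theorem GN_cons_SO {A S : Type} (n : ℕ) (g : Tre A → S) (l : Lab S) (kids rest : Nm S)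
    (h : ℕ) (i : Ordinal.{0}) :
    GN n g (.cons l kids rest) h i ↔ tg_SO n g l kids h i ∧ GN n g rest h i := by
  cases l <;> simp only [GN, Good, tg_SO, and_assoc]

/-- the stage of a label is below `i` -/
private def sl_SO {S : Type} (l : Lab S) (i : Ordinal.{0}) : Prop :=
  match l with
  | .base _ _ => True
  | .cl _ _ j => j < i
  | .dd _ _ _ j => j < i

private theorem sl_mono_SO {S : Type} (l : Lab S) (i i' : Ordinal.{0}) (h : i ≤ i')
    (hl : sl_SO l i) : sl_SO l i' := by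
  cases l with
  | base M K => trivial
  | cl M s j => exact lt_of_lt_of_le hl h
  | dd m L x j => exact lt_of_lt_of_le hl h

private theorem sl_of_le_SO {A S : Type} (n : ℕ) (g : Tre A → S) (l l' : Lab S) (kids' : Nm S)
    (h' : ℕ) (i' : Ordinal.{0}) (hll : Lab.Le l l') (hg : tg_SO n g l' kids' h' i') :
    sl_SO l i' := by
  cases hll with
  | base M K => trivial
  | cl M s j j' hj => exact lt_of_le_of_lt hj hg.2.2.2.1
  | dd m L L' x x' j j' _ _ hj => exact lt_of_le_of_lt hj hg.2.2.1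

private theorem find_sl_SO {A S : Type} (n : ℕ) (g : Tre A → S) (l : Lab S) (P : Nm S → Prop)
    (N' : Nm S) : ∀ (h' : ℕ) (i' : Ordinal.{0}), GN n g N' h' i' →
      Fo.FindT Lab.Le Lab.ht l P N' → sl_SO l i' := by
  induction N' with
  | nil => intro h' i' _ hf; exact hf.elim
  | leaf a rest ih => exact a.elim
  | cons l' kids' rest' ihk ihr =>
    intro h' i' hG hf
    rw [GN_cons_SO] at hG
    rcases hf with ⟨hll, _⟩ | ⟨_, hf⟩ | hf
    · exact sl_of_le_SO n g l l' kids' h' i' hll hG.1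
    · cases l' with
      | base M K =>
        have : kids' = .nil := hG.1.2.2.2.2
        rw [this] at hf
        exact hf.elim
      | cl M s j =>
        have hj : j < i' := hG.1.2.2.2.1
        exact sl_mono_SO l j i' hj.le (ihk 0 j hG.1.2.2.2.2 hf)
      | dd m L x j =>
        have hj : j < i' := hG.1.2.2.1
        exact sl_mono_SO l j i' hj.le (ihk (m + 1) j hG.1.2.2.2 hf)
    · exact ihr h' i' hG.2 hf

/-- a good tree stays good after lowering the height and changing the stage -/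
private theorem tg_change_SO {A S : Type} (n : ℕ) (g : Tre A → S) (l : Lab S) (kids : Nm S)
    (h : ℕ) (i : Ordinal.{0}) (hg : tg_SO n g l kids h i) (h' : ℕ) (hh : h' ≤ l.ht)
    (i' : Ordinal.{0}) (hs : sl_SO l i') : tg_SO n g l kids h' i' := by
  cases l with
  | base M K => exact ⟨hh, hg.2.1, hg.2.2.1, hg.2.2.2.1, hg.2.2.2.2⟩
  | cl M s j => exact ⟨hh, hg.2.1, hg.2.2.1, hs, hg.2.2.2.2⟩
  | dd m L x j => exact ⟨hh, hg.2.1, hs, hg.2.2.2⟩

/-- match -/
private theorem match_SO (hSU : StSU) {A S : Type} [Finite A] [Finite S] (n : ℕ)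
    (g : Tre A → S) (l l' : Lab S) (kids kids' : Nm S) (hll : Lab.Le l l')
    (hk : vl n g kids' ⊆ vl n g kids) : tv_SO n g l' kids' ⊆ tv_SO n g l kids := by
  obtain ⟨-, -, -, hmono, -⟩ := hSU A S n g
  cases hll with
  | base M K => exact Subset.rfl
  | cl M s j j' hj =>
    have h1 : stg n g j' M ≤ stg n g j M := hmono j j' M hj
    show closure[stg n g j' M] (g ⁻¹' {s} ∩ vl n g kids') ⊆
      closure[stg n g j M] (g ⁻¹' {s} ∩ vl n g kids)
    refine @closure_minimal _ (stg n g j' M) _ _ ?_ ?_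
    · refine Subset.trans (inter_subset_inter_right _ hk) ?_
      exact @subset_closure _ (stg n g j M) _
    · exact IsClosed.mono (@isClosed_closure _ (stg n g j M) _) h1
  | dd m L L' x x' j j' hL hx hj =>
    have h1 : ∀ M, stg n g j' M ≤ stg n g j M := fun M => hmono j j' M hj
    obtain ⟨-, -, hdL, -⟩ := hZA (Tre A) S (stg n g j) g m
    obtain ⟨-, hdLf, -⟩ := hZF (Tre A) S (stg n g j) (stg n g j') g h1 m
    have hmonoH : ∀ (τ : ℕ → TopologicalSpace (Tre A)) (L : ℕ → TT S m) (P Q : Set (Tre A)),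
        P ⊆ Q → dL τ g m L P ⊆ dL τ g m L Q := by
      intro τ L P Q hPQ
      refine iInter_mono fun k => ?_
      obtain ⟨-, -, -, hZm⟩ := hZA (Tre A) S τ g m
      refine sUnion_subset fun W hW => ?_
      exact subset_sUnion_of_mem (⟨hW.1.trans hPQ, hW.2⟩ : _ ∧ _)
    have hleH : ∀ (τ : ℕ → TopologicalSpace (Tre A)) (L : ℕ → TT S m) (P : Set (Tre A)),
        dL τ g m L P ⊆ P := by
      intro τ L P
      refine (iInter_subset _ 0).trans ?_
      exact sUnion_subset fun W hW => hW.1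
    have hsub : ∀ P : Set (Tre A), dL (stg n g j') g m L' P ⊆ dL (stg n g j) g m L P :=
      fun P => (hdLf L' P).trans (hdL L L' hL P)
    obtain ⟨-, -, hanti, hmon, -, -, -, -, -, hlast⟩ :=
      hIT (Tre A) (dL (stg n g j) g m L) (hmonoH _ _) (hleH _ _)
    show iter (dL (stg n g j') g m L') (vl n g kids') (ω ^ (x' : Ordinal.{0})) ⊆
      iter (dL (stg n g j) g m L) (vl n g kids) (ω ^ (x : Ordinal.{0}))
    refine (hlast (dL (stg n g j') g m L') hsub _ _).trans ?_
    refine (hmon _ _ _ hk).trans ?_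
    apply hanti
    exact Ordinal.opow_le_opow_right Ordinal.omega0_pos (by exact_mod_cast hx)

/-- found trees -/
private theorem find_SO (hSG : StSG) (hSU : StSU) {A S : Type} [Finite A] [Finite S] (n : ℕ)
    (g : Tre A → S) (Ga : A → S × S → S) (hyp : Hyp n g Ga) (l : Lab S) (kids : Nm S)
    (h : ℕ) (i : Ordinal.{0}) (hgl : tg_SO n g l kids h i)
    (ih : ∀ (N' : Nm S) (h' : ℕ) (i' : Ordinal.{0}), GN n g N' h' i' → Nm.Emb kids N' →
      vl n g N' ⊆ vl n g kids) (N' : Nm S) :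
    ∀ (h' : ℕ) (i' : Ordinal.{0}), GN n g N' h' i' →
      Fo.FindT Lab.Le Lab.ht l (Fo.Emb Lab.Le (fun _ _ => True) Lab.ht kids) N' →
      vl n g N' ⊆ tv_SO n g l kids := by
  induction N' with
  | nil => intro h' i' _ hf; exact hf.elim
  | leaf a rest ih => exact a.elim
  | cons l' kids' rest' ihk ihr =>
    intro h' i' hG hf
    rw [GN_cons_SO] at hG
    rw [vl_cons_SO]
    rcases hf with ⟨hll, hE⟩ | ⟨hht, hf⟩ | hf
    · refine inter_subset_left.trans ?_
      apply match_SO hSU n g l l' kids kids' hll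
      cases l' with
      | base M K =>
        have hkn : kids' = .nil := hG.1.2.2.2.2
        exact ih kids' 0 0 (by rw [hkn]; trivial) hE
      | cl M s j => exact ih kids' 0 j hG.1.2.2.2.2 hE
      | dd m L x j => exact ih kids' (m + 1) j hG.1.2.2.2 hE
    · refine inter_subset_left.trans ?_
      cases l' with
      | base M K =>
        have : kids' = .nil := hG.1.2.2.2.2
        rw [this] at hf
        exact hf.elim
      | cl M s j =>
        have hGk : GN n g kids' 0 j := hG.1.2.2.2.2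
        have hsub : vl n g kids' ⊆ tv_SO n g l kids := ihk 0 j hGk hf
        have hs : sl_SO l j := find_sl_SO n g l _ kids' 0 j hGk hf
        have htg : tg_SO n g l kids M j := tg_change_SO n g l kids h i hgl M hht j hs
        have hGt : GN n g (.cons l kids .nil) M j := by
          rw [GN_cons_SO]
          exact ⟨htg, trivial⟩
        have hcl : IsClosed[stg n g j M] (vl n g (.cons l kids .nil)) :=
          ((hSG A S n g Ga hyp).2 _ M j hGt).1
        rw [vl_cons_SO] at hcl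
        have hval : tv_SO n g l kids ∩ vl n g (Fo.nil : Nm S) = tv_SO n g l kids := by
          show tv_SO n g l kids ∩ univ = tv_SO n g l kids
          exact inter_univ _
        rw [hval] at hcl
        show closure[stg n g j M] (g ⁻¹' {s} ∩ vl n g kids') ⊆ tv_SO n g l kids
        exact @closure_minimal _ (stg n g j M) _ _ (inter_subset_right.trans hsub) hcl
      | dd m L x j =>
        have hGk : GN n g kids' (m + 1) j := hG.1.2.2.2
        have hsub : vl n g kids' ⊆ tv_SO n g l kids := ihk (m + 1) j hGk hf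
        refine Subset.trans ?_ hsub
        show iter (dL (stg n g j) g m L) (vl n g kids') (ω ^ (x : Ordinal.{0})) ⊆ vl n g kids'
        rw [iter]
        exact inter_subset_left
    · exact inter_subset_right.trans (ihr h' i' hG.2 hf)

theorem hSO (hSG : StSG) (hSU : StSU) : StSO := by
  intro A S _ _ n g Ga hyp N
  induction N with
  | nil => intro N' h h' i i' _ _ _; exact subset_univ _
  | leaf a rest ih => exact a.elim
  | cons l kids rest ihk ihr =>
    intro N' h h' i i' hG hG' hE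
    rw [GN_cons_SO] at hG
    obtain ⟨hf, hE⟩ := hE
    rw [vl_cons_SO]
    apply subset_inter
    · have hGk : ∃ hk ik, GN n g kids hk ik := by
        cases l with
        | base M K =>
          have hkn : kids = .nil := hG.1.2.2.2.2
          exact ⟨0, 0, by rw [hkn]; trivial⟩
        | cl M s j => exact ⟨0, j, hG.1.2.2.2.2⟩
        | dd m L x j => exact ⟨m + 1, j, hG.1.2.2.2⟩
      obtain ⟨hk, ik, hGk⟩ := hGk
      exact find_SO hSG hSU n g Ga hyp l kids h i hG.1
        (fun N'' h'' i'' hG'' hE'' => ihk N'' hk h'' ik i'' hGk hG'' hE'') N' h' i' hG' hf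
    · exact ihr N' h h' i i' hG.2 hG' hE

end Pool.Agent.Helper24.WH

end
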