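import Pool.Agent.Helper24.WH.St1
import Pool.Agent.Helper24.WH.St4
import Pool.Agent.Helper24.WH.St5
import Pool.Agent.Helper24.WH.St6
import Pool.Agent.Helper24.WH.St7

set_option autoImplicit false

section

/-!
# WH module AD: additivity of a derivation
-/

set_option autoImplicit false

namespace Pool.Agent.Helper24.WH

open Set TopologicalSpace Ordinal Topology

/-- rank relation: `0` outside `B`, `1 + b` if the point leaves at stage `b + 1` -/
private def RAD {X : Type} (d : Set X → Set X) (B : Set X) (z : X) (a : Ordinal.{0}) : Prop :=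
  (a = 0 ∧ z ∉ B) ∨ ∃ b, a = 1 + b ∧ z ∈ iter d B b ∧ z ∉ iter d B (b + 1)

/-- a point which is not in `iter d B (c + 1)` or not in `B` has a rank -/
private lemma exists_rank_AD (hIT : StIT) {X : Type} (d : Set X → Set X)
    (hm : ∀ A B, A ⊆ B → d A ⊆ d B) (hl : ∀ B, d B ⊆ B) (B : Set X) (z : X) (c : Ordinal.{0})
    (hz : z ∉ iter d B c) : (z ∉ B ∧ RAD d B z 0) ∨ ∃ b, b < c ∧ RAD d B z (1 + b) := by
  obtain ⟨h0, hs, hanti, -, -, -, hlim, -, -, -⟩ := hIT X d hm hl
  by_cases hB : z ∈ B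
  · right
    have hex : ∃ α, z ∉ iter d B α := ⟨c, hz⟩
    obtain ⟨α, hα, hmin⟩ := WellFounded.has_min (wellFounded_lt : WellFounded (α := Ordinal.{0}) (· < ·))
      {α | z ∉ iter d B α} hex
    have hmin' : ∀ β, β < α → z ∈ iter d B β := by
      intro β hβ
      by_contra h
      exact hmin β h hβ
    rcases zero_or_succ_or_isSuccLimit α with h | ⟨b, h⟩ | h
    · exfalso
      apply hα
      rw [h, h0]
      exact hB
    · rw [Order.succ_eq_add_one] at h
      have hb : b < α := by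
        rw [← h]
        exact Order.lt_add_one_iff.mpr le_rfl
      refine ⟨b, ?_, Or.inr ⟨b, rfl, hmin' b hb, ?_⟩⟩
      · by_contra hc
        have h1 : c < α := lt_of_le_of_lt (not_lt.mp hc) hb
        exact hz (hmin' c h1)
      · rw [h]
        exact hα
    · exfalso
      apply hα
      rw [hlim B α h]
      exact mem_iInter.mpr fun β => hmin' β.1 β.2
  · exact Or.inl ⟨hB, Or.inl ⟨rfl, hB⟩⟩

/-- neighbourhood on which the rank is at most the rank of `z` -/
private lemma nhd_AD (hIT : StIT) (hIL : StIL) {X : Type} (τ : TopologicalSpace X)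
    (d : Set X → Set X) (hd : IsDer τ d) (B : Set X) (hB : IsClosed[τ] B) (z : X) (a : Ordinal.{0})
    (hz : RAD d B z a) : ∃ U : Set X, IsOpen[τ] U ∧ z ∈ U ∧ ∀ w ∈ U, ∃ a' ≤ a, RAD d B w a' := by
  rcases hz with ⟨ha, hz⟩ | ⟨b, ha, hz1, hz2⟩
  · refine ⟨Bᶜ, ?_, hz, ?_⟩
    · exact (@isOpen_compl_iff X B τ).mpr hB
    · intro w hw
      exact ⟨0, zero_le, Or.inl ⟨rfl, hw⟩⟩
  · have hcl : IsClosed[τ] (iter d B (b + 1)) := (hIL X τ d hd (b + 1)).closed B hB
    refine ⟨(iter d B (b + 1))ᶜ, ?_, hz2, ?_⟩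
    · exact (@isOpen_compl_iff X _ τ).mpr hcl
    · intro w hw
      rcases exists_rank_AD hIT d hd.mono hd.le B w (b + 1) hw with ⟨-, h⟩ | ⟨b', hb', h⟩
      · exact ⟨0, zero_le, h⟩
      · refine ⟨1 + b', ?_, h⟩
        rw [ha]
        exact add_le_add_right (Order.lt_add_one_iff.mp hb') 1

/-- two ranks: the second alternative determines the stage -/
private lemma rank_mem_AD {X : Type} (d : Set X → Set X) (B : Set X) (z : X) (b : Ordinal.{0})
    (hz : RAD d B z (1 + b)) : z ∈ iter d B b := by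
  rcases hz with ⟨h, -⟩ | ⟨b', h, h1, -⟩
  · exfalso
    have h1 : (1 : Ordinal.{0}) ≤ 1 + b := le_self_add
    rw [h] at h1
    exact absurd h1 (not_le.mpr zero_lt_one)
  · have : b = b' := add_left_cancel h
    rw [this]
    exact h1

private lemma rank_pos_AD {X : Type} (d : Set X → Set X) (B : Set X) (z : X) (a : Ordinal.{0})
    (hB : z ∈ B) (hz : RAD d B z a) :
    ∃ b, a = 1 + b ∧ z ∈ iter d B b ∧ z ∉ iter d B (b + 1) := by
  rcases hz with ⟨-, h⟩ | h
  · exact absurd hB h
  · exact h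

/-- Module AD. -/
theorem hAD (hIT : StIT) (hIL : StIL) (hNS : StNS) : StAD := by
  intro X τ hZD d hd B₁ B₂ x hB₁ hB₂ hx
  obtain ⟨h0, hs, hanti, hmono, -, hsub, hlim, -, -, -⟩ := hIT X d hd.mono hd.le
  obtain ⟨N, hN1, hN2, hN3⟩ := hNS
  have hN1' : ∀ a a' b, a ≤ a' → N a b ≤ N a' b := by
    intro a a' b h
    rcases h.eq_or_lt with h | h
    · rw [h]
    · exact (hN1 a a' b h).le
  have hN2' : ∀ a b b', b ≤ b' → N a b ≤ N a b' := by
    intro a b b' h
    rcases h.eq_or_lt with h | h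
    · rw [h]
    · exact (hN2 a b b' h).le
  have claim : ∀ (β : Ordinal.{0}) (z : X), z ∈ iter d (B₁ ∪ B₂) β → ∀ a₁ a₂,
      RAD d B₁ z a₁ → RAD d B₂ z a₂ → 1 + β ≤ N a₁ a₂ := by
    intro β
    induction β using Ordinal.limitRecOn with
    | zero =>
      intro z hz a₁ a₂ h₁ h₂
      rw [add_zero]
      have hone : ∀ b : Ordinal.{0}, 0 < 1 + b := fun b =>
        lt_of_lt_of_le zero_lt_one le_self_add
      rw [h0] at hz
      rcases hz with hz | hz
      · obtain ⟨b, hb, -, -⟩ := rank_pos_AD d B₁ z a₁ hz h₁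
        have h3 : N 0 a₂ < N a₁ a₂ := by
          rw [hb]
          exact hN1 _ _ _ (hone b)
        exact Order.one_le_iff_pos.mpr (lt_of_le_of_lt (zero_le) h3)
      · obtain ⟨b, hb, -, -⟩ := rank_pos_AD d B₂ z a₂ hz h₂
        have h3 : N a₁ 0 < N a₁ a₂ := by
          rw [hb]
          exact hN2 _ _ _ (hone b)
        exact Order.one_le_iff_pos.mpr (lt_of_le_of_lt (zero_le) h3)
    | add_one β ih =>
      intro z hz a₁ a₂ h₁ h₂
      have hzβ : z ∈ iter d (B₁ ∪ B₂) β := hanti _ _ _ le_self_add hz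
      have hle := ih z hzβ a₁ a₂ h₁ h₂
      rw [← add_assoc]
      refine Order.add_one_le_of_lt (lt_of_le_of_ne hle ?_)
      intro heq
      obtain ⟨U₁, hU₁, hzU₁, hU₁'⟩ := nhd_AD hIT hIL τ d hd B₁ hB₁ z a₁ h₁
      obtain ⟨U₂, hU₂, hzU₂, hU₂'⟩ := nhd_AD hIT hIL τ d hd B₂ hB₂ z a₂ h₂
      obtain ⟨O, hO, hzO, hOU⟩ := hZD z (U₁ ∩ U₂) (@IsOpen.inter X τ U₁ U₂ hU₁ hU₂) ⟨hzU₁, hzU₂⟩
      have key : ∀ w ∈ iter d (B₁ ∪ B₂) β ∩ O, RAD d B₁ w a₁ ∧ RAD d B₂ w a₂ := by
        intro w hw
        obtain ⟨a₁', ha₁, hr₁⟩ := hU₁' w (hOU hw.2).1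
        obtain ⟨a₂', ha₂, hr₂⟩ := hU₂' w (hOU hw.2).2
        have h4 := ih w hw.1 a₁' a₂' hr₁ hr₂
        have e₁ : a₁' = a₁ := by
          by_contra hne
          have h5 : N a₁' a₂' < N a₁ a₂ :=
            lt_of_lt_of_le (hN1 _ _ _ (lt_of_le_of_ne ha₁ hne)) (hN2' _ _ _ ha₂)
          exact absurd (lt_of_le_of_lt h4 h5) (by rw [heq]; exact lt_irrefl _)
        have e₂ : a₂' = a₂ := by
          by_contra hne
          have h5 : N a₁' a₂' < N a₁ a₂ :=
            lt_of_lt_of_le (hN2 _ _ _ (lt_of_le_of_ne ha₂ hne)) (hN1' _ _ _ ha₁)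
          exact absurd (lt_of_le_of_lt h4 h5) (by rw [heq]; exact lt_irrefl _)
        rw [e₁] at hr₁
        rw [e₂] at hr₂
        exact ⟨hr₁, hr₂⟩
      have hzd : z ∈ d (iter d (B₁ ∪ B₂) β ∩ O) := by
        rw [hd.loc O _ hO]
        refine ⟨?_, hzO⟩
        rw [hs] at hz
        exact hz
      have fin : ∀ (B : Set X) (a : Ordinal.{0}), z ∈ B → RAD d B z a →
          (∀ w ∈ iter d (B₁ ∪ B₂) β ∩ O, RAD d B w a) → False := by
        intro B a hzB hr hall
        obtain ⟨b, hb, -, hb2⟩ := rank_pos_AD d B z a hzB hr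
        have h6 : iter d (B₁ ∪ B₂) β ∩ O ⊆ iter d B b := by
          intro w hw
          have h7 := hall w hw
          rw [hb] at h7
          exact rank_mem_AD d B w b h7
        apply hb2
        rw [hs]
        exact hd.mono _ _ h6 hzd
      rcases hsub _ _ hz with hzB | hzB
      · exact fin B₁ a₁ hzB h₁ fun w hw => (key w hw).1
      · exact fin B₂ a₂ hzB h₂ fun w hw => (key w hw).2
    | limit β hβ ih =>
      intro z hz a₁ a₂ h₁ h₂
      rw [add_le_iff_of_isSuccLimit hβ]
      intro γ hγ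
      exact ih γ hγ z (hanti _ _ _ hγ.le hz) a₁ a₂ h₁ h₂
  apply Subset.antisymm
  · intro y hy
    by_contra hcon
    rw [mem_union, not_or] at hcon
    have h1x : (1 : Ordinal.{0}) < ω ^ x := by
      calc (1 : Ordinal.{0}) < ω := one_lt_omega0
        _ = ω ^ (1 : Ordinal.{0}) := (opow_one _).symm
        _ ≤ ω ^ x := opow_le_opow_right omega0_pos hx
    have hrank : ∀ B : Set X, y ∉ iter d B (ω ^ x) → ∃ a < ω ^ x, RAD d B y a := by
      intro B hB
      rcases exists_rank_AD hIT d hd.mono hd.le B y (ω ^ x) hB with ⟨-, h⟩ | ⟨b, hb, h⟩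
      · exact ⟨0, lt_trans zero_lt_one h1x, h⟩
      · exact ⟨1 + b, isPrincipal_add_omega0_opow x h1x hb, h⟩
    obtain ⟨a₁, ha₁, hr₁⟩ := hrank B₁ hcon.1
    obtain ⟨a₂, ha₂, hr₂⟩ := hrank B₂ hcon.2
    have h8 := claim (ω ^ x) y hy a₁ a₂ hr₁ hr₂
    have h9 := hN3 x a₁ a₂ ha₁ ha₂
    have h10 : ω ^ x ≤ 1 + ω ^ x := le_add_self
    exact absurd (lt_of_le_of_lt (h10.trans h8) h9) (lt_irrefl _)
  · exact union_subset (hmono _ _ _ subset_union_left) (hmono _ _ _ subset_union_right)

end Pool.Agent.Helper24.WH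

end

section

/-!
# PROJECT WH, module BT: trees over a better quasi order
-/

set_option autoImplicit false

namespace Pool.Agent.Helper24.WH

open Set TopologicalSpace Ordinal Topology

private theorem cont_sh_BT : Continuous Inc.sh := by
  refine continuous_induced_rng.2 ?_
  refine continuous_pi fun n => ?_
  exact (continuous_apply (n + 1)).comp continuous_induced_dom

/-- the child number `i` (a leaf is its own child) -/
private def chd_BT {A : Type} (i : ℕ) : Tr A → Tr A
  | .leaf a => .leaf a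
  | .node _ F => F i

open Classical in
/-- one step of the tree argument -/
private noncomputable def stp_BT {A : Type} (r : A → A → Prop) (t u : Tr A) : Tr A :=
  if h : r t.lab u.lab ∧ ∃ i, ¬ Tr.Le r (chd_BT i t) u then chd_BT (Nat.find h.2) t else t

private theorem stp_eq_BT {A : Type} (r : A → A → Prop) (t u : Tr A) :
    stp_BT r t u = t ∨ ∃ i, stp_BT r t u = chd_BT i t := by
  classical
  unfold stp_BT
  split_ifs with h
  · exact Or.inr ⟨_, rfl⟩
  · exact Or.inl rfl

private theorem child_ex_BT {A : Type} (r : A → A → Prop) (t u : Tr A) (h : ¬ Tr.Le r t u)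
    (hl : r t.lab u.lab) : (∃ a F, t = Tr.node a F) ∧ ∃ i, ¬ Tr.Le r (chd_BT i t) u := by
  cases t with
  | leaf a => exact absurd (Tr.Le.leaf a u hl) h
  | node a F =>
    refine ⟨⟨a, F, rfl⟩, ?_⟩
    by_contra hcon
    push Not at hcon
    exact h (Tr.Le.node a F u hl fun i => hcon i)

private theorem stp_not_BT {A : Type} (r : A → A → Prop) (t u : Tr A) (h : ¬ Tr.Le r t u) :
    ¬ Tr.Le r (stp_BT r t u) u := by
  classical
  unfold stp_BT
  split_ifs with h1
  · exact Nat.find_spec h1.2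
  · exact h

private theorem le_chd_BT {A : Type} (r : A → A → Prop) (s u : Tr A) (i : ℕ)
    (h : Tr.Le r s (chd_BT i u)) : Tr.Le r s u := by
  cases u with
  | leaf a => exact h
  | node a F => exact Tr.Le.sub s a F i h

/-- no tree is its own child -/
private theorem irr_BT {A : Type} : ∀ (t : Tr A) (a : A) (F : ℕ → Tr A) (i : ℕ), t = Tr.node a F → F i ≠ t := by
  intro t
  induction t with
  | leaf b =>
    intro a F i h
    exact absurd h (by simp)
  | node b G ih =>
    intro a F i h hF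
    injection h with h1 h2
    subst h1
    subst h2
    exact ih i b G i hF rfl

/-- a sequence which moves to children is eventually constant -/
private theorem lim_BT {A : Type} : ∀ (t : Tr A) (x : ℕ → Tr A), x 0 = t →
    (∀ k, x (k + 1) = x k ∨ ∃ i, x (k + 1) = chd_BT i (x k)) → ∃ K, ∀ k ≥ K, x k = x K := by
  intro t
  induction t with
  | leaf b =>
    intro x h0 hx
    refine ⟨0, fun k _ => ?_⟩
    induction k with
    | zero => rfl
    | succ k ih =>
      have ih' : x k = x 0 := ih (Nat.zero_le _)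
      rcases hx k with h | ⟨i, h⟩
      · rw [h, ih']
      · rw [h, ih', h0]
        rfl
  | node b G ih =>
    intro x h0 hx
    by_cases hall : ∀ k, x k = Tr.node b G
    · exact ⟨0, fun k _ => by rw [hall k, hall 0]⟩
    · push Not at hall
      classical
      have hm := Nat.find_spec hall
      obtain ⟨m, hm1⟩ : ∃ m, Nat.find hall = m + 1 := by
        rcases Nat.eq_zero_or_eq_succ_pred (Nat.find hall) with h | h
        · rw [h] at hm
          exact absurd h0 hm
        · exact ⟨_, h⟩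
      have hmin : x m = Tr.node b G := by
        have := Nat.find_min hall (m := m) (by omega)
        push Not at this
        exact this
      rw [hm1] at hm
      rcases hx m with h | ⟨i, h⟩
      · exact absurd (h.trans hmin) hm
      · rw [hmin] at h
        have h' : x (m + 1) = G i := h
        obtain ⟨K, hK⟩ := ih i (fun k => x (m + 1 + k)) h' (fun k => hx (m + 1 + k))
        refine ⟨m + 1 + K, fun k hk => ?_⟩
        have h9 : x (m + 1 + (k - (m + 1))) = x (m + 1 + K) := hK (k - (m + 1)) (by omega)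
        rw [show m + 1 + (k - (m + 1)) = k by omega] at h9
        exact h9

/-- the arrays of the argument -/
private noncomputable def cs_BT {A : Type} (r : A → A → Prop) (c : Inc → Tr A) : ℕ → Inc → Tr A
  | 0 => c
  | (k + 1) => fun X => stp_BT r (cs_BT r c k X) (cs_BT r c k X.sh)

/-- iterated children -/
private def D_BT {A : Type} (S : Set (Tr A)) : ℕ → Set (Tr A)
  | 0 => S
  | (k + 1) => D_BT S k ∪ ⋃ i, chd_BT i '' D_BT S k

private theorem D_count_BT {A : Type} (S : Set (Tr A)) (hS : S.Countable) : ∀ k, (D_BT S k).Countable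
  | 0 => hS
  | (k + 1) => (D_count_BT S hS k).union (countable_iUnion fun _ => (D_count_BT S hS k).image _)

private theorem cs_mem_BT {A : Type} (r : A → A → Prop) (c : Inc → Tr A) : ∀ k X,
    cs_BT r c k X ∈ D_BT (range c) k
  | 0, X => ⟨X, rfl⟩
  | (k + 1), X => by
      have h := cs_mem_BT r c k X
      rcases stp_eq_BT r (cs_BT r c k X) (cs_BT r c k X.sh) with h1 | ⟨i, h1⟩
      · left
        show stp_BT r (cs_BT r c k X) (cs_BT r c k X.sh) ∈ _
        rw [h1]
        exact h
      · right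
        show stp_BT r (cs_BT r c k X) (cs_BT r c k X.sh) ∈ _
        rw [h1]
        exact mem_iUnion.2 ⟨i, mem_image_of_mem _ h⟩

private theorem cs_meas_BT {A : Type} (r : A → A → Prop) (c : Inc → Tr A) (hc : (range c).Countable)
    (hm : ∀ q, MeasurableSet (c ⁻¹' {q})) : ∀ k q, MeasurableSet (cs_BT r c k ⁻¹' {q})
  | 0, q => hm q
  | (k + 1), q => by
      have ih := cs_meas_BT r c hc hm k
      have hset : cs_BT r c (k + 1) ⁻¹' {q} =
          ⋃ p ∈ {p : Tr A × Tr A | (p.1 ∈ D_BT (range c) k ∧ p.2 ∈ D_BT (range c) k) ∧ stp_BT r p.1 p.2 = q},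
            (cs_BT r c k ⁻¹' {p.1}) ∩ Inc.sh ⁻¹' (cs_BT r c k ⁻¹' {p.2}) := by
        ext X
        simp only [mem_preimage, mem_singleton_iff, mem_ofPred_eq, mem_iUnion, mem_inter_iff, exists_prop,
          Prod.exists]
        constructor
        · intro h
          exact ⟨cs_BT r c k X, cs_BT r c k X.sh, ⟨⟨cs_mem_BT r c k X, cs_mem_BT r c k X.sh⟩, h⟩, rfl, rfl⟩
        · rintro ⟨t, u, ⟨_, h1⟩, h2, h3⟩
          show stp_BT r (cs_BT r c k X) (cs_BT r c k X.sh) = q
          rw [h2, h3, h1]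
      rw [hset]
      refine MeasurableSet.biUnion ?_ fun p _ => (ih p.1).inter (cont_sh_BT.measurable (ih p.2))
      refine Set.Countable.mono ?_ ((D_count_BT _ hc k).prod (D_count_BT _ hc k))
      rintro p ⟨h1, _⟩
      exact mem_prod.2 h1

private theorem cs_bad_BT {A : Type} (r : A → A → Prop) (c : Inc → Tr A)
    (hb : ∀ X : Inc, ¬ Tr.Le r (c X) (c X.sh)) : ∀ k X, ¬ Tr.Le r (cs_BT r c k X) (cs_BT r c k X.sh)
  | 0, X => hb X
  | (k + 1), X => by
      intro h
      have h1 := stp_not_BT r _ _ (cs_bad_BT r c hb k X)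
      apply h1
      change Tr.Le r (stp_BT r (cs_BT r c k X) (cs_BT r c k X.sh))
        (stp_BT r (cs_BT r c k X.sh) (cs_BT r c k X.sh.sh)) at h
      rcases stp_eq_BT r (cs_BT r c k X.sh) (cs_BT r c k X.sh.sh) with h2 | ⟨i, h2⟩
      · rw [h2] at h
        exact h
      · rw [h2] at h
        exact le_chd_BT r _ _ i h

/-- trees over a better quasi order -/
theorem hBT : StBT := by
  intro A r _ _ hr c hc hm
  by_contra hcon
  push Not at hcon
  have hbad := cs_bad_BT r c hcon
  -- the limit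
  have hlim : ∀ X, ∃ K, ∀ k ≥ K, cs_BT r c k X = cs_BT r c K X := by
    intro X
    exact lim_BT _ (fun k => cs_BT r c k X) rfl (fun k => stp_eq_BT r _ _)
  choose K hK using hlim
  set ci : Inc → Tr A := fun X => cs_BT r c (K X) X with hci
  have hci1 : ∀ X, ∀ k ≥ K X, cs_BT r c k X = ci X := fun X k hk => hK X k hk
  have hnr : ∀ X : Inc, ¬ r (ci X).lab (ci X.sh).lab := by
    intro X hX
    set k := max (K X) (K X.sh) with hk
    have e1 : cs_BT r c k X = ci X := hci1 X k (le_max_left _ _)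
    have e2 : cs_BT r c k X.sh = ci X.sh := hci1 X.sh k (le_max_right _ _)
    have e3 : cs_BT r c (k + 1) X = ci X := hci1 X (k + 1) ((le_max_left _ _).trans (Nat.le_succ _))
    have e4 : stp_BT r (ci X) (ci X.sh) = ci X := by
      rw [← e1, ← e2]
      rw [← e1] at e3
      exact e3
    have hb : ¬ Tr.Le r (ci X) (ci X.sh) := by
      rw [← e1, ← e2]
      exact hbad k X
    obtain ⟨⟨a, F, hF⟩, hi⟩ := child_ex_BT r _ _ hb hX
    classical
    have h5 : stp_BT r (ci X) (ci X.sh) = chd_BT (Nat.find hi) (ci X) := by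
      unfold stp_BT
      rw [dif_pos ⟨hX, hi⟩]
    rw [h5] at e4
    have h6 : ∀ n, chd_BT n (ci X) = F n := by
      intro n
      rw [hF]
      rfl
    exact irr_BT (ci X) a F (Nat.find hi) hF ((h6 _).symm.trans e4)
  -- countable range
  have hDc : (⋃ k, D_BT (range c) k).Countable := countable_iUnion fun k => D_count_BT _ hc k
  have hciD : ∀ X, ci X ∈ ⋃ k, D_BT (range c) k := fun X => mem_iUnion.2 ⟨K X, cs_mem_BT r c (K X) X⟩
  have hcim : ∀ q, MeasurableSet (ci ⁻¹' {q}) := by
    intro q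
    have hset : ci ⁻¹' {q} = ⋃ n : ℕ, ⋂ j : ℕ, cs_BT r c (n + j) ⁻¹' {q} := by
      ext X
      simp only [mem_preimage, mem_singleton_iff, mem_iUnion, mem_iInter]
      constructor
      · intro h
        exact ⟨K X, fun j => by rw [hci1 X (K X + j) (Nat.le_add_right _ _)]; exact h⟩
      · rintro ⟨n, h⟩
        rw [← hci1 X (n + K X) (Nat.le_add_left _ _)]
        exact h (K X)
    rw [hset]
    exact MeasurableSet.iUnion fun n => MeasurableSet.iInter fun j => cs_meas_BT r c hc hm (n + j) q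
  obtain ⟨X, hX⟩ := hr (fun X => (ci X).lab) (by
      refine Set.Countable.mono ?_ (hDc.image Tr.lab)
      rintro _ ⟨X, rfl⟩
      exact mem_image_of_mem _ (hciD X)) (by
      intro a
      have hset : (fun X => (ci X).lab) ⁻¹' {a} =
          ⋃ t ∈ {t : Tr A | t ∈ ⋃ k, D_BT (range c) k ∧ t.lab = a}, ci ⁻¹' {t} := by
        ext X
        simp only [mem_preimage, mem_singleton_iff, mem_iUnion, mem_ofPred_eq, exists_prop]
        constructor
        · intro h
          exact ⟨ci X, ⟨mem_iUnion.1 (hciD X), h⟩, rfl⟩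
        · rintro ⟨t, ⟨_, h1⟩, h2⟩
          rw [h2, h1]
      rw [hset]
      refine MeasurableSet.biUnion ?_ fun t _ => hcim t
      refine Set.Countable.mono ?_ hDc
      intro t ht
      exact ht.1)
  exact hnr X hX

end Pool.Agent.Helper24.WH

end

section

set_option autoImplicit false

namespace Pool.Agent.Helper24.WH

open Set TopologicalSpace Topology
open Ordinal hiding univ

private theorem nil_CN {S : Type} (n : ℕ) (ok : ℕ → Set S → Prop) (N : Nm S) (i : Ordinal.{0})
    (hg : Good n ok N (n + 1) i) : N = .nil := by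
  cases N with
  | nil => rfl
  | leaf a rest => exact a.elim
  | cons l kids rest =>
    exfalso
    cases l with
    | base M K =>
      obtain ⟨h1, h2, h3, h4, h5, h6⟩ := hg
      omega
    | cl M s j =>
      obtain ⟨h1, h2, h3, h4, h5, h6⟩ := hg
      omega
    | dd m L x j =>
      obtain ⟨h1, h2, h3, h4, h5⟩ := hg
      omega

theorem hCN (hNV : StNV) (hCT : StCT) (hEC : StEC) (hSU : StSU) (hSG : StSG) (hNT : StNT) :
    StCN := by
  intro A S _ _ n g Ga hH
  obtain ⟨s1, s2, s3, s4, s5, s6, s7, s8, s9⟩ := hSU A S n g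
  obtain ⟨i₀, hi₀⟩ := hEC (Tre A) (stg n g) (fun i j hij m => s4 i j m hij)
  obtain ⟨g1, g2⟩ := hSG A S n g Ga hH
  have hwqo : ∀ (h : ℕ) (f : ℕ → Set (Tre A)),
      (∀ k, f k ∈ {F | ∃ N i, GN n g N h i ∧ F = vl n g N}) → ∃ i j, i < j ∧ f j ⊆ f i := by
    intro h f hf
    choose N i hN using hf
    obtain ⟨⟨k, l, hkl, hsub⟩, _⟩ := hNV A S n g Ga hH N (fun k => ⟨h, i k, (hN k).1⟩)
    refine ⟨k, l, hkl, ?_⟩
    rw [(hN k).2, (hN l).2]
    exact hsub
  have hmain : ∀ (k h : ℕ), h + k = n + 1 →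
      {F : Set (Tre A) | ∃ N i, GN n g N h i ∧ F = vl n g N}.Countable := by
    intro k
    induction k with
    | zero =>
      intro h hk
      have hh : h = n + 1 := by omega
      subst hh
      apply (Set.countable_singleton (univ : Set (Tre A))).mono
      rintro F ⟨N, i, hN, rfl⟩
      have : N = .nil := nil_CN n _ N i hN
      subst this
      rw [mem_singleton_iff]
      rfl
    | succ k ih =>
      intro h hk
      have hc := ih (h + 1) (by omega)
      have hsc : @SecondCountableTopology (Tre A) (stg n g i₀ h) := by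
        rw [s1 i₀ h]
        apply (hNT A).2.2.2.2.2.2.1
        apply hc.mono
        rintro F ⟨N, hN, rfl⟩
        exact ⟨N, i₀, hN, rfl⟩
      apply hCT (Tre A) (stg n g i₀ h) hsc _ _ (hwqo h)
      rintro F ⟨N, i, hN, rfl⟩
      have hcl := (g2 N h i hN).1
      rcases le_total i i₀ with hi | hi
      · exact hcl.mono (s4 i i₀ h hi)
      · rw [hi₀ i hi] at hcl
        exact hcl
  apply (hmain (n + 1) 0 (by omega)).mono
  rintro F ⟨N, h, i, hN, rfl⟩
  exact ⟨N, i, s2 N h 0 i i (Nat.zero_le _) le_rfl hN, rfl⟩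

end Pool.Agent.Helper24.WH

end

section

/-!
# Module DP of project WH: padding of data
-/

set_option autoImplicit false

namespace Pool.Agent.Helper24.WH

open Set TopologicalSpace Topology
open Ordinal hiding univ

theorem hDP (HPA : StPA) (HCB : StCB) : StDP := by
  intro A₁ f n r sd D
  obtain ⟨τ, P, hT, htop, hV, hs⟩ := D.ex
  obtain ⟨hR, hop⟩ := HPA (Tre A₁) n τ P f hT.rich
  refine ⟨(HCB n).2.2.2.2.2.2.1 r D.wf, ((HCB n).2.2.2.2.2.2.2.1 r).1 D.vd, D.side,
    padT τ, padP P, ⟨hR, ?_⟩, htop, ?_, ?_⟩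
  · intro M k t
    cases M with
    | zero => exact hT.cyl 0 k t
    | succ M => exact hT.cyl M k t
  · rw [(hop n r univ D.wf).1]
    exact hV
  · intro s
    rw [(hop n r univ D.wf).2 D.vd s]
    exact hs s

end Pool.Agent.Helper24.WH

end

section

/-!
# Project WH, module F7 (front end)
-/

set_option autoImplicit false

namespace Pool.Agent.Helper24.WH

open Set TopologicalSpace Topology

private theorem subs_head_F7 {P : Type} (φ : Fm P) (v : ℕ → Set (Tre (Set P))) :
    ∃ l, φ.subs v = φ.SEM v :: l := by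
  cases φ with
  | prop p => exact ⟨[], rfl⟩
  | nprop p => exact ⟨[], rfl⟩
  | top => exact ⟨[], rfl⟩
  | bot => exact ⟨[], rfl⟩
  | var n => exact ⟨[], rfl⟩
  | and φ ψ => exact ⟨_, rfl⟩
  | or φ ψ => exact ⟨_, rfl⟩
  | dia φ => exact ⟨_, rfl⟩
  | box φ => exact ⟨_, rfl⟩
  | mu φ => exact ⟨_, rfl⟩
  | nu φ => exact ⟨_, rfl⟩

theorem hF7 (h1 : StF1) (h3 : StF3) (h4 : StF4) (h6 : StF6) : StF7 := by
  classical
  intro P _ L hL
  obtain ⟨φ, hfree, halt, hlang⟩ := hL
  set E : ℕ → Set (Tre (Set P)) := fun _ => ∅ with hE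
  set l := φ.subs E with hl
  -- the labelling
  set g : Tre (Set P) → Set (Fin l.length) := fun t => {i | t ∈ l.get i} with hg
  have hgmem : ∀ t t' : Tre (Set P), g t = g t' → ∀ F ∈ l, (t ∈ F ↔ t' ∈ F) := by
    intro t t' h F hF
    obtain ⟨i, hi⟩ := List.get_of_mem hF
    have h2 : i ∈ g t ↔ i ∈ g t' := by rw [h]
    rw [← hi]
    exact h2
  have hsame : ∀ (a : Set P) (p p' : Tre (Set P) × Tre (Set P)), g p.1 = g p'.1 → g p.2 = g p'.2 →
      g (Tre.mk a p) = g (Tre.mk a p') := by
    intro a p p' e1 e2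
    have h := h3 P φ E a p p' (fun i hi => absurd hi (hfree i))
      (fun F hF => ⟨hgmem _ _ e1 F hF, hgmem _ _ e2 F hF⟩)
    ext i
    exact h (l.get i) (List.get_mem l i)
  set Ga : Set P → Set (Fin l.length) × Set (Fin l.length) → Set (Fin l.length) := fun a s =>
    if h : ∃ p : Tre (Set P) × Tre (Set P), g p.1 = s.1 ∧ g p.2 = s.2 then g (Tre.mk a h.choose) else ∅ with hGa
  have hhom : ∀ a p, g (Tre.mk a p) = Ga a (g p.1, g p.2) := by
    intro a p
    have hex : ∃ p' : Tre (Set P) × Tre (Set P), g p'.1 = g p.1 ∧ g p'.2 = g p.2 := ⟨p, rfl, rfl⟩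
    have e : Ga a (g p.1, g p.2) = g (Tre.mk a hex.choose) := by
      rw [hGa]
      exact dif_pos hex
    rw [e]
    exact hsame a _ _ hex.choose_spec.1.symm hex.choose_spec.2.symm
  have hK : ∀ F ∈ φ.subs E, ∃ K : Set (Set (Fin l.length)), F = g ⁻¹' K := by
    intro F hF
    obtain ⟨i, hi⟩ := List.get_of_mem (show F ∈ l from hF)
    refine ⟨{s | i ∈ s}, ?_⟩
    ext t
    rw [← hi]
    rfl
  have hokM : φ.okM := (h4 P φ halt).1 fun i hi => absurd hi (hfree i)
  obtain ⟨J, hJ⟩ := h6 P (Set (Fin l.length)) g Ga hhom φ E hK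
  have hclp := (hJ J le_rfl).1 hokM (fun i hi => absurd hi (hfree i))
  obtain ⟨l', hl'⟩ := subs_head_F7 φ E
  have hpos : 0 < l.length := by
    rw [hl, hl']
    exact Nat.succ_pos _
  have hhead : l.get ⟨0, hpos⟩ = φ.SEM E := by
    have : l = φ.SEM E :: l' := hl'
    simp [this]
  refine ⟨Set (Fin l.length), inferInstance, J + 1, g, Ga, fun s => decide ((⟨0, hpos⟩ : Fin l.length) ∈ s), ⟨hhom, ?_⟩, ?_⟩
  · intro s
    have e : g ⁻¹' {s} = ⋂ i : Fin l.length, (if i ∈ s then l.get i else (l.get i)ᶜ) := by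
      ext t
      rw [mem_preimage, mem_singleton_iff, mem_iInter]
      constructor
      · intro h i
        have hi : i ∈ g t ↔ t ∈ l.get i := Iff.rfl
        split_ifs with his
        · rw [← hi, h]
          exact his
        · intro hcon
          apply his
          rw [← h]
          exact hcon
      · intro h
        ext i
        have hi := h i
        constructor
        · intro hit
          by_contra his
          rw [if_neg his] at hi
          exact hi hit
        · intro his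
          rw [if_pos his] at hi
          exact hi
    rw [e]
    have hc : ∀ i : Fin l.length, Clp (bT g (J + 1)) (if i ∈ s then l.get i else (l.get i)ᶜ) := by
      intro i
      have h := hclp (l.get i) (List.get_mem l i)
      split_ifs
      · exact h
      · unfold Clp at h ⊢
        letI := bT g (J + 1)
        exact h.compl
    unfold Clp at hc ⊢
    letI := bT g (J + 1)
    exact isClopen_iInter_of_finite hc
  · rw [← hlang]
    ext t
    show [] ∈ φ.sem t (fun _ => ∅) ↔ decide ((⟨0, hpos⟩ : Fin l.length) ∈ g t) = true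
    rw [decide_eq_true_iff]
    have h := h1 P φ t E []
    have e : (fun n => {w : List Bool | t.sub w ∈ E n}) = (fun _ => (∅ : Set (List Bool))) := by
      funext n
      ext w
      simp [hE]
    rw [e] at h
    rw [h]
    show t ∈ φ.SEM E ↔ t ∈ l.get ⟨0, hpos⟩
    rw [hhead]

end Pool.Agent.Helper24.WH

end

section

set_option autoImplicit false

namespace Pool.Agent.Helper24.WH

open Set Ordinal Order

/-- natural sum -/
noncomputable def nat_NS (a b : Ordinal.{0}) : Ordinal.{0} :=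
  max (⨆ x : Iio a, succ (nat_NS x.1 b)) (⨆ x : Iio b, succ (nat_NS a x.1))
termination_by (a, b)
decreasing_by
  · exact Prod.Lex.left _ _ x.2
  · exact Prod.Lex.right _ x.2

private theorem le_NS (a b c : Ordinal.{0}) :
    nat_NS a b ≤ c ↔ (∀ a' < a, nat_NS a' b < c) ∧ ∀ b' < b, nat_NS a b' < c := by
  rw [nat_NS, max_le_iff, Ordinal.iSup_le_iff, Ordinal.iSup_le_iff]
  simp only [succ_le_iff, Subtype.forall, mem_Iio]

private theorem left_NS {a a' : Ordinal.{0}} (b : Ordinal.{0}) (h : a < a') :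
    nat_NS a b < nat_NS a' b := ((le_NS a' b _).1 le_rfl).1 a h

private theorem right_NS (a : Ordinal.{0}) {b b' : Ordinal.{0}} (h : b < b') :
    nat_NS a b < nat_NS a b' := ((le_NS a b' _).1 le_rfl).2 b h

private theorem key_NS (y : Ordinal.{0})
    (ih : ∀ a b : Ordinal.{0}, a < ω ^ y → b < ω ^ y → nat_NS a b < ω ^ y) :
    ∀ (a b : Ordinal.{0}) (i j : ℕ) (c d : Ordinal.{0}), c < ω ^ y → d < ω ^ y →
      a = ω ^ y * i + c → b = ω ^ y * j + d →
      nat_NS a b ≤ ω ^ y * ((i + j : ℕ) : Ordinal.{0}) + nat_NS c d := by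
  have hpos : (0 : Ordinal.{0}) < ω ^ y := opow_pos _ omega0_pos
  -- one sided step
  have dec : ∀ (i : ℕ) (c a' : Ordinal.{0}), c < ω ^ y → a' < ω ^ y * i + c →
      ∃ (i' : ℕ) (c' : Ordinal.{0}), c' < ω ^ y ∧ a' = ω ^ y * i' + c' ∧ ((i' = i ∧ c' < c) ∨ i' < i) := by
    intro i c a' hc h
    have h1 : a' < ω ^ y * ((i : Ordinal.{0}) + 1) := by
      refine h.trans_le ?_
      rw [mul_add_one]
      exact add_le_add_right hc.le _
    have h2 : a' / ω ^ y < (i : Ordinal.{0}) + 1 := (Ordinal.lt_mul_iff_div_lt hpos.ne').1 h1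
    have h3 : a' / ω ^ y < ω := h2.trans (by exact_mod_cast natCast_lt_omega0 (i + 1))
    obtain ⟨k, hk⟩ := lt_omega0.1 h3
    have hk' : k < i + 1 := by
      rw [hk] at h2
      exact_mod_cast h2
    refine ⟨k, a' % ω ^ y, Ordinal.mod_lt _ hpos.ne', ?_, ?_⟩
    · rw [← hk]; exact (Ordinal.div_add_mod a' (ω ^ y)).symm
    · rcases Nat.lt_succ_iff_lt_or_eq.1 hk' with h4 | h4
      · exact Or.inr h4
      · refine Or.inl ⟨h4, ?_⟩
        have h5 : a' = ω ^ y * i + a' % ω ^ y := by
          rw [← h4, ← hk]; exact (Ordinal.div_add_mod a' (ω ^ y)).symm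
        rw [h5] at h
        exact (add_lt_add_iff_left _).1 h
  intro a
  induction a using WellFoundedLT.induction with
  | _ a iha =>
  intro b
  induction b using WellFoundedLT.induction with
  | _ b ihb =>
  intro i j c d hc hd ha hb
  rw [le_NS]
  constructor
  · intro a' ha'
    obtain ⟨i', c', hc', e', hcase⟩ := dec i c a' hc (ha ▸ ha')
    have h1 := iha a' ha' b i' j c' d hc' hd e' hb
    refine h1.trans_lt ?_
    rcases hcase with ⟨h2, h3⟩ | h2
    · rw [h2]
      exact (add_lt_add_iff_left _).2 (left_NS d h3)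
    · have h3 : ω ^ y * ((i' + j : ℕ) : Ordinal.{0}) + nat_NS c' d <
          ω ^ y * ((i' + j : ℕ) : Ordinal.{0}) + ω ^ y := (add_lt_add_iff_left _).2 (ih c' d hc' hd)
      refine h3.trans_le ?_
      rw [← mul_add_one]
      refine le_trans ?_ le_self_add
      refine mul_le_mul_right ?_ _
      have : i' + j + 1 ≤ i + j := by omega
      exact_mod_cast this
  · intro b' hb'
    obtain ⟨j', d', hd', e', hcase⟩ := dec j d b' hd (hb ▸ hb')
    have h1 := ihb b' hb' i j' c d' hc hd' ha e'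
    refine h1.trans_lt ?_
    rcases hcase with ⟨h2, h3⟩ | h2
    · rw [h2]
      exact (add_lt_add_iff_left _).2 (right_NS c h3)
    · have h3 : ω ^ y * ((i + j' : ℕ) : Ordinal.{0}) + nat_NS c d' <
          ω ^ y * ((i + j' : ℕ) : Ordinal.{0}) + ω ^ y := (add_lt_add_iff_left _).2 (ih c d' hc hd')
      refine h3.trans_le ?_
      rw [← mul_add_one]
      refine le_trans ?_ le_self_add
      refine mul_le_mul_right ?_ _
      have : i + j' + 1 ≤ i + j := by omega
      exact_mod_cast this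

private theorem main_NS : ∀ x a b : Ordinal.{0}, a < ω ^ x → b < ω ^ x → nat_NS a b < ω ^ x := by
  intro x
  induction x using Ordinal.limitRecOn with
  | zero =>
    intro a b ha hb
    rw [opow_zero, Order.lt_one_iff] at *
    subst ha hb
    refine nonpos_iff_eq_zero.1 ?_
    rw [le_NS]
    exact ⟨fun a' h => absurd h not_lt_zero, fun a' h => absurd h not_lt_zero⟩
  | add_one y ih =>
    intro a b ha hb
    have hpos : (0 : Ordinal.{0}) < ω ^ y := opow_pos _ omega0_pos
    rw [← succ_eq_add_one, opow_succ] at ha hb ⊢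
    obtain ⟨i, hi⟩ := lt_omega0.1 ((Ordinal.lt_mul_iff_div_lt hpos.ne').1 ha)
    obtain ⟨j, hj⟩ := lt_omega0.1 ((Ordinal.lt_mul_iff_div_lt hpos.ne').1 hb)
    have h1 := key_NS y ih a b i j (a % ω ^ y) (b % ω ^ y) (Ordinal.mod_lt _ hpos.ne')
      (Ordinal.mod_lt _ hpos.ne') (by rw [← hi]; exact (Ordinal.div_add_mod a _).symm)
      (by rw [← hj]; exact (Ordinal.div_add_mod b _).symm)
    refine h1.trans_lt ?_
    have h2 : ω ^ y * ((i + j : ℕ) : Ordinal.{0}) + nat_NS (a % ω ^ y) (b % ω ^ y) <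
        ω ^ y * ((i + j : ℕ) : Ordinal.{0}) + ω ^ y := (add_lt_add_iff_left _).2
      (ih _ _ (Ordinal.mod_lt _ hpos.ne') (Ordinal.mod_lt _ hpos.ne'))
    refine h2.trans ?_
    rw [← mul_add_one]
    refine (mul_lt_mul_iff_right₀ hpos).2 ?_
    exact_mod_cast natCast_lt_omega0 (i + j + 1)
  | limit x hx ih =>
    intro a b ha hb
    rw [lt_opow_of_isSuccLimit omega0_ne_zero hx] at ha hb
    obtain ⟨u, hu, ha⟩ := ha
    obtain ⟨v, hv, hb⟩ := hb
    have h1 := ih (max u v) (max_lt hu hv) a b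
      (ha.trans_le (opow_le_opow_right omega0_pos (le_max_left _ _)))
      (hb.trans_le (opow_le_opow_right omega0_pos (le_max_right _ _)))
    exact h1.trans ((opow_lt_opow_iff_right one_lt_omega0).2 (max_lt hu hv))

/-- the version with an ordinal exponent -/
theorem hNSo : ∃ N : Ordinal.{0} → Ordinal.{0} → Ordinal.{0},
    (∀ a a' b, a < a' → N a b < N a' b) ∧ (∀ a b b', b < b' → N a b < N a b') ∧
    ∀ x a b : Ordinal.{0}, a < ω ^ x → b < ω ^ x → N a b < ω ^ x :=
  ⟨nat_NS, fun _ _ b h => left_NS b h, fun a _ _ h => right_NS a h, main_NS⟩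

theorem hNS : StNS := by
  first
  | exact hNSo
  | exact ⟨nat_NS, fun _ _ b h => left_NS b h, fun a _ _ h => right_NS a h,
      fun x a b ha hb => by
        have := main_NS (x : Ordinal.{0}) a b (by simpa using ha) (by simpa using hb)
        simpa using this⟩

end Pool.Agent.Helper24.WH

end

section

set_option autoImplicit false

namespace Pool.Agent.Helper24.WH

open Set TopologicalSpace Topology
open Ordinal hiding univ

theorem hPL (hPR : StPR) (hNT : StNT) (hCN : StCN) (hSU : StSU) (hSG : StSG) : StPL := by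
  intro A S _ _ n g Ga hyp i
  obtain ⟨-, -, hcont, -, -, -, -, -, -, hpol, -⟩ := hNT A
  obtain ⟨hstg, -, -, -, hmono, -, htop, -, -⟩ := hSU A S n g
  have hname := (hSG A S n g Ga hyp).2
  have hcnt := hCN A S n g Ga hyp
  have hbig : ∀ M, n ≤ M → @PolishSpace _ (stg n g i M) := by
    intro M hM
    rw [htop i M hM]
    exact hpol
  have hstep : ∀ M, @PolishSpace _ (stg n g i (M + 1)) → @PolishSpace _ (stg n g i M) := by
    intro M hM
    set 𝓕 : Set (Set (Tre A)) := {U | ∃ F ∈ {F | ∃ N : Nm S, GN n g N (M + 1) i ∧ F = vl n g N},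
      ∃ u : List Bool, U = {t : Tre A | t.sub u ∈ F}} with h𝓕
    have hc : 𝓕.Countable := by
      have h1 : ({F | ∃ N h i, GN n g N h i ∧ F = vl n g N} ×ˢ (univ : Set (List Bool))).Countable :=
        hcnt.prod (countable_univ)
      refine (h1.image (fun p : Set (Tre A) × List Bool => {t : Tre A | t.sub p.2 ∈ p.1})).mono ?_
      rintro U ⟨F, ⟨N, hN, hF⟩, u, rfl⟩
      exact ⟨(F, u), ⟨⟨N, M + 1, i, hN, hF⟩, mem_univ _⟩, rfl⟩
    have hcl : ∀ F ∈ 𝓕, IsClosed[stg n g i (M + 1)] F := by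
      rintro U ⟨F, ⟨N, hN, rfl⟩, u, rfl⟩
      have h1 : IsClosed[stg n g i (M + 1)] (vl n g N) := (hname N (M + 1) i hN).1
      have h2 := hcont {F | ∃ N : Nm S, GN n g N (M + 1 + 1) i ∧ F = vl n g N} u
      rw [← hstg i (M + 1)] at h2
      exact @IsClosed.preimage _ _ (stg n g i (M + 1)) (stg n g i (M + 1)) _ h2 _ h1
    have hP := hPR (Tre A) (stg n g i (M + 1)) hM 𝓕 hc hcl
    have he : stg n g i M = stg n g i (M + 1) ⊓ generateFrom 𝓕 := by
      apply le_antisymm
      · refine le_inf (hmono i M) ?_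
        rw [hstg i M, le_generateFrom_iff_subset_isOpen]
        intro U hU
        exact isOpen_generateFrom_of_mem (Or.inr hU)
      · rw [hstg i M, le_generateFrom_iff_subset_isOpen]
        rintro U (⟨u, a, rfl⟩ | hU)
        · have h1 : IsOpen[stg n g i (M + 1)] {t : Tre A | t u = a} := by
            rw [hstg i (M + 1)]
            exact isOpen_generateFrom_of_mem (Or.inl ⟨u, a, rfl⟩)
          exact (inf_le_left : stg n g i (M + 1) ⊓ generateFrom 𝓕 ≤ stg n g i (M + 1)) _ h1
        · have h1 : IsOpen[generateFrom 𝓕] U := isOpen_generateFrom_of_mem hU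
          exact (inf_le_right : stg n g i (M + 1) ⊓ generateFrom 𝓕 ≤ generateFrom 𝓕) _ h1
    rw [he]
    exact hP
  intro M
  by_cases h : n ≤ M
  · exact hbig M h
  · obtain ⟨k, rfl⟩ : ∃ k, n = M + k := ⟨n - M, by omega⟩
    clear h
    have : ∀ j M', M + k = M' + j → @PolishSpace _ (stg (M + k) g i M') := by
      intro j
      induction j with
      | zero => intro M' hM'; exact hbig M' (by omega)
      | succ j ih => intro M' hM'; exact hstep M' (ih (M' + 1) (by omega))
    exact this k M rfl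

end Pool.Agent.Helper24.WH

end

section

/-!
# PROJECT WH (MP_76577a_lc), module RX: every point has a rank
-/

set_option autoImplicit false

namespace Pool.Agent.Helper24.WH

open Set TopologicalSpace Topology
open Ordinal hiding univ

theorem hRX (hRA : StRA) (hUZ : StUZ) (hCB : StCB) : StRX := by
  intro X n τ P f hR m hm A hA x hx
  obtain ⟨-, -, -, -, -, -, -, -, -, hVZ, hlim, -⟩ := hRA X τ f m
  obtain ⟨-, -, -, -, hbot, -⟩ := hUZ X τ f
  obtain ⟨-, -, -, -, -, -, -, -, -, -, hwfd⟩ := hCB m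
  obtain ⟨c₀, hc₀, hc₀E⟩ := hR.tm m hm
  have hne : ({c : {c : Cd m // Cd.wf m c} | x ∉ Vo τ f m c.1 A}).Nonempty :=
    ⟨⟨c₀, hc₀⟩, by rw [mem_ofPred_eq, hc₀E A hA]; exact notMem_empty x⟩
  obtain ⟨r, hrx, hmin⟩ := hwfd.has_min _ hne
  have hlt : ∀ c, Cd.wf m c → c < r.1 → x ∈ Vo τ f m c A := by
    intro c hc hcr
    by_contra h
    exact hmin ⟨c, hc⟩ h hcr
  have hrb : r.1 ≠ Cd.bot m := by
    intro h
    apply hrx
    rw [h, hbot m A]
    exact hx
  have hrv : Cd.vd m r.1 := by
    by_contra h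
    exact hrx (hlim r.1 A r.2 h hrb x hlt)
  obtain ⟨c, hcw, hcr, hcZ⟩ := hR.us m hm r.1 r.2 hrv
  have hxZ := hcZ A hA (hlt c hcw hcr)
  have hVx : x ∉ Zo τ f m r.1 false A ∩ Zo τ f m r.1 true A := by
    rw [← hVZ r.1 A r.2 hrv]
    exact hrx
  rcases hxZ with h | h
  · exact ⟨r.1, false, r.2, hrv, hrx, hlt, h, fun h' => hVx ⟨h, h'⟩⟩
  · exact ⟨r.1, true, r.2, hrv, hrx, hlt, h, fun h' => hVx ⟨h', h⟩⟩

end Pool.Agent.Helper24.WH

end

section

/-!
# PROJECT WH (MP_76577a_lc), module TB: all terms (combination of BF, BP, BT, BW)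
-/

set_option autoImplicit false

namespace Pool.Agent.Helper24.WH

private theorem bq_TB (h1 : StBF) (h3 : StBT) (h5 : StTP) (S : Type) [Finite S] :
    ∀ m : ℕ, BQ (TT.Le (S := S) m)
  | 0 => h1 S
  | (m + 1) => by
      have ih := bq_TB h1 h3 h5 S m
      have hr := (h5.2.1 S m).1
      have ht := (h5.2.1 S m).2
      exact h3 (TT S m) (TT.Le m) hr ht ih

theorem hTB (h1 : StBF) (h2 : StBP) (h3 : StBT) (h4 : StBW) (h5 : StTP) : StTB := by
  intro S _ m k
  have hb := bq_TB h1 h3 h5 S m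
  exact ⟨(h4 _ _ hb).1, (h4 _ _ hb).2, (h4 _ _ (h2 _ _ k hb)).2⟩

end Pool.Agent.Helper24.WH

end
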