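import Pool.Agent.Helper24.WH.St1
import Pool.Agent.Helper24.WH.St4
import Pool.Agent.Helper24.WH.St5
import Pool.Agent.Helper24.WH.St6
import Pool.Agent.Helper24.WH.St7

set_option autoImplicit false

section

/-!
# WH module BW: better quasi orders are well quasi orders, also for sequences under domination
-/

set_option autoImplicit false

namespace Pool.Agent.Helper24.WH

open Set TopologicalSpace Ordinal Topology

private theorem cont_BW (n : ℕ) : Continuous fun X : Inc => X.1 n :=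
  (continuous_apply n).comp (continuous_subtype_val (p := fun X : ℕ → ℕ => StrictMono X))

private theorem array_BW {Q : Type} {r : Q → Q → Prop} (h : BQ r) (g : ℕ × ℕ → Q) :
    ∃ X : Inc, r (g (X.1 0, X.1 1)) (g (X.1 1, X.1 2)) := by
  have hc : Continuous fun X : Inc => (X.1 0, X.1 1) := (cont_BW 0).prodMk (cont_BW 1)
  obtain ⟨X, hX⟩ := h (fun X => g (X.1 0, X.1 1))
    ((countable_range g).mono (by rintro _ ⟨X, rfl⟩; exact ⟨_, rfl⟩)) (by
      intro q
      have h1 : (fun X : Inc => g (X.1 0, X.1 1)) ⁻¹' {q} =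
          (fun X : Inc => (X.1 0, X.1 1)) ⁻¹' (g ⁻¹' {q}) := rfl
      rw [h1]
      exact ((isOpen_discrete (g ⁻¹' {q})).preimage hc).measurableSet)
  exact ⟨X, hX⟩

theorem hBW : StBW := by
  intro Q r h
  constructor
  · intro f
    obtain ⟨X, hX⟩ := array_BW h (fun p => f p.1)
    exact ⟨X.1 0, X.1 1, X.2 one_pos, hX⟩
  · intro F
    by_contra hcon
    have h1 : ∀ i j : ℕ, ∃ k : ℕ, i < j → ∀ l, ¬ r (F i k) (F j l) := by
      intro i j
      by_cases hij : i < j
      · by_contra h2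
        push Not at h2
        exact hcon ⟨i, j, hij, fun k => (h2 k).2⟩
      · exact ⟨0, fun h2 => absurd h2 hij⟩
    choose k hk using h1
    obtain ⟨X, hX⟩ := array_BW h (fun p => F p.1 (k p.1 p.2))
    exact hk (X.1 0) (X.1 1) (X.2 one_pos) _ hX

end Pool.Agent.Helper24.WH

end

section

/-!
# PROJECT WH, module CA: combinatorics of codes I
-/

set_option autoImplicit false

namespace Pool.Agent.Helper24.WH

open Set TopologicalSpace Topology
open Ordinal hiding univ

/-! ## Lists over a linear order -/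

private theorem lt_split_CA {α : Type} [LinearOrder α] (l l' : List α) (h : l < l') :
    (∃ (e : α) (r : List α), l' = l ++ e :: r) ∨
    (∃ (p : List α) (e e' : α) (r r' : List α), l = p ++ e :: r ∧ l' = p ++ e' :: r' ∧ e < e') := by
  have h' : List.Lex (· < ·) l l' := h
  clear h
  induction h' with
  | nil => exact Or.inl ⟨_, _, rfl⟩
  | @cons a as bs _ ih =>
    rcases ih with ⟨e, r, hr⟩ | ⟨p, e, e', r, r', h1, h2, h3⟩
    · exact Or.inl ⟨e, r, by rw [hr]; rfl⟩
    · exact Or.inr ⟨a :: p, e, e', r, r', by rw [h1]; rfl, by rw [h2]; rfl, h3⟩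
  | @rel a as b bs hab => exact Or.inr ⟨[], a, b, as, bs, rfl, rfl, hab⟩

private theorem lt_app_CA {α : Type} [LinearOrder α] (l : List α) (e : α) (r : List α) :
    l < l ++ e :: r := by
  have : List.Lex (· < ·) (l ++ []) (l ++ e :: r) := List.Lex.append_left _ List.Lex.nil l
  rw [List.append_nil] at this
  exact this

private theorem lt_rel_CA {α : Type} [LinearOrder α] (p : List α) (e e' : α) (r r' : List α) (h : e < e') :
    p ++ e :: r < p ++ e' :: r' := by
  have : List.Lex (· < ·) (p ++ e :: r) (p ++ e' :: r') :=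
    List.Lex.append_left _ (List.Lex.rel h) p
  exact this

private theorem nil_le_CA {α : Type} [LinearOrder α] (l : List α) : [] ≤ l := by
  cases l with
  | nil => exact le_rfl
  | cons a as => exact le_of_lt (lt_app_CA [] a as)

private theorem app_le_CA {α : Type} [LinearOrder α] (l : List α) (o e : α) (r : List α) (h : o ≤ e) :
    l ++ [o] ≤ l ++ e :: r := by
  rcases lt_or_eq_of_le h with h | h
  · exact le_of_lt (lt_rel_CA l o e [] r h)
  · subst h
    cases r with
    | nil => exact le_rfl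
    | cons a as =>
      have := lt_app_CA (l ++ [o]) a as
      rw [List.append_assoc] at this
      exact le_of_lt this

/-! ## The least nonzero code -/

private def one_CA : (m : ℕ) → Cd m
  | 0 => true
  | (m + 1) => Cd.of [toLex (one_CA m, 0)]

private theorem one_ne_CA : ∀ m : ℕ, one_CA m ≠ Cd.bot m
  | 0 => by
    intro h
    have : (true : Bool) = false := h
    exact absurd this (by decide)
  | (m + 1) => by
    intro h
    have : ([toLex (one_CA m, 0)] : List (Cd m ×ₗ ℕ)) = [] := h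
    exact absurd this (by simp)

private theorem one_wf_CA : ∀ m : ℕ, Cd.wf m (one_CA m)
  | 0 => trivial
  | (m + 1) => by
    refine ⟨List.pairwise_singleton _ _, ?_⟩
    intro e he
    have : e = toLex (one_CA m, 0) := by simpa [one_CA] using he
    subst this
    exact ⟨one_wf_CA m, one_ne_CA m⟩

private theorem one_vd_CA : ∀ m : ℕ, Cd.vd m (one_CA m)
  | 0 => rfl
  | (m + 1) => ⟨[], one_CA m, rfl, one_vd_CA m⟩

private theorem toLex_le_CA {m : ℕ} (c : Cd m) (e : Cd m ×ₗ ℕ) (h : c ≤ (ofLex e).1) :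
    toLex (c, 0) ≤ e := by
  rw [Prod.Lex.le_iff]
  rcases lt_or_eq_of_le h with h | h
  · exact Or.inl h
  · exact Or.inr ⟨h, Nat.zero_le _⟩

private theorem bot_le_CA : ∀ (m : ℕ) (c : Cd m), Cd.bot m ≤ c
  | 0, c => Bool.false_le c
  | (_ + 1), l => nil_le_CA (Cd.L l)

private theorem one_min_CA : ∀ (m : ℕ) (c : Cd m), Cd.wf m c → c ≠ Cd.bot m → one_CA m ≤ c
  | 0, c => by
    intro _ hc
    have hb : Cd.B c = true := by
      cases hB : Cd.B c with
      | true => rfl
      | false => exact absurd hB hc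
    have : (true : Bool) ≤ Cd.B c := by rw [hb]
    exact this
  | (m + 1), l => by
    intro hw hl
    have key : ∀ l' : List (Cd m ×ₗ ℕ), l' = Cd.L l → [toLex (one_CA m, 0)] ≤ l' := by
      intro l' hl'
      cases l' with
      | nil => exact absurd hl'.symm hl
      | cons e r =>
        have he : e ∈ Cd.L l := by rw [← hl']; exact List.mem_cons_self
        have h1 := hw.2 e he
        have h2 := one_min_CA m _ h1.1 h1.2
        exact app_le_CA [] _ e r (toLex_le_CA _ e h2)
    exact key _ rfl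

private theorem next_CA (m : ℕ) (c c' : Cd (m + 1)) (hc : Cd.wf (m + 1) c) (hc' : Cd.wf (m + 1) c')
    (h : c < c') : ∃ r, Cd.wf (m + 1) r ∧ Cd.vd (m + 1) r ∧ c < r ∧ r ≤ c' := by
  refine ⟨Cd.of (Cd.L c ++ [toLex (one_CA m, 0)]), ⟨?_, ?_⟩, ⟨Cd.L c, one_CA m, rfl, one_vd_CA m⟩, ?_, ?_⟩
  · rw [List.pairwise_append]
    refine ⟨hc.1, List.pairwise_singleton _ _, ?_⟩
    intro a ha b hb
    have : b = toLex (one_CA m, 0) := by simpa using hb
    subst this
    have h1 := hc.2 a ha
    exact toLex_le_CA _ a (one_min_CA m _ h1.1 h1.2)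
  · intro e he
    rcases List.mem_append.1 he with he | he
    · exact hc.2 e he
    · have : e = toLex (one_CA m, 0) := by simpa using he
      subst this
      exact ⟨one_wf_CA m, one_ne_CA m⟩
  · exact lt_app_CA (Cd.L c) _ []
  · have h' : Cd.L c < Cd.L c' := h
    have goal : Cd.L c ++ [toLex (one_CA m, 0)] ≤ Cd.L c' := by
      rcases lt_split_CA _ _ h' with ⟨e, r, hr⟩ | ⟨p, e, e', r, r', h1, h2, h3⟩
      · rw [hr]
        have he : e ∈ Cd.L c' := by rw [hr]; simp
        have h1 := hc'.2 e he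
        exact app_le_CA _ _ e r (toLex_le_CA _ e (one_min_CA m _ h1.1 h1.2))
      · rw [h1, h2, List.append_assoc]
        exact le_of_lt (lt_rel_CA p e e' _ r' h3)
    exact goal

private theorem countable_CA : ∀ m : ℕ, Countable (Cd m)
  | 0 => inferInstanceAs (Countable Bool)
  | (m + 1) => by
    haveI := countable_CA m
    haveI : Countable (Cd m ×ₗ ℕ) := inferInstanceAs (Countable (Cd m × ℕ))
    exact inferInstanceAs (Countable (List (Cd m ×ₗ ℕ)))

private theorem bot_wf_CA : ∀ m : ℕ, Cd.wf m (Cd.bot m)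
  | 0 => trivial
  | (m + 1) => ⟨List.Pairwise.nil, fun e he => absurd he (by simp [Cd.bot])⟩

private theorem bot_vd_CA : ∀ m : ℕ, ¬ Cd.vd m (Cd.bot m)
  | 0 => fun h => by
    have : (false : Bool) = true := h
    exact absurd this (by decide)
  | (m + 1) => fun ⟨l₀, c, h, _⟩ => by
    have : ([] : List (Cd m ×ₗ ℕ)) = l₀ ++ [toLex (c, 0)] := h
    exact absurd this (by simp)

/-- **CA** -/
theorem hCA : StCA := by
  intro m
  refine ⟨countable_CA m, bot_le_CA m, bot_wf_CA m, bot_vd_CA m, ?_, ?_, ?_, ?_, ?_, ?_⟩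
  · cases m with
    | zero =>
      intro c c' _ _ h
      exact ⟨c', trivial, by
        have h' : Cd.B c < Cd.B c' := h
        change Cd.B c' = true
        cases hB : Cd.B c' with
        | true => rfl
        | false => rw [hB] at h'; exact absurd h' (by simp), h, le_rfl⟩
    | succ m => exact fun c c' hc hc' h => next_CA m c c' hc hc' h
  · intro l c x hw
    have hw1 : List.Pairwise (fun a b : Cd m ×ₗ ℕ => b ≤ a) (Cd.L l ++ [toLex (c, x)]) := hw.1
    have hw2 : ∀ e ∈ Cd.L l ++ [toLex (c, x)], Cd.wf m (ofLex e).1 ∧ (ofLex e).1 ≠ Cd.bot m := hw.2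
    have hlast := hw2 (toLex (c, x)) (by simp)
    refine ⟨⟨(List.pairwise_append.1 hw1).1, fun e he => hw2 e (List.mem_append_left _ he)⟩,
      hlast.1, hlast.2, ?_⟩
    exact lt_app_CA (Cd.L l) _ []
  · intro l c c' x x' hw hc' hb hle
    have hw1 : List.Pairwise (fun a b : Cd m ×ₗ ℕ => b ≤ a) (Cd.L l ++ [toLex (c, x)]) := hw.1
    have hw2 : ∀ e ∈ Cd.L l ++ [toLex (c, x)], Cd.wf m (ofLex e).1 ∧ (ofLex e).1 ≠ Cd.bot m := hw.2
    have goal1 : List.Pairwise (fun a b : Cd m ×ₗ ℕ => b ≤ a) (Cd.L l ++ [toLex (c', x')]) := by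
      rw [List.pairwise_append] at hw1 ⊢
      refine ⟨hw1.1, List.pairwise_singleton _ _, ?_⟩
      intro a ha b hbb
      have : b = toLex (c', x') := by simpa using hbb
      subst this
      exact le_trans hle (hw1.2.2 a ha _ (by simp))
    have goal2 : ∀ e ∈ Cd.L l ++ [toLex (c', x')], Cd.wf m (ofLex e).1 ∧ (ofLex e).1 ≠ Cd.bot m := by
      intro e he
      rcases List.mem_append.1 he with he | he
      · exact hw2 e (List.mem_append_left _ he)
      · have : e = toLex (c', x') := by simpa using he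
        subst this
        exact ⟨hc', hb⟩
    exact ⟨goal1, goal2⟩
  · intro l c c' x x' h
    exact lt_rel_CA (Cd.L l) _ _ [] [] h
  · intro l hl
    have hl' : Cd.L l ≠ [] := hl
    refine ⟨Cd.of ((Cd.L l).dropLast), (ofLex ((Cd.L l).getLast hl')).1, (ofLex ((Cd.L l).getLast hl')).2, ?_⟩
    exact (List.dropLast_append_getLast hl').symm
  · intro l l' h
    exact lt_split_CA (Cd.L l) (Cd.L l') h

end Pool.Agent.Helper24.WH

end

section

/-!
# PROJECT WH (MP_76577a_lc), module F2: the sandwich lemma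
-/

set_option autoImplicit false

namespace Pool.Agent.Helper24.WH

open Set TopologicalSpace Topology
open Ordinal hiding univ

private theorem ec_mono_F2 {α : Type} {X Y : Set α} {V R : ℕ → Set α} (h : X ⊆ Y) (hV : ∀ i, V i ⊆ R i) :
    ∀ i, ec X V i ⊆ ec Y R i
  | 0 => h
  | (n + 1) => hV n

/-- monotonicity of the tree-set semantics -/
private theorem mono_F2 {P : Type} (φ : Fm P) : ∀ V R : ℕ → Set (Tre (Set P)), (∀ i, V i ⊆ R i) →
    φ.SEM V ⊆ φ.SEM R := by
  induction φ with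
  | prop p => intro V R h; exact subset_rfl
  | nprop p => intro V R h; exact subset_rfl
  | top => intro V R h; exact subset_rfl
  | bot => intro V R h; exact subset_rfl
  | var n => intro V R h; exact h n
  | and φ ψ hφ hψ => intro V R h; exact inter_subset_inter (hφ V R h) (hψ V R h)
  | or φ ψ hφ hψ => intro V R h; exact union_subset_union (hφ V R h) (hψ V R h)
  | dia φ hφ => intro V R h t ht; obtain ⟨b, hb⟩ := ht; exact ⟨b, hφ V R h hb⟩
  | box φ hφ => intro V R h t ht b; exact hφ V R h (ht b)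
  | mu φ hφ =>
    intro V R h t ht X hX
    exact ht X ((hφ _ _ (ec_mono_F2 subset_rfl h)).trans hX)
  | nu φ hφ =>
    intro V R h t ht
    obtain ⟨X, hX, htX⟩ := ht
    exact ⟨X, hX.trans (hφ _ _ (ec_mono_F2 subset_rfl h)), htX⟩

/-- dependence on the free variables only -/
private theorem free_F2 {P : Type} (φ : Fm P) : ∀ V R : ℕ → Set (Tre (Set P)), (∀ i, φ.free i → V i = R i) →
    φ.SEM V = φ.SEM R := by
  induction φ with
  | prop p => intro V R h; rfl
  | nprop p => intro V R h; rfl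
  | top => intro V R h; rfl
  | bot => intro V R h; rfl
  | var n => intro V R h; exact h n rfl
  | and φ ψ hφ hψ =>
    intro V R h
    show φ.SEM V ∩ ψ.SEM V = φ.SEM R ∩ ψ.SEM R
    rw [hφ V R (fun i hi => h i (Or.inl hi)), hψ V R (fun i hi => h i (Or.inr hi))]
  | or φ ψ hφ hψ =>
    intro V R h
    show φ.SEM V ∪ ψ.SEM V = φ.SEM R ∪ ψ.SEM R
    rw [hφ V R (fun i hi => h i (Or.inl hi)), hψ V R (fun i hi => h i (Or.inr hi))]
  | dia φ hφ =>
    intro V R h
    show {t | ∃ b : Bool, Tre.sub t [b] ∈ φ.SEM V} = {t | ∃ b : Bool, Tre.sub t [b] ∈ φ.SEM R}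
    rw [hφ V R (fun i hi => h i hi)]
  | box φ hφ =>
    intro V R h
    show {t | ∀ b : Bool, Tre.sub t [b] ∈ φ.SEM V} = {t | ∀ b : Bool, Tre.sub t [b] ∈ φ.SEM R}
    rw [hφ V R (fun i hi => h i hi)]
  | mu φ hφ =>
    intro V R h
    have key : ∀ X, φ.SEM (ec X V) = φ.SEM (ec X R) := by
      intro X
      apply hφ
      intro i hi
      cases i with
      | zero => rfl
      | succ n => exact h n hi
    show ⋂₀ {X | φ.SEM (ec X V) ⊆ X} = ⋂₀ {X | φ.SEM (ec X R) ⊆ X}
    simp only [key]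
  | nu φ hφ =>
    intro V R h
    have key : ∀ X, φ.SEM (ec X V) = φ.SEM (ec X R) := by
      intro X
      apply hφ
      intro i hi
      cases i with
      | zero => rfl
      | succ n => exact h n hi
    show ⋃₀ {X | X ⊆ φ.SEM (ec X V)} = ⋃₀ {X | X ⊆ φ.SEM (ec X R)}
    simp only [key]

private theorem head_F2 {P : Type} (φ : Fm P) (E : ℕ → Set (Tre (Set P))) : φ.SEM E ∈ φ.subs E := by
  cases φ <;> simp [Fm.subs, Fm.SEM]

/-- the least fixed point is a prefixpoint -/
private theorem lfp_F2 {P : Type} (φ : Fm P) (V : ℕ → Set (Tre (Set P))) :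
    φ.SEM (ec ((Fm.mu φ).SEM V) V) ⊆ (Fm.mu φ).SEM V := by
  intro t ht X hX
  apply hX
  have hsub : (Fm.mu φ).SEM V ⊆ X := fun s hs => hs X hX
  exact mono_F2 φ _ _ (ec_mono_F2 hsub (fun i => subset_rfl)) ht

/-- the greatest fixed point is a postfixpoint -/
private theorem gfp_F2 {P : Type} (φ : Fm P) (V : ℕ → Set (Tre (Set P))) :
    (Fm.nu φ).SEM V ⊆ φ.SEM (ec ((Fm.nu φ).SEM V) V) := by
  intro t ht
  obtain ⟨X, hX, htX⟩ := ht
  have hsub : X ⊆ (Fm.nu φ).SEM V := fun s hs => ⟨X, hX, hs⟩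
  exact mono_F2 φ _ _ (ec_mono_F2 hsub (fun i => subset_rfl)) (hX htX)

private theorem subf_F2 {A : Type} (a : A) (p : Tre A × Tre A) : (Tre.mk a p).sub [false] = p.1 := rfl

private theorem subt_F2 {A : Type} (a : A) (p : Tre A × Tre A) : (Tre.mk a p).sub [true] = p.2 := rfl

/-- the sandwich lemma -/
private theorem sand_F2 {P : Type} (φ : Fm P) : ∀ (V E R : ℕ → Set (Tre (Set P))) (a : Set P)
    (p p' : Tre (Set P) × Tre (Set P)),
    (∀ i, V i ⊆ E i) → (∀ i, E i ⊆ R i) → (∀ F ∈ φ.subs E, (p.1 ∈ F ↔ p'.1 ∈ F) ∧ (p.2 ∈ F ↔ p'.2 ∈ F)) →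
    (∀ i, Tre.mk a p ∈ V i → Tre.mk a p' ∈ R i) → Tre.mk a p ∈ φ.SEM V → Tre.mk a p' ∈ φ.SEM R := by
  induction φ with
  | prop q => intro V E R a p p' h1 h2 hs hv h; exact h
  | nprop q => intro V E R a p p' h1 h2 hs hv h; exact h
  | top => intro V E R a p p' h1 h2 hs hv h; trivial
  | bot => intro V E R a p p' h1 h2 hs hv h; exact h
  | var n => intro V E R a p p' h1 h2 hs hv h; exact hv n h
  | and φ ψ hφ hψ =>
    intro V E R a p p' h1 h2 hs hv h
    refine ⟨hφ V E R a p p' h1 h2 (fun F hF => hs F ?_) hv h.1, hψ V E R a p p' h1 h2 (fun F hF => hs F ?_) hv h.2⟩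
    · exact List.mem_cons_of_mem _ (List.mem_append_left _ hF)
    · exact List.mem_cons_of_mem _ (List.mem_append_right _ hF)
  | or φ ψ hφ hψ =>
    intro V E R a p p' h1 h2 hs hv h
    rcases h with h | h
    · exact Or.inl (hφ V E R a p p' h1 h2
        (fun F hF => hs F (List.mem_cons_of_mem _ (List.mem_append_left _ hF))) hv h)
    · exact Or.inr (hψ V E R a p p' h1 h2
        (fun F hF => hs F (List.mem_cons_of_mem _ (List.mem_append_right _ hF))) hv h)
  | dia φ hφ =>
    intro V E R a p p' h1 h2 hs hv h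
    have hh := hs (φ.SEM E) (List.mem_cons_of_mem _ (head_F2 φ E))
    obtain ⟨b, hb⟩ := h
    refine ⟨b, ?_⟩
    have hb' := mono_F2 φ V E h1 hb
    apply mono_F2 φ E R h2
    cases b with
    | false => exact hh.1.1 hb'
    | true => exact hh.2.1 hb'
  | box φ hφ =>
    intro V E R a p p' h1 h2 hs hv h b
    have hh := hs (φ.SEM E) (List.mem_cons_of_mem _ (head_F2 φ E))
    have hb' := mono_F2 φ V E h1 (h b)
    apply mono_F2 φ E R h2
    cases b with
    | false => exact hh.1.1 hb'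
    | true => exact hh.2.1 hb'
  | mu φ hφ =>
    intro V E R a p p' h1 h2 hs hv h
    by_contra hcon
    have hVE : (Fm.mu φ).SEM V ⊆ (Fm.mu φ).SEM E := mono_F2 (Fm.mu φ) V E h1
    have hER : (Fm.mu φ).SEM E ⊆ (Fm.mu φ).SEM R := mono_F2 (Fm.mu φ) E R h2
    set Y : Set (Tre (Set P)) := (Fm.mu φ).SEM V \ {Tre.mk a p} with hY
    have hnot : Tre.mk a p ∉ φ.SEM (ec Y V) := by
      intro hin
      apply hcon
      apply lfp_F2
      refine hφ (ec Y V) (ec ((Fm.mu φ).SEM E) E) (ec ((Fm.mu φ).SEM R) R) a p p'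
        (ec_mono_F2 (sdiff_subset.trans hVE) h1) (ec_mono_F2 hER h2)
        (fun F hF => hs F (List.mem_cons_of_mem _ hF)) ?_ hin
      intro i
      cases i with
      | zero => intro hi; exact absurd rfl hi.2
      | succ n => exact hv n
    have hpre : φ.SEM (ec Y V) ⊆ Y := by
      intro t ht
      refine ⟨lfp_F2 φ V (mono_F2 φ _ _ (ec_mono_F2 sdiff_subset (fun i => subset_rfl)) ht), ?_⟩
      intro heq
      rw [mem_singleton_iff] at heq
      rw [heq] at ht
      exact hnot ht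
    exact (h Y hpre).2 rfl
  | nu φ hφ =>
    intro V E R a p p' h1 h2 hs hv h
    have hVE : (Fm.nu φ).SEM V ⊆ (Fm.nu φ).SEM E := mono_F2 (Fm.nu φ) V E h1
    have hER : (Fm.nu φ).SEM E ⊆ (Fm.nu φ).SEM R := mono_F2 (Fm.nu φ) E R h2
    set Y : Set (Tre (Set P)) := (Fm.nu φ).SEM R ∪ {Tre.mk a p'} with hY
    refine ⟨Y, ?_, Or.inr rfl⟩
    rintro t (ht | ht)
    · exact mono_F2 φ _ _ (ec_mono_F2 subset_union_left (fun i => subset_rfl)) (gfp_F2 φ R ht)
    · rw [mem_singleton_iff] at ht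
      rw [ht]
      refine hφ (ec ((Fm.nu φ).SEM V) V) (ec ((Fm.nu φ).SEM E) E) (ec Y R) a p p'
        (ec_mono_F2 hVE h1) (ec_mono_F2 (hER.trans subset_union_left) h2)
        (fun F hF => hs F (List.mem_cons_of_mem _ hF)) ?_ (gfp_F2 φ V h)
      intro i
      cases i with
      | zero => intro _; exact Or.inr rfl
      | succ n => exact hv n

theorem hF2 : StF2 := fun _ φ => ⟨mono_F2 φ, free_F2 φ, sand_F2 φ⟩

end Pool.Agent.Helper24.WH

end

section

set_option autoImplicit false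

namespace Pool.Agent.Helper24.WH

theorem hFO : StFO := by
  intro Q r E _ _ φ hr hφ
  by_contra hinf
  have hinf' : (Set.range φ).Infinite := hinf
  let f := hinf'.natEmbedding
  choose q hq using fun n => (f n).2
  obtain ⟨g, h | h⟩ := exists_increasing_or_nonincreasing_subseq (fun a b : E => a < b)
    (fun n => (f n : E))
  · obtain ⟨i, j, hij, hr'⟩ := hr (fun n => q (g n))
    have h1 := hφ _ _ hr'
    have h2 := h i j hij
    simp only [hq] at h1
    exact absurd h2 (not_lt.mpr h1)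
  · have h3 : StrictAnti (fun n => (f (g n) : E)) := by
      intro m n hmn
      refine lt_of_le_of_ne (not_lt.mp (h m n hmn)) ?_
      intro he
      have h4 : f (g n) = f (g m) := Subtype.ext he
      exact absurd (g.injective (f.injective h4)) hmn.ne'
    exact not_strictAnti_of_wellFoundedLT _ h3

end Pool.Agent.Helper24.WH

end

section

set_option autoImplicit false

namespace Pool.Agent.Helper24.WH

open Set TopologicalSpace Topology
open Ordinal hiding univ

private theorem hb_NV {S : Type} (n : ℕ) (ok : ℕ → Set S → Prop) (N : Nm S) :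
    ∀ (h : ℕ) (i : Ordinal.{0}), Good n ok N h i → Fo.HB Lab.ht n N := by
  induction N with
  | nil => intro h i _; trivial
  | leaf a rest ih => exact a.elim
  | cons l kids rest ihk ihr =>
    intro h i hg
    cases l with
    | base M K =>
      obtain ⟨h1, h2, h3, h4, h5, h6⟩ := hg
      refine ⟨h3, ?_, ihr h i h6⟩
      rw [h5]; trivial
    | cl M s j =>
      obtain ⟨h1, h2, h3, h4, h5, h6⟩ := hg
      exact ⟨h3, ihk 0 j h5, ihr h i h6⟩
    | dd m L x j =>
      obtain ⟨h1, h2, h3, h4, h5⟩ := hg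
      exact ⟨h2, ihk (m + 1) j h4, ihr h i h5⟩

theorem hNV (hGW : StGW.{1, 0}) (hLW : StLW) (hSO : StSO) (hTB : StTB) : StNV := by
  intro A S _ _ n g Ga hH
  have key : ∀ f : ℕ → Nm S, (∀ k, ∃ h i, GN n g (f k) h i) →
      ∃ k l, k < l ∧ vl n g (f l) ⊆ vl n g (f k) := by
    intro f hf
    obtain ⟨l1, l2, l3, l4⟩ := hLW S n
    obtain ⟨i, j, hij, hemb⟩ := hGW (Lab S) Empty Lab.Le (fun _ _ => True) Lab.ht n l1 l2
      (fun _ => trivial) (fun _ _ _ _ _ => trivial) l3 l4 (fun φ => (φ 0).elim) f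
      (fun k => by
        obtain ⟨h, i, hg⟩ := hf k
        exact hb_NV n _ (f k) h i hg)
    obtain ⟨h, i', hg⟩ := hf i
    obtain ⟨h2, i2, hg2⟩ := hf j
    exact ⟨i, j, hij, hSO A S n g Ga hH (f i) (f j) h h2 i' i2 hg hg2 hemb⟩
  intro f hf
  refine ⟨key f hf, ?_⟩
  intro m L
  let Q : Type 1 := {N : Nm S // ∃ h i, GN n g N h i}
  let r : Q → Q → Prop := fun a b => vl n g b.1 ⊆ vl n g a.1
  have hpre : IsPreorder Q r :=
    { refl := fun a => Subset.rfl
      trans := fun a b c h1 h2 => h2.trans h1 }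
  have hr : WellQuasiOrdered r := by
    intro φ
    exact key (fun k => (φ k).1) (fun k => (φ k).2)
  have hs : WellQuasiOrdered (Dom (TT.Le (S := S) m)) := (hTB S m 0).2.1
  obtain ⟨k, l, hkl, h1, h2⟩ := hr.prod hs (fun k => (⟨f k, hf k⟩, L k))
  exact ⟨k, l, hkl, h2, h1⟩

end Pool.Agent.Helper24.WH

end

section

set_option autoImplicit false

namespace Pool.Agent.Helper24.WH

open Set TopologicalSpace Topology
open Ordinal hiding univ

/-- player I plays the cylinders around `x` -/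
private def pl_RE {A₁ : Type} (Y : Type) (x : Tre A₁) (l : ℕ) : Set (Tre A₁) × Set Y := (Cyl l x, univ)

private theorem anti_RE {A : Type} (x : Tre A) {j l : ℕ} (h : j ≤ l) : Cyl l x ⊆ Cyl j x :=
  fun _ ht u hu => ht u (hu.trans_le h)

private theorem self_RE {A : Type} (x : Tre A) (l : ℕ) : x ∈ Cyl l x := fun _ _ => rfl

private theorem eq_RE {A : Type} {x y : Tre A} {j l : ℕ} (h : j ≤ l) (hy : y ∈ Cyl l x) :
    Cyl j y = Cyl j x := by
  have h1 : ∀ u : List Bool, u.length < j → y u = x u := fun u hu => hy u (hu.trans_le h)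
  ext t
  constructor
  · intro ht u hu
    rw [ht u hu, h1 u hu]
  · intro ht u hu
    rw [ht u hu, h1 u hu]

private theorem hist_RE {A₁ Y : Type} {x y : Tre A₁} {l : ℕ} (hy : y ∈ Cyl l x) :
    ∀ j, j ≤ l → hist (pl_RE Y y) j = hist (pl_RE Y x) j := by
  intro j
  induction j with
  | zero => intro _; rfl
  | succ j ih =>
    intro hj
    show pl_RE Y y j :: hist (pl_RE Y y) j = pl_RE Y x j :: hist (pl_RE Y x) j
    rw [ih (by omega)]
    congr 1
    unfold pl_RE
    rw [eq_RE (by omega : j ≤ l) hy]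

private theorem nbhd_RE {A : Type} (U : Set (Tre A)) (hU : IsOpen[pT A] U) (x : Tre A) (hx : x ∈ U) :
    ∃ l, Cyl l x ⊆ U := by
  obtain ⟨I, u, h1, h2⟩ := (@isOpen_pi_iff (List Bool) (fun _ => A) (fun _ => ⊥) U).1 hU x hx
  refine ⟨I.sup List.length + 1, fun t ht => h2 ?_⟩
  intro i hi
  have h3 : t i = x i := ht i (Nat.lt_succ_of_le (Finset.le_sup (f := List.length) hi))
  rw [h3]
  exact (h1 i hi).2

theorem hRE : StRE := by
  intro A₁ A₂ _ _ _ n τ P f τ' P' f' hR hR' hτ hτ' A hA hW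
  classical
  obtain ⟨σ, hσ0, hw⟩ := hW
  have hleg : ∀ x ∈ A, ∀ l, Legal (P (n + 1)) A (τ' (n + 1)) univ σ (hist (pl_RE (Tre A₂) x) l) ∧
      (σ (hist (pl_RE (Tre A₂) x) l)).Nonempty := by
    intro x hx l
    induction l with
    | zero =>
      refine ⟨trivial, ?_⟩
      show (σ []).Nonempty
      rw [hσ0]
      exact ⟨fun _ => Classical.arbitrary A₂, mem_univ _⟩
    | succ l ih =>
      have h1 : Legal (P (n + 1)) A (τ' (n + 1)) univ σ (pl_RE (Tre A₂) x l :: hist (pl_RE (Tre A₂) x) l) := by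
        refine ⟨ih.1, hR.cyl _ _ _, ?_, ⟨x, self_RE x l, hx⟩, @isOpen_univ _ (τ' (n + 1)), ?_⟩
        · cases l with
          | zero => exact subset_univ _
          | succ l => exact anti_RE x (Nat.le_succ l)
        · obtain ⟨y, hy⟩ := ih.2
          exact ⟨y, ⟨mem_univ _, hy⟩, mem_univ _⟩
      refine ⟨h1, ?_⟩
      obtain ⟨y, hy⟩ := (hw.move _ _ h1).2.2
      exact ⟨y, hy.1⟩
  have hlim : ∀ x ∈ A, ∃ x' : Tre A₂, (∀ l, x' ∈ σ (hist (pl_RE (Tre A₂) x) l)) ∧ f' x' = f x ∧
      ∀ k, ∃ l, σ (hist (pl_RE (Tre A₂) x) l) ⊆ Cyl k x' := by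
    intro x hx
    obtain ⟨x', -, h1⟩ := hw.lim (pl_RE (Tre A₂) x) (fun l => (hleg x hx l).1) x hx
      (fun l => self_RE x l) (by
        intro U hU hxU
        rw [hτ] at hU
        obtain ⟨l, hl⟩ := nbhd_RE U hU x hxU
        exact ⟨l, fun y hy => hl hy.1⟩)
    exact ⟨x', h1⟩
  haveI : Nonempty (Tre A₂) := ⟨fun _ => Classical.arbitrary A₂⟩
  choose! φ hφ1 hφ2 hφ3 using hlim
  refine ⟨φ, hφ2, ?_⟩
  intro x hx k
  obtain ⟨l, hl⟩ := hφ3 x hx k
  refine ⟨l, fun y hy hyl => hl ?_⟩
  rw [← hist_RE hyl l le_rfl]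
  exact hφ1 y hy l

end Pool.Agent.Helper24.WH

end

section

/-!
# PROJECT WH (MP_76577a_lc), module RP: representation of the rank operators by terms (6.2)
-/

set_option autoImplicit false

namespace Pool.Agent.Helper24.WH

open Set TopologicalSpace Topology
open Ordinal hiding univ

variable {X S : Type}

/-- the operator of an optional term (`none` = identity) -/
private def zp_RP (τ : ℕ → TopologicalSpace X) (g : X → S) (m : ℕ) : Option (TT S (m + 1)) → Set X → Set X
  | none, B => B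
  | some t, B => Z τ g (m + 1) t B

/-- countable intersections of operators of optional terms -/
private def pf_RP (τ : ℕ → TopologicalSpace X) (g : X → S) (m : ℕ) (F : ℕ → Option (TT S (m + 1)))
    (B : Set X) : Set X := ⋂ i, zp_RP τ g m (F i) B

section

variable (τ : ℕ → TopologicalSpace X) (g : X → S) (hT : Tow τ) (hF : Fib τ g) (hZM : StZM)
include hT hF hZM

private theorem closedPf_RP (m : ℕ) (F : ℕ → Option (TT S (m + 1))) (B : Set X)
    (hB : IsClosed[τ (m + 1)] B) : IsClosed[τ (m + 1)] (pf_RP τ g m F B) := by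
  refine @isClosed_iInter _ _ (τ (m + 1)) _ fun i => ?_
  cases h : F i with
  | none => exact hB
  | some t => exact ((hZM X S τ g hT hF (m + 1)).1 t).closed B hB

/-- `hom e` of an element of the class is a single term -/
private theorem homPf_RP (m : ℕ) (e : TT S m) (F : ℕ → Option (TT S (m + 1))) :
    ∃ t : TT S (m + 1), ∀ B : Set X, hom τ g m e (pf_RP τ g m F B) = Z τ g (m + 1) t B := by
  by_cases hall : ∀ i, F i = none
  · refine ⟨Tr.leaf e, fun B => ?_⟩
    have h1 : pf_RP τ g m F B = B := by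
      unfold pf_RP
      have : ∀ i, zp_RP τ g m (F i) B = B := fun i => by rw [hall i]; rfl
      rw [iInter_congr this, iInter_const]
    rw [h1]
    rfl
  · push Not at hall
    obtain ⟨i₀, hi₀⟩ := hall
    obtain ⟨t₀, ht₀⟩ := Option.ne_none_iff_exists'.1 hi₀
    refine ⟨Tr.node e (fun i => (F i).getD t₀), fun B => ?_⟩
    have h1 : pf_RP τ g m F B = ⋂ i, Z τ g (m + 1) ((F i).getD t₀) B := by
      unfold pf_RP
      ext y
      simp only [mem_iInter]
      constructor
      · intro hy i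
        cases h : F i with
        | none =>
          have := hy i₀
          rw [ht₀] at this
          exact this
        | some t =>
          have := hy i
          rw [h] at this
          exact this
      · intro hy i
        have := hy i
        cases h : F i with
        | none => exact ((hZM X S τ g hT hF (m + 1)).1 _).le B this
        | some t =>
          rw [h] at this
          exact this
    rw [h1]
    rfl

omit hT hF hZM in
/-- countable intersections -/
private theorem interPf_RP (m : ℕ) (Fs : ℕ → ℕ → Option (TT S (m + 1))) :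
    ∃ F, ∀ B : Set X, pf_RP τ g m F B = ⋂ n, pf_RP τ g m (Fs n) B := by
  refine ⟨fun i => Fs (Nat.unpair i).1 (Nat.unpair i).2, fun B => ?_⟩
  unfold pf_RP
  ext y
  simp only [mem_iInter]
  constructor
  · intro h n i
    have := h (Nat.pair n i)
    simpa using this
  · intro h i
    exact h _ _

/-- `d_L` preserves the class -/
private theorem dlPf_RP (m : ℕ) (L : ℕ → TT S m) (F : ℕ → Option (TT S (m + 1))) :
    ∃ F', ∀ B : Set X, dL τ g m L (pf_RP τ g m F B) = pf_RP τ g m F' B := by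
  choose t ht using fun i => homPf_RP τ g hT hF hZM m (L i) F
  refine ⟨fun i => some (t i), fun B => ?_⟩
  unfold dL
  conv_rhs => unfold pf_RP
  exact iInter_congr fun i => ht i B

/-- countable intersections of `hom` of elements of the class -/
private theorem homsPf_RP (m : ℕ) (L : ℕ → TT S m) (Fs : ℕ → ℕ → Option (TT S (m + 1))) :
    ∃ F', ∀ B : Set X, ⋂ i, hom τ g m (L i) (pf_RP τ g m (Fs i) B) = pf_RP τ g m F' B := by
  choose t ht using fun i => homPf_RP τ g hT hF hZM m (L i) (Fs i)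
  refine ⟨fun i => some (t i), fun B => ?_⟩
  conv_rhs => unfold pf_RP
  exact iInter_congr fun i => ht i B

/-- iterates of `d_L` preserve the class -/
private theorem iterPf_RP (hIT : StIT) (m : ℕ) (L : ℕ → TT S m) (x : ℕ) :
    ∀ F : ℕ → Option (TT S (m + 1)),
    ∃ F', ∀ B : Set X, iter (dL τ g m L) (pf_RP τ g m F B) (ω ^ (x : Ordinal.{0})) = pf_RP τ g m F' B := by
  have hd := (hZM X S τ g hT hF m).2.2 L
  obtain ⟨h0, h1, h2, -, h4, -, h6, -⟩ := hIT X _ hd.mono hd.le
  induction x with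
  | zero =>
    intro F
    obtain ⟨F', hF'⟩ := dlPf_RP τ g hT hF hZM m L F
    refine ⟨F', fun B => ?_⟩
    have := h1 (pf_RP τ g m F B) 0
    rw [h0, zero_add] at this
    rw [Nat.cast_zero, Ordinal.opow_zero, this, hF' B]
  | succ x ih =>
    intro F
    have key : ∀ k : ℕ, ∃ F', ∀ B : Set X,
        iter (dL τ g m L) (pf_RP τ g m F B) (ω ^ (x : Ordinal.{0}) * (k : Ordinal.{0})) = pf_RP τ g m F' B := by
      intro k
      induction k with
      | zero =>
        refine ⟨F, fun B => ?_⟩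
        rw [Nat.cast_zero, mul_zero, h0]
      | succ k ihk =>
        obtain ⟨F₁, hF₁⟩ := ihk
        obtain ⟨F₂, hF₂⟩ := ih F₁
        refine ⟨F₂, fun B => ?_⟩
        rw [Nat.cast_succ, mul_add, mul_one, h4, hF₁, hF₂]
    choose Fs hFs using key
    obtain ⟨F', hF'⟩ := interPf_RP τ g m Fs
    refine ⟨F', fun B => ?_⟩
    have hlim : Order.IsSuccLimit (ω ^ ((x + 1 : ℕ) : Ordinal.{0})) := by
      have hx : ((x + 1 : ℕ) : Ordinal.{0}) ≠ 0 := by exact_mod_cast Nat.succ_ne_zero x
      exact isSuccLimit_opow_left isSuccLimit_omega0 hx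
    rw [h6 _ _ hlim, hF' B]
    apply subset_antisymm
    · refine subset_iInter fun k => ?_
      rw [← hFs k B]
      have hlt : ω ^ (x : Ordinal.{0}) * (k : Ordinal.{0}) < ω ^ ((x + 1 : ℕ) : Ordinal.{0}) := by
        rw [Nat.cast_succ, opow_add, opow_one]
        exact mul_lt_mul_of_pos_left (natCast_lt_omega0 k) (opow_pos _ omega0_pos)
      exact iInter_subset (fun β : Iio (ω ^ ((x + 1 : ℕ) : Ordinal.{0})) =>
        iter (dL τ g m L) (pf_RP τ g m F B) β.1) ⟨_, hlt⟩
    · refine subset_iInter ?_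
      rintro ⟨β, hβ'⟩
      have hβ : β < ω ^ (x : Ordinal.{0}) * ω := by
        have := mem_Iio.1 hβ'
        rw [Nat.cast_succ, opow_add, opow_one] at this
        exact this
      obtain ⟨c, hc, hβc⟩ := (lt_mul_iff_of_isSuccLimit isSuccLimit_omega0).1 hβ
      obtain ⟨k, rfl⟩ := lt_omega0.1 hc
      refine (iInter_subset _ k).trans ?_
      rw [← hFs k B]
      exact h2 _ _ _ hβc.le


/-- the operator `Z m t` for the coarser topology -/
private theorem mcl_RP (m : ℕ) (t : TT S m) : MCL (τ (m + 1)) (Z τ g m t) := by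
  have h := (hZM X S τ g hT hF m).1 t
  refine ⟨h.mono, h.le, fun O B hO => h.loc O B ?_⟩
  exact ⟨@IsClosed.mk X (τ m) O ((hT.mono m) _ (@IsClosed.isOpen_compl X (τ (m + 1)) O hO.1)),
    (hT.mono m) _ hO.2⟩

/-- `hom e` of a finite union of closed sets -/
private theorem homU_RP (hHA : StHA) (m : ℕ) (e : TT S m) {ι : Type} [Finite ι] (C : ι → Set X)
    (hC : ∀ i, IsClosed[τ (m + 1)] (C i)) :
    hom τ g m e (⋃ i, C i) = ⋃ i, hom τ g m e (C i) :=
  hHA X (τ (m + 1)) (Z τ g m e) (hT.zd (m + 1)) (mcl_RP τ g hT hF hZM m e) ι C hC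

omit hT hF hZM in
/-- reindexing by `Fin k` -/
private theorem toFin_RP (m : ℕ) {ι : Type*} [Finite ι] (Q : ι → ℕ → Option (TT S (m + 1))) :
    ∃ (k : ℕ) (P : Fin k → ℕ → Option (TT S (m + 1))),
      ∀ B : Set X, ⋃ i, pf_RP τ g m (Q i) B = ⋃ q, pf_RP τ g m (P q) B := by
  obtain ⟨k, ⟨f⟩⟩ := Finite.exists_equiv_fin ι
  refine ⟨k, Q ∘ f.symm, fun B => ?_⟩
  exact (f.symm.iSup_comp (g := fun i => pf_RP τ g m (Q i) B)).symm

/-- one application of `iter (dL L) _ (ω ^ x)` to a finite union of members of the class -/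
private theorem step_RP [Finite S] (hIT : StIT) (hUF : StUF) (hHA : StHA) (hFN : StFN) (hTB : StTB)
    (hTP : StTP) (hZA : StZA) (m : ℕ) (L : ℕ → TT S m) (x k : ℕ)
    (P : Fin k → ℕ → Option (TT S (m + 1))) :
    ∃ (k' : ℕ) (P' : Fin k' → ℕ → Option (TT S (m + 1))), ∀ B, IsClosed[τ (m + 1)] B →
      iter (dL τ g m L) (⋃ q, pf_RP τ g m (P q) B) (ω ^ (x : Ordinal.{0})) =
        ⋃ q, pf_RP τ g m (P' q) B := by
  have hd := (hZM X S τ g hT hF m).2.2 L
  rcases Nat.eq_zero_or_pos x with rfl | hx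
  · obtain ⟨hrefl, htrans⟩ := hTP.2.1 S m
    obtain ⟨Cs, hCs, -, hCeq⟩ := hFN (TT S m × Fin k) (fun a b => TT.Le m a.1 b.1 ∧ a.2 = b.2)
      (fun a => ⟨hrefl a.1, rfl⟩) (fun a b c hab hbc => ⟨htrans _ _ _ hab.1 hbc.1, hab.2.trans hbc.2⟩)
      (hTB S m k).2.2 (fun i => {L i} ×ˢ univ) (fun i => (finite_singleton _).prod finite_univ)
    choose F' hF' using fun c : ℕ → TT S m × Fin k =>
      homsPf_RP τ g hT hF hZM m (fun i => (c i).1) (fun i => P (c i).2)
    have : Finite Cs := hCs.to_subtype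
    obtain ⟨k', P', hP'⟩ := toFin_RP τ g m (fun c : Cs => F' c.1)
    refine ⟨k', P', fun B hB => ?_⟩
    have hcl : ∀ q, IsClosed[τ (m + 1)] (pf_RP τ g m (P q) B) := fun q =>
      closedPf_RP τ g hT hF hZM m (P q) B hB
    have h2 := hCeq X (fun e => hom τ g m e.1 (pf_RP τ g m (P e.2) B)) (by
      rintro ⟨a, q⟩ ⟨b, q'⟩ ⟨hab, hq⟩
      simp only at hab hq
      subst hq
      exact (hZA X S τ g m).2.1 a b hab _)
    have h3 : dL τ g m L (⋃ q, pf_RP τ g m (P q) B) = ⋂ i, ⋃ e ∈ ({L i} ×ˢ univ : Set (TT S m × Fin k)),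
        hom τ g m e.1 (pf_RP τ g m (P e.2) B) := by
      unfold dL
      refine iInter_congr fun i => ?_
      rw [homU_RP τ g hT hF hZM hHA m (L i) _ hcl]
      ext y
      simp only [mem_iUnion, mem_prod, mem_singleton_iff, mem_univ, and_true, exists_prop, Prod.exists]
      constructor
      · rintro ⟨q, hq⟩
        exact ⟨L i, q, rfl, hq⟩
      · rintro ⟨_, q, rfl, hq⟩
        exact ⟨q, hq⟩
    obtain ⟨h0, h1, -⟩ := hIT X _ hd.mono hd.le
    have h4 := h1 (⋃ q, pf_RP τ g m (P q) B) 0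
    rw [h0, zero_add] at h4
    rw [Nat.cast_zero, Ordinal.opow_zero, h4, h3, h2, ← hP' B, biUnion_eq_iUnion]
    exact iUnion_congr fun c => hF' c.1 B
  · choose F' hF' using fun q => iterPf_RP τ g hT hF hZM hIT m L x (P q)
    refine ⟨k, F', fun B hB => ?_⟩
    have hcl : ∀ q, IsClosed[τ (m + 1)] (pf_RP τ g m (P q) B) := fun q =>
      closedPf_RP τ g hT hF hZM m (P q) B hB
    have h1 : (1 : Ordinal.{0}) ≤ (x : Ordinal.{0}) := by exact_mod_cast hx
    rw [(hUF X (τ (m + 1)) (hT.zd (m + 1)) (Fin k)).2 _ hd _ (x : Ordinal.{0}) hcl h1]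
    exact iUnion_congr fun q => hF' q B


/-- from `Zo` to `HomOp` -/
private theorem two_RP (hHU : StHU) (m : ℕ) (z : Set X → Set X) (hz : MCL (τ (m + 1)) z)
    (M : Set (TT S m)) (hM : M.Finite) (h : ∀ B, IsClosed[τ m] B → z B = ⋃ t ∈ M, Z τ g m t B) :
    ∀ B, IsClosed[τ (m + 1)] B → HomOp (τ (m + 1)) z B = ⋃ t ∈ M, hom τ g m t B := by
  intro B hB
  have : Finite M := hM.to_subtype
  have h1 := hHU X (τ (m + 1)) z (hT.zd _) hz M (fun t => Z τ g m t.1)
    (fun t => mcl_RP τ g hT hF hZM m t.1) (fun W hW => by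
      rw [h W (@IsClosed.mk X (τ m) W ((hT.mono m) _ (@IsClosed.isOpen_compl X (τ (m + 1)) W hW))),
        biUnion_eq_iUnion]) B hB
  rw [h1, biUnion_eq_iUnion]
  rfl

end

/-- iterates of two operators that agree on closed sets -/
private theorem iterCongr_RP (hIL : StIL) (τ : TopologicalSpace X) (d d' : Set X → Set X)
    (hd' : IsDer τ d') (h : ∀ B, IsClosed[τ] B → d B = d' B) (B : Set X) (hB : IsClosed[τ] B)
    (α : Ordinal.{0}) : iter d B α = iter d' B α := by
  induction α using WellFoundedLT.induction with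
  | ind α ih =>
    rw [iter, iter]
    congr 1
    refine iInter_congr fun β => ?_
    rw [ih β.1 β.2]
    exact h _ ((hIL X τ d' hd' β.1).closed B hB)

/-- from `HomOp` to `del` -/
private theorem three_RP [Finite S] (hIL : StIL) (hUF : StUF) (hFN : StFN) (hTB : StTB) (hTP : StTP)
    (hZM : StZM) (hZA : StZA) (hCA : StCA) (τ : ℕ → TopologicalSpace X) (g : X → S) (hT : Tow τ)
    (hF : Fib τ g) (f : X → Bool) (m : ℕ)
    (h2 : ∀ (c : Cd m) (s : Bool), ∃ M : Set (TT S m), M.Finite ∧ ∀ B, IsClosed[τ (m + 1)] B →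
      HomOp (τ (m + 1)) (Zo τ f m c s) B = ⋃ t ∈ M, hom τ g m t B)
    (hle : ∀ (c : Cd m) s B, HomOp (τ (m + 1)) (Zo τ f m c s) B ⊆ B)
    (c : Cd m) (hne : {p : Cd m × Bool | Cd.wf m p.1 ∧ Cd.vd m p.1 ∧ p.1 ≤ c}.Nonempty) :
    ∃ C : Set (ℕ → TT S m), C.Finite ∧ ∀ B, IsClosed[τ (m + 1)] B →
      del τ f m c B = ⋃ L ∈ C, dL τ g m L B ∧
      ∀ x : Ordinal.{0}, iter (del τ f m c) B (ω ^ x) = ⋃ L ∈ C, iter (dL τ g m L) B (ω ^ x) := by
  have hct : Countable (Cd m) := (hCA m).1
  obtain ⟨e, he⟩ := (Set.to_countable {p : Cd m × Bool | Cd.wf m p.1 ∧ Cd.vd m p.1 ∧ p.1 ≤ c}).exists_eq_range hne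
  have hdel : ∀ Y, del τ f m c Y = ⋂ n, HomOp (τ (m + 1)) (Zo τ f m (e n).1 (e n).2) Y := by
    intro Y
    unfold del delOf
    ext y
    simp only [mem_inter_iff, mem_iInter]
    constructor
    · rintro ⟨-, h⟩ n
      have hn : e n ∈ {p : Cd m × Bool | Cd.wf m p.1 ∧ Cd.vd m p.1 ∧ p.1 ≤ c} := he ▸ mem_range_self n
      exact h _ hn _
    · intro h
      refine ⟨hle _ _ _ (h 0), fun c' hc' s => ?_⟩
      have : (c', s) ∈ range e := he ▸ hc'
      obtain ⟨n, hn⟩ := this
      have := h n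
      rwa [hn] at this
  choose M hM hMeq using h2
  obtain ⟨hrefl, htrans⟩ := hTP.2.1 S m
  obtain ⟨Cs, hCs, -, hCeq⟩ := hFN (TT S m) (TT.Le m) hrefl htrans (hTB S m 0).2.1
    (fun i => M (e i).1 (e i).2) (fun i => hM _ _)
  have hrep : ∀ B, IsClosed[τ (m + 1)] B → del τ f m c B = ⋃ L ∈ Cs, dL τ g m L B := by
    intro B hB
    have h3 := hCeq X (fun t => hom τ g m t B) (fun a b hab => (hZA X S τ g m).2.1 a b hab B)
    rw [hdel B, iInter_congr fun n => hMeq (e n).1 (e n).2 B hB, h3]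
    rfl
  refine ⟨Cs, hCs, fun B hB => ⟨hrep B hB, fun x => ?_⟩⟩
  have : Finite Cs := hCs.to_subtype
  obtain ⟨hd', hit⟩ := (hUF X (τ (m + 1)) (hT.zd _) Cs).1 (fun L => dL τ g m L.1)
    (fun L => (hZM X S τ g hT hF m).2.2 L.1)
  rw [iterCongr_RP hIL (τ (m + 1)) _ _ hd' (fun B hB => by rw [hrep B hB, biUnion_eq_iUnion]) B hB,
    hit B x hB, biUnion_eq_iUnion]

theorem hRP (hRB : StRB) (hCA : StCA) (hHA : StHA) (hHU : StHU) (hUF : StUF) (hFN : StFN)
    (hTB : StTB) (hTP : StTP) (hZM : StZM) (hZA : StZA) (hIT : StIT) (hIL : StIL) : StRP := by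
  intro S _ h X τ g hT hF m
  have hfib : ∀ s, Clp (τ 0) ((h ∘ g) ⁻¹' {s}) := by
    intro s
    have e : (h ∘ g) ⁻¹' {s} = ⋃ t ∈ {t : S | h t = s}, g ⁻¹' {t} := by
      ext y
      simp
    rw [e]
    exact @Set.Finite.isClopen_biUnion X (τ 0) _ _ _ (Set.toFinite _) (fun t _ => hF t)
  have hRBm := hRB X τ (h ∘ g) hT hfib
  have hle : ∀ m (c : Cd m) s B, HomOp (τ (m + 1)) (Zo τ (h ∘ g) m c s) B ⊆ B := fun m c s B =>
    ((hRBm m).2.2.2 c s).le B
  -- `HomOp`
  have two : ∀ m, (∀ (c : Cd m) (s : Bool), ∃ M : Set (TT S m), M.Finite ∧ ∀ B, IsClosed[τ m] B →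
      Zo τ (h ∘ g) m c s B = ⋃ t ∈ M, Z τ g m t B) →
      ∀ (c : Cd m) (s : Bool), ∃ M : Set (TT S m), M.Finite ∧ ∀ B, IsClosed[τ (m + 1)] B →
        HomOp (τ (m + 1)) (Zo τ (h ∘ g) m c s) B = ⋃ t ∈ M, hom τ g m t B := by
    intro m h1 c s
    obtain ⟨M, hM, hMeq⟩ := h1 c s
    refine ⟨M, hM, two_RP τ g hT hF hZM hHU m _ ?_ M hM hMeq⟩
    have hd := (hRBm m).2.1 c s
    refine ⟨hd.mono, hd.le, fun O B hO => hd.loc O B ?_⟩
    exact ⟨@IsClosed.mk X (τ m) O ((hT.mono m) _ (@IsClosed.isOpen_compl X (τ (m + 1)) O hO.1)),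
      (hT.mono m) _ hO.2⟩
  -- `Vo`
  have list : ∀ m, (∀ (c : Cd m) (s : Bool), ∃ M : Set (TT S m), M.Finite ∧ ∀ B, IsClosed[τ (m + 1)] B →
        HomOp (τ (m + 1)) (Zo τ (h ∘ g) m c s) B = ⋃ t ∈ M, hom τ g m t B) →
      ∀ l : List (Cd m ×ₗ ℕ), ∃ (k : ℕ) (P : Fin k → ℕ → Option (TT S (m + 1))),
        ∀ B, IsClosed[τ (m + 1)] B →
          Vo τ (h ∘ g) (m + 1) (Cd.of l) B = ⋃ q, pf_RP τ g m (P q) B := by
    intro m h2 l
    induction l using List.reverseRecOn with
    | nil =>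
      refine ⟨1, fun _ _ => none, fun B _ => ?_⟩
      have e : ∀ q : Fin 1, pf_RP τ g m ((fun _ _ => none : Fin 1 → ℕ → Option (TT S (m + 1))) q) B = B := by
        intro q
        unfold pf_RP
        exact iInter_const B
      rw [iUnion_congr e, iUnion_const]
      rfl
    | append_singleton l e ih =>
      obtain ⟨k, P, hP⟩ := ih
      have hV : ∀ B, Vo τ (h ∘ g) (m + 1) (Cd.of (l ++ [e])) B =
          iter (del τ (h ∘ g) m (ofLex e).1) (Vo τ (h ∘ g) (m + 1) (Cd.of l) B)
            (ω ^ ((ofLex e).2 : Ordinal.{0})) := by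
        intro B
        show foldV (τ (m + 1)) m (VZ τ (h ∘ g) m).2 (l ++ [e]) B = _
        unfold foldV
        rw [List.foldl_append]
        rfl
      have hcl : ∀ B, IsClosed[τ (m + 1)] B → IsClosed[τ (m + 1)] (Vo τ (h ∘ g) (m + 1) (Cd.of l) B) :=
        fun B hB => ((hRBm (m + 1)).1 _).closed B hB
      rcases {p : Cd m × Bool | Cd.wf m p.1 ∧ Cd.vd m p.1 ∧ p.1 ≤ (ofLex e).1}.eq_empty_or_nonempty
        with hem | hne
      · refine ⟨k, P, fun B hB => ?_⟩
        have hd := (hRBm m).2.2.1 (ofLex e).1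
        have h8 := (hIT X _ hd.mono hd.le).2.2.2.2.2.2.2.1
        rw [hV B, h8 _ _ ?_, hP B hB]
        intro y hy
        unfold del delOf
        refine ⟨hy, ?_⟩
        simp only [mem_iInter]
        intro c' hc' s
        have : (c', s) ∈ {p : Cd m × Bool | Cd.wf m p.1 ∧ Cd.vd m p.1 ∧ p.1 ≤ (ofLex e).1} := hc'
        rw [hem] at this
        exact absurd this (by simp)
      · obtain ⟨Cs, hCs, hCeq⟩ := three_RP hIL hUF hFN hTB hTP hZM hZA hCA τ g hT hF (h ∘ g) m h2 (hle m)
          (ofLex e).1 hne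
        have : Finite Cs := hCs.to_subtype
        choose k' P' hP' using fun L : Cs => step_RP τ g hT hF hZM hIT hUF hHA hFN hTB hTP hZA m L.1
          (ofLex e).2 k P
        obtain ⟨k'', P'', hP''⟩ := toFin_RP τ g m (fun p : (Σ L : Cs, Fin (k' L)) => P' p.1 p.2)
        refine ⟨k'', P'', fun B hB => ?_⟩
        rw [hV B, (hCeq _ (hcl B hB)).2, hP B hB, ← hP'' B, iUnion_sigma, biUnion_eq_iUnion]
        exact iUnion_congr fun L => hP' L B hB
  have one : ∀ m, ∀ (c : Cd m) (s : Bool), ∃ M : Set (TT S m), M.Finite ∧ ∀ B, IsClosed[τ m] B →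
      Zo τ (h ∘ g) m c s B = ⋃ t ∈ M, Z τ g m t B := by
    intro m
    induction m with
    | zero =>
      intro c s
      have hfin : Finite (TT S 0) := inferInstanceAs (Finite S)
      refine ⟨{t : TT S 0 | h t = s}, Set.toFinite _, fun B _ => ?_⟩
      show B ∩ (h ∘ g) ⁻¹' {s} = ⋃ t ∈ {t : TT S 0 | h t = s}, B ∩ g ⁻¹' {(t : S)}
      ext y
      simp only [mem_inter_iff, mem_preimage, Function.comp_apply, mem_singleton_iff, Set.mem_ofPred_eq,
        mem_iUnion, exists_prop]
      constructor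
      · rintro ⟨h1, h2⟩
        exact ⟨g y, h2, h1, rfl⟩
      · rintro ⟨t, h1, h2, h3⟩
        refine ⟨h2, ?_⟩
        rw [h3]
        exact h1
    | succ m ih =>
      intro c s
      obtain ⟨M, hM, hMeq⟩ := two m ih (lastc c.L) s
      obtain ⟨k, P, hP⟩ := list m (two m ih) c.L.dropLast
      choose T hTT using fun (e : TT S m) (F : ℕ → Option (TT S (m + 1))) =>
        homPf_RP τ g hT hF hZM m e F
      refine ⟨(fun p : TT S m × Fin k => T p.1 (P p.2)) '' (M ×ˢ univ),
        (hM.prod finite_univ).image _, fun B hB => ?_⟩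
      have hcl : ∀ q, IsClosed[τ (m + 1)] (pf_RP τ g m (P q) B) := fun q =>
        closedPf_RP τ g hT hF hZM m (P q) B hB
      have hclV : IsClosed[τ (m + 1)] (⋃ q, pf_RP τ g m (P q) B) :=
        @isClosed_iUnion_of_finite _ _ (τ (m + 1)) _ _ hcl
      show HomOp (τ (m + 1)) (Zo τ (h ∘ g) m (lastc c.L) s) (Vo τ (h ∘ g) (m + 1) (Cd.of c.L.dropLast) B) = _
      rw [hP B hB, hMeq _ hclV]
      have e1 : ∀ t : TT S m, hom τ g m t (⋃ q, pf_RP τ g m (P q) B) =
          ⋃ q, Z τ g (m + 1) (T t (P q)) B := by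
        intro t
        rw [homU_RP τ g hT hF hZM hHA m t _ hcl]
        exact iUnion_congr fun q => hTT t (P q) B
      simp only [e1]
      ext y
      simp only [mem_iUnion, mem_image, mem_prod, mem_univ, and_true, Prod.exists, exists_prop]
      constructor
      · rintro ⟨t, ht, q, hq⟩
        exact ⟨_, ⟨t, q, ht, rfl⟩, hq⟩
      · rintro ⟨_, ⟨t, q, ht, rfl⟩, hq⟩
        exact ⟨t, ht, q, hq⟩
  refine ⟨one m, two m (one m), fun c hc hb => ?_⟩
  refine three_RP hIL hUF hFN hTB hTP hZM hZA hCA τ g hT hF (h ∘ g) m (two m (one m)) (hle m) c ?_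
  obtain ⟨-, hbot, hwb, -, hr, -⟩ := hCA m
  obtain ⟨r, h1, h2, -, h3⟩ := hr _ c hwb hc (lt_of_le_of_ne (hbot c) (Ne.symm hb))
  exact ⟨(r, true), h1, h2, h3⟩

end Pool.Agent.Helper24.WH

end

section

set_option autoImplicit false

namespace Pool.Agent.Helper24.WH

private theorem refl_TP {A : Type} {r : A → A → Prop} (hr : ∀ a, r a a) :
    ∀ t : Tr A, Tr.Le r t t := by
  intro t
  induction t with
  | leaf U => exact Tr.Le.leaf U _ (hr U)
  | node U F ih =>
    exact Tr.Le.node U F _ (hr U) (fun i => Tr.Le.sub _ U F i (ih i))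

private theorem inner_TP {A : Type} {r : A → A → Prop}
    (ht : ∀ a b c, r a b → r b c → r a c) (u v : Tr A) (hlab : r u.lab v.lab)
    (hch : ∀ U F, u = Tr.node U F → ∀ (i : ℕ) (t : Tr A), Tr.Le r t (F i) → Tr.Le r t v) :
    ∀ t u' : Tr A, Tr.Le r t u' → u' = u → Tr.Le r t v := by
  intro t u' h
  induction h with
  | sub t U' F' j h ih =>
    intro e
    exact hch U' F' e.symm j t h
  | leaf U t' h =>
    intro e
    subst e
    exact Tr.Le.leaf U v (ht _ _ _ h hlab)
  | node U F t' h hF ih =>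
    intro e
    have h2 : r U v.lab := by
      subst e
      exact ht _ _ _ h hlab
    exact Tr.Le.node U F v h2 (fun i => ih i e)

private theorem trans_TP {A : Type} {r : A → A → Prop}
    (ht : ∀ a b c, r a b → r b c → r a c) :
    ∀ u v : Tr A, Tr.Le r u v → ∀ t, Tr.Le r t u → Tr.Le r t v := by
  intro u v h
  induction h with
  | sub u U' F' j h ih =>
    intro t htu
    exact Tr.Le.sub t U' F' j (ih t htu)
  | leaf U v h =>
    intro t htu
    refine inner_TP ht (Tr.leaf U) v h ?_ t _ htu rfl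
    intro U' F' e
    cases e
  | node U F v h hF ih =>
    intro t htu
    refine inner_TP ht (Tr.node U F) v h ?_ t _ htu rfl
    intro U' F' e i t' h'
    cases e
    exact ih i t' h'

private theorem lab_map_TP {A B : Type} (G : A → B) (t : Tr A) : (t.map G).lab = G t.lab := by
  cases t <;> rfl

private theorem map_TP {A B : Type} {r : A → A → Prop} {r' : B → B → Prop} (G : A → B)
    (hG : ∀ a b, r a b → r' (G a) (G b)) :
    ∀ t u : Tr A, Tr.Le r t u → Tr.Le r' (t.map G) (u.map G) := by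
  intro t u h
  induction h with
  | sub t U' F' j h ih =>
    exact Tr.Le.sub _ _ (fun i => (F' i).map G) j ih
  | leaf U t' h =>
    refine Tr.Le.leaf _ _ ?_
    rw [lab_map_TP]
    exact hG _ _ h
  | node U F t' h hF ih =>
    refine Tr.Le.node _ _ _ ?_ ih
    rw [lab_map_TP]
    exact hG _ _ h

private theorem tt_TP (S : Type) (m : ℕ) : (∀ t : TT S m, TT.Le m t t) ∧
    (∀ t u v : TT S m, TT.Le m t u → TT.Le m u v → TT.Le m t v) := by
  induction m with
  | zero =>
    constructor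
    · intro t
      exact rfl
    · intro t u v h1 h2
      exact Eq.trans (α := S) h1 h2
  | succ m ih =>
    constructor
    · intro t
      exact refl_TP ih.1 t
    · intro t u v h1 h2
      exact trans_TP ih.2 u v h2 t h1

theorem hTP : StTP := by
  refine ⟨?_, ?_, ?_⟩
  · intro A r hr ht
    exact ⟨refl_TP hr, fun t u v h1 h2 => trans_TP ht u v h2 t h1⟩
  · intro S m
    exact tt_TP S m
  · intro S' S G m
    induction m with
    | zero =>
      intro t u h
      exact congrArg G (show (t : S') = u from h)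
    | succ m ih =>
      intro t u h
      exact map_TP (TT.map G m) (fun a b hab => ih a b hab) t u h

end Pool.Agent.Helper24.WH

end

section

/-!
# Project WH (MP_76577a_lc), module UB: the upper bound
-/

set_option autoImplicit false

namespace Pool.Agent.Helper24.WH

open Set TopologicalSpace Topology
open Ordinal hiding univ

/-- the ranks of a well-founded relation are bounded by any strictly monotone ordinal valued function -/
private theorem rank_le_UB {X : Type} {R : X → X → Prop} (h : WellFounded R) (o : X → Ordinal.{0})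
    (ho : ∀ x y, R x y → o x < o y) (x : X) : (h.apply x).rank ≤ o x := by
  refine h.induction (C := fun x => (h.apply x).rank ≤ o x) x ?_
  intro x ih
  rw [Acc.rank_eq]
  refine Ordinal.iSup_le ?_
  rintro ⟨y, hy⟩
  exact Order.succ_le_of_lt (lt_of_le_of_lt (ih y hy) (ho y x hy))

theorem hUB (hF7 : StF7) (hDE : StDE) (hOR : StOR) : StUB := by
  classical
  intro P _
  -- one ordinal valued function
  have key : ∀ L : {L : Set (Tre (Set P)) // Definable L}, ∃ (f : Tre (Set P) → Bool) (n : ℕ) (r : Cd n) (sd : Bool → Prop),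
      Dat f n r sd ∧ L.1 = {t | f t = true} := by
    rintro ⟨L, hL⟩
    obtain ⟨S, _, n, g, Ga, h, hyp, e⟩ := hF7 P L hL
    obtain ⟨r, sd, hd⟩ := hDE (Set P) S n g Ga h hyp
    exact ⟨h ∘ g, n, r, sd, hd, e⟩
  choose f n r sd hd hf using key
  set o : {L : Set (Tre (Set P)) // Definable L} → Ordinal.{0} := fun L => ordD (r L) (sd L) with hodef
  have hred : ∀ L L', WLe L.1 L'.1 ↔ WRed (f L) (f L') := by
    intro L L'
    constructor
    · rintro ⟨F, hc, hF⟩
      refine ⟨F, hc, fun x => ?_⟩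
      have h1 : f L' (F x) = true ↔ f L x = true := by
        have h2 : x ∈ F ⁻¹' L'.1 ↔ x ∈ L.1 := by rw [hF]
        rw [hf L, hf L'] at h2
        exact h2
      exact Bool.eq_iff_iff.mpr h1
    · rintro ⟨F, hc, hF⟩
      refine ⟨F, hc, ?_⟩
      ext x
      rw [hf L, hf L']
      show f L' (F x) = true ↔ f L x = true
      rw [hF x]
  have ho : ∀ L L', wlt P L L' → o L < o L' := by
    rintro L L' ⟨h1, h2⟩
    exact (hOR (Set P) (Set P) (f L) (f L') (n L) (n L') (r L) (r L') (sd L) (sd L') (hd L) (hd L')).2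
      ((hred L L').1 h1) (fun h3 => h2 ((hred L' L).2 h3))
  have hoe : ∀ L, o L < Ordinal.epsilon 0 := fun L =>
    (hOR (Set P) (Set P) (f L) (f L) (n L) (n L) (r L) (r L) (sd L) (sd L) (hd L) (hd L)).1
  have hw : WellFounded (wlt P) := Subrelation.wf (fun {a b} h => ho a b h) (InvImage.wf o Ordinal.lt_wf)
  exact ⟨hw, fun L => lt_of_le_of_lt (rank_le_UB hw o ho L) (hoe L)⟩

end Pool.Agent.Helper24.WH

end
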