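import Pool.Agent.Helper24.WH.St1
import Pool.Agent.Helper24.WH.St3
import Pool.Agent.Helper24.WH.St4
import Pool.Agent.Helper24.WH.St5
import Pool.Agent.Helper24.WH.St6
import Pool.Agent.Helper24.WH.St7
import Pool.Agent.Helper76.WHC.B0

set_option autoImplicit false

section

/-!
# PROJECT WH, module BA: a fixpoint of `del c` has `V_c` dense
-/

set_option autoImplicit false

namespace Pool.Agent.Helper24.WH

open Set TopologicalSpace Topology
open Ordinal hiding univ

/-- a closed set for a topology with a countable basis of sets closed for a second topology is `G_δ` there -/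
private theorem gd_BA {X : Type} (σ σ' : TopologicalSpace X) (P : Set (Set X)) (hc : P.Countable)
    (hcl : ∀ O ∈ P, IsClosed[σ'] O)
    (hb : ∀ (x : X) (U : Set X), IsOpen[σ] U → x ∈ U → ∃ O ∈ P, x ∈ O ∧ O ⊆ U)
    (F : Set X) (hF : IsClosed[σ] F) : @IsGδ X σ' F := by
  refine ⟨{V | ∃ O ∈ P, O ⊆ Fᶜ ∧ V = Oᶜ}, ?_, ?_, ?_⟩
  · rintro V ⟨O, hO, -, rfl⟩
    exact @IsClosed.isOpen_compl X σ' O (hcl O hO)
  · refine (hc.image compl).mono ?_
    rintro V ⟨O, hO, -, rfl⟩
    exact ⟨O, hO, rfl⟩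
  · ext x
    simp only [mem_sInter, mem_ofPred_eq]
    constructor
    · rintro hx V ⟨O, -, hOF, rfl⟩ hxO
      exact hOF hxO hx
    · intro h
      by_contra hx
      have hop : IsOpen[σ] (Fᶜ) := @IsClosed.isOpen_compl X σ F hF
      obtain ⟨O, hO, hxO, hOF⟩ := hb x Fᶜ hop hx
      exact h Oᶜ ⟨O, hO, hOF, rfl⟩ hxO

/-- Baire category on a closed subset of a Polish space -/
private theorem baire_BA {X : Type} [TopologicalSpace X] [PolishSpace X] {B : Set X} (hB : IsClosed B)
    {ι : Type} [Countable ι] (D : ι → Set X) (hG : ∀ i, IsGδ (D i)) (hDB : ∀ i, D i ⊆ B)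
    (hD : ∀ i, B ⊆ closure (D i)) : B ⊆ closure (B ∩ ⋂ i, D i) := by
  have : PolishSpace B := hB.polishSpace
  have hd : Dense (⋂ i, ((Subtype.val : B → X) ⁻¹' (D i))) := by
    refine dense_iInter_of_Gδ (fun i => ?_) (fun i => ?_)
    · exact (hG i).preimage continuous_subtype_val
    · intro x
      rw [closure_subtype, Subtype.image_preimage_coe, inter_eq_right.2 (hDB i)]
      exact hD i x.2
  intro x hx
  have h1 := hd ⟨x, hx⟩
  rw [closure_subtype] at h1
  refine closure_mono ?_ h1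
  rintro y ⟨z, hz, rfl⟩
  refine ⟨z.2, ?_⟩
  simp only [mem_iInter, mem_preimage] at hz ⊢
  exact hz

/-- the fibres of `h ∘ g` -/
private theorem fib_BA {X S : Type} [Finite S] (τ : ℕ → TopologicalSpace X) (g : X → S) (h : S → Bool)
    (hg : Fib τ g) (s : Bool) : Clp (τ 0) ((h ∘ g) ⁻¹' {s}) := by
  have e : (h ∘ g) ⁻¹' {s} = ⋃ s' ∈ {s' : S | h s' = s}, g ⁻¹' {s'} := by
    ext x
    simp
  rw [e]
  let _i := τ 0
  exact Set.Finite.isClopen_biUnion (Set.toFinite _) (fun i _ => hg i)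

private theorem Vbot_BA {X : Type} (τ : ℕ → TopologicalSpace X) (f : X → Bool) (m : ℕ) (B : Set X) :
    Vo τ f m (Cd.bot m) B = B := by
  cases m with
  | zero =>
    change {x ∈ B | Cd.B (Cd.bot 0) = false} = B
    ext x
    exact ⟨fun h => h.1, fun h => ⟨h, rfl⟩⟩
  | succ m => rfl

theorem hBA (hCA : StCA) (hRA : StRA) (hRB : StRB) : StBA := by
  intro X S _ n τ g h P hS m hm c hc B hB hfix
  obtain ⟨hcnt, hbotle, hwfb, -, hval, -⟩ := hCA m
  obtain ⟨-, -, -, hZle, -, -, -, -, hZV, hVZ, hlim, -⟩ := hRA X τ (h ∘ g) m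
  obtain ⟨-, hZder, -⟩ := hRB X τ (h ∘ g) hS.tow (fib_BA τ g h hS.fib) m
  by_cases hbot : c = Cd.bot m
  · subst hbot
    rw [Vbot_BA]
    exact @subset_closure X (τ (m + 1)) B
  -- the family of all valid codes below `c`
  let D : {c' : Cd m // Cd.wf m c' ∧ Cd.vd m c' ∧ c' ≤ c} × Bool → Set X :=
    fun p => Zo τ (h ∘ g) m p.1.1 p.2 B
  have hBm : IsClosed[τ m] B := @IsClosed.mono X (τ m) (τ (m + 1)) B hB (hS.tow.mono m)
  have hclD : ∀ p, IsClosed[τ m] (D p) := fun p => (hZder p.1.1 p.2).closed B hBm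
  have hGD : ∀ p, @IsGδ X (τ (m + 1)) (D p) := fun p =>
    gd_BA (τ m) (τ (m + 1)) (P (m + 1)) (hS.cnt (m + 1)) (hS.cl (m + 1) hm)
      (hS.basis m (Nat.le_of_succ_le hm)) (D p) (hclD p)
  have hDB : ∀ p, D p ⊆ B := fun p => hZle _ _ _
  have hden : ∀ p, B ⊆ closure[τ (m + 1)] (D p) := by
    rintro ⟨⟨c', hc'⟩, s⟩
    obtain ⟨h1, -, h3, -⟩ := hHO X (τ (m + 1)) (Zo τ (h ∘ g) m c' s) (fun A B hAB =>
      (hRA X τ (h ∘ g) m).2.2.1 c' s A B hAB)
    have h4 : B ⊆ HomOp (τ (m + 1)) (Zo τ (h ∘ g) m c' s) B := by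
      intro x hx
      have h5 := hfix hx
      have h6 := h5.2
      simp only [mem_iInter] at h6
      exact h6 c' hc' s
    have h5 : HomOp (τ (m + 1)) (Zo τ (h ∘ g) m c' s) B = B := Subset.antisymm (h1 B) h4
    have h6 := h3 B
    rw [h5] at h6
    exact h6
  have hmain := @baire_BA X (τ (m + 1)) (hS.pol (m + 1) hm) B hB _ _ D hGD hDB hden
  refine hmain.trans (@closure_mono X (τ (m + 1)) _ _ ?_)
  rintro x ⟨hxB, hx⟩
  simp only [mem_iInter] at hx
  by_cases hvc : Cd.vd m c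
  · rw [hVZ c B hc hvc]
    exact ⟨hx ⟨⟨c, hc, hvc, le_rfl⟩, false⟩, hx ⟨⟨c, hc, hvc, le_rfl⟩, true⟩⟩
  · refine hlim c B hc hvc hbot x (fun c' hc' hlt => ?_)
    obtain ⟨r, hr, hvr, hcr, hrc⟩ := hval c' c hc' hc hlt
    exact hZV r c' false B hr hvr hc' hcr (hx ⟨⟨r, hr, hvr, hrc⟩, false⟩)

end Pool.Agent.Helper24.WH

end

section

/-!
# PROJECT WH, module C0: the case `M = 0` of the comparison theorem
-/

set_option autoImplicit false

namespace Pool.Agent.Helper24.WH

open Set TopologicalSpace Topology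

/-- a strategy built from single steps which see the length of the history and the current set -/
noncomputable def strat_C0 {X Y : Type} (Q : Set Y)
    (step : Set X × Set Y → ℕ → Set Y → Set Y) : Hist X Y → Set Y
  | [] => Q
  | mv :: h => step mv h.length (strat_C0 Q step h)

private theorem length_hist_C0 {X Y : Type} (p : ℕ → Set X × Set Y) : ∀ l, (hist p l).length = l
  | 0 => rfl
  | l + 1 => by rw [hist, List.length_cons, length_hist_C0 p l]

theorem hC0 (hSH : StSH) : StC0 := by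
  classical
  intro X A₂ n τ P f τ' P' f' hP hP' s A hA A' hA' Q hQ hf hcl
  set E : Set (Tre A₂) := A' ∩ f' ⁻¹' {s} with hE
  have hEP : E ∈ P' 0 := hP'.rich.fP A' hA' s
  have hEA : E ⊆ A' := inter_subset_left
  have hEcl : IsClosed[τ' 0] E := hP'.rich.cl 0 (Nat.zero_le _) E hEP
  obtain ⟨m, hm, hc⟩ := (@PolishSpace.toIsCompletelyMetrizableSpace _ (τ' 0) hP'.rich.pol).complete
  -- the balls are open
  have hball : ∀ z (ε : ℝ), IsOpen[τ' 0] (@Metric.ball _ m.toPseudoMetricSpace z ε) := by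
    intro z ε
    rw [← hm]
    exact @Metric.isOpen_ball _ m.toPseudoMetricSpace z ε
  -- good answers
  let G : Set X × Set (Tre A₂) → ℕ → Set (Tre A₂) → Set (Tre A₂) → Prop := fun mv k R Q₁ =>
    Q₁ ∈ P' 1 ∧ Q₁ ⊆ mv.2 ∩ R ∧ (∃ z, z ∈ Q₁ ∩ E ∧ Q₁ ⊆ Cyl k z ∧
      Q₁ ⊆ @Metric.ball _ m.toPseudoMetricSpace z ((1 / 2 : ℝ) ^ k)) ∧
      Q₁ ⊆ closure[τ' 1] (Q₁ ∩ E)
  let step : Set X × Set (Tre A₂) → ℕ → Set (Tre A₂) → Set (Tre A₂) := fun mv k R =>
    if h : ∃ Q₁, G mv k R Q₁ then h.choose else ∅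
  let σ : Hist X (Tre A₂) → Set (Tre A₂) := strat_C0 Q step
  have hσ0 : σ [] = Q := rfl
  have hσ1 : ∀ mv h, σ (mv :: h) = step mv h.length (σ h) := fun _ _ => rfl
  -- an answer exists
  have hex : ∀ (mv : Set X × Set (Tre A₂)) (k : ℕ) (R : Set (Tre A₂)), R ∈ P' 1 →
      A' ∩ R ⊆ closure[τ' 1] (R ∩ E) → IsOpen[τ' 1] mv.2 → (mv.2 ∩ R ∩ A').Nonempty →
      ∃ Q₁, G mv k R Q₁ := by
    intro mv k R hR hRc hmo hne
    obtain ⟨y, ⟨hy1, hy2⟩, hy3⟩ := hne
    have hy := hRc ⟨hy3, hy2⟩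
    obtain ⟨z, hz1, hz2, hz3⟩ := (@mem_closure_iff _ (τ' 1) _ _).1 hy mv.2 hmo hy1
    have hU : IsOpen[τ' 0] (mv.2 ∩ R ∩ @Metric.ball _ m.toPseudoMetricSpace z ((1 / 2 : ℝ) ^ k)) :=
      @IsOpen.inter _ (τ' 0) _ _ (@IsOpen.inter _ (τ' 0) _ _ (hP'.rich.tow.mono 0 _ hmo)
        (hP'.rich.op 0 (Nat.zero_le _) R hR)) (hball z _)
    have hzb : z ∈ @Metric.ball _ m.toPseudoMetricSpace z ((1 / 2 : ℝ) ^ k) :=
      @Metric.mem_ball_self _ m.toPseudoMetricSpace z _ (by positivity)
    obtain ⟨Q₁, hQ1, hQz, hQU, hQC, hQcl⟩ := hSH A₂ n τ' P' f' hP' 0 (Nat.zero_le _) E hEP z hz3 _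
      hU ⟨⟨hz1, hz2⟩, hzb⟩ k
    exact ⟨Q₁, hQ1, fun y hy => (hQU hy).1, ⟨z, ⟨hQz, hz3⟩, hQC, fun y hy => (hQU hy).2⟩, hQcl⟩
  -- the invariant
  have hinv : ∀ h, Legal (P 1) A (τ' 1) A' σ h →
      σ h ∈ P' 1 ∧ A' ∩ σ h ⊆ closure[τ' 1] (σ h ∩ E) := by
    intro h
    induction h with
    | nil => intro _; exact ⟨hQ, fun y hy => hcl hy⟩
    | cons mv h ih =>
      intro hl
      obtain ⟨hl0, -, -, -, ho, hne⟩ := hl
      have hg := hex mv h.length (σ h) (ih hl0).1 (ih hl0).2 ho hne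
      have hs : G mv h.length (σ h) (σ (mv :: h)) := by
        rw [hσ1]
        simp only [step, dif_pos hg]
        exact hg.choose_spec
      exact ⟨hs.1, fun y hy => hs.2.2.2 hy.2⟩
  have hgood : ∀ mv h, Legal (P 1) A (τ' 1) A' σ (mv :: h) → G mv h.length (σ h) (σ (mv :: h)) := by
    intro mv h hl
    obtain ⟨hl0, -, -, -, ho, hne⟩ := hl
    have hg := hex mv h.length (σ h) (hinv h hl0).1 (hinv h hl0).2 ho hne
    rw [hσ1]
    simp only [step, dif_pos hg]
    exact hg.choose_spec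
  refine ⟨σ, hσ0, ?_, ?_⟩
  · intro mv h hl
    obtain ⟨g1, g2, ⟨z, hz, -, -⟩, -⟩ := hgood mv h hl
    exact ⟨g1, g2, ⟨z, hz.1, hEA hz.2⟩⟩
  · intro p hp x hx hxp _
    have hg : ∀ l, σ (hist p (l + 1)) ∈ P' 1 ∧ σ (hist p (l + 1)) ⊆ (p l).2 ∩ σ (hist p l) ∧
        (∃ z, z ∈ σ (hist p (l + 1)) ∩ E ∧ σ (hist p (l + 1)) ⊆ Cyl l z ∧
          σ (hist p (l + 1)) ⊆ @Metric.ball _ m.toPseudoMetricSpace z ((1 / 2 : ℝ) ^ l)) ∧
        σ (hist p (l + 1)) ⊆ closure[τ' 1] (σ (hist p (l + 1)) ∩ E) := by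
      intro l
      have := hgood (p l) (hist p l) (hp (l + 1))
      rwa [length_hist_C0] at this
    have g2 := fun l => (hg l).2.1
    choose z hz hzC hzB using fun l => (hg l).2.2.1
    have hsub : ∀ l k, l ≤ k → σ (hist p k) ⊆ σ (hist p l) := by
      intro l k hlk
      induction hlk with
      | refl => exact subset_rfl
      | step _ ih => exact fun y hy => ih (g2 _ hy).2
    -- the points form a Cauchy sequence
    have hd : ∀ l, @dist _ m.toDist (z l) (z (l + 1)) ≤ (1 : ℝ) * (1 / 2 : ℝ) ^ l := by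
      intro l
      have h1 : z (l + 1) ∈ σ (hist p (l + 1)) := (g2 _ (hz (l + 1)).1).2
      have h2 := hzB l h1
      have h3 : @dist _ m.toDist (z (l + 1)) (z l) < (1 / 2 : ℝ) ^ l := h2
      rw [@dist_comm _ m.toPseudoMetricSpace, one_mul]
      exact h3.le
    have hcau : @CauchySeq _ _ m.toUniformSpace _ z :=
      @cauchySeq_of_le_geometric _ m.toPseudoMetricSpace _ _ z (by norm_num) hd
    obtain ⟨x', hx'⟩ := @cauchySeq_tendsto_of_complete _ _ m.toUniformSpace _ hc z hcau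
    have hx'2 : Filter.Tendsto z Filter.atTop (@nhds _ (τ' 0) x') := by
      rw [← hm]; exact hx'
    have hmem : ∀ C : Set (Tre A₂), IsClosed[τ' 0] C → (∃ l, ∀ k, l ≤ k → z k ∈ C) → x' ∈ C := by
      intro C hC hl
      obtain ⟨l, hl⟩ := hl
      letI : TopologicalSpace (Tre A₂) := τ' 0
      exact IsClosed.mem_of_tendsto hC hx'2 (Filter.eventually_atTop.2 ⟨l, hl⟩)
    have hxE : x' ∈ E := hmem E hEcl ⟨0, fun k _ => (hz k).2⟩
    have hxσ : ∀ l, x' ∈ σ (hist p l) := by
      intro l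
      refine hmem _ ?_ ⟨l, fun k hk => hsub l (k + 1) (by omega) (hz k).1⟩
      exact hP'.rich.cl 0 (Nat.zero_le _) _ (hP'.rich.anti 0 (hinv _ (hp l)).1)
    refine ⟨x', hEA hxE, hxσ, ?_, ?_⟩
    · rw [hf x hx]; exact hxE.2
    · intro k
      refine ⟨k + 1, fun y hy u hu => ?_⟩
      have h1 := hzC k (hxσ (k + 1)) u hu
      have h2 := hzC k hy u hu
      rw [h1, h2]

end Pool.Agent.Helper24.WH

end

section

/-!
# WH module EZ: clopen embeddings commute with all operators
-/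

set_option autoImplicit false

namespace Pool.Agent.Helper24.WH

open Set TopologicalSpace Ordinal Topology

private lemma closure_EZ {X Y : Type} {τX : TopologicalSpace X} {τY : TopologicalSpace Y} {e : X → Y}
    (h : CE τX τY e) (A : Set X) : closure[τY] (e '' A) = e '' closure[τX] A := by
  have hce : @IsClosedEmbedding X Y τX τY e := by
    let := τX
    let := τY
    exact ⟨⟨⟨h.2.1⟩, h.1⟩, h.2.2.1⟩
  exact hce.closure_image_eq A

private lemma homOp_EZ {X Y : Type} {τX : TopologicalSpace X} {τY : TopologicalSpace Y} {e : X → Y}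
    (h : CE τX τY e) (zX : Set X → Set X) (zY : Set Y → Set Y)
    (hz : ∀ W, zY (e '' W) = e '' zX W) (B : Set X) :
    HomOp τY zY (e '' B) = e '' HomOp τX zX B := by
  apply Subset.antisymm
  · rintro y ⟨W, ⟨hWB, hW⟩, hy⟩
    obtain ⟨x, hx, rfl⟩ := hWB hy
    have hWe : e '' (e ⁻¹' W) = W := by
      rw [image_preimage_eq_inter_range]
      exact inter_eq_left.mpr (hWB.trans (image_subset_range _ _))
    refine ⟨x, ⟨e ⁻¹' W, ⟨?_, ?_⟩, hy⟩, rfl⟩
    · intro x' hx'
      obtain ⟨x'', hx'', he⟩ := hWB hx'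
      rw [← h.1 he]
      exact hx''
    · intro x' hx'
      have h1 : e x' ∈ closure[τY] (zY (e '' (e ⁻¹' W))) := by
        rw [hWe]
        exact hW hx'
      rw [hz, closure_EZ h] at h1
      exact (h.1.mem_set_image).mp h1
  · rintro y ⟨x, ⟨W, ⟨hWB, hW⟩, hx⟩, rfl⟩
    refine ⟨e '' W, ⟨image_mono hWB, ?_⟩, mem_image_of_mem e hx⟩
    rw [hz, closure_EZ h]
    exact image_mono hW

private lemma iInter_EZ {X Y : Type} {e : X → Y} (he : Function.Injective e) (F : ℕ → Set X) :
    ⋂ i, e '' F i = e '' ⋂ i, F i :=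
  (InjOn.image_iInter_eq he.injOn).symm

private lemma zTr_EZ {X Y A : Type} {e : X → Y} (he : Function.Injective e)
    (hX : A → Set X → Set X) (hY : A → Set Y → Set Y) (h : ∀ U B, hY U (e '' B) = e '' hX U B)
    (t : Tr A) (B : Set X) : ZTr hY t (e '' B) = e '' ZTr hX t B := by
  induction t with
  | leaf U => exact h U B
  | node U F ih =>
    change hY U (⋂ i, ZTr hY (F i) (e '' B)) = e '' hX U (⋂ i, ZTr hX (F i) B)
    rw [iInter_congr ih, iInter_EZ he, h]

private lemma iter_EZ {X Y : Type} {e : X → Y} (he : Function.Injective e)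
    (dX : Set X → Set X) (dY : Set Y → Set Y) (h : ∀ B, dY (e '' B) = e '' dX B) (B : Set X)
    (α : Ordinal.{0}) : iter dY (e '' B) α = e '' iter dX B α := by
  induction α using WellFoundedLT.induction with
  | ind α ih =>
    rw [iter, iter]
    apply Subset.antisymm
    · rintro y ⟨⟨x, hx, rfl⟩, hy⟩
      refine ⟨x, ⟨hx, ?_⟩, rfl⟩
      refine mem_iInter.mpr fun β => ?_
      have h1 := mem_iInter.mp hy β
      rw [ih β.1 β.2, h] at h1
      exact (he.mem_set_image).mp h1
    · rintro y ⟨x, ⟨hx, hx2⟩, rfl⟩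
      refine ⟨mem_image_of_mem e hx, mem_iInter.mpr fun β => ?_⟩
      rw [ih β.1 β.2, h]
      exact mem_image_of_mem e (mem_iInter.mp hx2 β)

private lemma z_EZ {X Y S : Type} (τX : ℕ → TopologicalSpace X) (τY : ℕ → TopologicalSpace Y)
    (g : Y → S) (e : X → Y) (h : ∀ m, CE (τX m) (τY m) e) (m : ℕ) :
    ∀ (t : TT S m) (B : Set X), Z τY g m t (e '' B) = e '' Z τX (g ∘ e) m t B := by
  induction m with
  | zero =>
    intro t B
    change e '' B ∩ g ⁻¹' {(t : S)} = e '' (B ∩ (g ∘ e) ⁻¹' {(t : S)})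
    rw [preimage_comp, image_inter_preimage]
  | succ m ih =>
    intro t B
    exact zTr_EZ (h 0).1 (fun U => HomOp (τX (m + 1)) (Z τX (g ∘ e) m U))
      (fun U => HomOp (τY (m + 1)) (Z τY g m U))
      (fun U B => homOp_EZ (h (m + 1)) _ _ (ih U) B) t B

/-- Module EZ. -/
theorem hEZ : StEZ := by
  intro X Y S τX τY g e h m
  have hhom : ∀ (U : TT S m) (B : Set X),
      hom τY g m U (e '' B) = e '' hom τX (g ∘ e) m U B :=
    fun U B => homOp_EZ (h (m + 1)) _ _ (z_EZ τX τY g e h m U) B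
  refine ⟨z_EZ τX τY g e h m, hhom, fun L B α => ?_⟩
  refine iter_EZ (h 0).1 _ _ (fun B => ?_) B α
  change ⋂ i, hom τY g m (L i) (e '' B) = e '' ⋂ i, hom τX (g ∘ e) m (L i) B
  rw [iInter_congr fun i => hhom (L i) B, iInter_EZ (h 0).1]

end Pool.Agent.Helper24.WH

end

section

/-!
# Project WH, module F4: alternation-free implies `okM`, `okN`
-/

set_option autoImplicit false

namespace Pool.Agent.Helper24.WH

theorem hF4 : StF4 := by
  intro P φ
  induction φ with
  | prop p => intro _; exact ⟨fun _ => by simp [Fm.okM], fun _ => by simp [Fm.okN]⟩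
  | nprop p => intro _; exact ⟨fun _ => by simp [Fm.okM], fun _ => by simp [Fm.okN]⟩
  | top => intro _; exact ⟨fun _ => by simp [Fm.okM], fun _ => by simp [Fm.okN]⟩
  | bot => intro _; exact ⟨fun _ => by simp [Fm.okM], fun _ => by simp [Fm.okN]⟩
  | var n => intro _; exact ⟨fun _ => by simp [Fm.okM], fun _ => by simp [Fm.okN]⟩
  | and φ ψ ih1 ih2 =>
    intro h
    simp only [Fm.altFree] at h
    obtain ⟨h1, h2⟩ := h
    constructor
    · intro hd
      simp only [Fm.free, Fm.nuDep] at hd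
      simp only [Fm.okM]
      exact ⟨(ih1 h1).1 fun i hi hn => hd i (Or.inl hi) (Or.inl hn),
        (ih2 h2).1 fun i hi hn => hd i (Or.inr hi) (Or.inr hn)⟩
    · intro hd
      simp only [Fm.free, Fm.muDep] at hd
      simp only [Fm.okN]
      exact ⟨(ih1 h1).2 fun i hi hn => hd i (Or.inl hi) (Or.inl hn),
        (ih2 h2).2 fun i hi hn => hd i (Or.inr hi) (Or.inr hn)⟩
  | or φ ψ ih1 ih2 =>
    intro h
    simp only [Fm.altFree] at h
    obtain ⟨h1, h2⟩ := h
    constructor
    · intro hd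
      simp only [Fm.free, Fm.nuDep] at hd
      simp only [Fm.okM]
      exact ⟨(ih1 h1).1 fun i hi hn => hd i (Or.inl hi) (Or.inl hn),
        (ih2 h2).1 fun i hi hn => hd i (Or.inr hi) (Or.inr hn)⟩
    · intro hd
      simp only [Fm.free, Fm.muDep] at hd
      simp only [Fm.okN]
      exact ⟨(ih1 h1).2 fun i hi hn => hd i (Or.inl hi) (Or.inl hn),
        (ih2 h2).2 fun i hi hn => hd i (Or.inr hi) (Or.inr hn)⟩
  | dia φ ih =>
    intro h
    simp only [Fm.altFree] at h
    constructor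
    · intro hd
      simp only [Fm.free, Fm.nuDep] at hd
      simp only [Fm.okM]
      exact (ih h).1 hd
    · intro hd
      simp only [Fm.free, Fm.muDep] at hd
      simp only [Fm.okN]
      exact (ih h).2 hd
  | box φ ih =>
    intro h
    simp only [Fm.altFree] at h
    constructor
    · intro hd
      simp only [Fm.free, Fm.nuDep] at hd
      simp only [Fm.okM]
      exact (ih h).1 hd
    · intro hd
      simp only [Fm.free, Fm.muDep] at hd
      simp only [Fm.okN]
      exact (ih h).2 hd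
  | mu φ ih =>
    intro h
    simp only [Fm.altFree] at h
    obtain ⟨h1, h2⟩ := h
    constructor
    · intro hd
      simp only [Fm.free, Fm.nuDep] at hd
      simp only [Fm.okM]
      refine (ih h1).1 fun i hi => ?_
      cases i with
      | zero => exact h2
      | succ i => exact hd i hi
    · intro hd
      simp only [Fm.free, Fm.muDep] at hd
      have h3 : ∀ n, ¬ φ.free (n + 1) := fun n hn => hd n hn hn
      simp only [Fm.okN]
      refine ⟨h3, (ih h1).1 fun i hi => ?_⟩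
      cases i with
      | zero => exact h2
      | succ i => exact absurd hi (h3 i)
  | nu φ ih =>
    intro h
    simp only [Fm.altFree] at h
    obtain ⟨h1, h2⟩ := h
    constructor
    · intro hd
      simp only [Fm.free, Fm.nuDep] at hd
      have h3 : ∀ n, ¬ φ.free (n + 1) := fun n hn => hd n hn hn
      simp only [Fm.okM]
      refine ⟨h3, (ih h1).2 fun i hi => ?_⟩
      cases i with
      | zero => exact h2
      | succ i => exact absurd hi (h3 i)
    · intro hd
      simp only [Fm.free, Fm.muDep] at hd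
      simp only [Fm.okN]
      refine (ih h1).2 fun i hi => ?_
      cases i with
      | zero => exact h2
      | succ i => exact hd i hi

end Pool.Agent.Helper24.WH

end

section

/-!
# WH, module FT4: summary of part 4
-/

set_option autoImplicit false

namespace Pool.Agent.Helper24.WH

open Set TopologicalSpace Topology
open Ordinal hiding univ

private theorem hom_mono_FT4 {X S : Type} (τ : ℕ → TopologicalSpace X) (g : X → S) (m : ℕ) (U : TT S m)
    (A B : Set X) (h : A ⊆ B) : hom τ g m U A ⊆ hom τ g m U B := by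
  rintro x ⟨W, ⟨hW1, hW2⟩, hx⟩
  exact ⟨W, ⟨hW1.trans h, hW2⟩, hx⟩

private theorem hom_le_FT4 {X S : Type} (τ : ℕ → TopologicalSpace X) (g : X → S) (m : ℕ) (U : TT S m)
    (B : Set X) : hom τ g m U B ⊆ B := by
  rintro x ⟨W, ⟨hW1, _⟩, hx⟩
  exact hW1 hx

private theorem dL_mono_FT4 {X S : Type} (τ : ℕ → TopologicalSpace X) (g : X → S) (m : ℕ) (L : ℕ → TT S m)
    (A B : Set X) (h : A ⊆ B) : dL τ g m L A ⊆ dL τ g m L B := by
  intro x hx
  unfold dL at hx ⊢
  rw [mem_iInter] at hx ⊢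
  exact fun i => hom_mono_FT4 τ g m (L i) A B h (hx i)

private theorem dL_le_FT4 {X S : Type} (τ : ℕ → TopologicalSpace X) (g : X → S) (m : ℕ) (L : ℕ → TT S m)
    (B : Set X) : dL τ g m L B ⊆ B := by
  intro x hx
  unfold dL at hx
  rw [mem_iInter] at hx
  exact hom_le_FT4 τ g m (L 0) B (hx 0)

/-- a fixed iterate stays fixed -/
private theorem fix_FT4 {X : Type} (d : Set X → Set X) (hm : ∀ A B, A ⊆ B → d A ⊆ d B)
    (hl : ∀ B, d B ⊆ B) (B : Set X) (α β : Ordinal.{0}) (hαβ : α ≤ β)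
    (h : iter d B α ⊆ d (iter d B α)) : iter d B β ⊆ d (iter d B β) := by
  obtain ⟨_, _, h3, _, _, h6, _, _, h9, _⟩ := hIT X d hm hl
  have h1 : iter d B α ⊆ iter d B β := h9 B (iter d B α) β (h6 B α) h
  have h2 : iter d B β ⊆ iter d B α := h3 B α β hαβ
  exact (h2.trans h).trans (hm _ _ h1)

theorem hFT4 (hRS : StRS) (hFT2 : StFT2) (hFT3 : StFT3) (hNT : StNT) (hPI : StPI) : StFT4 := by
  intro A S _ _ _ n g Ga hyp
  obtain ⟨i₀, hsys, htop, hstab⟩ := hRS A S n g Ga hyp
  have hN : ∀ m : ℕ, ∃ N : ℕ, m + 1 ≤ n → ∀ (L : ℕ → TT S m), ∀ B ∈ PP n g (m + 1),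
      iter (dL (fT n g i₀) g m L) B (ω ^ (N : Ordinal.{0})) ⊆
        dL (fT n g i₀) g m L (iter (dL (fT n g i₀) g m L) B (ω ^ (N : Ordinal.{0}))) := by
    intro m
    by_cases hm : m + 1 ≤ n
    · obtain ⟨N, hN⟩ := hFT3 (Tre A) S n (fT n g i₀) g (PP n g) hsys m hm
        (hFT2 A S n g Ga hyp i₀ hstab m hm)
      exact ⟨N, fun _ => hN⟩
    · exact ⟨0, fun h => absurd h hm⟩
  choose Nf hNf using hN
  refine ⟨fT n g i₀, PP n g, 1 + (Finset.range n).sup Nf, hsys, ?_, by omega, ?_, ?_⟩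
  · intro m hm L B hB
    have h1 : Nf m ≤ 1 + (Finset.range n).sup Nf := by
      have := Finset.le_sup (f := Nf) (Finset.mem_range.2 (by omega : m < n))
      omega
    have h2 : (ω : Ordinal.{0}) ^ ((Nf m : ℕ) : Ordinal.{0}) ≤
        ω ^ ((1 + (Finset.range n).sup Nf : ℕ) : Ordinal.{0}) :=
      Ordinal.opow_le_opow_right Ordinal.omega0_pos (by exact_mod_cast h1)
    exact fix_FT4 (dL (fT n g i₀) g m L) (dL_mono_FT4 _ _ _ _) (dL_le_FT4 _ _ _ _) B _ _ h2
      (hNf m hm L B hB)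
  · obtain ⟨_, _, _, _, _, _, _, h8, _⟩ := hNT A
    rw [htop, h8]
  · intro M u a
    obtain ⟨_, _, _, _, _, _, h7⟩ := hPI A S n g Ga hyp M
    cases M with
    | zero =>
      refine ⟨fun _ => {t | t u = a}, fun _ => h7 u a, ?_⟩
      ext t
      rw [mem_iUnion]
      constructor
      · intro ht
        exact ⟨g t, ht, rfl⟩
      · rintro ⟨s, ht, _⟩
        exact ht
    | succ M => exact h7 u a

end Pool.Agent.Helper24.WH

end

section

/-!
Project WH, module GP: the Galvin-Prikry theorem (Borel partitions of the infinite subsets of `ℕ`).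
-/

set_option autoImplicit false

namespace Pool.Agent.Helper24.WH

open Set

/-- the elements of `B` above the stem `s` -/
private def Abv_GP (s : Finset ℕ) (B : Set ℕ) : Set ℕ := {x | x ∈ B ∧ ∀ y ∈ s, y < x}

private theorem abv_inf_GP (s : Finset ℕ) {B : Set ℕ} (hB : B.Infinite) : (Abv_GP s B).Infinite := by
  have h1 : (B \ ((Finset.range (s.sup id + 1) : Finset ℕ) : Set ℕ)).Infinite :=
    hB.diff (Finset.finite_toSet _)
  refine h1.mono ?_
  rintro x ⟨hx, hx2⟩
  refine ⟨hx, fun y hy => ?_⟩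
  rw [Finset.mem_coe, Finset.mem_range, not_lt] at hx2
  have h2 : y ≤ s.sup id := Finset.le_sup (f := id) hy
  omega

private theorem multi_GP (D : Finset ℕ → Set ℕ → Prop)
    (her : ∀ s B B', B' ⊆ B → D s B → D s B')
    (den : ∀ s A, A.Infinite → ∃ B ⊆ A, B.Infinite ∧ D s B) (S : Finset (Finset ℕ)) :
    ∀ A : Set ℕ, A.Infinite → ∃ B ⊆ A, B.Infinite ∧ ∀ s ∈ S, D s B := by
  classical
  induction S using Finset.induction_on with
  | empty => intro A hA; exact ⟨A, Subset.rfl, hA, by simp⟩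
  | insert t S ht ih =>
      intro A hA
      obtain ⟨B, hBA, hB, hBD⟩ := ih A hA
      obtain ⟨C, hCB, hC, hCD⟩ := den t B hB
      refine ⟨C, hCB.trans hBA, hC, fun s hs => ?_⟩
      rcases Finset.mem_insert.1 hs with rfl | hs
      · exact hCD
      · exact her s B C hCB (hBD s hs)

/-- fusion -/
private theorem fusion_GP (D : Finset ℕ → Set ℕ → Prop)
    (her : ∀ s B B', B' ⊆ B → D s B → D s B')
    (den : ∀ s A, A.Infinite → ∃ B ⊆ A, B.Infinite ∧ D s B)
    (abv : ∀ s B, D s (Abv_GP s B) → D s B) (A : Set ℕ) (hA : A.Infinite) :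
    ∃ B ⊆ A, B.Infinite ∧ ∀ s : Finset ℕ, (s : Set ℕ) ⊆ B → D s B := by
  classical
  let St := {p : Finset ℕ × Set ℕ // p.2.Infinite ∧ ∀ s ⊆ p.1, D s p.2}
  have hstep : ∀ p : St, ∃ q : St, q.1.1 = insert (sInf p.1.2) p.1.1 ∧
      q.1.2 ⊆ {x | x ∈ p.1.2 ∧ sInf p.1.2 < x} := by
    intro p
    have h1 : ({x | x ∈ p.1.2 ∧ sInf p.1.2 < x} : Set ℕ).Infinite := by
      refine (abv_inf_GP {sInf p.1.2} p.2.1).mono ?_
      rintro x ⟨hx, hx2⟩
      exact ⟨hx, hx2 _ (Finset.mem_singleton_self _)⟩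
    obtain ⟨B, hB1, hB2, hB3⟩ := multi_GP D her den (insert (sInf p.1.2) p.1.1).powerset _ h1
    exact ⟨⟨(insert (sInf p.1.2) p.1.1, B), hB2, fun s hs => hB3 s (Finset.mem_powerset.2 hs)⟩, rfl, hB1⟩
  choose f hf1 hf2 using hstep
  obtain ⟨A0, hA0A, hA0, hA0D⟩ := den ∅ A hA
  let p0 : St := ⟨(∅, A0), hA0, fun s hs => by
    have : s = ∅ := Finset.subset_empty.1 hs
    rw [this]; exact hA0D⟩
  let st : ℕ → St := fun i => Nat.rec p0 (fun _ p => f p) i
  have st0 : st 0 = p0 := rfl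
  have stS : ∀ i, st (i + 1) = f (st i) := fun i => rfl
  set n : ℕ → ℕ := fun i => sInf (st i).1.2 with hn
  have hnmem : ∀ i, n i ∈ (st i).1.2 := fun i => Nat.sInf_mem (st i).2.1.nonempty
  have hsub : ∀ i, (st (i + 1)).1.2 ⊆ {x | x ∈ (st i).1.2 ∧ n i < x} := by
    intro i
    rw [stS]
    exact hf2 (st i)
  have hanti : ∀ i j, i ≤ j → (st j).1.2 ⊆ (st i).1.2 := by
    intro i j hij
    induction j, hij using Nat.le_induction with
    | base => exact Subset.rfl
    | succ j _ ih => exact fun x hx => ih ((hsub j hx).1)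
  have hmono : StrictMono n := strictMono_nat_of_lt_succ fun i => (hsub i (hnmem (i + 1))).2
  have hF : ∀ i, (st i).1.1 = (Finset.range i).image n := by
    intro i
    induction i with
    | zero => simp [st0, p0]
    | succ i ih =>
        rw [stS, hf1, ih, Finset.range_add_one, Finset.image_insert]
  have hB0 : range n ⊆ A0 := by
    rintro _ ⟨i, rfl⟩
    exact hanti 0 i (Nat.zero_le _) (hnmem i)
  refine ⟨range n, hB0.trans hA0A, infinite_range_of_injective hmono.injective, fun s hs => ?_⟩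
  rcases s.eq_empty_or_nonempty with rfl | hne
  · exact her _ _ _ hB0 hA0D
  · obtain ⟨i, hi⟩ := hs (s.max'_mem hne)
    refine abv s _ (her s (st (i + 1)).1.2 _ ?_ ((st (i + 1)).2.2 s ?_))
    · rintro x ⟨⟨j, rfl⟩, hx⟩
      have h1 : n i < n j := by
        rw [hi]
        exact hx _ (s.max'_mem hne)
      have h2 : i < j := hmono.lt_iff_lt.1 h1
      exact hanti (i + 1) j h2 (hnmem j)
    · intro y hy
      obtain ⟨j, hj⟩ := hs hy
      have h1 : n j ≤ n i := by
        rw [hi, hj]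
        exact s.le_max' y hy
      have h2 : j ≤ i := hmono.le_iff_le.1 h1
      have h3 : y ∈ (Finset.range (i + 1)).image n :=
        Finset.mem_image.2 ⟨j, Finset.mem_range.2 (by omega), hj⟩
      rw [← hF (i + 1)] at h3
      exact h3

/-- open sets are Ramsey (Nash-Williams) -/
private theorem nw_GP (P : Set (Set ℕ)) (A : Set ℕ) (hA : A.Infinite)
    (hop : ∀ X ⊆ A, X.Infinite → X ∈ P → ∃ m : ℕ, ∀ X' ⊆ A, X'.Infinite →
      (∀ i < m, (i ∈ X' ↔ i ∈ X)) → X' ∈ P) :
    ∃ B ⊆ A, B.Infinite ∧ ((∀ X ⊆ B, X.Infinite → X ∈ P) ∨ ∀ X ⊆ B, X.Infinite → X ∉ P) := by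
  classical
  set acc : Finset ℕ → Set ℕ → Prop := fun s B =>
    ∀ X ⊆ B, X.Infinite → (∀ x ∈ X, ∀ y ∈ s, y < x) → (s : Set ℕ) ∪ X ∈ P with hacc
  have acc_her : ∀ s B B', B' ⊆ B → acc s B → acc s B' :=
    fun s B B' h h1 X hX => h1 X (hX.trans h)
  obtain ⟨B, hBA, hB, hBD⟩ := fusion_GP (fun s B => acc s B ∨ ∀ C ⊆ B, C.Infinite → ¬ acc s C)
    (by
      rintro s B B' h (h1 | h1)
      · exact Or.inl (acc_her s B B' h h1)
      · exact Or.inr fun C hC => h1 C (hC.trans h))
    (by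
      intro s A hA
      by_cases h : ∃ C ⊆ A, C.Infinite ∧ acc s C
      · obtain ⟨C, hC1, hC2, hC3⟩ := h
        exact ⟨C, hC1, hC2, Or.inl hC3⟩
      · refine ⟨A, Subset.rfl, hA, Or.inr fun C hC1 hC2 hC3 => h ⟨C, hC1, hC2, hC3⟩⟩)
    (by
      rintro s B (h1 | h1)
      · left
        intro X hX hX2 hX3
        exact h1 X (fun x hx => ⟨hX hx, hX3 x hx⟩) hX2 hX3
      · right
        intro C hC1 hC2 hC3
        refine h1 (Abv_GP s C) (fun x hx => ⟨hC1 hx.1, hx.2⟩) (abv_inf_GP s hC2)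
          (acc_her s C _ (fun x hx => hx.1) hC3))
    A hA
  by_cases h0 : acc ∅ B
  · refine ⟨B, hBA, hB, Or.inl fun X hX hX2 => ?_⟩
    have := h0 X hX hX2 (by simp)
    simpa using this
  set rej : Finset ℕ → Prop := fun s => ∀ C ⊆ B, C.Infinite → ¬ acc s C with hrej
  have hrej0 : rej ∅ := by
    rcases hBD ∅ (by simp) with h | h
    · exact absurd h h0
    · exact h
  obtain ⟨C, hCB, hC, hCD⟩ := fusion_GP (fun s C => (s : Set ℕ) ⊆ B → rej s →
      ∀ n ∈ C, n ∈ B → (∀ y ∈ s, y < n) → rej (insert n s))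
    (by
      intro s B1 B2 h h1 h2 h3 n hn
      exact h1 h2 h3 n (h hn))
    (by
      intro s A' hA'
      by_cases hs : (s : Set ℕ) ⊆ B ∧ rej s
      · obtain ⟨hsB, hsr⟩ := hs
        set E : Set ℕ := {n | n ∈ B ∧ (∀ y ∈ s, y < n) ∧ ¬ rej (insert n s)} with hE
        have hEfin : E.Finite := by
          by_contra hEinf
          refine hsr E (fun x hx => hx.1) hEinf ?_
          intro X hX hX2 hX3
          have hm := Nat.sInf_mem hX2.nonempty
          set m := sInf X with hmdef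
          have hmE := hX hm
          have hins : ((insert m s : Finset ℕ) : Set ℕ) ⊆ B := by
            intro x hx
            rcases Finset.mem_insert.1 (Finset.mem_coe.1 hx) with rfl | hx
            · exact hmE.1
            · exact hsB hx
          have hac : acc (insert m s) B := by
            rcases hBD _ hins with h | h
            · exact h
            · exact absurd h hmE.2.2
          have h1 := hac (X \ {m}) (fun x hx => (hX hx.1).1) (hX2.diff (finite_singleton m)) (by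
            rintro x ⟨hx1, hx2⟩ y hy
            rcases Finset.mem_insert.1 hy with rfl | hy
            · exact lt_of_le_of_ne (Nat.sInf_le hx1) (fun h => hx2 h.symm)
            · exact hX3 x hx1 y hy)
          have h2 : ((insert m s : Finset ℕ) : Set ℕ) ∪ (X \ {m}) = (s : Set ℕ) ∪ X := by
            ext x
            simp only [Finset.coe_insert, mem_union, mem_insert_iff, Finset.mem_coe, mem_diff,
              mem_singleton_iff]
            constructor
            · rintro ((rfl | h) | ⟨h, _⟩)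
              · exact Or.inr hm
              · exact Or.inl h
              · exact Or.inr h
            · rintro (h | h)
              · exact Or.inl (Or.inr h)
              · by_cases hxm : x = m
                · exact Or.inl (Or.inl hxm)
                · exact Or.inr ⟨h, hxm⟩
          rw [h2] at h1
          exact h1
        refine ⟨A' \ E, diff_subset, hA'.diff hEfin, ?_⟩
        intro _ _ n hn hnB hns
        by_contra hcon
        exact hn.2 ⟨hnB, hns, hcon⟩
      · exact ⟨A', Subset.rfl, hA', fun h1 h2 => absurd ⟨h1, h2⟩ hs⟩)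
    (by
      intro s B1 h h2 h3 n hn hnB hns
      exact h h2 h3 n ⟨hn, hns⟩ hnB hns)
    B hB
  have hall : ∀ s : Finset ℕ, (s : Set ℕ) ⊆ C → rej s := by
    intro s
    induction s using Finset.induction_on_max with
    | empty => intro _; exact hrej0
    | insert a s hs ih =>
        intro hsC
        have h1 : (s : Set ℕ) ⊆ C := fun x hx => hsC (Finset.mem_coe.2 (Finset.mem_insert_of_mem hx))
        have h2 : a ∈ C := hsC (Finset.mem_coe.2 (Finset.mem_insert_self a s))
        exact hCD s h1 (h1.trans hCB) (ih h1) a h2 (hCB h2) hs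
  refine ⟨C, hCB.trans hBA, hC, Or.inr fun X hX hX2 hXP => ?_⟩
  obtain ⟨m, hm⟩ := hop X (hX.trans (hCB.trans hBA)) hX2 hXP
  obtain ⟨x, hxX, hmx⟩ := hX2.exists_gt m
  set s : Finset ℕ := (Finset.range (x + 1)).filter fun i => i ∈ X with hs
  have hmems : ∀ i, i ∈ s ↔ i < x + 1 ∧ i ∈ X := by
    intro i
    rw [hs, Finset.mem_filter, Finset.mem_range]
  have hsC : (s : Set ℕ) ⊆ C := fun i hi => hX ((hmems i).1 (Finset.mem_coe.1 hi)).2
  refine hall s hsC B Subset.rfl hB ?_
  intro X' hX' hX'2 hX'3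
  refine hm _ ?_ (hX'2.mono subset_union_right) ?_
  · intro i hi
    rcases hi with hi | hi
    · exact hBA (hCB (hsC hi))
    · exact hBA (hX' hi)
  · intro i hi
    constructor
    · rintro (h | h)
      · exact ((hmems i).1 (Finset.mem_coe.1 h)).2
      · have := hX'3 i h x ((hmems x).2 ⟨by omega, hxX⟩)
        omega
    · intro h
      exact Or.inl (Finset.mem_coe.2 ((hmems i).2 ⟨by omega, h⟩))

/-- completely Ramsey sets -/
private def CR_GP (P : Set (Set ℕ)) : Prop :=
  ∀ (s : Finset ℕ) (A : Set ℕ), A.Infinite → ∃ B ⊆ A, B.Infinite ∧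
    ((∀ X ⊆ B, X.Infinite → (s : Set ℕ) ∪ X ∈ P) ∨ ∀ X ⊆ B, X.Infinite → (s : Set ℕ) ∪ X ∉ P)

private theorem ram_iUnion_GP (P : ℕ → Set (Set ℕ)) (h : ∀ n, CR_GP (P n)) (A : Set ℕ) (hA : A.Infinite) :
    ∃ B ⊆ A, B.Infinite ∧ ((∀ X ⊆ B, X.Infinite → X ∈ ⋃ n, P n) ∨
      ∀ X ⊆ B, X.Infinite → X ∉ ⋃ n, P n) := by
  classical
  obtain ⟨B, hBA, hB, hBD⟩ := fusion_GP (fun s B => ∀ n ≤ s.card,
      (∀ X ⊆ B, X.Infinite → (∀ x ∈ X, ∀ y ∈ s, y < x) → (s : Set ℕ) ∪ X ∈ P n) ∨
        ∀ X ⊆ B, X.Infinite → (∀ x ∈ X, ∀ y ∈ s, y < x) → (s : Set ℕ) ∪ X ∉ P n)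
    (by
      intro s B B' h1 h2 n hn
      rcases h2 n hn with h3 | h3
      · exact Or.inl fun X hX => h3 X (hX.trans h1)
      · exact Or.inr fun X hX => h3 X (hX.trans h1))
    (by
      intro s A hA
      have key : ∀ N : ℕ, ∃ B ⊆ A, B.Infinite ∧ ∀ n < N,
          (∀ X ⊆ B, X.Infinite → (s : Set ℕ) ∪ X ∈ P n) ∨
            ∀ X ⊆ B, X.Infinite → (s : Set ℕ) ∪ X ∉ P n := by
        intro N
        induction N with
        | zero => exact ⟨A, Subset.rfl, hA, fun n hn => absurd hn (Nat.not_lt_zero n)⟩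
        | succ N ih =>
            obtain ⟨B, hBA, hB, hB2⟩ := ih
            obtain ⟨C, hCB, hC, hC2⟩ := h N s B hB
            refine ⟨C, hCB.trans hBA, hC, fun n hn => ?_⟩
            rcases Nat.lt_succ_iff_lt_or_eq.1 hn with hn | rfl
            · rcases hB2 n hn with h3 | h3
              · exact Or.inl fun X hX => h3 X (hX.trans hCB)
              · exact Or.inr fun X hX => h3 X (hX.trans hCB)
            · exact hC2
      obtain ⟨B, hBA, hB, hB2⟩ := key (s.card + 1)
      refine ⟨B, hBA, hB, fun n hn => ?_⟩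
      rcases hB2 n (by omega) with h3 | h3
      · exact Or.inl fun X hX hX2 _ => h3 X hX hX2
      · exact Or.inr fun X hX hX2 _ => h3 X hX hX2)
    (by
      intro s B h1 n hn
      rcases h1 n hn with h3 | h3
      · exact Or.inl fun X hX hX2 hX3 => h3 X (fun x hx => ⟨hX hx, hX3 x hx⟩) hX2 hX3
      · exact Or.inr fun X hX hX2 hX3 => h3 X (fun x hx => ⟨hX hx, hX3 x hx⟩) hX2 hX3)
    A hA
  obtain ⟨C, hCB, hC, hC2⟩ := nw_GP (⋃ n, P n) B hB (by
    intro X hX hX2 hXP
    obtain ⟨n, hn⟩ := mem_iUnion.1 hXP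
    obtain ⟨t, htX, htn⟩ := hX2.exists_subset_card_eq n
    obtain ⟨x, hxX, htx⟩ := hX2.exists_gt (t.sup id)
    set s : Finset ℕ := (Finset.range (x + 1)).filter fun i => i ∈ X with hs
    have hmems : ∀ i, i ∈ s ↔ i < x + 1 ∧ i ∈ X := by
      intro i
      rw [hs, Finset.mem_filter, Finset.mem_range]
    have hts : t ⊆ s := by
      intro i hi
      have h1 : i ≤ t.sup id := Finset.le_sup (f := id) hi
      exact (hmems i).2 ⟨by omega, htX (Finset.mem_coe.2 hi)⟩
    have hcard : n ≤ s.card := by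
      rw [← htn]
      exact Finset.card_le_card hts
    have hsB : (s : Set ℕ) ⊆ B := fun i hi => hX ((hmems i).1 (Finset.mem_coe.1 hi)).2
    have hsplit : ∀ X' : Set ℕ, (∀ i < x + 1, (i ∈ X' ↔ i ∈ X)) →
        (s : Set ℕ) ∪ {i | i ∈ X' ∧ x < i} = X' := by
      intro X' hX'
      ext i
      constructor
      · rintro (h1 | h1)
        · have h2 := (hmems i).1 (Finset.mem_coe.1 h1)
          exact (hX' i h2.1).2 h2.2
        · exact h1.1
      · intro h1
        by_cases hi : x < i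
        · exact Or.inr ⟨h1, hi⟩
        · exact Or.inl (Finset.mem_coe.2 ((hmems i).2 ⟨by omega, (hX' i (by omega)).1 h1⟩))
    have htail : ∀ X' : Set ℕ, X'.Infinite → ({i | i ∈ X' ∧ x < i} : Set ℕ).Infinite := by
      intro X' hX'
      refine (abv_inf_GP {x} hX').mono ?_
      rintro i ⟨hi, hi2⟩
      exact ⟨hi, hi2 x (Finset.mem_singleton_self x)⟩
    have habv : ∀ X' : Set ℕ, ∀ i ∈ ({i | i ∈ X' ∧ x < i} : Set ℕ), ∀ y ∈ s, y < i := by
      intro X' i hi y hy
      have h1 := ((hmems y).1 hy).1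
      have h2 : x < i := hi.2
      omega
    refine ⟨x + 1, fun X' hX' hX'2 hagree => mem_iUnion.2 ⟨n, ?_⟩⟩
    rcases hBD s hsB n hcard with h3 | h3
    · have := h3 {i | i ∈ X' ∧ x < i} (fun i hi => hX' hi.1) (htail X' hX'2) (habv X')
      rwa [hsplit X' hagree] at this
    · exfalso
      have := h3 {i | i ∈ X ∧ x < i} (fun i hi => hX hi.1) (htail X hX2) (habv X)
      rw [hsplit X (fun i _ => Iff.rfl)] at this
      exact this hn)
  exact ⟨C, hCB.trans hBA, hC, hC2⟩

private theorem CR_iUnion_GP (P : ℕ → Set (Set ℕ)) (h : ∀ n, CR_GP (P n)) : CR_GP (⋃ n, P n) := by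
  classical
  intro s A hA
  obtain ⟨B, hBA, hB, hB2⟩ := ram_iUnion_GP (fun n => {X | (s : Set ℕ) ∪ X ∈ P n}) (by
    intro n t A hA
    obtain ⟨B, hBA, hB, hB2⟩ := h n (s ∪ t) A hA
    refine ⟨B, hBA, hB, ?_⟩
    have he : ∀ X : Set ℕ, (s : Set ℕ) ∪ ((t : Set ℕ) ∪ X) = ((s ∪ t : Finset ℕ) : Set ℕ) ∪ X := by
      intro X
      rw [Finset.coe_union, union_assoc]
    rcases hB2 with h3 | h3
    · left
      intro X hX hX2
      rw [mem_setOf_eq, he]
      exact h3 X hX hX2
    · right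
      intro X hX hX2
      rw [mem_setOf_eq, he]
      exact h3 X hX hX2) A hA
  refine ⟨B, hBA, hB, ?_⟩
  rcases hB2 with h3 | h3
  · left
    intro X hX hX2
    obtain ⟨n, hn⟩ := mem_iUnion.1 (h3 X hX hX2)
    exact mem_iUnion.2 ⟨n, hn⟩
  · right
    intro X hX hX2 hcon
    obtain ⟨n, hn⟩ := mem_iUnion.1 hcon
    exact h3 X hX hX2 (mem_iUnion.2 ⟨n, hn⟩)

/-- the set of ranges -/
private def rg_GP (P : Set Inc) : Set (Set ℕ) := {A | ∃ f ∈ P, range f.1 = A}

/-- enumeration of an infinite set -/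
private noncomputable def en_GP (A : Set ℕ) (hA : A.Infinite) : Inc :=
  ⟨Nat.nth (· ∈ A), Nat.nth_strictMono hA⟩

private theorem range_en_GP (A : Set ℕ) (hA : A.Infinite) : range (en_GP A hA).1 = A :=
  Nat.range_nth_of_infinite hA

private theorem agree_GP (f g : Inc) (n : ℕ) (h : ∀ i < f.1 n, (i ∈ range g.1 ↔ i ∈ range f.1)) :
    ∀ i < n, g.1 i = f.1 i := by
  intro i
  induction i using Nat.strong_induction_on with
  | _ i ih =>
      intro hi
      have h1 : f.1 i < f.1 n := f.2 hi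
      obtain ⟨j, hj⟩ := (h _ h1).2 ⟨i, rfl⟩
      have h2 : i ≤ j := by
        by_contra hcon
        push Not at hcon
        have h3 := ih j hcon (by omega)
        have h4 := f.2 hcon
        omega
      have h5 : g.1 i ≤ f.1 i := by
        rw [← hj]
        exact g.2.monotone h2
      obtain ⟨l, hl⟩ := (h _ (lt_of_le_of_lt h5 h1)).1 ⟨i, rfl⟩
      have h6 : i ≤ l := by
        by_contra hcon
        push Not at hcon
        have h3 := ih l hcon (by omega)
        have h4 := g.2 hcon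
        omega
      have h7 : f.1 i ≤ g.1 i := by
        rw [← hl]
        exact f.2.monotone h6
      exact le_antisymm h5 h7

private theorem range_inj_GP {f g : Inc} (h : range f.1 = range g.1) : f = g := by
  apply Subtype.ext
  funext i
  exact agree_GP g f (i + 1) (fun j _ => by rw [h]) i (Nat.lt_succ_self i)

private theorem CR_open_GP (P : Set Inc) (hP : IsOpen P) : CR_GP (rg_GP P) := by
  intro s A hA
  refine nw_GP {X | (s : Set ℕ) ∪ X ∈ rg_GP P} A hA ?_
  intro X _ _ hXP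
  obtain ⟨f, hfP, hf⟩ := hXP
  obtain ⟨O, hO, hOP⟩ := isOpen_induced_iff.1 hP
  have hmemO : ∀ g : Inc, g.1 ∈ O ↔ g ∈ P := fun g => Set.ext_iff.1 hOP g
  have hfO : f.1 ∈ O := (hmemO f).2 hfP
  obtain ⟨I, u, hu, hIu⟩ := isOpen_pi_iff.1 hO f.1 hfO
  refine ⟨f.1 (I.sup id + 1), fun X' _ hX'2 hagree => ?_⟩
  have hinf : ((s : Set ℕ) ∪ X').Infinite := hX'2.mono subset_union_right
  refine ⟨en_GP _ hinf, ?_, range_en_GP _ hinf⟩
  have hag := agree_GP f (en_GP _ hinf) (I.sup id + 1) (by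
    intro i hi
    rw [range_en_GP, hf]
    simp only [mem_union]
    rw [hagree i hi])
  have : (en_GP _ hinf).1 ∈ O := by
    apply hIu
    intro i hi
    have h1 : i ≤ I.sup id := Finset.le_sup (f := id) (Finset.mem_coe.1 hi)
    have h2 := hag i (by omega)
    rw [h2]
    exact (hu i (Finset.mem_coe.1 hi)).2
  exact (hmemO _).1 this

private theorem CR_congr_GP {P Q : Set (Set ℕ)} (h : ∀ X : Set ℕ, X.Infinite → (X ∈ P ↔ X ∈ Q))
    (hP : CR_GP P) : CR_GP Q := by
  intro s A hA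
  obtain ⟨B, hBA, hB, hB2⟩ := hP s A hA
  refine ⟨B, hBA, hB, ?_⟩
  rcases hB2 with h3 | h3
  · left
    intro X hX hX2
    exact (h _ (hX2.mono subset_union_right)).1 (h3 X hX hX2)
  · right
    intro X hX hX2 hcon
    exact h3 X hX hX2 ((h _ (hX2.mono subset_union_right)).2 hcon)

private theorem CR_compl_GP {P : Set (Set ℕ)} (hP : CR_GP P) : CR_GP Pᶜ := by
  intro s A hA
  obtain ⟨B, hBA, hB, hB2⟩ := hP s A hA
  refine ⟨B, hBA, hB, ?_⟩
  rcases hB2 with h3 | h3
  · right
    intro X hX hX2 hcon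
    exact hcon (h3 X hX hX2)
  · left
    intro X hX hX2
    exact h3 X hX hX2

private theorem mem_rg_GP (P : Set Inc) {X : Set ℕ} (hX : X.Infinite) : X ∈ rg_GP P ↔ en_GP X hX ∈ P := by
  constructor
  · rintro ⟨f, hf, hfX⟩
    have : f = en_GP X hX := range_inj_GP (by rw [hfX, range_en_GP])
    rwa [← this]
  · intro h
    exact ⟨_, h, range_en_GP X hX⟩

private theorem CR_borel_GP (P : Set Inc) (hP : MeasurableSet P) : CR_GP (rg_GP P) := by
  have hgen : (Inc.ms : MeasurableSpace Inc) = MeasurableSpace.generateFrom {s | IsOpen s} := rfl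
  refine MeasurableSpace.generateFrom_induction {s : Set Inc | IsOpen s} (fun P _ => CR_GP (rg_GP P))
    ?_ ?_ ?_ ?_ P hP
  · intro t ht _
    exact CR_open_GP t ht
  · exact CR_open_GP ∅ isOpen_empty
  · intro t _ ht
    refine CR_congr_GP ?_ (CR_compl_GP ht)
    intro X hX
    rw [mem_compl_iff, mem_rg_GP t hX, mem_rg_GP tᶜ hX, mem_compl_iff]
  · intro t _ ht
    refine CR_congr_GP ?_ (CR_iUnion_GP (fun n => rg_GP (t n)) ht)
    intro X hX
    rw [mem_rg_GP _ hX, mem_iUnion, mem_iUnion]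
    simp only [mem_rg_GP _ hX]

theorem hGP : StGP := by
  intro k c hc
  classical
  have key : ∀ S : Finset (Fin k), ∃ B : Set ℕ, B.Infinite ∧ ∀ s ∈ S,
      (∀ X ⊆ B, X.Infinite → X ∈ rg_GP (c ⁻¹' {s})) ∨ ∀ X ⊆ B, X.Infinite → X ∉ rg_GP (c ⁻¹' {s}) := by
    intro S
    induction S using Finset.induction_on with
    | empty => exact ⟨univ, infinite_univ, by simp⟩
    | insert t S _ ih =>
        obtain ⟨B, hB, hB2⟩ := ih
        obtain ⟨C, hCB, hC, hC2⟩ := CR_borel_GP _ (hc t) ∅ B hB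
        simp only [Finset.coe_empty, empty_union] at hC2
        refine ⟨C, hC, fun s hs => ?_⟩
        rcases Finset.mem_insert.1 hs with rfl | hs
        · exact hC2
        · rcases hB2 s hs with h3 | h3
          · exact Or.inl fun X hX => h3 X (hX.trans hCB)
          · exact Or.inr fun X hX => h3 X (hX.trans hCB)
  obtain ⟨B, hB, hB2⟩ := key Finset.univ
  set Y := en_GP B hB with hY
  refine ⟨Y, c Y, fun Z => ?_⟩
  rcases hB2 (c Y) (Finset.mem_univ _) with h3 | h3
  · have hsub : range (Y.comp Z).1 ⊆ B := by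
      rintro _ ⟨i, rfl⟩
      rw [← range_en_GP B hB]
      exact ⟨Z.1 i, rfl⟩
    obtain ⟨f, hf, hfr⟩ := h3 _ hsub (infinite_range_of_injective (Y.comp Z).2.injective)
    have := range_inj_GP hfr
    rw [← this]
    exact hf
  · exact absurd ⟨Y, rfl, range_en_GP B hB⟩ (h3 B Subset.rfl hB)

end Pool.Agent.Helper24.WH

end

section

/-!
# PROJECT WH (MP_76577a_lc), module SW: switching of strategies
-/

set_option autoImplicit false

namespace Pool.Agent.Helper24.WH

open Set TopologicalSpace Topology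
open Ordinal hiding univ

section SW

variable {X Y : Type}

open Classical in
/-- state after a history: the move of the first event, the history before it, the history since then -/
private noncomputable def st_SW (E : Set X → Prop) :
    Hist X Y → Option ((Set X × Set Y) × Hist X Y × Hist X Y)
  | [] => none
  | mv :: h => match st_SW E h with
    | some (m, h₀, t) => some (m, h₀, mv :: t)
    | none => if E mv.1 then some (mv, h, []) else none

/-- the combined strategy -/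
private noncomputable def sg_SW (E : Set X → Prop) (σ₁ : Hist X Y → Set Y)
    (S : Set X × Set Y → Hist X Y → Hist X Y → Set Y) (h : Hist X Y) : Set Y :=
  match st_SW E h with
  | some (m, h₀, t) => S m h₀ t
  | none => σ₁ h

private theorem st_some_SW (E : Set X → Prop) {mv m : Set X × Set Y} {h h₀ t : Hist X Y}
    (hs : st_SW E h = some (m, h₀, t)) : st_SW E (mv :: h) = some (m, h₀, mv :: t) := by
  rw [st_SW, hs]

private theorem st_none_SW (E : Set X → Prop) {mv : Set X × Set Y} {h : Hist X Y}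
    (hs : st_SW E h = none) (hE : ¬ E mv.1) : st_SW E (mv :: h) = none := by
  rw [st_SW, hs]
  exact if_neg hE

private theorem st_new_SW (E : Set X → Prop) {mv : Set X × Set Y} {h : Hist X Y}
    (hs : st_SW E h = none) (hE : E mv.1) : st_SW E (mv :: h) = some (mv, h, []) := by
  rw [st_SW, hs]
  exact if_pos hE

private theorem sg_some_SW (E : Set X → Prop) (σ₁ : Hist X Y → Set Y)
    (S : Set X × Set Y → Hist X Y → Hist X Y → Set Y) {m : Set X × Set Y} {h h₀ t : Hist X Y}
    (hs : st_SW E h = some (m, h₀, t)) : sg_SW E σ₁ S h = S m h₀ t := by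
  rw [sg_SW, hs]

private theorem sg_none_SW (E : Set X → Prop) (σ₁ : Hist X Y → Set Y)
    (S : Set X × Set Y → Hist X Y → Hist X Y → Set Y) {h : Hist X Y}
    (hs : st_SW E h = none) : sg_SW E σ₁ S h = σ₁ h := by
  rw [sg_SW, hs]

variable {P : Set (Set X)} {A : Set X} {τ' : TopologicalSpace Y} {A' : Set Y}

/-- the invariant -/
private theorem inv_SW (E : Set X → Prop) (σ₁ : Hist X Y → Set Y)
    (S : Set X × Set Y → Hist X Y → Hist X Y → Set Y) (h : Hist X Y)
    (hL : Legal P A τ' A' (sg_SW E σ₁ S) h) :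
    (st_SW E h = none → Legal P A τ' A' σ₁ h) ∧
    ∀ m h₀ t, st_SW E h = some (m, h₀, t) → Legal P A τ' A' σ₁ (m :: h₀) ∧ E m.1 ∧
      Legal P (A ∩ m.1) τ' A' (S m h₀) t ∧ lastO h ⊆ m.1 ∧ lastO h ⊆ lastO t := by
  induction h with
  | nil =>
    refine ⟨fun _ => trivial, fun m h₀ t hs => ?_⟩
    rw [st_SW] at hs
    cases hs
  | cons mv h ih =>
    obtain ⟨hL1, hP, hsub, ⟨x, hx⟩, hop, hne⟩ := hL
    obtain ⟨ih1, ih2⟩ := ih hL1
    rcases hst : st_SW E h with _ | ⟨m', h', t'⟩
    · have hL₁ := ih1 hst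
      rw [sg_none_SW E σ₁ S hst] at hne
      have hL₂ : Legal P A τ' A' σ₁ (mv :: h) := ⟨hL₁, hP, hsub, ⟨x, hx⟩, hop, hne⟩
      refine ⟨fun _ => hL₂, fun m h₀ t hs => ?_⟩
      by_cases hE : E mv.1
      · rw [st_new_SW E hst hE] at hs
        obtain ⟨rfl, rfl, rfl⟩ : mv = m ∧ h = h₀ ∧ [] = t := by
          have := Option.some.inj hs
          simpa [Prod.ext_iff] using this
        exact ⟨hL₂, hE, trivial, subset_rfl, Set.subset_univ _⟩
      · rw [st_none_SW E hst hE] at hs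
        cases hs
    · obtain ⟨a1, a2, a3, a4, a5⟩ := ih2 m' h' t' hst
      refine ⟨fun hs => ?_, fun m h₀ t hs => ?_⟩
      · rw [st_some_SW E hst] at hs
        cases hs
      · rw [st_some_SW E hst] at hs
        have hs' := Option.some.inj hs
        have e1 : m' = m := congrArg Prod.fst hs'
        have e2 : h' = h₀ := congrArg (fun z => z.2.1) hs'
        have e3 : mv :: t' = t := congrArg (fun z => z.2.2) hs'
        subst e1
        subst e2
        subst e3
        rw [sg_some_SW E σ₁ S hst] at hne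
        refine ⟨a1, a2, ⟨a3, hP, hsub.trans a5, ⟨x, hx.1, hx.2, a4 (hsub hx.1)⟩, hop, hne⟩,
          hsub.trans a4, subset_rfl⟩

private theorem hist_SW {X Y : Type} (p : ℕ → Set X × Set Y) (l : ℕ) :
    hist p (l + 1) = p l :: hist p l := rfl

end SW

/-- **SW** switching of strategies -/
theorem hSW : StSW := by
  intro X A₂ P τX P' τ' f f' A A' σ₁ E hE hmove hsw hlim
  have hch : ∀ (mv : Set X × Set (Tre A₂)) (h : Hist X (Tre A₂)),
      ∃ σ₂ : Hist X (Tre A₂) → Set (Tre A₂), Legal P A τ' A' σ₁ (mv :: h) → E mv.1 →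
        σ₂ [] = σ₁ (mv :: h) ∧ Wins P τX P' τ' f f' (A ∩ mv.1) A' σ₂ := by
    intro mv h
    by_cases hc : Legal P A τ' A' σ₁ (mv :: h) ∧ E mv.1
    · obtain ⟨σ₂, h2⟩ := hsw mv h hc.1 hc.2
      exact ⟨σ₂, fun _ _ => h2⟩
    · exact ⟨fun _ => ∅, fun a b => absurd ⟨a, b⟩ hc⟩
  choose S hS using hch
  have hmv : ∀ mv h, Legal P A τ' A' (sg_SW E σ₁ S) (mv :: h) →
      sg_SW E σ₁ S (mv :: h) ∈ P' ∧ sg_SW E σ₁ S (mv :: h) ⊆ mv.2 ∩ sg_SW E σ₁ S h ∧
        (sg_SW E σ₁ S (mv :: h) ∩ A').Nonempty := by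
    intro mv h hL
    obtain ⟨i1, i2⟩ := inv_SW E σ₁ S _ hL
    obtain ⟨j1, j2⟩ := inv_SW E σ₁ S _ hL.1
    rcases hst : st_SW E h with _ | ⟨m', h', t'⟩
    · by_cases hEv : E mv.1
      · have hn := st_new_SW (mv := mv) E hst hEv
        obtain ⟨a1, a2, _, _, _⟩ := i2 _ _ _ hn
        rw [sg_some_SW E σ₁ S hn, sg_none_SW E σ₁ S hst, (hS mv h a1 a2).1]
        exact hmove mv h a1
      · have hn := st_none_SW (mv := mv) E hst hEv
        rw [sg_none_SW E σ₁ S hn, sg_none_SW E σ₁ S hst]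
        exact hmove mv h (i1 hn)
    · have hn := st_some_SW (mv := mv) E hst
      obtain ⟨a1, a2, a3, _, _⟩ := i2 _ _ _ hn
      rw [sg_some_SW E σ₁ S hn, sg_some_SW E σ₁ S hst]
      exact (hS m' h' a1 a2).2.move mv t' a3
  refine ⟨sg_SW E σ₁ S, ?_, hmv, ?_⟩
  · exact sg_none_SW E σ₁ S (by rw [st_SW])
  · intro p hp x hx hxp hconv
    by_cases hall : ∀ l, st_SW E (hist p l) = none
    · have hnoE : ∀ l, ¬ E (p l).1 := by
        intro l hEl
        have h1 := hall (l + 1)
        rw [hist_SW, st_new_SW E (hall l) hEl] at h1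
        cases h1
      have hleg : ∀ l, Legal P A τ' A' σ₁ (hist p l) := fun l => (inv_SW E σ₁ S _ (hp l)).1 (hall l)
      obtain ⟨x', hx', h2, h3, h4⟩ := hlim p hleg hnoE x hx hxp hconv
      refine ⟨x', hx', fun l => ?_, h3, fun k => ?_⟩
      · rw [sg_none_SW E σ₁ S (hall l)]
        exact h2 l
      · obtain ⟨l, hl⟩ := h4 k
        refine ⟨l, ?_⟩
        rw [sg_none_SW E σ₁ S (hall l)]
        exact hl
    · push Not at hall
      classical
      -- the first event
      have hex : ∃ l, st_SW E (hist p l) ≠ none := hall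
      obtain ⟨l₀, hl₀, hl₁⟩ : ∃ l₀, st_SW E (hist p l₀) = none ∧
          st_SW E (hist p (l₀ + 1)) ≠ none := by
        by_contra hcon
        push Not at hcon
        obtain ⟨l, hl⟩ := hex
        apply hl
        induction l with
        | zero => rw [hist, st_SW]
        | succ l ih =>
          by_cases h0 : st_SW E (hist p l) = none
          · exact hcon l h0
          · exact absurd (ih h0) h0
      have hE₀ : E (p l₀).1 := by
        by_contra hne
        exact hl₁ (by rw [hist_SW]; exact st_none_SW E hl₀ hne)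
      set p' : ℕ → Set X × Set (Tre A₂) := fun i => p (l₀ + 1 + i) with hp'
      have hst : ∀ j, st_SW E (hist p (l₀ + 1 + j)) = some (p l₀, hist p l₀, hist p' j) := by
        intro j
        induction j with
        | zero => exact st_new_SW E hl₀ hE₀
        | succ j ih => exact st_some_SW E ih
      have hinv := fun j => (inv_SW E σ₁ S _ (hp (l₀ + 1 + j))).2 _ _ _ (hst j)
      obtain ⟨b1, b2, _, _, _⟩ := hinv 0
      have hanti : ∀ l, (p (l + 1)).1 ⊆ (p l).1 := fun l => (hp (l + 2)).2.2.1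
      have hanti' : ∀ l j, (p (l + j)).1 ⊆ (p l).1 := by
        intro l j
        induction j with
        | zero => exact subset_rfl
        | succ j ih => exact (hanti (l + j)).trans ih
      have hW := (hS (p l₀) (hist p l₀) b1 b2).2
      obtain ⟨x', hx', h2, h3, h4⟩ := hW.lim p' (fun j => (hinv j).2.2.1) x ⟨hx, hxp l₀⟩
        (fun j => hxp _) (fun U hU hxU => by
          obtain ⟨l, hl⟩ := hconv U hU hxU
          refine ⟨l, fun y hy => hl ⟨?_, hy.2.1⟩⟩
          have h5 : (p (l + (l₀ + 1))).1 ⊆ (p l).1 := hanti' l (l₀ + 1)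
          apply h5
          rw [add_comm l (l₀ + 1)]
          exact hy.1)
      have hsg : ∀ j, sg_SW E σ₁ S (hist p (l₀ + 1 + j)) = S (p l₀) (hist p l₀) (hist p' j) :=
        fun j => sg_some_SW E σ₁ S (hst j)
      have hdec : ∀ l j, sg_SW E σ₁ S (hist p (l + j)) ⊆ sg_SW E σ₁ S (hist p l) := by
        intro l j
        induction j with
        | zero => exact subset_rfl
        | succ j ih =>
          refine Set.Subset.trans ?_ ih
          exact (hmv (p (l + j)) (hist p (l + j)) (hp (l + j + 1))).2.1.trans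
            Set.inter_subset_right
      refine ⟨x', hx', fun l => ?_, h3, fun k => ?_⟩
      · have h5 := hdec l (l₀ + 1)
        apply h5
        rw [add_comm l (l₀ + 1), hsg l]
        exact h2 l
      · obtain ⟨l, hl⟩ := h4 k
        refine ⟨l₀ + 1 + l, ?_⟩
        rw [hsg l]
        exact hl

end Pool.Agent.Helper24.WH

end

section

/-!
# PROJECT WH (MP_76577a_lc), module TM: termination
-/

set_option autoImplicit false

namespace Pool.Agent.Helper24.WH

open Set TopologicalSpace Topology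
open Ordinal hiding univ

/-- **TM (6.5)** termination -/
theorem hTM (hVP : StVP) (hBA : StBA) (hUZ : StUZ) : StTM := by
  intro X S _ n N τ g h P hsys hft hN m
  obtain ⟨u1, u2, u3, u4, u5, u6, u7, u8, u9⟩ := hUZ X τ (h ∘ g)
  obtain ⟨v1, v2, v3, v4⟩ := hVP S h X n N τ g P hsys hft hN
  induction m with
  | zero =>
    intro _
    exact ⟨(true : Bool), trivial, fun B _ => u2 _ _ rfl⟩
  | succ m ih =>
    intro hm
    obtain ⟨c, hwf, hc⟩ := ih (by omega)
    by_cases hbot : c = Cd.bot m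
    · -- the space is empty
      have huniv : (Set.univ : Set X) = ∅ := by
        have := hc Set.univ (hsys.univ m)
        rwa [hbot, u5] at this
      refine ⟨Cd.bot (m + 1), ⟨List.Pairwise.nil, fun e he => absurd he List.not_mem_nil⟩,
        fun B _ => ?_⟩
      rw [u4]
      exact Set.eq_empty_of_subset_empty (huniv ▸ Set.subset_univ B)
    · refine ⟨Cd.ext (Cd.bot (m + 1)) c N, ?_, fun B hB => ?_⟩
      · refine ⟨List.pairwise_singleton _ _, fun e he => ?_⟩
        have he' : e = toLex (c, N) := List.mem_singleton.1 he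
        subst he'
        exact ⟨hwf, hbot⟩
      · rw [u6, u4]
        have hW := v3 m hm c hwf N B hB
        have hfix := v4 m hm c hwf B hB
        set W := iter (del τ (h ∘ g) m c) B (ω ^ (N : Ordinal.{0})) with hWdef
        have h1 := hBA X S n τ g h P hsys m hm c hwf W (hsys.cl (m + 1) hm W hW) hfix
        rw [hc W (hsys.anti m hW)] at h1
        rw [@closure_empty X (τ (m + 1))] at h1
        exact Set.eq_empty_of_subset_empty h1

end Pool.Agent.Helper24.WH

end

section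

set_option autoImplicit false

namespace Pool.Agent.Helper24.WH

open Set TopologicalSpace Ordinal Topology


/-! ### The natural sum -/

private noncomputable def nsum_UN (a b : Ordinal.{0}) : Ordinal.{0} :=
  max (⨆ a' : Iio a, nsum_UN a'.1 b + 1) (⨆ b' : Iio b, nsum_UN a b'.1 + 1)
termination_by (a, b)
decreasing_by
  · exact Prod.Lex.left _ _ a'.2
  · exact Prod.Lex.right _ b'.2

private theorem nsum_le_UN (a b c : Ordinal.{0}) (h1 : ∀ a' < a, nsum_UN a' b < c)
    (h2 : ∀ b' < b, nsum_UN a b' < c) : nsum_UN a b ≤ c := by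
  rw [nsum_UN]
  refine max_le ?_ ?_
  · refine (ciSup_le_iff' bddAbove_of_small).mpr fun a' => ?_
    exact Order.add_one_le_iff.mpr (h1 a'.1 a'.2)
  · refine (ciSup_le_iff' bddAbove_of_small).mpr fun b' => ?_
    exact Order.add_one_le_iff.mpr (h2 b'.1 b'.2)

private theorem nsum_lt_left_UN (a a' b : Ordinal.{0}) (h : a < a') :
    nsum_UN a b < nsum_UN a' b := by
  rw [nsum_UN.eq_1 a' b]
  apply lt_max_of_lt_left
  refine lt_of_lt_of_le (Order.lt_add_one_iff.mpr le_rfl) ?_
  exact le_ciSup (f := fun a'' : Iio a' => nsum_UN a''.1 b + 1) bddAbove_of_small ⟨a, h⟩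

private theorem nsum_lt_right_UN (a b b' : Ordinal.{0}) (h : b < b') :
    nsum_UN a b < nsum_UN a b' := by
  rw [nsum_UN.eq_1 a b']
  apply lt_max_of_lt_right
  refine lt_of_lt_of_le (Order.lt_add_one_iff.mpr le_rfl) ?_
  exact le_ciSup (f := fun b'' : Iio b' => nsum_UN a b''.1 + 1) bddAbove_of_small ⟨b, h⟩

private theorem nsum_bound_UN (w : Ordinal.{0}) (hw : w ≠ 0)
    (hH : ∀ c d, c < w → d < w → nsum_UN c d < w) (a b : Ordinal.{0}) :
    ∀ (i j : ℕ) (c d : Ordinal.{0}), c < w → d < w → a = w * i + c → b = w * j + d →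
      nsum_UN a b ≤ w * ((i + j : ℕ) : Ordinal.{0}) + nsum_UN c d := by
  induction a using WellFoundedLT.induction generalizing b with
  | ind a iha =>
  induction b using WellFoundedLT.induction with
  | ind b ihb =>
  intro i j c d hc hd ha hb
  have hnat : ∀ m n : ℕ, m < n → w * (m : Ordinal.{0}) + w ≤ w * (n : Ordinal.{0}) := by
    intro m n hmn
    have h1 : w * (m : Ordinal.{0}) + w = w * ((m + 1 : ℕ) : Ordinal.{0}) := by
      push_cast
      rw [mul_add, mul_one]
    rw [h1]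
    exact mul_le_mul_right (by exact_mod_cast hmn) w
  have hdec : ∀ (n : ℕ) (x : Ordinal.{0}), x < w * (n : Ordinal.{0}) →
      ∃ m : ℕ, m < n ∧ ∃ e < w, x = w * (m : Ordinal.{0}) + e := by
    intro n x hx
    have h1 : x / w < (n : Ordinal.{0}) := (Ordinal.lt_mul_iff_div_lt hw).mp hx
    obtain ⟨m, hm⟩ := Ordinal.lt_omega0.mp (h1.trans (Ordinal.natCast_lt_omega0 n))
    refine ⟨m, ?_, x % w, Ordinal.mod_lt x hw, ?_⟩
    · rw [hm] at h1
      exact_mod_cast h1
    · rw [← hm]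
      exact (Ordinal.div_add_mod x w).symm
  apply nsum_le_UN
  · intro a' ha'
    rcases lt_or_ge a' (w * (i : Ordinal.{0})) with h | h
    · obtain ⟨m, hmi, e, he, hxe⟩ := hdec i a' h
      refine lt_of_le_of_lt (iha a' ha' b m j e d he hd hxe hb) ?_
      calc w * ((m + j : ℕ) : Ordinal.{0}) + nsum_UN e d
          < w * ((m + j : ℕ) : Ordinal.{0}) + w := by
            exact (add_lt_add_iff_left _).mpr (hH e d he hd)
        _ ≤ w * ((i + j : ℕ) : Ordinal.{0}) := hnat _ _ (by omega)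
        _ ≤ w * ((i + j : ℕ) : Ordinal.{0}) + nsum_UN c d := le_add_of_nonneg_right bot_le
    · obtain ⟨e, he⟩ := exists_add_of_le h
      have hec : e < c := by
        rw [he, ha] at ha'
        exact (add_lt_add_iff_left _).mp ha'
      refine lt_of_le_of_lt (iha a' ha' b i j e d (hec.trans hc) hd he hb) ?_
      exact (add_lt_add_iff_left _).mpr (nsum_lt_left_UN e c d hec)
  · intro b' hb'
    rcases lt_or_ge b' (w * (j : Ordinal.{0})) with h | h
    · obtain ⟨m, hmj, e, he, hxe⟩ := hdec j b' h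
      refine lt_of_le_of_lt (ihb b' hb' i m c e hc he ha hxe) ?_
      calc w * ((i + m : ℕ) : Ordinal.{0}) + nsum_UN c e
          < w * ((i + m : ℕ) : Ordinal.{0}) + w := by
            exact (add_lt_add_iff_left _).mpr (hH c e hc he)
        _ ≤ w * ((i + j : ℕ) : Ordinal.{0}) := hnat _ _ (by omega)
        _ ≤ w * ((i + j : ℕ) : Ordinal.{0}) + nsum_UN c d := le_add_of_nonneg_right bot_le
    · obtain ⟨e, he⟩ := exists_add_of_le h
      have hed : e < d := by
        rw [he, hb] at hb'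
        exact (add_lt_add_iff_left _).mp hb'
      refine lt_of_le_of_lt (ihb b' hb' i j c e hc (hed.trans hd) ha he) ?_
      exact (add_lt_add_iff_left _).mpr (nsum_lt_right_UN c e d hed)

private theorem nsum_principal_UN (x : Ordinal.{0}) :
    ∀ a b : Ordinal.{0}, a < ω ^ x → b < ω ^ x → nsum_UN a b < ω ^ x := by
  induction x using Ordinal.limitRecOn with
  | zero =>
    intro a b ha hb
    rw [Ordinal.opow_zero] at ha hb ⊢
    have ha0 : a = 0 := Order.lt_one_iff.mp ha
    have hb0 : b = 0 := Order.lt_one_iff.mp hb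
    subst ha0 hb0
    refine lt_of_le_of_lt (nsum_le_UN 0 0 0 ?_ ?_) zero_lt_one
    · intro a' ha'; exact absurd ha' not_lt_bot
    · intro a' ha'; exact absurd ha' not_lt_bot
  | add_one y ih =>
    intro a b ha hb
    have hw : (ω ^ y : Ordinal.{0}) ≠ 0 := (Ordinal.opow_pos y Ordinal.omega0_pos).ne'
    rw [Ordinal.opow_add_one] at ha hb ⊢
    have hdec : ∀ (z : Ordinal.{0}), z < ω ^ y * ω →
        ∃ m : ℕ, ∃ e < ω ^ y, z = ω ^ y * (m : Ordinal.{0}) + e := by
      intro z hz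
      have h1 : z / ω ^ y < ω := (Ordinal.lt_mul_iff_div_lt hw).mp hz
      obtain ⟨m, hm⟩ := Ordinal.lt_omega0.mp h1
      refine ⟨m, z % ω ^ y, Ordinal.mod_lt z hw, ?_⟩
      rw [← hm]
      exact (Ordinal.div_add_mod z (ω ^ y)).symm
    obtain ⟨i, c, hc, hac⟩ := hdec a ha
    obtain ⟨j, d, hd, hbd⟩ := hdec b hb
    refine lt_of_le_of_lt (nsum_bound_UN _ hw ih a b i j c d hc hd hac hbd) ?_
    calc ω ^ y * ((i + j : ℕ) : Ordinal.{0}) + nsum_UN c d
        < ω ^ y * ((i + j : ℕ) : Ordinal.{0}) + ω ^ y :=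
          (add_lt_add_iff_left _).mpr (ih c d hc hd)
      _ = ω ^ y * ((i + j + 1 : ℕ) : Ordinal.{0}) := by
          rw [Nat.cast_add_one, mul_add, mul_one]
      _ ≤ ω ^ y * ω := mul_le_mul_right (Ordinal.natCast_lt_omega0 _).le _
  | limit x hx ih =>
    intro a b ha hb
    obtain ⟨y, hy, hay⟩ := (Ordinal.lt_opow_of_isSuccLimit Ordinal.omega0_ne_zero hx).mp ha
    obtain ⟨z, hz, hbz⟩ := (Ordinal.lt_opow_of_isSuccLimit Ordinal.omega0_ne_zero hx).mp hb
    have hm : max y z < x := max_lt hy hz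
    have h1 : a < ω ^ max y z :=
      lt_of_lt_of_le hay (Ordinal.opow_le_opow_right Ordinal.omega0_pos (le_max_left _ _))
    have h2 : b < ω ^ max y z :=
      lt_of_lt_of_le hbz (Ordinal.opow_le_opow_right Ordinal.omega0_pos (le_max_right _ _))
    exact lt_of_lt_of_le (ih _ hm a b h1 h2)
      (Ordinal.opow_le_opow_right Ordinal.omega0_pos hm.le)

/-- The natural sum (ordinal exponents). -/
theorem NS_UN : ∃ N : Ordinal.{0} → Ordinal.{0} → Ordinal.{0},
    (∀ a a' b, a < a' → N a b < N a' b) ∧ (∀ a b b', b < b' → N a b < N a b') ∧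
    ∀ x a b : Ordinal.{0}, a < ω ^ x → b < ω ^ x → N a b < ω ^ x :=
  ⟨nsum_UN, nsum_lt_left_UN, nsum_lt_right_UN, nsum_principal_UN⟩

variable {X : Type}

/-- `z` has rank `a` for `d` over `B`. -/
private def Rk (d : Set X → Set X) (B : Set X) (z : X) (a : Ordinal.{0}) : Prop :=
  z ∈ iter d B a ∧ z ∉ iter d B (a + 1)

private theorem exists_Rk_UN (hIT : StIT) (d : Set X → Set X) (hm : ∀ A B, A ⊆ B → d A ⊆ d B)
    (hl : ∀ B, d B ⊆ B) (B : Set X) (z : X) (hz : z ∈ B) (c : Ordinal.{0}) (hc : z ∉ iter d B c) :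
    ∃ a, a < c ∧ Rk d B z a := by
  obtain ⟨h0, -, hanti, -, -, -, hlim, -, -, -⟩ := hIT X d hm hl
  have hex : ∃ c, z ∉ iter d B c := ⟨c, hc⟩
  set m := WellFounded.min Ordinal.lt_wf {c | z ∉ iter d B c} hex with hmdef
  have hmem : z ∉ iter d B m := WellFounded.min_mem Ordinal.lt_wf {c | z ∉ iter d B c} hex
  have hmin : ∀ b, b < m → z ∈ iter d B b := by
    intro b hb
    by_contra hcon
    exact WellFounded.not_lt_min Ordinal.lt_wf {c | z ∉ iter d B c} hcon hb
  have hmc : m ≤ c := by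
    by_contra hcon
    exact hc (hmin c (not_le.mp hcon))
  rcases Ordinal.zero_or_succ_or_isSuccLimit m with h | ⟨b, h⟩ | h
  · rw [h, h0] at hmem
    exact absurd hz hmem
  · have h' : b + 1 = m := by rw [← h, Order.succ_eq_add_one]
    have hb : b < m := by rw [← h']; exact Order.lt_add_one_iff.mpr le_rfl
    refine ⟨b, lt_of_lt_of_le hb hmc, hmin b hb, ?_⟩
    rw [h']
    exact hmem
  · exfalso
    apply hmem
    rw [hlim B m h]
    refine mem_iInter.mpr fun β => hmin β.1 β.2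

private theorem IsDer_union_UN (τ : TopologicalSpace X) (d₁ d₂ : Set X → Set X)
    (h₁ : IsDer τ d₁) (h₂ : IsDer τ d₂) : IsDer τ (fun B => d₁ B ∪ d₂ B) := by
  refine ⟨?_, ?_, ?_, ?_⟩
  · intro A B h
    exact union_subset_union (h₁.mono A B h) (h₂.mono A B h)
  · intro B
    exact union_subset (h₁.le B) (h₂.le B)
  · intro O B hO
    show d₁ (B ∩ O) ∪ d₂ (B ∩ O) = (d₁ B ∪ d₂ B) ∩ O
    rw [h₁.loc O B hO, h₂.loc O B hO, union_inter_distrib_right]
  · intro B hB
    exact (h₁.closed B hB).union (h₂.closed B hB)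

private theorem core_UN (hIT : StIT) (hIL : StIL) (τ : TopologicalSpace X) (hZ : ZD τ)
    (N : Ordinal.{0} → Ordinal.{0} → Ordinal.{0})
    (hN1 : ∀ a a' b, a < a' → N a b < N a' b) (hN2 : ∀ a b b', b < b' → N a b < N a b')
    (d₁ d₂ : Set X → Set X) (h₁ : IsDer τ d₁) (h₂ : IsDer τ d₂) (B : Set X)
    (hB : IsClosed[τ] B) (β : Ordinal.{0}) :
    ∀ (z : X) (a b : Ordinal.{0}), z ∈ iter (fun B => d₁ B ∪ d₂ B) B β → Rk d₁ B z a →
      Rk d₂ B z b → β ≤ N a b := by
  have hD := IsDer_union_UN τ d₁ d₂ h₁ h₂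
  obtain ⟨-, hDs, hDa, -, -, hDB, -, -, -, -⟩ := hIT X (fun B => d₁ B ∪ d₂ B) hD.mono hD.le
  obtain ⟨-, h1s, -, -, -, -, -, -, -, -⟩ := hIT X d₁ h₁.mono h₁.le
  obtain ⟨-, h2s, -, -, -, -, -, -, -, -⟩ := hIT X d₂ h₂.mono h₂.le
  have hNle1 : ∀ a a' b, a ≤ a' → N a b ≤ N a' b := by
    intro a a' b h
    rcases h.lt_or_eq with h | h
    · exact (hN1 a a' b h).le
    · rw [h]
  have hNle2 : ∀ a b b', b ≤ b' → N a b ≤ N a b' := by
    intro a b b' h
    rcases h.lt_or_eq with h | h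
    · exact (hN2 a b b' h).le
    · rw [h]
  induction β using Ordinal.limitRecOn with
  | zero => intro z a b _ _ _; exact bot_le
  | add_one β ih =>
    intro z a b hz ha hb
    have hz' : z ∈ iter (fun B => d₁ B ∪ d₂ B) B β := hDa B β (β + 1) (le_add_of_nonneg_right zero_le_one) (by simpa using hz)
    have hle : β ≤ N a b := ih z a b hz' ha hb
    have hlt : β < N a b := by
      rcases hle.lt_or_eq with h | h
      · exact h
      exfalso
      have hc1 : IsClosed[τ] (iter d₁ B (a + 1)) := (hIL X τ d₁ h₁ (a + 1)).closed B hB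
      have hc2 : IsClosed[τ] (iter d₂ B (b + 1)) := (hIL X τ d₂ h₂ (b + 1)).closed B hB
      have hopen : IsOpen[τ] (iter d₁ B (a + 1) ∪ iter d₂ B (b + 1))ᶜ :=
        (IsClosed.union hc1 hc2).isOpen_compl
      obtain ⟨O, hO, hzO, hOs⟩ := hZ z _ hopen (by
        intro h
        rcases h with h | h
        · exact ha.2 h
        · exact hb.2 h)
      have key : ∀ w ∈ iter (fun B => d₁ B ∪ d₂ B) B β ∩ O, w ∈ iter d₁ B a ∧ w ∈ iter d₂ B b := by
        rintro w ⟨hw, hwO⟩
        have hwB : w ∈ B := hDB B β hw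
        have hwc := hOs hwO
        have hw1 : w ∉ iter d₁ B (a + 1) := fun h => hwc (Or.inl h)
        have hw2 : w ∉ iter d₂ B (b + 1) := fun h => hwc (Or.inr h)
        obtain ⟨a', ha'a, ha'⟩ := exists_Rk_UN hIT d₁ h₁.mono h₁.le B w hwB _ hw1
        obtain ⟨b', hb'b, hb'⟩ := exists_Rk_UN hIT d₂ h₂.mono h₂.le B w hwB _ hw2
        have ha'a : a' ≤ a := Order.lt_add_one_iff.mp ha'a
        have hb'b : b' ≤ b := Order.lt_add_one_iff.mp hb'b
        have hβ : β ≤ N a' b' := ih w a' b' hw ha' hb'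
        have haa : a' = a := by
          rcases ha'a.lt_or_eq with hlt | heq
          · exfalso
            have : N a' b' < N a b := lt_of_lt_of_le (hN1 a' a b' hlt) (hNle2 a b' b hb'b)
            rw [← h] at this
            exact absurd hβ (not_le.mpr this)
          · exact heq
        have hbb : b' = b := by
          rcases hb'b.lt_or_eq with hlt | heq
          · exfalso
            have : N a' b' < N a b := lt_of_lt_of_le (hN2 a' b' b hlt) (hNle1 a' a b ha'a)
            rw [← h] at this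
            exact absurd hβ (not_le.mpr this)
          · exact heq
        rw [← haa, ← hbb]
        exact ⟨ha'.1, hb'.1⟩
      have hzD : z ∈ d₁ (iter (fun B => d₁ B ∪ d₂ B) B β) ∪ d₂ (iter (fun B => d₁ B ∪ d₂ B) B β) := by
        have h3 := hDs B β
        have h4 : z ∈ iter (fun B => d₁ B ∪ d₂ B) B (β + 1) := by simpa using hz
        rw [h3] at h4
        exact h4
      rcases hzD with h3 | h3
      · apply ha.2
        rw [h1s]
        have h4 : z ∈ d₁ (iter (fun B => d₁ B ∪ d₂ B) B β ∩ O) := by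
          rw [h₁.loc O _ hO]; exact ⟨h3, hzO⟩
        exact h₁.mono _ _ (fun w hw => (key w hw).1) h4
      · apply hb.2
        rw [h2s]
        have h4 : z ∈ d₂ (iter (fun B => d₁ B ∪ d₂ B) B β ∩ O) := by
          rw [h₂.loc O _ hO]; exact ⟨h3, hzO⟩
        exact h₂.mono _ _ (fun w hw => (key w hw).2) h4
    exact Order.add_one_le_iff.mpr hlt
  | limit β hβ ih =>
    intro z a b hz ha hb
    refine (hβ.le_iff_forall_le).mpr ?_
    intro γ hγ
    exact ih γ hγ z a b (hDa B γ β hγ.le hz) ha hb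

private theorem UN_of (hIT : StIT) (hIL : StIL) : StUN := by
  intro X τ hZ d₁ d₂ h₁ h₂
  refine ⟨IsDer_union_UN τ d₁ d₂ h₁ h₂, ?_⟩
  intro B x hB
  have hD := IsDer_union_UN τ d₁ d₂ h₁ h₂
  obtain ⟨N, hN1, hN2, hN3⟩ := NS_UN
  apply Subset.antisymm
  · intro y hy
    by_contra hcon
    have hy1 : y ∉ iter d₁ B (ω ^ x) := fun h => hcon (Or.inl h)
    have hy2 : y ∉ iter d₂ B (ω ^ x) := fun h => hcon (Or.inr h)
    obtain ⟨-, -, -, -, -, hDB, -, -, -, -⟩ := hIT X (fun B => d₁ B ∪ d₂ B) hD.mono hD.le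
    have hyB : y ∈ B := hDB B _ hy
    obtain ⟨a, hax, ha⟩ := exists_Rk_UN hIT d₁ h₁.mono h₁.le B y hyB _ hy1
    obtain ⟨b, hbx, hb⟩ := exists_Rk_UN hIT d₂ h₂.mono h₂.le B y hyB _ hy2
    exact absurd (core_UN hIT hIL τ hZ N hN1 hN2 d₁ d₂ h₁ h₂ B hB (ω ^ x) y a b hy ha hb)
      (not_le.mpr (hN3 x a b hax hbx))
  · obtain ⟨-, -, -, -, -, -, -, -, -, hlast⟩ := hIT X (fun B => d₁ B ∪ d₂ B) hD.mono hD.le
    apply union_subset
    · exact hlast d₁ (fun B => subset_union_left) B _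
    · exact hlast d₂ (fun B => subset_union_right) B _

theorem hUN : StIT → StIL → StUN := UN_of

end Pool.Agent.Helper24.WH

end
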