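import Pool.Agent.Helper24.WH.St2
import Pool.Agent.Helper24.WH.St3
import Pool.Agent.Helper24.WH.St5
import Pool.Agent.Helper24.WH.St6
import Pool.Agent.Helper24.WH.St7
import Pool.Agent.Helper76.WHC.B0

set_option autoImplicit false

section

/-!
# PROJECT WH (MP_76577a_lc), module CM: comparison at the top (9.1)
-/

set_option autoImplicit false

namespace Pool.Agent.Helper24.WH

open Set TopologicalSpace Topology
open Ordinal hiding univ

private theorem compact_CM (A : Type) [Finite A] : @CompactSpace (Tre A) (pT A) := by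
  let _ : TopologicalSpace A := ⊥
  exact (inferInstance : CompactSpace (List Bool → A))

private theorem openAux_CM (A : Type) (l : ℕ) (x : List Bool → A) :
    @IsOpen (List Bool → A) (@Pi.topologicalSpace (List Bool) (fun _ => A) (fun _ => ⊥))
      {t | ∀ u : List Bool, u.length < l → t u = x u} := by
  let _ : TopologicalSpace A := ⊥
  have : DiscreteTopology A := ⟨rfl⟩
  have e : {t : List Bool → A | ∀ u : List Bool, u.length < l → t u = x u} =
      ⋂ u ∈ {u : List Bool | u.length < l}, (fun t : List Bool → A => t u) ⁻¹' {x u} := by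
    ext t
    simp
  have h : IsOpen (⋂ u ∈ {u : List Bool | u.length < l}, (fun t : List Bool → A => t u) ⁻¹' {x u}) :=
    (List.finite_length_lt Bool l).isOpen_biInter fun u _ =>
      (isOpen_discrete _).preimage (continuous_apply u)
  rw [e]
  exact h

private theorem openCyl_CM (A : Type) (l : ℕ) (x : Tre A) : IsOpen[pT A] (Cyl l x) :=
  openAux_CM A l x

private theorem cylBasis_CM (A : Type) (U : Set (Tre A)) (hU : IsOpen[pT A] U) (x : Tre A) (hx : x ∈ U) :
    ∃ l, Cyl l x ⊆ U := by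
  let _ : TopologicalSpace A := ⊥
  have hU' : @IsOpen (List Bool → A) _ U := hU
  obtain ⟨I, u, h1, h2⟩ := isOpen_pi_iff.1 hU' x hx
  refine ⟨I.sup List.length + 1, fun t ht => h2 ?_⟩
  intro i hi
  have hlen : i.length < I.sup List.length + 1 := Nat.lt_succ_of_le (Finset.le_sup (f := List.length) hi)
  rw [ht i hlen]
  exact (h1 i hi).2

private theorem cont_CM (A₁ A₂ : Type) (φ : Tre A₁ → Tre A₂)
    (h : ∀ x k, ∃ l, ∀ y, y ∈ Cyl l x → φ y ∈ Cyl k (φ x)) : @Continuous _ _ (pT A₁) (pT A₂) φ := by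
  let _ : TopologicalSpace A₂ := ⊥
  have : DiscreteTopology A₂ := ⟨rfl⟩
  let _ : TopologicalSpace (Tre A₁) := pT A₁
  have key : Continuous (fun t : Tre A₁ => (fun u => φ t u : List Bool → A₂)) := by
    refine continuous_pi fun u => ?_
    rw [continuous_discrete_rng]
    intro a
    rw [isOpen_iff_mem_nhds]
    intro x hx
    obtain ⟨l, hl⟩ := h x (u.length + 1)
    refine Filter.mem_of_superset ((openCyl_CM A₁ l x).mem_nhds (fun u _ => rfl)) fun y hy => ?_
    have := hl y hy u (Nat.lt_succ_self _)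
    show φ y u = a
    rw [this]
    exact hx
  exact key

private theorem sep_CM {X : Type} (τ : TopologicalSpace X) (P : Set (Set X)) (h0 : ∅ ∈ P)
    (hun : ∀ B ∈ P, ∀ B' ∈ P, B ∪ B' ∈ P) (hop : ∀ B ∈ P, IsOpen[τ] B)
    (hbas : ∀ x U, IsOpen[τ] U → x ∈ U → ∃ O ∈ P, x ∈ O ∧ O ⊆ U) (K U : Set X)
    (hK : @IsCompact X τ K) (hU : IsOpen[τ] U) (hKU : K ⊆ U) : ∃ A ∈ P, K ⊆ A ∧ A ⊆ U := by
  let _ := τ
  refine hK.induction_on (p := fun s => ∃ A ∈ P, s ⊆ A ∧ A ⊆ U) ⟨∅, h0, subset_rfl, empty_subset _⟩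
    ?_ ?_ ?_
  · rintro s t hst ⟨A, hA, h1, h2⟩
    exact ⟨A, hA, hst.trans h1, h2⟩
  · rintro s t ⟨A, hA, h1, h2⟩ ⟨B, hB, h3, h4⟩
    exact ⟨A ∪ B, hun A hA B hB, union_subset_union h1 h3, union_subset h2 h4⟩
  · intro x hx
    obtain ⟨O, hO, hxO, hOU⟩ := hbas x U hU (hKU hx)
    exact ⟨O, mem_nhdsWithin_of_mem_nhds ((hop O hO).mem_nhds hxO), O, hO, subset_rfl, hOU⟩

private theorem clTop_CM {X : Type} (B : Set X) (hB : B.Nonempty) :
    closure[(⊤ : TopologicalSpace X)] B = univ := by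
  have h1 : IsOpen[(⊤ : TopologicalSpace X)] (closure[(⊤ : TopologicalSpace X)] B)ᶜ :=
    @IsClosed.isOpen_compl _ ⊤ _ (@isClosed_closure _ ⊤ B)
  rcases (TopologicalSpace.isOpen_top_iff _).1 h1 with h | h
  · exact compl_empty_iff.1 h
  · exfalso
    rw [compl_univ_iff] at h
    obtain ⟨t, ht⟩ := hB
    have := @subset_closure _ ⊤ B t ht
    rw [h] at this
    exact this

theorem hCM (hCTI : StCTI) (hRE : StRE) (hRA : StRA) (hRB : StRB) : StCM := by
  intro A₁ A₂ _ _ _ _ n τ P f τ' P' f' hR hR' hτ hτ' r hwf hvd hV hex himp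
  classical
  have hn := hR.rich
  have hn' := hR'.rich
  -- winning on a set without one side
  have win : ∀ s, (Zo τ' f' n r s univ).Nonempty → ∀ A ∈ P n, Zo τ f n r (!s) A = ∅ →
      WinG τ P f τ' P' f' n A univ univ := by
    intro s hs A hA hZ
    refine hCTI (Tre A₁) A₂ n τ P f τ' P' f' hn hR' n le_rfl r s hwf hvd A hA univ (hn'.univ n) univ
      (hn'.univ (n + 1)) hZ ?_
    rw [hn'.top (n + 1) (Nat.lt_succ_self n), univ_inter, univ_inter, clTop_CM _ hs]
  by_cases hone : ∃ s, (Zo τ' f' n r s univ).Nonempty ∧ Zo τ f n r (!s) univ = ∅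
  · obtain ⟨s, hs, hZ⟩ := hone
    obtain ⟨φ, h1, h2⟩ := hRE A₁ A₂ n τ P f τ' P' f' hR hR' hτ hτ' univ (hn.univ _)
      (win s hs univ (hn.univ n) hZ)
    refine ⟨φ, cont_CM A₁ A₂ φ fun x k => ?_, fun x => h1 x (mem_univ x)⟩
    obtain ⟨l, hl⟩ := h2 x (mem_univ x) k
    exact ⟨l, fun y hy => hl y (mem_univ y) hy⟩
  · push Not at hone
    -- both sides of the source are nonempty
    have hboth : ∀ s, (Zo τ' f' n r s univ).Nonempty := by
      obtain ⟨s, hs⟩ := hex
      have h1 : (Zo τ f n r (!s) univ).Nonempty := hone s hs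
      have h2 : (Zo τ' f' n r (!s) univ).Nonempty := himp _ h1
      intro s'
      by_cases h : s' = s
      · rw [h]; exact hs
      · have : s' = !s := by cases s <;> cases s' <;> simp_all
        rw [this]; exact h2
    have hd : ∀ s, IsDer (τ n) (Zo τ f n r s) := ((hRB (Tre A₁) τ f hn.tow hn.fib n).2.1 r)
    have hdis : Zo τ f n r false univ ∩ Zo τ f n r true univ = ∅ := by
      rw [← (hRA (Tre A₁) τ f n).2.2.2.2.2.2.2.2.2.1 r univ hwf hvd, hV]
    have hclZ : ∀ s, IsClosed[τ n] (Zo τ f n r s univ) := fun s =>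
      (hd s).closed univ (@isClosed_univ _ (τ n))
    have hcomp : @CompactSpace (Tre A₁) (τ n) := by rw [hτ]; exact compact_CM A₁
    have hop : ∀ B ∈ P (n + 1), IsOpen[τ n] B := hn.op n le_rfl
    have hclP : ∀ B ∈ P (n + 1), IsClosed[τ n] B := fun B hB => hn.cl n le_rfl B (hn.anti n hB)
    have sep := sep_CM (τ n) (P (n + 1)) (hn.empty _) (hn.union _) hop (hn.basis n le_rfl)
    obtain ⟨A, hA, hKA, hAU⟩ := sep (Zo τ f n r false univ) (Zo τ f n r true univ)ᶜ
      (@IsClosed.isCompact _ (τ n) _ hcomp (hclZ false))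
      (@IsClosed.isOpen_compl _ (τ n) _ (hclZ true))
      (fun x hx hx' => by
        have : x ∈ Zo τ f n r false univ ∩ Zo τ f n r true univ := ⟨hx, hx'⟩
        rw [hdis] at this
        exact this)
    have hAc : Aᶜ ∈ P (n + 1) := by
      have h1 : IsOpen[τ n] Aᶜ := @IsClosed.isOpen_compl _ (τ n) _ (hclP A hA)
      have h2 : IsClosed[τ n] Aᶜ := @IsOpen.isClosed_compl _ (τ n) _ (hop A hA)
      obtain ⟨B, hB, h3, h4⟩ := sep Aᶜ Aᶜ (@IsClosed.isCompact _ (τ n) _ hcomp h2) h1 subset_rfl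
      rwa [← subset_antisymm h4 h3]
    have hloc : ∀ s, ∀ B ∈ P (n + 1), Zo τ f n r s B = Zo τ f n r s univ ∩ B := by
      intro s B hB
      have := (hd s).loc B univ ⟨hclP B hB, hop B hB⟩
      rwa [univ_inter] at this
    have hZA : Zo τ f n r (!false) A = ∅ := by
      rw [Bool.not_false, hloc true A hA, inter_comm]
      exact Set.subset_empty_iff.1 fun x hx => hAU hx.1 hx.2
    have hZAc : Zo τ f n r (!true) Aᶜ = ∅ := by
      rw [Bool.not_true, hloc false Aᶜ hAc]
      exact Set.subset_empty_iff.1 fun x hx => hx.2 (hKA hx.1)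
    obtain ⟨φ₁, h1, h2⟩ := hRE A₁ A₂ n τ P f τ' P' f' hR hR' hτ hτ' A hA
      (win false (hboth false) A (hn.anti n hA) hZA)
    obtain ⟨φ₂, h3, h4⟩ := hRE A₁ A₂ n τ P f τ' P' f' hR hR' hτ hτ' Aᶜ hAc
      (win true (hboth true) Aᶜ (hn.anti n hAc) hZAc)
    have hopA : IsOpen[pT A₁] A := by rw [← hτ]; exact hop A hA
    have hopAc : IsOpen[pT A₁] Aᶜ := by rw [← hτ]; exact hop Aᶜ hAc
    refine ⟨fun x => if x ∈ A then φ₁ x else φ₂ x, cont_CM A₁ A₂ _ fun x k => ?_, fun x => ?_⟩
    · by_cases hx : x ∈ A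
      · obtain ⟨l, hl⟩ := h2 x hx k
        obtain ⟨l', hl'⟩ := cylBasis_CM A₁ A hopA x hx
        refine ⟨max l l', fun y hy => ?_⟩
        have hyA : y ∈ A := hl' fun u hu => hy u (lt_of_lt_of_le hu (le_max_right _ _))
        simp only [hx, hyA, if_true]
        exact hl y hyA fun u hu => hy u (lt_of_lt_of_le hu (le_max_left _ _))
      · obtain ⟨l, hl⟩ := h4 x hx k
        obtain ⟨l', hl'⟩ := cylBasis_CM A₁ Aᶜ hopAc x hx
        refine ⟨max l l', fun y hy => ?_⟩
        have hyA : y ∈ Aᶜ := hl' fun u hu => hy u (lt_of_lt_of_le hu (le_max_right _ _))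
        have hyA' : y ∉ A := hyA
        simp only [hx, hyA', if_false]
        exact hl y hyA fun u hu => hy u (lt_of_lt_of_le hu (le_max_left _ _))
    · by_cases hx : x ∈ A
      · simp only [hx, if_true]
        exact h1 x hx
      · simp only [hx, if_false]
        exact h3 x hx

end Pool.Agent.Helper24.WH

end

section

/-! WH module DE: existence of data -/

set_option autoImplicit false

namespace Pool.Agent.Helper24.WH

open Set TopologicalSpace Topology

private theorem cyl_DE {A : Type} (Q : Set (Set (Tre A))) (h0 : univ ∈ Q)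
    (hi : ∀ B ∈ Q, ∀ B' ∈ Q, B ∩ B' ∈ Q) (hc : ∀ (u : List Bool) (a : A), {t : Tre A | t u = a} ∈ Q)
    (k : ℕ) (t : Tre A) : Cyl k t ∈ Q := by
  have key : ∀ F : Set (List Bool), F.Finite → {t' : Tre A | ∀ u ∈ F, t' u = t u} ∈ Q := by
    intro F hF
    induction F, hF using Set.Finite.induction_on with
    | empty =>
      have : {t' : Tre A | ∀ u ∈ (∅ : Set (List Bool)), t' u = t u} = univ := by
        ext t'
        simp
      rw [this]
      exact h0
    | @insert a s _ _ ih =>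
      have : {t' : Tre A | ∀ u ∈ insert a s, t' u = t u} =
          {t' : Tre A | t' a = t a} ∩ {t' : Tre A | ∀ u ∈ s, t' u = t u} := by
        ext t'
        simp
      rw [this]
      exact hi _ (hc a (t a)) _ ih
  have h1 := key {u : List Bool | u.length < k} (List.finite_length_lt Bool k)
  exact h1

theorem hDE (hFT4 : StFT4) (hRI : StRI) (hIV : StIV) : StDE := by
  intro A S _ _ _ n g Ga h hyp
  obtain ⟨τ, P, N, h1, h2, h3, h4, h5⟩ := hFT4 A S n g Ga hyp
  have h6 : IsRich n τ P (h ∘ g) := hRI (Tre A) S n N τ g h P h1 h2 h3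
  have h7 : IsRichT n τ P (h ∘ g) :=
    ⟨h6, fun M k t => cyl_DE (P M) (h6.univ M) (h6.inter M) (h5 M) k t⟩
  obtain ⟨r, h8, h9, h10, h11⟩ := hIV A n τ P (h ∘ g) h7 h4
  exact ⟨r, fun s => (Zo τ (h ∘ g) n r s univ).Nonempty, h8, h9, h11,
    ⟨τ, P, h7, h4, h10, fun s => Iff.rfl⟩⟩

end Pool.Agent.Helper24.WH

end

section

/-!
# PROJECT WH, module F5: openness in the base tower
-/

set_option autoImplicit false

namespace Pool.Agent.Helper24.WH

open Set TopologicalSpace Topology
open Ordinal hiding univ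

private theorem bT_eq_nt_F5 {A S : Type} (g : Tre A → S) (j : ℕ) :
    ∃ G : Set (Set (Tre A)), bT g j = nt G := by
  cases j with
  | zero => exact ⟨∅, rfl⟩
  | succ j => exact ⟨_, rfl⟩

private theorem cyl_open_F5 {A S : Type} (g : Tre A → S) (j : ℕ) (Q : A → Prop) :
    IsOpen[bT g j] {t : Tre A | Q (t [])} := by
  obtain ⟨G, hG⟩ := bT_eq_nt_F5 g j
  rw [hG]
  have h1 : {t : Tre A | Q (t [])} = ⋃ a ∈ {a : A | Q a}, {t : Tre A | t [] = a} := by
    ext t
    simp only [mem_setOf_eq, mem_iUnion, exists_prop]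
    constructor
    · intro h; exact ⟨_, h, rfl⟩
    · rintro ⟨a, ha, h⟩; rw [h]; exact ha
  rw [h1]
  letI := nt G
  refine isOpen_biUnion fun a _ => ?_
  exact isOpen_generateFrom_of_mem (Or.inl ⟨[], a, rfl⟩)

private theorem cyl_closed_F5 {A S : Type} (g : Tre A → S) (j : ℕ) (Q : A → Prop) :
    IsClosed[bT g j] {t : Tre A | Q (t [])} := by
  have h1 := cyl_open_F5 g j (fun a => ¬ Q a)
  have h2 : {t : Tre A | Q (t [])} = {t : Tre A | ¬ Q (t [])}ᶜ := by
    ext t; simp
  rw [h2]
  letI := bT g j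
  exact h1.isClosed_compl

/-- least fixed point -/
private theorem lfp_open_F5 {X : Type} (τ : TopologicalSpace X) (F : Set X → Set X)
    (hm : ∀ A B, A ⊆ B → F A ⊆ F B) (ho : ∀ A, IsOpen[τ] A → IsOpen[τ] (F A)) :
    IsOpen[τ] (⋂₀ {X | F X ⊆ X}) := by
  letI := τ
  set L := ⋂₀ {X | F X ⊆ X} with hL
  have h1 : F L ⊆ L := by
    apply subset_sInter
    intro X hX
    exact (hm _ _ (sInter_subset_of_mem hX)).trans hX
  have h2 : F (interior L) ⊆ interior L :=
    interior_maximal ((hm _ _ interior_subset).trans h1) (ho _ isOpen_interior)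
  have h3 : L ⊆ interior L := sInter_subset_of_mem h2
  have h4 : interior L = L := Subset.antisymm interior_subset h3
  rw [← h4]
  exact isOpen_interior

/-- greatest fixed point -/
private theorem gfp_closed_F5 {X : Type} (τ : TopologicalSpace X) (F : Set X → Set X)
    (hm : ∀ A B, A ⊆ B → F A ⊆ F B) (ho : ∀ A, IsClosed[τ] A → IsClosed[τ] (F A)) :
    IsClosed[τ] (⋃₀ {X | X ⊆ F X}) := by
  letI := τ
  set L := ⋃₀ {X | X ⊆ F X} with hL
  have h1 : L ⊆ F L := by
    apply sUnion_subset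
    intro X hX
    exact hX.trans (hm _ _ (subset_sUnion_of_mem hX))
  have h2 : closure L ⊆ F (closure L) :=
    closure_minimal (h1.trans (hm _ _ subset_closure)) (ho _ isClosed_closure)
  have h3 : closure L ⊆ L := subset_sUnion_of_mem h2
  have h4 : closure L = L := Subset.antisymm h3 subset_closure
  rw [← h4]
  exact isClosed_closure

theorem hF5 (hF2 : StF2) (hNT : StNT) (hBB : StBB) : StF5 := by
  intro P S _ _ g Ga hg
  -- monotonicity of the base tower
  have hmono : ∀ j k, j ≤ k → bT g k ≤ bT g j := by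
    intro j k hjk
    induction k, hjk using Nat.le_induction with
    | base => exact le_rfl
    | succ k _ ih => exact (hBB (Set P) S g Ga hg k).1.trans ih
  have hOpen : ∀ j k, j ≤ k → ∀ U, IsOpen[bT g j] U → IsOpen[bT g k] U :=
    fun j k hjk U hU => hmono j k hjk U hU
  have hClosed : ∀ j k, j ≤ k → ∀ U, IsClosed[bT g j] U → IsClosed[bT g k] U :=
    fun j k hjk U hU => IsClosed.mono hU (hmono j k hjk)
  -- a definable closed set is open at the next level
  have hNext : ∀ j (K : Set S), IsClosed[bT g j] (g ⁻¹' K) → IsOpen[bT g (j + 1)] (g ⁻¹' K) := by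
    intro j K hK
    obtain ⟨-, hop, -⟩ := hNT (Set P)
    exact hop {F | ∃ K : Set S, F = g ⁻¹' K ∧ IsClosed[bT g j] F} _ ⟨K, rfl, hK⟩
  have hNext' : ∀ j (K : Set S), IsOpen[bT g j] (g ⁻¹' K) → IsClosed[bT g (j + 1)] (g ⁻¹' K) := by
    intro j K hK
    have h1 : IsClosed[bT g j] (g ⁻¹' Kᶜ) := by
      letI := bT g j
      rw [preimage_compl]
      exact IsOpen.isClosed_compl hK
    have h2 := hNext j Kᶜ h1
    letI := bT g (j + 1)
    rw [preimage_compl] at h2
    exact isOpen_compl_iff.mp h2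
  have hcont : ∀ j (u : List Bool), @Continuous _ _ (bT g j) (bT g j)
      (fun t : Tre (Set P) => t.sub u) := by
    intro j u
    obtain ⟨G, hG⟩ := bT_eq_nt_F5 g j
    rw [hG]
    exact (hNT (Set P)).2.2.1 G u
  intro φ
  induction φ with
  | prop p =>
    intro E _
    exact ⟨0, fun j _ => ⟨fun _ V _ => cyl_open_F5 g j (fun a => p ∈ a),
      fun _ V _ => cyl_closed_F5 g j (fun a => p ∈ a)⟩⟩
  | nprop p =>
    intro E _
    exact ⟨0, fun j _ => ⟨fun _ V _ => cyl_open_F5 g j (fun a => p ∉ a),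
      fun _ V _ => cyl_closed_F5 g j (fun a => p ∉ a)⟩⟩
  | top =>
    intro E _
    exact ⟨0, fun j _ => ⟨fun _ V _ => @isOpen_univ _ (bT g j),
      fun _ V _ => @isClosed_univ _ (bT g j)⟩⟩
  | bot =>
    intro E _
    exact ⟨0, fun j _ => ⟨fun _ V _ => @isOpen_empty _ (bT g j),
      fun _ V _ => @isClosed_empty _ (bT g j)⟩⟩
  | var n =>
    intro E _
    exact ⟨0, fun j _ => ⟨fun _ V hV => hV n rfl, fun _ V hV => hV n rfl⟩⟩
  | and φ ψ ihφ ihψ =>
    intro E hE
    obtain ⟨J₁, h₁⟩ := ihφ E (fun F hF => hE F (List.mem_cons_of_mem _ (List.mem_append_left _ hF)))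
    obtain ⟨J₂, h₂⟩ := ihψ E (fun F hF => hE F (List.mem_cons_of_mem _ (List.mem_append_right _ hF)))
    refine ⟨max J₁ J₂, fun j hj => ⟨?_, ?_⟩⟩
    · intro hok V hV
      have a1 := ((h₁ j ((le_max_left _ _).trans hj)).1 hok.1 V (fun i hi => hV i (Or.inl hi)))
      have a2 := ((h₂ j ((le_max_right _ _).trans hj)).1 hok.2 V (fun i hi => hV i (Or.inr hi)))
      letI := bT g j
      exact a1.inter a2
    · intro hok V hV
      have a1 := ((h₁ j ((le_max_left _ _).trans hj)).2 hok.1 V (fun i hi => hV i (Or.inl hi)))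
      have a2 := ((h₂ j ((le_max_right _ _).trans hj)).2 hok.2 V (fun i hi => hV i (Or.inr hi)))
      letI := bT g j
      exact a1.inter a2
  | or φ ψ ihφ ihψ =>
    intro E hE
    obtain ⟨J₁, h₁⟩ := ihφ E (fun F hF => hE F (List.mem_cons_of_mem _ (List.mem_append_left _ hF)))
    obtain ⟨J₂, h₂⟩ := ihψ E (fun F hF => hE F (List.mem_cons_of_mem _ (List.mem_append_right _ hF)))
    refine ⟨max J₁ J₂, fun j hj => ⟨?_, ?_⟩⟩
    · intro hok V hV
      have a1 := ((h₁ j ((le_max_left _ _).trans hj)).1 hok.1 V (fun i hi => hV i (Or.inl hi)))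
      have a2 := ((h₂ j ((le_max_right _ _).trans hj)).1 hok.2 V (fun i hi => hV i (Or.inr hi)))
      letI := bT g j
      exact a1.union a2
    · intro hok V hV
      have a1 := ((h₁ j ((le_max_left _ _).trans hj)).2 hok.1 V (fun i hi => hV i (Or.inl hi)))
      have a2 := ((h₂ j ((le_max_right _ _).trans hj)).2 hok.2 V (fun i hi => hV i (Or.inr hi)))
      letI := bT g j
      exact a1.union a2
  | dia φ ih =>
    intro E hE
    obtain ⟨J, h⟩ := ih E (fun F hF => hE F (List.mem_cons_of_mem _ hF))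
    refine ⟨J, fun j hj => ⟨?_, ?_⟩⟩
    · intro hok V hV
      have h1 := (h j hj).1 hok V hV
      have h2 : (Fm.dia φ).SEM V = ⋃ b : Bool, (fun t : Tre (Set P) => t.sub [b]) ⁻¹' (φ.SEM V) := by
        ext t; simp [Fm.SEM]
      rw [h2]
      letI := bT g j
      exact isOpen_iUnion fun b => h1.preimage (hcont j [b])
    · intro hok V hV
      have h1 := (h j hj).2 hok V hV
      have h2 : (Fm.dia φ).SEM V = ⋃ b : Bool, (fun t : Tre (Set P) => t.sub [b]) ⁻¹' (φ.SEM V) := by
        ext t; simp [Fm.SEM]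
      rw [h2]
      letI := bT g j
      exact isClosed_iUnion_of_finite fun b => h1.preimage (hcont j [b])
  | box φ ih =>
    intro E hE
    obtain ⟨J, h⟩ := ih E (fun F hF => hE F (List.mem_cons_of_mem _ hF))
    refine ⟨J, fun j hj => ⟨?_, ?_⟩⟩
    · intro hok V hV
      have h1 := (h j hj).1 hok V hV
      have h2 : (Fm.box φ).SEM V = ⋂ b : Bool, (fun t : Tre (Set P) => t.sub [b]) ⁻¹' (φ.SEM V) := by
        ext t; simp [Fm.SEM]
      rw [h2]
      letI := bT g j
      exact isOpen_iInter_of_finite fun b => h1.preimage (hcont j [b])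
    · intro hok V hV
      have h1 := (h j hj).2 hok V hV
      have h2 : (Fm.box φ).SEM V = ⋂ b : Bool, (fun t : Tre (Set P) => t.sub [b]) ⁻¹' (φ.SEM V) := by
        ext t; simp [Fm.SEM]
      rw [h2]
      letI := bT g j
      exact isClosed_iInter fun b => h1.preimage (hcont j [b])
  | mu φ ih =>
    intro E hE
    obtain ⟨J, h⟩ := ih (ec ((Fm.mu φ).SEM E) E)
      (fun F hF => hE F (List.mem_cons_of_mem _ hF))
    have hlfp : ∀ j, J ≤ j → φ.okM → ∀ V : ℕ → Set (Tre (Set P)),
        (∀ i, (Fm.mu φ).free i → IsOpen[bT g j] (V i)) → IsOpen[bT g j] ((Fm.mu φ).SEM V) := by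
      intro j hj hok V hV
      apply lfp_open_F5 (bT g j) (fun X => φ.SEM (ec X V))
      · intro A B hAB
        apply (hF2 P φ).1
        intro i
        cases i with
        | zero => exact hAB
        | succ i => exact Subset.rfl
      · intro A hA
        apply (h j hj).1 hok
        intro i hi
        cases i with
        | zero => exact hA
        | succ i => exact hV i hi
    refine ⟨J + 1, fun j hj => ⟨?_, ?_⟩⟩
    · intro hok V hV
      exact hlfp j (by omega) hok V hV
    · rintro ⟨hfree, hok⟩ V _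
      have hfree' : ∀ i, ¬ (Fm.mu φ).free i := hfree
      have h1 : IsOpen[bT g J] ((Fm.mu φ).SEM E) :=
        hlfp J le_rfl hok E (fun i hi => absurd hi (hfree' i))
      obtain ⟨K, hK⟩ := hE ((Fm.mu φ).SEM E) (List.mem_cons_self)
      have h2 : (Fm.mu φ).SEM V = (Fm.mu φ).SEM E :=
        (hF2 P (Fm.mu φ)).2.1 V E (fun i hi => absurd hi (hfree' i))
      rw [h2, hK]
      rw [hK] at h1
      exact hClosed (J + 1) j hj _ (hNext' J K h1)
  | nu φ ih =>
    intro E hE
    obtain ⟨J, h⟩ := ih (ec ((Fm.nu φ).SEM E) E)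
      (fun F hF => hE F (List.mem_cons_of_mem _ hF))
    have hgfp : ∀ j, J ≤ j → φ.okN → ∀ V : ℕ → Set (Tre (Set P)),
        (∀ i, (Fm.nu φ).free i → IsClosed[bT g j] (V i)) → IsClosed[bT g j] ((Fm.nu φ).SEM V) := by
      intro j hj hok V hV
      apply gfp_closed_F5 (bT g j) (fun X => φ.SEM (ec X V))
      · intro A B hAB
        apply (hF2 P φ).1
        intro i
        cases i with
        | zero => exact hAB
        | succ i => exact Subset.rfl
      · intro A hA
        apply (h j hj).2 hok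
        intro i hi
        cases i with
        | zero => exact hA
        | succ i => exact hV i hi
    refine ⟨J + 1, fun j hj => ⟨?_, ?_⟩⟩
    · rintro ⟨hfree, hok⟩ V _
      have hfree' : ∀ i, ¬ (Fm.nu φ).free i := hfree
      have h1 : IsClosed[bT g J] ((Fm.nu φ).SEM E) :=
        hgfp J le_rfl hok E (fun i hi => absurd hi (hfree' i))
      obtain ⟨K, hK⟩ := hE ((Fm.nu φ).SEM E) (List.mem_cons_self)
      have h2 : (Fm.nu φ).SEM V = (Fm.nu φ).SEM E :=
        (hF2 P (Fm.nu φ)).2.1 V E (fun i hi => absurd hi (hfree' i))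
      rw [h2, hK]
      rw [hK] at h1
      exact hOpen (J + 1) j hj _ (hNext J K h1)
    · intro hok V hV
      exact hgfp j (by omega) hok V hV

end Pool.Agent.Helper24.WH

end

section

set_option autoImplicit false

namespace Pool.Agent.Helper24.WH

open Set TopologicalSpace Topology
open Ordinal hiding univ

private theorem mem_subs_F6 {P : Type} (φ : Fm P) (E : ℕ → Set (Tre (Set P))) : φ.SEM E ∈ φ.subs E := by
  cases φ <;> simp [Fm.subs, Fm.SEM]

section

variable {P S : Type} [Finite P] [Finite S] {g : Tre (Set P) → S} {Ga : Set P → S × S → S}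

private theorem step_F6 (hom : ∀ a p, g (Tre.mk a p) = Ga a (g p.1, g p.2)) {j : ℕ} {F : Set (Tre (Set P))}
    (h : IsOpen[bT g j] F) : IsOpen[bT g (j + 1)] F :=
  (hBB hNT (Set P) S g Ga hom j).1 F h

private theorem cl_F6 {j : ℕ} {F : Set (Tre (Set P))} (hd : ∃ K : Set S, F = g ⁻¹' K)
    (h : IsClosed[bT g j] F) : IsOpen[bT g (j + 1)] F := by
  obtain ⟨K, hK⟩ := hd
  exact (hNT (Set P)).2.1 {F | ∃ K : Set S, F = g ⁻¹' K ∧ IsClosed[bT g j] F} F ⟨K, hK, h⟩

private theorem clo_F6 (hom : ∀ a p, g (Tre.mk a p) = Ga a (g p.1, g p.2)) {j : ℕ}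
    {F : Set (Tre (Set P))} (hd : ∃ K : Set S, F = g ⁻¹' K) (h : IsClosed[bT g j] F) :
    Clp (bT g (j + 1)) F := by
  refine ⟨?_, cl_F6 hd h⟩
  rw [← @isOpen_compl_iff _ _ (bT g (j + 1))]
  refine step_F6 hom ?_
  rw [@isOpen_compl_iff _ _ (bT g j)]
  exact h

private theorem opn_F6 (hom : ∀ a p, g (Tre.mk a p) = Ga a (g p.1, g p.2)) {j : ℕ}
    {F : Set (Tre (Set P))} (hd : ∃ K : Set S, F = g ⁻¹' K) (h : IsOpen[bT g j] F) :
    Clp (bT g (j + 1)) F := by
  have hd' : ∃ K : Set S, Fᶜ = g ⁻¹' K := by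
    obtain ⟨K, hK⟩ := hd
    exact ⟨Kᶜ, by rw [hK, preimage_compl]⟩
  have h' : IsClosed[bT g j] Fᶜ := by
    rw [@isClosed_compl_iff _ (bT g j)]
    exact h
  have h2 := clo_F6 hom hd' h'
  exact ⟨(@isOpen_compl_iff _ _ (bT g (j + 1))).1 h2.2, by
    have := h2.1
    rwa [@isClosed_compl_iff _ (bT g (j + 1))] at this⟩

end

theorem hF6 (hF5 : StF5) : StF6 := by
  intro P S _ _ g Ga hom φ
  -- the value of the formula itself
  have head : ∀ (φ : Fm P) (E : ℕ → Set (Tre (Set P))), (∀ F ∈ φ.subs E, ∃ K : Set S, F = g ⁻¹' K) →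
      ∃ J, ∀ j, J ≤ j →
        (φ.okM → (∀ i, φ.free i → IsOpen[bT g j] (E i)) →
          IsOpen[bT g j] (φ.SEM E) ∧ Clp (bT g (j + 1)) (φ.SEM E)) ∧
        (φ.okN → (∀ i, φ.free i → IsClosed[bT g j] (E i)) →
          IsClosed[bT g j] (φ.SEM E) ∧ Clp (bT g (j + 1)) (φ.SEM E)) := by
    intro φ E hE
    obtain ⟨J, hJ⟩ := hF5 P S g Ga hom φ E hE
    refine ⟨J, fun j hj => ⟨fun hM hop => ?_, fun hN hcl => ?_⟩⟩
    · have h1 := (hJ j hj).1 hM E hop
      exact ⟨h1, opn_F6 hom (hE _ (mem_subs_F6 φ E)) h1⟩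
    · have h1 := (hJ j hj).2 hN E hcl
      exact ⟨h1, clo_F6 hom (hE _ (mem_subs_F6 φ E)) h1⟩
  induction φ with
  | prop p =>
    intro E hE
    obtain ⟨J, hJ⟩ := head (Fm.prop p) E hE
    refine ⟨J, fun j hj => ⟨fun hM ho F hF => ?_, fun hN hc F hF => ?_⟩⟩
    · rw [List.mem_singleton.1 hF]
      exact ((hJ j hj).1 hM ho).2
    · rw [List.mem_singleton.1 hF]
      exact ((hJ j hj).2 hN hc).2
  | nprop p =>
    intro E hE
    obtain ⟨J, hJ⟩ := head (Fm.nprop p) E hE
    refine ⟨J, fun j hj => ⟨fun hM ho F hF => ?_, fun hN hc F hF => ?_⟩⟩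
    · rw [List.mem_singleton.1 hF]
      exact ((hJ j hj).1 hM ho).2
    · rw [List.mem_singleton.1 hF]
      exact ((hJ j hj).2 hN hc).2
  | top =>
    intro E hE
    obtain ⟨J, hJ⟩ := head Fm.top E hE
    refine ⟨J, fun j hj => ⟨fun hM ho F hF => ?_, fun hN hc F hF => ?_⟩⟩
    · rw [List.mem_singleton.1 hF]
      exact ((hJ j hj).1 hM ho).2
    · rw [List.mem_singleton.1 hF]
      exact ((hJ j hj).2 hN hc).2
  | bot =>
    intro E hE
    obtain ⟨J, hJ⟩ := head Fm.bot E hE
    refine ⟨J, fun j hj => ⟨fun hM ho F hF => ?_, fun hN hc F hF => ?_⟩⟩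
    · rw [List.mem_singleton.1 hF]
      exact ((hJ j hj).1 hM ho).2
    · rw [List.mem_singleton.1 hF]
      exact ((hJ j hj).2 hN hc).2
  | var n =>
    intro E hE
    obtain ⟨J, hJ⟩ := head (Fm.var n) E hE
    refine ⟨J, fun j hj => ⟨fun hM ho F hF => ?_, fun hN hc F hF => ?_⟩⟩
    · rw [List.mem_singleton.1 hF]
      exact ((hJ j hj).1 hM ho).2
    · rw [List.mem_singleton.1 hF]
      exact ((hJ j hj).2 hN hc).2
  | and φ ψ ihφ ihψ =>
    intro E hE
    obtain ⟨J, hJ⟩ := head (Fm.and φ ψ) E hE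
    obtain ⟨J1, hJ1⟩ := ihφ E (fun F hF => hE F (List.mem_cons_of_mem _ (List.mem_append_left _ hF)))
    obtain ⟨J2, hJ2⟩ := ihψ E (fun F hF => hE F (List.mem_cons_of_mem _ (List.mem_append_right _ hF)))
    refine ⟨max J (max J1 J2), fun j hj => ?_⟩
    have hj0 : J ≤ j := le_trans (le_max_left _ _) hj
    have hj1 : J1 ≤ j := le_trans (le_trans (le_max_left _ _) (le_max_right _ _)) hj
    have hj2 : J2 ≤ j := le_trans (le_trans (le_max_right _ _) (le_max_right _ _)) hj
    refine ⟨fun hM ho F hF => ?_, fun hN hc F hF => ?_⟩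
    · rcases List.mem_cons.1 hF with h | h
      · rw [h]
        exact ((hJ j hj0).1 hM ho).2
      · rcases List.mem_append.1 h with h | h
        · exact (hJ1 j hj1).1 (by simpa [Fm.okM] using hM.1) (fun i hi => ho i (Or.inl hi)) F h
        · exact (hJ2 j hj2).1 (by simpa [Fm.okM] using hM.2) (fun i hi => ho i (Or.inr hi)) F h
    · rcases List.mem_cons.1 hF with h | h
      · rw [h]
        exact ((hJ j hj0).2 hN hc).2
      · rcases List.mem_append.1 h with h | h
        · exact (hJ1 j hj1).2 (by simpa [Fm.okN] using hN.1) (fun i hi => hc i (Or.inl hi)) F h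
        · exact (hJ2 j hj2).2 (by simpa [Fm.okN] using hN.2) (fun i hi => hc i (Or.inr hi)) F h
  | or φ ψ ihφ ihψ =>
    intro E hE
    obtain ⟨J, hJ⟩ := head (Fm.or φ ψ) E hE
    obtain ⟨J1, hJ1⟩ := ihφ E (fun F hF => hE F (List.mem_cons_of_mem _ (List.mem_append_left _ hF)))
    obtain ⟨J2, hJ2⟩ := ihψ E (fun F hF => hE F (List.mem_cons_of_mem _ (List.mem_append_right _ hF)))
    refine ⟨max J (max J1 J2), fun j hj => ?_⟩
    have hj0 : J ≤ j := le_trans (le_max_left _ _) hj
    have hj1 : J1 ≤ j := le_trans (le_trans (le_max_left _ _) (le_max_right _ _)) hj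
    have hj2 : J2 ≤ j := le_trans (le_trans (le_max_right _ _) (le_max_right _ _)) hj
    refine ⟨fun hM ho F hF => ?_, fun hN hc F hF => ?_⟩
    · rcases List.mem_cons.1 hF with h | h
      · rw [h]
        exact ((hJ j hj0).1 hM ho).2
      · rcases List.mem_append.1 h with h | h
        · exact (hJ1 j hj1).1 hM.1 (fun i hi => ho i (Or.inl hi)) F h
        · exact (hJ2 j hj2).1 hM.2 (fun i hi => ho i (Or.inr hi)) F h
    · rcases List.mem_cons.1 hF with h | h
      · rw [h]
        exact ((hJ j hj0).2 hN hc).2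
      · rcases List.mem_append.1 h with h | h
        · exact (hJ1 j hj1).2 hN.1 (fun i hi => hc i (Or.inl hi)) F h
        · exact (hJ2 j hj2).2 hN.2 (fun i hi => hc i (Or.inr hi)) F h
  | dia φ ih =>
    intro E hE
    obtain ⟨J, hJ⟩ := head (Fm.dia φ) E hE
    obtain ⟨J1, hJ1⟩ := ih E (fun F hF => hE F (List.mem_cons_of_mem _ hF))
    refine ⟨max J J1, fun j hj => ?_⟩
    have hj0 : J ≤ j := le_trans (le_max_left _ _) hj
    have hj1 : J1 ≤ j := le_trans (le_max_right _ _) hj
    refine ⟨fun hM ho F hF => ?_, fun hN hc F hF => ?_⟩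
    · rcases List.mem_cons.1 hF with h | h
      · rw [h]
        exact ((hJ j hj0).1 hM ho).2
      · exact (hJ1 j hj1).1 hM ho F h
    · rcases List.mem_cons.1 hF with h | h
      · rw [h]
        exact ((hJ j hj0).2 hN hc).2
      · exact (hJ1 j hj1).2 hN hc F h
  | box φ ih =>
    intro E hE
    obtain ⟨J, hJ⟩ := head (Fm.box φ) E hE
    obtain ⟨J1, hJ1⟩ := ih E (fun F hF => hE F (List.mem_cons_of_mem _ hF))
    refine ⟨max J J1, fun j hj => ?_⟩
    have hj0 : J ≤ j := le_trans (le_max_left _ _) hj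
    have hj1 : J1 ≤ j := le_trans (le_max_right _ _) hj
    refine ⟨fun hM ho F hF => ?_, fun hN hc F hF => ?_⟩
    · rcases List.mem_cons.1 hF with h | h
      · rw [h]
        exact ((hJ j hj0).1 hM ho).2
      · exact (hJ1 j hj1).1 hM ho F h
    · rcases List.mem_cons.1 hF with h | h
      · rw [h]
        exact ((hJ j hj0).2 hN hc).2
      · exact (hJ1 j hj1).2 hN hc F h
  | mu φ ih =>
    intro E hE
    obtain ⟨J, hJ⟩ := head (Fm.mu φ) E hE
    obtain ⟨J1, hJ1⟩ := ih (ec ((Fm.mu φ).SEM E) E) (fun F hF => hE F (List.mem_cons_of_mem _ hF))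
    refine ⟨max J J1, fun j hj => ?_⟩
    have hj0 : J ≤ j := le_trans (le_max_left _ _) hj
    have hj1 : J1 ≤ j := le_trans (le_max_right _ _) hj
    refine ⟨fun hM ho F hF => ?_, fun hN hc F hF => ?_⟩
    · rcases List.mem_cons.1 hF with h | h
      · rw [h]
        exact ((hJ j hj0).1 hM ho).2
      · have hM' : φ.okM := by simpa [Fm.okM] using hM
        refine (hJ1 j hj1).1 hM' (fun i hi => ?_) F h
        cases i with
        | zero => exact ((hJ j hj0).1 hM ho).1
        | succ i => exact ho i hi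
    · rcases List.mem_cons.1 hF with h | h
      · rw [h]
        exact ((hJ j hj0).2 hN hc).2
      · have hN' : (∀ n, ¬ φ.free (n + 1)) ∧ φ.okM := by simpa [Fm.okN] using hN
        have hM : (Fm.mu φ).okM := by simpa [Fm.okM] using hN'.2
        refine (hJ1 j hj1).1 hN'.2 (fun i hi => ?_) F h
        cases i with
        | zero => exact ((hJ j hj0).1 hM (fun i hi => absurd hi (hN'.1 i))).1
        | succ i => exact absurd hi (hN'.1 i)
  | nu φ ih =>
    intro E hE
    obtain ⟨J, hJ⟩ := head (Fm.nu φ) E hE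
    obtain ⟨J1, hJ1⟩ := ih (ec ((Fm.nu φ).SEM E) E) (fun F hF => hE F (List.mem_cons_of_mem _ hF))
    refine ⟨max J J1, fun j hj => ?_⟩
    have hj0 : J ≤ j := le_trans (le_max_left _ _) hj
    have hj1 : J1 ≤ j := le_trans (le_max_right _ _) hj
    refine ⟨fun hM ho F hF => ?_, fun hN hc F hF => ?_⟩
    · rcases List.mem_cons.1 hF with h | h
      · rw [h]
        exact ((hJ j hj0).1 hM ho).2
      · have hM' : (∀ n, ¬ φ.free (n + 1)) ∧ φ.okN := by simpa [Fm.okM] using hM
        have hN : (Fm.nu φ).okN := by simpa [Fm.okN] using hM'.2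
        refine (hJ1 j hj1).2 hM'.2 (fun i hi => ?_) F h
        cases i with
        | zero => exact ((hJ j hj0).2 hN (fun i hi => absurd hi (hM'.1 i))).1
        | succ i => exact absurd hi (hM'.1 i)
    · rcases List.mem_cons.1 hF with h | h
      · rw [h]
        exact ((hJ j hj0).2 hN hc).2
      · have hN' : φ.okN := by simpa [Fm.okN] using hN
        refine (hJ1 j hj1).2 hN' (fun i hi => ?_) F h
        cases i with
        | zero => exact ((hJ j hj0).2 hN hc).1
        | succ i => exact hc i hi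

end Pool.Agent.Helper24.WH

end

section

set_option autoImplicit false

namespace Pool.Agent.Helper24.WH

open Set

universe u v

namespace GWaux

variable {L : Type u} {A : Type v}

/-- labels satisfy `p`, leaves satisfy `q` -/
def Ok (p : L → Prop) (q : A → Prop) : Fo L A → Prop
  | .nil => True
  | .leaf a rest => q a ∧ Ok p q rest
  | .cons l kids rest => p l ∧ Ok p q kids ∧ Ok p q rest

/-- number of nodes -/
def size : Fo L A → ℕ
  | .nil => 0
  | .leaf _ rest => size rest + 1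
  | .cons _ kids rest => size kids + size rest + 1

/-- a tree occurs in a forest -/
def Occ (x : L × Fo L A) : Fo L A → Prop
  | .nil => False
  | .leaf _ rest => Occ x rest
  | .cons l kids rest => x = (l, kids) ∨ Occ x kids ∨ Occ x rest

/-- a tree as a forest -/
def tr (x : L × Fo L A) : Fo L A := .cons x.1 x.2 .nil

/-- cut at the highest nodes of height `m` -/
def cut (ht : L → ℕ) (m : ℕ) : Fo L A → Fo L (A ⊕ (L × Fo L A))
  | .nil => .nil
  | .leaf a rest => .leaf (Sum.inl a) (cut ht m rest)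
  | .cons l kids rest =>
    if ht l = m then .leaf (Sum.inr (l, kids)) (cut ht m rest)
    else .cons l (cut ht m kids) (cut ht m rest)

/-- sum order -/
def sr {T : Type*} (ra : A → A → Prop) (rt : T → T → Prop) : A ⊕ T → A ⊕ T → Prop
  | .inl a, .inl b => ra a b
  | .inr x, .inr y => rt x y
  | _, _ => False

/-- order of trees -/
def tord (rl : L → L → Prop) (ra : A → A → Prop) (ht : L → ℕ) (x y : L × Fo L A) : Prop :=
  Fo.Emb rl ra ht (tr x) (tr y)

theorem tord_iff (rl : L → L → Prop) (ra : A → A → Prop) (ht : L → ℕ) (x y : L × Fo L A) :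
    tord rl ra ht x y ↔ (rl x.1 y.1 ∧ Fo.Emb rl ra ht x.2 y.2) ∨
      (ht y.1 ≤ ht x.1 ∧ Fo.FindT rl ht x.1 (Fo.Emb rl ra ht x.2) y.2) := by
  simp [tord, tr, Fo.Emb, Fo.FindT]

theorem findA_cut {T : Type*} (ra : A → A → Prop) (ht : L → ℕ) (m : ℕ)
    (rt : (L × Fo L A) → (L × Fo L A) → Prop) (a : A) (N : Fo L A) :
    Fo.FindA (sr ra rt) (Sum.inl a) (cut ht m N) → Fo.FindA ra a N := by
  induction N with
  | nil => intro h; simpa [cut, Fo.FindA] using h
  | leaf a' rest ih =>
    intro h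
    simp only [cut, Fo.FindA, sr] at h ⊢
    rcases h with h | h
    · exact Or.inl h
    · exact Or.inr (ih h)
  | cons l kids rest ih1 ih2 =>
    intro h
    by_cases hl : ht l = m
    · simp only [cut, if_pos hl, Fo.FindA, sr, false_or] at h ⊢
      exact Or.inr (ih2 h)
    · simp only [cut, if_neg hl, Fo.FindA] at h ⊢
      rcases h with h | h
      · exact Or.inl (ih1 h)
      · exact Or.inr (ih2 h)

theorem findB (rl : L → L → Prop) (ra : A → A → Prop) (ht : L → ℕ) (m : ℕ) (q : A → Prop)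
    (l : L) (k : Fo L A) (hl : ht l = m) (N : Fo L A) (hN : Ok (fun l => ht l < m + 1) q N) :
    Fo.FindA (sr ra (tord rl ra ht)) (Sum.inr (l, k)) (cut ht m N) →
      Fo.FindT rl ht l (Fo.Emb rl ra ht k) N := by
  induction N with
  | nil => intro h; simp [cut, Fo.FindA] at h
  | leaf a' rest ih =>
    intro h
    simp only [cut, Fo.FindA, sr, false_or] at h
    simp only [Fo.FindT]
    exact ih hN.2 h
  | cons l' kids rest ih1 ih2 =>
    intro h
    by_cases hl' : ht l' = m
    · simp only [cut, if_pos hl', Fo.FindA, sr, tord_iff] at h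
      simp only [Fo.FindT]
      rcases h with (h | h) | h
      · exact Or.inl h
      · exact Or.inr (Or.inl h)
      · exact Or.inr (Or.inr (ih2 hN.2.2 h))
    · simp only [cut, if_neg hl', Fo.FindA] at h
      simp only [Fo.FindT]
      rcases h with h | h
      · refine Or.inr (Or.inl ⟨?_, ih1 hN.2.1 h⟩)
        have := hN.1
        omega
      · exact Or.inr (Or.inr (ih2 hN.2.2 h))

theorem findC (rl : L → L → Prop) (ht : L → ℕ) (m : ℕ) (q : A → Prop)
    (l : L) (P' : Fo L (A ⊕ (L × Fo L A)) → Prop) (P : Fo L A → Prop)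
    (hP : ∀ N, Ok (fun l => ht l < m + 1) q N → P' (cut ht m N) → P N)
    (N : Fo L A) (hN : Ok (fun l => ht l < m + 1) q N) :
    Fo.FindT rl ht l P' (cut ht m N) → Fo.FindT rl ht l P N := by
  induction N with
  | nil => intro h; simp [cut, Fo.FindT] at h
  | leaf a' rest ih =>
    intro h
    simp only [cut, Fo.FindT] at h ⊢
    exact ih hN.2 h
  | cons l' kids rest ih1 ih2 =>
    intro h
    by_cases hl' : ht l' = m
    · simp only [cut, if_pos hl', Fo.FindT] at h ⊢
      exact Or.inr (Or.inr (ih2 hN.2.2 h))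
    · simp only [cut, if_neg hl', Fo.FindT] at h ⊢
      rcases h with h | h | h
      · exact Or.inl ⟨h.1, hP _ hN.2.1 h.2⟩
      · exact Or.inr (Or.inl ⟨h.1, ih1 hN.2.1 h.2⟩)
      · exact Or.inr (Or.inr (ih2 hN.2.2 h))

theorem emb_of_cut (rl : L → L → Prop) (ra : A → A → Prop) (ht : L → ℕ) (m : ℕ) (q : A → Prop)
    (N₁ : Fo L A) : ∀ N₂ : Fo L A, Ok (fun l => ht l < m + 1) q N₁ →
    Ok (fun l => ht l < m + 1) q N₂ →
    Fo.Emb rl (sr ra (tord rl ra ht)) ht (cut ht m N₁) (cut ht m N₂) → Fo.Emb rl ra ht N₁ N₂ := by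
  induction N₁ with
  | nil => intro N₂ _ _ _; simp [Fo.Emb]
  | leaf a rest ih =>
    intro N₂ h1 h2 h
    simp only [cut, Fo.Emb] at h ⊢
    exact ⟨findA_cut (T := ℕ) ra ht m _ a N₂ h.1, ih N₂ h1.2 h2 h.2⟩
  | cons l kids rest ih1 ih2 =>
    intro N₂ h1 h2 h
    by_cases hl : ht l = m
    · simp only [cut, if_pos hl, Fo.Emb] at h ⊢
      exact ⟨findB rl ra ht m q l kids hl N₂ h2 h.1, ih2 N₂ h1.2.2 h2 h.2⟩
    · simp only [cut, if_neg hl, Fo.Emb] at h ⊢
      exact ⟨findC rl ht m q l _ _ (fun N hN h' => ih1 N h1.2.1 hN h') N₂ h2 h.1, ih2 N₂ h1.2.2 h2 h.2⟩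

theorem ok_cut (ht : L → ℕ) (m : ℕ) (q : A → Prop) (q' : L × Fo L A → Prop) (N : Fo L A)
    (hN : Ok (fun l => ht l < m + 1) q N) (h : ∀ x, Occ x N → ht x.1 = m →
      Ok (fun l => ht l < m + 1) q x.2 → q' x) :
    Ok (fun l => ht l < m) (Sum.elim q q') (cut ht m N) := by
  induction N with
  | nil => simp [cut, Ok]
  | leaf a rest ih =>
    simp only [cut, Ok, Sum.elim_inl]
    exact ⟨hN.1, ih hN.2 (fun x hx => h x hx)⟩
  | cons l kids rest ih1 ih2 =>
    by_cases hl : ht l = m
    · simp only [cut, if_pos hl, Ok, Sum.elim_inr]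
      exact ⟨h (l, kids) (Or.inl rfl) hl hN.2.1, ih2 hN.2.2 (fun x hx => h x (Or.inr (Or.inr hx)))⟩
    · simp only [cut, if_neg hl, Ok]
      refine ⟨?_, ih1 hN.2.1 (fun x hx => h x (Or.inr (Or.inl hx))),
        ih2 hN.2.2 (fun x hx => h x (Or.inr (Or.inr hx)))⟩
      have := hN.1
      omega

theorem occ_size (y : L × Fo L A) (N : Fo L A) (h : Occ y N) : size y.2 < size N := by
  induction N with
  | nil => exact h.elim
  | leaf a rest ih =>
    have := ih h
    simp only [size]
    omega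
  | cons l kids rest ih1 ih2 =>
    simp only [size]
    rcases h with h | h | h
    · subst h
      simp only
      omega
    · have := ih1 h
      omega
    · have := ih2 h
      omega

theorem occ_find (rl : L → L → Prop) (ra : A → A → Prop) (ht : L → ℕ) (m : ℕ) (q : A → Prop)
    (x y : L × Fo L A) (hx : ht x.1 = m) (N : Fo L A) (hN : Ok (fun l => ht l < m + 1) q N)
    (h : Occ y N) (hxy : tord rl ra ht x y) : Fo.FindT rl ht x.1 (Fo.Emb rl ra ht x.2) N := by
  induction N with
  | nil => exact h.elim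
  | leaf a rest ih =>
    simp only [Fo.FindT]
    exact ih hN.2 h
  | cons l kids rest ih1 ih2 =>
    simp only [Fo.FindT]
    rcases h with h | h | h
    · subst h
      rw [tord_iff] at hxy
      rcases hxy with hxy | hxy
      · exact Or.inl hxy
      · exact Or.inr (Or.inl hxy)
    · refine Or.inr (Or.inl ⟨?_, ih1 hN.2.1 h⟩)
      have := hN.1
      omega
    · exact Or.inr (Or.inr (ih2 hN.2.2 h))

theorem sum_pwo {T : Type*} (ra : A → A → Prop) (rt : T → T → Prop) (q : A → Prop) (B : T → Prop)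
    (hq : {a | q a}.PartiallyWellOrderedOn ra) (hB : {a | B a}.PartiallyWellOrderedOn rt) :
    {a | Sum.elim q B a}.PartiallyWellOrderedOn (sr ra rt) := by
  have h1 : (Sum.inl '' {a | q a} : Set (A ⊕ T)).PartiallyWellOrderedOn (sr ra rt) :=
    hq.image_of_monotone_on (fun a _ b _ h => h)
  have h2 : (Sum.inr '' {a | B a} : Set (A ⊕ T)).PartiallyWellOrderedOn (sr ra rt) :=
    hB.image_of_monotone_on (fun a _ b _ h => h)
  refine (h1.union h2).mono ?_
  rintro (a | a) ha
  · exact Or.inl ⟨a, ha, rfl⟩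
  · exact Or.inr ⟨a, ha, rfl⟩

theorem step (rl : L → L → Prop) (ht : L → ℕ) (m : ℕ) (hr : ∀ a, rl a a)
    (htr : ∀ a b c, rl a b → rl b c → rl a c)
    (hL : {l | ht l = m}.PartiallyWellOrderedOn rl) (ra : A → A → Prop) (q : A → Prop)
    (hq : {a | q a}.PartiallyWellOrderedOn ra)
    (IH : ∀ q' : A ⊕ (L × Fo L A) → Prop,
      {a | q' a}.PartiallyWellOrderedOn (sr ra (tord rl ra ht)) →
      {N : Fo L (A ⊕ (L × Fo L A)) | Ok (fun l => ht l < m) q' N}.PartiallyWellOrderedOn
        (Fo.Emb rl (sr ra (tord rl ra ht)) ht)) :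
    {N : Fo L A | Ok (fun l => ht l < m + 1) q N}.PartiallyWellOrderedOn (Fo.Emb rl ra ht) := by
  set Qm : Set (L × Fo L A) := {x | ht x.1 = m ∧ Ok (fun l => ht l < m + 1) q x.2} with hQm
  haveI : IsPreorder L rl := { refl := hr, trans := htr }
  have key : Qm.PartiallyWellOrderedOn (tord rl ra ht) := by
    rw [Set.PartiallyWellOrderedOn.iff_not_exists_isMinBadSeq (fun x : L × Fo L A => size x.2)]
    rintro ⟨t, ht1, ht2⟩
    set B : Set (L × Fo L A) := {x | x ∈ Qm ∧ ∃ i, Occ x (t i).2} with hBd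
    have hB : B.PartiallyWellOrderedOn (tord rl ra ht) := by
      rw [partiallyWellOrderedOn_iff_exists_lt]
      intro b hb
      by_contra hcon
      push Not at hcon
      have hbQ : ∀ n, b n ∈ Qm := fun n => (hb n).1
      choose i hi using fun n => (hb n).2
      obtain ⟨k0, hk0⟩ : ∃ k0, ∀ k, i k0 ≤ i k := by
        classical
        have hex : ∃ n, ∃ k, i k = n := ⟨i 0, 0, rfl⟩
        obtain ⟨k, hk⟩ := Nat.find_spec hex
        exact ⟨k, fun k' => hk ▸ Nat.find_min' hex ⟨k', rfl⟩⟩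
      refine ht2 (i k0) (fun n => if n < i k0 then t n else b (k0 + (n - i k0)))
        (fun m' hm' => by simp [hm']) ?_ ⟨?_, ?_⟩
      · simp only [lt_irrefl, if_false, Nat.sub_self, Nat.add_zero]
        exact occ_size _ _ (hi k0)
      · intro n
        dsimp only
        split_ifs with hn
        · exact ht1.1 n
        · exact hbQ _
      · intro m' n' hmn
        dsimp only
        split_ifs with h1 h2 h2
        · exact ht1.2 _ _ hmn
        · intro h
          set k := k0 + (n' - i k0) with hk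
          refine ht1.2 m' (i k) (lt_of_lt_of_le h1 (hk0 k)) ?_
          rw [tord_iff]
          refine Or.inr ⟨?_, ?_⟩
          · rw [(ht1.1 (i k)).1, (ht1.1 m').1]
          · exact occ_find rl ra ht m q (t m') (b k) (ht1.1 m').1 (t (i k)).2 (ht1.1 (i k)).2
              (hi k) h
        · exact absurd (lt_trans hmn h2) h1
        · exact hcon _ _ (by omega)
    obtain ⟨g, hg⟩ := hL.exists_monotone_subseq (f := fun i => (t i).1) (fun n => (ht1.1 n).1)
    obtain ⟨i, j, hij, he⟩ := (IH _ (sum_pwo ra (tord rl ra ht) q (fun x => x ∈ B) hq hB)).exists_lt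
      (f := fun n => cut ht m (t (g n)).2)
      (fun n => ok_cut ht m q _ _ (ht1.1 (g n)).2 (fun x hx h1 h2 => ⟨⟨h1, h2⟩, g n, hx⟩))
    refine ht1.2 (g i) (g j) (g.strictMono hij) ?_
    rw [tord_iff]
    exact Or.inl ⟨hg i j hij.le, emb_of_cut rl ra ht m q _ _ (ht1.1 (g i)).2 (ht1.1 (g j)).2 he⟩
  rw [partiallyWellOrderedOn_iff_exists_lt]
  intro f hf
  obtain ⟨i, j, hij, he⟩ := (IH _ (sum_pwo ra (tord rl ra ht) q (fun x => x ∈ Qm) hq key)).exists_lt
      (f := fun n => cut ht m (f n))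
      (fun n => ok_cut ht m q _ _ (hf n) (fun x _ h1 h2 => ⟨h1, h2⟩))
  exact ⟨i, j, hij, emb_of_cut rl ra ht m q _ _ (hf i) (hf j) he⟩

/-- the leaves of a forest without inner nodes -/
def toL : Fo L A → List A
  | .nil => []
  | .leaf a rest => a :: toL rest
  | .cons _ _ rest => toL rest

theorem mem_toL (ra : A → A → Prop) (a b : A) (N : Fo L A) (hb : b ∈ toL N) (h : ra a b) :
    Fo.FindA ra a N := by
  induction N with
  | nil => simp [toL] at hb
  | leaf a' rest ih =>
    simp only [toL, List.mem_cons] at hb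
    rcases hb with rfl | hb
    · exact Or.inl h
    · exact Or.inr (ih hb)
  | cons l kids rest ih1 ih2 => exact Or.inr (ih2 hb)

theorem emb_toL (rl : L → L → Prop) (ra : A → A → Prop) (ht : L → ℕ) (q : A → Prop) (N N₂ : Fo L A)
    (hN : Ok (fun l => ht l < 0) q N) (h : ∀ a ∈ toL N, ∃ b ∈ toL N₂, ra a b) :
    Fo.Emb rl ra ht N N₂ := by
  induction N with
  | nil => simp [Fo.Emb]
  | leaf a' rest ih =>
    obtain ⟨b, hb, hab⟩ := h a' (by simp [toL])
    exact ⟨mem_toL ra a' b N₂ hb hab, ih hN.2 (fun a ha => h a (by simp [toL, ha]))⟩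
  | cons l kids rest ih1 ih2 => exact absurd hN.1 (Nat.not_lt_zero _)

theorem q_toL (ht : L → ℕ) (q : A → Prop) (N : Fo L A)
    (hN : Ok (fun l => ht l < 0) q N) : ∀ a ∈ toL N, q a := by
  induction N with
  | nil => simp [toL]
  | leaf a' rest ih =>
    intro a ha
    simp only [toL, List.mem_cons] at ha
    rcases ha with rfl | ha
    · exact hN.1
    · exact ih hN.2 a ha
  | cons l kids rest ih1 ih2 => exact absurd hN.1 (Nat.not_lt_zero _)

theorem sub_mem {r : A → A → Prop} {l l' : List A} (h : List.SublistForall₂ r l l') :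
    ∀ a ∈ l, ∃ b ∈ l', r a b := by
  induction h with
  | nil => simp
  | cons h1 h2 ih =>
    intro a ha
    simp only [List.mem_cons] at ha
    rcases ha with rfl | ha
    · exact ⟨_, List.mem_cons_self, h1⟩
    · obtain ⟨b, hb, hab⟩ := ih a ha
      exact ⟨b, List.mem_cons_of_mem _ hb, hab⟩
  | cons_right h2 ih =>
    intro a ha
    obtain ⟨b, hb, hab⟩ := ih a ha
    exact ⟨b, List.mem_cons_of_mem _ hb, hab⟩

theorem base (rl : L → L → Prop) (ht : L → ℕ) (ra : A → A → Prop) (hra : ∀ a, ra a a)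
    (hrt : ∀ a b c, ra a b → ra b c → ra a c) (q : A → Prop)
    (hq : {a | q a}.PartiallyWellOrderedOn ra) :
    {N : Fo L A | Ok (fun l => ht l < 0) q N}.PartiallyWellOrderedOn (Fo.Emb rl ra ht) := by
  haveI : IsPreorder A ra := { refl := hra, trans := hrt }
  have h := Set.PartiallyWellOrderedOn.partiallyWellOrderedOn_sublistForall₂ ra hq
  rw [partiallyWellOrderedOn_iff_exists_lt]
  intro f hf
  obtain ⟨i, j, hij, he⟩ := h.exists_lt (f := fun n => toL (f n)) (fun n => q_toL ht q _ (hf n))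
  exact ⟨i, j, hij, emb_toL rl ra ht q _ _ (hf i) (sub_mem he)⟩

theorem sr_refl {T : Type*} (ra : A → A → Prop) (rt : T → T → Prop) (h1 : ∀ a, ra a a)
    (h2 : ∀ a, rt a a) : ∀ a, sr ra rt a a := by
  rintro (a | a)
  · exact h1 a
  · exact h2 a

theorem sr_trans {T : Type*} (ra : A → A → Prop) (rt : T → T → Prop)
    (h1 : ∀ a b c, ra a b → ra b c → ra a c)
    (h2 : ∀ a b c, rt a b → rt b c → rt a c) : ∀ a b c, sr ra rt a b → sr ra rt b c → sr ra rt a c := by
  rintro (a | a) (b | b) (c | c) h h'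
  · exact h1 a b c h h'
  · exact h'.elim
  · exact h.elim
  · exact h.elim
  · exact h.elim
  · exact h.elim
  · exact h'.elim
  · exact h2 a b c h h'

theorem G {L : Type u} (rl : L → L → Prop) (ht : L → ℕ) (n : ℕ) (hr : ∀ a, rl a a)
    (htr : ∀ a b c, rl a b → rl b c → rl a c) (hh : ∀ a b, rl a b → ht a = ht b)
    (hL : ∀ m, m ≤ n → {l | ht l = m}.PartiallyWellOrderedOn rl) :
    ∀ m, m ≤ n + 1 → ∀ (A : Type (max u v)) (ra : A → A → Prop), (∀ a, ra a a) →
      (∀ a b c, ra a b → ra b c → ra a c) → ∀ q : A → Prop,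
      {a | q a}.PartiallyWellOrderedOn ra →
      {N : Fo L A | Ok (fun l => ht l < m) q N}.PartiallyWellOrderedOn (Fo.Emb rl ra ht) := by
  intro m
  induction m with
  | zero => intro _ A ra hra hrt q hq; exact base rl ht ra hra hrt q hq
  | succ m ih =>
    intro hm A ra hra hrt q hq
    have hge := hGE.{u, max u v} L A rl ra ht hr htr hra hrt hh
    refine step rl ht m hr htr (hL m (by omega)) ra q hq (fun q' hq' => ?_)
    refine ih (by omega) (A ⊕ (L × Fo L A)) (sr ra (tord rl ra ht)) ?_ ?_ q' hq'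
    · exact sr_refl _ _ hra (fun x => hge.1 _)
    · exact sr_trans _ _ hrt (fun x y z => hge.2 _ _ _)

theorem hb_ok (ht : L → ℕ) (n : ℕ) (N : Fo L A) (h : N.HB ht n) :
    Ok (fun l => ht l < n + 1) (fun _ => True) N := by
  induction N with
  | nil => simp [Ok]
  | leaf a rest ih => exact ⟨trivial, ih h⟩
  | cons l kids rest ih1 ih2 => exact ⟨Nat.lt_succ_of_le h.1, ih1 h.2.1, ih2 h.2.2⟩

end GWaux

open GWaux in
theorem hGW : StGW.{u, v} := by
  intro L A rl ra ht n hr htr hra hrt hh hLw hAw f hf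
  have hL : ∀ m, m ≤ n → {l | ht l = m}.PartiallyWellOrderedOn rl := by
    intro m hm
    rw [partiallyWellOrderedOn_iff_exists_lt]
    intro g hg
    exact hLw g (fun i => by rw [show ht (g i) = m from hg i]; exact hm)
  have hge := hGE.{u, v} L A rl ra ht hr htr hra hrt hh
  have hq : {a : A | True}.PartiallyWellOrderedOn ra :=
    partiallyWellOrderedOn_of_wellQuasiOrdered hAw _
  have h := step rl ht n hr htr (hL n le_rfl) ra (fun _ => True) hq (fun q' hq' =>
    G.{u, v} rl ht n hr htr hh hL n (Nat.le_succ n) (A ⊕ (L × Fo L A)) (sr ra (tord rl ra ht))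
      (sr_refl _ _ hra (fun x => hge.1 _)) (sr_trans _ _ hrt (fun x y z => hge.2 _ _ _)) q' hq')
  exact h.exists_lt (f := f) (fun i => hb_ok ht n _ (hf i))

end Pool.Agent.Helper24.WH

end

section

/-!
# PROJECT WH, module PR: adding countably many closed sets to a Polish topology
-/

set_option autoImplicit false

namespace Pool.Agent.Helper24.WH

open Set TopologicalSpace Ordinal Topology

/-- the refinement of a Polish topology by one closed set is the topology of a disjoint sum -/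
private theorem one_PR {X : Type} (τ : TopologicalSpace X) (hτ : @PolishSpace X τ) (F : Set X)
    (hF : IsClosed[τ] F) : @PolishSpace X (τ ⊓ generateFrom {F}) := by
  classical
  have hs : IsClosed F := hF
  have : PolishSpace F := hs.polishSpace
  let t : Set X := Fᶜ
  have : PolishSpace t := hs.isOpen_compl.polishSpace
  let f : F ⊕ t ≃ X := Equiv.Set.sumCompl F
  have hle : TopologicalSpace.coinduced f instTopologicalSpaceSum ≤ τ := by
    simp only [instTopologicalSpaceSum, coinduced_sup, coinduced_compose, sup_le_iff,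
      ← continuous_iff_coinduced_le]
    exact ⟨continuous_subtype_val, continuous_subtype_val⟩
  have hpol : @PolishSpace X (TopologicalSpace.coinduced f instTopologicalSpaceSum) := by
    rw [← f.induced_symm]
    exact f.symm.polishSpace_induced
  have hopen : IsOpen[TopologicalSpace.coinduced f instTopologicalSpaceSum] F := by
    rw [isOpen_coinduced, isOpen_sum_iff]
    simp [preimage_preimage, f, t]
  have heq : TopologicalSpace.coinduced f instTopologicalSpaceSum = τ ⊓ generateFrom {F} := by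
    apply le_antisymm
    · refine le_inf hle ?_
      rw [le_generateFrom_iff_subset_isOpen]
      intro U hU
      rw [mem_singleton_iff] at hU
      rw [hU]
      exact hopen
    · intro U hU
      have hU' : IsOpen[TopologicalSpace.coinduced f instTopologicalSpaceSum] U := hU
      rw [isOpen_coinduced, isOpen_sum_iff] at hU'
      obtain ⟨h1, h2⟩ := hU'
      obtain ⟨V, hV, hV'⟩ := isOpen_induced_iff.1 h1
      obtain ⟨W, hW, hW'⟩ := isOpen_induced_iff.1 h2
      have hUeq : U = (V ∩ F) ∪ (W ∩ Fᶜ) := by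
        ext x
        by_cases hx : x ∈ F
        · have h3 : x ∈ V ↔ x ∈ U := Set.ext_iff.1 hV' ⟨x, hx⟩
          simp [hx, h3]
        · have h3 : x ∈ W ↔ x ∈ U := Set.ext_iff.1 hW' ⟨x, hx⟩
          simp [hx, h3]
      have hFo : IsOpen[τ ⊓ generateFrom {F}] F :=
        (inf_le_right : τ ⊓ generateFrom {F} ≤ generateFrom {F}) _
          (isOpen_generateFrom_of_mem (mem_singleton F))
      have hin : ∀ V : Set X, IsOpen[τ] V → IsOpen[τ ⊓ generateFrom {F}] V := fun V hV =>
        (inf_le_left : τ ⊓ generateFrom {F} ≤ τ) _ hV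
      rw [hUeq]
      exact @IsOpen.union X _ _ (τ ⊓ generateFrom {F})
        (@IsOpen.inter X (τ ⊓ generateFrom {F}) _ _ (hin V hV) hFo)
        (@IsOpen.inter X (τ ⊓ generateFrom {F}) _ _ (hin W hW) (hin _ hs.isOpen_compl))
  rw [← heq]
  exact hpol

/-- **PR** adding countably many closed sets as open sets to a Polish topology gives a Polish
topology. -/
theorem hPR : StPR := by
  intro X τ hτ 𝓕 hc hcl
  have : Countable 𝓕 := hc.to_subtype
  have heq : τ ⊓ generateFrom 𝓕 = ⨅ i : Option 𝓕, i.elim τ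
      (fun F : 𝓕 => τ ⊓ generateFrom {(F : Set X)}) := by
    apply le_antisymm
    · refine le_iInf ?_
      rw [Option.forall]
      refine ⟨inf_le_left, fun F => le_inf inf_le_left (le_trans inf_le_right ?_)⟩
      exact generateFrom_anti (singleton_subset_iff.2 F.2)
    · refine le_inf (iInf_le _ none) ?_
      rw [le_generateFrom_iff_subset_isOpen]
      intro F hF
      have h1 : (⨅ i : Option 𝓕, i.elim τ (fun F : 𝓕 => τ ⊓ generateFrom {(F : Set X)})) ≤
          τ ⊓ generateFrom {F} := iInf_le (fun i : Option 𝓕 => i.elim τ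
            (fun F : 𝓕 => τ ⊓ generateFrom {(F : Set X)})) (some ⟨F, hF⟩)
      exact (h1.trans inf_le_right) _ (isOpen_generateFrom_of_mem (mem_singleton F))
  rw [heq]
  refine PolishSpace.iInf ⟨none, Option.forall.2 ⟨le_rfl, fun _ => inf_le_left⟩⟩ ?_
  exact Option.forall.2 ⟨hτ, fun F => one_PR τ hτ F (hcl F F.2)⟩

end Pool.Agent.Helper24.WH

end

section

set_option autoImplicit false

namespace Pool.Agent.Helper24.WH

open Set TopologicalSpace Ordinal Topology

private theorem clp_prod_PT {X Y : Type} (τ : TopologicalSpace X) (τ' : TopologicalSpace Y)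
    (A : Set X) (B : Set Y) (hA : Clp τ A) (hB : Clp τ' B) :
    Clp (@instTopologicalSpaceProd X Y τ τ') (A ×ˢ B) := by
  letI := τ
  letI := τ'
  exact IsClopen.prod hA hB

private theorem zd_prod_PT {X Y : Type} (τ : TopologicalSpace X) (τ' : TopologicalSpace Y)
    (h : ZD τ) (h' : ZD τ') : ZD (@instTopologicalSpaceProd X Y τ τ') := by
  rintro ⟨x, y⟩ U hU hxU
  letI := τ
  letI := τ'
  obtain ⟨u, v, hu, hv, hxu, hyv, huv⟩ := isOpen_prod_iff.mp hU x y hxU
  obtain ⟨O, hO, hxO, hOu⟩ := h x u hu hxu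
  obtain ⟨O', hO', hyO, hOv⟩ := h' y v hv hyv
  exact ⟨O ×ˢ O', clp_prod_PT τ τ' O O' hO hO', ⟨hxO, hyO⟩, (Set.prod_mono hOu hOv).trans huv⟩

theorem hPT : StPT := by
  intro X Y S S' τ τ' g g' hτ hτ' hg hg'
  refine ⟨⟨?_, ?_⟩, ?_⟩
  · intro m
    exact inf_le_inf (induced_mono (hτ.mono m)) (induced_mono (hτ'.mono m))
  · intro m
    exact zd_prod_PT _ _ (hτ.zd m) (hτ'.zd m)
  · rintro ⟨s, s'⟩
    have h : Prod.map g g' ⁻¹' {(s, s')} = (g ⁻¹' {s}) ×ˢ (g' ⁻¹' {s'}) := by
      ext ⟨x, y⟩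
      simp [Prod.map]
    rw [h]
    exact clp_prod_PT _ _ _ _ (hg s) (hg' s')

end Pool.Agent.Helper24.WH

end

section

/-!
# PROJECT WH (MP_76577a_lc), module RD: relabelling of `d_L` and of its iterates
-/

set_option autoImplicit false

namespace Pool.Agent.Helper24.WH

open Set TopologicalSpace Ordinal Topology

/-- a clopen set stays clopen in a finer topology -/
private theorem clp_mono_RD {X : Type} {τ τ' : TopologicalSpace X} (h : τ ≤ τ') {O : Set X}
    (hO : Clp τ' O) : Clp τ O :=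
  ⟨IsClosed.mono hO.1 h, IsOpen.mono hO.2 h⟩

/-- the composed labelling has clopen fibres -/
private theorem fib_comp_RD {X S' S : Type} [Finite S'] (G : S' → S) {τ : ℕ → TopologicalSpace X}
    {g' : X → S'} (h : Fib τ g') : Fib τ (G ∘ g') := by
  intro s
  have h1 : (G ∘ g') ⁻¹' {s} = ⋃ s' : {s' : S' // G s' = s}, g' ⁻¹' {s'.1} := by
    ext x
    simp only [mem_preimage, Function.comp_apply, mem_singleton_iff, mem_iUnion, Subtype.exists,
      exists_prop]
    constructor
    · intro hx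
      exact ⟨g' x, hx, rfl⟩
    · rintro ⟨s', hs', hx⟩
      rw [hx]
      exact hs'
  rw [h1]
  let _ : TopologicalSpace X := τ 0
  exact isClopen_iUnion_of_finite (fun s' => h s'.1)

/-- the operators of height `m` are monotone, contractive and local for the next topology -/
private theorem mcl_RD (hZM : StZM) {X S : Type} {τ : ℕ → TopologicalSpace X} {g : X → S}
    (hT : Tow τ) (hF : Fib τ g) (m : ℕ) (t : TT S m) : MCL (τ (m + 1)) (Z τ g m t) := by
  have h := (hZM X S τ g hT hF m).1 t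
  exact ⟨h.mono, h.le, fun O B hO => h.loc O B (clp_mono_RD (hT.mono m) hO)⟩

/-- operators which agree on closed sets have the same iterates -/
private theorem iter_congr_RD {X : Type} (τ : TopologicalSpace X) (d d' : Set X → Set X)
    (h : ∀ B, IsClosed[τ] B → d B = d' B) (hd : ∀ B, IsClosed[τ] B → IsClosed[τ] (d B))
    (B : Set X) (hB : IsClosed[τ] B) (α : Ordinal.{0}) :
    iter d B α = iter d' B α ∧ IsClosed[τ] (iter d B α) := by
  induction α using WellFoundedLT.induction with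
  | ind α ih =>
    have hc : IsClosed[τ] (iter d B α) := by
      rw [iter]
      exact @IsClosed.inter X _ _ τ hB
        (@isClosed_iInter X _ τ _ (fun β => hd _ (ih β.1 β.2).2))
    refine ⟨?_, hc⟩
    rw [iter, iter]
    congr 1
    refine iInter_congr fun β => ?_
    rw [← (ih β.1 β.2).1]
    exact h _ (ih β.1 β.2).2

/-- **RD** relabelling of `d_L` and of its iterates -/
theorem hRD (hRL : StRL) (hHU : StHU) (hUF : StUF) (hFN : StFN) (hTB : StTB) (hTP : StTP)
    (hZM : StZM) (hZA : StZA) : StRD := by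
  intro S' S _ G m L
  choose M hMf _ hM using fun i => hRL S' S G m (L i)
  have hhom : ∀ (X : Type) (τ : ℕ → TopologicalSpace X) (g' : X → S'), Tow τ → Fib τ g' →
      ∀ B : Set X, IsClosed[τ (m + 1)] B → ∀ i,
        hom τ (G ∘ g') m (L i) B = ⋃ t' ∈ M i, hom τ g' m t' B := by
    intro X τ g' hT hF B hB i
    have hfin : Finite (M i) := (hMf i).to_subtype
    have h1 := hHU X (τ (m + 1)) (Z τ (G ∘ g') m (L i)) (hT.zd (m + 1))
      (mcl_RD hZM hT (fib_comp_RD G hF) m (L i)) (M i) (fun t' => Z τ g' m t'.1)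
      (fun t' => mcl_RD hZM hT hF m t'.1)
      (fun W hW => by
        rw [hM i X τ g' hT hF W (IsClosed.mono hW (hT.mono m)), biUnion_eq_iUnion])
      B hB
    rw [biUnion_eq_iUnion]
    exact h1
  refine ⟨⟨M, hMf, hhom⟩, ?_⟩
  obtain ⟨C, hCf, -, hC⟩ := hFN (TT S' m) (TT.Le m) (hTP.2.1 S' m).1 (hTP.2.1 S' m).2
    (hTB S' m 0).2.1 M hMf
  refine ⟨C, hCf, ?_⟩
  intro X τ g' hT hF B hB
  have hdL : ∀ B : Set X, IsClosed[τ (m + 1)] B →
      dL τ (G ∘ g') m L B = ⋃ L' ∈ C, dL τ g' m L' B := by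
    intro B hB
    have h1 : dL τ (G ∘ g') m L B = ⋂ i, ⋃ t' ∈ M i, hom τ g' m t' B :=
      iInter_congr fun i => hhom X τ g' hT hF B hB i
    rw [h1]
    exact hC X (fun t' => hom τ g' m t' B) (fun a b hab => (hZA X S' τ g' m).2.1 a b hab B)
  refine ⟨hdL B hB, ?_⟩
  intro x
  have hfin : Finite C := hCf.to_subtype
  have hder := (hZM X S' τ g' hT hF m).2.2
  have h2 := (hUF X (τ (m + 1)) (hT.zd (m + 1)) C).1 (fun L' => dL τ g' m L'.1)
    (fun L' => hder L'.1)
  rw [biUnion_eq_iUnion, ← h2.2 B x hB]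
  refine (iter_congr_RD (τ (m + 1)) _ _ ?_ ?_ B hB (ω ^ x)).1
  · intro B hB
    rw [hdL B hB, biUnion_eq_iUnion]
  · exact ((hZM X S τ (G ∘ g') hT (fib_comp_RD G hF) m).2.2 L).closed

end Pool.Agent.Helper24.WH

end

section

/-!
# PROJECT WH (MP_76577a_lc), module SH : the shrinking lemma
-/

set_option autoImplicit false

namespace Pool.Agent.Helper24.WH

open Set TopologicalSpace Topology

private lemma anti_SH {X : Type} {P : ℕ → Set (Set X)} (h : ∀ M, P (M + 1) ⊆ P M) :
    ∀ M, P M ⊆ P 0 := by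
  intro M
  induction M with
  | zero => exact le_rfl
  | succ M ih => exact (h M).trans ih

theorem hSH : StSH := by
  intro A₂ n τ' P' f' hT j hj E hE z hz U hU hzU k
  have hR := hT.rich
  obtain ⟨O, hO, hzO, hOU⟩ := hR.basis j hj z U hU hzU
  have hzC : z ∈ Cyl k z := fun u _ => rfl
  set R : Set (Tre A₂) := O ∩ Cyl k z with hRdef
  have hRP : R ∈ P' (j + 1) := hR.inter (j + 1) O hO _ (hT.cyl (j + 1) k z)
  have hzR : z ∈ R := ⟨hzO, hzC⟩
  have hRE : R ∩ E ∈ P' 0 := hR.inter 0 R (anti_SH hR.anti _ hRP) E hE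
  have hcl : closure[τ' (j + 1)] (R ∩ E) ∈ P' (j + 1) := hR.clo (j + 1) (by omega) _ hRE
  have hsub : R ∩ E ⊆ closure[τ' (j + 1)] (R ∩ E) := @subset_closure _ (τ' (j + 1)) _
  refine ⟨R ∩ closure[τ' (j + 1)] (R ∩ E), hR.inter (j + 1) R hRP _ hcl, ⟨hzR, hsub ⟨hzR, hz⟩⟩,
    fun x hx => hOU hx.1.1, fun x hx => hx.1.2, fun x hx => ?_⟩
  have hm : R ∩ E ⊆ R ∩ closure[τ' (j + 1)] (R ∩ E) ∩ E := fun y hy => ⟨⟨hy.1, hsub hy⟩, hy.2⟩
  exact (@closure_mono _ (τ' (j + 1)) _ _ hm) hx.2

end Pool.Agent.Helper24.WH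

end

section

/-!
# PROJECT WH (MP_76577a_lc), module US: uniform stabilisation
-/

set_option autoImplicit false

namespace Pool.Agent.Helper24.WH

open Set TopologicalSpace Topology
open Ordinal hiding univ

private theorem homOp_mono_US {X : Type} (τ : TopologicalSpace X) (z : Set X → Set X) {A B : Set X} (h : A ⊆ B) :
    HomOp τ z A ⊆ HomOp τ z B := by
  apply sUnion_subset_sUnion
  rintro W ⟨h1, h2⟩
  exact ⟨h1.trans h, h2⟩

private theorem le_homOp_US {X : Type} (τ : TopologicalSpace X) (z : Set X → Set X) {W B : Set X} (h1 : W ⊆ B)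
    (h2 : W ⊆ closure[τ] (z W)) : W ⊆ HomOp τ z B :=
  subset_sUnion_of_mem (show W ∈ {W | W ⊆ B ∧ W ⊆ closure[τ] (z W)} from ⟨h1, h2⟩)

private theorem fib_US {X S : Type} [Finite S] (τ : TopologicalSpace X) (g : X → S) (h : S → Bool)
    (hf : ∀ s, Clp τ (g ⁻¹' {s})) (s : Bool) : Clp τ ((h ∘ g) ⁻¹' {s}) := by
  have h1 : (h ∘ g) ⁻¹' {s} = ⋃ t ∈ h ⁻¹' {s}, g ⁻¹' {t} := by
    ext x
    simp only [mem_preimage, Function.comp_apply, mem_singleton_iff, mem_iUnion, exists_prop]
    constructor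
    · exact fun hx => ⟨g x, hx, rfl⟩
    · rintro ⟨t, ht, hx⟩
      rw [hx]
      exact ht
  rw [h1]
  exact @Set.Finite.isClopen_biUnion X τ _ _ _ (Set.toFinite _) fun t _ => hf t

/-- the last step: two operators of height `m` whose union is dense -/
private theorem last_US {X : Type} (hHU : StHU) (τ : TopologicalSpace X) (z : Bool → Set X → Set X)
    (hzd : ZD τ) (hz : ∀ s, MCL τ (z s)) (W : Set X) (hW : IsClosed[τ] W)
    (h : W ⊆ closure[τ] (z false W ∪ z true W)) :
    W ⊆ HomOp τ (z false) W ∪ HomOp τ (z true) W := by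
  have hu : ∀ B, (z false B ∪ z true B) = ⋃ s, z s B := by
    intro B
    ext x
    simp only [mem_union, mem_iUnion, Bool.exists_bool]
  have hM : MCL τ (fun B => z false B ∪ z true B) := by
    refine ⟨fun A B hAB => union_subset_union ((hz false).mono A B hAB) ((hz true).mono A B hAB),
      fun B => union_subset ((hz false).le B) ((hz true).le B), fun O B hO => ?_⟩
    show z false (B ∩ O) ∪ z true (B ∩ O) = (z false B ∪ z true B) ∩ O
    rw [(hz false).loc O B hO, (hz true).loc O B hO, union_inter_distrib_right]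
  have h1 := hHU X τ (fun B => z false B ∪ z true B) hzd hM Bool z hz (fun B _ => hu B) W hW
  have h2 : W ⊆ HomOp τ (fun B => z false B ∪ z true B) W := le_homOp_US τ _ Subset.rfl h
  rw [h1] at h2
  intro x hx
  have h3 := h2 hx
  simp only [mem_iUnion, Bool.exists_bool] at h3
  exact h3

/-- **US (6.4)** uniform stabilisation -/
theorem hUS (hVP : StVP) (hBA : StBA) (hHU : StHU) (hUZ : StUZ) (hRB : StRB) (hCA : StCA) : StUS := by
  intro X S _ n N τ g h P hsys hft hN m
  obtain ⟨u1, u2, u3, u4, u5, u6, u7, u8, u9⟩ := hUZ X τ (h ∘ g)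
  obtain ⟨v1, v2, v3, v4⟩ := hVP S h X n N τ g P hsys hft hN
  have hfib := fib_US (τ 0) g h hsys.fib
  induction m with
  | zero =>
    intro _ r _ hvd
    obtain ⟨-, hb, hwb, hnb, -⟩ := hCA 0
    refine ⟨Cd.bot 0, hwb, lt_of_le_of_ne (hb r) ?_, fun B _ => ?_⟩
    · intro he
      rw [he] at hnb
      exact hnb hvd
    · rw [u1, u3, u3]
      intro x hx
      cases hfx : (h ∘ g) x with
      | false => exact Or.inl ⟨hx, hfx⟩
      | true => exact Or.inr ⟨hx, hfx⟩
  | succ m ih =>
    intro hm r hwf hvd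
    obtain ⟨l, r', hr, hvd'⟩ := hvd
    have hr' : r = Cd.ext (Cd.of l) r' 0 := hr
    subst hr'
    clear hr
    obtain ⟨-, hb, hwb, hnb, -, hext, hext2, hextlt, -, -⟩ := hCA m
    obtain ⟨hwl, hwr, hrb, hllt⟩ := hext _ _ _ hwf
    obtain ⟨c, hwc, hclt, hc⟩ := ih (by omega) r' hwr hvd'
    obtain ⟨-, hdz, -, -⟩ := hRB X τ (h ∘ g) hsys.tow hfib m
    have hmcl : ∀ s, MCL (τ (m + 1)) (Zo τ (h ∘ g) m r' s) := by
      intro s
      refine ⟨(hdz r' s).mono, (hdz r' s).le, fun O B hO => (hdz r' s).loc O B ?_⟩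
      exact ⟨hO.1.mono (hsys.tow.mono m), hsys.tow.mono m _ hO.2⟩
    by_cases hcb : c = Cd.bot m
    · refine ⟨Cd.of l, hwl, hllt, fun B hB => ?_⟩
      rw [u9, u9]
      have hW := v1 (m + 1) hm (Cd.of l) hwl B hB
      refine last_US hHU (τ (m + 1)) (Zo τ (h ∘ g) m r') (hsys.tow.zd _) hmcl _
        (hsys.cl (m + 1) hm _ hW) ?_
      have h1 := hc _ (hsys.anti m hW)
      rw [hcb, u5] at h1
      exact h1.trans (@subset_closure X (τ (m + 1)) _)
    · have hlex : (toLex (c, N) : Cd m ×ₗ ℕ) < toLex (r', 0) := Prod.Lex.left _ _ hclt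
      refine ⟨Cd.ext (Cd.of l) c N, hext2 _ _ _ _ _ hwf hwc hcb hlex.le, hextlt _ _ _ _ _ hlex, fun B hB => ?_⟩
      rw [u9, u9]
      have hB' := v1 (m + 1) hm (Cd.of l) hwl B hB
      have hW := v1 (m + 1) hm (Cd.ext (Cd.of l) c N) (hext2 _ _ _ _ _ hwf hwc hcb hlex.le) B hB
      have hfix := v4 m hm c hwc _ hB'
      rw [← u6] at hfix
      have hcl := hsys.cl (m + 1) hm _ hW
      have h1 := hBA X S n τ g h P hsys m hm c hwc _ hcl hfix
      have h2 := hc _ (hsys.anti m hW)
      have h3 := last_US hHU (τ (m + 1)) (Zo τ (h ∘ g) m r') (hsys.tow.zd _) hmcl _ hcl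
        (h1.trans (@closure_mono X (τ (m + 1)) _ _ h2))
      have h4 : Vo τ (h ∘ g) (m + 1) (Cd.ext (Cd.of l) c N) B ⊆ Vo τ (h ∘ g) (m + 1) (Cd.of l) B := by
        rw [u6]
        rw [iter]
        exact inter_subset_left
      exact h3.trans (union_subset_union (homOp_mono_US _ _ h4) (homOp_mono_US _ _ h4))

end Pool.Agent.Helper24.WH

end
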