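import Pool.Agent.Helper24.WH.St1
import Pool.Agent.Helper24.WH.St3
import Pool.Agent.Helper24.WH.St4
import Pool.Agent.Helper24.WH.St5
import Pool.Agent.Helper24.WH.St6
import Pool.Agent.Helper76.WHC.B0

set_option autoImplicit false

section

/-!
# WH module CTA: simulation of a game of height `M` inside a game of height `M+1`
-/

set_option autoImplicit false

namespace Pool.Agent.Helper24.WH

open Set TopologicalSpace Topology
open Ordinal hiding univ

section CTA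

variable {X A₂ : Type}

/-! ### Bit strings -/

/-- intersection of the sets selected by a bit string (newest bit first) -/
def Gs_CTA (F : ℕ → Set X) : List Bool → Set X
  | [] => univ
  | b :: w => if b = true then Gs_CTA F w ∩ F w.length else Gs_CTA F w

open Classical in
/-- the string of length `k` of the set `O` (newest bit first) -/
noncomputable def tw_CTA (F : ℕ → Set X) (B O : Set X) : ℕ → List Bool
  | 0 => []
  | (k + 1) => decide ((O ∩ B ∩ Gs_CTA F (tw_CTA F B O k) ∩ F k).Nonempty) :: tw_CTA F B O k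

open Classical in
/-- the true string of the point `x` -/
noncomputable def tt_CTA (F : ℕ → Set X) (x : X) : ℕ → List Bool
  | 0 => []
  | (k + 1) => decide (x ∈ F k) :: tt_CTA F x k

theorem tw_len_CTA (F : ℕ → Set X) (B O : Set X) (k : ℕ) : (tw_CTA F B O k).length = k := by
  induction k with
  | zero => rfl
  | succ k ih => simp [tw_CTA, ih]

theorem tt_len_CTA (F : ℕ → Set X) (x : X) (k : ℕ) : (tt_CTA F x k).length = k := by
  induction k with
  | zero => rfl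
  | succ k ih => simp [tt_CTA, ih]

theorem Gs_cons_sub_CTA (F : ℕ → Set X) (b : Bool) (w : List Bool) :
    Gs_CTA F (b :: w) ⊆ Gs_CTA F w := by
  cases b with
  | false => intro x hx; simpa [Gs_CTA] using hx
  | true =>
    intro x hx
    have hx' : x ∈ Gs_CTA F w ∩ F w.length := by simpa [Gs_CTA] using hx
    exact hx'.1

theorem Gs_mem_CTA (F : ℕ → Set X) (P1 : Set (Set X)) (hu : univ ∈ P1)
    (hi : ∀ B ∈ P1, ∀ B' ∈ P1, B ∩ B' ∈ P1) (hF : ∀ i, F i ∈ P1) (w : List Bool) :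
    Gs_CTA F w ∈ P1 := by
  induction w with
  | nil => exact hu
  | cons b w ih =>
    unfold Gs_CTA
    split_ifs
    · exact hi _ ih _ (hF _)
    · exact ih

theorem tw_down_CTA (F : ℕ → Set X) (B O O' : Set X) (j : ℕ) (h : tw_CTA F B O j = tw_CTA F B O' j) :
    ∀ i ≤ j, tw_CTA F B O i = tw_CTA F B O' i := by
  induction j with
  | zero => intro i hi; rw [Nat.le_zero.mp hi]; rfl
  | succ j ih =>
    intro i hi
    rcases Nat.lt_or_ge i (j + 1) with hlt | hge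
    · have h2 : tw_CTA F B O j = tw_CTA F B O' j := by
        simp only [tw_CTA] at h
        exact (List.cons.inj h).2
      exact ih h2 i (Nat.lt_succ_iff.mp hlt)
    · have : i = j + 1 := le_antisymm hi hge
      rw [this]; exact h

theorem tw_ne_CTA (F : ℕ → Set X) (B O : Set X) (h : (O ∩ B).Nonempty) (k : ℕ) :
    (O ∩ B ∩ Gs_CTA F (tw_CTA F B O k)).Nonempty := by
  induction k with
  | zero => simpa [tw_CTA, Gs_CTA] using h
  | succ k ih =>
    by_cases hb : (O ∩ B ∩ Gs_CTA F (tw_CTA F B O k) ∩ F k).Nonempty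
    · have : Gs_CTA F (tw_CTA F B O (k + 1)) = Gs_CTA F (tw_CTA F B O k) ∩ F k := by
        simp [tw_CTA, Gs_CTA, hb, tw_len_CTA]
      rw [this, ← inter_assoc]
      exact hb
    · have : Gs_CTA F (tw_CTA F B O (k + 1)) = Gs_CTA F (tw_CTA F B O k) := by
        simp [tw_CTA, Gs_CTA, hb]
      rw [this]
      exact ih

theorem tt_mem_CTA (F : ℕ → Set X) (x : X) (k : ℕ) : x ∈ Gs_CTA F (tt_CTA F x k) := by
  induction k with
  | zero => exact mem_univ x
  | succ k ih =>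
    by_cases hb : x ∈ F k
    · have : Gs_CTA F (tt_CTA F x (k + 1)) = Gs_CTA F (tt_CTA F x k) ∩ F k := by
        simp [tt_CTA, Gs_CTA, hb, tt_len_CTA]
      rw [this]
      exact ⟨ih, hb⟩
    · have : Gs_CTA F (tt_CTA F x (k + 1)) = Gs_CTA F (tt_CTA F x k) := by
        simp [tt_CTA, Gs_CTA, hb]
      rw [this]
      exact ih

theorem tt_sub_CTA (F : ℕ → Set X) (x : X) (k : ℕ) (hx : x ∈ F k) :
    Gs_CTA F (tt_CTA F x (k + 1)) ⊆ F k := by
  have : Gs_CTA F (tt_CTA F x (k + 1)) = Gs_CTA F (tt_CTA F x k) ∩ F k := by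
    simp [tt_CTA, Gs_CTA, hx, tt_len_CTA]
  rw [this]
  exact inter_subset_right

open Classical in
/-- the strings converge to the true string -/
theorem tw_conv_CTA (F : ℕ → Set X) (B : Set X) (x : X) (hxB : x ∈ B) (O : ℕ → Set X)
    (hanti : ∀ l l', l ≤ l' → O l' ⊆ O l) (hx : ∀ l, x ∈ O l)
    (hF : ∀ i, x ∉ F i → ∃ l, O l ∩ B ⊆ (F i)ᶜ) (i : ℕ) :
    ∃ l₀, ∀ l, l₀ ≤ l → tw_CTA F B (O l) i = tt_CTA F x i := by
  induction i with
  | zero => exact ⟨0, fun _ _ => rfl⟩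
  | succ i ih =>
    obtain ⟨l₀, hl₀⟩ := ih
    by_cases hb : x ∈ F i
    · refine ⟨l₀, fun l hl => ?_⟩
      have : (O l ∩ B ∩ Gs_CTA F (tw_CTA F B (O l) i) ∩ F i).Nonempty :=
        ⟨x, ⟨⟨hx l, hxB⟩, by rw [hl₀ l hl]; exact tt_mem_CTA F x i⟩, hb⟩
      have h1 := decide_eq_true this
      have h2 := decide_eq_true hb
      simp only [tw_CTA, tt_CTA]
      rw [h1, h2, hl₀ l hl]
    · obtain ⟨l₁, hl₁⟩ := hF i hb
      refine ⟨max l₀ l₁, fun l hl => ?_⟩
      have : ¬ (O l ∩ B ∩ Gs_CTA F (tw_CTA F B (O l) i) ∩ F i).Nonempty := by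
        rintro ⟨y, ⟨⟨hy1, hy2⟩, _⟩, hy3⟩
        exact hl₁ ⟨hanti l₁ l (le_trans (le_max_right _ _) hl) hy1, hy2⟩ hy3
      have h1 := decide_eq_false this
      have h2 := decide_eq_false hb
      simp only [tw_CTA, tt_CTA]
      rw [h1, h2, hl₀ l (le_trans (le_max_left _ _) hl)]

/-! ### Histories -/

theorem hist_congr_CTA {Y : Type} (s s' : ℕ → Set X × Set Y) (k : ℕ) (h : ∀ i, i < k → s i = s' i) :
    hist s k = hist s' k := by
  induction k with
  | zero => rfl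
  | succ k ih =>
    simp only [hist]
    rw [h k (Nat.lt_succ_self k), ih (fun i hi => h i (Nat.lt_succ_of_lt hi))]

theorem hist_len_CTA {Y : Type} (s : ℕ → Set X × Set Y) (k : ℕ) : (hist s k).length = k := by
  induction k with
  | zero => rfl
  | succ k ih => simp [hist, ih]

theorem legal_down_CTA {Y : Type} (P : Set (Set X)) (A : Set X) (τ' : TopologicalSpace Y) (A' : Set Y)
    (σ : Hist X Y → Set Y) (s : ℕ → Set X × Set Y) (k : ℕ) (h : Legal P A τ' A' σ (hist s k)) :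
    ∀ i ≤ k, Legal P A τ' A' σ (hist s i) := by
  induction k with
  | zero => intro i hi; rw [Nat.le_zero.mp hi]; exact h
  | succ k ih =>
    intro i hi
    rcases Nat.lt_or_ge i (k + 1) with hlt | hge
    · exact ih h.1 i (Nat.lt_succ_iff.mp hlt)
    · have : i = k + 1 := le_antisymm hi hge
      rw [this]; exact h

theorem ans_down_CTA (P : Set (Set X)) (A : Set X) (τ' : TopologicalSpace (Tre A₂)) (A' : Set (Tre A₂))
    (σ : Hist X (Tre A₂) → Set (Tre A₂)) (s : ℕ → Set X × Set (Tre A₂))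
    (hm : ∀ mv h, Legal P A τ' A' σ (mv :: h) → σ (mv :: h) ⊆ mv.2 ∩ σ h)
    (k : ℕ) (h : Legal P A τ' A' σ (hist s k)) :
    ∀ i ≤ k, σ (hist s k) ⊆ σ (hist s i) := by
  induction k with
  | zero => intro i hi; rw [Nat.le_zero.mp hi]
  | succ k ih =>
    intro i hi
    rcases Nat.lt_or_ge i (k + 1) with hlt | hge
    · exact ((hm _ _ h).trans inter_subset_right).trans (ih h.1 i (Nat.lt_succ_iff.mp hlt))
    · have : i = k + 1 := le_antisymm hi hge
      rw [this]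

/-! ### The simulation -/

/-- state of the simulation: last real source set, length and entries of the simulated play, real answer -/
structure Sim_CTA (X Y : Type) where
  O : Set X
  k : ℕ
  s : ℕ → Set X × Set Y
  R : Set Y

/-- acceptable answers -/
def ok_CTA (P2 : Set (Set (Tre A₂))) (τ2 : TopologicalSpace (Tre A₂)) (E U : Set (Tre A₂)) (n : ℕ)
    (Q₁ : Set (Tre A₂)) : Prop :=
  Q₁ ∈ P2 ∧ Q₁ ⊆ U ∧ (∃ z ∈ E, z ∈ Q₁ ∧ Q₁ ⊆ Cyl n z) ∧ Q₁ ⊆ closure[τ2] (Q₁ ∩ E)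

open Classical in
/-- number of surviving entries -/
noncomputable def jj_CTA (F : ℕ → Set X) (B : Set X) (st : Sim_CTA X (Tre A₂)) (O : Set X) : ℕ :=
  Nat.findGreatest (fun j => tw_CTA F B st.O j = tw_CTA F B O j) st.k

/-- new entries -/
noncomputable def ss_CTA (F : ℕ → Set X) (B : Set X) (st : Sim_CTA X (Tre A₂)) (mv : Set X × Set (Tre A₂)) :
    ℕ → Set X × Set (Tre A₂) :=
  Function.update st.s (jj_CTA F B st mv.1)
    (mv.1 ∩ Gs_CTA F (tw_CTA F B mv.1 (jj_CTA F B st mv.1 + 1)), mv.2 ∩ st.R)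

open Classical in
/-- one step of the simulation -/
noncomputable def nxt_CTA (F : ℕ → Set X) (B : Set X) (P2 : Set (Set (Tre A₂))) (τ2 : TopologicalSpace (Tre A₂))
    (σp : Hist X (Tre A₂) → Set (Tre A₂)) (H' : Set (Tre A₂)) (st : Sim_CTA X (Tre A₂))
    (mv : Set X × Set (Tre A₂)) (n : ℕ) : Sim_CTA X (Tre A₂) where
  O := mv.1
  k := jj_CTA F B st mv.1 + 1
  s := ss_CTA F B st mv
  R := if h : ∃ Q₁, ok_CTA P2 τ2 (σp (hist (ss_CTA F B st mv) (jj_CTA F B st mv.1 + 1)) ∩ H') (mv.2 ∩ st.R) n Q₁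
    then h.choose else ∅

/-- the run of the simulation -/
noncomputable def run_CTA (F : ℕ → Set X) (B : Set X) (P2 : Set (Set (Tre A₂))) (τ2 : TopologicalSpace (Tre A₂))
    (σp : Hist X (Tre A₂) → Set (Tre A₂)) (H' Q : Set (Tre A₂)) : Hist X (Tre A₂) → Sim_CTA X (Tre A₂)
  | [] => ⟨univ, 0, fun _ => (univ, univ), Q⟩
  | mv :: h => nxt_CTA F B P2 τ2 σp H' (run_CTA F B P2 τ2 σp H' Q h) mv h.length

/-- invariant -/
structure Inv_CTA (F : ℕ → Set X) (B : Set X) (P1 : Set (Set X)) (P2 : Set (Set (Tre A₂)))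
    (τ1 τ2 : TopologicalSpace (Tre A₂)) (σp : Hist X (Tre A₂) → Set (Tre A₂)) (H' A' : Set (Tre A₂))
    (st : Sim_CTA X (Tre A₂)) : Prop where
  leg : Legal P1 B τ1 H' σp (hist st.s st.k)
  R : st.R ∈ P2
  den : A' ∩ st.R ⊆ closure[τ2] (st.R ∩ (σp (hist st.s st.k) ∩ H'))
  ent : ∀ i, i < st.k → ∃ O', st.O ⊆ O' ∧ (st.s i).1 = O' ∩ Gs_CTA F (tw_CTA F B O' (i + 1)) ∧
    tw_CTA F B O' (i + 1) = tw_CTA F B st.O (i + 1)

theorem jj_spec_CTA (F : ℕ → Set X) (B : Set X) (st : Sim_CTA X (Tre A₂)) (O : Set X) :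
    jj_CTA F B st O ≤ st.k ∧ tw_CTA F B st.O (jj_CTA F B st O) = tw_CTA F B O (jj_CTA F B st O) ∧
    ∀ i ≤ st.k, tw_CTA F B st.O i = tw_CTA F B O i → i ≤ jj_CTA F B st O := by
  classical
  refine ⟨Nat.findGreatest_le _, ?_, ?_⟩
  · unfold jj_CTA
    exact Nat.findGreatest_spec (P := fun j => tw_CTA F B st.O j = tw_CTA F B O j) (Nat.zero_le _) rfl
  · intro i hi h
    unfold jj_CTA
    exact Nat.le_findGreatest hi h

theorem ss_old_CTA (F : ℕ → Set X) (B : Set X) (st : Sim_CTA X (Tre A₂)) (mv : Set X × Set (Tre A₂)) (i : ℕ)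
    (hi : i < jj_CTA F B st mv.1) : ss_CTA F B st mv i = st.s i := by
  unfold ss_CTA
  rw [Function.update_of_ne (Nat.ne_of_lt hi)]

theorem ss_new_CTA (F : ℕ → Set X) (B : Set X) (st : Sim_CTA X (Tre A₂)) (mv : Set X × Set (Tre A₂)) :
    ss_CTA F B st mv (jj_CTA F B st mv.1) =
      (mv.1 ∩ Gs_CTA F (tw_CTA F B mv.1 (jj_CTA F B st mv.1 + 1)), mv.2 ∩ st.R) := by
  unfold ss_CTA
  rw [Function.update_self]

/-- hypotheses of the simulation -/
structure Hyp_CTA (F : ℕ → Set X) (B : Set X) (P1 P2s : Set (Set X)) (P1' P2 : Set (Set (Tre A₂)))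
    (τ1 τ2 : TopologicalSpace (Tre A₂)) (σp : Hist X (Tre A₂) → Set (Tre A₂)) (H' A' : Set (Tre A₂)) : Prop where
  u : univ ∈ P1
  i : ∀ C ∈ P1, ∀ C' ∈ P1, C ∩ C' ∈ P1
  F : ∀ i, F i ∈ P1
  P21 : P2s ⊆ P1
  o21 : ∀ U, IsOpen[τ2] U → IsOpen[τ1] U
  op : ∀ U ∈ P2, IsOpen[τ1] U
  mv : ∀ mv h, Legal P1 B τ1 H' σp (mv :: h) →
    σp (mv :: h) ∈ P1' ∧ σp (mv :: h) ⊆ mv.2 ∩ σp h ∧ (σp (mv :: h) ∩ H').Nonempty
  sh : ∀ E, E ∈ P1' → ∀ z ∈ E ∩ H', ∀ U, IsOpen[τ1] U → z ∈ U → ∀ k : ℕ,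
    ∃ Q₁ ∈ P2, z ∈ Q₁ ∧ Q₁ ⊆ U ∧ Q₁ ⊆ Cyl k z ∧ Q₁ ⊆ closure[τ2] (Q₁ ∩ (E ∩ H'))
  HA : H' ⊆ A'

theorem step_CTA (F : ℕ → Set X) (B : Set X) (P1 P2s : Set (Set X)) (P1' P2 : Set (Set (Tre A₂)))
    (τ1 τ2 : TopologicalSpace (Tre A₂)) (σp : Hist X (Tre A₂) → Set (Tre A₂)) (H' A' : Set (Tre A₂))
    (hy : Hyp_CTA F B P1 P2s P1' P2 τ1 τ2 σp H' A') (st : Sim_CTA X (Tre A₂))
    (hst : Inv_CTA F B P1 P2 τ1 τ2 σp H' A' st) (mv : Set X × Set (Tre A₂)) (n : ℕ)
    (h1 : mv.1 ∈ P2s) (h2 : mv.1 ⊆ st.O) (h3 : (mv.1 ∩ B).Nonempty) (h4 : IsOpen[τ2] mv.2)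
    (h5 : (mv.2 ∩ st.R ∩ A').Nonempty) :
    Inv_CTA F B P1 P2 τ1 τ2 σp H' A' (nxt_CTA F B P2 τ2 σp H' st mv n) ∧
    (nxt_CTA F B P2 τ2 σp H' st mv n).R ⊆ mv.2 ∩ st.R ∧
    ((nxt_CTA F B P2 τ2 σp H' st mv n).R ∩ A').Nonempty ∧
    (∃ z, (nxt_CTA F B P2 τ2 σp H' st mv n).R ⊆ Cyl n z) := by
  classical
  obtain ⟨hj1, hj2, -⟩ := jj_spec_CTA F B st mv.1
  set j := jj_CTA F B st mv.1 with hj
  set s' := ss_CTA F B st mv with hs'
  have hold : ∀ i, i < j → s' i = st.s i := fun i hi => ss_old_CTA F B st mv i hi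
  have hnew : s' j = (mv.1 ∩ Gs_CTA F (tw_CTA F B mv.1 (j + 1)), mv.2 ∩ st.R) := ss_new_CTA F B st mv
  have hhist : hist s' j = hist st.s j := hist_congr_CTA _ _ _ hold
  have hlj : Legal P1 B τ1 H' σp (hist s' j) := by
    rw [hhist]; exact legal_down_CTA _ _ _ _ _ _ _ hst.leg j hj1
  have hans : σp (hist st.s st.k) ⊆ σp (hist s' j) := by
    rw [hhist]
    exact ans_down_CTA P1 B τ1 H' σp st.s (fun mv h hl => (hy.mv mv h hl).2.1) _ hst.leg j hj1
  -- the new simulated move is legal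
  have hmeet : (mv.2 ∩ st.R ∩ σp (hist s' j) ∩ H').Nonempty := by
    obtain ⟨y, ⟨hy1, hy2⟩, hy3⟩ := h5
    have hcl := hst.den ⟨hy3, hy2⟩
    rw [@mem_closure_iff _ τ2] at hcl
    obtain ⟨w, hw1, hw2, hw3, hw4⟩ := hcl mv.2 h4 hy1
    exact ⟨w, ⟨⟨hw1, hw2⟩, hans hw3⟩, hw4⟩
  have hlast : mv.1 ∩ Gs_CTA F (tw_CTA F B mv.1 (j + 1)) ⊆ lastO (hist s' j) := by
    rcases Nat.eq_zero_or_pos j with h0 | hpos
    · rw [h0]; exact subset_univ _
    · obtain ⟨i, hi⟩ := Nat.exists_eq_succ_of_ne_zero (Nat.pos_iff_ne_zero.mp hpos)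
      have hij : i < j := by omega
      obtain ⟨O', hO1, hO2, hO3⟩ := hst.ent i (lt_of_lt_of_le hij hj1)
      have : lastO (hist s' j) = (s' i).1 := by rw [hi]; rfl
      rw [this, hold i hij, hO2, hO3]
      have e1 : tw_CTA F B st.O (i + 1) = tw_CTA F B mv.1 (i + 1) := by
        have := hj2
        rw [hi] at this
        exact this
      rw [e1]
      refine inter_subset_inter (h2.trans hO1) ?_
      rw [hi]
      exact Gs_cons_sub_CTA F _ _
  have hleg : Legal P1 B τ1 H' σp (hist s' (j + 1)) := by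
    refine ⟨hlj, ?_, ?_, ?_, ?_, ?_⟩
    · rw [hnew]; exact hy.i _ (hy.P21 h1) _ (Gs_mem_CTA F P1 hy.u hy.i hy.F _)
    · rw [hnew]; exact hlast
    · rw [hnew]
      have := tw_ne_CTA F B mv.1 h3 (j + 1)
      obtain ⟨x, ⟨hx1, hx2⟩, hx3⟩ := this
      exact ⟨x, ⟨hx1, hx3⟩, hx2⟩
    · rw [hnew]
      exact @IsOpen.inter _ τ1 _ _ (hy.o21 _ h4) (hy.op _ hst.R)
    · rw [hnew]; exact hmeet
  obtain ⟨hm1, hm2, hm3⟩ := hy.mv _ _ hleg
  have hex : ∃ Q₁, ok_CTA P2 τ2 (σp (hist s' (j + 1)) ∩ H') (mv.2 ∩ st.R) n Q₁ := by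
    obtain ⟨z, hz1, hz2⟩ := hm3
    have hzU : z ∈ mv.2 ∩ st.R := by
      have := (hm2 hz1).1
      rw [hnew] at this
      exact this
    obtain ⟨Q₁, hQ1, hQ2, hQ3, hQ4, hQ5⟩ := hy.sh _ hm1 z ⟨hz1, hz2⟩ (mv.2 ∩ st.R)
      (@IsOpen.inter _ τ1 _ _ (hy.o21 _ h4) (hy.op _ hst.R)) hzU n
    exact ⟨Q₁, hQ1, hQ3, ⟨z, ⟨hz1, hz2⟩, hQ2, hQ4⟩, hQ5⟩
  have hR : ok_CTA P2 τ2 (σp (hist s' (j + 1)) ∩ H') (mv.2 ∩ st.R) n (nxt_CTA F B P2 τ2 σp H' st mv n).R := by
    have : (nxt_CTA F B P2 τ2 σp H' st mv n).R = hex.choose := by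
      unfold nxt_CTA
      simp only
      rw [dif_pos hex]
    rw [this]
    exact hex.choose_spec
  obtain ⟨hR1, hR2, ⟨z, hz, hzR, hzC⟩, hR4⟩ := hR
  refine ⟨⟨hleg, hR1, ?_, ?_⟩, hR2, ⟨z, hzR, hy.HA hz.2⟩, ⟨z, hzC⟩⟩
  · exact inter_subset_right.trans hR4
  · intro i hi
    have hi' : i < j + 1 := hi
    rcases Nat.lt_or_ge i j with hlt | hge
    · obtain ⟨O', hO1, hO2, hO3⟩ := hst.ent i (lt_of_lt_of_le hlt hj1)
      refine ⟨O', h2.trans hO1, ?_, ?_⟩
      · have : (nxt_CTA F B P2 τ2 σp H' st mv n).s i = st.s i := hold i hlt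
        rw [this]; exact hO2
      · rw [hO3]
        exact tw_down_CTA F B _ _ j hj2 (i + 1) hlt
    · have hij : i = j := by omega
      subst hij
      refine ⟨mv.1, Subset.rfl, ?_, rfl⟩
      have : (nxt_CTA F B P2 τ2 σp H' st mv n).s j = _ := hnew
      rw [this]

theorem inv_CTA (F : ℕ → Set X) (B : Set X) (P1 P2s : Set (Set X)) (P1' P2 : Set (Set (Tre A₂)))
    (τ1 τ2 : TopologicalSpace (Tre A₂)) (σp : Hist X (Tre A₂) → Set (Tre A₂)) (H' A' Q : Set (Tre A₂))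
    (hy : Hyp_CTA F B P1 P2s P1' P2 τ1 τ2 σp H' A') (hσ : σp [] = Q) (hQ : Q ∈ P2)
    (hd : A' ∩ Q ⊆ closure[τ2] (Q ∩ H')) (h : Hist X (Tre A₂))
    (hl : Legal P2s B τ2 A' (fun h => (run_CTA F B P2 τ2 σp H' Q h).R) h) :
    (run_CTA F B P2 τ2 σp H' Q h).O = lastO h ∧
    Inv_CTA F B P1 P2 τ1 τ2 σp H' A' (run_CTA F B P2 τ2 σp H' Q h) := by
  induction h with
  | nil =>
    refine ⟨rfl, trivial, hQ, ?_, ?_⟩
    · change A' ∩ Q ⊆ closure[τ2] (Q ∩ (σp [] ∩ H'))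
      rw [hσ, ← inter_assoc, inter_self]
      exact hd
    · intro i hi
      exact absurd hi (Nat.not_lt_zero _)
  | cons mv h ih =>
    obtain ⟨hl0, hl1, hl2, hl3, hl4, hl5⟩ := hl
    obtain ⟨ih1, ih2⟩ := ih hl0
    refine ⟨rfl, ?_⟩
    exact (step_CTA F B P1 P2s P1' P2 τ1 τ2 σp H' A' hy _ ih2 mv h.length hl1 (by rw [ih1]; exact hl2) hl3 hl4 hl5).1

theorem lim_CTA (F : ℕ → Set X) (B : Set X) (P1 P2s : Set (Set X)) (P1' P2 : Set (Set (Tre A₂)))
    (τM : TopologicalSpace X) (f : X → Bool) (f' : Tre A₂ → Bool)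
    (τ1 τ2 : TopologicalSpace (Tre A₂)) (σp : Hist X (Tre A₂) → Set (Tre A₂)) (H' A' Q : Set (Tre A₂))
    (hy : Hyp_CTA F B P1 P2s P1' P2 τ1 τ2 σp H' A') (hσ : σp [] = Q) (hQ : Q ∈ P2)
    (hd : A' ∩ Q ⊆ closure[τ2] (Q ∩ H'))
    (p : ℕ → Set X × Set (Tre A₂))
    (hp : ∀ l, Legal P2s B τ2 A' (fun h => (run_CTA F B P2 τ2 σp H' Q h).R) (hist p l))
    (x : X) (hxB : x ∈ B) (hx : ∀ l, x ∈ (p l).1)
    (hFc : ∀ i, x ∉ F i → ∃ l, (p l).1 ∩ B ⊆ (F i)ᶜ)
    (hbas : ∀ U, IsOpen[τM] U → x ∈ U → ∃ i, x ∈ F i ∧ F i ⊆ U)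
    (hlim : ∀ q : ℕ → Set X × Set (Tre A₂), (∀ i, Legal P1 B τ1 H' σp (hist q i)) → ∀ x ∈ B, (∀ i, x ∈ (q i).1) →
      (∀ U, IsOpen[τM] U → x ∈ U → ∃ i, (q i).1 ∩ B ⊆ U) →
      ∃ x' ∈ H', (∀ i, x' ∈ σp (hist q i)) ∧ f' x' = f x ∧ ∀ k, ∃ l, σp (hist q l) ⊆ Cyl k x') :
    ∃ x' ∈ A', (∀ l, x' ∈ (run_CTA F B P2 τ2 σp H' Q (hist p l)).R) ∧ f' x' = f x ∧
      ∀ k, ∃ l, (run_CTA F B P2 τ2 σp H' Q (hist p l)).R ⊆ Cyl k x' := by
  classical
  set st : ℕ → Sim_CTA X (Tre A₂) := fun l => run_CTA F B P2 τ2 σp H' Q (hist p l) with hst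
  have hinv : ∀ l, (st l).O = lastO (hist p l) ∧ Inv_CTA F B P1 P2 τ1 τ2 σp H' A' (st l) :=
    fun l => inv_CTA F B P1 P2s P1' P2 τ1 τ2 σp H' A' Q hy hσ hQ hd (hist p l) (hp l)
  have ha : ∀ l, st (l + 1) = nxt_CTA F B P2 τ2 σp H' (st l) (p l) l := by
    intro l
    change nxt_CTA F B P2 τ2 σp H' (st l) (p l) (hist p l).length = _
    rw [hist_len_CTA]
  have hO : ∀ l, (st (l + 1)).O = (p l).1 := fun l => by rw [ha]; rfl
  have hk : ∀ l, (st (l + 1)).k = jj_CTA F B (st l) (p l).1 + 1 := fun l => by rw [ha]; rfl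
  have hs : ∀ l, (st (l + 1)).s = ss_CTA F B (st l) (p l) := fun l => by rw [ha]; rfl
  have hanti1 : ∀ l, (p (l + 1)).1 ⊆ (p l).1 := fun l => (hp (l + 2)).2.2.1
  have hanti : ∀ l l', l ≤ l' → (p l').1 ⊆ (p l).1 := by
    intro l l' h
    induction l', h using Nat.le_induction with
    | base => exact Subset.rfl
    | succ m _ ih => exact (hanti1 m).trans ih
  have hstep : ∀ l, (st (l + 1)).R ⊆ (p l).2 ∩ (st l).R ∧ ∃ z, (st (l + 1)).R ⊆ Cyl l z := by
    intro l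
    obtain ⟨-, h1, h2, h3, h4, h5⟩ := hp (l + 1)
    have := step_CTA F B P1 P2s P1' P2 τ1 τ2 σp H' A' hy (st l) (hinv l).2 (p l) l h1
      (by rw [(hinv l).1]; exact h2) h3 h4 h5
    rw [ha]
    exact ⟨this.2.1, this.2.2.2⟩
  have hRanti : ∀ l l', l ≤ l' → (st l').R ⊆ (st l).R := by
    intro l l' h
    induction l', h using Nat.le_induction with
    | base => exact Subset.rfl
    | succ m _ ih => exact ((hstep m).1.trans inter_subset_right).trans ih
  have hkl : ∀ l, (st l).k ≤ l := by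
    intro l
    induction l with
    | zero => exact le_refl 0
    | succ l ih =>
      rw [hk]
      have := (jj_spec_CTA F B (st l) (p l).1).1
      omega
  -- entries
  have hent : ∀ l i, i < (st l).k → ∃ l', i ≤ l' ∧
      (st l).s i = ((p l').1 ∩ Gs_CTA F (tw_CTA F B (p l').1 (i + 1)), (p l').2 ∩ (st l').R) ∧
      tw_CTA F B (p l').1 (i + 1) = tw_CTA F B (st l).O (i + 1) := by
    intro l
    induction l with
    | zero => intro i hi; exact absurd hi (Nat.not_lt_zero _)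
    | succ l ih =>
      intro i hi
      rw [hk] at hi
      obtain ⟨hj1, hj2, -⟩ := jj_spec_CTA F B (st l) (p l).1
      rcases Nat.lt_or_ge i (jj_CTA F B (st l) (p l).1) with hlt | hge
      · obtain ⟨l', h1, h2, h3⟩ := ih i (lt_of_lt_of_le hlt hj1)
        refine ⟨l', h1, ?_, ?_⟩
        · rw [hs, ss_old_CTA F B (st l) (p l) i hlt]; exact h2
        · rw [h3, hO]; exact tw_down_CTA F B _ _ _ hj2 (i + 1) hlt
      · have hij : i = jj_CTA F B (st l) (p l).1 := by omega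
        refine ⟨l, ?_, ?_, ?_⟩
        · rw [hij]; exact hj1.trans (hkl l)
        · rw [hs]
          conv_lhs => rw [hij]
          rw [ss_new_CTA, ← hij]
        · rw [hO]
  have hconv := fun i => tw_conv_CTA F B x hxB (fun l => (p l).1) hanti hx hFc i
  have hlarge : ∀ i, ∃ l₁, ∀ l, l₁ ≤ l → i ≤ (st l).k ∧ tw_CTA F B (st l).O i = tt_CTA F x i := by
    intro i
    obtain ⟨l₀, hl₀⟩ := hconv i
    have hOi : ∀ l, l₀ + 1 ≤ l → tw_CTA F B (st l).O i = tt_CTA F x i := by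
      intro l hl
      obtain ⟨m, rfl⟩ : ∃ m, l = m + 1 := ⟨l - 1, by omega⟩
      rw [hO]
      exact hl₀ m (by omega)
    have hgrow : ∀ t, min (i + 1) t ≤ (st (l₀ + 1 + t)).k := by
      intro t
      induction t with
      | zero => simp
      | succ t ih =>
        have e : l₀ + 1 + (t + 1) = (l₀ + 1 + t) + 1 := by omega
        rw [e, hk]
        obtain ⟨-, -, hj3⟩ := jj_spec_CTA F B (st (l₀ + 1 + t)) (p (l₀ + 1 + t)).1
        have h1 : tw_CTA F B (st (l₀ + 1 + t)).O i = tw_CTA F B (p (l₀ + 1 + t)).1 i := by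
          rw [hOi _ (by omega)]
          exact (hl₀ _ (by omega)).symm
        have h2 := tw_down_CTA F B _ _ _ h1 (min i (st (l₀ + 1 + t)).k) (min_le_left _ _)
        have h3 := hj3 _ (min_le_right _ _) h2
        omega
    refine ⟨l₀ + 1 + i, fun l hl => ⟨?_, hOi l (by omega)⟩⟩
    have := hgrow (l - (l₀ + 1))
    have e : l₀ + 1 + (l - (l₀ + 1)) = l := by omega
    rw [e] at this
    omega
  have hstab : ∀ i, ∃ e : Set X × Set (Tre A₂), ∃ l₂, ∀ l, l₂ ≤ l → i < (st l).k ∧ (st l).s i = e ∧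
      tw_CTA F B (st l).O (i + 1) = tt_CTA F x (i + 1) := by
    intro i
    obtain ⟨l₁, hl₁⟩ := hlarge (i + 1)
    refine ⟨(st l₁).s i, l₁, fun l hl => ?_⟩
    refine ⟨(hl₁ l hl).1, ?_, (hl₁ l hl).2⟩
    induction l, hl using Nat.le_induction with
    | base => rfl
    | succ m hm ih =>
      rw [← ih, hs]
      refine ss_old_CTA F B (st m) (p m) i ?_
      obtain ⟨-, -, hj3⟩ := jj_spec_CTA F B (st m) (p m).1
      refine hj3 (i + 1) (hl₁ m hm).1 ?_
      rw [(hl₁ m hm).2, ← hO, (hl₁ (m + 1) (by omega)).2]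
  choose q l₂ hq using hstab
  have hhist : ∀ i, ∃ l₃, ∀ l, l₃ ≤ l → hist q i = hist (st l).s i := by
    intro i
    induction i with
    | zero => exact ⟨0, fun _ _ => rfl⟩
    | succ i ih =>
      obtain ⟨l₃, hl₃⟩ := ih
      refine ⟨max l₃ (l₂ i), fun l hl => ?_⟩
      simp only [hist]
      rw [hl₃ l (le_trans (le_max_left _ _) hl), (hq i l (le_trans (le_max_right _ _) hl)).2.1]
  have hleg : ∀ i, Legal P1 B τ1 H' σp (hist q i) := by
    intro i
    obtain ⟨l₃, hl₃⟩ := hhist i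
    obtain ⟨l₁, hl₁⟩ := hlarge i
    have h1 := hl₃ (max l₃ l₁) (le_max_left _ _)
    have h2 := (hl₁ (max l₃ l₁) (le_max_right _ _)).1
    rw [h1]
    exact legal_down_CTA _ _ _ _ _ _ _ (hinv _).2.leg i h2
  have hqe : ∀ i, ∃ l', i ≤ l' ∧ q i = ((p l').1 ∩ Gs_CTA F (tt_CTA F x (i + 1)), (p l').2 ∩ (st l').R) := by
    intro i
    obtain ⟨h1, h2, h3⟩ := hq i (l₂ i) (le_refl _)
    obtain ⟨l', h4, h5, h6⟩ := hent (l₂ i) i h1
    refine ⟨l', h4, ?_⟩
    rw [← h2, h5, h6, h3]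
  have hxq : ∀ i, x ∈ (q i).1 := by
    intro i
    obtain ⟨l', -, h⟩ := hqe i
    rw [h]
    exact ⟨hx l', tt_mem_CTA F x (i + 1)⟩
  have hcv : ∀ U, IsOpen[τM] U → x ∈ U → ∃ i, (q i).1 ∩ B ⊆ U := by
    intro U hU hxU
    obtain ⟨i, hi1, hi2⟩ := hbas U hU hxU
    refine ⟨i, ?_⟩
    obtain ⟨l', -, h⟩ := hqe i
    rw [h]
    exact (inter_subset_left.trans inter_subset_right).trans ((tt_sub_CTA F x i hi1).trans hi2)
  obtain ⟨x', hx'H, hx'σ, hx'f, -⟩ := hlim q hleg x hxB hxq hcv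
  have hx'R : ∀ l, x' ∈ (st l).R := by
    intro l
    obtain ⟨l', hl', h⟩ := hqe l
    have h1 := (hy.mv _ _ (hleg (l + 1))).2.1 (hx'σ (l + 1))
    have h2 : x' ∈ (q l).2 := h1.1
    rw [h] at h2
    exact hRanti l l' hl' h2.2
  refine ⟨x', hy.HA hx'H, hx'R, hx'f, fun k => ⟨k + 1, ?_⟩⟩
  obtain ⟨z, hz⟩ := (hstep k).2
  intro y hy' u hu
  have h1 := hz hy' u hu
  have h2 := hz (hx'R (k + 1)) u hu
  rw [h1, h2]

end CTA

theorem hCTA (hSH : StSH) : StCTA := by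
  intro X A₂ n τ P f τ' P' f' hr hr' M hM B hB A' hA' H' hH' Q hQ hHA hd hW
  obtain ⟨σp, hσ0, hσ⟩ := hW
  obtain ⟨F, hF⟩ : ∃ F : ℕ → Set X, P (M + 1) = range F :=
    (hr.cnt (M + 1)).exists_eq_range ⟨_, hr.univ (M + 1)⟩
  have hPd : ∀ m, P' m ⊆ P' 0 := by
    intro m
    induction m with
    | zero => exact Subset.rfl
    | succ m ih => exact (hr'.rich.anti m).trans ih
  have hy : Hyp_CTA F B (P (M + 1)) (P (M + 2)) (P' (M + 1)) (P' (M + 2)) (τ' (M + 1)) (τ' (M + 2)) σp H' A' := by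
    refine ⟨hr.univ _, hr.inter _, fun i => by rw [hF]; exact mem_range_self i, hr.anti _,
      fun U hU => hr'.rich.tow.mono (M + 1) U hU, fun U hU => hr'.rich.op (M + 1) hM U hU,
      hσ.move, ?_, hHA⟩
    intro E hE z hz U hU hzU k
    exact hSH A₂ n τ' P' f' hr' (M + 1) hM (E ∩ H')
      (hPd (M + 1) (hr'.rich.inter _ _ hE _ hH')) z hz U hU hzU k
  refine ⟨fun h => (run_CTA F B (P' (M + 2)) (τ' (M + 2)) σp H' Q h).R, rfl, ⟨?_, ?_⟩, ?_⟩
  · intro mv h hl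
    obtain ⟨hl0, h1, h2, h3, h4, h5⟩ := hl
    obtain ⟨i1, i2⟩ := inv_CTA F B _ _ _ _ _ _ σp H' A' Q hy hσ0 hQ hd h hl0
    have := step_CTA F B _ _ _ _ _ _ σp H' A' hy _ i2 mv h.length h1 (by rw [i1]; exact h2) h3 h4 h5
    exact ⟨this.1.R, this.2.1, this.2.2.1⟩
  · intro p hp x hxB hx hU
    refine lim_CTA F B _ _ _ _ (τ M) f f' _ _ σp H' A' Q hy hσ0 hQ hd p hp x hxB hx ?_ ?_ hσ.lim
    · intro i hi
      refine hU (F i)ᶜ ?_ hi
      have : F i ∈ P (M + 1) := by rw [hF]; exact mem_range_self i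
      exact (hr.cl (M + 1) hM _ this).isOpen_compl
    · intro U hU hxU
      obtain ⟨O, hO1, hO2, hO3⟩ := hr.basis M (by omega) x U hU hxU
      rw [hF] at hO1
      obtain ⟨i, rfl⟩ := hO1
      exact ⟨i, hO2, hO3⟩
  · intro h hl
    obtain ⟨-, i2⟩ := inv_CTA F B _ _ _ _ _ _ σp H' A' Q hy hσ0 hQ hd h hl
    refine i2.den.trans ?_
    refine @closure_mono _ (τ' (M + 2)) _ _ ?_
    exact inter_subset_inter Subset.rfl inter_subset_right

end Pool.Agent.Helper24.WH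

end

section

/-!
# PROJECT WH: module DN (data of the complement)
-/

set_option autoImplicit false

namespace Pool.Agent.Helper24.WH

open Set TopologicalSpace Topology
open Ordinal hiding univ

private theorem pre_DN {X : Type} (f : X → Bool) (s : Bool) :
    (fun t => !(f t)) ⁻¹' {s} = f ⁻¹' {!s} := by
  ext x
  simp only [mem_preimage, mem_singleton_iff]
  cases f x <;> cases s <;> simp

private theorem delOf_DN {X : Type} (τ : TopologicalSpace X) (m : ℕ) (z z' : Cd m → Bool → Set X → Set X)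
    (h : ∀ c s, z' c s = z c (!s)) : delOf τ m z' = delOf τ m z := by
  funext c Y
  ext x
  simp only [delOf, mem_inter_iff, mem_iInter]
  constructor
  · rintro ⟨h1, h2⟩
    refine ⟨h1, fun c' hc' s => ?_⟩
    have := h2 c' hc' (!s)
    rwa [h, Bool.not_not] at this
  · rintro ⟨h1, h2⟩
    refine ⟨h1, fun c' hc' s => ?_⟩
    rw [h]
    exact h2 c' hc' (!s)

private theorem VZ_DN {X : Type} (τ : ℕ → TopologicalSpace X) (f : X → Bool) :
    ∀ m : ℕ, (VZ τ (fun t => !(f t)) m).1 = (VZ τ f m).1 ∧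
      ∀ c s, (VZ τ (fun t => !(f t)) m).2 c s = (VZ τ f m).2 c (!s)
  | 0 => by
    refine ⟨rfl, fun c s => ?_⟩
    funext B
    show B ∩ (fun t => !(f t)) ⁻¹' {s} = B ∩ f ⁻¹' {!s}
    rw [pre_DN]
  | (m + 1) => by
    obtain ⟨-, h2⟩ := VZ_DN τ f m
    have h3 : foldV (τ (m + 1)) m (VZ τ (fun t => !(f t)) m).2 = foldV (τ (m + 1)) m (VZ τ f m).2 := by
      unfold foldV
      rw [delOf_DN (τ (m + 1)) m _ _ h2]
    constructor
    · show (fun l B => foldV (τ (m + 1)) m (VZ τ (fun t => !(f t)) m).2 (Cd.L l) B) = _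
      rw [h3]
      rfl
    · intro c s
      show (fun B => HomOp (τ (m + 1)) ((VZ τ (fun t => !(f t)) m).2 (lastc c.L) s)
        (foldV (τ (m + 1)) m (VZ τ (fun t => !(f t)) m).2 (c.L.dropLast) B)) = _
      rw [h3, h2]
      rfl

private theorem Vo_DN {X : Type} (τ : ℕ → TopologicalSpace X) (f : X → Bool) (m : ℕ) (c : Cd m) (B : Set X) :
    Vo τ (fun t => !(f t)) m c B = Vo τ f m c B := by
  unfold Vo
  rw [(VZ_DN τ f m).1]

private theorem Zo_DN {X : Type} (τ : ℕ → TopologicalSpace X) (f : X → Bool) (m : ℕ) (c : Cd m) (s : Bool)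
    (B : Set X) : Zo τ (fun t => !(f t)) m c s B = Zo τ f m c (!s) B := by
  unfold Zo
  rw [(VZ_DN τ f m).2]

private theorem rich_DN {X : Type} {n : ℕ} {τ : ℕ → TopologicalSpace X} {P : ℕ → Set (Set X)} {f : X → Bool}
    (h : IsRich n τ P f) : IsRich n τ P (fun t => !(f t)) where
  tow := h.tow
  fib s := by rw [pre_DN]; exact h.fib (!s)
  top := h.top
  anti := h.anti
  cl := h.cl
  op := h.op
  op0 := h.op0
  basis := h.basis
  cnt := h.cnt
  univ := h.univ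
  empty := h.empty
  inter := h.inter
  union := h.union
  clo := h.clo
  fP B hB s := by rw [pre_DN]; exact h.fP B hB (!s)
  VP m hm c hc B hB := by rw [Vo_DN]; exact h.VP m hm c hc B hB
  ZP m hm c hc hv s B hB := by rw [Zo_DN]; exact h.ZP m hm c hc hv (!s) B hB
  us m hm r hr hv := by
    obtain ⟨c, hc, hcr, hB⟩ := h.us m hm r hr hv
    refine ⟨c, hc, hcr, fun B hBm => ?_⟩
    rw [Vo_DN, Zo_DN, Zo_DN, Set.union_comm]
    exact hB B hBm
  tm m hm := by
    obtain ⟨c, hc, hB⟩ := h.tm m hm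
    refine ⟨c, hc, fun B hBm => ?_⟩
    rw [Vo_DN]
    exact hB B hBm
  pol := h.pol

theorem hDN : StDN := by
  intro A₁ f n r sd h
  refine ⟨h.wf, h.vd, ?_, ?_⟩
  · obtain ⟨s, hs⟩ := h.side
    exact ⟨!s, by simpa using hs⟩
  · obtain ⟨τ, P, hR, hτ, hV, hs⟩ := h.ex
    refine ⟨τ, P, ⟨rich_DN hR.rich, hR.cyl⟩, hτ, ?_, fun s => ?_⟩
    · rw [Vo_DN]; exact hV
    · rw [Zo_DN]; exact hs (!s)

end Pool.Agent.Helper24.WH

end

section

namespace Pool.Agent.Helper24.WH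

/-- **FB (1.6)** finite basis property -/
theorem hFB : StFB := by
  intro Q r _ _ hw A
  by_contra hcon
  have key : ∀ s : Finset Q, (∀ x ∈ s, x ∈ A) → ∃ y, y ∈ A ∧ ∀ x ∈ s, ¬ r x y := by
    intro s hs
    by_contra hno
    apply hcon
    refine ⟨(s : Set Q), s.finite_toSet, fun x hx => hs x (by simpa using hx), ?_⟩
    intro a ha
    by_contra hbad
    apply hno
    refine ⟨a, ha, ?_⟩
    intro x hx hrx
    exact hbad ⟨x, by simpa using hx, hrx⟩
  obtain ⟨f, _, hf2⟩ :=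
    exists_seq_of_forall_finset_exists (fun x => x ∈ A) (fun x y => ¬ r x y) key
  obtain ⟨m, n, hmn, hr⟩ := hw f
  exact hf2 m n hmn hr

end Pool.Agent.Helper24.WH

end

section

/-!
# PROJECT WH (MP_76577a_lc), module LW: labels of bounded height are well quasi ordered
-/

set_option autoImplicit false

namespace Pool.Agent.Helper24.WH

open Set

private def code_LW {S : Type} (n : ℕ) : Lab S → Fin (n + 1) × (Set S ⊕ S ⊕ Unit)
  | .base M K => (⟨min M n, by omega⟩, Sum.inl K)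
  | .cl M s _ => (⟨min M n, by omega⟩, Sum.inr (Sum.inl s))
  | .dd m _ _ _ => (⟨min (m + 1) n, by omega⟩, Sum.inr (Sum.inr ()))

private theorem wqo_LW {Q : Type*} [LinearOrder Q] [WellFoundedLT Q] :
    WellQuasiOrdered (fun a b : Q => a ≤ b) := by
  intro f
  by_contra h
  push Not at h
  have h2 : ∀ m n, m < n → f n < f m := h
  obtain ⟨x, ⟨m, rfl⟩, hx⟩ := WellFounded.has_min (wellFounded_lt (α := Q)) (range f) ⟨f 0, 0, rfl⟩
  exact hx (f (m + 1)) ⟨m + 1, rfl⟩ (h2 m (m + 1) (Nat.lt_succ_self m))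

theorem hLW (hTB : StTB) (hTP : StTP) : StLW := by
  intro S _ n
  refine ⟨?_, ?_, ?_, ?_⟩
  · rintro (⟨M, K⟩ | ⟨M, s, j⟩ | ⟨m, L, x, j⟩)
    · exact .base M K
    · exact .cl M s j j le_rfl
    · exact .dd m L L x x j j (fun i => ⟨i, (hTP.2.1 S m).1 _⟩) le_rfl le_rfl
  · intro a b c hab hbc
    cases hab with
    | base M K => exact hbc
    | cl M s j j' hj =>
      cases hbc with
      | cl _ _ _ j'' hj' => exact .cl M s j j'' (hj.trans hj')
    | dd m L L' x x' j j' hL hx hj =>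
      cases hbc with
      | dd _ _ L'' _ x'' _ j'' hL' hx' hj' =>
        refine .dd m L L'' x x'' j j'' (fun i => ?_) (hx.trans hx') (hj.trans hj')
        obtain ⟨p, hp⟩ := hL i
        obtain ⟨q, hq⟩ := hL' p
        exact ⟨q, (hTP.2.1 S m).2 _ _ _ hp hq⟩
  · intro a b hab
    cases hab <;> rfl
  · intro f hf
    classical
    obtain ⟨κ, hκ⟩ := Finite.exists_infinite_fiber (fun i => code_LW n (f i))
    have hinf : ((fun i => code_LW n (f i)) ⁻¹' {κ}).Infinite := infinite_coe_iff.mp hκ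
    have := hinf.to_subtype
    set e := Nat.orderEmbeddingOfSet ((fun i => code_LW n (f i)) ⁻¹' {κ}) with he
    have hmem : ∀ i, code_LW n (f (e i)) = κ := fun i => by
      have := (Nat.orderEmbeddingOfSet_range ((fun i => code_LW n (f i)) ⁻¹' {κ})).le ⟨i, rfl⟩
      exact this
    obtain ⟨h, d⟩ := κ
    -- it suffices to find two good indices of the subsequence
    suffices ∃ i j, i < j ∧ Lab.Le (f (e i)) (f (e j)) by
      obtain ⟨i, j, hij, h⟩ := this
      exact ⟨e i, e j, e.strictMono hij, h⟩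
    rcases d with K | s | u
    · have key : ∀ i, f (e i) = .base h K := by
        intro i
        have h1 := hmem i
        have h2 := hf (e i)
        generalize f (e i) = l at h1 h2
        rcases l with ⟨M, K'⟩ | ⟨M, s, j⟩ | ⟨m, L, x, j⟩
        · simp only [code_LW, Prod.mk.injEq, Sum.inl.injEq] at h1
          have h3 := congrArg Fin.val h1.1
          simp only [Lab.ht] at h2
          simp only at h3
          rw [h1.2, ← h3, min_eq_left h2]
        · simp [code_LW] at h1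
        · simp [code_LW] at h1
      refine ⟨0, 1, Nat.zero_lt_one, ?_⟩
      rw [key, key]
      exact .base _ _
    · have key : ∀ i, ∃ j, f (e i) = .cl h s j := by
        intro i
        have h1 := hmem i
        have h2 := hf (e i)
        generalize f (e i) = l at h1 h2
        rcases l with ⟨M, K'⟩ | ⟨M, s', j⟩ | ⟨m, L, x, j⟩
        · simp [code_LW] at h1
        · simp only [code_LW, Prod.mk.injEq, Sum.inr.injEq, Sum.inl.injEq] at h1
          have h3 := congrArg Fin.val h1.1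
          simp only [Lab.ht] at h2
          simp only at h3
          exact ⟨j, by rw [h1.2, ← h3, min_eq_left h2]⟩
        · simp [code_LW] at h1
      choose j hj using key
      obtain ⟨a, b, hab, hle⟩ := wqo_LW j
      refine ⟨a, b, hab, ?_⟩
      rw [hj, hj]
      exact .cl _ _ _ _ hle
    · have key0 : ∀ i, ∃ m L x j, f (e i) = .dd m L x j ∧ m + 1 = (h : ℕ) := by
        intro i
        have h1 := hmem i
        have h2 := hf (e i)
        generalize f (e i) = l at h1 h2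
        rcases l with ⟨M, K'⟩ | ⟨M, s', j⟩ | ⟨m, L, x, j⟩
        · simp [code_LW] at h1
        · simp [code_LW] at h1
        · simp only [code_LW, Prod.mk.injEq] at h1
          have h3 := congrArg Fin.val h1.1
          simp only [Lab.ht] at h2
          simp only at h3
          exact ⟨m, L, x, j, rfl, by rw [← h3, min_eq_left h2]⟩
      obtain ⟨m, hm⟩ : ∃ m, m + 1 = (h : ℕ) := by
        obtain ⟨m, _, _, _, _, hm⟩ := key0 0
        exact ⟨m, hm⟩
      have key : ∀ i, ∃ (L : ℕ → TT S m) (x : ℕ) (j : Ordinal.{0}), f (e i) = .dd m L x j := by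
        intro i
        obtain ⟨m', L, x, j, h1, h2⟩ := key0 i
        obtain rfl : m' = m := by omega
        exact ⟨L, x, j, h1⟩
      choose L x j hj using key
      have w1 := (hTB S m 0).2.1
      have : Std.Refl (Dom (TT.Le (S := S) m)) := ⟨fun F i => ⟨i, (hTP.2.1 S m).1 _⟩⟩
      have : IsTrans (ℕ → TT S m) (Dom (TT.Le m)) := ⟨fun F F' F'' h1 h2 i => by
        obtain ⟨p, hp⟩ := h1 i
        obtain ⟨q, hq⟩ := h2 p
        exact ⟨q, (hTP.2.1 S m).2 _ _ _ hp hq⟩⟩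
      have : IsPreorder (ℕ → TT S m) (Dom (TT.Le m)) := {}
      have w2 := w1.prod (WellQuasiOrdered.prod (wqo_LW (Q := ℕ)) (wqo_LW (Q := Ordinal.{0})))
      obtain ⟨a, b, hab, hle⟩ := w2 (fun i => (L i, x i, j i))
      refine ⟨a, b, hab, ?_⟩
      rw [hj, hj]
      exact .dd _ _ _ _ _ _ _ hle.1 hle.2.1 hle.2.2

end Pool.Agent.Helper24.WH

end

section

/-!
# PROJECT WH (MP_76577a_lc), module PZ: exact product formula (3.7)
-/

set_option autoImplicit false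

namespace Pool.Agent.Helper24.WH

open Set TopologicalSpace Ordinal Topology

private theorem tree_PZ {X Y A A₁ A₂ : Type} (f₁ : A → A₁) (f₂ : A → A₂)
    (h : A → Set (X × Y) → Set (X × Y)) (h₁ : A₁ → Set X → Set X) (h₂ : A₂ → Set Y → Set Y)
    (hh : ∀ U P Q, h U (P ×ˢ Q) = h₁ (f₁ U) P ×ˢ h₂ (f₂ U) Q) (P : Set X) (Q : Set Y) :
    ∀ t : Tr A, ZTr h t (P ×ˢ Q) = ZTr h₁ (Tr.map f₁ t) P ×ˢ ZTr h₂ (Tr.map f₂ t) Q := by
  intro t
  induction t with
  | leaf U =>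
    simp only [ZTr, Tr.map]
    exact hh U P Q
  | node U F ih =>
    simp only [ZTr, Tr.map]
    rw [← hh]
    congr 1
    ext ⟨x, y⟩
    simp only [ih, mem_iInter, mem_prod]
    exact forall_and

private theorem homOp_PZ {X Y : Type} (τ : TopologicalSpace X) (τ' : TopologicalSpace Y)
    (z : Set (X × Y) → Set (X × Y)) (z₁ : Set X → Set X) (z₂ : Set Y → Set Y)
    (hz : ∀ P Q, P ⊆ Q → z P ⊆ z Q) (hz₁ : ∀ P Q, P ⊆ Q → z₁ P ⊆ z₁ Q)
    (hz₂ : ∀ P Q, P ⊆ Q → z₂ P ⊆ z₂ Q) (h : ∀ P Q, z (P ×ˢ Q) = z₁ P ×ˢ z₂ Q)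
    (P : Set X) (Q : Set Y) :
    HomOp (@instTopologicalSpaceProd X Y τ τ') z (P ×ˢ Q) = HomOp τ z₁ P ×ˢ HomOp τ' z₂ Q := by
  have hcl : ∀ (T : Type) (σ : TopologicalSpace T) (y : Set T → Set T) (_ : ∀ P Q, P ⊆ Q → y P ⊆ y Q)
      (B : Set T), HomOp σ y B ⊆ closure[σ] (y (HomOp σ y B)) := by
    intro T σ y hy B
    rintro x ⟨W, ⟨hWB, hW⟩, hx⟩
    have h1 : W ⊆ HomOp σ y B := fun v hv => ⟨W, ⟨hWB, hW⟩, hv⟩
    exact Set.mem_of_subset_of_mem (@closure_mono T σ _ _ (hy _ _ h1)) (hW hx)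
  have hle : ∀ (T : Type) (σ : TopologicalSpace T) (y : Set T → Set T) (B : Set T),
      HomOp σ y B ⊆ B := by
    rintro T σ y B x ⟨W, ⟨hWB, hW⟩, hx⟩
    exact hWB hx
  refine Subset.antisymm ?_ ?_
  · rintro ⟨x, y⟩ ⟨W, ⟨hWB, hW⟩, hxy⟩
    have hsub : W ⊆ (Prod.fst '' W) ×ˢ (Prod.snd '' W) := fun p hp =>
      ⟨⟨p, hp, rfl⟩, ⟨p, hp, rfl⟩⟩
    have h1 : W ⊆ closure[τ] (z₁ (Prod.fst '' W)) ×ˢ closure[τ'] (z₂ (Prod.snd '' W)) := by
      intro p hp
      have h2 := Set.mem_of_subset_of_mem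
        (@closure_mono _ (@instTopologicalSpaceProd X Y τ τ') _ _ (hz _ _ hsub)) (hW hp)
      rw [h, @closure_prod_eq X Y τ τ'] at h2
      exact h2
    refine ⟨⟨Prod.fst '' W, ⟨?_, ?_⟩, ⟨(x, y), hxy, rfl⟩⟩, ⟨Prod.snd '' W, ⟨?_, ?_⟩, ⟨(x, y), hxy, rfl⟩⟩⟩
    · rintro _ ⟨p, hp, rfl⟩
      exact (hWB hp).1
    · rintro _ ⟨p, hp, rfl⟩
      exact (h1 hp).1
    · rintro _ ⟨p, hp, rfl⟩
      exact (hWB hp).2
    · rintro _ ⟨p, hp, rfl⟩
      exact (h1 hp).2
  · rintro ⟨x, y⟩ ⟨hx, hy⟩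
    refine ⟨HomOp τ z₁ P ×ˢ HomOp τ' z₂ Q, ⟨prod_mono (hle _ _ _ _) (hle _ _ _ _), ?_⟩, ⟨hx, hy⟩⟩
    rw [h, @closure_prod_eq X Y τ τ']
    exact prod_mono (hcl _ _ _ hz₁ _) (hcl _ _ _ hz₂ _)

private theorem iter_PZ {X Y : Type} (d : Set (X × Y) → Set (X × Y)) (d₁ : Set X → Set X)
    (d₂ : Set Y → Set Y) (h : ∀ P Q, d (P ×ˢ Q) = d₁ P ×ˢ d₂ Q) (P : Set X) (Q : Set Y)
    (α : Ordinal.{0}) : iter d (P ×ˢ Q) α = iter d₁ P α ×ˢ iter d₂ Q α := by
  induction α using WellFoundedLT.induction with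
  | ind α ih =>
    rw [iter, iter, iter]
    have h1 : ∀ β : Iio α, d (iter d (P ×ˢ Q) β.1) = d₁ (iter d₁ P β.1) ×ˢ d₂ (iter d₂ Q β.1) := by
      intro β
      rw [ih β.1 β.2, h]
    ext ⟨x, y⟩
    simp only [h1, mem_inter_iff, mem_iInter, mem_prod, forall_and]
    tauto

theorem hPZ (hZA : StZA) : StPZ := by
  intro X Y S S' τ τ' g g' m
  have hom_of : ∀ m, (∀ (t : TT (S × S') m) (A : Set X) (B : Set Y),
      Z (prodT τ τ') (Prod.map g g') m t (A ×ˢ B) =
        Z τ g m (TT.map Prod.fst m t) A ×ˢ Z τ' g' m (TT.map Prod.snd m t) B) →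
      ∀ (U : TT (S × S') m) (A : Set X) (B : Set Y),
        HomOp (prodT τ τ' (m + 1)) (Z (prodT τ τ') (Prod.map g g') m U) (A ×ˢ B) =
        HomOp (τ (m + 1)) (Z τ g m (TT.map Prod.fst m U)) A ×ˢ
          HomOp (τ' (m + 1)) (Z τ' g' m (TT.map Prod.snd m U)) B := by
    intro m hm U A B
    exact homOp_PZ (τ (m + 1)) (τ' (m + 1)) _ _ _
      ((hZA (X × Y) (S × S') (prodT τ τ') (Prod.map g g') m).2.2.2 U)
      ((hZA X S τ g m).2.2.2 _) ((hZA Y S' τ' g' m).2.2.2 _) (fun P Q => hm U P Q) A B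
  have hZm : ∀ m, ∀ (t : TT (S × S') m) (A : Set X) (B : Set Y),
      Z (prodT τ τ') (Prod.map g g') m t (A ×ˢ B) =
        Z τ g m (TT.map Prod.fst m t) A ×ˢ Z τ' g' m (TT.map Prod.snd m t) B := by
    intro m
    induction m with
    | zero =>
      intro t A B
      ext ⟨x, y⟩
      obtain ⟨s, s'⟩ := t
      show (_ ∧ (g x, g' y) = (s, s')) ↔ ((x ∈ A ∧ g x = s) ∧ (y ∈ B ∧ g' y = s'))
      rw [Prod.mk.injEq]
      simp only [mem_prod]
      tauto
    | succ m ih =>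
      intro t A B
      exact tree_PZ (TT.map Prod.fst m) (TT.map Prod.snd m)
        (fun U => HomOp (prodT τ τ' (m + 1)) (Z (prodT τ τ') (Prod.map g g') m U))
        (fun U => HomOp (τ (m + 1)) (Z τ g m U)) (fun U => HomOp (τ' (m + 1)) (Z τ' g' m U))
        (hom_of m ih) A B t
  refine ⟨hZm m, hom_of m (hZm m), ?_⟩
  intro L A B α
  refine iter_PZ _ _ _ (fun P Q => ?_) A B α
  ext ⟨x, y⟩
  have h1 : ∀ i, hom (prodT τ τ') (Prod.map g g') m (L i) (P ×ˢ Q) =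
      hom τ g m (TT.map Prod.fst m (L i)) P ×ˢ hom τ' g' m (TT.map Prod.snd m (L i)) Q :=
    fun i => hom_of m (hZm m) (L i) P Q
  simp only [dL, h1, mem_iInter, mem_prod, forall_and]

end Pool.Agent.Helper24.WH

end

section

/-!
# Project WH, module RA (6.1): basic properties of the rank operators
-/

set_option autoImplicit false

namespace Pool.Agent.Helper24.WH

open Set TopologicalSpace Topology
open Ordinal hiding univ

/-! ### Iterates -/

/-- monotone and contractive -/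
private structure MC_RA {X : Type} (d : Set X → Set X) : Prop where
  m : ∀ A B, A ⊆ B → d A ⊆ d B
  l : ∀ B, d B ⊆ B

private theorem it_zero_RA {X : Type} {d : Set X → Set X} (h : MC_RA d) (B : Set X) :
    iter d B 0 = B := (hIT X d h.m h.l).1 B

private theorem it_succ_RA {X : Type} {d : Set X → Set X} (h : MC_RA d) (B : Set X)
    (α : Ordinal.{0}) : iter d B (α + 1) = d (iter d B α) := (hIT X d h.m h.l).2.1 B α

private theorem it_one_RA {X : Type} {d : Set X → Set X} (h : MC_RA d) (B : Set X) :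
    iter d B 1 = d B := by
  have h1 := it_succ_RA h B 0
  rwa [zero_add, it_zero_RA h] at h1

private theorem it_anti_RA {X : Type} {d : Set X → Set X} (h : MC_RA d) (B : Set X)
    {α β : Ordinal.{0}} (hab : α ≤ β) : iter d B β ⊆ iter d B α :=
  (hIT X d h.m h.l).2.2.1 B α β hab

private theorem it_mono_RA {X : Type} {d : Set X → Set X} (h : MC_RA d) {A B : Set X}
    (α : Ordinal.{0}) (hAB : A ⊆ B) : iter d A α ⊆ iter d B α :=
  (hIT X d h.m h.l).2.2.2.1 A B α hAB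

private theorem it_add_RA {X : Type} {d : Set X → Set X} (h : MC_RA d) (B : Set X)
    (α β : Ordinal.{0}) : iter d B (α + β) = iter d (iter d B α) β :=
  (hIT X d h.m h.l).2.2.2.2.1 B α β

private theorem it_le_RA {X : Type} {d : Set X → Set X} (h : MC_RA d) (B : Set X)
    (α : Ordinal.{0}) : iter d B α ⊆ B := (hIT X d h.m h.l).2.2.2.2.2.1 B α

private theorem it_lim_RA {X : Type} {d : Set X → Set X} (h : MC_RA d) (B : Set X)
    {α : Ordinal.{0}} (ha : Order.IsSuccLimit α) : iter d B α = ⋂ β : Iio α, iter d B β.1 :=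
  (hIT X d h.m h.l).2.2.2.2.2.2.1 B α ha

private theorem it_fix_RA {X : Type} {d : Set X → Set X} (h : MC_RA d) {W B : Set X}
    (α : Ordinal.{0}) (h1 : W ⊆ B) (h2 : W ⊆ d W) : W ⊆ iter d B α :=
  (hIT X d h.m h.l).2.2.2.2.2.2.2.2.1 B W α h1 h2

/-! ### Folds of derivations -/

/-- fold of a family of derivations -/
private noncomputable def Fd_RA {X C : Type} (D : C → Set X → Set X) (l : List (C ×ₗ ℕ))
    (B : Set X) : Set X :=
  l.foldl (fun Y e => iter (D (ofLex e).1) Y (ω ^ ((ofLex e).2 : Ordinal.{0}))) B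

private theorem Fd_append_RA {X C : Type} (D : C → Set X → Set X) (l r : List (C ×ₗ ℕ))
    (B : Set X) : Fd_RA D (l ++ r) B = Fd_RA D r (Fd_RA D l B) := List.foldl_append

private theorem Fd_cons_RA {X C : Type} (D : C → Set X → Set X) (e : C ×ₗ ℕ) (r : List (C ×ₗ ℕ))
    (B : Set X) : Fd_RA D (e :: r) B =
      Fd_RA D r (iter (D (ofLex e).1) B (ω ^ ((ofLex e).2 : Ordinal.{0}))) := rfl

private theorem Fd_le_RA {X C : Type} {D : C → Set X → Set X} (h : ∀ c, MC_RA (D c))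
    (l : List (C ×ₗ ℕ)) : ∀ B : Set X, Fd_RA D l B ⊆ B := by
  induction l with
  | nil => intro B; exact subset_rfl
  | cons e r ih =>
    intro B
    rw [Fd_cons_RA]
    exact (ih _).trans (it_le_RA (h _) _ _)

private theorem Fd_mono_RA {X C : Type} {D : C → Set X → Set X} (h : ∀ c, MC_RA (D c))
    (l : List (C ×ₗ ℕ)) : ∀ {A B : Set X}, A ⊆ B → Fd_RA D l A ⊆ Fd_RA D l B := by
  induction l with
  | nil => intro A B hAB; exact hAB
  | cons e r ih =>
    intro A B hAB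
    rw [Fd_cons_RA, Fd_cons_RA]
    exact ih (it_mono_RA (h _) _ hAB)

private theorem Fd_fix_RA {X C : Type} {D : C → Set X → Set X} (h : ∀ c, MC_RA (D c))
    {W : Set X} (l : List (C ×ₗ ℕ)) : ∀ {B : Set X}, W ⊆ B → (∀ e ∈ l, W ⊆ D (ofLex e).1 W) →
      W ⊆ Fd_RA D l B := by
  induction l with
  | nil => intro B hB _; exact hB
  | cons e r ih =>
    intro B hB hf
    rw [Fd_cons_RA]
    exact ih (it_fix_RA (h _) _ hB (hf e List.mem_cons_self))
      (fun e' he' => hf e' (List.mem_cons_of_mem _ he'))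

/-- the comparison of an iterate with a fold of smaller derivations -/
private theorem Fd_key_RA {X C : Type} [LinearOrder C] {D : C → Set X → Set X}
    (h : ∀ c, MC_RA (D c)) (good : C → Prop) (c' : C) (x' : ℕ)
    (hK : ∀ c, c < c' → good c → ∀ Y : Set X, ∃ H : Set X, D c' Y ⊆ H ∧ H ⊆ Y ∧
      ∀ c₁, c₁ ≤ c → good c₁ → H ⊆ D c₁ H) (q : List (C ×ₗ ℕ)) :
    q.Pairwise (fun a b => b ≤ a) → (∀ e ∈ q, good (ofLex e).1) →
      (∀ e ∈ q, e < (toLex (c', x') : C ×ₗ ℕ)) → ∀ (Y : Set X) (α : Ordinal.{0}),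
        α < ω ^ (x' : Ordinal.{0}) →
          iter (D c') Y (ω ^ (x' : Ordinal.{0})) ⊆ Fd_RA D q (iter (D c') Y α) := by
  induction q with
  | nil =>
    intro _ _ _ Y α hα
    exact it_anti_RA (h _) _ hα.le
  | cons e r ih =>
    intro hp hg hl Y α hα
    have he := hl e List.mem_cons_self
    rw [Prod.Lex.lt_iff] at he
    rw [List.pairwise_cons] at hp
    rcases he with he | ⟨he1, he2⟩
    · have he1 : (ofLex e).1 < c' := he
      obtain ⟨H, h1, h2, h3⟩ := hK _ he1 (hg e List.mem_cons_self) (iter (D c') Y α)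
      have h4 : iter (D c') Y (ω ^ (x' : Ordinal.{0})) ⊆ H := by
        refine (it_anti_RA (h _) Y (α := α + 1) ?_).trans ?_
        · rw [← Order.succ_eq_add_one]
          exact Order.succ_le_of_lt hα
        · rw [it_succ_RA (h _)]
          exact h1
      refine h4.trans (Fd_fix_RA h (e :: r) h2 fun e₁ he₁ => ?_)
      refine h3 _ ?_ (hg e₁ he₁)
      rcases List.mem_cons.1 he₁ with rfl | he₁
      · exact le_refl _
      · have h5 := hp.1 e₁ he₁
        rw [Prod.Lex.le_iff] at h5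
        rcases h5 with h5 | h5
        · exact h5.le
        · exact h5.1.le
    · have he3 : (ofLex e).1 = c' := he1
      have he4 : (ofLex e).2 < x' := he2
      rw [Fd_cons_RA, he3, ← it_add_RA (h _)]
      refine ih hp.2 (fun e' he' => hg e' (List.mem_cons_of_mem _ he'))
        (fun e' he' => hl e' (List.mem_cons_of_mem _ he')) Y _ ?_
      refine Ordinal.isPrincipal_add_omega0_opow _ hα ?_
      exact (Ordinal.opow_lt_opow_iff_right Ordinal.one_lt_omega0).2 (by exact_mod_cast he4)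

/-! ### One level -/

/-- the properties of one level -/
private structure Lev_RA {X : Type} (τ : ℕ → TopologicalSpace X) (f : X → Bool) (m : ℕ) : Prop where
  vm : ∀ c (A B : Set X), A ⊆ B → Vo τ f m c A ⊆ Vo τ f m c B
  vl : ∀ c (B : Set X), Vo τ f m c B ⊆ B
  zm : ∀ c s (A B : Set X), A ⊆ B → Zo τ f m c s A ⊆ Zo τ f m c s B
  zl : ∀ c s (B : Set X), Zo τ f m c s B ⊆ B
  va : ∀ c c' (B : Set X), Cd.wf m c → Cd.wf m c' → c ≤ c' → Vo τ f m c' B ⊆ Vo τ f m c B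
  zv : ∀ r c s (B : Set X), Cd.wf m r → Cd.vd m r → Cd.wf m c → c < r →
    Zo τ f m r s B ⊆ Vo τ f m c B
  vz : ∀ r (B : Set X), Cd.wf m r → Cd.vd m r →
    Vo τ f m r B = Zo τ f m r false B ∩ Zo τ f m r true B
  lim : ∀ c (B : Set X), Cd.wf m c → ¬ Cd.vd m c → c ≠ Cd.bot m → ∀ x,
    (∀ c', Cd.wf m c' → c' < c → x ∈ Vo τ f m c' B) → x ∈ Vo τ f m c B

section

variable {X : Type} {τ : ℕ → TopologicalSpace X} {f : X → Bool} {m : ℕ}

private theorem zz_RA (L : Lev_RA τ f m) {r r' : Cd m} (s s' : Bool) (B : Set X)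
    (h1 : Cd.wf m r) (h2 : Cd.vd m r) (h3 : Cd.wf m r') (h4 : Cd.vd m r') (h : r < r') :
    Zo τ f m r' s' B ⊆ Zo τ f m r s B := by
  refine (L.zv r' r s' B h3 h4 h1 h).trans ?_
  rw [L.vz r B h1 h2]
  cases s
  · exact inter_subset_left
  · exact inter_subset_right

private theorem mem_del_RA {c : Cd m} {Y : Set X} {x : X} : x ∈ del τ f m c Y ↔
    x ∈ Y ∧ ∀ c' : Cd m, Cd.wf m c' ∧ Cd.vd m c' ∧ c' ≤ c → ∀ s : Bool,
      x ∈ HomOp (τ (m + 1)) (Zo τ f m c' s) Y := by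
  unfold del delOf
  simp only [mem_inter_iff, mem_iInter]

private theorem ho_mono_RA (L : Lev_RA τ f m) (c : Cd m) (s : Bool) {A B : Set X} (h : A ⊆ B) :
    HomOp (τ (m + 1)) (Zo τ f m c s) A ⊆ HomOp (τ (m + 1)) (Zo τ f m c s) B :=
  (hHO X (τ (m + 1)) (Zo τ f m c s) (L.zm c s)).2.1 A B h

private theorem ho_le_RA (L : Lev_RA τ f m) (c : Cd m) (s : Bool) (B : Set X) :
    HomOp (τ (m + 1)) (Zo τ f m c s) B ⊆ B :=
  (hHO X (τ (m + 1)) (Zo τ f m c s) (L.zm c s)).1 B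

private theorem ho_cl_RA (L : Lev_RA τ f m) (c : Cd m) (s : Bool) (B : Set X) :
    HomOp (τ (m + 1)) (Zo τ f m c s) B ⊆
      closure[τ (m + 1)] (Zo τ f m c s (HomOp (τ (m + 1)) (Zo τ f m c s) B)) :=
  (hHO X (τ (m + 1)) (Zo τ f m c s) (L.zm c s)).2.2.1 B

private theorem ho_max_RA (L : Lev_RA τ f m) (c : Cd m) (s : Bool) {W B : Set X} (h1 : W ⊆ B)
    (h2 : W ⊆ closure[τ (m + 1)] (Zo τ f m c s W)) : W ⊆ HomOp (τ (m + 1)) (Zo τ f m c s) B :=
  (hHO X (τ (m + 1)) (Zo τ f m c s) (L.zm c s)).2.2.2.1 W B h1 h2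

private theorem delMC_RA (L : Lev_RA τ f m) (c : Cd m) : MC_RA (del τ f m c) := by
  refine ⟨fun A B hAB x hx => ?_, fun B x hx => ?_⟩
  · rw [mem_del_RA] at hx ⊢
    exact ⟨hAB hx.1, fun c' hc' s => ho_mono_RA L c' s hAB (hx.2 c' hc' s)⟩
  · rw [mem_del_RA] at hx
    exact hx.1

private theorem hf_RA (L : Lev_RA τ f m) {r c : Cd m} (s : Bool) (B : Set X) (h1 : Cd.wf m r)
    (h2 : Cd.vd m r) (h : c < r) : HomOp (τ (m + 1)) (Zo τ f m r s) B ⊆
      del τ f m c (HomOp (τ (m + 1)) (Zo τ f m r s) B) := by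
  intro x hx
  rw [mem_del_RA]
  refine ⟨hx, fun c' hc' s' => ?_⟩
  refine ho_max_RA L c' s' subset_rfl ?_ hx
  refine (ho_cl_RA L r s B).trans ?_
  exact @closure_mono X (τ (m + 1)) _ _
    (zz_RA L s' s _ hc'.1 hc'.2.1 h1 h2 (lt_of_le_of_lt hc'.2.2 h))

private theorem K_RA (hCA : StCA) (L : Lev_RA τ f m) {c c' : Cd m} (hc : Cd.wf m c)
    (hc' : Cd.wf m c') (h : c < c') (Y : Set X) : ∃ H : Set X, del τ f m c' Y ⊆ H ∧ H ⊆ Y ∧
      ∀ c₁, c₁ ≤ c → Cd.wf m c₁ → H ⊆ del τ f m c₁ H := by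
  obtain ⟨r, r1, r2, r3, r4⟩ := (hCA m).2.2.2.2.1 c c' hc hc' h
  refine ⟨HomOp (τ (m + 1)) (Zo τ f m r false) Y, ?_, ho_le_RA L r false Y, ?_⟩
  · intro x hx
    rw [mem_del_RA] at hx
    exact hx.2 r ⟨r1, r2, r4⟩ false
  · intro c₁ h1 _
    exact hf_RA L false Y r1 r2 (lt_of_le_of_lt h1 r3)

private theorem Vo_eq_RA (l : Cd (m + 1)) (B : Set X) :
    Vo τ f (m + 1) l B = Fd_RA (del τ f m) (Cd.L l) B := rfl

private theorem Zo_eq_RA (l : Cd (m + 1)) (s : Bool) (B : Set X) :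
    Zo τ f (m + 1) l s B = HomOp (τ (m + 1)) (Zo τ f m (lastc (Cd.L l)) s)
      (Fd_RA (del τ f m) (Cd.L l).dropLast B) := rfl

private theorem lastc_RA (l₀ : List (Cd m ×ₗ ℕ)) (e : Cd m ×ₗ ℕ) :
    lastc (l₀ ++ [e]) = (ofLex e).1 := by
  unfold lastc
  rw [List.getLast?_concat]

/-- the value of `Zo` at a code with a last entry -/
private theorem Zo_last_RA {l : Cd (m + 1)} {l₀ : List (Cd m ×ₗ ℕ)} {e : Cd m ×ₗ ℕ}
    (hl : Cd.L l = l₀ ++ [e]) (s : Bool) (B : Set X) :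
    Zo τ f (m + 1) l s B = HomOp (τ (m + 1)) (Zo τ f m (ofLex e).1 s)
      (Fd_RA (del τ f m) l₀ B) := by
  rw [Zo_eq_RA, hl, lastc_RA, List.dropLast_concat]

/-- comparison of a derivation with the fold of a list with smaller head -/
private theorem cmp_RA (hCA : StCA) (L : Lev_RA τ f m) {e e' : Cd m ×ₗ ℕ} {q : List (Cd m ×ₗ ℕ)}
    (hp : (e :: q).Pairwise (fun a b => b ≤ a)) (hg : ∀ a ∈ e :: q, Cd.wf m (ofLex a).1)
    (hg' : Cd.wf m (ofLex e').1) (h : e < e') (Y : Set X) :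
    iter (del τ f m (ofLex e').1) Y (ω ^ ((ofLex e').2 : Ordinal.{0})) ⊆
      Fd_RA (del τ f m) (e :: q) Y := by
  have h1 := Fd_key_RA (fun c => delMC_RA L c) (Cd.wf m) (ofLex e').1 (ofLex e').2
    (fun c hc hw Y => K_RA hCA L hw hg' hc Y) (e :: q) hp hg (fun a ha => ?_) Y 0
    (Ordinal.opow_pos _ Ordinal.omega0_pos)
  · rwa [it_zero_RA (delMC_RA L _)] at h1
  · have h2 : (toLex ((ofLex e').1, (ofLex e').2) : Cd m ×ₗ ℕ) = e' := rfl
    rw [h2]
    rcases List.mem_cons.1 ha with rfl | ha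
    · exact h
    · exact lt_of_le_of_lt ((List.pairwise_cons.1 hp).1 a ha) h

private theorem wf_iff_RA (l : Cd (m + 1)) : Cd.wf (m + 1) l ↔
    List.Pairwise (fun a b : Cd m ×ₗ ℕ => b ≤ a) (Cd.L l) ∧
      ∀ e ∈ Cd.L l, Cd.wf m (ofLex e).1 ∧ (ofLex e).1 ≠ Cd.bot m := Iff.rfl

private theorem vd_iff_RA (l : Cd (m + 1)) : Cd.vd (m + 1) l ↔
    ∃ (l₀ : List (Cd m ×ₗ ℕ)) (c : Cd m), Cd.L l = l₀ ++ [toLex (c, 0)] ∧ Cd.vd m c := Iff.rfl

private theorem exists_last_RA {α : Type} (e : α) (q : List α) : ∃ (q₂ : List α) (b : α),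
    e :: q = q₂ ++ [b] :=
  ⟨(e :: q).dropLast, (e :: q).getLast (List.cons_ne_nil _ _),
    (List.dropLast_append_getLast (List.cons_ne_nil _ _)).symm⟩

/-- (8) at the next level -/
private theorem va_RA (hCA : StCA) (L : Lev_RA τ f m) (l l' : Cd (m + 1)) (B : Set X)
    (hl : Cd.wf (m + 1) l) (hl' : Cd.wf (m + 1) l') (h : l ≤ l') :
    Vo τ f (m + 1) l' B ⊆ Vo τ f (m + 1) l B := by
  rcases h.eq_or_lt with rfl | h
  · exact subset_rfl
  rw [Vo_eq_RA, Vo_eq_RA]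
  rw [wf_iff_RA] at hl hl'
  rcases (hCA m).2.2.2.2.2.2.2.2.2 l l' h with ⟨e, r, hr⟩ | ⟨p, e, e', r, r', h1, h2, h3⟩
  · rw [hr, Fd_append_RA]
    exact Fd_le_RA (fun c => delMC_RA L c) _ _
  · rw [h1] at hl ⊢
    rw [h2] at hl' ⊢
    rw [Fd_append_RA, Fd_append_RA, Fd_cons_RA (e := e')]
    refine (Fd_le_RA (fun c => delMC_RA L c) _ _).trans ?_
    refine cmp_RA hCA L (List.pairwise_append.1 hl.1).2.1
      (fun a ha => (hl.2 a (List.mem_append_right _ ha)).1)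
      (hl'.2 e' (List.mem_append_right _ List.mem_cons_self)).1 h3 _

/-- (9) at the next level -/
private theorem zv_RA (hCA : StCA) (L : Lev_RA τ f m) (r l : Cd (m + 1)) (s : Bool) (B : Set X)
    (hr : Cd.wf (m + 1) r) (hv : Cd.vd (m + 1) r) (hl : Cd.wf (m + 1) l) (h : l < r) :
    Zo τ f (m + 1) r s B ⊆ Vo τ f (m + 1) l B := by
  rw [vd_iff_RA] at hv
  obtain ⟨l₀, c, hrc, hvc⟩ := hv
  rw [Zo_last_RA hrc, Vo_eq_RA]
  rw [wf_iff_RA] at hr hl
  have hwc : Cd.wf m c := (hr.2 (toLex (c, 0)) (by rw [hrc]; simp)).1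
  have e1 : (ofLex (toLex (c, 0) : Cd m ×ₗ ℕ)).1 = c := rfl
  rw [e1]
  rcases (hCA m).2.2.2.2.2.2.2.2.2 l r h with ⟨e, q, hq⟩ | ⟨p, e, e', q, q', h1, h2, h3⟩
  · obtain ⟨q₂, b, hb⟩ := exists_last_RA e q
    rw [hb, ← List.append_assoc] at hq
    rw [hrc] at hq
    have h4 := (List.append_inj' hq rfl).1
    refine (ho_le_RA L c s _).trans ?_
    rw [h4, Fd_append_RA]
    exact Fd_le_RA (fun c => delMC_RA L c) _ _
  · rcases List.eq_nil_or_concat q' with hq' | ⟨q₂, b, hb⟩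
    · subst hq'
      rw [hrc] at h2
      have h4 := List.append_inj' h2 rfl
      have h5 : toLex (c, 0) = e' := by simpa using h4.2
      rw [h1, Fd_append_RA, h4.1]
      refine Fd_fix_RA (fun c => delMC_RA L c) (e :: q) (ho_le_RA L c s _) fun a ha => ?_
      refine hf_RA L s _ hwc hvc ?_
      rw [← h5, Prod.Lex.lt_iff] at h3
      have h6 : (ofLex e).1 < c := by
        rcases h3 with h3 | h3
        · exact h3
        · exact absurd h3.2 (Nat.not_lt_zero _)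
      rw [h1] at hl
      have hp := (List.pairwise_append.1 hl.1).2.1
      rcases List.mem_cons.1 ha with rfl | ha
      · exact h6
      · have h7 := (List.pairwise_cons.1 hp).1 a ha
        rw [Prod.Lex.le_iff] at h7
        rcases h7 with h7 | h7
        · exact h7.trans h6
        · exact h7.1.trans_lt h6
    · rw [hb, List.concat_eq_append, ← List.cons_append, ← List.append_assoc, hrc] at h2
      have h4 := (List.append_inj' h2 rfl).1
      refine (ho_le_RA L c s _).trans ?_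
      rw [h4, h1, Fd_append_RA, Fd_append_RA, Fd_cons_RA (e := e')]
      refine (Fd_le_RA (fun c => delMC_RA L c) _ _).trans ?_
      rw [h1] at hl
      refine cmp_RA hCA L (List.pairwise_append.1 hl.1).2.1
        (fun a ha => (hl.2 a (List.mem_append_right _ ha)).1) ?_ h3 _
      refine (hr.2 e' ?_).1
      rw [hrc, h4]
      simp

/-- (10) at the next level -/
private theorem vz_RA (L : Lev_RA τ f m) (r : Cd (m + 1)) (B : Set X) (hr : Cd.wf (m + 1) r)
    (hv : Cd.vd (m + 1) r) :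
    Vo τ f (m + 1) r B = Zo τ f (m + 1) r false B ∩ Zo τ f (m + 1) r true B := by
  rw [vd_iff_RA] at hv
  obtain ⟨l₀, c, hrc, hvc⟩ := hv
  rw [Zo_last_RA hrc, Zo_last_RA hrc, Vo_eq_RA, hrc, Fd_append_RA]
  rw [wf_iff_RA] at hr
  have hwc : Cd.wf m c := (hr.2 (toLex (c, 0)) (by rw [hrc]; simp)).1
  have e1 : (ofLex (toLex (c, 0) : Cd m ×ₗ ℕ)).1 = c := rfl
  have e2 : (ofLex (toLex (c, 0) : Cd m ×ₗ ℕ)).2 = 0 := rfl
  rw [Fd_cons_RA, e1, e2, Nat.cast_zero, opow_zero, it_one_RA (delMC_RA L c)]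
  generalize Fd_RA (del τ f m) l₀ B = Y
  change del τ f m c Y = _
  ext x
  rw [mem_del_RA, mem_inter_iff]
  constructor
  · intro hx
    exact ⟨hx.2 c ⟨hwc, hvc, le_refl _⟩ false, hx.2 c ⟨hwc, hvc, le_refl _⟩ true⟩
  · intro hx
    refine ⟨ho_le_RA L c false _ hx.1, fun c' hc' s => ?_⟩
    have hxs : ∀ s, x ∈ HomOp (τ (m + 1)) (Zo τ f m c s) Y := by
      intro s
      cases s
      · exact hx.1
      · exact hx.2
    rcases hc'.2.2.eq_or_lt with h | h
    · rw [h]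
      exact hxs s
    · refine ho_max_RA L c' s (ho_le_RA L c s Y) ?_ (hxs s)
      refine (ho_cl_RA L c s Y).trans ?_
      exact @closure_mono X (τ (m + 1)) _ _ (zz_RA L s s _ hc'.1 hc'.2.1 hwc hvc h)

/-- powers of `ω ^ y` -/
private theorem Fd_replicate_RA (L : Lev_RA τ f m) (c : Cd m) (y : ℕ) (Y : Set X) (k : ℕ) :
    Fd_RA (del τ f m) (List.replicate k (toLex (c, y) : Cd m ×ₗ ℕ)) Y =
      iter (del τ f m c) Y (ω ^ (y : Ordinal.{0}) * (k : Ordinal.{0})) := by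
  induction k generalizing Y with
  | zero =>
    rw [Nat.cast_zero, mul_zero, it_zero_RA (delMC_RA L c)]
    rfl
  | succ k ih =>
    rw [List.replicate_succ, Fd_cons_RA]
    have e1 : (ofLex (toLex (c, y) : Cd m ×ₗ ℕ)).1 = c := rfl
    have e2 : (ofLex (toLex (c, y) : Cd m ×ₗ ℕ)).2 = y := rfl
    rw [e1, e2, ih, ← it_add_RA (delMC_RA L c)]
    congr 1
    have e3 : ((k + 1 : ℕ) : Ordinal.{0}) = 1 + (k : Ordinal.{0}) := by
      rw [Nat.add_comm]
      push_cast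
      rfl
    rw [e3, mul_add, mul_one]

/-- (11) at the next level -/
private theorem lim_RA (hCA : StCA) (L : Lev_RA τ f m) (l : Cd (m + 1)) (B : Set X)
    (hl : Cd.wf (m + 1) l) (hv : ¬ Cd.vd (m + 1) l) (hb : l ≠ Cd.bot (m + 1)) (x : X)
    (hx : ∀ l', Cd.wf (m + 1) l' → l' < l → x ∈ Vo τ f (m + 1) l' B) :
    x ∈ Vo τ f (m + 1) l B := by
  obtain ⟨_, cbot, wbot, vbot, cv, e6, e7, e8, e9, e10⟩ := hCA m
  obtain ⟨l₀, c, n, rfl⟩ := e9 l hb
  obtain ⟨w0, wc, cb, hlt⟩ := e6 l₀ c n hl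
  have hY : x ∈ Fd_RA (del τ f m) (Cd.L l₀) B := hx l₀ w0 hlt
  have hVe : ∀ (c : Cd m) (n : ℕ), Vo τ f (m + 1) (l₀.ext c n) B =
      iter (del τ f m c) (Fd_RA (del τ f m) (Cd.L l₀) B) (ω ^ (n : Ordinal.{0})) := by
    intro c n
    rw [Vo_eq_RA]
    have e1 : Cd.L (l₀.ext c n) = Cd.L l₀ ++ [toLex (c, n)] := rfl
    rw [e1, Fd_append_RA]
    rfl
  rw [hVe]
  cases n with
  | zero =>
    have hvc : ¬ Cd.vd m c := fun h => hv ⟨Cd.L l₀, c, rfl, h⟩
    rw [Nat.cast_zero, opow_zero, it_one_RA (delMC_RA L c), mem_del_RA]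
    refine ⟨hY, fun c' hc' s => ?_⟩
    have hne : c' ≠ c := by
      rintro rfl
      exact hvc hc'.2.1
    have hlt' : c' < c := lt_of_le_of_ne hc'.2.2 hne
    have hb' : c' ≠ Cd.bot m := by
      rintro rfl
      exact vbot hc'.2.1
    have hpl : (toLex (c', 0) : Cd m ×ₗ ℕ) < toLex (c, 0) := by
      rw [Prod.Lex.lt_iff]
      exact Or.inl hlt'
    have h1 := hx (l₀.ext c' 0) (e7 l₀ c c' 0 0 hl hc'.1 hb' hpl.le) (e8 l₀ c c' 0 0 hpl)
    rw [hVe, Nat.cast_zero, opow_zero, it_one_RA (delMC_RA L c'), mem_del_RA] at h1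
    exact h1.2 c' ⟨hc'.1, hc'.2.1, le_refl _⟩ s
  | succ y =>
    have e3 : ((y + 1 : ℕ) : Ordinal.{0}) = Order.succ (y : Ordinal.{0}) := by
      rw [Order.succ_eq_add_one]
      push_cast
      rfl
    have hlimit : Order.IsSuccLimit (ω ^ ((y + 1 : ℕ) : Ordinal.{0})) := by
      rw [e3, opow_succ]
      exact Ordinal.isSuccLimit_mul_right (opow_pos _ omega0_pos) isSuccLimit_omega0
    rw [it_lim_RA (delMC_RA L c) _ hlimit, mem_iInter]
    rintro ⟨β, hβ⟩
    have hβ' : β < ω ^ (y : Ordinal.{0}) * ω := by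
      have h1 : β < ω ^ ((y + 1 : ℕ) : Ordinal.{0}) := hβ
      rwa [e3, opow_succ] at h1
    obtain ⟨γ, hγ, hβγ⟩ := (Ordinal.lt_mul_iff_of_isSuccLimit isSuccLimit_omega0).1 hβ'
    obtain ⟨k, rfl⟩ := lt_omega0.1 hγ
    refine it_anti_RA (delMC_RA L c) _ hβγ.le ?_
    rw [← Fd_replicate_RA L, ← Fd_append_RA]
    have hpl : (toLex (c, y) : Cd m ×ₗ ℕ) < toLex (c, y + 1) := by
      rw [Prod.Lex.lt_iff]
      exact Or.inr ⟨rfl, Nat.lt_succ_self y⟩
    refine hx (Cd.of (Cd.L l₀ ++ List.replicate k (toLex (c, y)))) ?_ ?_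
    · rw [wf_iff_RA] at hl w0 ⊢
      have e4 : Cd.L (l₀.ext c (y + 1)) = Cd.L l₀ ++ [toLex (c, y + 1)] := rfl
      rw [e4] at hl
      refine ⟨?_, ?_⟩
      · change List.Pairwise _ (Cd.L l₀ ++ List.replicate k (toLex (c, y)))
        rw [List.pairwise_append]
        refine ⟨w0.1, ?_, ?_⟩
        · rw [List.pairwise_replicate]
          exact Or.inr (le_refl _)
        · intro a ha b hb'
          rw [List.eq_of_mem_replicate hb']
          exact hpl.le.trans ((List.pairwise_append.1 hl.1).2.2 a ha _ (List.mem_singleton_self _))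
      · intro e he
        have he' : e ∈ Cd.L l₀ ++ List.replicate k (toLex (c, y)) := he
        rcases List.mem_append.1 he' with he' | he'
        · exact w0.2 e he'
        · rw [List.eq_of_mem_replicate he']
          exact ⟨wc, cb⟩
    · change List.Lex (· < ·) (Cd.L l₀ ++ List.replicate k (toLex (c, y)))
        (Cd.L l₀ ++ [toLex (c, y + 1)])
      refine List.Lex.append_left _ ?_ _
      cases k with
      | zero => exact List.Lex.nil
      | succ k => exact List.Lex.rel hpl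

private theorem lev_succ_RA (hCA : StCA) (L : Lev_RA τ f m) : Lev_RA τ f (m + 1) where
  vm := fun c A B hAB => Fd_mono_RA (fun c => delMC_RA L c) _ hAB
  vl := fun c B => Fd_le_RA (fun c => delMC_RA L c) _ _
  zm := fun c s A B hAB => ho_mono_RA L _ s (Fd_mono_RA (fun c => delMC_RA L c) _ hAB)
  zl := fun c s B => (ho_le_RA L _ s _).trans (Fd_le_RA (fun c => delMC_RA L c) _ _)
  va := va_RA hCA L
  zv := zv_RA hCA L
  vz := vz_RA L
  lim := lim_RA hCA L

end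

private theorem lev_zero_RA {X : Type} (τ : ℕ → TopologicalSpace X) (f : X → Bool) :
    Lev_RA τ f 0 where
  vm := fun c A B hAB x hx => ⟨hAB hx.1, hx.2⟩
  vl := fun c B x hx => hx.1
  zm := fun c s A B hAB x hx => ⟨hAB hx.1, hx.2⟩
  zl := fun c s B x hx => hx.1
  va := by
    intro c c' B _ _ h x hx
    refine ⟨hx.1, ?_⟩
    have h1 : Cd.B c' = false := hx.2
    have h2 : Cd.B c ≤ Cd.B c' := h
    rw [h1] at h2
    exact le_bot_iff.1 h2
  zv := by
    intro r c s B _ h2 _ h x hx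
    refine ⟨hx.1, ?_⟩
    have h3 : Cd.B r = true := h2
    have h4 : Cd.B c < Cd.B r := h
    rw [h3] at h4
    revert h4
    cases Cd.B c
    · intro _; rfl
    · intro h4; exact absurd h4 (lt_irrefl _)
  vz := by
    intro r B _ h2
    have h3 : Cd.B r = true := h2
    ext x
    constructor
    · intro hx
      have h4 : Cd.B r = false := hx.2
      rw [h3] at h4
      exact absurd h4 (by decide)
    · intro hx
      have h4 : f x = false := hx.1.2
      have h5 : f x = true := hx.2.2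
      rw [h4] at h5
      exact absurd h5 (by decide)
  lim := by
    intro c B _ h2 h3
    exfalso
    have h4 : ¬ (Cd.B c = true) := h2
    have h5 : Cd.B c ≠ false := h3
    revert h4 h5
    cases Cd.B c
    · intro _ h; exact h rfl
    · intro h _; exact h rfl

private theorem lev_RA (hCA : StCA) {X : Type} (τ : ℕ → TopologicalSpace X) (f : X → Bool)
    (m : ℕ) : Lev_RA τ f m := by
  induction m with
  | zero => exact lev_zero_RA τ f
  | succ m ih => exact lev_succ_RA hCA ih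

/-- **RA (6.1)** -/
theorem hRA (hCA : StCA) : StRA := by
  intro X τ f m
  have L := lev_RA hCA τ f m
  refine ⟨L.vm, L.vl, L.zm, L.zl, fun c => (delMC_RA L c).m, fun c => (delMC_RA L c).l, ?_, L.va,
    L.zv, L.vz, L.lim, ?_, ?_, ?_⟩
  · intro c c' B h x hx
    rw [mem_del_RA] at hx ⊢
    exact ⟨hx.1, fun c₁ hc₁ s => hx.2 c₁ ⟨hc₁.1, hc₁.2.1, hc₁.2.2.trans h⟩ s⟩
  · intro r s B _ _
    exact ho_cl_RA L r s B
  · intro r c s B h1 h2 _ h
    exact hf_RA L s B h1 h2 h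
  · intro r r' s s' B h1 h2 h3 h4 h
    exact zz_RA L s s' B h1 h2 h3 h4 h

end Pool.Agent.Helper24.WH

end

section

/-!
# PROJECT WH (MP_76577a_lc), module RI: from rich systems of finite type to rich structures
-/

set_option autoImplicit false

namespace Pool.Agent.Helper24.WH

open Set TopologicalSpace Topology
open Ordinal hiding univ

private theorem preimage_RI {X S : Type} (h : S → Bool) (g : X → S) (s : Bool) :
    (h ∘ g) ⁻¹' {s} = ⋃ t ∈ {t : S | h t = s}, g ⁻¹' {t} := by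
  ext x
  simp only [mem_preimage, Function.comp_apply, mem_singleton_iff, mem_iUnion, mem_ofPred_eq,
    exists_prop, exists_eq_right']

theorem hRI (h1 : StVP) (h2 : StUS) (h3 : StTM) : StRI := by
  intro X S _ n N τ g h P hS hN hN1
  obtain ⟨hVP, hZP, -, -⟩ := h1 S h X n N τ g P hS hN hN1
  have hfib : ∀ s, Clp (τ 0) ((h ∘ g) ⁻¹' {s}) := by
    intro s
    rw [preimage_RI]
    let _ := τ 0
    exact (Set.toFinite {t : S | h t = s}).isClopen_biUnion fun t _ => hS.fib t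
  have hfP : ∀ B ∈ P 0, ∀ s, B ∩ (h ∘ g) ⁻¹' {s} ∈ P 0 := by
    intro B hB s
    rw [preimage_RI, inter_iUnion₂]
    have key : ∀ T : Set S, T.Finite → (⋃ t ∈ T, B ∩ g ⁻¹' {t}) ∈ P 0 := by
      intro T hT
      induction T, hT using Set.Finite.induction_on with
      | empty =>
        rw [biUnion_empty]
        exact hS.empty 0
      | insert _ _ ih =>
        rw [biUnion_insert]
        exact hS.union 0 _ (hS.fibP B hB _) _ ih
    exact key _ (Set.toFinite _)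
  exact {
    tow := hS.tow
    fib := hfib
    top := hS.top
    anti := hS.anti
    cl := hS.cl
    op := hS.op
    op0 := hS.op0
    basis := hS.basis
    cnt := hS.cnt
    univ := hS.univ
    empty := hS.empty
    inter := hS.inter
    union := hS.union
    clo := hS.clo
    fP := hfP
    VP := hVP
    ZP := hZP
    us := h2 X S n N τ g h P hS hN hN1
    tm := h3 X S n N τ g h P hS hN hN1
    pol := hS.pol 0 (Nat.zero_le n) }

end Pool.Agent.Helper24.WH

end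

section

/-!
# Project WH, module SG
-/

set_option autoImplicit false

namespace Pool.Agent.Helper24.WH

theorem hSG (h1 : StSA) (h2 : StSB) : StSG := by
  intro A S _ _ n g Ga hyp
  have hst : ∀ i : Ordinal.{0}, StageOK n g i := by
    intro i
    induction i using WellFoundedLT.induction with
    | ind i ih =>
      exact h2 A S n g Ga hyp i fun N h hN => h1 A S n g Ga hyp N h i ih hN
  exact ⟨hst, fun N h i hN => h1 A S n g Ga hyp N h i (fun j _ => hst j) hN⟩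

end Pool.Agent.Helper24.WH

end

section

/-!
# PROJECT WH, module UZ: unfolding rules
-/

set_option autoImplicit false

namespace Pool.Agent.Helper24.WH

open Set TopologicalSpace Topology
open Ordinal hiding univ

private theorem lastc_UZ {m : ℕ} (l : List (Cd m ×ₗ ℕ)) (c : Cd m) (x : ℕ) :
    lastc (l ++ [toLex (c, x)]) = c := by
  unfold lastc
  rw [List.getLast?_concat]
  rfl

/-- unfolding rules -/
theorem hUZ : StUZ := by
  intro X τ f
  have h1 : ∀ B, Vo τ f 0 (Cd.bot 0) B = B := by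
    intro B
    show {x ∈ B | (false : Bool) = false} = B
    ext x
    simp
  have h4 : ∀ m B, Vo τ f (m + 1) (Cd.bot (m + 1)) B = B := fun m B => rfl
  refine ⟨h1, ?_, fun c s B => rfl, h4, ?_, ?_, ?_, ?_, ?_⟩
  · intro c B hc
    have hc' : Cd.B c = true := hc
    show {x ∈ B | Cd.B c = false} = ∅
    ext x
    rw [hc']
    simp
  · intro m B
    cases m with
    | zero => exact h1 B
    | succ m => exact h4 m B
  · intro m l c x B
    show foldV (τ (m + 1)) m (VZ τ f m).2 (Cd.L l ++ [toLex (c, x)]) B = _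
    unfold foldV
    rw [List.foldl_append]
    rfl
  · intro m l r B
    show foldV (τ (m + 1)) m (VZ τ f m).2 (l ++ r) B = _
    unfold foldV
    rw [List.foldl_append]
    rfl
  · intro m e r B
    rfl
  · intro m l c x s B
    show HomOp (τ (m + 1)) ((VZ τ f m).2 (lastc (Cd.L l ++ [toLex (c, x)])) s)
        (foldV (τ (m + 1)) m (VZ τ f m).2 ((Cd.L l ++ [toLex (c, x)]).dropLast) B) = _
    rw [lastc_UZ, List.dropLast_concat]
    rfl

end Pool.Agent.Helper24.WH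

end

section

/-!
# PROJECT WH, module VP: closure of the classes `P` under the rank operators
-/

set_option autoImplicit false

namespace Pool.Agent.Helper24.WH

open Set TopologicalSpace Topology
open Ordinal hiding univ

private theorem fin_union_VP {X ι : Type*} {P : Set (Set X)} (he : ∅ ∈ P)
    (hu : ∀ B ∈ P, ∀ B' ∈ P, B ∪ B' ∈ P) (F : ι → Set X) (C : Set ι) (hC : C.Finite) :
    (∀ L ∈ C, F L ∈ P) → (⋃ L ∈ C, F L) ∈ P := by
  refine Set.Finite.induction_on C hC ?_ ?_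
  · intro _
    simpa using he
  · intro a s _ _ ih h
    rw [Set.biUnion_insert]
    exact hu _ (h a (Set.mem_insert _ _)) _ (ih fun L hL => h L (Set.mem_insert_of_mem _ hL))

private theorem del_bot_VP (CA : StCA) {X : Type} (τ : ℕ → TopologicalSpace X) (f : X → Bool) (m : ℕ)
    (Y : Set X) : del τ f m (Cd.bot m) Y = Y := by
  refine Set.Subset.antisymm Set.inter_subset_left ?_
  intro x hx
  refine ⟨hx, ?_⟩
  rw [Set.mem_iInter₂]
  intro c' hc'
  exfalso
  obtain ⟨_, h1, _, h2, _⟩ := CA m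
  have : c' = Cd.bot m := le_antisymm hc'.2.2 (h1 c')
  exact h2 (this ▸ hc'.2.1)

private theorem iter_one_VP (IT : StIT) {X : Type} (d : Set X → Set X) (h1 : ∀ A B, A ⊆ B → d A ⊆ d B)
    (h2 : ∀ B, d B ⊆ B) (B : Set X) : iter d B (ω ^ ((0 : ℕ) : Ordinal.{0})) = d B := by
  obtain ⟨i0, i1, _⟩ := IT X d h1 h2
  have : (ω ^ ((0 : ℕ) : Ordinal.{0}) : Ordinal.{0}) = 0 + 1 := by simp
  rw [this, i1, i0]

theorem hVP (RP : StRP) (UZ : StUZ) (CA : StCA) (IT : StIT) (ZM : StZM) : StVP := by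
  intro S _ h X n N τ g P hS hF hN
  have hIT0 : ∀ m, (∀ B : Set X, iter (del τ (h ∘ g) m (Cd.bot m)) B = fun _ => B) := by
    intro m B
    funext α
    have e : del τ (h ∘ g) m (Cd.bot m) = fun Y => Y := by
      funext Y
      exact del_bot_VP CA τ (h ∘ g) m Y
    rw [e]
    obtain ⟨_, _, _, _, _, _, _, i7, _⟩ := IT X (fun Y => Y) (fun A B hh => hh) (fun B => le_rfl)
    exact i7 B α le_rfl
  have hfin : ∀ (M : ℕ) {ι : Type} (F : ι → Set X) (C : Set ι), C.Finite → (∀ L ∈ C, F L ∈ P M) →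
      (⋃ L ∈ C, F L) ∈ P M := fun M ι F C hC =>
    fin_union_VP (hS.empty M) (fun B hB B' hB' => hS.union M B hB B' hB') F C hC
  -- third claim
  have h3 : ∀ m, m + 1 ≤ n → ∀ c : Cd m, Cd.wf m c → ∀ (x : ℕ), ∀ B ∈ P (m + 1),
      iter (del τ (h ∘ g) m c) B (ω ^ (x : Ordinal.{0})) ∈ P (m + 1) := by
    intro m hm c hc x B hB
    by_cases hcb : c = Cd.bot m
    · rw [hcb, hIT0 m B]
      exact hB
    · obtain ⟨C, hC, hC2⟩ := (RP S h X τ g hS.tow hS.fib m).2.2 c hc hcb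
      rw [(hC2 B (hS.cl (m + 1) hm B hB)).2]
      exact hfin (m + 1) _ C hC fun L _ => hS.dd m hm L x B hB
  -- first claim
  have h1 : ∀ m, m ≤ n → ∀ c : Cd m, Cd.wf m c → ∀ B ∈ P m, Vo τ (h ∘ g) m c B ∈ P m := by
    intro m
    cases m with
    | zero =>
      intro _ c _ B hB
      by_cases hcv : Cd.vd 0 c
      · rw [(UZ X τ (h ∘ g)).2.1 c B hcv]
        exact hS.empty 0
      · have : c = Cd.bot 0 := by
          show c = false
          have h4 : ¬ (Cd.B c = true) := hcv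
          exact Bool.eq_false_iff.2 h4
        rw [this, (UZ X τ (h ∘ g)).1 B]
        exact hB
    | succ m =>
      intro hm c
      have key : ∀ l : List (Cd m ×ₗ ℕ), Cd.wf (m + 1) (Cd.of l) → ∀ B ∈ P (m + 1),
          Vo τ (h ∘ g) (m + 1) (Cd.of l) B ∈ P (m + 1) := by
        intro l
        induction l using List.reverseRecOn with
        | nil =>
          intro _ B hB
          have := (UZ X τ (h ∘ g)).2.2.2.1 m B
          exact this ▸ hB
        | append_singleton l e ih =>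
          intro hwf B hB
          obtain ⟨_, _, _, _, _, h6, _⟩ := CA m
          have e1 : Cd.of (l ++ [e]) = Cd.ext (Cd.of l) (ofLex e).1 (ofLex e).2 := rfl
          rw [e1] at hwf ⊢
          obtain ⟨w1, w2, _, _⟩ := h6 (Cd.of l) (ofLex e).1 (ofLex e).2 hwf
          rw [(UZ X τ (h ∘ g)).2.2.2.2.2.1 m (Cd.of l) (ofLex e).1 (ofLex e).2 B]
          exact h3 m hm _ w2 _ _ (ih w1 B hB)
      exact key c
  refine ⟨h1, ?_, h3, ?_⟩
  · -- second claim
    intro m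
    cases m with
    | zero =>
      intro _ c _ _ s B hB
      rw [(UZ X τ (h ∘ g)).2.2.1 c s B]
      have e1 : B ∩ (h ∘ g) ⁻¹' {s} = ⋃ t ∈ {t : S | h t = s}, (B ∩ g ⁻¹' {t}) := by
        ext x
        simp only [Set.mem_inter_iff, Set.mem_preimage, Set.mem_singleton_iff, Function.comp_apply,
          Set.mem_iUnion, exists_prop]
        constructor
        · rintro ⟨a1, a2⟩
          exact ⟨g x, a2, a1, rfl⟩
        · rintro ⟨t, a1, a2, a3⟩
          refine ⟨a2, ?_⟩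
          rw [a3]
          exact a1
      rw [e1]
      exact hfin 0 _ _ (Set.toFinite _) fun t _ => hS.fibP B hB t
    | succ m =>
      intro hm c hwf hvd s B hB
      obtain ⟨l₀, c', hc1, hc2⟩ := hvd
      have e1 : c = Cd.ext (Cd.of l₀) c' 0 := hc1
      obtain ⟨_, _, _, _, _, h6, _⟩ := CA m
      rw [e1] at hwf
      obtain ⟨w1, w2, w3, _⟩ := h6 (Cd.of l₀) c' 0 hwf
      rw [e1, (UZ X τ (h ∘ g)).2.2.2.2.2.2.2.2 m (Cd.of l₀) c' 0 s B]
      have hY := h1 (m + 1) hm (Cd.of l₀) w1 B hB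
      obtain ⟨M, hM, hM2⟩ := (RP S h X τ g hS.tow hS.fib m).2.1 c' s
      rw [hM2 _ (hS.cl (m + 1) hm _ hY)]
      refine hfin (m + 1) _ M hM fun t _ => ?_
      have hd := (ZM X S τ g hS.tow hS.fib m).2.2 (fun _ => t)
      have h7 := hS.dd m hm (fun _ => t) 0 _ hY
      rw [iter_one_VP IT _ hd.mono hd.le] at h7
      have h8 : dL τ g m (fun _ => t) (Vo τ (h ∘ g) (m + 1) (Cd.of l₀) B) =
          hom τ g m t (Vo τ (h ∘ g) (m + 1) (Cd.of l₀) B) := by
        unfold dL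
        rw [Set.iInter_const]
      rwa [h8] at h7
  · -- fourth claim
    intro m hm c hc B hB
    by_cases hcb : c = Cd.bot m
    · rw [hcb, hIT0 m B, del_bot_VP CA]
    · obtain ⟨C, hC, hC2⟩ := (RP S h X τ g hS.tow hS.fib m).2.2 c hc hcb
      have hK := h3 m hm c hc N B hB
      have hcl := hS.cl (m + 1) hm _ hK
      rw [(hC2 _ hcl).1]
      have e2 := (hC2 B (hS.cl (m + 1) hm B hB)).2 (N : Ordinal.{0})
      intro x hx
      rw [e2] at hx
      rw [Set.mem_iUnion₂] at hx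
      obtain ⟨L, hL, hx2⟩ := hx
      rw [Set.mem_iUnion₂]
      refine ⟨L, hL, ?_⟩
      have h9 := hF m hm L B hB hx2
      refine ((ZM X S τ g hS.tow hS.fib m).2.2 L).mono _ _ ?_ h9
      rw [e2]
      exact Set.subset_biUnion_of_mem (u := fun L => iter (dL τ g m L) B (ω ^ (N : Ordinal.{0}))) hL

end Pool.Agent.Helper24.WH

end
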