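import Pool.Agent.Helper24.WH.St1
import Pool.Agent.Helper24.WH.St2
import Pool.Agent.Helper24.WH.St3
import Pool.Agent.Helper24.WH.St4
import Pool.Agent.Helper24.WH.St5
import Pool.Agent.Helper24.WH.St6
import Pool.Agent.Helper76.WHC.B0

set_option autoImplicit false

section

set_option autoImplicit false

namespace Pool.Agent.Helper24.WH

open Set TopologicalSpace Ordinal Topology

/-- finite basis property for reverse inclusion -/
private lemma fb_CT {X : Type} {𝓕 : Set (Set X)}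
    (hw : ∀ f : ℕ → Set X, (∀ i, f i ∈ 𝓕) → ∃ i j, i < j ∧ f j ⊆ f i)
    (𝓐 : Set (Set X)) (hA : 𝓐 ⊆ 𝓕) :
    ∃ 𝓑 : Set (Set X), 𝓑.Finite ∧ 𝓑 ⊆ 𝓐 ∧ ∀ F ∈ 𝓐, ∃ G ∈ 𝓑, F ⊆ G := by
  by_contra hcon
  have h : ∀ s : Finset (Set X), (∀ x ∈ s, x ∈ 𝓐) → ∃ y, y ∈ 𝓐 ∧ ∀ x ∈ s, ¬ y ⊆ x := by
    intro s hs
    by_contra h2
    apply hcon
    refine ⟨↑s, s.finite_toSet, hs, ?_⟩
    intro F hF
    by_contra h3
    apply h2
    refine ⟨F, hF, ?_⟩
    intro x hx hFx
    exact h3 ⟨x, hx, hFx⟩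
  obtain ⟨f, hf1, hf2⟩ := exists_seq_of_forall_finset_exists (fun x => x ∈ 𝓐)
    (fun x y => ¬ y ⊆ x) h
  obtain ⟨i, j, hij, hsub⟩ := hw f fun i => hA (hf1 i)
  exact hf2 i j hij hsub

/-- a family of closed sets of a second countable space, well quasi ordered by reverse inclusion,
is countable -/
theorem hCT : StCT := by
  intro X τ hτ 𝓕 hcl hw
  letI := τ
  haveI := hτ
  have hB := isBasis_countableBasis X
  -- the finite sets of minimal elements
  have h1 : ∀ b : Set X, ∃ 𝓑 : Set (Set X), 𝓑.Finite ∧ 𝓑 ⊆ {F | F ∈ 𝓕 ∧ Disjoint b F} ∧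
      ∀ F ∈ {F | F ∈ 𝓕 ∧ Disjoint b F}, ∃ G ∈ 𝓑, F ⊆ G :=
    fun b => fb_CT hw _ fun F hF => hF.1
  choose M hMf hMs hMe using h1
  let MM : Set (Set X) := ⋃ b ∈ countableBasis X, M b
  have hMM : MM.Countable :=
    (countable_countableBasis X).biUnion fun b _ => (hMf b).countable
  have hMMF : MM ⊆ 𝓕 := by
    intro G hG
    simp only [MM, mem_iUnion] at hG
    obtain ⟨b, _, hb⟩ := hG
    exact (hMs b hb).1
  have h2 : ∀ F : Set X, ∃ 𝓑 : Set (Set X), 𝓑.Finite ∧ 𝓑 ⊆ {G | G ∈ MM ∧ ¬ F ⊆ G} ∧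
      ∀ G ∈ {G | G ∈ MM ∧ ¬ F ⊆ G}, ∃ W ∈ 𝓑, G ⊆ W :=
    fun F => fb_CT hw _ fun G hG => hMMF hG.1
  choose N hNf hNs hNe using h2
  -- `F` is the intersection of the members of `MM` containing it
  have h3 : ∀ F ∈ 𝓕, ∀ x, x ∉ F → ∃ G ∈ MM, F ⊆ G ∧ x ∉ G := by
    intro F hF x hx
    have ho : IsOpen Fᶜ := (hcl F hF).isOpen_compl
    obtain ⟨b, hb, hxb, hbF⟩ := hB.exists_subset_of_mem_open (a := x) hx ho
    have hd : Disjoint b F := Set.disjoint_left.2 fun y hy hyF => hbF hy hyF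
    obtain ⟨G, hG, hFG⟩ := hMe b F ⟨hF, hd⟩
    refine ⟨G, ?_, hFG, ?_⟩
    · simp only [MM, mem_iUnion]
      exact ⟨b, hb, hG⟩
    · exact Set.disjoint_left.1 (hMs b hG).2 hxb
  have h4 : ∀ F ∈ 𝓕, ∀ F' ∈ 𝓕, N F = N F' → F' ⊆ F := by
    intro F hF F' hF' hN x hx
    by_contra hxF
    obtain ⟨G, hG, hFG, hxG⟩ := h3 F hF x hxF
    have h5 : ¬ F' ⊆ G := fun h => hxG (h hx)
    obtain ⟨W, hW, hGW⟩ := hNe F' G ⟨hG, h5⟩
    rw [← hN] at hW
    exact (hNs F hW).2 (hFG.trans hGW)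
  have h6 : {t : Set (Set X) | t.Finite ∧ t ⊆ MM}.Countable := countable_setOf_finite_subset hMM
  refine MapsTo.countable_of_injOn (f := N) (t := {t : Set (Set X) | t.Finite ∧ t ⊆ MM})
    ?_ ?_ h6
  · intro F _
    exact ⟨hNf F, fun G hG => (hNs F hG).1⟩
  · intro F hF F' hF' hN
    exact Subset.antisymm (h4 F' hF' F hF hN.symm) (h4 F hF F' hF' hN)

end Pool.Agent.Helper24.WH

end

section

/-!
# PROJECT WH (MP_76577a_lc), module CTB: combination at height `M+1`
-/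

set_option autoImplicit false

namespace Pool.Agent.Helper24.WH

open Set TopologicalSpace Topology
open Ordinal hiding univ

open Classical in
/-- the combined strategy: `σB` while the source set meets `B`, the waiting answer `W` afterwards -/
private noncomputable def sg_CTB {X Y : Type} (B : Set X) (Q : Set Y) (σB : Hist X Y → Set Y) (W : Set Y → Set Y) :
    Hist X Y → Set Y
  | [] => Q
  | mv :: h => if (mv.1 ∩ B).Nonempty then σB (mv :: h) else W (mv.2 ∩ sg_CTB B Q σB W h)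

private theorem sg_nil_CTB {X Y : Type} (B : Set X) (Q : Set Y) (σB : Hist X Y → Set Y) (W : Set Y → Set Y) :
    sg_CTB B Q σB W [] = Q := rfl

private theorem sg_pos_CTB {X Y : Type} (B : Set X) (Q : Set Y) (σB : Hist X Y → Set Y) (W : Set Y → Set Y)
    (mv : Set X × Set Y) (h : Hist X Y) (hp : (mv.1 ∩ B).Nonempty) :
    sg_CTB B Q σB W (mv :: h) = σB (mv :: h) := by
  simp only [sg_CTB]
  exact if_pos hp

private theorem sg_neg_CTB {X Y : Type} (B : Set X) (Q : Set Y) (σB : Hist X Y → Set Y) (W : Set Y → Set Y)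
    (mv : Set X × Set Y) (h : Hist X Y) (hp : ¬ (mv.1 ∩ B).Nonempty) :
    sg_CTB B Q σB W (mv :: h) = W (mv.2 ∩ sg_CTB B Q σB W h) := by
  rw [sg_CTB]
  exact if_neg hp

/-- while the source set meets `B`, the history is legal against `σB` and the answers agree -/
private theorem sg_agree_CTB {X Y : Type} (P : Set (Set X)) (A B : Set X) (τ' : TopologicalSpace Y) (A' Q : Set Y)
    (σB : Hist X Y → Set Y) (W : Set Y → Set Y) (h0 : σB [] = Q) :
    ∀ h : Hist X Y, Legal P A τ' A' (sg_CTB B Q σB W) h → (lastO h ∩ B).Nonempty →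
      Legal P B τ' A' σB h ∧ sg_CTB B Q σB W h = σB h := by
  intro h
  induction h with
  | nil =>
    intro _ _
    exact ⟨trivial, by rw [sg_nil_CTB, h0]⟩
  | cons mv h ih =>
    intro hl hB
    obtain ⟨hl1, hP, hsub, hA, hop, hne⟩ := hl
    have hB' : (mv.1 ∩ B).Nonempty := hB
    have hB2 : (lastO h ∩ B).Nonempty := hB'.mono (inter_subset_inter_left _ hsub)
    obtain ⟨hl2, he⟩ := ih hl1 hB2
    refine ⟨⟨hl2, hP, hsub, hB', hop, ?_⟩, sg_pos_CTB _ _ _ _ _ _ hB'⟩
    rw [← he]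
    exact hne

private theorem anti_CTB {X : Type} (P : ℕ → Set (Set X)) (ha : ∀ M, P (M + 1) ⊆ P M) : ∀ M, P M ⊆ P 0 := by
  intro M
  induction M with
  | zero => exact Subset.rfl
  | succ M ih => exact (ha M).trans ih

theorem hCTB (hSH : StSH) (hSW : StSW) (hRX : StRX) (hRB : StRB) : StCTB := by
  intro X A₂ n τ P f τ' P' f' hR hR' M hMn A hA A' hA' H' hH' Q hQ γ ρ hγ hρ hγρ hHA hcl hσB hIH
  obtain ⟨σB, hσ0, hσW, hσI⟩ := hσB
  obtain ⟨hVD, hZD, -, -⟩ := hRB X τ f hR.tow hR.fib (M + 1)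
  have hBA : Vo τ f (M + 1) γ A ⊆ A := (hVD γ).le A
  have hH0 : H' ∈ P' 0 := anti_CTB P' hR'.rich.anti (M + 1) hH'
  -- the waiting answers
  have hWex : ∀ U : Set (Tre A₂), ∃ V : Set (Tre A₂), IsOpen[τ' (M + 1)] U → (U ∩ H').Nonempty →
      V ∈ P' (M + 2) ∧ V ⊆ U ∧ (V ∩ H').Nonempty ∧ V ⊆ closure[τ' (M + 2)] (V ∩ H') := by
    intro U
    by_cases hU : IsOpen[τ' (M + 1)] U ∧ (U ∩ H').Nonempty
    · obtain ⟨hUo, z, hzU, hzH⟩ := hU
      obtain ⟨Q₁, hQ1, hz1, hQU, -, hQc⟩ := hSH A₂ n τ' P' f' hR' (M + 1) hMn H' hH0 z hzH U hUo hzU 0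
      exact ⟨Q₁, fun _ _ => ⟨hQ1, hQU, ⟨z, hz1, hzH⟩, hQc⟩⟩
    · exact ⟨U, fun h1 h2 => absurd ⟨h1, h2⟩ hU⟩
  choose W hW using hWex
  -- invariant and legal answers
  have hinv : ∀ h : Hist X (Tre A₂),
      Legal (P (M + 2)) A (τ' (M + 2)) A' (sg_CTB (Vo τ f (M + 1) γ A) Q σB W) h →
      sg_CTB (Vo τ f (M + 1) γ A) Q σB W h ∈ P' (M + 2) ∧
        A' ∩ sg_CTB (Vo τ f (M + 1) γ A) Q σB W h ⊆
          closure[τ' (M + 2)] (sg_CTB (Vo τ f (M + 1) γ A) Q σB W h ∩ H') ∧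
        ∀ mv h', h = mv :: h' →
          sg_CTB (Vo τ f (M + 1) γ A) Q σB W h ⊆ mv.2 ∩ sg_CTB (Vo τ f (M + 1) γ A) Q σB W h' ∧
          (sg_CTB (Vo τ f (M + 1) γ A) Q σB W h ∩ A').Nonempty := by
    intro h
    induction h with
    | nil =>
      intro _
      refine ⟨hQ, hcl, ?_⟩
      intro mv h' he
      exact absurd he (by simp)
    | cons mv h ih =>
      intro hl
      obtain ⟨ihP, ihc, -⟩ := ih hl.1
      by_cases hp : (mv.1 ∩ Vo τ f (M + 1) γ A).Nonempty
      · -- the case of `σB`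
        obtain ⟨hlB, heq⟩ := sg_agree_CTB (P (M + 2)) A (Vo τ f (M + 1) γ A) (τ' (M + 2)) A' Q σB W hσ0 (mv :: h) hl hp
        have hp2 : (lastO h ∩ Vo τ f (M + 1) γ A).Nonempty := hp.mono (inter_subset_inter_left _ hl.2.2.1)
        obtain ⟨-, heq2⟩ := sg_agree_CTB (P (M + 2)) A (Vo τ f (M + 1) γ A) (τ' (M + 2)) A' Q σB W hσ0 h hl.1 hp2
        obtain ⟨hm1, hm2, hm3⟩ := hσW.move mv h hlB
        refine ⟨?_, ?_, ?_⟩
        · rw [heq]; exact hm1
        · rw [heq]; exact hσI (mv :: h) hlB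
        · intro mv' h' he
          have e1 : mv = mv' := (List.cons.inj he).1
          have e2 : h = h' := (List.cons.inj he).2
          subst e1; subst e2
          rw [heq, heq2]
          exact ⟨hm2, hm3⟩
      · -- the waiting case
        obtain ⟨hl1, hP, hsub, hAne, hop, y, ⟨hy1, hy2⟩, hyA⟩ := hl
        have hUo : IsOpen[τ' (M + 1)] (mv.2 ∩ sg_CTB (Vo τ f (M + 1) γ A) Q σB W h) := by
          have o1 : IsOpen[τ' (M + 1)] mv.2 := hR'.rich.tow.mono (M + 1) _ hop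
          have o2 : IsOpen[τ' (M + 1)] (sg_CTB (Vo τ f (M + 1) γ A) Q σB W h) := hR'.rich.op (M + 1) hMn _ ihP
          exact @IsOpen.inter _ (τ' (M + 1)) _ _ o1 o2
        have hUne : ((mv.2 ∩ sg_CTB (Vo τ f (M + 1) γ A) Q σB W h) ∩ H').Nonempty := by
          have hyc := ihc ⟨hyA, hy2⟩
          have := (@mem_closure_iff _ (τ' (M + 2)) _ _).1 hyc mv.2 hop hy1
          obtain ⟨z, hz1, hz2, hz3⟩ := this
          exact ⟨z, ⟨hz1, hz2⟩, hz3⟩
        obtain ⟨hw1, hw2, hw3, hw4⟩ := hW _ hUo hUne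
        have heq := sg_neg_CTB (Vo τ f (M + 1) γ A) Q σB W mv h hp
        refine ⟨?_, ?_, ?_⟩
        · rw [heq]; exact hw1
        · rw [heq]; exact inter_subset_right.trans hw4
        · intro mv' h' he
          have e1 : mv = mv' := (List.cons.inj he).1
          have e2 : h = h' := (List.cons.inj he).2
          subst e1; subst e2
          rw [heq]
          exact ⟨hw2, hw3.mono (inter_subset_inter_right _ hHA)⟩
  -- switching
  refine hSW X A₂ (P (M + 2)) (τ (M + 1)) (P' (M + 2)) (τ' (M + 2)) f f' A A'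
    (sg_CTB (Vo τ f (M + 1) γ A) Q σB W)
    (fun O => ∃ (r : Cd (M + 1)) (s : Bool), Cd.wf (M + 1) r ∧ Cd.vd (M + 1) r ∧ r < ρ ∧
      Zo τ f (M + 1) r (!s) (A ∩ O) = ∅) ?_ ?_ ?_ ?_
  · -- events are inherited by subsets
    intro O O' hO hE
    obtain ⟨r, s, h1, h2, h3, h4⟩ := hE
    refine ⟨r, s, h1, h2, h3, ?_⟩
    exact subset_eq_empty ((hZD r (!s)).mono _ _ (inter_subset_inter_right _ hO)) h4
  · -- legal answers
    intro mv h hl
    obtain ⟨h1, -, h3⟩ := hinv (mv :: h) hl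
    obtain ⟨h4, h5⟩ := h3 mv h rfl
    exact ⟨h1, h4, h5⟩
  · -- the event happens
    intro mv h hl hE
    obtain ⟨r, s, h1, h2, h3, h4⟩ := hE
    obtain ⟨g1, g2, -⟩ := hinv (mv :: h) hl
    exact hIH r s h1 h2 h3 mv.1 hl.2.1 _ g1 h4 g2
  · -- plays without the event
    intro p hleg hnoE x hxA hxp hconv
    have hxB : x ∈ Vo τ f (M + 1) γ A := by
      by_contra hxB
      obtain ⟨r, s, hrw, hrv, -, hrc, -, hrz⟩ := hRX X n τ P f hR (M + 1) hMn A hA x hxA
      have hrγ : r ≤ γ := by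
        by_contra hlt
        exact hxB (hrc γ hγ (not_le.1 hlt))
      have hcl2 : IsClosed[τ (M + 1)] (Zo τ f (M + 1) r (!s) A) :=
        (hZD r (!s)).closed A (hR.cl (M + 1) hMn A hA)
      obtain ⟨l, hl⟩ := hconv (Zo τ f (M + 1) r (!s) A)ᶜ hcl2.isOpen_compl hrz
      apply hnoE l
      refine ⟨r, s, hrw, hrv, lt_of_le_of_lt hrγ hγρ, ?_⟩
      have hPl : (p l).1 ∈ P (M + 2) := (hleg (l + 1)).2.1
      have hclp : Clp (τ (M + 1)) (p l).1 :=
        ⟨hR.cl (M + 1) hMn _ (hR.anti (M + 1) hPl), hR.op (M + 1) hMn _ hPl⟩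
      rw [(hZD r (!s)).loc _ _ hclp]
      apply eq_empty_of_forall_notMem
      intro y hy
      exact hl ⟨hy.2, (hZD r (!s)).le A hy.1⟩ hy.1
    have hall : ∀ l, (lastO (hist p l) ∩ Vo τ f (M + 1) γ A).Nonempty := by
      intro l
      cases l with
      | zero => exact ⟨x, mem_univ x, hxB⟩
      | succ l => exact ⟨x, hxp l, hxB⟩
    have hag := fun l => sg_agree_CTB (P (M + 2)) A (Vo τ f (M + 1) γ A) (τ' (M + 2)) A' Q σB W hσ0
      (hist p l) (hleg l) (hall l)
    obtain ⟨x', hx'A, hx'1, hx'2, hx'3⟩ := hσW.lim p (fun l => (hag l).1) x hxB hxp (by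
      intro U hU hxU
      obtain ⟨l, hl⟩ := hconv U hU hxU
      exact ⟨l, (inter_subset_inter_right _ hBA).trans hl⟩)
    refine ⟨x', hx'A, ?_, hx'2, ?_⟩
    · intro l
      rw [(hag l).2]
      exact hx'1 l
    · intro k
      obtain ⟨l, hl⟩ := hx'3 k
      refine ⟨l, ?_⟩
      rw [(hag l).2]
      exact hl

end Pool.Agent.Helper24.WH

end

section

set_option autoImplicit false

namespace Pool.Agent.Helper24.WH

open Set

/-- finite basis property for one relation -/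
private theorem basis_FN {Q : Type} (r : Q → Q → Prop) (hw : WellQuasiOrdered r) (A : Set Q) :
    ∃ A₀ : Set Q, A₀.Finite ∧ A₀ ⊆ A ∧ ∀ a ∈ A, ∃ a₀ ∈ A₀, r a₀ a := by
  by_contra hcon
  have key : ∀ s : Finset Q, (∀ x ∈ s, x ∈ A) → ∃ y, y ∈ A ∧ ∀ x ∈ s, ¬ r x y := by
    intro s hs
    by_contra h2
    apply hcon
    refine ⟨(s : Set Q), s.finite_toSet, fun x hx => hs x hx, ?_⟩
    intro a ha
    by_contra h3
    exact h2 ⟨a, ha, fun x hx hr => h3 ⟨x, hx, hr⟩⟩
  obtain ⟨f, _, hf2⟩ := exists_seq_of_forall_finset_exists (fun x => x ∈ A) (fun x y => ¬ r x y) key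
  obtain ⟨m, n, hmn, h⟩ := hw f
  exact hf2 m n hmn h

theorem hFN : StFN := by
  intro Q r _ _ hw G _
  obtain ⟨C, hC1, hC2, hC3⟩ := basis_FN (Dom r) hw {c : ℕ → Q | ∀ i, c i ∈ G i}
  refine ⟨C, hC1, fun c hc i => hC2 hc i, ?_⟩
  intro X H hH
  ext x
  simp only [mem_iInter, mem_iUnion]
  constructor
  · intro h
    choose c hc1 hc2 using h
    obtain ⟨c₀, hc₀, hd⟩ := hC3 c hc1
    refine ⟨c₀, hc₀, fun i => ?_⟩
    obtain ⟨j, hj⟩ := hd i
    exact hH _ _ hj (hc2 j)
  · rintro ⟨c, hc, h⟩ i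
    exact ⟨c i, hC2 hc i, h i⟩

end Pool.Agent.Helper24.WH

end

section

/-! WH module HU (helper58): finite unions of operators. -/

set_option autoImplicit false

namespace Pool.Agent.Helper24.WH

open Set TopologicalSpace Topology

variable {X : Type}

private theorem le_HU (τ : TopologicalSpace X) (z : Set X → Set X) (B : Set X) : HomOp τ z B ⊆ B := by
  rintro x ⟨W, hW, hx⟩
  exact hW.1 hx

private theorem max_HU (τ : TopologicalSpace X) (z : Set X → Set X) (W B : Set X) (h : W ⊆ B)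
    (h2 : W ⊆ closure[τ] (z W)) : W ⊆ HomOp τ z B := fun _ hx => ⟨W, ⟨h, h2⟩, hx⟩

private theorem mono_HU (τ : TopologicalSpace X) (z : Set X → Set X) (A B : Set X) (h : A ⊆ B) :
    HomOp τ z A ⊆ HomOp τ z B := by
  rintro x ⟨W, hW, hx⟩
  exact ⟨W, ⟨hW.1.trans h, hW.2⟩, hx⟩

private theorem cl_HU (τ : TopologicalSpace X) (z : Set X → Set X) (hz : ∀ A B, A ⊆ B → z A ⊆ z B)
    (B : Set X) : HomOp τ z B ⊆ closure[τ] (z (HomOp τ z B)) := by
  rintro x ⟨W, hW, hx⟩
  have h1 : W ⊆ HomOp τ z B := max_HU τ z W B hW.1 hW.2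
  letI := τ
  exact closure_mono (hz _ _ h1) (hW.2 hx)

private theorem closed_HU (τ : TopologicalSpace X) (z : Set X → Set X)
    (hz : ∀ A B, A ⊆ B → z A ⊆ z B) (B : Set X) (hB : IsClosed[τ] B) :
    IsClosed[τ] (HomOp τ z B) := by
  letI := τ
  have h1 : closure (HomOp τ z B) ⊆ B := closure_minimal (le_HU τ z B) hB
  have h2 : closure (HomOp τ z B) ⊆ closure (z (closure (HomOp τ z B))) := by
    have h3 : closure (HomOp τ z B) ⊆ closure (z (HomOp τ z B)) :=
      closure_minimal (cl_HU τ z hz B) isClosed_closure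
    exact h3.trans (closure_mono (hz _ _ subset_closure))
  have h4 : closure (HomOp τ z B) ⊆ HomOp τ z B := max_HU τ z _ B h1 h2
  exact closure_subset_iff_isClosed.mp h4

theorem hHU : StHU := by
  intro X τ z hzd hz ι hι zi hzi hun B hB
  letI := τ
  apply Subset.antisymm
  · intro x hx
    by_contra hxn
    have hWc : IsClosed (HomOp τ z B) := closed_HU τ z hz.mono B hB
    have hUc : IsClosed (⋃ i, HomOp τ (zi i) B) :=
      isClosed_iUnion_of_finite (fun i => closed_HU τ (zi i) (hzi i).mono B hB)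
    obtain ⟨O, hO, hxO, hOsub⟩ := hzd x (⋃ i, HomOp τ (zi i) B)ᶜ hUc.isOpen_compl hxn
    have hOcl : IsClopen O := hO
    -- the sets
    have hempty : ∀ i, ∀ V, V ⊆ HomOp τ z B ∩ O → HomOp τ (zi i) V = ∅ := by
      intro i V hV
      apply eq_empty_of_forall_notMem
      intro y hy
      have h1 : y ∈ V := le_HU τ (zi i) V hy
      have h2 : y ∈ O := (hV h1).2
      have h3 : V ⊆ B := fun w hw => le_HU τ z B (hV hw).1
      have h4 : y ∈ HomOp τ (zi i) B := mono_HU τ (zi i) V B h3 hy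
      exact hOsub h2 (mem_iUnion.mpr ⟨i, h4⟩)
    have key : ∀ s : Set ι, s.Finite → ∃ P, IsClopen P ∧ (HomOp τ z B ∩ O ∩ P).Nonempty ∧
        ∀ i ∈ s, zi i (HomOp τ z B ∩ O ∩ P) = ∅ := by
      intro s hs
      induction s, hs using Set.Finite.induction_on with
      | empty =>
        exact ⟨univ, isClopen_univ, ⟨x, ⟨hx, hxO⟩, mem_univ x⟩, fun i hi => absurd hi (notMem_empty i)⟩
      | @insert j s hj hs ih =>
        obtain ⟨P, hP, hne, hPs⟩ := ih
        have h1 : ¬ (HomOp τ z B ∩ O ∩ P ⊆ closure (zi j (HomOp τ z B ∩ O ∩ P))) := by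
          intro h2
          have h3 := max_HU τ (zi j) _ _ (Subset.refl _) h2
          rw [hempty j _ inter_subset_left] at h3
          obtain ⟨y, hy⟩ := hne
          exact h3 hy
        rw [not_subset] at h1
        obtain ⟨y, hy, hyn⟩ := h1
        obtain ⟨Q, hQ, hyQ, hQsub⟩ := hzd y (closure (zi j (HomOp τ z B ∩ O ∩ P)))ᶜ
          isClosed_closure.isOpen_compl hyn
        have hQc : IsClopen Q := hQ
        refine ⟨P ∩ Q, hP.inter hQc, ⟨y, hy.1, hy.2, hyQ⟩, ?_⟩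
        have h5 : HomOp τ z B ∩ O ∩ (P ∩ Q) = HomOp τ z B ∩ O ∩ P ∩ Q := by
          rw [inter_assoc (HomOp τ z B ∩ O) P Q]
        intro i hi
        rw [h5, (hzi i).loc Q _ hQ]
        rcases hi with hi | hi
        · subst hi
          apply eq_empty_of_forall_notMem
          rintro w ⟨hw1, hw2⟩
          exact hQsub hw2 (subset_closure hw1)
        · rw [hPs i hi, empty_inter]
    obtain ⟨P, hP, hne, hPs⟩ := key univ (toFinite univ)
    have h6 : z (HomOp τ z B ∩ O ∩ P) = ∅ := by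
      rw [hun _ ((hWc.inter hOcl.isClosed).inter hP.isClosed)]
      apply eq_empty_of_forall_notMem
      intro y hy
      obtain ⟨i, hi⟩ := mem_iUnion.mp hy
      rw [hPs i (mem_univ i)] at hi
      exact hi
    obtain ⟨y, ⟨hy1, hy2⟩, hy3⟩ := hne
    have h7 : z (HomOp τ z B ∩ (O ∩ P)) = z (HomOp τ z B) ∩ (O ∩ P) :=
      hz.loc (O ∩ P) _ (hOcl.inter hP)
    rw [← inter_assoc, h6] at h7
    have h8 : y ∈ closure (z (HomOp τ z B)) := cl_HU τ z hz.mono B hy1
    rw [mem_closure_iff] at h8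
    obtain ⟨w, hw1, hw2⟩ := h8 (O ∩ P) (hOcl.inter hP).isOpen ⟨hy2, hy3⟩
    have h9 : w ∈ z (HomOp τ z B) ∩ (O ∩ P) := ⟨hw2, hw1⟩
    rw [← h7] at h9
    exact h9
  · intro x hx
    obtain ⟨i, hi⟩ := mem_iUnion.mp hx
    have hVc : IsClosed (HomOp τ (zi i) B) := closed_HU τ (zi i) (hzi i).mono B hB
    refine max_HU τ z _ B (le_HU τ (zi i) B) ?_ hi
    refine (cl_HU τ (zi i) (hzi i).mono B).trans (closure_mono ?_)
    rw [hun _ hVc]
    exact subset_iUnion (fun i => zi i (HomOp τ (zi _) B)) i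

end Pool.Agent.Helper24.WH

end

section

/-!
# Module PA of project WH: padding
-/

set_option autoImplicit false

namespace Pool.Agent.Helper24.WH

open Set TopologicalSpace Topology
open Ordinal hiding univ

/-- `HomOp` for the intersection with a clopen set -/
private theorem hom_clp_PA {X : Type} (τ : TopologicalSpace X) (F : Set X) (hF : IsClosed[τ] F) (B : Set X) :
    HomOp τ (fun Y => Y ∩ F) B = B ∩ F := by
  apply Set.Subset.antisymm
  · rintro x ⟨W, ⟨hWB, hW⟩, hx⟩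
    refine ⟨hWB hx, ?_⟩
    have h1 : closure[τ] (W ∩ F) ⊆ F := by
      have := @closure_mono X τ _ _ (Set.inter_subset_right : W ∩ F ⊆ F)
      rwa [@IsClosed.closure_eq X τ _ hF] at this
    exact h1 (hW hx)
  · intro x hx
    refine ⟨B ∩ F, ⟨Set.inter_subset_left, ?_⟩, hx⟩
    intro y hy
    apply @subset_closure X τ
    exact ⟨hy, hy.2⟩

private theorem iter_zero_PA {X : Type} (d : Set X → Set X) (B : Set X) : iter d B 0 = B := by
  rw [iter]
  ext x
  constructor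
  · exact fun h => h.1
  · intro h
    refine ⟨h, ?_⟩
    rw [Set.mem_iInter]
    rintro ⟨β, hβ⟩
    exact absurd (Set.mem_Iio.mp hβ) (not_lt.mpr zero_le)

private theorem iter_one_PA {X : Type} (d : Set X → Set X) (hd : ∀ B, d B ⊆ B) (B : Set X) :
    iter d B 1 = d B := by
  rw [iter]
  ext x
  constructor
  · rintro ⟨h1, h2⟩
    rw [Set.mem_iInter] at h2
    have := h2 ⟨0, by simp⟩
    simpa [iter_zero_PA] using this
  · intro h
    refine ⟨hd B h, ?_⟩
    rw [Set.mem_iInter]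
    rintro ⟨β, hβ⟩
    have hβ0 : β = 0 := Order.lt_one_iff.mp hβ
    subst hβ0
    simpa [iter_zero_PA] using h

private theorem delOf_congr_PA {X : Type} (τ : TopologicalSpace X) (m : ℕ)
    (z' : Cd (m + 1) → Bool → Set X → Set X) (z : Cd m → Bool → Set X → Set X) (HCB : StCB)
    (hz : ∀ c : Cd m, Cd.wf m c → Cd.vd m c → ∀ s, z' (Cd.up m c) s = z c s)
    (c : Cd m) (hc : Cd.wf m c) (Y : Set X) :
    delOf τ (m + 1) z' (Cd.up m c) Y = delOf τ m z c Y := by
  obtain ⟨-, -, -, -, -, hlt, hwf, hvd, -, hinit, -⟩ := HCB m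
  have hle : ∀ a b : Cd m, a ≤ b ↔ Cd.up m a ≤ Cd.up m b := by
    intro a b
    rw [← not_lt, ← not_lt, hlt]
  unfold delOf
  ext x
  constructor
  · rintro ⟨h1, h2⟩
    refine ⟨h1, ?_⟩
    simp only [Set.mem_iInter] at h2 ⊢
    intro c₀ hc₀ s
    have := h2 (Cd.up m c₀) ⟨hwf c₀ hc₀.1, (hvd c₀).1 hc₀.2.1, (hle _ _).1 hc₀.2.2⟩ s
    rwa [hz c₀ hc₀.1 hc₀.2.1 s] at this
  · rintro ⟨h1, h2⟩
    refine ⟨h1, ?_⟩
    simp only [Set.mem_iInter] at h2 ⊢
    intro c' hc' s
    obtain ⟨c₀, hc₀, rfl⟩ := hinit c c' hc hc'.1 hc'.2.2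
    rw [hz c₀ hc₀ ((hvd c₀).2 hc'.2.1) s]
    exact h2 c₀ ⟨hc₀, (hvd c₀).2 hc'.2.1, (hle _ _).2 hc'.2.2⟩ s

private theorem foldV_congr_PA {X : Type} (τ : TopologicalSpace X) (m : ℕ)
    (z' : Cd (m + 1) → Bool → Set X → Set X) (z : Cd m → Bool → Set X → Set X) (HCB : StCB)
    (hz : ∀ c : Cd m, Cd.wf m c → Cd.vd m c → ∀ s, z' (Cd.up m c) s = z c s)
    (l : List (Cd m ×ₗ ℕ)) : (∀ e ∈ l, Cd.wf m (ofLex e).1) → ∀ B : Set X,
    foldV τ (m + 1) z' (l.map (fun e => (toLex (Cd.up m (ofLex e).1, (ofLex e).2) : Cd (m + 1) ×ₗ ℕ))) B =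
      foldV τ m z l B := by
  induction l with
  | nil => intro _ B; rfl
  | cons e l ih =>
    intro hl B
    have h1 : delOf τ (m + 1) z' (Cd.up m (ofLex e).1) = delOf τ m z (ofLex e).1 := by
      funext Y
      exact delOf_congr_PA τ m z' z HCB hz _ (hl e (by simp)) Y
    have h2 := ih (fun e' he' => hl e' (by simp [he']))
    unfold foldV at h2 ⊢
    simp only [List.map_cons, List.foldl_cons]
    rw [h2]
    have h3 : (ofLex (toLex (Cd.up m (ofLex e).1, (ofLex e).2) : Cd (m + 1) ×ₗ ℕ)).1 = Cd.up m (ofLex e).1 := rfl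
    have h4 : (ofLex (toLex (Cd.up m (ofLex e).1, (ofLex e).2) : Cd (m + 1) ×ₗ ℕ)).2 = (ofLex e).2 := rfl
    rw [h3, h4, h1]

/-- the operators of the padded tower -/
private theorem pad_ops_PA (HCB : StCB) {X : Type} (τ : ℕ → TopologicalSpace X) (f : X → Bool)
    (hf : ∀ s, Clp (τ 0) (f ⁻¹' {s})) : ∀ (m : ℕ) (c : Cd m), Cd.wf m c →
    (∀ B : Set X, Vo (padT τ) f (m + 1) (Cd.up m c) B = Vo τ f m c B) ∧
      (Cd.vd m c → ∀ s, Zo (padT τ) f (m + 1) (Cd.up m c) s = Zo τ f m c s) := by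
  intro m
  induction m with
  | zero =>
    intro c _
    have hH : ∀ s, ∀ B : Set X, HomOp (padT τ 1) ((VZ (padT τ) f 0).2 c s) B = B ∩ f ⁻¹' {s} := by
      intro s B
      exact hom_clp_PA (τ 0) (f ⁻¹' {s}) (hf s).1 B
    have hH' : ∀ (c : Cd 0) s, ∀ B : Set X, HomOp (padT τ 1) ((VZ (padT τ) f 0).2 c s) B = B ∩ f ⁻¹' {s} := by
      intro c s B
      exact hom_clp_PA (τ 0) (f ⁻¹' {s}) (hf s).1 B
    cases hcb : Cd.B c with
    | false =>
      have hup : Cd.up 0 c = Cd.of [] := by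
        simp [Cd.up, hcb]
      refine ⟨?_, ?_⟩
      · intro B
        rw [hup]
        have h1 : Vo (padT τ) f (0 + 1) (Cd.of []) B = B := rfl
        rw [h1]
        show B = {x ∈ B | Cd.B c = false}
        ext x
        simp [hcb]
      · intro hv
        exact absurd hv (by simp [Cd.vd, hcb])
    | true =>
      have hup : Cd.up 0 c = Cd.of [toLex (c, 0)] := by
        simp [Cd.up, hcb]
      refine ⟨?_, ?_⟩
      · intro B
        rw [hup]
        have h1 : Vo (padT τ) f (0 + 1) (Cd.of [toLex (c, 0)]) B =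
          iter (delOf (padT τ 1) 0 (VZ (padT τ) f 0).2 c) B (ω ^ ((0 : ℕ) : Ordinal.{0})) := rfl
        have h2 : (ω ^ ((0 : ℕ) : Ordinal.{0}) : Ordinal.{0}) = 1 := by simp
        rw [h1, h2, iter_one_PA _ (fun Y => by unfold delOf; exact Set.inter_subset_left)]
        have h3 : Vo τ f 0 c B = ∅ := by
          show {x ∈ B | Cd.B c = false} = ∅
          ext x
          simp [hcb]
        rw [h3]
        unfold delOf
        rw [Set.eq_empty_iff_forall_notMem]
        rintro x ⟨hx, hx2⟩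
        simp only [Set.mem_iInter] at hx2
        have h4 := hx2 c ⟨trivial, hcb, le_refl _⟩ false
        have h5 := hx2 c ⟨trivial, hcb, le_refl _⟩ true
        rw [hH] at h4 h5
        have h6 : f x = false := h4.2
        have h7 : f x = true := h5.2
        rw [h6] at h7
        exact Bool.noConfusion h7
      · intro _ s
        funext B
        rw [hup]
        have h1 : Zo (padT τ) f (0 + 1) (Cd.of [toLex (c, 0)]) s B =
          HomOp (padT τ 1) ((VZ (padT τ) f 0).2 c s) B := rfl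
        rw [h1, hH]
        rfl
  | succ m ih =>
    intro l hl
    have hz : ∀ c : Cd m, Cd.wf m c → Cd.vd m c → ∀ s,
        (VZ (padT τ) f (m + 1)).2 (Cd.up m c) s = (VZ τ f m).2 c s := by
      intro c hc hv s
      exact (ih c hc).2 hv s
    have hl2 : ∀ e ∈ Cd.L l, Cd.wf m (ofLex e).1 := fun e he => (hl.2 e he).1
    refine ⟨?_, ?_⟩
    · intro B
      exact foldV_congr_PA (τ (m + 1)) m _ _ HCB hz (Cd.L l) hl2 B
    · rintro ⟨l₀, c, hlc, hcv⟩ s
      funext B
      have hcw : Cd.wf m c := by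
        have := hl2 (toLex (c, 0)) (by rw [hlc]; simp)
        exact this
      have hl0 : ∀ e ∈ l₀, Cd.wf m (ofLex e).1 := fun e he => hl2 e (by rw [hlc]; simp [he])
      have hup : Cd.L (Cd.up (m + 1) l) =
          l₀.map (fun e => (toLex (Cd.up m (ofLex e).1, (ofLex e).2) : Cd (m + 1) ×ₗ ℕ)) ++
            [(toLex (Cd.up m c, 0) : Cd (m + 1) ×ₗ ℕ)] := by
        show (Cd.L l).map (fun e => (toLex (Cd.up m (ofLex e).1, (ofLex e).2) : Cd (m + 1) ×ₗ ℕ)) = _
        rw [hlc, List.map_append]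
        rfl
      have h1 : Zo (padT τ) f (m + 1 + 1) (Cd.up (m + 1) l) s B =
        HomOp (τ (m + 1)) ((VZ (padT τ) f (m + 1)).2 (lastc (Cd.L (Cd.up (m + 1) l))) s)
          (foldV (τ (m + 1)) (m + 1) (VZ (padT τ) f (m + 1)).2 ((Cd.L (Cd.up (m + 1) l)).dropLast) B) := rfl
      have h2 : Zo τ f (m + 1) l s B =
        HomOp (τ (m + 1)) ((VZ τ f m).2 (lastc (Cd.L l)) s)
          (foldV (τ (m + 1)) m (VZ τ f m).2 ((Cd.L l).dropLast) B) := rfl
      rw [h1, h2, hup, hlc]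
      have h3 : lastc (l₀ ++ [(toLex (c, 0) : Cd m ×ₗ ℕ)]) = c := by
        unfold lastc
        rw [List.getLast?_append]
        rfl
      have h4 : lastc (l₀.map (fun e => (toLex (Cd.up m (ofLex e).1, (ofLex e).2) : Cd (m + 1) ×ₗ ℕ)) ++
            [(toLex (Cd.up m c, 0) : Cd (m + 1) ×ₗ ℕ)]) = Cd.up m c := by
        unfold lastc
        rw [List.getLast?_append]
        rfl
      rw [h3, h4, List.dropLast_concat, List.dropLast_concat, hz c hcw hcv s,
        foldV_congr_PA (τ (m + 1)) m _ _ HCB hz l₀ hl0 B]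

theorem hPA (HRA : StRA) (HCB : StCB) : StPA := by
  intro X n τ P f R
  have hops := pad_ops_PA HCB τ f R.fib
  have hfb : ∀ (m : ℕ) (c : Cd m) (B : Set X), Cd.wf m c → Vo (padT τ) f (m + 1) (Cd.up m c) B = Vo τ f m c B ∧
    (Cd.vd m c → ∀ s, Zo (padT τ) f (m + 1) (Cd.up m c) s B = Zo τ f m c s B) := by
    intro m c B hc
    exact ⟨(hops m c hc).1 B, fun hv s => congrFun ((hops m c hc).2 hv s) B⟩
  refine ⟨?_, hfb⟩
  -- dichotomy
  have hdi : ∀ (m : ℕ) (c₀ : Cd m) (c : Cd (m + 1)), Cd.wf m c₀ → Cd.wf (m + 1) c →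
      (∃ c₁ : Cd m, Cd.wf m c₁ ∧ c = Cd.up m c₁) ∨ Cd.up m c₀ < c := by
    intro m c₀ c h0 hc
    rcases lt_or_ge (Cd.up m c₀) c with h | h
    · exact Or.inr h
    · exact Or.inl ((HCB m).2.2.2.2.2.2.2.2.2.1 c₀ c h0 hc h)
  have hwf : ∀ (m : ℕ) (c : Cd m), Cd.wf m c → Cd.wf (m + 1) (Cd.up m c) := fun m => (HCB m).2.2.2.2.2.2.1
  have hvd : ∀ (m : ℕ) (c : Cd m), Cd.vd m c ↔ Cd.vd (m + 1) (Cd.up m c) := fun m => (HCB m).2.2.2.2.2.2.2.1
  have hlt : ∀ (m : ℕ) (c c' : Cd m), c < c' ↔ Cd.up m c < Cd.up m c' := fun m => (HCB m).2.2.2.2.2.1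
  have hVm : ∀ (m : ℕ) (c c' : Cd m) (B : Set X), Cd.wf m c → Cd.wf m c' → c ≤ c' →
      Vo (padT τ) f m c' B ⊆ Vo (padT τ) f m c B := fun m => (HRA X (padT τ) f m).2.2.2.2.2.2.2.1
  have hZV : ∀ (m : ℕ) (r c : Cd m) (s : Bool) (B : Set X), Cd.wf m r → Cd.vd m r → Cd.wf m c → c < r →
      Zo (padT τ) f m r s B ⊆ Vo (padT τ) f m c B := fun m => (HRA X (padT τ) f m).2.2.2.2.2.2.2.2.1
  exact {
    tow := by
      refine ⟨?_, ?_⟩
      · intro m
        cases m with
        | zero => exact le_refl _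
        | succ m => exact R.tow.mono m
      · intro m
        cases m with
        | zero => exact R.tow.zd 0
        | succ m => exact R.tow.zd m
    fib := R.fib
    top := by
      intro M hM
      cases M with
      | zero => exact absurd hM (by omega)
      | succ M => exact R.top M (by omega)
    anti := by
      intro M
      cases M with
      | zero => exact Set.Subset.refl _
      | succ M => exact R.anti M
    cl := by
      intro M hM B hB
      cases M with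
      | zero => exact R.cl 0 (by omega) B hB
      | succ M => exact R.cl M (by omega) B hB
    op := by
      intro M hM B hB
      cases M with
      | zero => exact R.op0 B hB
      | succ M => exact R.op M (by omega) B hB
    op0 := R.op0
    basis := by
      intro M hM x U hU hx
      cases M with
      | zero =>
        obtain ⟨O, hO, h1, h2⟩ := R.basis 0 (by omega) x U hU hx
        exact ⟨O, R.anti 0 hO, h1, h2⟩
      | succ M => exact R.basis M (by omega) x U hU hx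
    cnt := by
      intro M
      cases M with
      | zero => exact R.cnt 0
      | succ M => exact R.cnt M
    univ := by
      intro M
      cases M with
      | zero => exact R.univ 0
      | succ M => exact R.univ M
    empty := by
      intro M
      cases M with
      | zero => exact R.empty 0
      | succ M => exact R.empty M
    inter := by
      intro M B hB B' hB'
      cases M with
      | zero => exact R.inter 0 B hB B' hB'
      | succ M => exact R.inter M B hB B' hB'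
    union := by
      intro M B hB B' hB'
      cases M with
      | zero => exact R.union 0 B hB B' hB'
      | succ M => exact R.union M B hB B' hB'
    clo := by
      intro M hM B hB
      cases M with
      | zero => exact R.clo 0 (by omega) B hB
      | succ M => exact R.clo M (by omega) B hB
    fP := R.fP
    VP := by
      intro m hm c hc B hB
      cases m with
      | zero => exact R.VP 0 (by omega) c hc B hB
      | succ m =>
        obtain ⟨c₀, hc₀, hemp⟩ := R.tm m (by omega)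
        rcases hdi m c₀ c hc₀ hc with ⟨c₁, hc₁, rfl⟩ | h
        · rw [(hfb m c₁ B hc₁).1]
          exact R.VP m (by omega) c₁ hc₁ B hB
        · have h1 : Vo (padT τ) f (m + 1) c B ⊆ ∅ := by
            rw [← hemp B hB, ← (hfb m c₀ B hc₀).1]
            exact hVm (m + 1) _ _ B (hwf m c₀ hc₀) hc h.le
          rw [Set.subset_empty_iff] at h1
          rw [h1]
          exact R.empty m
    ZP := by
      intro m hm c hc hv s B hB
      cases m with
      | zero => exact R.ZP 0 (by omega) c hc hv s B hB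
      | succ m =>
        obtain ⟨c₀, hc₀, hemp⟩ := R.tm m (by omega)
        rcases hdi m c₀ c hc₀ hc with ⟨c₁, hc₁, rfl⟩ | h
        · have hv1 := (hvd m c₁).2 hv
          rw [(hfb m c₁ B hc₁).2 hv1 s]
          exact R.ZP m (by omega) c₁ hc₁ hv1 s B hB
        · have h1 : Zo (padT τ) f (m + 1) c s B ⊆ ∅ := by
            rw [← hemp B hB, ← (hfb m c₀ B hc₀).1]
            exact hZV (m + 1) _ _ s B hc hv (hwf m c₀ hc₀) h
          rw [Set.subset_empty_iff] at h1
          rw [h1]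
          exact R.empty m
    us := by
      intro m hm r hr hv
      cases m with
      | zero => exact R.us 0 (by omega) r hr hv
      | succ m =>
        obtain ⟨c₀, hc₀, hemp⟩ := R.tm m (by omega)
        rcases hdi m c₀ r hc₀ hr with ⟨r₁, hr₁, rfl⟩ | h
        · have hv1 := (hvd m r₁).2 hv
          obtain ⟨c, hc, hcr, hV⟩ := R.us m (by omega) r₁ hr₁ hv1
          refine ⟨Cd.up m c, hwf m c hc, (hlt m c r₁).1 hcr, ?_⟩
          intro B hB
          rw [(hfb m c B hc).1, (hfb m r₁ B hr₁).2 hv1 false, (hfb m r₁ B hr₁).2 hv1 true]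
          exact hV B hB
        · refine ⟨Cd.up m c₀, hwf m c₀ hc₀, h, ?_⟩
          intro B hB
          rw [(hfb m c₀ B hc₀).1, hemp B hB]
          exact Set.empty_subset _
    tm := by
      intro m hm
      cases m with
      | zero => exact R.tm 0 (by omega)
      | succ m =>
        obtain ⟨c₀, hc₀, hemp⟩ := R.tm m (by omega)
        refine ⟨Cd.up m c₀, hwf m c₀ hc₀, ?_⟩
        intro B hB
        rw [(hfb m c₀ B hc₀).1, hemp B hB]
    pol := R.pol }

end Pool.Agent.Helper24.WH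

end

section

/-!
# Project WH, module SA (4.1, 4.2): names of stage below `i`, if all stages below `i` are fine

First closedness of the values of all good names (induction on the name), then the splitting along
`Tre.mk a` (induction on the name; the closedness of the split names is used for `SD`).
-/

set_option autoImplicit false

namespace Pool.Agent.Helper24.WH

open Set TopologicalSpace Topology
open Ordinal hiding univ

/-- closed sets of a coarser topology are closed in a finer one -/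
private theorem closed_mono_SA {X : Type} {τ τ' : TopologicalSpace X} (h : τ ≤ τ') {F : Set X}
    (hF : IsClosed[τ'] F) : IsClosed[τ] F := hF.mono h

/-- the stage topologies are monotone in the height (all heights) -/
private theorem stg_height_SA (hSU : StSU) {A S : Type} [Finite A] [Finite S] (n : ℕ) (g : Tre A → S)
    (i : Ordinal.{0}) {M M' : ℕ} (h : M ≤ M') : stg n g i M ≤ stg n g i M' := by
  induction M', h using Nat.le_induction with
  | base => exact le_refl _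
  | succ k _ ih => exact le_trans ih ((hSU A S n g).2.2.2.2.1 i k)

/-- splitting with an arbitrary finite index type -/
private def Spl_SA {A S : Type} (n : ℕ) (g : Tre A → S) (h : ℕ) (i : Ordinal.{0}) (a : A)
    (P : Set (Tre A)) : Prop :=
  ∃ (ι : Type) (_ : Finite ι) (N₀ N₁ : ι → Nm S), (∀ q, GN n g (N₀ q) h i ∧ GN n g (N₁ q) h i) ∧
    P ∩ range (Tre.mk a) = ⋃ q, Tre.mk a '' (vl n g (N₀ q) ×ˢ vl n g (N₁ q))

private theorem mk_inj_SA {A : Type} (a : A) : Function.Injective (Tre.mk a) := by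
  intro p p' h
  apply Prod.ext
  · funext v
    exact congrFun h (false :: v)
  · funext v
    exact congrFun h (true :: v)

/-- intersections of splittings -/
private theorem Spl_inter_SA (hSU : StSU) {A S : Type} [Finite A] [Finite S] (n : ℕ) (g : Tre A → S)
    (h : ℕ) (i : Ordinal.{0}) (a : A) (P R : Set (Tre A)) (hP : Spl_SA n g h i a P)
    (hR : Spl_SA n g h i a R) : Spl_SA n g h i a (P ∩ R) := by
  obtain ⟨ι, hι, N₀, N₁, hN, hPe⟩ := hP
  obtain ⟨κ, hκ, M₀, M₁, hM, hRe⟩ := hR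
  have hI := (hSU A S n g).2.2.2.2.2.2.2.2
  have h0 : ∀ q : ι × κ, ∃ N'' : Nm S, GN n g N'' h i ∧
      vl n g N'' = vl n g (N₀ q.1) ∩ vl n g (M₀ q.2) := fun q =>
    hI (N₀ q.1) (M₀ q.2) h i (hN q.1).1 (hM q.2).1
  have h1 : ∀ q : ι × κ, ∃ N'' : Nm S, GN n g N'' h i ∧
      vl n g N'' = vl n g (N₁ q.1) ∩ vl n g (M₁ q.2) := fun q =>
    hI (N₁ q.1) (M₁ q.2) h i (hN q.1).2 (hM q.2).2
  choose Q₀ hQ₀ using h0
  choose Q₁ hQ₁ using h1
  refine ⟨ι × κ, inferInstance, Q₀, Q₁, fun q => ⟨(hQ₀ q).1, (hQ₁ q).1⟩, ?_⟩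
  have e1 : (P ∩ R) ∩ range (Tre.mk a) = (P ∩ range (Tre.mk a)) ∩ (R ∩ range (Tre.mk a)) := by
    ext t
    simp only [mem_inter_iff]
    tauto
  rw [e1, hPe, hRe]
  ext t
  simp only [mem_inter_iff, mem_iUnion, mem_image]
  constructor
  · rintro ⟨⟨q, p, hp, rfl⟩, ⟨r, p', hp', he⟩⟩
    have := mk_inj_SA a he
    subst this
    refine ⟨(q, r), p', ?_, rfl⟩
    rw [mem_prod] at hp hp' ⊢
    rw [(hQ₀ (q, r)).2, (hQ₁ (q, r)).2]
    exact ⟨⟨hp.1, hp'.1⟩, ⟨hp.2, hp'.2⟩⟩
  · rintro ⟨q, p, hp, rfl⟩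
    rw [mem_prod, (hQ₀ q).2, (hQ₁ q).2] at hp
    exact ⟨⟨q.1, p, ⟨hp.1.1, hp.2.1⟩, rfl⟩, ⟨q.2, p, ⟨hp.1.2, hp.2.2⟩, rfl⟩⟩

/-- finite intersections of names -/
private theorem biInter_SA (hSU : StSU) {A S : Type} [Finite A] [Finite S] (n : ℕ) (g : Tre A → S)
    (h : ℕ) (i : Ordinal.{0}) {κ : Type} [Finite κ] (J : Set κ) (F : κ → Nm S)
    (hF : ∀ q, GN n g (F q) h i) : ∃ N : Nm S, GN n g N h i ∧ vl n g N = ⋂ q ∈ J, vl n g (F q) := by
  have hI := (hSU A S n g).2.2.2.2.2.2.2.2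
  refine Set.Finite.induction_on (motive := fun J _ => ∃ N : Nm S, GN n g N h i ∧
    vl n g N = ⋂ q ∈ J, vl n g (F q)) J J.toFinite ?_ ?_
  · refine ⟨Fo.nil, trivial, ?_⟩
    simp [vl, val]
  · intro b J' _ _ ih
    obtain ⟨N, hN, hNe⟩ := ih
    obtain ⟨N'', h1, h2⟩ := hI (F b) N h i (hF b) hN
    refine ⟨N'', h1, ?_⟩
    rw [h2, hNe, biInter_insert]

/-- closedness of the values of all good names -/
private theorem closed_SA (hSU : StSU) {A S : Type} [Finite A] [Finite S] (n : ℕ)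
    (g : Tre A → S) (N : Nm S) : ∀ (h : ℕ) (i : Ordinal.{0}), (∀ j < i, StageOK n g j) →
      GN n g N h i → IsClosed[stg n g i h] (vl n g N) := by
  induction N with
  | nil => intro h i _ _; exact @isClosed_univ _ (stg n g i h)
  | leaf a rest _ => exact a.elim
  | cons l kids rest ihk ihr =>
    intro h i hst hG
    have hmono := (hSU A S n g).2.2.2.1
    cases l with
    | base M K =>
      obtain ⟨h1, _, h3, h4, _, h6⟩ := hG
      have hr := ihr h i hst h6
      have hP : IsClosed[stg n g i h] (g ⁻¹' K) :=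
        closed_mono_SA (le_trans (stg_height_SA hSU n g i h1) ((hSU A S n g).2.2.2.2.2.1 i M h3)) h4
      exact @IsClosed.inter _ _ _ (stg n g i h) hP hr
    | cl M s j =>
      obtain ⟨h1, _, h3, h4, h5, h6⟩ := hG
      have hr := ihr h i hst h6
      have hP : IsClosed[stg n g i h] (closure[stg n g j M] (g ⁻¹' {s} ∩ vl n g kids)) :=
        closed_mono_SA (le_trans (stg_height_SA hSU n g i h1) (hmono j i M h4.le))
          (@isClosed_closure _ (stg n g j M) _)
      exact @IsClosed.inter _ _ _ (stg n g i h) hP hr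
    | dd m L x j =>
      obtain ⟨h1, _, h4, h5, h6⟩ := hG
      have hr := ihr h i hst h6
      have hk := ihk (m + 1) j (fun j' hj' => hst j' (lt_trans hj' h4)) h5
      have hd := (hZM (Tre A) S (stg n g j) g (hst j h4).1 (hst j h4).2.1 m).2.2 L
      have hit := (hIL (Tre A) (stg n g j (m + 1)) _ hd (ω ^ (x : Ordinal.{0}))).closed _ hk
      have hP : IsClosed[stg n g i h] (iter (dL (stg n g j) g m L) (vl n g kids) (ω ^ (x : Ordinal.{0}))) :=
        closed_mono_SA (le_trans (stg_height_SA hSU n g i h1) (hmono j i (m + 1) h4.le)) hit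
      exact @IsClosed.inter _ _ _ (stg n g i h) hP hr

/-- **SA** -/
theorem hSA (hBB : StBB) (hSU : StSU) (hSD : StSD) : StSA := by
  intro A S _ _ n g Ga hyp N h i hst hG
  refine ⟨closed_SA hSU n g N h i hst hG, ?_⟩
  have key : ∀ (N : Nm S) (a : A) (h : ℕ) (i : Ordinal.{0}), (∀ j < i, StageOK n g j) →
      GN n g N h i → Spl_SA n g h i a (vl n g N) := by
    intro N a
    induction N with
    | nil =>
      intro h i _ _
      refine ⟨Unit, inferInstance, fun _ => Fo.nil, fun _ => Fo.nil, fun _ => ⟨trivial, trivial⟩, ?_⟩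
      rw [iUnion_const]
      simp [vl, val]
    | leaf a rest _ => exact a.elim
    | cons l kids rest ihk ihr =>
      intro h i hst hG
      cases l with
      | base M K =>
        obtain ⟨h1, h2, h3, h4, _, h6⟩ := hG
        have hr := ihr h i hst h6
        refine Spl_inter_SA hSU n g h i a (g ⁻¹' K) (vl n g rest) ?_ hr
        obtain ⟨k, K₀, K₁, c0, c1, he⟩ := (hBB A S g Ga hyp.hom (n - M)).2.2.2 K h4 a
        refine ⟨Fin k, inferInstance, fun q => Fo.cons (Lab.base M (K₀ q)) Fo.nil Fo.nil,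
          fun q => Fo.cons (Lab.base M (K₁ q)) Fo.nil Fo.nil, fun q =>
          ⟨⟨h1, h2, h3, c0 q, rfl, trivial⟩, ⟨h1, h2, h3, c1 q, rfl, trivial⟩⟩, ?_⟩
        simpa [vl, val] using he
      | cl M s j =>
        obtain ⟨h1, h2, h3, h4, h5, h6⟩ := hG
        have hr := ihr h i hst h6
        refine Spl_inter_SA hSU n g h i a (closure[stg n g j M] (g ⁻¹' {s} ∩ vl n g kids))
          (vl n g rest) ?_ hr
        obtain ⟨ι, hι, N₀, N₁, hN, hke⟩ := ihk 0 j (fun j' hj' => hst j' (lt_trans hj' h4)) h5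
        obtain ⟨k, ⟨eq⟩⟩ := Finite.exists_equiv_fin ι
        have hke' : vl n g kids ∩ range (Tre.mk a) = ⋃ q : Fin k, Tre.mk a ''
            (vl n g (N₀ (eq.symm q)) ×ˢ vl n g (N₁ (eq.symm q))) := by
          rw [hke]
          exact (eq.symm.surjective.iUnion_comp (fun q => Tre.mk a ''
            (vl n g (N₀ q) ×ˢ vl n g (N₁ q)))).symm
        have hsc := hSC (Tre A) S (stg n g j M) g (Tre.mk a) (Ga a) (hyp.hom a) ((hst j h4).2.2 a M) s k
          _ _ (vl n g kids) hke'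
        refine ⟨Fin k × {p : S × S | Ga a p = s}, inferInstance,
          fun q => Fo.cons (Lab.cl M q.2.1.1 j) (N₀ (eq.symm q.1)) Fo.nil,
          fun q => Fo.cons (Lab.cl M q.2.1.2 j) (N₁ (eq.symm q.1)) Fo.nil, fun q =>
          ⟨⟨h1, h2, h3, h4, (hN _).1, trivial⟩, ⟨h1, h2, h3, h4, (hN _).2, trivial⟩⟩, ?_⟩
        rw [hsc]
        ext t
        simp only [mem_iUnion, vl, val, inter_univ]
        constructor
        · rintro ⟨q, p, hp, ht⟩
          exact ⟨(q, ⟨p, hp⟩), ht⟩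
        · rintro ⟨⟨q, ⟨p, hp⟩⟩, ht⟩
          exact ⟨q, p, hp, ht⟩
      | dd m L x j =>
        obtain ⟨h1, h2, h4, h5, h6⟩ := hG
        have hr := ihr h i hst h6
        refine Spl_inter_SA hSU n g h i a
          (iter (dL (stg n g j) g m L) (vl n g kids) (ω ^ (x : Ordinal.{0}))) (vl n g rest) ?_ hr
        have hst' : ∀ j' < j, StageOK n g j' := fun j' hj' => hst j' (lt_trans hj' h4)
        obtain ⟨ι, hι, N₀, N₁, hN, hke⟩ := ihk (m + 1) j hst' h5
        obtain ⟨k, ⟨eq⟩⟩ := Finite.exists_equiv_fin ι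
        have hke' : vl n g kids ∩ range (Tre.mk a) = ⋃ q : Fin k, Tre.mk a ''
            (vl n g (N₀ (eq.symm q)) ×ˢ vl n g (N₁ (eq.symm q))) := by
          rw [hke]
          exact (eq.symm.surjective.iUnion_comp (fun q => Tre.mk a ''
            (vl n g (N₀ q) ×ˢ vl n g (N₁ q)))).symm
        obtain ⟨K, J, L₀, L₁, _, hsd⟩ := hSD (Tre A) S (stg n g j) g (Tre.mk a) (Ga a) (hst j h4).1
          (hst j h4).2.1 (hyp.hom a) ((hst j h4).2.2 a) m L x k _ _ (vl n g kids)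
          (fun q => closed_SA hSU n g (N₀ (eq.symm q)) (m + 1) j hst' (hN _).1)
          (fun q => closed_SA hSU n g (N₁ (eq.symm q)) (m + 1) j hst' (hN _).2)
          (closed_SA hSU n g kids (m + 1) j hst' h5) hke'
        have g0 : ∀ r : Fin K, ∃ N : Nm S, GN n g N h i ∧ vl n g N = ⋂ q ∈ J r,
            vl n g (Fo.cons (Lab.dd m (L₀ r q) x j) (N₀ (eq.symm q)) Fo.nil) := fun r =>
          biInter_SA hSU n g h i (J r)
            (fun q => Fo.cons (Lab.dd m (L₀ r q) x j) (N₀ (eq.symm q)) Fo.nil)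
            (fun q => ⟨h1, h2, h4, (hN _).1, trivial⟩)
        have g1 : ∀ r : Fin K, ∃ N : Nm S, GN n g N h i ∧ vl n g N = ⋂ q ∈ J r,
            vl n g (Fo.cons (Lab.dd m (L₁ r q) x j) (N₁ (eq.symm q)) Fo.nil) := fun r =>
          biInter_SA hSU n g h i (J r)
            (fun q => Fo.cons (Lab.dd m (L₁ r q) x j) (N₁ (eq.symm q)) Fo.nil)
            (fun q => ⟨h1, h2, h4, (hN _).2, trivial⟩)
        choose Q₀ hQ₀ using g0
        choose Q₁ hQ₁ using g1
        refine ⟨Fin K, inferInstance, Q₀, Q₁, fun r => ⟨(hQ₀ r).1, (hQ₁ r).1⟩, ?_⟩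
        rw [hsd]
        refine iUnion_congr fun r => ?_
        rw [(hQ₀ r).2, (hQ₁ r).2]
        simp only [vl, val, inter_univ]
  intro a
  obtain ⟨ι, hι, N₀, N₁, hN, he⟩ := key N a h i hst hG
  obtain ⟨k, ⟨eq⟩⟩ := Finite.exists_equiv_fin ι
  refine ⟨k, fun q => N₀ (eq.symm q), fun q => N₁ (eq.symm q), fun q => hN _, ?_⟩
  rw [he]
  exact (eq.symm.surjective.iUnion_comp (fun q => Tre.mk a ''
    (vl n g (N₀ q) ×ˢ vl n g (N₁ q)))).symm

end Pool.Agent.Helper24.WH

end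

section

/-!
# PROJECT WH (MP_76577a_lc), module SD: splitting of the operators `D` (3.9)
-/

set_option autoImplicit false

namespace Pool.Agent.Helper24.WH

open Set TopologicalSpace Ordinal Topology

/-- reindexing a finite union by `Fin N` -/
private theorem reindex_SD {X A : Type} {k : ℕ} (ι : Type) [Finite ι]
    (F₀ F₁ : (ℕ → A) → Fin k → Set X) (D : Set (X × X))
    (J : ι → Set (Fin k)) (L₀ L₁ : ι → Fin k → ℕ → A) (hJ : ∀ r, (J r).Nonempty)
    (h : D = ⋃ r, (⋂ q ∈ J r, F₀ (L₀ r q) q) ×ˢ (⋂ q ∈ J r, F₁ (L₁ r q) q)) :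
    ∃ (N : ℕ) (J : Fin N → Set (Fin k)) (L₀ L₁ : Fin N → Fin k → ℕ → A), (∀ r, (J r).Nonempty) ∧
      D = ⋃ r, (⋂ q ∈ J r, F₀ (L₀ r q) q) ×ˢ (⋂ q ∈ J r, F₁ (L₁ r q) q) := by
  obtain ⟨N, ⟨f⟩⟩ := Finite.exists_equiv_fin ι
  refine ⟨N, J ∘ f.symm, L₀ ∘ f.symm, L₁ ∘ f.symm, fun r => hJ _, ?_⟩
  rw [h]
  exact (f.symm.iSup_comp
    (g := fun r => (⋂ q ∈ J r, F₀ (L₀ r q) q) ×ˢ (⋂ q ∈ J r, F₁ (L₁ r q) q))).symm

/-- regrouping a countable intersection by a colouring of the indices with finitely many colours -/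
private theorem regroup_SD {X T : Type} {k : ℕ} (c : ℕ → T × Fin k) (H : T → Fin k → Set X) :
    ∃ φ : Fin k → ℕ → ℕ,
      ⋂ i, H (c i).1 (c i).2 = ⋂ q ∈ range (fun i => (c i).2), ⋂ n, H (c (φ q n)).1 q := by
  classical
  have hch : ∀ q : Fin k, ∃ i : ℕ, q ∈ range (fun i => (c i).2) → (c i).2 = q := by
    intro q
    by_cases hq : q ∈ range (fun i => (c i).2)
    · obtain ⟨i, hi⟩ := hq
      exact ⟨i, fun _ => hi⟩
    · exact ⟨0, fun h => absurd h hq⟩
  choose j hj using hch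
  refine ⟨fun q n => if (c n).2 = q then n else j q, ?_⟩
  ext y
  simp only [mem_iInter]
  constructor
  · intro h q hq n
    by_cases hn : (c n).2 = q
    · have := h n
      simp only [hn, if_true]
      rw [hn] at this
      exact this
    · have h1 := h (j q)
      rw [hj q hq] at h1
      simp only [hn, if_false]
      exact h1
  · intro h i
    have := h (c i).2 ⟨i, rfl⟩ i
    simpa using this

/-- the operator `z = Z m t` as an operator for the coarser topology -/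
private theorem mcl_SD {X S : Type} (hZM : StZM) (τ : ℕ → TopologicalSpace X) (g : X → S)
    (hT : Tow τ) (hF : Fib τ g) (m : ℕ) (t : TT S m) : MCL (τ (m + 1)) (Z τ g m t) := by
  have h := (hZM X S τ g hT hF m).1 t
  refine ⟨h.mono, h.le, fun O B hO => h.loc O B ?_⟩
  exact ⟨IsClosed.mono hO.1 (hT.mono m), IsOpen.mono hO.2 (hT.mono m)⟩

/-- iteration of one step -/
private theorem iter_one_SD {X : Type} (hIT : StIT) (d : Set X → Set X)
    (hm : ∀ A B, A ⊆ B → d A ⊆ d B) (hle : ∀ B, d B ⊆ B) (B : Set X) : iter d B 1 = d B := by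
  obtain ⟨h0, h1, -⟩ := hIT X d hm hle
  have := h1 B 0
  rw [h0, zero_add] at this
  exact this

/-- the case `x = 0` -/
private theorem core_zero_SD (hRD : StRD) (hPZ : StPZ) (hZM : StZM) (hZA : StZA)
    (hHA : StHA) (hTB : StTB) (hFN : StFN) (hTP : StTP)
    (X S : Type) [Finite S] (τ : ℕ → TopologicalSpace X) (g : X → S) (G : S × S → S)
    (hPTow : Tow (prodT τ τ)) (hPFib : Fib (prodT τ τ) (Prod.map g g))
    (m : ℕ) (L : ℕ → TT S m) (k : ℕ) (B₀ B₁ : Fin k → Set X)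
    (hB₀ : ∀ q, IsClosed[τ (m + 1)] (B₀ q)) (hB₁ : ∀ q, IsClosed[τ (m + 1)] (B₁ q)) :
    ∃ (N : ℕ) (J : Fin N → Set (Fin k)) (L₀ L₁ : Fin N → Fin k → ℕ → TT S m), (∀ r, (J r).Nonempty) ∧
      dL (prodT τ τ) (G ∘ Prod.map g g) m L (⋃ q, B₀ q ×ˢ B₁ q) =
        ⋃ r, (⋂ q ∈ J r, dL τ g m (L₀ r q) (B₀ q)) ×ˢ (⋂ q ∈ J r, dL τ g m (L₁ r q) (B₁ q)) := by
  classical
  have hCq : ∀ q, IsClosed[prodT τ τ (m + 1)] (B₀ q ×ˢ B₁ q) := fun q =>
    @IsClosed.prod X X (τ (m + 1)) (τ (m + 1)) _ _ (hB₀ q) (hB₁ q)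
  have hC : IsClosed[prodT τ τ (m + 1)] (⋃ q, B₀ q ×ˢ B₁ q) :=
    @isClosed_iUnion_of_finite _ _ (prodT τ τ (m + 1)) _ _ hCq
  obtain ⟨M, hMf, hM⟩ := (hRD (S × S) S G m L).1
  have hM' := hM (X × X) (prodT τ τ) (Prod.map g g) hPTow hPFib _ hC
  -- step 1
  have h1 : ∀ i, hom (prodT τ τ) (G ∘ Prod.map g g) m (L i) (⋃ q, B₀ q ×ˢ B₁ q) =
      ⋃ t ∈ M i, ⋃ q, hom (prodT τ τ) (Prod.map g g) m t (B₀ q ×ˢ B₁ q) := by
    intro i
    rw [hM' i]
    refine iUnion₂_congr fun t _ => ?_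
    exact hHA (X × X) (prodT τ τ (m + 1)) (Z (prodT τ τ) (Prod.map g g) m t) (hPTow.zd _)
      (mcl_SD hZM _ _ hPTow hPFib m t) (Fin k) (fun q => B₀ q ×ˢ B₁ q) hCq
  -- step 2
  obtain ⟨-, htp, -⟩ := hTP
  obtain ⟨hrefl, htrans⟩ := htp (S × S) m
  obtain ⟨-, -, hwqo⟩ := hTB (S × S) m k
  obtain ⟨𝒞, h𝒞f, h𝒞m, h𝒞⟩ := hFN (TT (S × S) m × Fin k) (fun a b => TT.Le m a.1 b.1 ∧ a.2 = b.2)
    (fun a => ⟨hrefl _, rfl⟩) (fun a b c hab hbc => ⟨htrans _ _ _ hab.1 hbc.1, hab.2.trans hbc.2⟩)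
    hwqo (fun i => M i ×ˢ (univ : Set (Fin k))) (fun i => (hMf i).prod finite_univ)
  have h2 := h𝒞 (X × X) (fun a => hom (prodT τ τ) (Prod.map g g) m a.1 (B₀ a.2 ×ˢ B₁ a.2))
    (fun a b hab => by
      obtain ⟨hab1, hab2⟩ := hab
      show hom _ _ _ b.1 (B₀ b.2 ×ˢ B₁ b.2) ⊆ hom _ _ _ a.1 (B₀ a.2 ×ˢ B₁ a.2)
      rw [hab2]
      exact (hZA (X × X) (S × S) (prodT τ τ) (Prod.map g g) m).2.1 _ _ hab1 _)
  have h3 : dL (prodT τ τ) (G ∘ Prod.map g g) m L (⋃ q, B₀ q ×ˢ B₁ q) =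
      ⋃ c ∈ 𝒞, ⋂ i, hom (prodT τ τ) (Prod.map g g) m (c i).1 (B₀ (c i).2 ×ˢ B₁ (c i).2) := by
    rw [← h2]
    show ⋂ i, hom (prodT τ τ) (G ∘ Prod.map g g) m (L i) (⋃ q, B₀ q ×ˢ B₁ q) = _
    refine iInter_congr fun i => ?_
    rw [h1 i]
    ext y
    simp only [mem_iUnion, exists_prop, mem_prod, mem_univ, and_true, Prod.exists]
    constructor
    · rintro ⟨t, ht, q, hy⟩
      exact ⟨t, q, ht, hy⟩
    · rintro ⟨t, q, ht, hy⟩
      exact ⟨t, ht, q, hy⟩
  -- step 3
  have h4 : ∀ c : ℕ → TT (S × S) m × Fin k, ∃ L₀ L₁ : Fin k → ℕ → TT S m,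
      ⋂ i, hom (prodT τ τ) (Prod.map g g) m (c i).1 (B₀ (c i).2 ×ˢ B₁ (c i).2) =
        (⋂ q ∈ range (fun i => (c i).2), dL τ g m (L₀ q) (B₀ q)) ×ˢ
        (⋂ q ∈ range (fun i => (c i).2), dL τ g m (L₁ q) (B₁ q)) := by
    intro c
    obtain ⟨φ₀, hφ₀⟩ := regroup_SD c (fun t q => hom τ g m (TT.map Prod.fst m t) (B₀ q))
    obtain ⟨φ₁, hφ₁⟩ := regroup_SD c (fun t q => hom τ g m (TT.map Prod.snd m t) (B₁ q))
    refine ⟨fun q n => TT.map Prod.fst m (c (φ₀ q n)).1, fun q n => TT.map Prod.snd m (c (φ₁ q n)).1, ?_⟩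
    have e1 : ∀ i, hom (prodT τ τ) (Prod.map g g) m (c i).1 (B₀ (c i).2 ×ˢ B₁ (c i).2) =
        hom τ g m (TT.map Prod.fst m (c i).1) (B₀ (c i).2) ×ˢ
        hom τ g m (TT.map Prod.snd m (c i).1) (B₁ (c i).2) := fun i =>
      (hPZ X X S S τ τ g g m).2.1 (c i).1 _ _
    have e2 : ⋂ i, hom (prodT τ τ) (Prod.map g g) m (c i).1 (B₀ (c i).2 ×ˢ B₁ (c i).2) =
        (⋂ i, hom τ g m (TT.map Prod.fst m (c i).1) (B₀ (c i).2)) ×ˢ
        (⋂ i, hom τ g m (TT.map Prod.snd m (c i).1) (B₁ (c i).2)) := by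
      ext ⟨y, z⟩
      simp only [e1, mem_iInter, mem_prod]
      exact forall_and
    rw [e2]
    congr 1
  choose L₀ L₁ hL using h4
  have hfin : Finite 𝒞 := h𝒞f.to_subtype
  refine reindex_SD (ι := 𝒞) (fun l q => dL τ g m l (B₀ q)) (fun l q => dL τ g m l (B₁ q)) _
    (fun c => range (fun i => (c.1 i).2)) (fun c => L₀ c.1) (fun c => L₁ c.1)
    (fun c => ⟨_, ⟨0, rfl⟩⟩) ?_
  rw [h3, biUnion_eq_iUnion]
  exact iUnion_congr fun c => hL c.1

/-- the case `x ≥ 1` -/
private theorem core_pos_SD (hUF : StUF) (hRD : StRD) (hPZ : StPZ) (hZM : StZM)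
    (X S : Type) [Finite S] (τ : ℕ → TopologicalSpace X) (g : X → S) (G : S × S → S)
    (hPTow : Tow (prodT τ τ)) (hPFib : Fib (prodT τ τ) (Prod.map g g))
    (m : ℕ) (L : ℕ → TT S m) (k : ℕ) (B₀ B₁ : Fin k → Set X)
    (hB₀ : ∀ q, IsClosed[τ (m + 1)] (B₀ q)) (hB₁ : ∀ q, IsClosed[τ (m + 1)] (B₁ q))
    (x : Ordinal.{0}) (hx : 1 ≤ x) :
    ∃ (N : ℕ) (J : Fin N → Set (Fin k)) (L₀ L₁ : Fin N → Fin k → ℕ → TT S m), (∀ r, (J r).Nonempty) ∧
      iter (dL (prodT τ τ) (G ∘ Prod.map g g) m L) (⋃ q, B₀ q ×ˢ B₁ q) (ω ^ x) =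
        ⋃ r, (⋂ q ∈ J r, iter (dL τ g m (L₀ r q)) (B₀ q) (ω ^ x)) ×ˢ
          (⋂ q ∈ J r, iter (dL τ g m (L₁ r q)) (B₁ q) (ω ^ x)) := by
  classical
  have hCq : ∀ q, IsClosed[prodT τ τ (m + 1)] (B₀ q ×ˢ B₁ q) := fun q =>
    @IsClosed.prod X X (τ (m + 1)) (τ (m + 1)) _ _ (hB₀ q) (hB₁ q)
  have hC : IsClosed[prodT τ τ (m + 1)] (⋃ q, B₀ q ×ˢ B₁ q) :=
    @isClosed_iUnion_of_finite _ _ (prodT τ τ (m + 1)) _ _ hCq
  obtain ⟨𝒞, h𝒞f, h𝒞⟩ := (hRD (S × S) S G m L).2
  have h1 := (h𝒞 (X × X) (prodT τ τ) (Prod.map g g) hPTow hPFib _ hC).2 x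
  have h2 : ∀ L' : ℕ → TT (S × S) m,
      iter (dL (prodT τ τ) (Prod.map g g) m L') (⋃ q, B₀ q ×ˢ B₁ q) (ω ^ x) =
        ⋃ q, iter (dL τ g m (fun i => TT.map Prod.fst m (L' i))) (B₀ q) (ω ^ x) ×ˢ
          iter (dL τ g m (fun i => TT.map Prod.snd m (L' i))) (B₁ q) (ω ^ x) := by
    intro L'
    have := (hUF (X × X) (prodT τ τ (m + 1)) (hPTow.zd _) (Fin k)).2 (dL (prodT τ τ) (Prod.map g g) m L')
      ((hZM (X × X) (S × S) (prodT τ τ) (Prod.map g g) hPTow hPFib m).2.2 L')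
      (fun q => B₀ q ×ˢ B₁ q) x hCq hx
    rw [this]
    exact iUnion_congr fun q => (hPZ X X S S τ τ g g m).2.2 L' (B₀ q) (B₁ q) (ω ^ x)
  have hfin : Finite 𝒞 := h𝒞f.to_subtype
  refine reindex_SD (ι := 𝒞 × Fin k) (fun l q => iter (dL τ g m l) (B₀ q) (ω ^ x))
    (fun l q => iter (dL τ g m l) (B₁ q) (ω ^ x)) _
    (fun r => {r.2}) (fun r _ i => TT.map Prod.fst m (r.1.1 i))
    (fun r _ i => TT.map Prod.snd m (r.1.1 i)) (fun r => ⟨_, rfl⟩) ?_
  rw [h1]
  ext y
  simp only [h2, mem_iUnion, exists_prop, Prod.exists, biInter_singleton, Subtype.exists]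

theorem hSD (hUF : StUF) (hRD : StRD) (hPZ : StPZ) (hEZ : StEZ) (hPT : StPT) (hZM : StZM)
    (hZA : StZA) (hHA : StHA) (hTB : StTB) (hFN : StFN) (hTP : StTP) (hIT : StIT) (hIL : StIL) :
    StSD := by
  intro X S _ τ g e G hT hF hg hCE m L x k B₀ B₁ B hB₀ hB₁ hB hBe
  obtain ⟨hPTow, hPFib⟩ := hPT X X S S τ τ g g hT hT hF hF
  have hcl : Clp (τ (m + 1)) (range e) := (hCE (m + 1)).2.2
  have hder := (hZM X S τ g hT hF m).2.2 L
  have hloc := (hIL X (τ (m + 1)) (dL τ g m L) hder (ω ^ (x : Ordinal.{0}))).loc (range e) B hcl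
  have hBC : B ∩ range e = e '' (⋃ q, B₀ q ×ˢ B₁ q) := by rw [hBe, image_iUnion]
  have hcomp : g ∘ e = G ∘ Prod.map g g := by
    funext p
    exact hg p
  have h1 : iter (dL τ g m L) B (ω ^ (x : Ordinal.{0})) ∩ range e =
      e '' iter (dL (prodT τ τ) (G ∘ Prod.map g g) m L) (⋃ q, B₀ q ×ˢ B₁ q)
        (ω ^ (x : Ordinal.{0})) := by
    have h := (hEZ (X × X) X S (prodT τ τ) τ g e hCE m).2.2 L (⋃ q, B₀ q ×ˢ B₁ q)
      (ω ^ (x : Ordinal.{0}))
    rw [hcomp] at h
    rw [← h, ← hBC]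
    exact hloc.symm
  suffices h : ∃ (N : ℕ) (J : Fin N → Set (Fin k)) (L₀ L₁ : Fin N → Fin k → ℕ → TT S m),
      (∀ r, (J r).Nonempty) ∧
      iter (dL (prodT τ τ) (G ∘ Prod.map g g) m L) (⋃ q, B₀ q ×ˢ B₁ q) (ω ^ (x : Ordinal.{0})) =
        ⋃ r, (⋂ q ∈ J r, iter (dL τ g m (L₀ r q)) (B₀ q) (ω ^ (x : Ordinal.{0}))) ×ˢ
          (⋂ q ∈ J r, iter (dL τ g m (L₁ r q)) (B₁ q) (ω ^ (x : Ordinal.{0}))) by
    obtain ⟨N, J, L₀, L₁, hJ, h⟩ := h
    exact ⟨N, J, L₀, L₁, hJ, by rw [h1, h, image_iUnion]⟩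
  rcases Nat.eq_zero_or_pos x with rfl | hx
  · obtain ⟨N, J, L₀, L₁, hJ, h⟩ := core_zero_SD hRD hPZ hZM hZA hHA hTB hFN hTP X S τ g G hPTow hPFib
      m L k B₀ B₁ hB₀ hB₁
    refine ⟨N, J, L₀, L₁, hJ, ?_⟩
    have e0 : ω ^ ((0 : ℕ) : Ordinal.{0}) = 1 := by simp
    have e1 : ∀ (l : ℕ → TT S m) (D : Set X), iter (dL τ g m l) D 1 = dL τ g m l D := fun l D =>
      iter_one_SD hIT _ ((hZM X S τ g hT hF m).2.2 l).mono ((hZM X S τ g hT hF m).2.2 l).le D
    have hPF2 : Fib (prodT τ τ) (G ∘ Prod.map g g) := by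
      rw [← hcomp]
      intro s
      have hc := hF s
      have hE := (hCE 0).2.1
      constructor
      · have := hc.1
        rw [preimage_comp]
        rw [hE]
        exact (@isClosed_induced_iff _ _ (τ 0) _ e).2 ⟨_, hc.1, rfl⟩
      · rw [preimage_comp]
        rw [hE]
        exact (@isOpen_induced_iff _ _ (τ 0) _ e).2 ⟨_, hc.2, rfl⟩
    have hderP := (hZM (X × X) S (prodT τ τ) (G ∘ Prod.map g g) hPTow hPF2 m).2.2 L
    rw [e0, iter_one_SD hIT _ hderP.mono hderP.le]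
    simp only [e1]
    exact h
  · have hx' : (1 : Ordinal.{0}) ≤ (x : Ordinal.{0}) := by exact_mod_cast hx
    exact core_pos_SD hUF hRD hPZ hZM X S τ g G hPTow hPFib m L k B₀ B₁ hB₀ hB₁ _ hx'

end Pool.Agent.Helper24.WH

end

section

/-!
# PROJECT WH (MP_76577a_lc), module SU: unfolding of the stage topologies, monotonicity
-/

set_option autoImplicit false

namespace Pool.Agent.Helper24.WH

open Set TopologicalSpace Topology
open Ordinal hiding univ

/-! ## node topologies -/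

theorem nt_anti_SU {A : Type} {G G' : Set (Set (Tre A))} (h : G ⊆ G') : nt G' ≤ nt G := by
  apply generateFrom_anti
  apply union_subset_union_right
  rintro U ⟨F, hF, u, rfl⟩
  exact ⟨F, h hF, u, rfl⟩

theorem sub_nil_SU {A : Type} (t : Tre A) : t.sub [] = t := rfl

theorem nt_open_SU {A : Type} {G : Set (Set (Tre A))} {F : Set (Tre A)} (hF : F ∈ G) : IsOpen[nt G] F := by
  apply isOpen_generateFrom_of_mem
  right
  refine ⟨F, hF, [], ?_⟩
  ext t
  rfl

theorem nt_univ_SU {A : Type} : nt ({univ} : Set (Set (Tre A))) = nt ∅ := by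
  apply le_antisymm
  · exact nt_anti_SU (empty_subset _)
  · apply le_generateFrom
    rintro U (⟨u, a, rfl⟩ | ⟨F, hF, u, rfl⟩)
    · apply isOpen_generateFrom_of_mem
      left
      exact ⟨u, a, rfl⟩
    · have hF' : F = univ := hF
      subst hF'
      have : {t : Tre A | t.sub u ∈ (univ : Set (Tre A))} = univ := by
        ext t
        simp
      rw [this]
      exact @isOpen_univ _ (nt ∅)

/-! ## names -/

theorem good_mono_SU {S : Type} (n : ℕ) (ok : ℕ → Set S → Prop) : ∀ (N : Nm S) (h h' : ℕ) (i i' : Ordinal.{0}),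
    h' ≤ h → i ≤ i' → Good n ok N h i → Good n ok N h' i' := by
  intro N
  induction N with
  | nil => intro h h' i i' _ _ _; exact trivial
  | leaf a rest _ => exact a.elim
  | cons l kids rest ihk ihr =>
    intro h h' i i' hh hi hG
    cases l with
    | base M K =>
      simp only [Good] at hG ⊢
      obtain ⟨h1, h2, h3, h4, h5, h6⟩ := hG
      exact ⟨hh.trans h1, h2, h3, h4, h5, ihr h h' i i' hh hi h6⟩
    | cl M s j =>
      simp only [Good] at hG ⊢
      obtain ⟨h1, h2, h3, h4, h5, h6⟩ := hG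
      exact ⟨hh.trans h1, h2, h3, h4.trans_le hi, h5, ihr h h' i i' hh hi h6⟩
    | dd m L x j =>
      simp only [Good] at hG ⊢
      obtain ⟨h1, h2, h3, h4, h5⟩ := hG
      exact ⟨hh.trans h1, h2, h3.trans_le hi, h4, ihr h h' i i' hh hi h5⟩

theorem good_one_SU {S : Type} (n : ℕ) (ok : ℕ → Set S → Prop) : ∀ (N : Nm S) (i : Ordinal.{0}),
    Good n ok N 0 i → Good n ok N 1 i := by
  intro N
  induction N with
  | nil => intro i _; exact trivial
  | leaf a rest _ => exact a.elim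
  | cons l kids rest ihk ihr =>
    intro i hG
    cases l with
    | base M K =>
      simp only [Good] at hG ⊢
      obtain ⟨h1, h2, h3, h4, h5, h6⟩ := hG
      exact ⟨h2, h2, h3, h4, h5, ihr i h6⟩
    | cl M s j =>
      simp only [Good] at hG ⊢
      obtain ⟨h1, h2, h3, h4, h5, h6⟩ := hG
      exact ⟨h2, h2, h3, h4, h5, ihr i h6⟩
    | dd m L x j =>
      simp only [Good] at hG ⊢
      obtain ⟨h1, h2, h3, h4, h5⟩ := hG
      exact ⟨Nat.le_add_left 1 m, h2, h3, h4, ihr i h5⟩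

/-- the value of a good name of stage below `i` depends only on the topologies of the stages below `i` -/
theorem val_congr_SU {A S : Type} (n : ℕ) (ok : ℕ → Set S → Prop) (g : Tre A → S)
    (τ τ' : Ordinal.{0} → ℕ → TopologicalSpace (Tre A)) : ∀ (N : Nm S) (h : ℕ) (i : Ordinal.{0}),
    (∀ j, j < i → τ j = τ' j) → Good n ok N h i → val g τ N = val g τ' N := by
  intro N
  induction N with
  | nil => intro h i _ _; rfl
  | leaf a rest _ => exact a.elim
  | cons l kids rest ihk ihr =>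
    intro h i hτ hG
    cases l with
    | base M K =>
      simp only [Good] at hG
      obtain ⟨h1, h2, h3, h4, h5, h6⟩ := hG
      simp only [val]
      rw [ihr h i hτ h6]
    | cl M s j =>
      simp only [Good] at hG
      obtain ⟨h1, h2, h3, h4, h5, h6⟩ := hG
      simp only [val]
      rw [ihr h i hτ h6, ihk 0 j (fun j' hj' => hτ j' (hj'.trans h4)) h5, hτ j h4]
    | dd m L x j =>
      simp only [Good] at hG
      obtain ⟨h1, h2, h3, h4, h5⟩ := hG
      simp only [val]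
      rw [ihr h i hτ h5, ihk (m + 1) j (fun j' hj' => hτ j' (hj'.trans h3)) h4, hτ j h3]

/-- concatenation of names -/
def app_SU {S : Type} : Nm S → Nm S → Nm S
  | .nil, N' => N'
  | .leaf a _, _ => a.elim
  | .cons l kids rest, N' => .cons l kids (app_SU rest N')

theorem good_app_SU {S : Type} (n : ℕ) (ok : ℕ → Set S → Prop) (N' : Nm S) : ∀ (N : Nm S) (h : ℕ) (i : Ordinal.{0}),
    Good n ok N h i → Good n ok N' h i → Good n ok (app_SU N N') h i := by
  intro N
  induction N with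
  | nil => intro h i _ h2; exact h2
  | leaf a rest _ => exact a.elim
  | cons l kids rest _ ihr =>
    intro h i hG hG'
    cases l with
    | base M K =>
      simp only [Good, app_SU] at hG ⊢
      obtain ⟨h1, h2, h3, h4, h5, h6⟩ := hG
      exact ⟨h1, h2, h3, h4, h5, ihr h i h6 hG'⟩
    | cl M s j =>
      simp only [Good, app_SU] at hG ⊢
      obtain ⟨h1, h2, h3, h4, h5, h6⟩ := hG
      exact ⟨h1, h2, h3, h4, h5, ihr h i h6 hG'⟩
    | dd m L x j =>
      simp only [Good, app_SU] at hG ⊢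
      obtain ⟨h1, h2, h3, h4, h5⟩ := hG
      exact ⟨h1, h2, h3, h4, ihr h i h5 hG'⟩

theorem val_app_SU {A S : Type} (g : Tre A → S) (τ : Ordinal.{0} → ℕ → TopologicalSpace (Tre A)) (N' : Nm S) :
    ∀ N : Nm S, val g τ (app_SU N N') = val g τ N ∩ val g τ N' := by
  intro N
  induction N with
  | nil => simp only [app_SU, val, univ_inter]
  | leaf a rest _ => exact a.elim
  | cons l kids rest _ ihr =>
    cases l with
    | base M K => simp only [app_SU, val, ihr, inter_assoc]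
    | cl M s j => simp only [app_SU, val, ihr, inter_assoc]
    | dd m L x j => simp only [app_SU, val, ihr, inter_assoc]

/-- above height `n` only the empty name is good -/
theorem good_top_SU {S : Type} (n : ℕ) (ok : ℕ → Set S → Prop) (N : Nm S) (h : ℕ) (i : Ordinal.{0}) (hn : n < h)
    (hG : Good n ok N h i) : N = .nil := by
  cases N with
  | nil => rfl
  | leaf a rest => exact a.elim
  | cons l kids rest =>
    exfalso
    cases l with
    | base M K =>
      simp only [Good] at hG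
      obtain ⟨h1, h2, h3, -⟩ := hG
      omega
    | cl M s j =>
      simp only [Good] at hG
      obtain ⟨h1, h2, h3, -⟩ := hG
      omega
    | dd m L x j =>
      simp only [Good] at hG
      obtain ⟨h1, h2, -⟩ := hG
      omega

/-! ## stages -/

theorem stg_eq_SU {A S : Type} (n : ℕ) (g : Tre A → S) (i : Ordinal.{0}) (M : ℕ) :
    stg n g i M = nt {F | ∃ N : Nm S, GN n g N (M + 1) i ∧ F = vl n g N} := by
  conv_lhs => rw [stg]
  congr 1
  ext F
  constructor
  · rintro ⟨N, hN, rfl⟩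
    refine ⟨N, hN, ?_⟩
    refine val_congr_SU n (okb n g) g _ _ N (M + 1) i ?_ hN
    intro j hj
    rw [dif_pos hj]
  · rintro ⟨N, hN, rfl⟩
    refine ⟨N, hN, ?_⟩
    refine val_congr_SU n (okb n g) g _ _ N (M + 1) i ?_ hN
    intro j hj
    rw [dif_pos hj]

theorem hSU : StSU := by
  intro A S _ _ n g
  refine ⟨stg_eq_SU n g, fun N h h' i i' => good_mono_SU n (okb n g) N h h' i i', good_one_SU n (okb n g),
    ?_, ?_, ?_, ?_, ?_, ?_⟩
  · intro i i' M hi
    rw [stg_eq_SU, stg_eq_SU]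
    apply nt_anti_SU
    rintro F ⟨N, hN, rfl⟩
    exact ⟨N, good_mono_SU n (okb n g) N _ _ i i' le_rfl hi hN, rfl⟩
  · intro i M
    rw [stg_eq_SU, stg_eq_SU]
    apply nt_anti_SU
    rintro F ⟨N, hN, rfl⟩
    exact ⟨N, good_mono_SU n (okb n g) N _ _ i i (Nat.le_succ _) le_rfl hN, rfl⟩
  · intro i M hM
    rw [stg_eq_SU]
    obtain hj | ⟨j, hj⟩ : n - M = 0 ∨ ∃ j, n - M = j + 1 := by
      rcases Nat.eq_zero_or_pos (n - M) with h | h
      · exact Or.inl h
      · exact Or.inr ⟨n - M - 1, by omega⟩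
    · rw [hj]
      exact nt_anti_SU (empty_subset _)
    · rw [hj]
      show nt _ ≤ nt _
      apply nt_anti_SU
      rintro F ⟨K, rfl, hK⟩
      refine ⟨.cons (.base (M + 1) K) .nil .nil, ?_, ?_⟩
      · show Good n (okb n g) _ _ _
        simp only [Good]
        refine ⟨le_rfl, Nat.le_add_left 1 M, by omega, ?_, trivial, trivial⟩
        show IsClosed[bT g (n - (M + 1))] (g ⁻¹' K)
        have : n - (M + 1) = j := by omega
        rw [this]
        exact hK
      · show _ = val g (stg n g) _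
        simp only [val, inter_univ]
  · intro i M hM
    rw [stg_eq_SU]
    have : {F | ∃ N : Nm S, GN n g N (M + 1) i ∧ F = vl n g N} = {univ} := by
      ext F
      constructor
      · rintro ⟨N, hN, rfl⟩
        rw [good_top_SU n (okb n g) N (M + 1) i (by omega) hN]
        rfl
      · rintro rfl
        exact ⟨.nil, trivial, rfl⟩
    rw [this, nt_univ_SU]
  · intro N i M hN
    rw [stg_eq_SU]
    exact nt_open_SU ⟨N, hN, rfl⟩
  · intro N N' h i hN hN'
    exact ⟨app_SU N N', good_app_SU n (okb n g) N' N h i hN hN', val_app_SU g (stg n g) N' N⟩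

end Pool.Agent.Helper24.WH

end

section

/-!
# WH, module UF: finite versions of UN and AD
-/

set_option autoImplicit false

namespace Pool.Agent.Helper24.WH

open Set TopologicalSpace Ordinal Topology

private theorem uf_der_UF (hUN : StUN) (hIT : StIT) {X : Type} {τ : TopologicalSpace X} (hZ : ZD τ)
    {ι : Type} (d : ι → Set X → Set X) (hd : ∀ i, IsDer τ (d i)) (s : Finset ι) :
    IsDer τ (fun B => ⋃ i ∈ s, d i B) ∧
    ∀ (B : Set X) (x : Ordinal.{0}), IsClosed[τ] B →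
      iter (fun B => ⋃ i ∈ s, d i B) B (ω ^ x) = ⋃ i ∈ s, iter (d i) B (ω ^ x) := by
  classical
  induction s using Finset.induction_on with
  | empty =>
    have h0 : (fun B : Set X => ⋃ i ∈ (∅ : Finset ι), d i B) = fun _ => (∅ : Set X) := by
      funext B; simp
    rw [h0]
    refine ⟨⟨fun _ _ _ => Subset.rfl, fun _ => empty_subset _, fun O B _ => by simp,
      fun B _ => @isClosed_empty X τ⟩, fun B x _ => ?_⟩
    obtain ⟨_, h2, h3, _⟩ := hIT X (fun _ : Set X => (∅ : Set X)) (fun _ _ _ => Subset.rfl)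
      (fun _ => empty_subset _)
    have h5 : iter (fun _ : Set X => (∅ : Set X)) B (0 + 1) = ∅ := h2 B 0
    have h6 : (0 : Ordinal.{0}) + 1 ≤ ω ^ x := by
      rw [zero_add]
      exact Order.one_le_iff_pos.2 (Ordinal.opow_pos x Ordinal.omega0_pos)
    have h7 := h3 B (0 + 1) (ω ^ x) h6
    rw [h5] at h7
    rw [subset_empty_iff.1 h7]
    simp
  | insert a s ha ih =>
    have h0 : (fun B : Set X => ⋃ i ∈ insert a s, d i B) =
        fun B => d a B ∪ (fun B : Set X => ⋃ i ∈ s, d i B) B := by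
      funext B
      exact Finset.set_biUnion_insert a s (fun i => d i B)
    obtain ⟨h1, h2⟩ := hUN X τ hZ (d a) (fun B : Set X => ⋃ i ∈ s, d i B) (hd a) ih.1
    rw [h0]
    refine ⟨h1, fun B x hB => ?_⟩
    rw [h2 B x hB, ih.2 B x hB]
    exact (Finset.set_biUnion_insert a s (fun i => iter (d i) B (ω ^ x))).symm

private theorem uf_add_UF (hAD : StAD) (hIT : StIT) {X : Type} {τ : TopologicalSpace X} (hZ : ZD τ)
    {ι : Type} (d : Set X → Set X) (hd : IsDer τ d) (B : ι → Set X) (x : Ordinal.{0})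
    (hB : ∀ i, IsClosed[τ] (B i)) (hx : 1 ≤ x) (s : Finset ι) :
    IsClosed[τ] (⋃ i ∈ s, B i) ∧
      iter d (⋃ i ∈ s, B i) (ω ^ x) = ⋃ i ∈ s, iter d (B i) (ω ^ x) := by
  classical
  induction s using Finset.induction_on with
  | empty =>
    have h0 : (⋃ i ∈ (∅ : Finset ι), B i) = (∅ : Set X) := by simp
    rw [h0]
    refine ⟨@isClosed_empty X τ, ?_⟩
    obtain ⟨_, _, _, _, _, h6, _⟩ := hIT X d hd.mono hd.le
    rw [subset_empty_iff.1 (h6 ∅ (ω ^ x))]
    simp
  | insert a s ha ih =>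
    have h0 : (⋃ i ∈ insert a s, B i) = B a ∪ ⋃ i ∈ s, B i :=
      Finset.set_biUnion_insert a s B
    rw [h0]
    refine ⟨@IsClosed.union X _ _ τ (hB a) ih.1, ?_⟩
    rw [hAD X τ hZ d hd (B a) _ x (hB a) ih.1 hx, ih.2]
    exact (Finset.set_biUnion_insert a s (fun i => iter d (B i) (ω ^ x))).symm

theorem hUF (hUN : StUN) (hAD : StAD) : StUF := by
  intro X τ hZ ι _
  classical
  have := Fintype.ofFinite ι
  constructor
  · intro d hd
    have h := uf_der_UF hUN hIT hZ d hd Finset.univ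
    simpa using h
  · intro d hd B x hB hx
    have h := (uf_add_UF hAD hIT hZ d hd B x hB hx Finset.univ).2
    simpa using h

end Pool.Agent.Helper24.WH

end
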