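import Pool.Agent.Helper76.WHC.B0
import Pool.Agent.Helper76.WHC.B1
import Pool.Agent.Helper76.WHC.B2
import Pool.Agent.Helper76.WHC.B3
import Pool.Agent.Helper76.WHC.B4
import Pool.Agent.Helper76.WHC.B5
import Pool.Agent.Helper76.WHC.B6
import Pool.Agent.Helper76.WHC.B7
import Pool.Agent.Helper76.WHC.B8

set_option autoImplicit false

namespace Pool.Agent.Helper24.WH

theorem aBT : StBT := hBT 
theorem aBW : StBW := hBW 
theorem aCA : StCA := hCA 
theorem aCB : StCB := hCB 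
theorem aCT : StCT := hCT 
theorem aDN : StDN := hDN 
theorem aEC : StEC := hEC 
theorem aEX : StEX := hEX 
theorem aEZ : StEZ := hEZ 
theorem aF1 : StF1 := hF1 
theorem aF2 : StF2 := hF2 
theorem aF3 : StF3 := hF3 aF2
theorem aF4 : StF4 := hF4 
theorem aFB : StFB := hFB 
theorem aFN : StFN := hFN 
theorem aFO : StFO := hFO 
theorem aFT3 : StFT3 := hFT3 
theorem aGE : StGE := hGE 
theorem aGP : StGP := hGP 
theorem aGW : StGW := hGW 
theorem aHA : StHA := hHA 
theorem aHO : StHO := hHO 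
theorem aHU : StHU := hHU 
theorem aIL : StIL := hIL 
theorem aIT : StIT := hIT 
theorem aNS : StNS := hNS 
theorem aNT : StNT := hNT 
theorem aPR : StPR := hPR 
theorem aPT : StPT := hPT 
theorem aRA : StRA := hRA aCA
theorem aRB : StRB := hRB 
theorem aRE : StRE := hRE 
theorem aSC : StSC := hSC 
theorem aSH : StSH := hSH 
theorem aSU : StSU := hSU 
theorem aSW : StSW := hSW 
theorem aTP : StTP := hTP 
theorem aUN : StUN := hUN aIT aIL
theorem aUZ : StUZ := hUZ 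
theorem aZA : StZA := hZA 
theorem aZF : StZF := hZF 
theorem aZM : StZM := hZM 
theorem aAD : StAD := hAD aIT aIL aNS
theorem aBA : StBA := hBA aCA aRA aRB
theorem aBB : StBB := hBB aNT
theorem aBF : StBF := hBF aGP
theorem aBP : StBP := hBP aGP
theorem aC0 : StC0 := hC0 aSH
theorem aCTA : StCTA := hCTA aSH
theorem aF5 : StF5 := hF5 aF2 aNT aBB
theorem aF6 : StF6 := hF6 aF5
theorem aF7 : StF7 := hF7 aF1 aF3 aF4 aF6
theorem aHC : StHC := hHC aRB aHO
theorem aIV : StIV := hIV aRA aCA aCB aUZ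
theorem aPA : StPA := hPA aRA aCB
theorem aPZ : StPZ := hPZ aZA
theorem aRX : StRX := hRX aRA aUZ aCB
theorem aSB : StSB := hSB aNT aSU
theorem aTB : StTB := hTB aBF aBP aBT aBW aTP
theorem aUF : StUF := hUF aUN aAD
theorem aCTB : StCTB := hCTB aSH aSW aRX aRB
theorem aCTI : StCTI := hCTI aC0 aCTA aCTB aHC aRA aCB aUZ aCA
theorem aDP : StDP := hDP aPA aCB
theorem aLW : StLW := hLW aTB aTP
theorem aRL : StRL := hRL aTP aTB aFN aZM aZA aHA aHU
theorem aRP : StRP := hRP aRB aCA aHA aHU aUF aFN aTB aTP aZM aZA aIT aIL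
theorem aVP : StVP := hVP aRP aUZ aCA aIT aZM
theorem aCM : StCM := hCM aCTI aRE aRA aRB
theorem aDC : StDC := hDC aCM aRA
theorem aOR : StOR := hOR aDP aDC aDN aCB
theorem aRD : StRD := hRD aRL aHU aUF aFN aTB aTP aZM aZA
theorem aSD : StSD := hSD aUF aRD aPZ aEZ aPT aZM aZA aHA aTB aFN aTP aIT aIL
theorem aTM : StTM := hTM aVP aBA aUZ
theorem aUS : StUS := hUS aVP aBA aHU aUZ aRB aCA
theorem aRI : StRI := hRI aVP aUS aTM
theorem aSA : StSA := hSA aBB aSU aSD
theorem aSG : StSG := hSG aSA aSB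
theorem aSO : StSO := hSO aSG aSU
theorem aNV : StNV := hNV aGW aLW aSO aTB
theorem aCN : StCN := hCN aNV aCT aEC aSU aSG aNT
theorem aPI : StPI := hPI aSG aSU aCN
theorem aPL : StPL := hPL aPR aNT aCN aSU aSG
theorem aRS : StRS := hRS aSG aSU aPI aEC aPL aSC aEZ aRD aPZ aPT aAD aFN aTB aTP aIT aZM aZA aHA
theorem aFT2 : StFT2 := hFT2 aNV aFO aEX aAD aEZ aRD aPZ aPT aSG aSU aPI aZM aZA
theorem aFT4 : StFT4 := hFT4 aRS aFT2 aFT3 aNT aPI
theorem aDE : StDE := hDE aFT4 aRI aIV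
theorem aUB : StUB := hUB aF7 aDE aOR


end Pool.Agent.Helper24.WH
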