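import Pool.Agent.Helper30.WL.St
import Pool.Agent.Helper30.WL.St2

set_option autoImplicit false

section

set_option autoImplicit false

namespace Pool.Agent.Helper30.WL

open Set

private theorem ag_refl_CLS {X : Type} (i : Bits X) (n : ℕ) (x : X) : Ag i n x x := fun _ _ => rfl

private theorem ag_mono_CLS {X : Type} {i : Bits X} {m n : ℕ} {x y : X} (h : m ≤ n) (hn : Ag i n x y) : Ag i m x y :=
  fun k hk => hn k (lt_of_lt_of_le hk h)

private theorem ag_symm_CLS {X : Type} {i : Bits X} {n : ℕ} {x y : X} (hn : Ag i n x y) : Ag i n y x :=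
  fun k hk => (hn k hk).symm

/-- the word of the first `n` bits -/
private def pre_CLS {X : Type} (i : Bits X) (n : ℕ) (x : X) : List Bool := (List.range n).map (i x)

private theorem pre_len_CLS {X : Type} (i : Bits X) (n : ℕ) (x : X) : (pre_CLS i n x).length = n := by
  simp [pre_CLS]

private theorem pre_eq_CLS {X : Type} (i : Bits X) (n : ℕ) (x y : X) :
    pre_CLS i n x = pre_CLS i n y ↔ Ag i n x y := by
  unfold pre_CLS Ag
  rw [List.map_inj_left]
  constructor
  · intro h k hk
    exact h k (List.mem_range.mpr hk)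
  · intro h k hk
    exact h k (List.mem_range.mp hk)

/-- cylinder of a word -/
private def cyl_CLS {X : Type} (i : Bits X) (w : List Bool) : Set X := {y | pre_CLS i w.length y = w}

private theorem cy_eq_CLS {X : Type} (i : Bits X) (n : ℕ) (x : X) : Cy i n x = cyl_CLS i (pre_CLS i n x) := by
  ext y
  unfold Cy cyl_CLS
  rw [mem_ofPred_eq, mem_ofPred_eq, pre_len_CLS, pre_eq_CLS]
  exact ⟨ag_symm_CLS, ag_symm_CLS⟩

/-- `b` with the bits `j` is a witness for `ExpC C` at the trace of `A` -/
private structure EO_CLS (C : Cls) {X : Type} (i : Bits X) (A b : Set X) (j : Bits X) : Prop where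
  cl : ∀ k x, x ∈ b → j x k = false → ∃ n, ∀ y ∈ b, Ag i n x y → j y k = false
  mem : C b (fun y => j y.1) (tr b A)

open Classical in
private theorem eo_of_CLS (C : Cls) {X : Type} (i : Bits X) (A b : Set X)
    (h : ExpC C b (res i b) (tr b A)) : ∃ j : Bits X, EO_CLS C i A b j := by
  obtain ⟨j, hj, hm⟩ := h
  refine ⟨fun x k => if hx : x ∈ b then j ⟨x, hx⟩ k else false, ?_, ?_⟩
  · intro k x hx hjx
    rw [dif_pos hx] at hjx
    have h1 : (⟨x, hx⟩ : b) ∈ {x | j x k = true}ᶜ := by
      simp [hjx]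
    obtain ⟨n, hn⟩ := hj k ⟨x, hx⟩ h1
    refine ⟨n, fun y hy hxy => ?_⟩
    rw [dif_pos hy]
    have h2 : (⟨y, hy⟩ : b) ∈ Cy (res i b) n ⟨x, hx⟩ := hxy
    have h3 := hn h2
    simpa using h3
  · have : (fun y : b => (fun (x : X) (k : ℕ) => if hx : x ∈ b then j ⟨x, hx⟩ k else false) y.1) = j := by
      funext y k
      simp [y.2]
    rw [this]
    exact hm

/-- the data of `SumC U (ExpC C)` on a subset `O`, in terms of subsets of `X` -/
private structure SO_CLS (U C : Cls) {X : Type} (i : Bits X) (A O b : Set X) (j : Bits X) : Prop where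
  sub : b ⊆ O
  cl : ∀ x ∈ O, x ∉ b → ∃ n, ∀ y ∈ O, Ag i n x y → y ∉ b
  eo : EO_CLS C i A b j
  off : ∀ x ∈ O, x ∉ b → ∃ n, ∃ O' : Set X, (∀ y ∈ O, Ag i n x y → y ∈ O') ∧ Disjoint O' b ∧
    (U O' (res i O') (tr O' A) ∨ U O' (res i O') (tr O' Aᶜ))

private theorem so_of_CLS (U C : Cls) (hU : Good U) (hC : Good C) {X : Type} (i : Bits X) (A O : Set X)
    (h : SumC U (ExpC C) O (res i O) (tr O A)) : ∃ (b : Set X) (j : Bits X), SO_CLS U C i A O b j := by
  obtain ⟨B, hB, hE, hoff⟩ := h
  let b : Set X := {x | ∃ hx : x ∈ O, (⟨x, hx⟩ : O) ∈ B}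
  have hbO : b ⊆ O := fun x hx => hx.1
  have hEb : ExpC C b (res i b) (tr b A) := by
    obtain ⟨j, hj, hm⟩ := hE
    let f : b → B := fun x => ⟨⟨x.1, x.2.1⟩, x.2.2⟩
    refine ⟨fun x => j (f x), ?_, ?_⟩
    · intro k x hx
      have h1 : f x ∈ {x | j x k = true}ᶜ := hx
      obtain ⟨n, hn⟩ := hj k (f x) h1
      refine ⟨n, fun y hy => ?_⟩
      exact hn (show f y ∈ Cy (res (res i O) B) n (f x) from hy)
    · exact hC.pre B b j (fun x => j (f x)) f (tr B (tr O A)) (fun n y => ⟨n, fun y' h => h⟩) hm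
  obtain ⟨j, hj⟩ := eo_of_CLS C i A b hEb
  refine ⟨b, j, hbO, ?_, hj, ?_⟩
  · intro x hx hxb
    have h1 : (⟨x, hx⟩ : O) ∈ Bᶜ := fun h => hxb ⟨hx, h⟩
    obtain ⟨n, hn⟩ := hB ⟨x, hx⟩ h1
    refine ⟨n, fun y hy hxy hyb => ?_⟩
    exact hn (show (⟨y, hy⟩ : O) ∈ Cy (res i O) n ⟨x, hx⟩ from hxy) hyb.2
  · intro x hx hxb
    have h1 : (⟨x, hx⟩ : O) ∉ B := fun h => hxb ⟨hx, h⟩
    obtain ⟨n, hd, hUU⟩ := hoff ⟨x, hx⟩ h1
    let O' : Set X := {y | ∃ hy : y ∈ O, (⟨y, hy⟩ : O) ∈ Cy (res i O) n ⟨x, hx⟩}
    refine ⟨n, O', fun y hy hxy => ⟨hy, hxy⟩, ?_, ?_⟩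
    · rw [Set.disjoint_left] at hd ⊢
      intro y hy hyb
      exact hd hy.2 hyb.2
    · let g : O' → (Cy (res i O) n ⟨x, hx⟩) := fun y => ⟨⟨y.1, y.2.1⟩, y.2.2⟩
      have hg : Cts (res i O') (res (res i O) (Cy (res i O) n ⟨x, hx⟩)) g := fun n y => ⟨n, fun y' h => h⟩
      rcases hUU with h | h
      · exact Or.inl (hU.pre _ _ _ _ g _ hg h)
      · exact Or.inr (hU.pre _ _ _ _ g _ hg h)

open Classical in
theorem hCLS : StCLS := by
  intro U C hU hC X i A B hB hEB hoff
  -- the property of words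
  let W : Set X → Prop := fun O => Disjoint O B ∧ SumC U (ExpC C) O (res i O) (tr O A)
  let R : List Bool → Prop := fun w => W (cyl_CLS i w)
  have hoff' : ∀ x, x ∉ B → ∃ n, R (pre_CLS i n x) := by
    intro x hx
    obtain ⟨n, h1, h2⟩ := hoff x hx
    refine ⟨n, ?_⟩
    rw [cy_eq_CLS] at h1 h2
    exact ⟨h1, h2⟩
  obtain ⟨jB, hjB⟩ := eo_of_CLS C i A B hEB
  have hch : ∀ w : List Bool, ∃ (b : Set X) (j : Bits X), R w → SO_CLS U C i A (cyl_CLS i w) b j := by
    intro w
    by_cases hw : R w
    · obtain ⟨b, j, h⟩ := so_of_CLS U C hU hC i A (cyl_CLS i w) hw.2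
      exact ⟨b, j, fun _ => h⟩
    · exact ⟨∅, fun _ _ => false, fun h => absurd h hw⟩
  choose bw jw hw using hch
  let Nx : X → ℕ := fun x => if h : ∃ n, R (pre_CLS i n x) then Nat.find h else 0
  let wx : X → List Bool := fun x => pre_CLS i (Nx x) x
  have hR : ∀ x, x ∉ B → R (wx x) := by
    intro x hx
    have h := hoff' x hx
    show R (pre_CLS i (if h : ∃ n, R (pre_CLS i n x) then Nat.find h else 0) x)
    rw [dif_pos h]
    exact Nat.find_spec h
  have hmemcyl : ∀ x, x ∈ cyl_CLS i (wx x) := by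
    intro x
    show pre_CLS i (pre_CLS i (Nx x) x).length x = pre_CLS i (Nx x) x
    rw [pre_len_CLS]
  have hNx : ∀ x y, x ∉ B → Ag i (Nx x) x y → y ∉ B ∧ wx y = wx x := by
    intro x y hx hxy
    have hy : y ∈ cyl_CLS i (wx x) := by
      show pre_CLS i (pre_CLS i (Nx x) x).length y = pre_CLS i (Nx x) x
      rw [pre_len_CLS, pre_eq_CLS]
      exact ag_symm_CLS hxy
    have hyB : y ∉ B := fun h => Set.disjoint_left.mp (hR x hx).1 hy h
    refine ⟨hyB, ?_⟩
    have h1 := hoff' x hx
    have h2 := hoff' y hyB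
    have e1 : Nx x = Nat.find h1 := dif_pos h1
    have e2 : Nx y = Nat.find h2 := dif_pos h2
    have hle : Nx y ≤ Nx x := by
      rw [e2]
      apply Nat.find_min'
      have : pre_CLS i (Nx x) y = pre_CLS i (Nx x) x := by
        rw [pre_eq_CLS]
        exact ag_symm_CLS hxy
      rw [this]
      exact hR x hx
    have hge : Nx x ≤ Nx y := by
      rw [e1]
      apply Nat.find_min'
      have : pre_CLS i (Nx y) x = pre_CLS i (Nx y) y := by
        rw [pre_eq_CLS]
        exact ag_mono_CLS hle hxy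
      rw [this]
      exact hR y hyB
    have e : Nx y = Nx x := le_antisymm hle hge
    show pre_CLS i (Nx y) y = pre_CLS i (Nx x) x
    rw [e, pre_eq_CLS]
    exact ag_symm_CLS hxy
  let B' : Set X := {x | x ∈ B ∨ (x ∉ B ∧ x ∈ bw (wx x))}
  have hB'1 : ∀ x, x ∉ B' → x ∉ B ∧ x ∉ bw (wx x) := by
    intro x hx
    have h1 : x ∉ B := fun h => hx (Or.inl h)
    exact ⟨h1, fun h => hx (Or.inr ⟨h1, h⟩)⟩
  have hnot : ∀ x y, x ∉ B → Ag i (Nx x) x y → y ∉ bw (wx x) → y ∉ B' := by
    intro x y hx hxy hy hyB'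
    obtain ⟨h1, h2⟩ := hNx x y hx hxy
    rcases hyB' with h | h
    · exact h1 h
    · rw [h2] at h
      exact hy h.2
  refine ⟨B', ?_, ?_, ?_⟩
  · -- closed
    intro x hx
    obtain ⟨h1, h2⟩ := hB'1 x hx
    obtain ⟨n1, hn1⟩ := (hw (wx x) (hR x h1)).cl x (hmemcyl x) h2
    refine ⟨max n1 (Nx x), fun y hy => ?_⟩
    have hy1 : Ag i (Nx x) x y := ag_mono_CLS (le_max_right _ _) hy
    have hyc : y ∈ cyl_CLS i (wx x) := by
      have := hmemcyl y
      rw [(hNx x y h1 hy1).2] at this
      exact this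
    exact hnot x y h1 hy1 (hn1 y hyc (ag_mono_CLS (le_max_left _ _) hy))
  · -- the class on B'
    let J : Bits X := fun x n => match n.unpair with
      | (0, _) => decide (x ∈ B)
      | (1, b) => i x b
      | (2, b) => decide (x ∈ B) && jB x b
      | (a + 3, b) => decide (x ∉ B ∧ Encodable.encode (wx x) = a) && jw (wx x) x b
    have J0 : ∀ x b, J x (Nat.pair 0 b) = decide (x ∈ B) := by
      intro x b
      simp [J]
    have J1 : ∀ x b, J x (Nat.pair 1 b) = i x b := by
      intro x b
      simp [J]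
    have J2 : ∀ x b, J x (Nat.pair 2 b) = (decide (x ∈ B) && jB x b) := by
      intro x b
      simp [J]
    have J3 : ∀ x a b, J x (Nat.pair (a + 3) b) =
        (decide (x ∉ B ∧ Encodable.encode (wx x) = a) && jw (wx x) x b) := by
      intro x a b
      simp [J]
    refine ⟨fun x => J x.1, ?_, ?_⟩
    · intro n
      -- closedness
      have key : ∀ x ∈ B', J x n = false → ∃ m, ∀ y ∈ B', Ag i m x y → J y n = false := by
        intro x hx hJ
        obtain ⟨a, b, rfl⟩ : ∃ a b, n = Nat.pair a b := ⟨n.unpair.1, n.unpair.2, (Nat.pair_unpair n).symm⟩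
        match a with
        | 0 =>
          rw [J0] at hJ
          have hxB : x ∉ B := by simpa using hJ
          refine ⟨Nx x, fun y _ hxy => ?_⟩
          rw [J0]
          simpa using (hNx x y hxB hxy).1
        | 1 =>
          rw [J1] at hJ
          refine ⟨b + 1, fun y _ hxy => ?_⟩
          rw [J1, ← hxy b (Nat.lt_succ_self b)]
          exact hJ
        | 2 =>
          rw [J2] at hJ
          by_cases hxB : x ∈ B
          · have hj : jB x b = false := by simpa [hxB] using hJ
            obtain ⟨m, hm⟩ := hjB.cl b x hxB hj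
            refine ⟨m, fun y _ hxy => ?_⟩
            rw [J2]
            by_cases hyB : y ∈ B
            · simp [hyB, hm y hyB hxy]
            · simp [hyB]
          · refine ⟨Nx x, fun y _ hxy => ?_⟩
            rw [J2]
            simp [(hNx x y hxB hxy).1]
        | a + 3 =>
          rw [J3] at hJ
          by_cases hxB : x ∈ B
          · by_cases hex : ∃ w : List Bool, Encodable.encode w = a
            · obtain ⟨w, hwa⟩ := hex
              refine ⟨w.length, fun y _ hxy => ?_⟩
              rw [J3]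
              by_cases hy : y ∉ B ∧ Encodable.encode (wx y) = a
              · exfalso
                have hwy : wx y = w := Encodable.encode_injective (hy.2.trans hwa.symm)
                have hRw : R w := by
                  rw [← hwy]
                  exact hR y hy.1
                have hyc : y ∈ cyl_CLS i w := by
                  rw [← hwy]
                  exact hmemcyl y
                have hxc : x ∈ cyl_CLS i w := by
                  have h1 : pre_CLS i w.length y = w := hyc
                  show pre_CLS i w.length x = w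
                  rw [← h1, pre_len_CLS, pre_eq_CLS]
                  exact hxy
                exact Set.disjoint_left.mp hRw.1 hxc hxB
              · simp only [hy, decide_false, Bool.false_and]
            · refine ⟨0, fun y _ _ => ?_⟩
              rw [J3]
              have hy : ¬ (y ∉ B ∧ Encodable.encode (wx y) = a) := fun h => hex ⟨_, h.2⟩
              simp only [hy, decide_false, Bool.false_and]
          · by_cases ha : Encodable.encode (wx x) = a
            · have hj : jw (wx x) x b = false := by simpa [hxB, ha] using hJ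
              have hxb : x ∈ bw (wx x) := by
                rcases hx with h | h
                · exact absurd h hxB
                · exact h.2
              obtain ⟨m, hm⟩ := (hw (wx x) (hR x hxB)).eo.cl b x hxb hj
              refine ⟨max m (Nx x), fun y hy hxy => ?_⟩
              obtain ⟨hyB, hwy⟩ := hNx x y hxB (ag_mono_CLS (le_max_right _ _) hxy)
              rw [J3]
              have hyb : y ∈ bw (wx x) := by
                rcases hy with h | h
                · exact absurd h hyB
                · rw [← hwy]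
                  exact h.2
              rw [hwy, hm y hyb (ag_mono_CLS (le_max_left _ _) hxy), Bool.and_false]
            · refine ⟨Nx x, fun y _ hxy => ?_⟩
              obtain ⟨_, hwy⟩ := hNx x y hxB hxy
              rw [J3]
              have hy : ¬ (y ∉ B ∧ Encodable.encode (wx y) = a) := by
                rw [hwy]
                exact fun h => ha h.2
              simp only [hy, decide_false, Bool.false_and]
      intro x hx
      have hJ : J x.1 n = false := by simpa using hx
      obtain ⟨m, hm⟩ := key x.1 x.2 hJ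
      refine ⟨m, fun y hy => ?_⟩
      have : J y.1 n = false := hm y.1 y.2 hy
      simp [this]
    · -- paste
      let κ : B' → ℕ := fun x => if x.1 ∈ B then 0 else 1 + Encodable.encode (wx x.1)
      have hJmem : ∀ (x y : B'), (∃ n, Nat.pair 0 0 < n ∧ Ag (fun x : B' => J x.1) n x y) → (x.1 ∈ B ↔ y.1 ∈ B) := by
        rintro x y ⟨n, hn, h⟩
        have h1 : J x.1 (Nat.pair 0 0) = J y.1 (Nat.pair 0 0) := h _ hn
        rw [J0, J0] at h1
        simpa using h1
      refine hC.paste B' _ κ (tr B' A) ?_ ?_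
      · intro x
        by_cases hxB : x.1 ∈ B
        · refine ⟨Nat.pair 0 0 + 1, fun y hxy => ?_⟩
          have hyB := (hJmem x y ⟨_, Nat.lt_succ_self _, hxy⟩).mp hxB
          show (if y.1 ∈ B then 0 else 1 + Encodable.encode (wx y.1)) =
            (if x.1 ∈ B then 0 else 1 + Encodable.encode (wx x.1))
          rw [if_pos hyB, if_pos hxB]
        · refine ⟨Nat.pair 0 0 + 1 + Nat.pair 1 (Nx x.1), fun y hxy => ?_⟩
          have hyB : y.1 ∉ B := fun h => hxB ((hJmem x y ⟨_, by omega, hxy⟩).mpr h)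
          have hag : Ag i (Nx x.1) x.1 y.1 := by
            intro k hk
            have h2 : Nat.pair 1 k < Nat.pair 0 0 + 1 + Nat.pair 1 (Nx x.1) := by
              have := Nat.pair_lt_pair_right 1 hk
              omega
            have h1 : J x.1 (Nat.pair 1 k) = J y.1 (Nat.pair 1 k) := hxy _ h2
            rw [J1, J1] at h1
            exact h1
          show (if y.1 ∈ B then 0 else 1 + Encodable.encode (wx y.1)) =
            (if x.1 ∈ B then 0 else 1 + Encodable.encode (wx x.1))
          rw [if_neg hyB, if_neg hxB, (hNx x.1 y.1 hxB hag).2]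
      · intro c
        by_cases hne : ∃ x : B', κ x = c
        · obtain ⟨x0, hx0⟩ := hne
          by_cases hx0B : x0.1 ∈ B
          · have hc : c = 0 := by
              rw [← hx0]
              exact if_pos hx0B
            subst hc
            have hpB : ∀ x : B', κ x = 0 → x.1 ∈ B := by
              intro x hx
              by_contra h
              have : κ x = 1 + Encodable.encode (wx x.1) := if_neg h
              omega
            let f : {x : B' | κ x = 0} → B := fun x => ⟨x.1.1, hpB x.1 x.2⟩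
            refine hC.pre B _ (fun y => jB y.1) _ f (tr B A) ?_ hjB.mem
            intro n y
            refine ⟨Nat.pair 2 n, fun y' h k hk => ?_⟩
            have h1 : J y.1.1 (Nat.pair 2 k) = J y'.1.1 (Nat.pair 2 k) := h _ (Nat.pair_lt_pair_right 2 hk)
            rw [J2, J2] at h1
            simpa [hpB y.1 y.2, hpB y'.1 y'.2] using h1
          · set w := wx x0.1 with hwdef
            have hc : c = 1 + Encodable.encode w := by
              rw [← hx0]
              exact if_neg hx0B
            subst hc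
            have hp : ∀ x : B', κ x = 1 + Encodable.encode w → x.1 ∉ B ∧ wx x.1 = w ∧ x.1 ∈ bw w := by
              intro x hx
              have hxB : x.1 ∉ B := by
                intro h
                have : κ x = 0 := if_pos h
                omega
              have h1 : κ x = 1 + Encodable.encode (wx x.1) := if_neg hxB
              have h2 : wx x.1 = w := Encodable.encode_injective (by omega)
              refine ⟨hxB, h2, ?_⟩
              rcases x.2 with h | h
              · exact absurd h hxB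
              · rw [← h2]
                exact h.2
            let f : {x : B' | κ x = 1 + Encodable.encode w} → bw w := fun x => ⟨x.1.1, (hp x.1 x.2).2.2⟩
            refine hC.pre (bw w) _ (fun y => jw w y.1) _ f (tr (bw w) A) ?_ (hw w (hR x0.1 hx0B)).eo.mem
            intro n y
            refine ⟨Nat.pair (Encodable.encode w + 3) n, fun y' h k hk => ?_⟩
            have h1 : J y.1.1 (Nat.pair (Encodable.encode w + 3) k) = J y'.1.1 (Nat.pair (Encodable.encode w + 3) k) :=
              h _ (Nat.pair_lt_pair_right _ hk)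
            rw [J3, J3] at h1
            obtain ⟨a1, a2, _⟩ := hp y.1 y.2
            obtain ⟨b1, b2, _⟩ := hp y'.1 y'.2
            simpa [a1, a2, b1, b2] using h1
        · have : tr {x : B' | κ x = c} (tr B' A) = ∅ := by
            ext x
            exact ⟨fun _ => hne ⟨x.1, x.2⟩, fun h => h.elim⟩
          rw [this]
          exact hC.empty _ _
  · -- off B'
    intro x hx
    obtain ⟨h1, h2⟩ := hB'1 x hx
    have hS := hw (wx x) (hR x h1)
    obtain ⟨n1, O', hO', hd, hUU⟩ := hS.off x (hmemcyl x) h2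
    have hsub : ∀ y, y ∈ Cy i (max n1 (Nx x)) x → y ∈ O' := by
      intro y hy
      have hy1 : Ag i (Nx x) x y := ag_mono_CLS (le_max_right _ _) hy
      have hyc : y ∈ cyl_CLS i (wx x) := by
        have := hmemcyl y
        rw [(hNx x y h1 hy1).2] at this
        exact this
      exact hO' y hyc (ag_mono_CLS (le_max_left _ _) hy)
    refine ⟨max n1 (Nx x), ?_, ?_⟩
    · rw [Set.disjoint_left]
      intro y hy
      exact hnot x y h1 (ag_mono_CLS (le_max_right _ _) hy) (Set.disjoint_left.mp hd (hsub y hy))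
    · let g : (Cy i (max n1 (Nx x)) x) → O' := fun y => ⟨y.1, hsub y.1 y.2⟩
      have hg : Cts (res i (Cy i (max n1 (Nx x)) x)) (res i O') g := fun n y => ⟨n, fun y' h => h⟩
      rcases hUU with h | h
      · exact Or.inl (hU.pre _ _ _ _ g _ hg h)
      · exact Or.inr (hU.pre _ _ _ _ g _ hg h)

end Pool.Agent.Helper30.WL

end

section

set_option autoImplicit false

namespace Pool.Agent.Helper30.WL

open Set
open Pool.Agent.Helper24.WH
open Ordinal hiding univ

private theorem dfb_empty_CN (P : Type) : Dfb (∅ : Set (Tre (P → Bool))) := by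
  refine ⟨Fm.bot, fun n h => h, trivial, ?_⟩
  ext t
  constructor
  · intro h; exact h.elim
  · intro h; exact h.elim

private theorem th_CN (m : ℕ) : th m = (fun a : Ordinal.{0} => ω ^ a)^[m + 1] 0 := by
  induction m with
  | zero => simp [th]
  | succ m ih =>
    rw [Function.iterate_succ_apply', ← ih]
    rfl

theorem hCN (hST : StST) (hHZ : StHZ) (hGE : StGE) : StCN := by
  constructor
  · intro m
    induction m with
    | zero =>
      have hF : Finite (QQ 0) := inferInstanceAs (Finite Empty)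
      refine ⟨hF, fun _ => C0, fun _ => ∅, ?_⟩
      constructor
      · intro a _; exact hGE.1
      · intro a _; exact hHZ (QQ 0)
      · intro a b hab hb
        have h1 : b < 1 := hb
        rw [Order.lt_one_iff] at h1
        rw [h1] at hab
        exact absurd hab not_lt_zero
      · intro a _; exact dfb_empty_CN _
    | succ m ih =>
      obtain ⟨hF, C, L, h⟩ := ih
      obtain ⟨C', L', h'⟩ := hST (QQ m) (th m) C L h
      have hF' : Finite (QQ (m + 1)) := inferInstanceAs (Finite (QQ m ⊕ Fin 3))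
      exact ⟨hF', C', L', h'⟩
  · intro a ha
    obtain ⟨n, hn⟩ := Ordinal.lt_epsilon_zero.mp ha
    cases n with
    | zero => exact absurd hn not_lt_zero
    | succ n => exact ⟨n, by rw [th_CN]; exact hn⟩

end Pool.Agent.Helper30.WL

end

section

set_option autoImplicit false

namespace Pool.Agent.Helper30.WL

open Set

private theorem gs_res {X Y : Type} {i : Bits X} {i' : Bits Y} {f : Y → X} (hf : Cts i' i f) (p : Set Y) (q : Set X)
    (h : ∀ y ∈ p, f y ∈ q) : Cts (res i' p) (res i q) (fun z => ⟨f z.1, h z.1 z.2⟩) := by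
  intro n y
  obtain ⟨n', hn'⟩ := hf n y.1
  exact ⟨n', fun y' h' => hn' y'.1 h'⟩

private theorem gs_ag_mono {X : Type} {i : Bits X} {m n : ℕ} {x y : X} (hmn : m ≤ n) (h : Ag i n x y) : Ag i m x y :=
  fun k hk => h k (lt_of_lt_of_le hk hmn)

private theorem gs_cl_empty {X : Type} (i : Bits X) : Cl i (∅ : Set X) := by
  intro x _
  exact ⟨0, fun y _ => fun hy => hy⟩

private theorem gs_empty {U E : Cls} (hU : Good U) (hE : Good E) (X : Type) (i : Bits X) : SumC U E X i ∅ := by
  refine ⟨∅, gs_cl_empty i, ?_, ?_⟩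
  · have h : tr (∅ : Set X) (∅ : Set X) = ∅ := by
      ext z
      exact ⟨fun h => h, fun h => h⟩
    rw [h]
    exact hE.empty _ _
  · intro x _
    refine ⟨0, disjoint_empty _, Or.inl ?_⟩
    have h : tr (Cy i 0 x) (∅ : Set X) = ∅ := by
      ext z
      exact ⟨fun h => h, fun h => h⟩
    rw [h]
    exact hU.empty _ _

private theorem gs_pre {U E : Cls} (hU : Good U) (hE : Good E) (X Y : Type) (i : Bits X) (i' : Bits Y) (f : Y → X)
    (A : Set X) (hf : Cts i' i f) (hA : SumC U E X i A) : SumC U E Y i' (f ⁻¹' A) := by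
  obtain ⟨B, hB, hEB, hoff⟩ := hA
  refine ⟨f ⁻¹' B, ?_, ?_, ?_⟩
  · intro y hy
    obtain ⟨n, hn⟩ := hB (f y) hy
    obtain ⟨n', hn'⟩ := hf n y
    exact ⟨n', fun y' hy' => hn (hn' y' hy')⟩
  · exact hE.pre B (f ⁻¹' B : Set Y) (res i B) (res i' (f ⁻¹' B)) (fun z => ⟨f z.1, z.2⟩) (tr B A)
      (gs_res hf (f ⁻¹' B) B (fun y hy => hy)) hEB
  · intro y hy
    obtain ⟨n, hd, hU'⟩ := hoff (f y) hy
    obtain ⟨n', hn'⟩ := hf n y
    have hmap : ∀ z ∈ Cy i' n' y, f z ∈ Cy i n (f y) := fun z hz => hn' z hz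
    refine ⟨n', ?_, ?_⟩
    · rw [Set.disjoint_left]
      intro z hz hzB
      exact (Set.disjoint_left.mp hd) (hmap z hz) hzB
    · rcases hU' with h | h
      · exact Or.inl (hU.pre (Cy i n (f y)) (Cy i' n' y) _ _ (fun z => ⟨f z.1, hmap z.1 z.2⟩) _
          (gs_res hf _ _ hmap) h)
      · exact Or.inr (hU.pre (Cy i n (f y)) (Cy i' n' y) _ _ (fun z => ⟨f z.1, hmap z.1 z.2⟩) _
          (gs_res hf _ _ hmap) h)

private theorem gs_paste {U E : Cls} (hU : Good U) (hE : Good E) (X : Type) (i : Bits X) (κ : X → ℕ) (A : Set X)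
    (hκ : ∀ x, ∃ n, ∀ y, Ag i n x y → κ y = κ x)
    (hP : ∀ c, SumC U E {x | κ x = c} (res i {x | κ x = c}) (tr {x | κ x = c} A)) : SumC U E X i A := by
  choose B hBcl hBE hBoff using hP
  have hmem : ∀ (x : X) (c : ℕ) (h : κ x = c),
      ((⟨x, rfl⟩ : {x' | κ x' = κ x}) ∈ B (κ x) ↔ (⟨x, h⟩ : {x' | κ x' = c}) ∈ B c) := by
    intro x c h
    subst h
    exact Iff.rfl
  let BB : Set X := {x | (⟨x, rfl⟩ : {x' | κ x' = κ x}) ∈ B (κ x)}
  have hBB : ∀ x, x ∈ BB ↔ (⟨x, rfl⟩ : {x' | κ x' = κ x}) ∈ B (κ x) := fun x => Iff.rfl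
  refine ⟨BB, ?_, ?_, ?_⟩
  · intro x hx
    obtain ⟨N1, h1⟩ := hκ x
    obtain ⟨N2, h2⟩ := hBcl (κ x) ⟨x, rfl⟩ (fun h => hx ((hBB x).mpr h))
    refine ⟨max N1 N2, fun y hy => ?_⟩
    have hc : κ y = κ x := h1 y (gs_ag_mono (le_max_left _ _) hy)
    have hy2 : (⟨y, hc⟩ : {x' | κ x' = κ x}) ∈ (B (κ x))ᶜ :=
      h2 (fun k hk => hy k (lt_of_lt_of_le hk (le_max_right _ _)))
    exact fun hyB => hy2 ((hmem y (κ x) hc).mp hyB)
  · refine hE.paste BB (res i BB) (fun z => κ z.1) (tr BB A) ?_ ?_
    · intro z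
      obtain ⟨N1, h1⟩ := hκ z.1
      exact ⟨N1, fun y hy => h1 y.1 hy⟩
    · intro c
      refine hE.pre (B c) {z : BB | κ z.1 = c} (res (res i {x | κ x = c}) (B c)) (res (res i BB) {z : BB | κ z.1 = c})
        (fun z => ⟨⟨z.1.1, z.2⟩, (hmem z.1.1 c z.2).mp z.1.2⟩) (tr (B c) (tr {x | κ x = c} A)) ?_ (hBE c)
      intro n y
      exact ⟨n, fun y' h' => h'⟩
  · intro x hx
    obtain ⟨N1, h1⟩ := hκ x
    obtain ⟨N2, hd, hU'⟩ := hBoff (κ x) ⟨x, rfl⟩ (fun h => hx ((hBB x).mpr h))
    have hc : ∀ z ∈ Cy i (max N1 N2) x, κ z = κ x := fun z hz => h1 z (gs_ag_mono (le_max_left _ _) hz)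
    have hcy : ∀ (z : X) (hz : z ∈ Cy i (max N1 N2) x),
        (⟨z, hc z hz⟩ : {x' | κ x' = κ x}) ∈ Cy (res i {x' | κ x' = κ x}) N2 ⟨x, rfl⟩ :=
      fun z hz k hk => hz k (lt_of_lt_of_le hk (le_max_right _ _))
    refine ⟨max N1 N2, ?_, ?_⟩
    · rw [Set.disjoint_left]
      intro z hz hzB
      exact (Set.disjoint_left.mp hd) (hcy z hz) ((hmem z (κ x) (hc z hz)).mp hzB)
    · have hg : ∀ D : Set {x' | κ x' = κ x}, U (Cy (res i {x' | κ x' = κ x}) N2 ⟨x, rfl⟩)
          (res (res i {x' | κ x' = κ x}) (Cy (res i {x' | κ x' = κ x}) N2 ⟨x, rfl⟩))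
          (tr (Cy (res i {x' | κ x' = κ x}) N2 ⟨x, rfl⟩) D) →
          U (Cy i (max N1 N2) x) (res i (Cy i (max N1 N2) x))
            {z | (⟨z.1, hc z.1 z.2⟩ : {x' | κ x' = κ x}) ∈ D} := by
        intro D hD
        let g : Cy i (max N1 N2) x → Cy (res i {x' | κ x' = κ x}) N2 ⟨x, rfl⟩ :=
          fun z => ⟨⟨z.1, hc z.1 z.2⟩, hcy z.1 z.2⟩
        exact hU.pre _ _ _ (res i (Cy i (max N1 N2) x)) g _ (fun n y => ⟨n, fun y' h' => h'⟩) hD
      rcases hU' with h | h
      · exact Or.inl (hg _ h)
      · exact Or.inr (hg _ h)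

theorem hGS : StGS := fun _ _ hU hE =>
  { pre := gs_pre hU hE
    paste := gs_paste hU hE
    empty := gs_empty hU hE }

end Pool.Agent.Helper30.WL

end

section

set_option autoImplicit false

namespace Pool.Agent.Helper30.WL

open Set
open Pool.Agent.Helper24.WH (Tre pT)

/-- the reversed word of the first `n` bits -/
private def pre_HE {X : Type} (j : Bits X) (x : X) : ℕ → List Bool
  | 0 => []
  | n + 1 => j x n :: pre_HE j x n

private lemma pre_inj_HE {X : Type} (j : Bits X) (x y : X) :
    ∀ n, pre_HE j x n = pre_HE j y n → Ag j n x y := by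
  intro n
  induction n with
  | zero => intro _ k hk; omega
  | succ n ih =>
    intro h k hk
    simp only [pre_HE, List.cons.injEq] at h
    rcases Nat.lt_succ_iff_lt_or_eq.1 hk with hk' | rfl
    · exact ih h.2 k hk'
    · exact h.1

open Classical in
/-- the letter of `k` read off from the reversed word of the first bits -/
private noncomputable def K_HE {X Q : Type} (j : Bits X) (k : X → Tre (Lt3 Q)) (s u : List Bool) :
    Lt3 Q :=
  if h : ∃ x', pre_HE j x' u.length = s then k h.choose u else fun _ => false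

private lemma K_eq_HE {X Q : Type} (j : Bits X) (k : X → Tre (Lt3 Q)) (hk : Ctr j k) (x : X)
    (u : List Bool) : K_HE j k (pre_HE j x u.length) u = k x u := by
  have h : ∃ x', pre_HE j x' u.length = pre_HE j x u.length := ⟨x, rfl⟩
  unfold K_HE
  rw [dif_pos h]
  exact hk u _ _ (pre_inj_HE j _ _ _ h.choose_spec)

private def Vi_HE {X : Type} (i j : Bits X) (x : X) (m N : ℕ) : Prop :=
  ∀ y, Ag i N x y → j y m = false

private lemma Vi_congr_HE {X : Type} (i j : Bits X) (x y : X) (m N : ℕ) (h : Ag i N x y) :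
    Vi_HE i j x m N ↔ Vi_HE i j y m N := by
  constructor
  · intro hx z hz
    exact hx z (fun l hl => (h l hl).trans (hz l hl))
  · intro hy z hz
    exact hy z (fun l hl => (h l hl).symm.trans (hz l hl))

open Classical in
/-- the tree below the logical node `(s, u)` -/
private noncomputable def psi_HE {X Q : Type} (i j : Bits X) (k : X → Tre (Lt3 Q)) (x : X) :
    List Bool → List Bool → List Bool → Lt3 (Q ⊕ Fin 3)
  | s, u, [] => fun p => match p with
    | Sum.inl q => K_HE j k s u q
    | Sum.inr a => if a = 1 ∧ s.head? = some false then true else false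
  | _, _, [_] => fun _ => false
  | s, _, _ :: false :: v => fun p => match p with
    | Sum.inl _ => false
    | Sum.inr a => if a = 0 ∨ (a = 2 ∧ Vi_HE i j x s.length v.length) then true else false
  | _, _, [_, true] => fun _ => false
  | s, u, e :: true :: σ :: v => psi_HE i j k x (σ :: s) (u ++ [e]) v

private lemma psi_sub_HE {X Q : Type} (i j : Bits X) (k : X → Tre (Lt3 Q)) (x : X)
    (s u : List Bool) (e σ : Bool) :
    Tre.sub (psi_HE i j k x s u) [e, true, σ] = psi_HE i j k x (σ :: s) (u ++ [e]) := by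
  funext v
  show psi_HE i j k x s u (e :: true :: σ :: v) = _
  rw [psi_HE]

private lemma psi_ctr_HE {X Q : Type} (i j : Bits X) (k : X → Tre (Lt3 Q)) (x y : X) :
    ∀ (n : ℕ) (v s u : List Bool), v.length ≤ n → Ag i v.length x y →
      psi_HE i j k x s u v = psi_HE i j k y s u v := by
  intro n
  induction n with
  | zero =>
    intro v s u hv _
    have : v = [] := List.length_eq_zero_iff.1 (by omega)
    subst this
    rw [psi_HE, psi_HE]
  | succ n ih =>
    intro v s u hv hag
    match v with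
    | [] => rw [psi_HE, psi_HE]
    | [_] => rw [psi_HE, psi_HE]
    | e :: false :: v =>
      rw [psi_HE, psi_HE]
      have h : Vi_HE i j x s.length v.length ↔ Vi_HE i j y s.length v.length :=
        Vi_congr_HE i j x y _ _ (fun l hl => hag l (by simp; omega))
      funext p
      rcases p with p | a
      · rfl
      · by_cases h0 : a = 0 ∨ (a = 2 ∧ Vi_HE i j x s.length v.length)
        · have h0' : a = 0 ∨ (a = 2 ∧ Vi_HE i j y s.length v.length) :=
            h0.imp id (fun h' => ⟨h'.1, h.1 h'.2⟩)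
          exact (if_pos h0).trans (if_pos h0').symm
        · have h0' : ¬ (a = 0 ∨ (a = 2 ∧ Vi_HE i j y s.length v.length)) :=
            fun h1 => h0 (h1.imp id (fun h' => ⟨h'.1, h.2 h'.2⟩))
          exact (if_neg h0).trans (if_neg h0').symm
    | [_, true] => rw [psi_HE, psi_HE]
    | e :: true :: σ :: v =>
      rw [psi_HE, psi_HE]
      apply ih
      · simp at hv
        omega
      · intro l hl
        exact hag l (by simp; omega)

private lemma dk_HE {X Q : Type} (i j : Bits X) (k : X → Tre (Lt3 Q)) (x : X)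
    (s u : List Bool) (e : Bool) :
    dk (Tre.sub (psi_HE i j k x s u) [e]) = true := by
  show psi_HE i j k x s u [e, false] (Sum.inr 0) = true
  rw [psi_HE]
  simp

private lemma m1_HE {X Q : Type} (i j : Bits X) (k : X → Tre (Lt3 Q)) (x : X)
    (s u : List Bool) (e σ : Bool) :
    psi_HE i j k x s u [e, true, σ] (Sum.inr 1) = !σ := by
  rw [psi_HE, psi_HE]
  cases σ <;> simp

private lemma wf_HE {X Q : Type} (i j : Bits X) (k : X → Tre (Lt3 Q)) (x : X) :
    ∀ (n : ℕ) (s u : List Bool), WFn n (psi_HE i j k x s u : Tre (Lt3 (Q ⊕ Fin 3))) := by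
  intro n
  induction n with
  | zero => intro s u; trivial
  | succ n ih =>
    intro s u e
    rw [dk_HE]
    refine ⟨?_, ?_, ?_⟩
    · have h1 : psi_HE i j k x s u [e, false] (Sum.inr 0) = true := by rw [psi_HE]; simp
      have h2 : psi_HE i j k x s u [e, true] (Sum.inr 0) = false := by rw [psi_HE]
      rw [h1, h2]
      simp
    · rw [m1_HE, m1_HE]
      simp
    · intro σ
      rw [psi_sub_HE]
      exact ih _ _

private lemma nb_HE {X Q : Type} (i j : Bits X) (k : X → Tre (Lt3 Q)) (x : X)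
    (hcl : ∀ m, Cl i {x | j x m = true}) (s u : List Bool) (e : Bool) :
    NB (Tre.sub (psi_HE i j k x s u) [e]) ↔ j x s.length = true := by
  have hV : j x s.length = false ↔ ∃ N, Vi_HE i j x s.length N := by
    constructor
    · intro h
      obtain ⟨N, hN⟩ := hcl s.length x (by simp [h])
      refine ⟨N, fun y hy => ?_⟩
      have := hN hy
      simpa using this
    · rintro ⟨N, hN⟩
      exact hN x (fun _ _ => rfl)
  have hc : ∀ v, Tre.sub (psi_HE i j k x s u) [e] v = psi_HE i j k x s u (e :: v) := fun v => rfl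
  constructor
  · intro h
    by_contra hne
    have h0 : j x s.length = false := by simpa using hne
    obtain ⟨N, hN⟩ := hV.1 h0
    have h1 := h (false :: List.replicate N false) (by simp) (by
      intro w hw hpre
      match w with
      | [] => exact absurd rfl hw
      | b :: w =>
        have hb : b = false := by
          obtain ⟨r, hr⟩ := hpre
          simp only [List.cons_append, List.cons.injEq] at hr
          exact hr.1
        subst hb
        rw [hc, psi_HE]
        simp)
    rw [hc, psi_HE] at h1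
    simp [hN] at h1
  · intro h v hv hw
    match v with
    | [] => exact absurd rfl hv
    | true :: v =>
      exfalso
      have h1 := hw [true] (by simp) ⟨v, rfl⟩
      rw [hc, psi_HE] at h1
      exact absurd h1 (by simp)
    | false :: v =>
      rw [hc, psi_HE]
      have h2 : ¬ Vi_HE i j x s.length v.length := by
        intro hVi
        have := hV.2 ⟨_, hVi⟩
        rw [h] at this
        exact absurd this (by simp)
      simp [h2]

private lemma sel_HE {X Q : Type} (i j : Bits X) (k : X → Tre (Lt3 Q)) (x : X)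
    (hcl : ∀ m, Cl i {x | j x m = true}) (s u : List Bool) (e : Bool) :
    sel (Tre.sub (psi_HE i j k x s u) [e]) = [true, j x s.length] := by
  unfold sel
  rw [dk_HE]
  have h1 : Tre.sub (psi_HE i j k x s u) [e] [true, false] (Sum.inr 1) = true := by
    show psi_HE i j k x s u [e, true, false] (Sum.inr 1) = true
    rw [m1_HE]
    rfl
  rw [h1]
  by_cases h : j x s.length = true
  · rw [if_pos ((nb_HE i j k x hcl s u e).2 h), h]
  · rw [if_neg (fun h' => h ((nb_HE i j k x hcl s u e).1 h'))]
    have : j x s.length = false := by simpa using h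
    rw [this]
    rfl

private lemma len_pre_HE {X : Type} (j : Bits X) (x : X) : ∀ n, (pre_HE j x n).length = n := by
  intro n
  induction n with
  | zero => rfl
  | succ n ih => simp [pre_HE, ih]

private lemma dec_HE {X Q : Type} (i j : Bits X) (k : X → Tre (Lt3 Q)) (hk : Ctr j k) (x : X)
    (hcl : ∀ m, Cl i {x | j x m = true}) :
    ∀ (u' u : List Bool), dec u' (psi_HE i j k x (pre_HE j x u.length) u) = k x (u ++ u') := by
  intro u'
  induction u' with
  | nil =>
    intro u
    rw [List.append_nil]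
    funext p
    show psi_HE i j k x (pre_HE j x u.length) u [] (Sum.inl p) = _
    rw [psi_HE, K_eq_HE j k hk]
  | cons e u' ih =>
    intro u
    show dec u' (Tre.sub (psi_HE i j k x (pre_HE j x u.length) u)
      (e :: sel (Tre.sub (psi_HE i j k x (pre_HE j x u.length) u) [e]))) = _
    rw [sel_HE i j k x hcl, psi_sub_HE, len_pre_HE]
    have h := ih (u ++ [e])
    rw [List.append_assoc] at h
    have e1 : pre_HE j x (u ++ [e]).length = j x u.length :: pre_HE j x u.length := by
      rw [List.length_append]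
      rfl
    rw [e1] at h
    exact h

theorem hHE : StHE := by
  intro Q C L hL X i A hA
  obtain ⟨j, hcl, hC⟩ := hA
  obtain ⟨k, hk, -, hAk⟩ := hL X j A hC
  refine ⟨fun x => psi_HE i j k x [] [], ?_, ?_, ?_⟩
  · intro u x y h
    exact psi_ctr_HE i j k x y u.length u [] [] le_rfl h
  · intro x
    show psi_HE i j k x [] [] [] (Sum.inr 0) = false
    rw [psi_HE]
    simp
  · intro x
    rw [hAk x]
    have h1 : (fun u => dec u (psi_HE i j k x [] [] : Tre (Lt3 (Q ⊕ Fin 3)))) = k x := by
      funext u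
      exact dec_HE i j k hk x hcl u []
    constructor
    · intro h
      refine ⟨fun n => wf_HE i j k x n [] [], ?_⟩
      show (fun u => dec u (psi_HE i j k x [] [] : Tre (Lt3 (Q ⊕ Fin 3)))) ∈ L
      rw [h1]
      exact h
    · intro h
      have h2 : (fun u => dec u (psi_HE i j k x [] [] : Tre (Lt3 (Q ⊕ Fin 3)))) ∈ L := h.2
      rw [h1] at h2
      exact h2

end Pool.Agent.Helper30.WL

end

section

/-! Project WL (MP_76577a_lc), module MS (helper93): the sum of two languages is in the sum class. -/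

set_option autoImplicit false

namespace Pool.Agent.Helper30.WL

open Set
open Pool.Agent.Helper24.WH (Tre pT)
open Ordinal hiding univ

/-- agreement up to depth `D` -/
private def Agd {A : Type} (D : ℕ) (t t' : Tre A) : Prop := ∀ u : List Bool, u.length ≤ D → t u = t' u

private theorem Ag_mono_MS {X : Type} {i : Bits X} {n n' : ℕ} (h : n' ≤ n) {x y : X}
    (hx : Ag i n x y) : Ag i n' x y := fun k hk => hx k (lt_of_lt_of_le hk h)

private theorem fin_MS {P : Type} [Countable P]
    (h2 : ∀ u : List Bool, ∃ N, ∀ t t' : Tre (P → Bool), Ag std N t t' → t u = t' u) (D : ℕ) :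
    ∃ N, ∀ t t' : Tre (P → Bool), Ag std N t t' → Agd D t t' := by
  choose f hf using h2
  have hfin : {l : List Bool | l.length ≤ D}.Finite := List.finite_length_le Bool D
  obtain ⟨N, hN⟩ := (hfin.image f).bddAbove
  refine ⟨N, fun t t' h u hu => hf u t t' (Ag_mono_MS ?_ h)⟩
  exact hN ⟨u, hu, rfl⟩

private theorem cts_MS {P : Type} [Countable P]
    (h1 : ∀ (n : ℕ) (t t' : Tre (P → Bool)), (∀ u : List Bool, u.length ≤ n → t u = t' u) →
      std t n = std t' n)
    (h2 : ∀ u : List Bool, ∃ N, ∀ t t' : Tre (P → Bool), Ag std N t t' → t u = t' u)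
    (p : Set (Tre (P → Bool))) (f : Tre (P → Bool) → Tre (P → Bool)) (c : ℕ)
    (hf : ∀ D, ∀ t ∈ p, ∀ t' ∈ p, Agd (D + c) t t' → Agd D (f t) (f t')) :
    Cts (res (std : Bits (Tre (P → Bool))) p) std (fun t : p => f t.1) := by
  intro n y
  obtain ⟨N, hN⟩ := fin_MS h2 (n + c)
  refine ⟨N, fun y' hy k hk => ?_⟩
  have h3 := hf n y.1 y.2 y'.1 y'.2 (hN y.1 y'.1 hy)
  exact h1 k _ _ fun u hu => h3 u (by omega)

section path

variable {Q : Type}

private theorem dX_MS {t t' : Tre (Lt3 Q)} {D : ℕ} (h : Agd (D + 1) t t') : dX t = dX t' := by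
  unfold dX
  rw [h [false] (by simp)]

private theorem sub_MS {t t' : Tre (Lt3 Q)} {D : ℕ} (w : List Bool) (h : Agd (D + w.length) t t') :
    Agd D (t.sub w) (t'.sub w) := by
  intro u hu
  exact h (w ++ u) (by rw [List.length_append]; omega)

private theorem nx_MS {t t' : Tre (Lt3 Q)} {D : ℕ} (h : Agd (D + 1) t t') : Agd D (nx t) (nx t') := by
  unfold nx
  rw [dX_MS h]
  exact sub_MS _ h

private theorem nxn_MS {D : ℕ} (n : ℕ) : ∀ {t t' : Tre (Lt3 Q)}, Agd (D + n) t t' →
    Agd D (nx^[n] t) (nx^[n] t') := by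
  induction n with
  | zero => exact fun h => h
  | succ n ih =>
      intro t t' h
      rw [Function.iterate_succ_apply, Function.iterate_succ_apply]
      exact ih (nx_MS h)

private theorem wfX_MS {t t' : Tre (Lt3 Q)} (h : Agd 1 t t') : wfX t ↔ wfX t' := by
  unfold wfX
  rw [h [false] (by simp), h [true] (by simp)]

private theorem stay_MS {t t' : Tre (Lt3 Q)} (h : Agd 1 t t') : stay t ↔ stay t' := by
  unfold stay
  rw [wfX_MS h, h [] (by simp)]

/-- the path of the spine -/
private def pa : ℕ → Tre (Lt3 Q) → List Bool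
  | 0, _ => []
  | n + 1, t => dX t :: pa n (nx t)

private theorem pa_MS (n : ℕ) : ∀ t : Tre (Lt3 Q), nx^[n] t = t.sub (pa n t) := by
  induction n with
  | zero => intro t; rfl
  | succ n ih =>
      intro t
      rw [Function.iterate_succ_apply, ih (nx t)]
      rfl

private theorem pa_congr_MS (n : ℕ) : ∀ {t t' : Tre (Lt3 Q)}, Agd n t t' → pa n t = pa n t' := by
  induction n with
  | zero => intro t t' _; rfl
  | succ n ih =>
      intro t t' h
      show dX t :: pa n (nx t) = dX t' :: pa n (nx t')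
      rw [dX_MS h, ih (nx_MS h)]

end path

theorem hMS (hSB : StSB) : StMS := by
  intro Q _ U E K H hU hE hK hH
  obtain ⟨h1, h2, -⟩ := hSB (Q ⊕ Fin 3)
  have hne : ∀ (t : Tre (Lt3 Q)), Sw K t → ¬ stay t := by
    rintro t ⟨-, h3, -⟩ ⟨-, h4⟩
    rw [h3] at h4
    exact Bool.noConfusion h4
  refine ⟨{t | ∀ n, stay (nx^[n] t)}, ?_, ?_, ?_⟩
  · -- closed
    intro t ht
    have ht' : ∃ n, ¬ stay (nx^[n] t) := by
      by_contra hcon
      push Not at hcon
      exact ht hcon
    obtain ⟨n, hn⟩ := ht'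
    obtain ⟨N, hN⟩ := fin_MS h2 (1 + n)
    refine ⟨N, fun t' ht' hB => hn ?_⟩
    exact (stay_MS (nxn_MS n (hN t t' ht'))).2 (hB n)
  · -- the trace on the closed set
    have htr : tr {t : Tre (Lt3 Q) | ∀ n, stay (nx^[n] t)} (Su K H) =
        (fun t : {t : Tre (Lt3 Q) | ∀ n, stay (nx^[n] t)} => pt t.1) ⁻¹' H := by
      ext t
      constructor
      · rintro (⟨n, -, hs⟩ | ⟨-, hs⟩)
        · exact absurd (t.2 n) (hne _ hs)
        · exact hs
      · intro hs
        exact Or.inr ⟨t.2, hs⟩
    rw [htr]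
    refine hE.pre _ _ _ _ _ _ (cts_MS h1 h2 _ pt 1 ?_) hH
    intro D t _ t' _ h
    unfold pt
    rw [dX_MS h]
    exact sub_MS _ h
  · -- off the closed set
    intro t ht
    have ht' : ∃ n, ¬ stay (nx^[n] t) := by
      by_contra hcon
      push Not at hcon
      exact ht hcon
    classical
    obtain ⟨n, hn, hmin⟩ : ∃ n, ¬ stay (nx^[n] t) ∧ ∀ m, m < n → stay (nx^[m] t) :=
      ⟨Nat.find ht', Nat.find_spec ht', fun m hm => not_not.1 (Nat.find_min ht' hm)⟩
    obtain ⟨N, hN⟩ := fin_MS h2 (1 + n)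
    have hag : ∀ t' ∈ Cy std N t, Agd (1 + n) t t' := fun t' h => hN t t' h
    have hSu : ∀ t' ∈ Cy std N t, (t' ∈ Su K H ↔ Sw K (nx^[n] t')) := by
      intro t' h
      have h3 : ¬ stay (nx^[n] t') := fun h4 => hn ((stay_MS (nxn_MS n (hag t' h))).2 h4)
      have h4 : ∀ m, m < n → stay (nx^[m] t') := by
        intro m hm
        refine (stay_MS (nxn_MS m (D := 1) fun u hu => hag t' h u ?_)).1 (hmin m hm)
        omega
      constructor
      · rintro (⟨m, hm, hs⟩ | ⟨hs, -⟩)
        · have h5 : m = n := by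
            rcases lt_trichotomy m n with h5 | h5 | h5
            · exact absurd (h4 m h5) (hne _ hs)
            · exact h5
            · exact absurd (hm n h5) h3
          rw [← h5]
          exact hs
        · exact absurd (hs n) h3
      · intro hs
        exact Or.inl ⟨n, h4, hs⟩
    refine ⟨N, ?_, ?_⟩
    · rw [Set.disjoint_left]
      intro t' h hB
      exact hn ((stay_MS (nxn_MS n (hag t' h))).2 (hB n))
    · by_cases hw : wfX (nx^[n] t)
      · -- the switch
        have hr1 : (nx^[n] t) [] (Sum.inr 1) = true := by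
          by_contra h3
          exact hn ⟨hw, by simpa using h3⟩
        have hpt : ∀ t' ∈ Cy std N t, pt (nx^[n] t') =
            t'.sub (pa n t ++ [!(dX (nx^[n] t))]) := by
          intro t' h
          have h3 := hag t' h
          have h4 : pa n t' = pa n t :=
            (pa_congr_MS n fun u hu => (h3 u (by omega))).symm
          have h5 : dX (nx^[n] t') = dX (nx^[n] t) := (dX_MS (D := 0) (nxn_MS n h3)).symm
          unfold pt
          rw [h5, pa_MS n t', h4]
          funext u
          show t' (pa n t ++ ([!(dX (nx^[n] t))] ++ u)) = t' ((pa n t ++ [!(dX (nx^[n] t))]) ++ u)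
          rw [List.append_assoc]
        have hroot : ∀ t' ∈ Cy std N t, (nx^[n] t') [] = (nx^[n] t) [] := fun t' h =>
          (nxn_MS n (hag t' h) [] (by simp)).symm
        have hSu2 : ∀ t' ∈ Cy std N t, (t' ∈ Su K H ↔
            (t'.sub (pa n t ++ [!(dX (nx^[n] t))]) ∈ K ↔ (nx^[n] t) [] (Sum.inr 2) = false)) := by
          intro t' h
          rw [hSu t' h]
          unfold Sw
          rw [hpt t' h, hroot t' h]
          constructor
          · rintro ⟨-, -, h3⟩
            exact h3
          · intro h3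
            exact ⟨(wfX_MS (nxn_MS n (hag t' h))).1 hw, hr1, h3⟩
        have hcts : Cts (res (std : Bits (Tre (Lt3 Q))) (Cy std N t)) std
            (fun t' : (Cy std N t : Set (Tre (Lt3 Q))) =>
              t'.1.sub (pa n t ++ [!(dX (nx^[n] t))])) :=
          cts_MS h1 h2 _ (fun t' => t'.sub (pa n t ++ [!(dX (nx^[n] t))])) _
            (fun D t' _ t'' _ h => sub_MS _ h)
        rcases Bool.eq_false_or_eq_true ((nx^[n] t) [] (Sum.inr 2)) with hb | hb
        · right
          have htr : tr (Cy std N t) (Su K H)ᶜ =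
              (fun t' : (Cy std N t : Set (Tre (Lt3 Q))) =>
                t'.1.sub (pa n t ++ [!(dX (nx^[n] t))])) ⁻¹' K := by
            ext t'
            show ¬ (t'.1 ∈ Su K H) ↔ _
            rw [hSu2 t'.1 t'.2, hb]
            simp
          rw [htr]
          exact hU.pre _ _ _ _ _ _ hcts hK
        · left
          have htr : tr (Cy std N t) (Su K H) =
              (fun t' : (Cy std N t : Set (Tre (Lt3 Q))) =>
                t'.1.sub (pa n t ++ [!(dX (nx^[n] t))])) ⁻¹' K := by
            ext t'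
            show (t'.1 ∈ Su K H) ↔ _
            rw [hSu2 t'.1 t'.2, hb]
            simp
          rw [htr]
          exact hU.pre _ _ _ _ _ _ hcts hK
      · left
        have htr : tr (Cy std N t) (Su K H) = ∅ := by
          ext t'
          constructor
          · intro h
            have h3 := (hSu t'.1 t'.2).1 h
            exact hw ((wfX_MS (nxn_MS n (hag t'.1 t'.2))).2 h3.1)
          · intro h
            exact absurd h (Set.notMem_empty _)
        rw [htr]
        exact hU.empty _ _

end Pool.Agent.Helper30.WL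

end

section

/-!
# PROJECT WL, module ST: from chains of length `θ` to chains of length `ω ^ θ`
-/

set_option autoImplicit false

namespace Pool.Agent.Helper30.WL

open Set
open Pool.Agent.Helper24.WH
open Ordinal hiding univ

private theorem dfb_empty_ST (P : Type) : Dfb (∅ : Set (Tre (P → Bool))) :=
  ⟨.bot, fun _ h => h, trivial, by ext t; simp [Fm.lang, Fm.sem]⟩

private theorem fold_zero_ST {W : Type 1} (st : W → Ordinal.{0} → W) (w : W) : fold st 0 w = w := by
  rw [fold]
  simp

private theorem fold_ne_ST {W : Type 1} (st : W → Ordinal.{0} → W) {b : Ordinal.{0}} (hb : b ≠ 0)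
    (w : W) : fold st b w = fold st (b - ω ^ log ω b) (st w (log ω b)) := by
  rw [fold]
  simp [hb]

private theorem log_lt_ST {b θ : Ordinal.{0}} (hb : b ≠ 0) (h : b < ω ^ θ) : log ω b < θ :=
  (lt_opow_iff_log_lt one_lt_omega0 hb).1 h

/-- Invariants of the fold. -/
private theorem ind_ST {W : Type 1} (st : W → Ordinal.{0} → W) (θ : Ordinal.{0}) (P : W → Prop)
    (hst : ∀ w a, a < θ → P w → P (st w a)) : ∀ b : Ordinal.{0}, b < ω ^ θ → ∀ w, P w → P (fold st b w) := by
  intro b
  induction b using WellFoundedLT.induction with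
  | ind b ih =>
    intro hb w hw
    by_cases h0 : b = 0
    · subst h0
      rwa [fold_zero_ST]
    · rw [fold_ne_ST st h0]
      have h1 := sub_log_lt b h0
      exact ih _ h1 (h1.trans hb) _ (hst _ _ (log_lt_ST h0 hb) hw)

/-- The first component of the fold. -/
private theorem fst_ST {Q : Type} (C : Ordinal.{0} → Cls) (L : Ordinal.{0} → Set (Tre (Lt3 Q))) :
    ∀ (b : Ordinal.{0}) (w : Cls × Set (Tre (Lt3 (Q ⊕ Fin 3)))),
      (fold (fun (w : Cls × Set (Tre (Lt3 (Q ⊕ Fin 3)))) a => (SumC w.1 (ExpC (C a)), Su w.2 (Ex (L a)))) b w).1 =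
        fold (fun U a => SumC U (ExpC (C a))) b w.1 := by
  intro b
  induction b using WellFoundedLT.induction with
  | ind b ih =>
    intro w
    by_cases h0 : b = 0
    · subst h0
      rw [fold_zero_ST, fold_zero_ST]
    · rw [fold_ne_ST _ h0, fold_ne_ST _ h0, ih _ (sub_log_lt b h0)]

theorem hST (hFD : StFD) (hGE : StGE) (hHZ : StHZ) (hHE : StHE) (hHS : StHS) (hME : StME)
    (hMS : StMS) (hDS : StDS) (hDE : StDE) (hGS : StGS) : StST := by
  intro Q _ θ C L h
  let st : Cls × Set (Tre (Lt3 (Q ⊕ Fin 3))) → Ordinal.{0} → Cls × Set (Tre (Lt3 (Q ⊕ Fin 3))) :=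
    fun w a => (SumC w.1 (ExpC (C a)), Su w.2 (Ex (L a)))
  have hinv := ind_ST st θ (fun w => Good w.1 ∧ Cpl w.1 w.2 ∧ Dfb w.2) (by
    rintro w a ha ⟨hg, ⟨hm, hh⟩, hd⟩
    have hE : Good (ExpC (C a)) := hGE.2 _ (h.good a ha)
    have hc := h.cpl a ha
    refine ⟨hGS _ _ hg hE, ⟨?_, ?_⟩, ?_⟩
    · exact hMS _ _ _ _ _ hg hE hm (hME Q (C a) (L a) (h.good a ha) hc.1)
    · exact hHS _ _ _ _ _ hh (hHE Q (C a) (L a) hc.2)
    · exact hDS _ _ _ hd (hDE _ _ (h.df a ha)))
  have h0 : Good C0 ∧ Cpl C0 (∅ : Set (Tre (Lt3 (Q ⊕ Fin 3)))) ∧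
      Dfb (∅ : Set (Tre (Lt3 (Q ⊕ Fin 3)))) := ⟨hGE.1, hHZ _, dfb_empty_ST _⟩
  have hfd := (hFD C θ h.good h.lt C0 hGE.1).2
  refine ⟨fun b => (fold st b (C0, ∅)).1, fun b => (fold st b (C0, ∅)).2, ?_⟩
  constructor
  · intro b hb
    exact (hinv b hb _ h0).1
  · intro b hb
    exact (hinv b hb _ h0).2.1
  · intro b b' hbb hb'
    have h1 := hfd b b' hbb hb'
    have e1 : (fold st b (C0, ∅)).1 = fold (fun U a => SumC U (ExpC (C a))) b C0 := fst_ST C L b _
    have e2 : (fold st b' (C0, ∅)).1 = fold (fun U a => SumC U (ExpC (C a))) b' C0 := fst_ST C L b' _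
    show LtC (fold st b (C0, ∅)).1 (fold st b' (C0, ∅)).1
    rw [e1, e2]
    exact h1
  · intro b hb
    exact (hinv b hb _ h0).2.2

end Pool.Agent.Helper30.WL

end

section

/-!
# PROJECT WL, module TL: the translation lemma
-/

set_option autoImplicit false

namespace Pool.Agent.Helper30.WL

open Set
open Pool.Agent.Helper24.WH
open Ordinal hiding univ

private theorem toB_sub_TL {P : Type} (t : Tre (Set P)) (w : List Bool) : toB (t.sub w) = (toB t).sub w := rfl

private theorem toB_iff_TL {P : Type} (t : Tre (Set P)) (u : List Bool) (p : P) : toB t u p = true ↔ p ∈ t u := by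
  simp [toB]

private theorem toB_false_TL {P : Type} (t : Tre (Set P)) (u : List Bool) (p : P) : toB t u p = false ↔ p ∉ t u := by
  simp [toB]

private theorem sub_sub_TL {A : Type} (t : Tre A) (u v : List Bool) : (t.sub u).sub v = t.sub (u ++ v) := by
  funext w
  simp [Tre.sub, List.append_assoc]

private theorem dcS_sub_TL {Q : Type} (t : Tre (Set (Q ⊕ Fin 3))) (e : Bool) :
    dcS (t.sub (e :: sel (toB (t.sub [e])))) = (dcS t).sub [e] := rfl

/-- the selected node -/
private theorem slf_TL (hTA : StTA) {Q : Type} (ψ : Fm (Q ⊕ Fin 3)) (V : ℕ → Set (Tre (Set (Q ⊕ Fin 3))))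
    (c : Tre (Set (Q ⊕ Fin 3))) (h0 : toB c [false] (Sum.inr 0) ≠ toB c [true] (Sum.inr 0))
    (h1 : toB c [dk (toB c), false] (Sum.inr 1) ≠ toB c [dk (toB c), true] (Sum.inr 1)) :
    c ∈ (slf ψ).SEM V ↔ c.sub (sel (toB c)) ∈ ψ.SEM V := by
  obtain ⟨hnb, hbt, -, -⟩ := hTA Q V
  have hA : ∀ b : Bool, (Sum.inr 0 ∉ c [b] ↔ b = dk (toB c)) := by
    intro b
    rw [← toB_false_TL]
    simp only [dk]
    revert h0
    cases b <;> cases toB c [false] (Sum.inr 0) <;> cases toB c [true] (Sum.inr 0) <;> simp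
  have hB : ∀ s : Bool, (Sum.inr 1 ∈ c [dk (toB c), s] ↔ s = !(toB c [dk (toB c), false] (Sum.inr 1))) := by
    intro s
    rw [← toB_iff_TL]
    revert h1
    cases s <;> cases toB c [dk (toB c), false] (Sum.inr 1) <;> cases toB c [dk (toB c), true] (Sum.inr 1) <;> simp
  have hC : ∀ s : Bool, (Sum.inr 1 ∉ c [dk (toB c), s] ↔ s = toB c [dk (toB c), false] (Sum.inr 1)) := by
    intro s
    rw [← toB_false_TL]
    revert h1
    cases s <;> cases toB c [dk (toB c), false] (Sum.inr 1) <;> cases toB c [dk (toB c), true] (Sum.inr 1) <;> simp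
  have hS : c ∈ (slf ψ).SEM V ↔
      (c ∈ bt.SEM V ∧ ∃ b : Bool, Sum.inr 0 ∉ c [b] ∧ ∃ s : Bool, Sum.inr 1 ∈ c [b, s] ∧ c.sub [b, s] ∈ ψ.SEM V) ∨
      (c ∈ nb.SEM V ∧ ∃ b : Bool, Sum.inr 0 ∉ c [b] ∧ ∃ s : Bool, Sum.inr 1 ∉ c [b, s] ∧ c.sub [b, s] ∈ ψ.SEM V) :=
    Iff.rfl
  rw [hS, hbt, hnb]
  simp only [Set.mem_ofPred_eq]
  by_cases hN : NB (toB c)
  · have hsel : sel (toB c) = [dk (toB c), toB c [dk (toB c), false] (Sum.inr 1)] := by
      simp [sel, hN]
    rw [hsel]
    constructor
    · rintro (⟨h, -⟩ | ⟨-, b, hb, s, hs, h⟩)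
      · exact absurd hN h
      · rw [hA] at hb
        subst hb
        rw [hC] at hs
        rw [← hs]
        exact h
    · intro h
      exact Or.inr ⟨hN, dk (toB c), (hA _).2 rfl, _, (hC _).2 rfl, h⟩
  · have hsel : sel (toB c) = [dk (toB c), !(toB c [dk (toB c), false] (Sum.inr 1))] := by
      simp [sel, hN]
    rw [hsel]
    constructor
    · rintro (⟨-, b, hb, s, hs, h⟩ | ⟨h, -⟩)
      · rw [hA] at hb
        subst hb
        rw [hB] at hs
        rw [← hs]
        exact h
      · exact absurd h hN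
    · intro h
      exact Or.inl ⟨hN, dk (toB c), (hA _).2 rfl, _, (hB _).2 rfl, h⟩

private theorem lfp_TL (hF2 : StF2) {P : Type} (φ : Fm P) (V : ℕ → Set (Tre (Set P))) :
    φ.SEM (ec ((Fm.mu φ).SEM V) V) ⊆ (Fm.mu φ).SEM V := by
  intro t ht X hX
  refine hX ((hF2 P φ).1 _ _ ?_ ht)
  rintro (_ | i)
  · exact fun s hs => hs X hX
  · exact subset_rfl

private theorem gfp_TL (hF2 : StF2) {P : Type} (φ : Fm P) (V : ℕ → Set (Tre (Set P))) :
    (Fm.nu φ).SEM V ⊆ φ.SEM (ec ((Fm.nu φ).SEM V) V) := by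
  rintro t ⟨X, hX, ht⟩
  refine (hF2 P φ).1 _ _ ?_ (hX ht)
  rintro (_ | i)
  · exact fun s hs => ⟨X, hX, hs⟩
  · exact subset_rfl

private theorem mono_TL (hF2 : StF2) {P : Type} (φ : Fm P) (V : ℕ → Set (Tre (Set P))) (A B : Set (Tre (Set P)))
    (h : A ⊆ B) : φ.SEM (ec A V) ⊆ φ.SEM (ec B V) := by
  refine (hF2 P φ).1 _ _ ?_
  rintro (_ | i)
  · exact h
  · exact subset_rfl

theorem hTL (hTA : StTA) (hF2 : StF2) : StTL := by
  intro Q φ
  induction φ with
  | prop p =>
    intro V' V hV t ht
    show Sum.inl p ∈ t [] ↔ toB t [] (Sum.inl p) = true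
    rw [toB_iff_TL]
  | nprop p =>
    intro V' V hV t ht
    show Sum.inl p ∉ t [] ↔ ¬ (toB t [] (Sum.inl p) = true)
    rw [toB_iff_TL]
  | top => intro V' V hV t ht; exact Iff.rfl
  | bot => intro V' V hV t ht; exact Iff.rfl
  | var n => intro V' V hV t ht; exact hV n t ht
  | and φ ψ ih1 ih2 =>
    intro V' V hV t ht
    exact and_congr (ih1 V' V hV t ht) (ih2 V' V hV t ht)
  | or φ ψ ih1 ih2 =>
    intro V' V hV t ht
    exact or_congr (ih1 V' V hV t ht) (ih2 V' V hV t ht)
  | dia φ ih =>
    intro V' V hV t ht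
    refine exists_congr fun e => ?_
    have h := ht 1 e
    rw [slf_TL hTA (trf φ) V' (t.sub [e]) h.1 h.2.1, sub_sub_TL]
    have h2 := ih V' V hV (t.sub (e :: sel (toB (t.sub [e])))) ((hTA Q V').2.2.2 t ht e)
    rw [dcS_sub_TL] at h2
    exact h2
  | box φ ih =>
    intro V' V hV t ht
    refine forall_congr' fun e => ?_
    have h := ht 1 e
    rw [slf_TL hTA (trf φ) V' (t.sub [e]) h.1 h.2.1, sub_sub_TL]
    have h2 := ih V' V hV (t.sub (e :: sel (toB (t.sub [e])))) ((hTA Q V').2.2.2 t ht e)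
    rw [dcS_sub_TL] at h2
    exact h2
  | mu φ ih =>
    intro V' V hV t ht
    constructor
    · intro h
      have key : (trf φ).SEM (ec {s | (∀ m, WFn m (toB s)) → dcS s ∈ (Fm.mu φ).SEM V} V') ⊆
          {s | (∀ m, WFn m (toB s)) → dcS s ∈ (Fm.mu φ).SEM V} := by
        intro s hs hsW
        refine lfp_TL hF2 φ V ((ih _ (ec ((Fm.mu φ).SEM V) V) ?_ s hsW).1 hs)
        rintro (_ | n) x hx
        · exact ⟨fun h => h hx, fun h _ => h⟩
        · exact hV n x hx
      exact h _ key ht
    · intro h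
      have key : φ.SEM (ec {y | ∀ s, (∀ m, WFn m (toB s)) → dcS s = y → s ∈ (Fm.mu (trf φ)).SEM V'} V) ⊆
          {y | ∀ s, (∀ m, WFn m (toB s)) → dcS s = y → s ∈ (Fm.mu (trf φ)).SEM V'} := by
        intro y hy s hs hsy
        subst hsy
        refine lfp_TL hF2 (trf φ) V' (mono_TL hF2 (trf φ) V'
          {x | (∀ m, WFn m (toB x)) ∧ dcS x ∈ {y | ∀ s, (∀ m, WFn m (toB s)) → dcS s = y → s ∈ (Fm.mu (trf φ)).SEM V'}} _ ?_ ?_)
        · rintro x ⟨hx1, hx2⟩
          exact hx2 x hx1 rfl
        · refine (ih _ _ ?_ s hs).2 hy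
          rintro (_ | n) x hx
          · exact ⟨fun h => h.2, fun h => ⟨hx, h⟩⟩
          · exact hV n x hx
      exact h _ key t ht rfl
  | nu φ ih =>
    intro V' V hV t ht
    constructor
    · intro h
      refine ⟨{y | ∃ s, (∀ m, WFn m (toB s)) ∧ dcS s = y ∧ s ∈ (Fm.nu (trf φ)).SEM V'}, ?_, ⟨t, ht, rfl, h⟩⟩
      rintro y ⟨s, hs, rfl, hs2⟩
      refine (ih (ec {x | (∀ m, WFn m (toB x)) → dcS x ∈
        {y | ∃ s, (∀ m, WFn m (toB s)) ∧ dcS s = y ∧ s ∈ (Fm.nu (trf φ)).SEM V'}} V') _ ?_ s hs).1 ?_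
      · rintro (_ | n) x hx
        · exact ⟨fun h => h hx, fun h _ => h⟩
        · exact hV n x hx
      · refine mono_TL hF2 (trf φ) V' _ _ ?_ (gfp_TL hF2 (trf φ) V' hs2)
        intro x hx hxW
        exact ⟨x, hxW, rfl, hx⟩
    · intro h
      refine ⟨{x | (∀ m, WFn m (toB x)) ∧ dcS x ∈ (Fm.nu φ).SEM V}, ?_, ⟨ht, h⟩⟩
      rintro x ⟨hx1, hx2⟩
      refine (ih _ (ec ((Fm.nu φ).SEM V) V) ?_ x hx1).2 (gfp_TL hF2 φ V hx2)
      rintro (_ | n) z hz
      · exact ⟨fun h => h.2, fun h => ⟨hz, h⟩⟩
      · exact hV n z hz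

end Pool.Agent.Helper30.WL

end
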