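import Pool.Agent.Helper30.WL.St
import Pool.Agent.Helper30.WL.St2

set_option autoImplicit false

section

/-!
# WL module DS: the sum of two definable languages is definable
-/

set_option autoImplicit false

namespace Pool.Agent.Helper30.WL

open Set
open Pool.Agent.Helper24.WH
open Ordinal hiding univ

section DS

variable {Q : Type}

/-- well formedness of a spine node -/
def wf_DS : Fm (Q ⊕ Fin 3) := .and (.dia (.prop (.inr 0))) (.dia (.nprop (.inr 0)))

/-- the spine goes on with the variable `0` -/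
def go_DS : Fm (Q ⊕ Fin 3) :=
  .and wf_DS (.and (.nprop (.inr 1)) (.dia (.and (.prop (.inr 0)) (.var 0))))

/-- the spine stays forever -/
def N_DS : Fm (Q ⊕ Fin 3) := .nu go_DS

/-- the switch case -/
def sw_DS (k k' : Fm (Q ⊕ Fin 3)) : Fm (Q ⊕ Fin 3) :=
  .and wf_DS (.and (.prop (.inr 1)) (.or (.and (.nprop (.inr 2)) (.dia (.and (.nprop (.inr 0)) k)))
    (.and (.prop (.inr 2)) (.dia (.and (.nprop (.inr 0)) k')))))

/-- a switch is reached -/
def M_DS (k k' : Fm (Q ⊕ Fin 3)) : Fm (Q ⊕ Fin 3) := .mu (.or (sw_DS k k') go_DS)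

/-- the formula -/
def F_DS (k k' h : Fm (Q ⊕ Fin 3)) : Fm (Q ⊕ Fin 3) :=
  .or (M_DS k k') (.and N_DS (.dia (.and (.nprop (.inr 0)) h)))

/-- the next spine node, letters in `Set` -/
noncomputable def nxS_DS (t : Tre (Set (Q ⊕ Fin 3))) : Tre (Set (Q ⊕ Fin 3)) := t.sub [dX (toB t)]

theorem toB_nxS_DS (t : Tre (Set (Q ⊕ Fin 3))) : toB (nxS_DS t) = nx (toB t) := rfl

theorem toB_it_DS (n : ℕ) (t : Tre (Set (Q ⊕ Fin 3))) : toB (nxS_DS^[n] t) = nx^[n] (toB t) := by
  induction n generalizing t with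
  | zero => rfl
  | succ n ih => rw [Function.iterate_succ_apply, Function.iterate_succ_apply, ih, toB_nxS_DS]

theorem mark_DS (t : Tre (Set (Q ⊕ Fin 3))) (u : List Bool) (p : Q ⊕ Fin 3) :
    (toB t u p = true ↔ p ∈ t u) ∧ (toB t u p = false ↔ p ∉ t u) := by
  classical
  have h : toB t u p = decide (p ∈ t u) := by
    unfold toB
    congr
  rw [h]
  exact ⟨decide_eq_true_iff, decide_eq_false_iff_not⟩

theorem wfX_DS (t : Tre (Set (Q ⊕ Fin 3))) :
    wfX (toB t) ↔ ((∃ b : Bool, (Sum.inr 0 : Q ⊕ Fin 3) ∈ t [b]) ∧ ∃ b : Bool, (Sum.inr 0 : Q ⊕ Fin 3) ∉ t [b]) := by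
  unfold wfX
  have h1 := mark_DS t [false] (Sum.inr 0)
  have h2 := mark_DS t [true] (Sum.inr 0)
  constructor
  · intro h
    by_cases hf : (Sum.inr 0 : Q ⊕ Fin 3) ∈ t [false]
    · by_cases ht : (Sum.inr 0 : Q ⊕ Fin 3) ∈ t [true]
      · exact absurd ((h1.1.mpr hf).trans (h2.1.mpr ht).symm) h
      · exact ⟨⟨false, hf⟩, ⟨true, ht⟩⟩
    · by_cases ht : (Sum.inr 0 : Q ⊕ Fin 3) ∈ t [true]
      · exact ⟨⟨true, ht⟩, ⟨false, hf⟩⟩
      · exact absurd ((h1.2.mpr hf).trans (h2.2.mpr ht).symm) h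
  · rintro ⟨⟨b, hb⟩, ⟨b', hb'⟩⟩ h
    rcases b with _ | _ <;> rcases b' with _ | _
    · exact hb' hb
    · have e1 := h1.1.mpr hb
      rw [h] at e1
      exact hb' (h2.1.mp e1)
    · have e1 := h2.1.mpr hb
      rw [← h] at e1
      exact hb' (h1.1.mp e1)
    · exact hb' hb

theorem dir_DS (t : Tre (Set (Q ⊕ Fin 3))) (hw : wfX (toB t)) (b : Bool) :
    ((Sum.inr 0 : Q ⊕ Fin 3) ∈ t [b] ↔ b = dX (toB t)) ∧ ((Sum.inr 0 : Q ⊕ Fin 3) ∉ t [b] ↔ b = !(dX (toB t))) := by
  unfold wfX at hw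
  have h1 := mark_DS t [false] (Sum.inr 0)
  have h2 := mark_DS t [true] (Sum.inr 0)
  unfold dX
  rcases b with _ | _
  · rcases hf : toB t [false] (Sum.inr 0) with _ | _
    · have := h1.2.mp hf
      simp [this]
    · have := h1.1.mp hf
      simp [this]
  · rcases hf : toB t [false] (Sum.inr 0) with _ | _
    · have h3 : toB t [true] (Sum.inr 0) = true := by
        rcases ht : toB t [true] (Sum.inr 0) with _ | _
        · exact absurd (hf.trans ht.symm) hw
        · rfl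
      have := h2.1.mp h3
      simp [this]
    · have h3 : toB t [true] (Sum.inr 0) = false := by
        rcases ht : toB t [true] (Sum.inr 0) with _ | _
        · rfl
        · exact absurd (hf.trans ht.symm) hw
      have := h2.2.mp h3
      simp [this]

theorem wfSEM_DS (V : ℕ → Set (Tre (Set (Q ⊕ Fin 3)))) : wf_DS.SEM V = {t | wfX (toB t)} := by
  ext t
  rw [mem_ofPred_eq, wfX_DS]
  rfl

theorem diaX_DS (ψ : Fm (Q ⊕ Fin 3)) (V : ℕ → Set (Tre (Set (Q ⊕ Fin 3)))) (t : Tre (Set (Q ⊕ Fin 3)))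
    (hw : wfX (toB t)) : t ∈ (Fm.dia (.and (.prop (.inr 0)) ψ)).SEM V ↔ nxS_DS t ∈ ψ.SEM V := by
  have h0 : t ∈ (Fm.dia (.and (.prop (.inr 0)) ψ)).SEM V ↔
      ∃ b : Bool, (Sum.inr 0 : Q ⊕ Fin 3) ∈ t [b] ∧ t.sub [b] ∈ ψ.SEM V := Iff.rfl
  rw [h0]
  constructor
  · rintro ⟨b, hb, hψ⟩
    rw [(dir_DS t hw b).1] at hb
    rw [hb] at hψ
    exact hψ
  · intro h
    exact ⟨dX (toB t), ((dir_DS t hw _).1).mpr rfl, h⟩

theorem diaN_DS (ψ : Fm (Q ⊕ Fin 3)) (V : ℕ → Set (Tre (Set (Q ⊕ Fin 3)))) (t : Tre (Set (Q ⊕ Fin 3)))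
    (hw : wfX (toB t)) : t ∈ (Fm.dia (.and (.nprop (.inr 0)) ψ)).SEM V ↔ t.sub [!(dX (toB t))] ∈ ψ.SEM V := by
  have h0 : t ∈ (Fm.dia (.and (.nprop (.inr 0)) ψ)).SEM V ↔
      ∃ b : Bool, (Sum.inr 0 : Q ⊕ Fin 3) ∉ t [b] ∧ t.sub [b] ∈ ψ.SEM V := Iff.rfl
  rw [h0]
  constructor
  · rintro ⟨b, hb, hψ⟩
    rw [(dir_DS t hw b).2] at hb
    rw [hb] at hψ
    exact hψ
  · intro h
    exact ⟨!(dX (toB t)), ((dir_DS t hw _).2).mpr rfl, h⟩

theorem goSEM_DS (V : ℕ → Set (Tre (Set (Q ⊕ Fin 3)))) (t : Tre (Set (Q ⊕ Fin 3))) :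
    t ∈ go_DS.SEM V ↔ stay (toB t) ∧ nxS_DS t ∈ V 0 := by
  have h0 : t ∈ go_DS.SEM V ↔ t ∈ wf_DS.SEM V ∧ (Sum.inr 1 : Q ⊕ Fin 3) ∉ t [] ∧
      t ∈ (Fm.dia (.and (.prop (.inr 0)) (.var 0))).SEM V := Iff.rfl
  rw [h0, wfSEM_DS]
  constructor
  · rintro ⟨h1, h2, h3⟩
    exact ⟨⟨h1, (mark_DS t [] _).2.mpr h2⟩, (diaX_DS (.var 0) V t h1).mp h3⟩
  · rintro ⟨⟨h1, h2⟩, h3⟩
    exact ⟨h1, (mark_DS t [] _).2.mp h2, (diaX_DS (.var 0) V t h1).mpr h3⟩

theorem swSEM_DS (K : Set (Tre (Lt3 Q))) (k k' : Fm (Q ⊕ Fin 3)) (V : ℕ → Set (Tre (Set (Q ⊕ Fin 3))))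
    (hk : k.SEM V = {t | toB t ∈ K}) (hk' : k'.SEM V = {t | toB t ∉ K})
    (t : Tre (Set (Q ⊕ Fin 3))) : t ∈ (sw_DS k k').SEM V ↔ Sw K (toB t) := by
  have h0 : t ∈ (sw_DS k k').SEM V ↔ t ∈ wf_DS.SEM V ∧ (Sum.inr 1 : Q ⊕ Fin 3) ∈ t [] ∧
      (((Sum.inr 2 : Q ⊕ Fin 3) ∉ t [] ∧ t ∈ (Fm.dia (.and (.nprop (.inr 0)) k)).SEM V) ∨
       ((Sum.inr 2 : Q ⊕ Fin 3) ∈ t [] ∧ t ∈ (Fm.dia (.and (.nprop (.inr 0)) k')).SEM V)) := Iff.rfl
  rw [h0, wfSEM_DS]
  unfold Sw
  have e0 : toB (t.sub [!(dX (toB t))]) = pt (toB t) := rfl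
  constructor
  · rintro ⟨h1, h2, h3⟩
    refine ⟨h1, (mark_DS t [] _).1.mpr h2, ?_⟩
    rcases h3 with ⟨h4, h5⟩ | ⟨h4, h5⟩
    · rw [diaN_DS k V t h1, hk, mem_ofPred_eq, e0] at h5
      exact ⟨fun _ => (mark_DS t [] _).2.mpr h4, fun _ => h5⟩
    · rw [diaN_DS k' V t h1, hk', mem_ofPred_eq, e0] at h5
      exact ⟨fun h => absurd h h5, fun h => absurd h4 ((mark_DS t [] _).2.mp h)⟩
  · rintro ⟨h1, h2, h3⟩
    refine ⟨h1, (mark_DS t [] _).1.mp h2, ?_⟩
    by_cases h4 : (Sum.inr 2 : Q ⊕ Fin 3) ∈ t []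
    · right
      refine ⟨h4, ?_⟩
      rw [diaN_DS k' V t h1, hk', mem_ofPred_eq, e0]
      intro h5
      exact (mark_DS t [] _).2.mp (h3.mp h5) h4
    · left
      refine ⟨h4, ?_⟩
      rw [diaN_DS k V t h1, hk, mem_ofPred_eq, e0]
      exact h3.mpr ((mark_DS t [] _).2.mpr h4)

theorem NSEM_DS (V : ℕ → Set (Tre (Set (Q ⊕ Fin 3)))) :
    N_DS.SEM V = {t | ∀ n, stay (nx^[n] (toB t))} := by
  have h0 : N_DS.SEM V = ⋃₀ {X | X ⊆ go_DS.SEM (ec X V)} := rfl
  rw [h0]
  ext t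
  constructor
  · rintro ⟨X, hX, htX⟩ n
    induction n generalizing t with
    | zero => exact ((goSEM_DS _ t).mp (hX htX)).1
    | succ n ih =>
      have h1 : nxS_DS t ∈ X := ((goSEM_DS _ t).mp (hX htX)).2
      have := ih (nxS_DS t) h1
      rw [toB_nxS_DS] at this
      exact this
  · intro ht
    refine ⟨{t | ∀ n, stay (nx^[n] (toB t))}, ?_, ht⟩
    intro s hs
    rw [goSEM_DS]
    refine ⟨hs 0, fun n => ?_⟩
    rw [toB_nxS_DS]
    exact hs (n + 1)

theorem MSEM_DS (K : Set (Tre (Lt3 Q))) (k k' : Fm (Q ⊕ Fin 3)) (V : ℕ → Set (Tre (Set (Q ⊕ Fin 3))))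
    (hk : ∀ V, k.SEM V = {t | toB t ∈ K}) (hk' : ∀ V, k'.SEM V = {t | toB t ∉ K}) :
    (M_DS k k').SEM V = {t | ∃ n, (∀ m, m < n → stay (nx^[m] (toB t))) ∧ Sw K (nx^[n] (toB t))} := by
  have h0 : (M_DS k k').SEM V = ⋂₀ {X | (sw_DS k k').SEM (ec X V) ∪ go_DS.SEM (ec X V) ⊆ X} := rfl
  rw [h0]
  ext t
  constructor
  · intro ht
    refine ht _ ?_
    rintro s (hs | hs)
    · rw [swSEM_DS K k k' _ (hk _) (hk' _)] at hs
      exact ⟨0, fun m hm => absurd hm (Nat.not_lt_zero m), hs⟩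
    · rw [goSEM_DS] at hs
      obtain ⟨h1, n, h2, h3⟩ := hs
      rw [toB_nxS_DS] at h2 h3
      refine ⟨n + 1, ?_, h3⟩
      intro m hm
      rcases m with _ | m
      · exact h1
      · exact h2 m (by omega)
  · rintro ⟨n, h1, h2⟩ X hX
    induction n generalizing t with
    | zero =>
      refine hX (Or.inl ?_)
      rw [swSEM_DS K k k' _ (hk _) (hk' _)]
      exact h2
    | succ n ih =>
      refine hX (Or.inr ?_)
      rw [goSEM_DS]
      refine ⟨h1 0 (Nat.succ_pos n), ih (nxS_DS t) ?_ ?_⟩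
      · intro m hm
        rw [toB_nxS_DS]
        exact h1 (m + 1) (by omega)
      · rw [toB_nxS_DS]
        exact h2

theorem FSEM_DS (K H : Set (Tre (Lt3 Q))) (k k' h : Fm (Q ⊕ Fin 3)) (V : ℕ → Set (Tre (Set (Q ⊕ Fin 3))))
    (hk : ∀ V, k.SEM V = {t | toB t ∈ K}) (hk' : ∀ V, k'.SEM V = {t | toB t ∉ K})
    (hh : ∀ V, h.SEM V = {t | toB t ∈ H}) :
    (F_DS k k' h).SEM V = {t | toB t ∈ Su K H} := by
  ext t
  have h0 : t ∈ (F_DS k k' h).SEM V ↔ t ∈ (M_DS k k').SEM V ∨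
      (t ∈ N_DS.SEM V ∧ t ∈ (Fm.dia (.and (.nprop (.inr 0)) h)).SEM V) := Iff.rfl
  rw [h0, MSEM_DS K k k' V hk hk', NSEM_DS]
  have e0 : toB (t.sub [!(dX (toB t))]) = pt (toB t) := rfl
  constructor
  · rintro (h1 | ⟨h1, h2⟩)
    · exact Or.inl h1
    · rw [diaN_DS h V t (h1 0).1, hh, mem_ofPred_eq, e0] at h2
      exact Or.inr ⟨h1, h2⟩
  · rintro (h1 | ⟨h1, h2⟩)
    · exact Or.inl h1
    · refine Or.inr ⟨h1, ?_⟩
      rw [diaN_DS h V t (h1 0).1, hh, mem_ofPred_eq, e0]
      exact h2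

end DS

theorem hDS (_hF2 : StF2) (hNG : StNG) (hLG : StLG) (hDP : StDPN) : StDS := by
  intro Q K H hK hH
  obtain ⟨k, hk1, hk2, hk3⟩ := hK
  obtain ⟨h, hh1, hh2, hh3⟩ := hH
  obtain ⟨k', hk'1, hk'2, hk'3⟩ := hNG _ k hk1 hk2
  have hk : ∀ V, k.SEM V = {t | toB t ∈ K} := fun V => by rw [← hLG _ k hk1 V, hk3]
  have hh : ∀ V, h.SEM V = {t | toB t ∈ H} := fun V => by rw [← hLG _ h hh1 V, hh3]
  have hk' : ∀ V, k'.SEM V = {t | toB t ∉ K} := by
    intro V
    have := hk'3 (fun n => (V n)ᶜ)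
    simp only [compl_compl] at this
    rw [this, hk]
    rfl
  have hfree : ∀ n, ¬ (F_DS k k' h).free n := by
    intro n hn
    simp only [F_DS, M_DS, sw_DS, go_DS, N_DS, wf_DS, Fm.free] at hn
    have a1 := hk1 (n + 1)
    have a2 := hk'1 (n + 1)
    have a3 := hh1 n
    simp_all
  refine ⟨F_DS k k' h, hfree, ?_, ?_⟩
  · have b1 : ¬ k.nuDep 0 := fun hc => hk1 0 ((hDP _ k 0).1 hc)
    have b2 : ¬ k'.nuDep 0 := fun hc => hk'1 0 ((hDP _ k' 0).1 hc)
    simp only [F_DS, M_DS, sw_DS, go_DS, N_DS, wf_DS, Fm.altFree, Fm.nuDep, Fm.muDep]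
    simp [hk2, hk'2, hh2, b1, b2]
  · rw [hLG _ (F_DS k k' h) hfree (fun _ => ∅)]
    exact FSEM_DS K H k k' h _ hk hk' hh

end Pool.Agent.Helper30.WL

end

section

/-!
# PROJECT WL (MP_76577a_lc), module FD: the fold along the Cantor normal form is strictly increasing
-/

set_option autoImplicit false

namespace Pool.Agent.Helper30.WL

open Set
open Ordinal hiding univ

private theorem fold_zero_FD {W : Type 1} (st : W → Ordinal.{0} → W) (w : W) : fold st 0 w = w := by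
  rw [fold]
  simp

private theorem fold_ne_FD {W : Type 1} (st : W → Ordinal.{0} → W) {b : Ordinal.{0}} (hb : b ≠ 0) (w : W) :
    fold st b w = fold st (b - ω ^ log ω b) (st w (log ω b)) := by
  rw [fold, dif_neg hb]

theorem hFD (hGE : StGE) (hGS : StGS) (hLT : StLT) (hKEY : StKEY) : StFD := by
  obtain ⟨hL1, hL2, hL3, -⟩ := hLT
  intro C θ hC hlt U hU
  set st : Cls → Ordinal.{0} → Cls := fun U a => SumC U (ExpC (C a)) with hst
  have hE : ∀ a, a < θ → Good (ExpC (C a)) := fun a ha => hGE.2 _ (hC a ha)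
  have hstG : ∀ a, a < θ → ∀ V, Good V → Good (st V a) := fun a ha V hV => hGS _ _ hV (hE a ha)
  have hlog : ∀ b : Ordinal.{0}, ∀ c : Ordinal.{0}, b ≠ 0 → b < ω ^ c → log ω b < c := by
    intro b c hb hbc
    exact (Ordinal.lt_opow_iff_log_lt one_lt_omega0 hb).mp hbc
  have hG : ∀ b : Ordinal.{0}, b < ω ^ θ → ∀ V, Good V → Good (fold st b V) := by
    intro b
    induction b using WellFoundedLT.induction with
    | _ b ih =>
      intro hb V hV
      by_cases h0 : b = 0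
      · rw [h0, fold_zero_FD]
        exact hV
      · rw [fold_ne_FD st h0]
        have h1 := sub_log_lt b h0
        exact ih _ h1 (h1.trans hb) _ (hstG _ (hlog b θ h0 hb) V hV)
  have hA : ∀ g, g < θ → ∀ W : Cls, Good W → ∀ b : Ordinal.{0}, b < ω ^ g → ∀ V : Cls, LtC V (st W g) →
      LtC (fold st b V) (st W g) := by
    intro g hg W hW b
    induction b using WellFoundedLT.induction with
    | _ b ih =>
      intro hb V hV
      by_cases h0 : b = 0
      · rw [h0, fold_zero_FD]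
        exact hV
      · rw [fold_ne_FD st h0]
        have h1 := sub_log_lt b h0
        have h2 := hlog b g h0 hb
        exact ih _ h1 (h1.trans hb) _ (hKEY W V (C (log ω b)) (C g) hW (hC g hg) (hlt _ _ h2 hg) hV)
  have hB : ∀ b : Ordinal.{0}, b < ω ^ θ → ∀ V, Good V → LeC V (fold st b V) := by
    intro b
    induction b using WellFoundedLT.induction with
    | _ b ih =>
      intro hb V hV
      by_cases h0 : b = 0
      · rw [h0, fold_zero_FD]
        exact fun _ _ _ h => h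
      · rw [fold_ne_FD st h0]
        have h1 := sub_log_lt b h0
        have h2 := hlog b θ h0 hb
        have h3 : LeC V (st V (log ω b)) := hL1 _ _ (hL3 V _ hV (hE _ h2))
        have h4 := ih _ h1 (h1.trans hb) _ (hstG _ h2 V hV)
        exact fun X i A h => h4 X i A (h3 X i A h)
  have hD : ∀ b' : Ordinal.{0}, b' < ω ^ θ → ∀ b, b < b' → ∀ V, Good V → LtC (fold st b V) (fold st b' V) := by
    intro b'
    induction b' using WellFoundedLT.induction with
    | _ b' ih =>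
      intro hb' b hb V hV
      have h0 : b' ≠ 0 := (bot_le.trans_lt hb).ne'
      have h1 := sub_log_lt b' h0
      have h2 := hlog b' θ h0 hb'
      rw [fold_ne_FD st h0]
      by_cases hc : b < ω ^ log ω b'
      · have h3 : LtC (fold st b V) (st V (log ω b')) := hA _ h2 V hV b hc V (hL3 V _ hV (hE _ h2))
        exact hL2 _ _ _ h3 (hB _ (h1.trans hb') _ (hstG _ h2 V hV))
      · rw [not_lt] at hc
        have hb0 : b ≠ 0 := by
          rintro rfl
          exact absurd hc (not_le.mpr (opow_pos _ omega0_pos))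
        have hlb : log ω b = log ω b' := by
          refine le_antisymm (Ordinal.log_mono_right _ hb.le) ?_
          exact (Ordinal.opow_le_iff_le_log one_lt_omega0 hb0).mp hc
        rw [fold_ne_FD st hb0, hlb]
        refine ih _ h1 (h1.trans hb') _ ?_ _ (hstG _ h2 V hV)
        by_contra hcon
        rw [not_lt] at hcon
        have h5 : ω ^ log ω b' + (b' - ω ^ log ω b') = b' :=
          Ordinal.add_sub_cancel_of_le (opow_log_le_self ω h0)
        have h6 : ω ^ log ω b' + (b - ω ^ log ω b') = b := Ordinal.add_sub_cancel_of_le hc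
        have h7 : b' ≤ b := by
          rw [← h5, ← h6]
          exact add_le_add_right hcon _
        exact absurd hb (not_lt.mpr h7)
  exact ⟨fun b hb => hG b hb U hU, fun b b' hbb hb' => hD b' hb' b hbb U hU⟩

end Pool.Agent.Helper30.WL

end

section

/-!
# PROJECT WL, module GE: `C0` and `ExpC C` are good
-/

set_option autoImplicit false

namespace Pool.Agent.Helper30.WL

open Set
open Pool.Agent.Helper24.WH (Tre pT)

private theorem good_C0_GE : Good C0 where
  pre := by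
    intro X Y i i' f A _ hA
    change A = ∅ at hA
    subst hA
    rfl
  paste := by
    intro X i κ A _ h
    change A = ∅
    ext x
    simp only [mem_empty_iff_false, iff_false]
    intro hx
    have h1 : tr {y | κ y = κ x} A = ∅ := h (κ x)
    have h2 : (⟨x, rfl⟩ : {y | κ y = κ x}) ∈ tr {y | κ y = κ x} A := hx
    rw [h1] at h2
    exact h2
  empty := fun X i => rfl

open Classical in
/-- new bits for pasting, two indices -/
private noncomputable def nbp_GE {X : Type} (κ : X → ℕ) (j : (c : ℕ) → Bits {x | κ x = c}) (x : X) : ℕ → ℕ → Bool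
  | 0, b => decide (κ x = b)
  | c + 1, b => if h : κ x = c then j c ⟨x, h⟩ b else false

/-- new bits for pasting -/
private noncomputable def nb_GE {X : Type} (κ : X → ℕ) (j : (c : ℕ) → Bits {x | κ x = c}) : Bits X := fun x n =>
  nbp_GE κ j x n.unpair.1 n.unpair.2

private theorem nb0_GE {X : Type} (κ : X → ℕ) (j : (c : ℕ) → Bits {x | κ x = c}) (x : X) (b : ℕ) :
    nb_GE κ j x (Nat.pair 0 b) = true ↔ κ x = b := by
  simp [nb_GE, nbp_GE]

private theorem nb1_GE {X : Type} (κ : X → ℕ) (j : (c : ℕ) → Bits {x | κ x = c}) (c : ℕ) (x : {x | κ x = c}) (b : ℕ) :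
    nb_GE κ j x.1 (Nat.pair (c + 1) b) = j c x b := by
  have h : κ x.1 = c := x.2
  simp only [nb_GE, Nat.unpair_pair, nbp_GE]
  exact dif_pos h

private theorem nb2_GE {X : Type} (κ : X → ℕ) (j : (c : ℕ) → Bits {x | κ x = c}) (c : ℕ) (x : X) (h : κ x ≠ c) (b : ℕ) :
    nb_GE κ j x (Nat.pair (c + 1) b) = false := by
  simp only [nb_GE, Nat.unpair_pair, nbp_GE]
  exact dif_neg h

private theorem Ag_mono_GE {X : Type} {i : Bits X} {n m : ℕ} {x y : X} (h : n ≤ m) (hxy : Ag i m x y) : Ag i n x y :=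
  fun k hk => hxy k (lt_of_lt_of_le hk h)

theorem hGE : StGE := by
  refine ⟨good_C0_GE, fun C hC => ⟨?_, ?_, ?_⟩⟩
  · rintro X Y i i' f A hf ⟨j, hj, hA⟩
    refine ⟨fun y => j (f y), fun k => ?_, ?_⟩
    · intro y hy
      have h1 : f y ∈ {x | j x k = true}ᶜ := hy
      obtain ⟨n, hn⟩ := hj k (f y) h1
      obtain ⟨n', hn'⟩ := hf n y
      refine ⟨n', fun y' hy' => ?_⟩
      exact hn (hn' y' hy')
    · exact hC.pre X Y j (fun y => j (f y)) f A (fun n y => ⟨n, fun y' hy' => hy'⟩) hA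
  · intro X i κ A hκ h
    choose j hj hjC using h
    refine ⟨nb_GE κ j, fun k => ?_, ?_⟩
    · intro x hx
      obtain ⟨n₀, hn₀⟩ := hκ x
      obtain ⟨a, b, rfl⟩ : ∃ a b, k = Nat.pair a b := ⟨k.unpair.1, k.unpair.2, (Nat.pair_unpair k).symm⟩
      cases a with
      | zero =>
        refine ⟨n₀, fun y hy => ?_⟩
        intro hy'
        apply hx
        change nb_GE κ j y (Nat.pair 0 b) = true at hy'
        change nb_GE κ j x (Nat.pair 0 b) = true
        rw [nb0_GE] at hy' ⊢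
        rw [← hn₀ y hy]
        exact hy'
      | succ c =>
        by_cases hxc : κ x = c
        · have h1 : (⟨x, hxc⟩ : {x | κ x = c}) ∈ {x | j c x b = true}ᶜ := by
            intro h2
            apply hx
            change nb_GE κ j x (Nat.pair (c + 1) b) = true
            rw [nb1_GE κ j c ⟨x, hxc⟩ b]
            exact h2
          obtain ⟨n₁, hn₁⟩ := hj c b ⟨x, hxc⟩ h1
          refine ⟨max n₀ n₁, fun y hy => ?_⟩
          have hyc : κ y = c := (hn₀ y (Ag_mono_GE (le_max_left _ _) hy)).trans hxc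
          have h2 : (⟨y, hyc⟩ : {x | κ x = c}) ∈ {x | j c x b = true}ᶜ :=
            hn₁ (show Ag (res i {x | κ x = c}) n₁ ⟨x, hxc⟩ ⟨y, hyc⟩ from
              fun k hk => hy k (lt_of_lt_of_le hk (le_max_right _ _)))
          intro hy'
          apply h2
          change nb_GE κ j y (Nat.pair (c + 1) b) = true at hy'
          rw [nb1_GE κ j c ⟨y, hyc⟩ b] at hy'
          exact hy'
        · refine ⟨n₀, fun y hy => ?_⟩
          intro hy'
          change nb_GE κ j y (Nat.pair (c + 1) b) = true at hy'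
          rw [nb2_GE κ j c y (by rw [hn₀ y hy]; exact hxc) b] at hy'
          exact Bool.false_ne_true hy'
    · refine hC.paste X (nb_GE κ j) κ A (fun x => ?_) (fun c => ?_)
      · refine ⟨Nat.pair 0 (κ x) + 1, fun y hy => ?_⟩
        have h1 := hy (Nat.pair 0 (κ x)) (Nat.lt_succ_self _)
        have h2 : nb_GE κ j x (Nat.pair 0 (κ x)) = true := (nb0_GE κ j x (κ x)).2 rfl
        rw [h2] at h1
        exact (nb0_GE κ j y (κ x)).1 h1.symm
      · refine hC.pre {x | κ x = c} {x | κ x = c} (j c) (res (nb_GE κ j) {x | κ x = c}) id (tr {x | κ x = c} A)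
          (fun n y => ⟨Nat.pair (c + 1) n + 1, fun y' hy' b hb => ?_⟩) (hjC c)
        have h1 : Nat.pair (c + 1) b < Nat.pair (c + 1) n + 1 :=
          lt_trans (Nat.pair_lt_pair_right (c + 1) hb) (Nat.lt_succ_self _)
        have h2 := hy' _ h1
        change nb_GE κ j y.1 (Nat.pair (c + 1) b) = nb_GE κ j y'.1 (Nat.pair (c + 1) b) at h2
        rw [nb1_GE, nb1_GE] at h2
        exact h2
  · intro X i
    refine ⟨fun _ _ => false, fun k x _ => ⟨0, fun y _ => ?_⟩, hC.empty X _⟩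
    intro hy
    exact Bool.false_ne_true hy

end Pool.Agent.Helper30.WL

end

section

set_option autoImplicit false

namespace Pool.Agent.Helper30.WL

open Set
open Pool.Agent.Helper24.WH
open Ordinal hiding univ

/-- inverse of `toB` -/
def ofB_LO {P : Type} (t : Tre (P → Bool)) : Tre (Set P) := fun u => {p | t u p = true}

theorem toB_ofB_LO {P : Type} (t : Tre (P → Bool)) : toB (ofB_LO t) = t := by
  classical
  funext u p
  have h1 : (toB (ofB_LO t) u p = true) ↔ t u p = true := by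
    unfold toB
    rw [decide_eq_true_iff]
    exact Iff.rfl
  cases h : t u p
  · rw [h] at h1
    simpa using h1
  · exact h1.mpr h

theorem ofB_toB_LO {P : Type} (t : Tre (Set P)) : ofB_LO (toB t) = t := by
  funext u
  ext p
  simp [toB, ofB_LO]

/-- a letterwise map of trees is continuous -/
theorem letter_cont_LO (A B : Type) (φ : A → B) :
    @Continuous (Tre A) (Tre B) (pT A) (pT B) (fun t u => φ (t u)) := by
  let tA : TopologicalSpace A := ⊥
  let tB : TopologicalSpace B := ⊥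
  have : DiscreteTopology A := ⟨rfl⟩
  change @Continuous (List Bool → A) (List Bool → B) Pi.topologicalSpace Pi.topologicalSpace (fun t u => φ (t u))
  refine continuous_pi (fun u => ?_)
  exact (continuous_of_discreteTopology (f := φ)).comp (continuous_apply u)

theorem toB_cont_LO (P : Type) : @Continuous _ _ (pT (Set P)) (pT (P → Bool)) (toB (P := P)) := by
  classical
  exact letter_cont_LO (Set P) (P → Bool) (fun s p => decide (p ∈ s))

theorem ofB_cont_LO (P : Type) : @Continuous _ _ (pT (P → Bool)) (pT (Set P)) (ofB_LO (P := P)) :=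
  letter_cont_LO (P → Bool) (Set P) (fun f => {p | f p = true})

/-- transfer of reductions from the boolean form -/
theorem red_LO {P : Type} (K K' : Set (Tre (P → Bool)))
    (h : ∃ f : Tre (P → Bool) → Tre (P → Bool), @Continuous _ _ (pT (P → Bool)) (pT (P → Bool)) f ∧ ∀ t, t ∈ K ↔ f t ∈ K') :
    WLe {t : Tre (Set P) | toB t ∈ K} {t : Tre (Set P) | toB t ∈ K'} := by
  obtain ⟨f, hf, hfK⟩ := h
  refine ⟨fun t => ofB_LO (f (toB t)), ?_, ?_⟩
  · exact @Continuous.comp _ _ _ (pT (Set P)) (pT (P → Bool)) (pT (Set P)) _ _ (ofB_cont_LO P)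
      (@Continuous.comp _ _ _ (pT (Set P)) (pT (P → Bool)) (pT (P → Bool)) _ _ hf (toB_cont_LO P))
  · ext t
    simp only [mem_preimage, mem_ofPred_eq, toB_ofB_LO]
    exact (hfK (toB t)).symm

/-- transfer of reductions to the boolean form -/
theorem red'_LO {P : Type} (K K' : Set (Tre (P → Bool)))
    (h : WLe {t : Tre (Set P) | toB t ∈ K} {t : Tre (Set P) | toB t ∈ K'}) :
    ∃ f : Tre (P → Bool) → Tre (P → Bool), @Continuous _ _ (pT (P → Bool)) (pT (P → Bool)) f ∧ ∀ t, t ∈ K ↔ f t ∈ K' := by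
  obtain ⟨F, hF, hFK⟩ := h
  refine ⟨fun t => toB (F (ofB_LO t)), ?_, ?_⟩
  · exact @Continuous.comp _ _ _ (pT (P → Bool)) (pT (Set P)) (pT (P → Bool)) _ _ (toB_cont_LO P)
      (@Continuous.comp _ _ _ (pT (P → Bool)) (pT (Set P)) (pT (Set P)) _ _ hF (ofB_cont_LO P))
  · intro t
    have h1 : ofB_LO t ∈ F ⁻¹' {t : Tre (Set P) | toB t ∈ K'} ↔ ofB_LO t ∈ {t : Tre (Set P) | toB t ∈ K} := by
      rw [hFK]
    simp only [mem_preimage, mem_ofPred_eq, toB_ofB_LO] at h1
    exact h1.symm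

theorem hLO (hCN : StCN) (hNS : StNS) : StLO := by
  intro a ha
  obtain ⟨hch, hth⟩ := hCN
  obtain ⟨m, hm⟩ := hth a ha
  obtain ⟨hfin, C, L, hC⟩ := hch m
  have := hfin
  refine ⟨QQ m ⊕ Fin 3, inferInstance, ⟨_, hC.df a hm⟩, ?_⟩
  intro h
  have key : ∀ b : Ordinal.{0}, ∀ hb : b ≤ a,
      b ≤ (h.apply (⟨_, hC.df b (lt_of_le_of_lt hb hm)⟩ : {L : Set (Tre (Set (QQ m ⊕ Fin 3))) // Definable L})).rank := by
    intro b
    induction b using WellFoundedLT.induction with
    | ind b ih =>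
      intro hb
      refine le_of_forall_lt (fun c hc => ?_)
      have hca : c ≤ a := (hc.le).trans hb
      refine lt_of_le_of_lt (ih c hc hca) ?_
      refine Acc.rank_lt_of_rel _ ?_
      have hcθ : c < th m := lt_of_le_of_lt hca hm
      have hbθ : b < th m := lt_of_le_of_lt hb hm
      have hns := (hNS (QQ m) (C c) (C b) (L c) (L b) (hC.good c hcθ) (hC.cpl c hcθ)).2
        (hC.lt c b hc hbθ) (hC.cpl b hbθ)
      refine ⟨red_LO (L c) (L b) hns.1, ?_⟩
      intro hw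
      exact hns.2 (red'_LO (L b) (L c) hw)
  exact key a le_rfl

end Pool.Agent.Helper30.WL

end

section

/-!
# PROJECT WL, modules LT and HZ
-/

set_option autoImplicit false

namespace Pool.Agent.Helper30.WL

open Set
open Pool.Agent.Helper24.WH (Tre pT)
open Ordinal hiding univ

private theorem cts_val_LT {X : Type} (i : Bits X) (O : Set X) :
    Cts (res i O) i (Subtype.val : O → X) := by
  intro n y
  exact ⟨n, fun y' h => h⟩

theorem hLT : StLT := by
  refine ⟨?_, ?_, ?_, ?_⟩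
  · intro C C' h X i A hA
    exact h X i A (Or.inl hA)
  · intro C C' C'' h h' X i A hA
    exact h' X i A (h X i A hA)
  · intro U E hU hE X i A hA
    refine ⟨∅, ?_, ?_, ?_⟩
    · intro x _
      exact ⟨0, fun y _ => by simp⟩
    · have h1 : tr (∅ : Set X) A = ∅ := by
        ext x
        exact absurd x.2 (Set.notMem_empty _)
      rw [h1]
      exact hE.empty _ _
    · intro x _
      refine ⟨0, Set.disjoint_empty _, ?_⟩
      rcases hA with hA | hA
      · exact Or.inl (hU.pre X _ i _ Subtype.val A (cts_val_LT i _) hA)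
      · exact Or.inr (hU.pre X _ i _ Subtype.val Aᶜ (cts_val_LT i _) hA)
  · intro C C' h X i A hA
    rcases hA with ⟨j, hj, hA⟩ | ⟨j, hj, hA⟩
    · exact ⟨j, hj, h X j A (Or.inl hA)⟩
    · exact ⟨j, hj, h X j A (Or.inr hA)⟩

theorem hHZ : StHZ := by
  intro Q _
  refine ⟨rfl, ?_⟩
  intro X i A hA
  refine ⟨fun _ _ _ => false, ?_, fun _ => rfl, ?_⟩
  · intro u x y _
    rfl
  · intro x
    have hA' : A = ∅ := hA
    rw [hA']
    simp

end Pool.Agent.Helper30.WL

end

section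

/-!
# PROJECT WL, module SB: the standard bits of trees
-/

set_option autoImplicit false

namespace Pool.Agent.Helper30.WL

open Set
open Pool.Agent.Helper24.WH (Tre pT)

/-- neighbourhoods in a product of discrete spaces -/
theorem nhdsPi_SB {A : Type} (t : List Bool → A) (S : Set (List Bool → A)) :
    S ∈ @nhds _ (@Pi.topologicalSpace (List Bool) (fun _ => A) (fun _ => ⊥)) t ↔
      ∃ I : Finset (List Bool), ∀ t' : List Bool → A, (∀ u ∈ I, t' u = t u) → t' ∈ S := by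
  let _ : TopologicalSpace A := ⊥
  have : DiscreteTopology A := ⟨rfl⟩
  change S ∈ nhds t ↔ _
  rw [nhds_pi]
  simp only [nhds_discrete]
  constructor
  · intro h
    obtain ⟨I, hI, V, hV, hS⟩ := Filter.mem_pi.mp h
    refine ⟨hI.toFinset, fun t' ht' => hS ?_⟩
    intro u hu
    have h1 : t' u = t u := ht' u (hI.mem_toFinset.mpr hu)
    have h2 : t u ∈ V u := by simpa using hV u
    rw [h1]
    exact h2
  · rintro ⟨I, hI⟩
    refine Filter.mem_pi.mpr ⟨(I : Set (List Bool)), I.finite_toSet, fun u => {t u}, fun u => by simp, ?_⟩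
    intro t' ht'
    exact hI t' (fun u hu => ht' u hu)

/-- neighbourhoods in the product topology of discrete letters -/
theorem nhds_SB {A : Type} (t : Tre A) (S : Set (Tre A)) :
    S ∈ @nhds _ (pT A) t ↔ ∃ I : Finset (List Bool), ∀ t' : Tre A, (∀ u ∈ I, t' u = t u) → t' ∈ S :=
  nhdsPi_SB t S

/-- continuity of maps of trees -/
theorem cont_iff_SB {A B : Type} (f : Tre A → Tre B) :
    @Continuous _ _ (pT A) (pT B) f ↔
      ∀ (t : Tre A) (J : Finset (List Bool)), ∃ I : Finset (List Bool), ∀ t' : Tre A,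
        (∀ u ∈ I, t' u = t u) → ∀ v ∈ J, f t' v = f t v := by
  constructor
  · intro h t J
    have h1 : Filter.Tendsto f (@nhds _ (pT A) t) (@nhds _ (pT B) (f t)) :=
      @Continuous.tendsto _ _ (pT A) (pT B) f h t
    have h2 : {s : Tre B | ∀ v ∈ J, s v = f t v} ∈ @nhds _ (pT B) (f t) :=
      (nhds_SB _ _).mpr ⟨J, fun t' ht' => ht'⟩
    obtain ⟨I, hI⟩ := (nhds_SB _ _).mp (h1 h2)
    exact ⟨I, fun t' ht' => hI t' ht'⟩
  · intro h
    refine (@continuous_iff_continuousAt _ _ (pT A) (pT B) f).mpr ?_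
    intro t S hS
    obtain ⟨J, hJ⟩ := (nhds_SB _ _).mp hS
    obtain ⟨I, hI⟩ := h t J
    exact (nhds_SB _ _).mpr ⟨I, fun t' ht' => hJ _ (hI t' ht')⟩

/-- part 1 -/
theorem std_congr_SB (P : Type) [Countable P] (n : ℕ) (t t' : Tre (P → Bool))
    (h : ∀ u : List Bool, u.length ≤ n → t u = t' u) : std t n = std t' n := by
  unfold std
  split
  · next u p _ =>
    by_cases hu : u.length ≤ n
    · rw [if_pos hu, if_pos hu, h u hu]
    · rw [if_neg hu, if_neg hu]
  · rfl

/-- value of a standard bit -/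
theorem std_val_SB (P : Type) [Countable P] (u : List Bool) (p : P) :
    ∃ n : ℕ, ∀ t : Tre (P → Bool), std t n = t u p := by
  refine ⟨Nat.pair (@Encodable.encode (List Bool × P) (Encodable.ofCountable _) (u, p)) u.length, fun t => ?_⟩
  unfold std
  have h1 : @Encodable.decode (List Bool × P) (Encodable.ofCountable _)
      (Nat.pair (@Encodable.encode (List Bool × P) (Encodable.ofCountable _) (u, p)) u.length).unpair.1 =
        some (u, p) := by
    rw [Nat.unpair_pair]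
    exact @Encodable.encodek _ (Encodable.ofCountable _) (u, p)
  rw [h1]
  simp only
  rw [if_pos (Nat.right_le_pair _ _)]

/-- part 2 -/
theorem std_sep_SB (P : Type) [Finite P] (u : List Bool) :
    ∃ N, ∀ t t' : Tre (P → Bool), Ag std N t t' → t u = t' u := by
  choose n hn using fun p : P => std_val_SB P u p
  obtain ⟨M, hM⟩ := (Set.finite_range n).bddAbove
  refine ⟨M + 1, fun t t' h => ?_⟩
  funext p
  have h1 : n p < M + 1 := Nat.lt_succ_of_le (hM ⟨p, rfl⟩)
  rw [← hn p t, ← hn p t']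
  exact h _ h1

/-- finitely many letters -/
theorem std_sepF_SB (P : Type) [Finite P] (I : Finset (List Bool)) :
    ∃ N, ∀ t t' : Tre (P → Bool), Ag std N t t' → ∀ u ∈ I, t u = t' u := by
  choose N hN using fun u => std_sep_SB P u
  refine ⟨I.sup N, fun t t' h u hu => hN u t t' ?_⟩
  intro k hk
  exact h k (lt_of_lt_of_le hk (Finset.le_sup (f := N) hu))

/-- **SB** -/
theorem hSB : StSB := by
  intro P _
  refine ⟨fun n t t' h => std_congr_SB P n t t' h, fun u => std_sep_SB P u, ?_⟩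
  intro P' _ f
  rw [cont_iff_SB]
  constructor
  · intro h t J
    obtain ⟨N, hN⟩ := std_sepF_SB P' J
    obtain ⟨n', hn'⟩ := h N t
    have hfin : {u : List Bool | u.length ≤ n'}.Finite := List.finite_length_le Bool n'
    refine ⟨hfin.toFinset, fun t' ht' v hv => ?_⟩
    have h1 : Ag std n' t t' := by
      intro k hk
      refine std_congr_SB P k t t' (fun u hu => ?_)
      exact (ht' u (hfin.mem_toFinset.mpr (by
        change u.length ≤ n'
        omega))).symm
    exact (hN _ _ (hn' t' h1) v hv).symm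
  · intro h n t
    have hfin : {u : List Bool | u.length ≤ n}.Finite := List.finite_length_le Bool n
    obtain ⟨I, hI⟩ := h t hfin.toFinset
    obtain ⟨N, hN⟩ := std_sepF_SB P I
    refine ⟨N, fun t' ht' => ?_⟩
    intro k hk
    refine std_congr_SB P' k (f t) (f t') (fun v hv => ?_)
    refine (hI t' (fun u hu => (hN t t' ht' u hu).symm) v (hfin.mem_toFinset.mpr ?_)).symm
    change v.length ≤ n
    omega

end Pool.Agent.Helper30.WL

end

section

/-! WL module TA: the tests -/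

set_option autoImplicit false

namespace Pool.Agent.Helper30.WL

open Set
open Pool.Agent.Helper24.WH

variable {Q : Type}

private theorem toB_sub_TA (t : Tre (Set (Q ⊕ Fin 3))) (u : List Bool) :
    toB (t.sub u) = (toB t).sub u := rfl

private theorem toB_true_TA (t : Tre (Set (Q ⊕ Fin 3))) (u : List Bool) (p : Q ⊕ Fin 3) :
    toB t u p = true ↔ p ∈ t u := by
  unfold toB
  exact @decide_eq_true_iff _ (Classical.propDecidable _)

private theorem toB_false_TA (t : Tre (Set (Q ⊕ Fin 3))) (u : List Bool) (p : Q ⊕ Fin 3) :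
    toB t u p = false ↔ p ∉ t u := by
  unfold toB
  exact @decide_eq_false_iff_not _ (Classical.propDecidable _)

/-- one step of the operator of `nb` -/
private def stepN_TA (X : Set (Tre (Set (Q ⊕ Fin 3)))) (t : Tre (Set (Q ⊕ Fin 3))) : Prop :=
  ∀ b : Bool, Sum.inr 0 ∉ t [b] ∨ (Sum.inr 2 ∉ t [b] ∧ t.sub [b] ∈ X)

private theorem nb_post_TA (t : Tre (Set (Q ⊕ Fin 3))) (h : NB (toB t)) :
    stepN_TA {t | NB (toB t)} t := by
  intro b
  by_cases h0 : (Sum.inr 0 : Q ⊕ Fin 3) ∈ t [b]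
  · right
    refine ⟨?_, ?_⟩
    · rw [← toB_false_TA]
      refine h [b] (by simp) ?_
      intro w hw hwb
      rcases List.prefix_cons_iff.1 hwb with h1 | ⟨w', h1, h2⟩
      · exact absurd h1 hw
      · rw [List.prefix_nil] at h2
        rw [h1, h2, toB_true_TA]
        exact h0
    · intro v hv hm
      refine h (b :: v) (by simp) ?_
      intro w hw hwb
      rcases List.prefix_cons_iff.1 hwb with h1 | ⟨w', h1, h2⟩
      · exact absurd h1 hw
      · rw [h1]
        by_cases h3 : w' = []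
        · rw [h3, toB_true_TA]
          exact h0
        · exact hm w' h3 h2
  · left
    exact h0

private theorem nb_max_TA (X : Set (Tre (Set (Q ⊕ Fin 3)))) (hX : ∀ t ∈ X, stepN_TA X t) :
    ∀ v : List Bool, ∀ t ∈ X, v ≠ [] →
      (∀ w : List Bool, w ≠ [] → w <+: v → toB t w (Sum.inr 0) = true) →
        toB t v (Sum.inr 2) = false := by
  intro v
  induction v with
  | nil =>
    intro t _ hv
    exact absurd rfl hv
  | cons b v ih =>
    intro t ht _ hm
    have h0 : toB t [b] (Sum.inr 0) = true := hm [b] (by simp) (by simp)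
    rw [toB_true_TA] at h0
    rcases hX t ht b with h1 | ⟨h1, h2⟩
    · exact absurd h0 h1
    · by_cases hv : v = []
      · rw [hv, toB_false_TA]
        exact h1
      · refine ih (t.sub [b]) h2 hv ?_
        intro w hw hwv
        exact hm (b :: w) (by simp) (List.cons_prefix_cons.2 ⟨rfl, hwv⟩)

private theorem nb_SEM_TA (V : ℕ → Set (Tre (Set (Q ⊕ Fin 3)))) :
    (nb : Fm (Q ⊕ Fin 3)).SEM V = {t | NB (toB t)} := by
  apply Set.Subset.antisymm
  · rintro t ⟨X, hX, ht⟩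
    intro v hv hm
    exact nb_max_TA X (fun s hs b => hX hs b) v t ht hv hm
  · intro t ht
    exact ⟨{t | NB (toB t)}, fun s hs b => nb_post_TA s hs b, ht⟩

private theorem bt_SEM_TA (V : ℕ → Set (Tre (Set (Q ⊕ Fin 3)))) :
    (bt : Fm (Q ⊕ Fin 3)).SEM V = {t | ¬ NB (toB t)} := by
  apply Set.Subset.antisymm
  · intro t ht
    have h1 : t ∈ ⋂₀ {X | ((Fm.dia (.and (.prop (.inr 0)) (.or (.prop (.inr 2)) (.var 0)))) :
        Fm (Q ⊕ Fin 3)).SEM (ec X V) ⊆ X} := ht
    refine h1 {t | ¬ NB (toB t)} ?_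
    rintro s ⟨b, hb0, hb⟩ hs
    rcases nb_post_TA s hs b with h2 | ⟨h2, h3⟩
    · exact h2 hb0
    · rcases hb with hb | hb
      · exact h2 hb
      · exact hb h3
  · intro t ht X hX
    by_contra hc
    apply ht
    intro v hv hm
    refine nb_max_TA Xᶜ ?_ v t hc hv hm
    intro s hs b
    by_cases h0 : (Sum.inr 0 : Q ⊕ Fin 3) ∈ s [b]
    · right
      refine ⟨fun h2 => hs (hX ⟨b, h0, Or.inl h2⟩), fun h2 => hs (hX ⟨b, h0, Or.inr h2⟩)⟩
    · left
      exact h0

private theorem wf_post_TA (t : Tre (Set (Q ⊕ Fin 3))) (h : ∀ n, WFn n (toB t)) (e : Bool) :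
    ((∃ b : Bool, (Sum.inr 0 : Q ⊕ Fin 3) ∈ t [e, b]) ∧ (∃ b : Bool, (Sum.inr 0 : Q ⊕ Fin 3) ∉ t [e, b])) ∧
      ∀ b : Bool, (Sum.inr 0 : Q ⊕ Fin 3) ∈ t [e, b] ∨
        (((∃ s : Bool, (Sum.inr 1 : Q ⊕ Fin 3) ∈ t [e, b, s]) ∧
          (∃ s : Bool, (Sum.inr 1 : Q ⊕ Fin 3) ∉ t [e, b, s])) ∧
          ∀ s : Bool, ∀ n, WFn n (toB (t.sub [e, b, s]))) := by
  have h1 := h 1 e
  have hdk : dk ((toB t).sub [e]) = toB t [e, false] (Sum.inr 0) := rfl
  refine ⟨?_, ?_⟩
  · have h2 := h1.1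
    rcases hf : toB t [e, false] (Sum.inr 0) with _ | _
    · rcases ht : toB t [e, true] (Sum.inr 0) with _ | _
      · rw [hf, ht] at h2
        exact absurd rfl h2
      · exact ⟨⟨true, (toB_true_TA _ _ _).1 ht⟩, ⟨false, (toB_false_TA _ _ _).1 hf⟩⟩
    · rcases ht : toB t [e, true] (Sum.inr 0) with _ | _
      · exact ⟨⟨false, (toB_true_TA _ _ _).1 hf⟩, ⟨true, (toB_false_TA _ _ _).1 ht⟩⟩
      · rw [hf, ht] at h2
        exact absurd rfl h2
  · intro b
    by_cases h0 : (Sum.inr 0 : Q ⊕ Fin 3) ∈ t [e, b]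
    · left
      exact h0
    · right
      have hb : b = dk ((toB t).sub [e]) := by
        rw [hdk]
        rw [← toB_false_TA] at h0
        cases b with
        | false => exact h0.symm
        | true =>
          have h2 := h1.1
          rw [h0] at h2
          rcases hf : toB t [e, false] (Sum.inr 0) with _ | _
          · exact absurd hf h2
          · rfl
      rw [hb]
      refine ⟨?_, fun s n => (h (n + 1) e).2.2 s⟩
      have h2 := h1.2.1
      rcases hf : toB t [e, dk ((toB t).sub [e]), false] (Sum.inr 1) with _ | _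
      · rcases ht : toB t [e, dk ((toB t).sub [e]), true] (Sum.inr 1) with _ | _
        · rw [hf, ht] at h2
          exact absurd rfl h2
        · exact ⟨⟨true, (toB_true_TA _ _ _).1 ht⟩, ⟨false, (toB_false_TA _ _ _).1 hf⟩⟩
      · rcases ht : toB t [e, dk ((toB t).sub [e]), true] (Sum.inr 1) with _ | _
        · exact ⟨⟨false, (toB_true_TA _ _ _).1 hf⟩, ⟨true, (toB_false_TA _ _ _).1 ht⟩⟩
        · rw [hf, ht] at h2
          exact absurd rfl h2

private theorem ne_of_TA (t : Tre (Set (Q ⊕ Fin 3))) (u : List Bool → List Bool) (p : Q ⊕ Fin 3)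
    (h1 : ∃ b : Bool, p ∈ t (u [b])) (h2 : ∃ b : Bool, p ∉ t (u [b])) :
    toB t (u [false]) p ≠ toB t (u [true]) p := by
  intro h3
  obtain ⟨b, hb⟩ := h1
  obtain ⟨b', hb'⟩ := h2
  rw [← toB_true_TA] at hb
  rw [← toB_false_TA] at hb'
  cases b <;> cases b' <;> simp_all

private theorem wf_max_TA (X : Set (Tre (Set (Q ⊕ Fin 3))))
    (hX : ∀ t ∈ X, ∀ e : Bool,
      ((∃ b : Bool, (Sum.inr 0 : Q ⊕ Fin 3) ∈ t [e, b]) ∧ (∃ b : Bool, (Sum.inr 0 : Q ⊕ Fin 3) ∉ t [e, b])) ∧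
      ∀ b : Bool, (Sum.inr 0 : Q ⊕ Fin 3) ∈ t [e, b] ∨
        (((∃ s : Bool, (Sum.inr 1 : Q ⊕ Fin 3) ∈ t [e, b, s]) ∧
          (∃ s : Bool, (Sum.inr 1 : Q ⊕ Fin 3) ∉ t [e, b, s])) ∧
          ∀ s : Bool, t.sub [e, b, s] ∈ X)) :
    ∀ n, ∀ t ∈ X, WFn n (toB t) := by
  intro n
  induction n with
  | zero =>
    intro t _
    exact trivial
  | succ n ih =>
    intro t ht e
    obtain ⟨⟨h1, h2⟩, h3⟩ := hX t ht e
    have hne : toB t [e, false] (Sum.inr 0) ≠ toB t [e, true] (Sum.inr 0) :=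
      ne_of_TA t (fun l => e :: l) _ h1 h2
    have hdk : dk ((toB t).sub [e]) = toB t [e, false] (Sum.inr 0) := rfl
    have h0 : (Sum.inr 0 : Q ⊕ Fin 3) ∉ t [e, dk ((toB t).sub [e])] := by
      rw [← toB_false_TA]
      rcases hf : toB t [e, false] (Sum.inr 0) with _ | _
      · rw [hdk, hf]
        exact hf
      · rw [hdk, hf]
        rcases hg : toB t [e, true] (Sum.inr 0) with _ | _
        · rfl
        · rw [hf, hg] at hne
          exact absurd rfl hne
    rcases h3 (dk ((toB t).sub [e])) with h4 | ⟨⟨h5, h6⟩, h7⟩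
    · exact absurd h4 h0
    · exact ⟨hne, ne_of_TA t (fun l => e :: dk ((toB t).sub [e]) :: l) _ h5 h6,
        fun s => ih _ (h7 s)⟩

private theorem wff_SEM_TA (V : ℕ → Set (Tre (Set (Q ⊕ Fin 3)))) :
    (wff : Fm (Q ⊕ Fin 3)).SEM V = {t | ∀ n, WFn n (toB t)} := by
  apply Set.Subset.antisymm
  · rintro t ⟨X, hX, ht⟩
    intro n
    exact wf_max_TA X (fun s hs e => hX hs e) n t ht
  · intro t ht
    exact ⟨{t | ∀ n, WFn n (toB t)}, fun s hs e => wf_post_TA s hs e, ht⟩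

theorem hTA : StTA := by
  intro Q V
  refine ⟨nb_SEM_TA V, bt_SEM_TA V, wff_SEM_TA V, ?_⟩
  intro t ht e n
  exact (ht (n + 1) e).2.2 _

end Pool.Agent.Helper30.WL

end
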