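import Pool.Agent.Helper30.WL.St
import Pool.Agent.Helper30.WL.St2

set_option autoImplicit false

section

set_option autoImplicit false

namespace Pool.Agent.Helper30.WL

open Set
open Pool.Agent.Helper24.WH
open Ordinal hiding univ

theorem bt_free_DE {Q : Type} (n : ℕ) : ¬ (bt (Q := Q)).free n := by
  rintro (h | h | h)
  · exact h
  · exact h
  · exact absurd h (Nat.succ_ne_zero n).symm

theorem nb_free_DE {Q : Type} (n : ℕ) : ¬ (nb (Q := Q)).free n := by
  rintro (h | h | h)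
  · exact h
  · exact h
  · exact absurd h (Nat.succ_ne_zero n).symm

theorem bt_nu_DE {Q : Type} (n : ℕ) : ¬ (bt (Q := Q)).nuDep n := by
  rintro (h | h | h) <;> exact h

theorem nb_mu_DE {Q : Type} (n : ℕ) : ¬ (nb (Q := Q)).muDep n := by
  rintro (h | h | h) <;> exact h

theorem bt_mu_DE {Q : Type} (n : ℕ) : ¬ (bt (Q := Q)).muDep n := by
  rintro (h | h | h)
  · exact h
  · exact h
  · exact absurd h (Nat.succ_ne_zero n).symm

theorem nb_nu_DE {Q : Type} (n : ℕ) : ¬ (nb (Q := Q)).nuDep n := by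
  rintro (h | h | h)
  · exact h
  · exact h
  · exact absurd h (Nat.succ_ne_zero n).symm

theorem bt_alt_DE {Q : Type} : (bt (Q := Q)).altFree := by
  refine ⟨⟨trivial, trivial, trivial⟩, ?_⟩
  rintro (h | h | h) <;> exact h

theorem nb_alt_DE {Q : Type} : (nb (Q := Q)).altFree := by
  refine ⟨⟨trivial, trivial, trivial⟩, ?_⟩
  rintro (h | h | h) <;> exact h

theorem slf_free_DE {Q : Type} (ψ : Fm (Q ⊕ Fin 3)) (n : ℕ) : (slf ψ).free n ↔ ψ.free n := by
  constructor
  · rintro ((h | h | h | h) | (h | h | h | h))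
    · exact absurd h (bt_free_DE n)
    · exact h.elim
    · exact h.elim
    · exact h
    · exact absurd h (nb_free_DE n)
    · exact h.elim
    · exact h.elim
    · exact h
  · intro h
    exact Or.inl (Or.inr (Or.inr (Or.inr h)))

theorem slf_nu_DE {Q : Type} (ψ : Fm (Q ⊕ Fin 3)) (n : ℕ) : (slf ψ).nuDep n ↔ ψ.nuDep n := by
  constructor
  · rintro ((h | h | h | h) | (h | h | h | h))
    · exact absurd h (bt_nu_DE n)
    · exact h.elim
    · exact h.elim
    · exact h
    · exact absurd h (nb_nu_DE n)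
    · exact h.elim
    · exact h.elim
    · exact h
  · intro h
    exact Or.inl (Or.inr (Or.inr (Or.inr h)))

theorem slf_mu_DE {Q : Type} (ψ : Fm (Q ⊕ Fin 3)) (n : ℕ) : (slf ψ).muDep n ↔ ψ.muDep n := by
  constructor
  · rintro ((h | h | h | h) | (h | h | h | h))
    · exact absurd h (bt_mu_DE n)
    · exact h.elim
    · exact h.elim
    · exact h
    · exact absurd h (nb_mu_DE n)
    · exact h.elim
    · exact h.elim
    · exact h
  · intro h
    exact Or.inl (Or.inr (Or.inr (Or.inr h)))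

theorem slf_alt_DE {Q : Type} (ψ : Fm (Q ⊕ Fin 3)) : (slf ψ).altFree ↔ ψ.altFree := by
  constructor
  · rintro ⟨⟨_, _, _, h⟩, _⟩
    exact h
  · intro h
    exact ⟨⟨bt_alt_DE, trivial, trivial, h⟩, ⟨nb_alt_DE, trivial, trivial, h⟩⟩

theorem trf_free_DE {Q : Type} (φ : Fm Q) : ∀ n, (trf φ).free n ↔ φ.free n := by
  induction φ with
  | prop p => intro n; exact Iff.rfl
  | nprop p => intro n; exact Iff.rfl
  | top => intro n; exact Iff.rfl
  | bot => intro n; exact Iff.rfl
  | var k => intro n; exact Iff.rfl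
  | and φ ψ h1 h2 => intro n; exact or_congr (h1 n) (h2 n)
  | or φ ψ h1 h2 => intro n; exact or_congr (h1 n) (h2 n)
  | dia φ h => intro n; exact (slf_free_DE (trf φ) n).trans (h n)
  | box φ h => intro n; exact (slf_free_DE (trf φ) n).trans (h n)
  | mu φ h => intro n; exact h (n + 1)
  | nu φ h => intro n; exact h (n + 1)

theorem trf_nu_DE {Q : Type} (φ : Fm Q) : ∀ n, (trf φ).nuDep n ↔ φ.nuDep n := by
  induction φ with
  | prop p => intro n; exact Iff.rfl
  | nprop p => intro n; exact Iff.rfl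
  | top => intro n; exact Iff.rfl
  | bot => intro n; exact Iff.rfl
  | var k => intro n; exact Iff.rfl
  | and φ ψ h1 h2 => intro n; exact or_congr (h1 n) (h2 n)
  | or φ ψ h1 h2 => intro n; exact or_congr (h1 n) (h2 n)
  | dia φ h => intro n; exact (slf_nu_DE (trf φ) n).trans (h n)
  | box φ h => intro n; exact (slf_nu_DE (trf φ) n).trans (h n)
  | mu φ h => intro n; exact h (n + 1)
  | nu φ h => intro n; exact trf_free_DE φ (n + 1)

theorem trf_mu_DE {Q : Type} (φ : Fm Q) : ∀ n, (trf φ).muDep n ↔ φ.muDep n := by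
  induction φ with
  | prop p => intro n; exact Iff.rfl
  | nprop p => intro n; exact Iff.rfl
  | top => intro n; exact Iff.rfl
  | bot => intro n; exact Iff.rfl
  | var k => intro n; exact Iff.rfl
  | and φ ψ h1 h2 => intro n; exact or_congr (h1 n) (h2 n)
  | or φ ψ h1 h2 => intro n; exact or_congr (h1 n) (h2 n)
  | dia φ h => intro n; exact (slf_mu_DE (trf φ) n).trans (h n)
  | box φ h => intro n; exact (slf_mu_DE (trf φ) n).trans (h n)
  | mu φ h => intro n; exact trf_free_DE φ (n + 1)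
  | nu φ h => intro n; exact h (n + 1)

theorem trf_alt_DE {Q : Type} (φ : Fm Q) : (trf φ).altFree ↔ φ.altFree := by
  induction φ with
  | prop p => exact Iff.rfl
  | nprop p => exact Iff.rfl
  | top => exact Iff.rfl
  | bot => exact Iff.rfl
  | var k => exact Iff.rfl
  | and φ ψ h1 h2 => exact and_congr h1 h2
  | or φ ψ h1 h2 => exact and_congr h1 h2
  | dia φ h => exact (slf_alt_DE (trf φ)).trans h
  | box φ h => exact (slf_alt_DE (trf φ)).trans h
  | mu φ h => exact and_congr h (not_congr (trf_nu_DE φ 0))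
  | nu φ h => exact and_congr h (not_congr (trf_mu_DE φ 0))

theorem wff_free_DE {Q : Type} (n : ℕ) : ¬ (wff (Q := Q)).free n := by
  rintro ((h | h) | (h | (h | h) | h))
  · exact h
  · exact h
  · exact h
  · exact h
  · exact h
  · exact absurd h (Nat.succ_ne_zero n).symm

theorem wff_alt_DE {Q : Type} : (wff (Q := Q)).altFree := by
  refine ⟨⟨⟨trivial, trivial⟩, ⟨trivial, ⟨trivial, trivial⟩, trivial⟩⟩, ?_⟩
  rintro ((h | h) | (h | (h | h) | h)) <;> exact h

theorem toB_dcS_DE {Q : Type} (t : Tre (Set (Q ⊕ Fin 3))) : toB (dcS t) = fun u => dec u (toB t) := by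
  have h : ∀ (b : Bool) (i : Decidable (b = true)), @decide (b = true) i = b := by
    intro b i
    cases b
    · exact decide_eq_false (fun h => Bool.noConfusion h)
    · exact decide_eq_true rfl
  funext u p
  exact h (dec u (toB t) p) _

theorem hDE (hTA : StTA) (hTL : StTL) (hLG : StLG) : StDE := by
  rintro Q L ⟨φ, hf, ha, hl⟩
  refine ⟨.and wff (trf φ), ?_, ⟨wff_alt_DE, (trf_alt_DE φ).mpr ha⟩, ?_⟩
  · rintro n (h | h)
    · exact wff_free_DE n h
    · exact hf n ((trf_free_DE φ n).mp h)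
  · have hc : ∀ n, ¬ (Fm.and wff (trf φ)).free n := by
      rintro n (h | h)
      · exact wff_free_DE n h
      · exact hf n ((trf_free_DE φ n).mp h)
    rw [hLG _ _ hc (fun _ => ∅)]
    ext t
    have h1 := (hTA Q (fun _ => ∅)).2.2.1
    have h2 := hTL Q φ (fun _ => ∅) (fun _ => ∅) (fun n t _ => Iff.rfl) t
    have h3 : (t ∈ (Fm.and wff (trf φ)).SEM (fun _ => ∅)) ↔
        (t ∈ (wff (Q := Q)).SEM (fun _ => ∅) ∧ t ∈ (trf φ).SEM (fun _ => ∅)) := Iff.rfl
    rw [h3, h1]
    have h4 : dcS t ∈ φ.SEM (fun _ => ∅) ↔ toB (dcS t) ∈ L := by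
      rw [← hLG _ _ hf (fun _ => ∅), hl]
      exact Iff.rfl
    have h5 : (t ∈ {t : Tre (Set (Q ⊕ Fin 3)) | toB t ∈ Ex L}) ↔
        ((∀ n, WFn n (toB t)) ∧ (fun u => dec u (toB t)) ∈ L) := Iff.rfl
    have h6 : (fun u => dec u (toB t)) ∈ L ↔ toB (dcS t) ∈ L := by
      rw [toB_dcS_DE]
      exact Iff.rfl
    rw [h5]
    constructor
    · rintro ⟨ha1, hb⟩
      exact ⟨ha1, h6.mpr (h4.mp ((h2 ha1).mp hb))⟩
    · rintro ⟨ha1, hb⟩
      exact ⟨ha1, (h2 ha1).mpr (h4.mpr (h6.mp hb))⟩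

end Pool.Agent.Helper30.WL

end

section

set_option autoImplicit false

namespace Pool.Agent.Helper30.WL

open Set
open Pool.Agent.Helper24.WH (Tre pT)

private lemma Ag_mono_HS {X : Type} (i : Bits X) {m n : ℕ} {x y : X} (h : Ag i n x y)
    (hmn : m ≤ n) : Ag i m x y := fun k hk => h k (by omega)

private lemma Ag_symm_HS {X : Type} (i : Bits X) {n : ℕ} {x y : X} (h : Ag i n x y) :
    Ag i n y x := fun k hk => (h k hk).symm

private lemma Cy_eq_HS {X : Type} (i : Bits X) {n : ℕ} {x y : X} (h : Ag i n x y) :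
    Cy i n x = Cy i n y := by
  ext z
  constructor
  · intro hz k hk
    exact (h k hk).symm.trans (hz k hk)
  · intro hz k hk
    exact (h k hk).trans (hz k hk)

/-- the empty tree -/
private def junk_HS (Q : Type) : Tre (Lt3 Q) := fun _ _ => false

/-- the tree with spine letters `sp` and other parts `pa` -/
private def psi_HS {Q : Type} (sp : ℕ → Lt3 Q) (pa : ℕ → Tre (Lt3 Q)) :
    ℕ → List Bool → Lt3 Q
  | m, [] => sp m
  | m, true :: v => psi_HS sp pa (m + 1) v
  | m, false :: v => pa m v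

/-- the same as a tree -/
private def T_HS {Q : Type} (sp : ℕ → Lt3 Q) (pa : ℕ → Tre (Lt3 Q)) (m : ℕ) : Tre (Lt3 Q) :=
  psi_HS sp pa m

section tree

variable {Q : Type} (sp : ℕ → Lt3 Q) (pa : ℕ → Tre (Lt3 Q))

private lemma T0_HS (m : ℕ) : T_HS sp pa m [] = sp m := by
  show psi_HS sp pa m [] = sp m
  rw [psi_HS]

private lemma Tt_HS (m : ℕ) (v : List Bool) : T_HS sp pa m (true :: v) = T_HS sp pa (m + 1) v := by
  show psi_HS sp pa m (true :: v) = psi_HS sp pa (m + 1) v
  rw [psi_HS]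

private lemma Tf_HS (m : ℕ) (v : List Bool) : T_HS sp pa m (false :: v) = pa m v := by
  show psi_HS sp pa m (false :: v) = pa m v
  rw [psi_HS]

private lemma dX_HS (h1 : ∀ m, pa m [] (Sum.inr 0) = false) (m : ℕ) :
    dX (T_HS sp pa m) = true := by
  unfold dX
  rw [Tf_HS, h1]
  rfl

private lemma nx_HS (h1 : ∀ m, pa m [] (Sum.inr 0) = false) (m : ℕ) :
    nx (T_HS sp pa m) = T_HS sp pa (m + 1) := by
  unfold nx
  rw [dX_HS sp pa h1]
  funext v
  exact Tt_HS sp pa m v

private lemma pt_HS (h1 : ∀ m, pa m [] (Sum.inr 0) = false) (m : ℕ) :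
    pt (T_HS sp pa m) = pa m := by
  unfold pt
  rw [dX_HS sp pa h1]
  funext v
  exact Tf_HS sp pa m v

private lemma nxn_HS (h1 : ∀ m, pa m [] (Sum.inr 0) = false) (n : ℕ) :
    nx^[n] (T_HS sp pa 0) = T_HS sp pa n := by
  induction n with
  | zero => rfl
  | succ n ih => rw [Function.iterate_succ_apply', ih, nx_HS sp pa h1]

private lemma wf_HS (h1 : ∀ m, pa m [] (Sum.inr 0) = false)
    (h2 : ∀ m, sp (m + 1) (Sum.inr 0) = true) (m : ℕ) : wfX (T_HS sp pa m) := by
  unfold wfX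
  rw [Tf_HS, Tt_HS, T0_HS, h1, h2]
  simp

private lemma stay_HS (h1 : ∀ m, pa m [] (Sum.inr 0) = false)
    (h2 : ∀ m, sp (m + 1) (Sum.inr 0) = true) (m : ℕ) :
    stay (T_HS sp pa m) ↔ sp m (Sum.inr 1) = false := by
  unfold stay
  rw [T0_HS]
  exact ⟨fun h => h.2, fun h => ⟨wf_HS sp pa h1 h2 m, h⟩⟩

private lemma sw_HS (K : Set (Tre (Lt3 Q))) (h1 : ∀ m, pa m [] (Sum.inr 0) = false)
    (h2 : ∀ m, sp (m + 1) (Sum.inr 0) = true) (m : ℕ) :
    Sw K (T_HS sp pa m) ↔ sp m (Sum.inr 1) = true ∧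
      (pa m ∈ K ↔ sp m (Sum.inr 2) = false) := by
  unfold Sw
  rw [T0_HS, pt_HS sp pa h1]
  exact ⟨fun h => h.2, fun h => ⟨wf_HS sp pa h1 h2 m, h⟩⟩

private lemma mem_HS (K H : Set (Tre (Lt3 Q))) (h1 : ∀ m, pa m [] (Sum.inr 0) = false)
    (h2 : ∀ m, sp (m + 1) (Sum.inr 0) = true) :
    T_HS sp pa 0 ∈ Su K H ↔
      (∃ n, (∀ m, m < n → sp m (Sum.inr 1) = false) ∧ sp n (Sum.inr 1) = true ∧
        (pa n ∈ K ↔ sp n (Sum.inr 2) = false)) ∨
      ((∀ n, sp n (Sum.inr 1) = false) ∧ pa 0 ∈ H) := by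
  have e : (T_HS sp pa 0 ∈ Su K H) =
      ((∃ n, (∀ m, m < n → stay (nx^[m] (T_HS sp pa 0))) ∧ Sw K (nx^[n] (T_HS sp pa 0))) ∨
      ((∀ n, stay (nx^[n] (T_HS sp pa 0))) ∧ pt (T_HS sp pa 0) ∈ H)) := rfl
  rw [e]
  simp only [nxn_HS sp pa h1, stay_HS sp pa h1 h2, sw_HS sp pa K h1 h2, pt_HS sp pa h1]

end tree

private lemma ctr_HS {X Q : Type} (i : Bits X) (sp : X → ℕ → Lt3 Q)
    (pa : X → ℕ → Tre (Lt3 Q)) (x y : X) (h1 : ∀ m, Ag i m x y → sp x m = sp y m)
    (h2 : ∀ m v, Ag i (m + v.length) x y → pa x m v = pa y m v) :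
    ∀ (v : List Bool) (m : ℕ), Ag i (m + v.length) x y →
      T_HS (sp x) (pa x) m v = T_HS (sp y) (pa y) m v := by
  intro v
  induction v with
  | nil =>
    intro m h
    rw [T0_HS, T0_HS]
    exact h1 m (by simpa using h)
  | cons e v ih =>
    intro m h
    rw [List.length_cons] at h
    cases e with
    | false =>
      rw [Tf_HS, Tf_HS]
      exact h2 m v (Ag_mono_HS i h (by omega))
    | true =>
      rw [Tt_HS, Tt_HS]
      exact ih (m + 1) (Ag_mono_HS i h (by omega))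

private lemma ext_HS {X Q : Type} (i : Bits X) (O : Set X) (C : Cls) (A : Set X)
    (L : Set (Tre (Lt3 Q))) (hL : Hard C L) (hC : C O (res i O) (tr O A)) :
    ∃ k : X → Tre (Lt3 Q), (∀ x ∈ O, ∀ y ∈ O, ∀ u : List Bool, Ag i u.length x y →
      k x u = k y u) ∧ (∀ x, k x [] (Sum.inr 0) = false) ∧ ∀ x ∈ O, (x ∈ A ↔ k x ∈ L) := by
  classical
  obtain ⟨k, hk1, hk2, hk3⟩ := hL O (res i O) (tr O A) hC
  let k' : X → Tre (Lt3 Q) := fun x => if h : x ∈ O then k ⟨x, h⟩ else junk_HS Q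
  have hpos : ∀ x (hx : x ∈ O), k' x = k ⟨x, hx⟩ := fun x hx => dif_pos hx
  have hneg : ∀ x, x ∉ O → k' x = junk_HS Q := fun x hx => dif_neg hx
  refine ⟨k', ?_, ?_, ?_⟩
  · intro x hx y hy u h
    rw [hpos x hx, hpos y hy]
    exact hk1 u ⟨x, hx⟩ ⟨y, hy⟩ h
  · intro x
    by_cases hx : x ∈ O
    · rw [hpos x hx]
      exact hk2 _
    · rw [hneg x hx]
      rfl
  · intro x hx
    rw [hpos x hx]
    exact hk3 ⟨x, hx⟩

private lemma off_HS {X Q : Type} (i : Bits X) (B A O : Set X) (U : Cls)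
    (K : Set (Tre (Lt3 Q))) (hK : Hard U K) (hO : Off U i B A O) :
    ∃ (g : Bool) (k : X → Tre (Lt3 Q)), (∀ x ∈ O, ∀ y ∈ O, ∀ u : List Bool,
      Ag i u.length x y → k x u = k y u) ∧ (∀ x, k x [] (Sum.inr 0) = false) ∧
      ∀ x ∈ O, (x ∈ A ↔ (k x ∈ K ↔ g = false)) := by
  rcases hO.2 with h | h
  · obtain ⟨k, h1, h2, h3⟩ := ext_HS i O U A K hK h
    refine ⟨false, k, h1, h2, ?_⟩
    intro x hx
    rw [h3 x hx]
    simp
  · obtain ⟨k, h1, h2, h3⟩ := ext_HS i O U Aᶜ K hK h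
    refine ⟨true, k, h1, h2, ?_⟩
    intro x hx
    have h4 := h3 x hx
    rw [Set.mem_compl_iff] at h4
    rw [← h4]
    simp

theorem hHS : StHS := by
  classical
  intro Q U E K H hK hH X i A hA
  obtain ⟨B, hBcl, hBE, hBU⟩ := hA
  obtain ⟨kB, hB1, hB2, hB3⟩ := ext_HS i B E A H hH hBE
  have hOff : ∀ O, Off U i B A O → ∃ (g : Bool) (k : X → Tre (Lt3 Q)), (∀ x ∈ O, ∀ y ∈ O,
      ∀ u : List Bool, Ag i u.length x y → k x u = k y u) ∧ (∀ x, k x [] (Sum.inr 0) = false) ∧
      ∀ x ∈ O, (x ∈ A ↔ (k x ∈ K ↔ g = false)) := fun O hO => off_HS i B A O U K hK hO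
  haveI : Nonempty (Tre (Lt3 Q)) := ⟨junk_HS Q⟩
  choose! g k hk1 hk2 hk3 using hOff
  let P : X → ℕ → Prop := fun x n => Off U i B A (Cy i n x)
  let F : X → ℕ → Prop := fun x n => P x n ∧ ∀ m, m < n → ¬ P x m
  have hPc : ∀ x y n, Ag i n x y → (P x n ↔ P y n) := by
    intro x y n h
    show Off U i B A (Cy i n x) ↔ Off U i B A (Cy i n y)
    rw [Cy_eq_HS i h]
  have hFc : ∀ x y n, Ag i n x y → (F x n ↔ F y n) := by
    intro x y n h
    have h2 : ∀ m, m < n → (P x m ↔ P y m) := fun m hm => hPc x y m (Ag_mono_HS i h (by omega))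
    constructor
    · rintro ⟨h3, h4⟩
      exact ⟨(hPc x y n h).1 h3, fun m hm h5 => h4 m hm ((h2 m hm).2 h5)⟩
    · rintro ⟨h3, h4⟩
      exact ⟨(hPc x y n h).2 h3, fun m hm h5 => h4 m hm ((h2 m hm).1 h5)⟩
  have hxC : ∀ (x : X) (n : ℕ), x ∈ Cy i n x := fun x n _ _ => rfl
  have hPB : ∀ x, x ∈ B → ∀ n, ¬ P x n := by
    intro x hx n hP
    exact Set.disjoint_left.1 hP.1 (hxC x n) hx
  have hFex : ∀ x, x ∉ B → ∃ n, F x n := by
    intro x hx
    have hex : ∃ n, P x n := hBU x hx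
    exact ⟨Nat.find hex, Nat.find_spec hex, fun m hm => Nat.find_min hex hm⟩
  have hFu : ∀ x m n, F x m → P x n → m ≤ n := by
    intro x m n hm hn
    by_contra h
    exact hm.2 n (by omega) hn
  -- spine letters
  let sp : X → ℕ → Lt3 Q := fun x m p => match p with
    | Sum.inl _ => false
    | Sum.inr a => decide ((a = 0 ∧ m ≠ 0) ∨ (a = 1 ∧ ∃ n, n < m ∧ P x n) ∨
        (a = 2 ∧ ∃ n, n < m ∧ F x n ∧ g (Cy i n x) = true))
  let pa : X → ℕ → Tre (Lt3 Q) := fun x m v => match m with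
    | 0 => if h : (B ∩ Cy i v.length x).Nonempty then kB h.some v else fun _ => false
    | n + 1 => if F x n then k (Cy i n x) x v else fun _ => false
  have hsp : ∀ x y m, Ag i m x y → sp x m = sp y m := by
    intro x y m h
    have e1 : (∃ n, n < m ∧ P x n) ↔ ∃ n, n < m ∧ P y n := by
      apply exists_congr
      intro n
      apply and_congr_right
      intro hn
      exact hPc x y n (Ag_mono_HS i h (by omega))
    have e2 : (∃ n, n < m ∧ F x n ∧ g (Cy i n x) = true) ↔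
        ∃ n, n < m ∧ F y n ∧ g (Cy i n y) = true := by
      apply exists_congr
      intro n
      apply and_congr_right
      intro hn
      rw [hFc x y n (Ag_mono_HS i h (by omega)), Cy_eq_HS i (Ag_mono_HS i h (by omega : n ≤ m))]
    funext p
    rcases p with p | a
    · rfl
    · show decide ((a = 0 ∧ m ≠ 0) ∨ (a = 1 ∧ ∃ n, n < m ∧ P x n) ∨
        (a = 2 ∧ ∃ n, n < m ∧ F x n ∧ g (Cy i n x) = true)) =
        decide ((a = 0 ∧ m ≠ 0) ∨ (a = 1 ∧ ∃ n, n < m ∧ P y n) ∨
        (a = 2 ∧ ∃ n, n < m ∧ F y n ∧ g (Cy i n y) = true))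
      rw [decide_eq_decide, e1, e2]
  have hpa : ∀ x y m (v : List Bool), Ag i (m + v.length) x y → pa x m v = pa y m v := by
    intro x y m v h
    match m with
    | 0 =>
      have e : B ∩ Cy i v.length x = B ∩ Cy i v.length y := by
        rw [Cy_eq_HS i (Ag_mono_HS i h (by omega))]
      show (if h : (B ∩ Cy i v.length x).Nonempty then kB h.some v else fun _ => false) =
        (if h : (B ∩ Cy i v.length y).Nonempty then kB h.some v else fun _ => false)
      rw [e]
    | n + 1 =>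
      show (if F x n then k (Cy i n x) x v else (fun _ => false : Lt3 Q)) =
        (if F y n then k (Cy i n y) y v else (fun _ => false : Lt3 Q))
      have hn : Ag i n x y := Ag_mono_HS i h (by omega)
      by_cases hF : F x n
      · rw [if_pos hF, if_pos ((hFc x y n hn).1 hF), ← Cy_eq_HS i hn]
        exact hk1 _ hF.1 x (hxC x n) y hn v (Ag_mono_HS i h (by omega))
      · rw [if_neg hF, if_neg (fun h' => hF ((hFc x y n hn).2 h'))]
  have hp0 : ∀ x m, pa x m [] (Sum.inr 0) = false := by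
    intro x m
    match m with
    | 0 =>
      show (if h : (B ∩ Cy i ([] : List Bool).length x).Nonempty then kB h.some [] else
        fun _ => false) (Sum.inr 0) = false
      by_cases h : (B ∩ Cy i ([] : List Bool).length x).Nonempty
      · rw [dif_pos h]
        exact hB2 _
      · rw [dif_neg h]
    | n + 1 =>
      show (if F x n then k (Cy i n x) x [] else (fun _ => false : Lt3 Q)) (Sum.inr 0) = false
      by_cases hF : F x n
      · rw [if_pos hF]
        exact hk2 _ hF.1 x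
      · rw [if_neg hF]
  have hs0 : ∀ x m, sp x (m + 1) (Sum.inr 0) = true := by
    intro x m
    show decide (_ ∨ _) = true
    rw [decide_eq_true_eq]
    exact Or.inl ⟨rfl, Nat.succ_ne_zero m⟩
  have hs1 : ∀ x m, (sp x m (Sum.inr 1) = true ↔ ∃ n, n < m ∧ P x n) := by
    intro x m
    show (decide (((1 : Fin 3) = 0 ∧ m ≠ 0) ∨ ((1 : Fin 3) = 1 ∧ ∃ n, n < m ∧ P x n) ∨
        ((1 : Fin 3) = 2 ∧ ∃ n, n < m ∧ F x n ∧ g (Cy i n x) = true)) = true) ↔ _
    rw [decide_eq_true_eq]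
    simp
  have hs1' : ∀ x m, (sp x m (Sum.inr 1) = false ↔ ¬ ∃ n, n < m ∧ P x n) := by
    intro x m
    rw [← hs1]
    simp
  have hs2 : ∀ x m, (sp x m (Sum.inr 2) = false ↔
      ¬ ∃ n, n < m ∧ F x n ∧ g (Cy i n x) = true) := by
    intro x m
    show (decide (((2 : Fin 3) = 0 ∧ m ≠ 0) ∨ ((2 : Fin 3) = 1 ∧ ∃ n, n < m ∧ P x n) ∨
        ((2 : Fin 3) = 2 ∧ ∃ n, n < m ∧ F x n ∧ g (Cy i n x) = true)) = false) ↔ _
    rw [decide_eq_false_iff_not]
    simp
  refine ⟨fun x => T_HS (sp x) (pa x) 0, ?_, ?_, ?_⟩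
  · intro u x y h
    exact ctr_HS i sp pa x y (hsp x y) (hpa x y) u 0 (by simpa using h)
  · intro x
    show T_HS (sp x) (pa x) 0 [] (Sum.inr 0) = false
    rw [T0_HS]
    show decide (((0 : Fin 3) = 0 ∧ (0 : ℕ) ≠ 0) ∨ ((0 : Fin 3) = 1 ∧ ∃ n, n < 0 ∧ P x n) ∨
        ((0 : Fin 3) = 2 ∧ ∃ n, n < 0 ∧ F x n ∧ g (Cy i n x) = true)) = false
    rw [decide_eq_false_iff_not]
    simp
  · intro x
    show x ∈ A ↔ T_HS (sp x) (pa x) 0 ∈ Su K H
    rw [mem_HS (sp x) (pa x) K H (hp0 x) (hs0 x)]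
    by_cases hx : x ∈ B
    · have hno : ∀ n, ¬ ∃ m, m < n ∧ P x m := by
        rintro n ⟨m, -, hm⟩
        exact hPB x hx m hm
      have hpa0 : pa x 0 = kB x := by
        funext v
        have hne : (B ∩ Cy i v.length x).Nonempty := ⟨x, hx, hxC x _⟩
        show (if h : (B ∩ Cy i v.length x).Nonempty then kB h.some v else fun _ => false) = _
        rw [dif_pos hne]
        exact hB1 _ hne.some_mem.1 x hx v (Ag_symm_HS i hne.some_mem.2)
      rw [hpa0, hB3 x hx]
      constructor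
      · intro h
        exact Or.inr ⟨fun n => (hs1' x n).2 (hno n), h⟩
      · rintro (⟨n, -, h3, -⟩ | ⟨-, h3⟩)
        · exact absurd ((hs1 x n).1 h3) (hno n)
        · exact h3
    · obtain ⟨N, hN⟩ := hFex x hx
      have hlow : ∀ m, m ≤ N → ¬ ∃ n, n < m ∧ P x n := by
        rintro m hm ⟨n, hn, hP⟩
        exact hN.2 n (by omega) hP
      have hpaN : pa x (N + 1) = k (Cy i N x) x := by
        funext v
        show (if F x N then k (Cy i N x) x v else (fun _ => false : Lt3 Q)) = _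
        rw [if_pos hN]
      have hg : sp x (N + 1) (Sum.inr 2) = false ↔ g (Cy i N x) = false := by
        rw [hs2]
        constructor
        · intro h
          by_contra hne
          exact h ⟨N, Nat.lt_succ_self N, hN, by simpa using hne⟩
        · rintro h ⟨n, hn, hF, hgt⟩
          have e : n = N := le_antisymm (by omega) (hFu x N n hN hF.1)
          subst e
          rw [h] at hgt
          exact absurd hgt (by simp)
      have hkey := hk3 (Cy i N x) hN.1 x (hxC x N)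
      rw [hkey]
      constructor
      · intro h
        refine Or.inl ⟨N + 1, fun m hm => (hs1' x m).2 (hlow m (by omega)),
          (hs1 x _).2 ⟨N, Nat.lt_succ_self N, hN.1⟩, ?_⟩
        rw [hpaN, hg]
        exact h
      · rintro (⟨n, h3, h4, h5⟩ | ⟨h3, -⟩)
        · have h6 : n = N + 1 := by
            rcases lt_trichotomy n (N + 1) with h7 | h7 | h7
            · exact absurd ((hs1 x n).1 h4) (hlow n (by omega))
            · exact h7
            · exact absurd ⟨N, Nat.lt_succ_self N, hN.1⟩ ((hs1' x _).1 (h3 (N + 1) h7))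
          subst h6
          rw [hpaN, hg] at h5
          exact h5
        · exact absurd ⟨N, Nat.lt_succ_self N, hN.1⟩ ((hs1' x _).1 (h3 (N + 1)))

end Pool.Agent.Helper30.WL

end

section

/-!
# PROJECT WL: module KEY (absorption)
-/

set_option autoImplicit false

namespace Pool.Agent.Helper30.WL

open Set
open Pool.Agent.Helper24.WH (Tre pT)
open Ordinal hiding univ

theorem hKEY (hCLS : StCLS) (hLT : StLT) : StKEY := by
  intro U V C C' hU hC' hCC hV X i A hA
  obtain ⟨-, -, -, h4⟩ := hLT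
  have hE : LtC (ExpC C) (ExpC C') := h4 C C' hCC
  rcases hA with ⟨B, hB, hBE, hoff⟩ | ⟨B, hB, hBE, hoff⟩
  · refine hCLS U C' hU hC' X i A B hB (hE _ _ _ (Or.inl hBE)) fun x hx => ?_
    obtain ⟨n, hd, hn⟩ := hoff x hx
    exact ⟨n, hd, hV _ _ _ hn⟩
  · refine hCLS U C' hU hC' X i A B hB (hE _ _ _ (Or.inr hBE)) fun x hx => ?_
    obtain ⟨n, hd, hn⟩ := hoff x hx
    rw [compl_compl] at hn
    exact ⟨n, hd, hV _ _ _ hn.symm⟩

end Pool.Agent.Helper30.WL

end

section

/-!
# PROJECT WL (MP_76577a_lc), modules LG and DPN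
-/

set_option autoImplicit false

namespace Pool.Agent.Helper30.WL

open Set
open Pool.Agent.Helper24.WH

theorem hLG (hF1 : StF1) (hF2 : StF2) : StLG := by
  intro P φ hφ V
  have h1 : φ.SEM (fun _ => ∅) = φ.SEM V :=
    (hF2 P φ).2.1 _ _ fun i hi => absurd hi (hφ i)
  rw [← h1]
  ext t
  have h2 := hF1 P φ t (fun _ => ∅) []
  have h3 : (fun n : ℕ => {w : List Bool | t.sub w ∈ ((fun _ => ∅ : ℕ → Set (Tre (Set P))) n)}) =
      fun _ => ∅ := by
    funext n
    ext w
    simp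
  rw [h3] at h2
  have h4 : t.sub [] = t := rfl
  rw [h4] at h2
  exact h2

theorem hDPN : StDPN := by
  intro P φ
  induction φ with
  | prop p => exact fun n => ⟨id, id⟩
  | nprop p => exact fun n => ⟨id, id⟩
  | top => exact fun n => ⟨id, id⟩
  | bot => exact fun n => ⟨id, id⟩
  | var k => exact fun n => ⟨fun h => h.elim, fun h => h.elim⟩
  | and φ ψ h1 h2 =>
    exact fun n => ⟨Or.imp (h1 n).1 (h2 n).1, Or.imp (h1 n).2 (h2 n).2⟩
  | or φ ψ h1 h2 =>
    exact fun n => ⟨Or.imp (h1 n).1 (h2 n).1, Or.imp (h1 n).2 (h2 n).2⟩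
  | dia φ h1 => exact fun n => h1 n
  | box φ h1 => exact fun n => h1 n
  | mu φ h1 => exact fun n => ⟨(h1 (n + 1)).1, id⟩
  | nu φ h1 => exact fun n => ⟨id, (h1 (n + 1)).2⟩

end Pool.Agent.Helper30.WL

end

section

/-!
# PROJECT WL (MP_76577a_lc), module ME: membership of the exponential language
-/

set_option autoImplicit false

namespace Pool.Agent.Helper30.WL

open Set
open Pool.Agent.Helper24.WH (Tre pT)
open Ordinal hiding univ

section ME

private theorem ag_mono_ME {X : Type} {i : Bits X} {m n : ℕ} {x y : X} (h : m ≤ n)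
    (hA : Ag i n x y) : Ag i m x y := fun k hk => hA k (hk.trans_le h)

private theorem finite_ME {X U : Type} (i : Bits X) (x : X) (R : U → X → Prop)
    (h : ∀ u, ∃ N, ∀ y, Ag i N x y → R u y) (F : Set U) (hF : F.Finite) :
    ∃ N, ∀ y, Ag i N x y → ∀ u ∈ F, R u y := by
  choose N hN using h
  exact ⟨hF.toFinset.sup N, fun y hy u hu =>
    hN u y (ag_mono_ME (Finset.le_sup (hF.mem_toFinset.2 hu)) hy)⟩

private theorem sub_sub_ME {A : Type} (t : Tre A) (v w : List Bool) :
    (t.sub v).sub w = t.sub (v ++ w) := by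
  funext u
  change t (v ++ (w ++ u)) = t (v ++ w ++ u)
  rw [List.append_assoc]

variable {Q : Type}

/-- `WFn n` depends on the letters at nodes of length at most `3 * n` -/
private theorem WFn_congr_ME (n : ℕ) : ∀ t t' : Tre (Lt3 Q),
    (∀ u : List Bool, u.length ≤ 3 * n → t u = t' u) → WFn n t → WFn n t' := by
  induction n with
  | zero => intro t t' _ _; trivial
  | succ n ih =>
    intro t t' h hw e
    obtain ⟨h1, h2, h3⟩ := hw e
    have e1 : ∀ s : Bool, t [e, s] = t' [e, s] := fun s => h [e, s] (by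
      simp only [List.length_cons, List.length_nil]; omega)
    have ed : dk (t.sub [e]) = dk (t'.sub [e]) := by
      change t [e, false] (Sum.inr 0) = t' [e, false] (Sum.inr 0)
      rw [e1]
    have e2 : ∀ d s : Bool, t [e, d, s] = t' [e, d, s] := fun d s => h [e, d, s] (by
      simp only [List.length_cons, List.length_nil]; omega)
    refine ⟨?_, ?_, ?_⟩
    · rw [← e1, ← e1]; exact h1
    · rw [← ed, ← e2, ← e2]; exact h2
    · intro s
      rw [← ed]
      refine ih _ _ (fun u hu => ?_) (h3 s)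
      exact h _ (by simp only [List.length_append, List.length_cons, List.length_nil]; omega)

open Classical in
/-- the new bits -/
private noncomputable def jj_ME [Countable Q] : Bits (Tre (Lt3 Q)) := fun t n =>
  if n.unpair.1 = 0 then std t n.unpair.2
  else if n.unpair.1 = 1 then decide (∀ n, WFn n t)
  else match (Encodable.decode n.unpair.2 : Option (List Bool)) with
    | some v => decide (NB (t.sub v))
    | none => false

private theorem jj1_ME [Countable Q] (t : Tre (Lt3 Q)) :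
    jj_ME t (Nat.pair 1 0) = true ↔ ∀ n, WFn n t := by
  classical
  unfold jj_ME
  rw [Nat.unpair_pair, if_neg (show ¬ (1, 0).1 = 0 from one_ne_zero),
    if_pos (show (1, 0).1 = 1 from rfl)]
  exact decide_eq_true_iff

private theorem jj2_ME [Countable Q] (t : Tre (Lt3 Q)) (v : List Bool) :
    jj_ME t (Nat.pair 2 (Encodable.encode v)) = true ↔ NB (t.sub v) := by
  classical
  unfold jj_ME
  rw [Nat.unpair_pair, if_neg (show ¬ (2, Encodable.encode v).1 = 0 from two_ne_zero),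
    if_neg (show ¬ (2, Encodable.encode v).1 = 1 by norm_num)]
  simp only [Encodable.encodek]
  exact decide_eq_true_iff

variable [Finite Q]

/-- small cylinders fix all letters up to a given length -/
private theorem len_ME (hSB : StSB) (m : ℕ) : ∃ N, ∀ t t' : Tre (Lt3 Q), Ag std N t t' →
    ∀ u : List Bool, u.length ≤ m → t u = t' u := by
  obtain ⟨_, h2, _⟩ := hSB (Q ⊕ Fin 3)
  choose N hN using h2
  have hF : {u : List Bool | u.length ≤ m}.Finite := List.finite_length_le Bool m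
  refine ⟨hF.toFinset.sup N, fun t t' h u hu => ?_⟩
  exact hN u t t' (ag_mono_ME (Finset.le_sup (hF.mem_toFinset.2 hu)) h)

private theorem closed_ME (hSB : StSB) (k : ℕ) :
    Cl (std : Bits (Tre (Lt3 Q))) {t | jj_ME t k = true} := by
  classical
  intro t ht
  have ht' : ¬ jj_ME t k = true := ht
  by_cases h0 : k.unpair.1 = 0
  · refine ⟨k.unpair.2 + 1, fun t' h' hc => ht' ?_⟩
    have hc' : jj_ME t' k = true := hc
    unfold jj_ME at hc' ⊢
    rw [if_pos h0] at hc' ⊢
    rw [← hc']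
    exact h' _ (Nat.lt_succ_self _)
  · by_cases h1 : k.unpair.1 = 1
    · unfold jj_ME at ht'
      rw [if_neg h0, if_pos h1, decide_eq_true_iff] at ht'
      push Not at ht'
      obtain ⟨n, hn⟩ := ht'
      obtain ⟨N, hN⟩ := len_ME (Q := Q) hSB (3 * n)
      refine ⟨N, fun t' h' hc => hn ?_⟩
      have hc' : jj_ME t' k = true := hc
      unfold jj_ME at hc'
      rw [if_neg h0, if_pos h1, decide_eq_true_iff] at hc'
      exact WFn_congr_ME n t' t (fun u hu => (hN t t' h' u hu).symm) (hc' n)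
    · rcases hd : (Encodable.decode k.unpair.2 : Option (List Bool)) with _ | v
      · refine ⟨0, fun t' _ hc => ?_⟩
        have hc' : jj_ME t' k = true := hc
        unfold jj_ME at hc'
        rw [if_neg h0, if_neg h1, hd] at hc'
        exact absurd hc' (by simp)
      · unfold jj_ME at ht'
        rw [if_neg h0, if_neg h1, hd] at ht'
        have ht2 : ¬ NB (t.sub v) := fun h => ht' (decide_eq_true h)
        unfold NB at ht2
        push Not at ht2
        obtain ⟨w, hw, hw1, hw2⟩ := ht2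
        obtain ⟨N, hN⟩ := len_ME (Q := Q) hSB (v.length + w.length)
        refine ⟨N, fun t' h' hc => ?_⟩
        have hc' : jj_ME t' k = true := hc
        unfold jj_ME at hc'
        rw [if_neg h0, if_neg h1, hd] at hc'
        have hnb : NB (t'.sub v) := of_decide_eq_true hc'
        refine hw2 ?_
        have e : ∀ w' : List Bool, w' <+: w → (t.sub v) w' = (t'.sub v) w' := fun w' hw' =>
          hN t t' h' (v ++ w') (by rw [List.length_append]; exact Nat.add_le_add_left hw'.length_le _)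
        rw [e w (List.prefix_refl w)]
        refine hnb w hw (fun w' hw' hp => ?_)
        rw [← e w' hp]
        exact hw1 w' hw' hp

/-- the new bits fix the standard bits -/
private theorem ag_std_ME (N : ℕ) : ∃ M, ∀ t t' : Tre (Lt3 Q), Ag jj_ME M t t' → Ag std N t t' := by
  classical
  refine ⟨Nat.pair 0 N, fun t t' h k hk => ?_⟩
  have h1 := h (Nat.pair 0 k) (Nat.pair_lt_pair_right 0 hk)
  unfold jj_ME at h1
  simpa only [Nat.unpair_pair, if_true] using h1

private theorem letter_ME (hSB : StSB) (v : List Bool) : ∃ M, ∀ t t' : Tre (Lt3 Q),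
    Ag jj_ME M t t' → t v = t' v := by
  obtain ⟨N, hN⟩ := len_ME (Q := Q) hSB v.length
  obtain ⟨M, hM⟩ := ag_std_ME (Q := Q) N
  exact ⟨M, fun t t' h => hN t t' (hM t t' h) v le_rfl⟩

private theorem nb_ME (v : List Bool) : ∃ M, ∀ t t' : Tre (Lt3 Q),
    Ag jj_ME M t t' → (NB (t.sub v) ↔ NB (t'.sub v)) := by
  classical
  refine ⟨Nat.pair 2 (Encodable.encode v) + 1, fun t t' h => ?_⟩
  have h1 := h (Nat.pair 2 (Encodable.encode v)) (Nat.lt_succ_self _)
  rw [← jj2_ME, ← jj2_ME, h1]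

private theorem sel_ME (hSB : StSB) (v : List Bool) (t : Tre (Lt3 Q)) : ∃ M, ∀ t' : Tre (Lt3 Q),
    Ag jj_ME M t t' → sel (t.sub v) = sel (t'.sub v) := by
  obtain ⟨M1, h1⟩ := letter_ME (Q := Q) hSB (v ++ [false])
  obtain ⟨M2, h2⟩ := letter_ME (Q := Q) hSB (v ++ [dk (t.sub v), false])
  obtain ⟨M3, h3⟩ := nb_ME (Q := Q) v
  refine ⟨max M1 (max M2 M3), fun t' h => ?_⟩
  have e1 := h1 t t' (ag_mono_ME (le_max_left _ _) h)
  have e2 := h2 t t' (ag_mono_ME ((le_max_left _ _).trans (le_max_right _ _)) h)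
  have e3 := h3 t t' (ag_mono_ME ((le_max_right _ _).trans (le_max_right _ _)) h)
  have ed : dk (t.sub v) = dk (t'.sub v) := congrFun e1 (Sum.inr 0)
  have e4 : (t.sub v) [dk (t.sub v), false] (Sum.inr 1) =
      (t'.sub v) [dk (t.sub v), false] (Sum.inr 1) := congrFun e2 (Sum.inr 1)
  unfold sel
  rw [← ed, ← e4]
  by_cases h5 : NB (t.sub v)
  · rw [if_pos h5, if_pos (e3.1 h5)]
  · rw [if_neg h5, if_neg (fun h6 => h5 (e3.2 h6))]

private theorem dec_ME (hSB : StSB) (u : List Bool) : ∀ (v : List Bool) (t : Tre (Lt3 Q)),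
    ∃ M, ∀ t' : Tre (Lt3 Q), Ag jj_ME M t t' → dec u (t.sub v) = dec u (t'.sub v) := by
  induction u with
  | nil =>
    intro v t
    obtain ⟨M, hM⟩ := letter_ME (Q := Q) hSB (v ++ [])
    refine ⟨M, fun t' h => ?_⟩
    funext p
    exact congrFun (hM t t' h) (Sum.inl p)
  | cons e u ih =>
    intro v t
    obtain ⟨M1, h1⟩ := sel_ME (Q := Q) hSB (v ++ [e]) t
    obtain ⟨M2, h2⟩ := ih (v ++ (e :: sel (t.sub (v ++ [e])))) t
    refine ⟨max M1 M2, fun t' h => ?_⟩
    have e1 := h1 t' (ag_mono_ME (le_max_left _ _) h)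
    have e2 := h2 t' (ag_mono_ME (le_max_right _ _) h)
    simp only [dec, sub_sub_ME]
    rw [e2, e1]

private theorem cts_ME (hSB : StSB) (S : Set (Tre (Lt3 Q))) :
    Cts (res jj_ME S) (std : Bits (Tre (Q → Bool))) (fun x : S => fun u => dec u x.1) := by
  intro n y
  have h := dec_ME (Q := Q) hSB
  obtain ⟨N, hN⟩ := finite_ME (jj_ME : Bits (Tre (Lt3 Q))) y.1
    (fun (u : List Bool) t' => dec u y.1 = dec u t') (fun u => h u [] y.1)
    {u : List Bool | u.length ≤ n} (List.finite_length_le Bool n)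
  refine ⟨N, fun y' hy' k hk => ?_⟩
  refine (hSB Q).1 k _ _ (fun u hu => ?_)
  exact hN y'.1 hy' u (hu.trans hk.le)

end ME

/-- **ME** -/
theorem hME (hSB : StSB) : StME := by
  classical
  intro Q _ C L hC hL
  refine ⟨jj_ME, closed_ME hSB, ?_⟩
  set κ : Tre (Lt3 (Q ⊕ Fin 3)) → ℕ := fun t => if ∀ n, WFn n t then 0 else 1 with hκ
  refine hC.paste _ jj_ME κ _ (fun x => ⟨Nat.pair 1 0 + 1, fun y hy => ?_⟩) (fun c => ?_)
  · have h1 := hy (Nat.pair 1 0) (Nat.lt_succ_self _)
    have h2 : (∀ n, WFn n x) ↔ ∀ n, WFn n y := by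
      rw [← jj1_ME, ← jj1_ME, h1]
    simp only [hκ, h2]
  · by_cases hc : c = 0
    · subst hc
      have e : tr {x | κ x = 0} (Ex L) =
          (fun x : {x | κ x = 0} => (fun u => dec u x.1 : Tre (Lt3 Q))) ⁻¹' L := by
        ext ⟨x, hx⟩
        have hw : ∀ n, WFn n x := by
          by_contra hn
          have hx' : κ x = 0 := hx
          simp only [hκ, if_neg hn] at hx'
          exact absurd hx' (by norm_num)
        exact ⟨fun h => h.2, fun h => ⟨hw, h⟩⟩
      rw [e]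
      exact hC.pre _ _ std _ _ L (cts_ME hSB _) hL
    · have e : tr {x | κ x = c} (Ex L) = ∅ := by
        ext ⟨x, hx⟩
        refine ⟨fun h => hc ?_, fun h => absurd h (Set.notMem_empty _)⟩
        have hx' : κ x = c := hx
        have hw : ∀ n, WFn n x := h.1
        simp only [hκ, if_pos hw] at hx'
        exact hx'.symm
      rw [e]
      exact hC.empty _ _

end Pool.Agent.Helper30.WL

end

section

set_option autoImplicit false

namespace Pool.Agent.Helper30.WL

open Set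
open Pool.Agent.Helper24.WH
open Ordinal hiding univ

/-- negation of formulas -/
def ng_NG {P : Type} : Fm P → Fm P
  | .prop p => .nprop p
  | .nprop p => .prop p
  | .top => .bot
  | .bot => .top
  | .var n => .var n
  | .and φ ψ => .or (ng_NG φ) (ng_NG ψ)
  | .or φ ψ => .and (ng_NG φ) (ng_NG ψ)
  | .dia φ => .box (ng_NG φ)
  | .box φ => .dia (ng_NG φ)
  | .mu φ => .nu (ng_NG φ)
  | .nu φ => .mu (ng_NG φ)

theorem free_NG {P : Type} (φ : Fm P) : ∀ n, (ng_NG φ).free n ↔ φ.free n := by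
  induction φ with
  | prop p => intro n; exact Iff.rfl
  | nprop p => intro n; exact Iff.rfl
  | top => intro n; exact Iff.rfl
  | bot => intro n; exact Iff.rfl
  | var k => intro n; exact Iff.rfl
  | and φ ψ h1 h2 => intro n; exact or_congr (h1 n) (h2 n)
  | or φ ψ h1 h2 => intro n; exact or_congr (h1 n) (h2 n)
  | dia φ h => intro n; exact h n
  | box φ h => intro n; exact h n
  | mu φ h => intro n; exact h (n + 1)
  | nu φ h => intro n; exact h (n + 1)

theorem dep_NG {P : Type} (φ : Fm P) :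
    ∀ n, ((ng_NG φ).nuDep n ↔ φ.muDep n) ∧ ((ng_NG φ).muDep n ↔ φ.nuDep n) := by
  induction φ with
  | prop p => intro n; exact ⟨Iff.rfl, Iff.rfl⟩
  | nprop p => intro n; exact ⟨Iff.rfl, Iff.rfl⟩
  | top => intro n; exact ⟨Iff.rfl, Iff.rfl⟩
  | bot => intro n; exact ⟨Iff.rfl, Iff.rfl⟩
  | var k => intro n; exact ⟨Iff.rfl, Iff.rfl⟩
  | and φ ψ h1 h2 => intro n; exact ⟨or_congr (h1 n).1 (h2 n).1, or_congr (h1 n).2 (h2 n).2⟩
  | or φ ψ h1 h2 => intro n; exact ⟨or_congr (h1 n).1 (h2 n).1, or_congr (h1 n).2 (h2 n).2⟩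
  | dia φ h => intro n; exact h n
  | box φ h => intro n; exact h n
  | mu φ h => intro n; exact ⟨free_NG φ (n + 1), (h (n + 1)).2⟩
  | nu φ h => intro n; exact ⟨(h (n + 1)).1, free_NG φ (n + 1)⟩

theorem alt_NG {P : Type} (φ : Fm P) : (ng_NG φ).altFree ↔ φ.altFree := by
  induction φ with
  | prop p => exact Iff.rfl
  | nprop p => exact Iff.rfl
  | top => exact Iff.rfl
  | bot => exact Iff.rfl
  | var k => exact Iff.rfl
  | and φ ψ h1 h2 => exact and_congr h1 h2
  | or φ ψ h1 h2 => exact and_congr h1 h2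
  | dia φ h => exact h
  | box φ h => exact h
  | mu φ h => exact and_congr h (not_congr (dep_NG φ 0).2)
  | nu φ h => exact and_congr h (not_congr (dep_NG φ 0).1)

theorem ec_NG {α : Type} (X : Set α) (V : ℕ → Set α) :
    ec Xᶜ (fun n => (V n)ᶜ) = fun n => (ec X V n)ᶜ := by
  funext n
  cases n <;> rfl

theorem sem_NG {P : Type} (φ : Fm P) :
    ∀ V : ℕ → Set (Tre (Set P)), (ng_NG φ).SEM (fun n => (V n)ᶜ) = (φ.SEM V)ᶜ := by
  induction φ with
  | prop p => intro V; rfl
  | nprop p =>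
    intro V
    ext t
    show p ∈ t [] ↔ ¬ (p ∉ t [])
    exact not_not.symm
  | top =>
    intro V
    show (∅ : Set (Tre (Set P))) = univᶜ
    exact compl_univ.symm
  | bot =>
    intro V
    show (univ : Set (Tre (Set P))) = ∅ᶜ
    exact compl_empty.symm
  | var k => intro V; rfl
  | and φ ψ h1 h2 =>
    intro V
    show (ng_NG φ).SEM _ ∪ (ng_NG ψ).SEM _ = (φ.SEM V ∩ ψ.SEM V)ᶜ
    rw [h1, h2, compl_inter]
  | or φ ψ h1 h2 =>
    intro V
    show (ng_NG φ).SEM _ ∩ (ng_NG ψ).SEM _ = (φ.SEM V ∪ ψ.SEM V)ᶜ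
    rw [h1, h2, compl_union]
  | dia φ h =>
    intro V
    ext t
    show (∀ b : Bool, t.sub [b] ∈ (ng_NG φ).SEM (fun n => (V n)ᶜ)) ↔
      ¬ ∃ b : Bool, t.sub [b] ∈ φ.SEM V
    rw [h V]
    exact not_exists.symm
  | box φ h =>
    intro V
    ext t
    show (∃ b : Bool, t.sub [b] ∈ (ng_NG φ).SEM (fun n => (V n)ᶜ)) ↔
      ¬ ∀ b : Bool, t.sub [b] ∈ φ.SEM V
    rw [h V]
    exact not_forall.symm
  | mu φ h =>
    intro V
    ext t
    show t ∈ ⋃₀ {X | X ⊆ (ng_NG φ).SEM (ec X (fun n => (V n)ᶜ))} ↔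
      ¬ t ∈ ⋂₀ {X | φ.SEM (ec X V) ⊆ X}
    constructor
    · rintro ⟨X, hX, ht⟩ h2
      have hX' : X ⊆ (ng_NG φ).SEM (ec X (fun n => (V n)ᶜ)) := hX
      have h3 : t ∈ Xᶜ := by
        apply h2
        show φ.SEM (ec Xᶜ V) ⊆ Xᶜ
        have h4 := h (ec Xᶜ V)
        rw [← ec_NG, compl_compl] at h4
        rw [h4] at hX'
        exact subset_compl_comm.mp hX'
      exact h3 ht
    · intro h2
      have h3 : ∃ X, φ.SEM (ec X V) ⊆ X ∧ t ∉ X := by
        by_contra hcon
        apply h2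
        intro X hX
        by_contra hx
        exact hcon ⟨X, hX, hx⟩
      obtain ⟨X, hX, hx⟩ := h3
      refine ⟨Xᶜ, ?_, hx⟩
      show Xᶜ ⊆ (ng_NG φ).SEM (ec Xᶜ (fun n => (V n)ᶜ))
      rw [ec_NG, h]
      exact compl_subset_compl.mpr hX
  | nu φ h =>
    intro V
    ext t
    show t ∈ ⋂₀ {X | (ng_NG φ).SEM (ec X (fun n => (V n)ᶜ)) ⊆ X} ↔
      ¬ t ∈ ⋃₀ {X | X ⊆ φ.SEM (ec X V)}
    constructor
    · rintro h2 ⟨X, hX, ht⟩
      have hX' : X ⊆ φ.SEM (ec X V) := hX
      have h3 : t ∈ Xᶜ := by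
        apply h2
        show (ng_NG φ).SEM (ec Xᶜ (fun n => (V n)ᶜ)) ⊆ Xᶜ
        rw [ec_NG, h]
        exact compl_subset_compl.mpr hX'
      exact h3 ht
    · intro h2 X hX
      have hX' : (ng_NG φ).SEM (ec X (fun n => (V n)ᶜ)) ⊆ X := hX
      by_contra hx
      apply h2
      refine ⟨Xᶜ, ?_, hx⟩
      show Xᶜ ⊆ φ.SEM (ec Xᶜ V)
      have h4 := h (ec Xᶜ V)
      rw [← ec_NG, compl_compl] at h4
      rw [h4] at hX'
      exact compl_subset_comm.mp hX'

theorem hNG : StNG := by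
  intro P φ hf ha
  refine ⟨ng_NG φ, fun n hn => hf n ((free_NG φ n).mp hn), (alt_NG φ).mpr ha, sem_NG φ⟩

end Pool.Agent.Helper30.WL

end

section

set_option autoImplicit false

/-!
Project WL (MP_76577a_lc): complete languages are not self dual.
-/

namespace Pool.Agent.Helper30.WL

open Set
open Pool.Agent.Helper24.WH (Tre pT)

private lemma ag_mono_NS {X : Type} (i : Bits X) {m n : ℕ} (h : m ≤ n) {x y : X}
    (hxy : Ag i n x y) : Ag i m x y := fun k hk => hxy k (lt_of_lt_of_le hk h)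

theorem hNS (hSB : StSB) : StNS := by
  intro Q _ C C' L L' hC hL
  obtain ⟨sb1, sb2, sb3⟩ := hSB (Q ⊕ Fin 3)
  have hag : ∀ (n : ℕ) (t t' : Tre (Lt3 Q)), (∀ u : List Bool, u.length < n → t u = t' u) →
      Ag std n t t' := by
    intro n t t' h m hm
    exact sb1 m t t' (fun u hu => h u (lt_of_le_of_lt hu hm))
  have hcts : ∀ k : Tre (Lt3 Q) → Tre (Lt3 Q), Ctr std k → Cts std std k := by
    intro k hk n y
    refine ⟨n, fun y' hy => hag n _ _ (fun u hu => hk u y y' (ag_mono_NS std hu.le hy))⟩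
  have hcont : ∀ k : Tre (Lt3 Q) → Tre (Lt3 Q), Ctr std k →
      @Continuous _ _ (pT (Lt3 Q)) (pT (Lt3 Q)) k :=
    fun k hk => (sb3 (Q ⊕ Fin 3) k).1 (hcts k hk)
  have hfix : ∀ k : Tre (Lt3 Q) → Tre (Lt3 Q), Ctr std k → ∃ t, k t = t := by
    intro k hk
    let t : ℕ → Tre (Lt3 Q) := fun n => k^[n] (fun _ _ => false)
    have hts : ∀ n, t (n + 1) = k (t n) := fun n => Function.iterate_succ_apply' k n _
    have hstep : ∀ n, ∀ u : List Bool, u.length < n → t n u = t (n + 1) u := by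
      intro n
      induction n with
      | zero => intro u hu; exact absurd hu (Nat.not_lt_zero _)
      | succ n ih =>
        intro u hu
        rw [hts n, hts (n + 1)]
        exact hk u _ _ (ag_mono_NS std (Nat.lt_succ_iff.1 hu) (hag n _ _ ih))
    have hst : ∀ (u : List Bool) (d : ℕ), t (u.length + 1 + d) u = t (u.length + 1) u := by
      intro u d
      induction d with
      | zero => rfl
      | succ d ih =>
        rw [← ih]
        exact (hstep (u.length + 1 + d) u (by omega)).symm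
    refine ⟨fun u => t (u.length + 1) u, ?_⟩
    funext u
    have h1 : Ag std u.length (fun v => t (v.length + 1) v) (t (u.length + 1)) := by
      apply hag
      intro v hv
      have := hst v (u.length - v.length)
      have e : v.length + 1 + (u.length - v.length) = u.length + 1 := by omega
      rw [e] at this
      exact this.symm
    rw [hk u _ _ h1, ← hts]
    exact hst u 1
  have hpart1 : ¬ ∃ f : Tre (Lt3 Q) → Tre (Lt3 Q),
      @Continuous _ _ (pT (Lt3 Q)) (pT (Lt3 Q)) f ∧ ∀ t, t ∉ L ↔ f t ∈ L := by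
    rintro ⟨f, hf, hfL⟩
    have hpre : C (Tre (Lt3 Q)) std (f ⁻¹' L) := by
      exact hC.pre _ _ std std f L ((sb3 (Q ⊕ Fin 3) f).2 hf) hL.1
    obtain ⟨k, hk, -, hkL⟩ := hL.2 _ _ _ hpre
    obtain ⟨t, ht⟩ := hfix k hk
    have h1 := hkL t
    rw [ht] at h1
    have h2 := hfL t
    have h3 : t ∈ f ⁻¹' L ↔ f t ∈ L := Iff.rfl
    tauto
  refine ⟨hpart1, ?_⟩
  intro hlt hL'
  refine ⟨?_, ?_⟩
  · obtain ⟨k, hk, -, hkL⟩ := hL'.2 _ _ _ (hlt _ _ L (Or.inl hL.1))
    exact ⟨k, hcont k hk, hkL⟩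
  · rintro ⟨f, hf, hfL⟩
    have hc : C' (Tre (Lt3 Q)) std Lᶜ := hlt _ _ Lᶜ (Or.inr (by rw [compl_compl]; exact hL.1))
    obtain ⟨k, hk, -, hkL⟩ := hL'.2 _ _ _ hc
    apply hpart1
    refine ⟨fun t => f (k t), ?_, ?_⟩
    · exact @Continuous.comp _ _ _ (pT (Lt3 Q)) (pT (Lt3 Q)) (pT (Lt3 Q)) k f hf (hcont k hk)
    · intro t
      have h1 := hkL t
      have h2 := hfL (k t)
      rw [mem_compl_iff] at h1
      tauto

end Pool.Agent.Helper30.WL

end
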