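import Pool.Agent.Helper76.WHC.B2
import Pool.Agent.Helper76.WHC.B4
import Pool.Agent.Helper76.WHC.L1
import Pool.Agent.Helper76.WHC.L2
import Pool.Agent.Helper76.WHC.L3

/-!
# PROJECT WL (MP_76577a_lc): the lower bound
-/

set_option autoImplicit false

namespace Pool.Agent.Helper30.WL

/-- for every ordinal below `ε₀` some definable set has at least this rank -/
theorem lower : StLO := by
  have f1 : Helper24.WH.StF1 := Helper24.WH.hF1
  have f2 : Helper24.WH.StF2 := Helper24.WH.hF2
  have hlg : StLG := hLG f1 f2
  have hkey : StKEY := hKEY hCLS hLT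
  have hfd : StFD := hFD hGE hGS hLT hkey
  have hme : StME := hME hSB
  have hms : StMS := hMS hSB
  have hds : StDS := hDS f2 hNG hlg hDPN
  have htl : StTL := hTL hTA f2
  have hde : StDE := hDE hTA htl hlg
  have hst : StST := hST hfd hGE hHZ hHE hHS hme hms hds hde hGS
  have hcn : StCN := hCN hst hHZ hGE
  exact hLO hcn (hNS hSB)

end Pool.Agent.Helper30.WL
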